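import Pool.Agent.PFU.StmtsE
import Pool.Agent.PFlow.E.ABSF

/-!
# ABSFT: the flux inequality for several ends
-/

open MeasureTheory Filter Topology
open scoped ContDiff ENNReal Matrix MatrixOrder

namespace Pool.Agent.PFU

open Pool.Agent.PenroseSph Pool.Agent.PFlow Pool.Agent.PFT

open Pool.Agent.PFlow.ABSFm in
theorem t_ABSFT (hSETWT : Stmt_SETWT) (hFLXU : Stmt_FLXU) : Stmt_ABSFT := by
  intro F P D hD ψ hψ hψ0 hψc hψs
  obtain ⟨-, -, -, -, -, -, -, -, -, -, -, -, -, -, hK, -, -, -, -, -, -, -, -, hopen, -⟩ :=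
    hSETWT F P D hD
  have hε := hD.eps_pos
  have hε2 := hD.eps_le
  have hε1 : P.eps < 1 := by linarith
  obtain ⟨s, s', hs1, hs2, hs3⟩ := exists_bounds hψc hψs
  obtain ⟨K, hKc, hKs, hK1⟩ := hK s s' hs1 hs2
  have hpos : ∀ x ∈ omT F D, 0 < D.u x := fun x hx => hD.located.pos x hx.1
  -- the support
  have hS : ∀ t, s' < t → ψ t = 0 := by
    intro t ht
    by_contra hne
    have := (hs3 t (subset_tsupport _ hne)).2
    linarith
  have key := hFLXU P.eps (omT F D) D.g' D.h' D.u D.G D.M hε hε1 hopen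
    hD.modified.metric hD.modified.tensor hD.sol.h2 hD.sol.flux (psi1 P.eps ψ) K
    (psi1_contDiff hε hψ hS) hKc hKs (by
      intro x hx hux
      have h1 := psi1_tsupport (hpos x hx) hux
      exact hK1 ⟨hx, hs3 _ h1⟩)
  -- the right side is nonnegative
  have hr : 0 ≤ ∫ x in omT F D,
      len D.g' x (D.G x) ^ P.eps * beps P.eps D.g' x (D.G x) (D.h' x) * psi1 P.eps ψ (D.u x)
        * volDen D.g' x := by
    apply integral_nonneg
    intro x
    have h1 : 0 ≤ psi1 P.eps ψ (D.u x) := by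
      unfold psi1
      split_ifs
      · exact hψ0 _
      · exact le_refl _
    have h2 : 0 ≤ volDen D.g' x := Real.sqrt_nonneg _
    have h3 : 0 ≤ len D.g' x (D.G x) ^ P.eps * beps P.eps D.g' x (D.G x) (D.h' x) := by
      rcases eq_or_ne (D.G x) 0 with h0 | h0
      · have : len D.g' x (D.G x) = 0 := by
          rw [h0]
          simp [len, ev]
        rw [this, Real.zero_rpow hε.ne', zero_mul]
      · refine mul_nonneg (Real.rpow_nonneg (Real.sqrt_nonneg _) _) ?_
        exact beps_nonneg hε hε1 (hD.modified.metric.posDef x trivial)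
          (hD.modified.tensor.symm x trivial) (hD.modified.twoNonneg x trivial) h0
    exact mul_nonneg (mul_nonneg h3 h1) h2
  -- the left side
  have hl : ∫ x in omT F D,
      deriv (psi1 P.eps ψ) (D.u x) * len D.g' x (D.G x) ^ (1 + P.eps) * volDen D.g' x
      = -(P.eps ^ (-P.eps)) * ∫ x in omT F D,
        deriv ψ (D.w P x) * (Real.exp (-D.w P x) * D.X P x ^ (1 + P.eps)) * D.vol x := by
    rw [← integral_const_mul]
    refine setIntegral_congr_fun hopen.measurableSet fun x hx => ?_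
    have hu := hpos x hx
    have hX : D.X P x = P.eps / D.u x * len D.g' x (D.G x) := by
      have e : D.Gw P x = (-(P.eps / D.u x)) • D.G x := by
        funext i
        simp only [Dat.Gw, gOf, Pi.smul_apply, smul_eq_mul]
        ring
      rw [Dat.X, e, len_smul, abs_neg, abs_of_pos (div_pos hε hu)]
    have hw : Real.exp (-D.w P x) = D.u x ^ P.eps := by
      rw [Dat.w, wOf, Real.rpow_def_of_pos hu]
      congr 1
      ring
    have hw' : -P.eps * Real.log (D.u x) = D.w P x := rfl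
    change deriv (psi1 P.eps ψ) (D.u x) * len D.g' x (D.G x) ^ (1 + P.eps) * volDen D.g' x
      = -(P.eps ^ (-P.eps)) * (deriv ψ (D.w P x)
        * (Real.exp (-D.w P x) * D.X P x ^ (1 + P.eps)) * D.vol x)
    have hlen0 : 0 ≤ len D.g' x (D.G x) := Real.sqrt_nonneg _
    rw [psi1_deriv hψ hu, hX, hw, hw', Real.mul_rpow (div_pos hε hu).le hlen0,
      Real.div_rpow hε.le hu.le, Real.rpow_add hε, Real.rpow_one, Real.rpow_add hu, Real.rpow_one,
      Real.rpow_neg hε.le]
    have e1 : P.eps ^ P.eps ≠ 0 := (Real.rpow_pos_of_pos hε _).ne'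
    have e2 : D.u x ^ P.eps ≠ 0 := (Real.rpow_pos_of_pos hu _).ne'
    have e3 : D.u x ≠ 0 := hu.ne'
    change _ = -(P.eps ^ P.eps)⁻¹ * (_ * _ * volDen D.g' x)
    field_simp
  rw [hl] at key
  have hc : 0 < P.eps ^ (-P.eps) := Real.rpow_pos_of_pos hε _
  have h5 : 0 ≤ -(P.eps ^ (-P.eps)) * ∫ x in omT F D,
        deriv ψ (D.w P x) * (Real.exp (-D.w P x) * D.X P x ^ (1 + P.eps)) * D.vol x := by
    rw [key]
    exact hr
  nlinarith

end Pool.Agent.PFU
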