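import Pool.Agent.PFU.StmtsE
import Pool.Agent.PFlow.M_Coef

/-!
# Flows from several ends: integrability over the level regions
-/

set_option autoImplicit false

open MeasureTheory Filter Topology
open scoped ContDiff ENNReal

namespace Pool.Agent.PFU

open Pool.Agent.PenroseSph Pool.Agent.PFlow Pool.Agent.PFT

namespace ABSITaux

theorem annT_exhaust (T : Finset E3) (a b : ℝ) : ∃ K : ℕ → Set E3, (∀ n, IsCompact (K n)) ∧
    (∀ n, K n ⊆ AnnT T a b) ∧ ⋃ n, K n = AnnT T a b := by
  refine ⟨fun n => {x : E3 | ‖x‖ ≤ b - 1 / ((n : ℝ) + 1) ∧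
    ∀ p ∈ T, a + 1 / ((n : ℝ) + 1) ≤ ‖x - p‖}, ?_, ?_, ?_⟩
  · intro n
    have h2 : IsClosed {x : E3 | ∀ p ∈ T, a + 1 / ((n : ℝ) + 1) ≤ ‖x - p‖} := by
      simp only [Set.ofPred_forall]
      exact isClosed_biInter fun p _ =>
        isClosed_le continuous_const (continuous_id.sub continuous_const).norm
    have h1 : IsClosed {x : E3 | ‖x‖ ≤ b - 1 / ((n : ℝ) + 1) ∧
        ∀ p ∈ T, a + 1 / ((n : ℝ) + 1) ≤ ‖x - p‖} :=
      (isClosed_le continuous_norm continuous_const).inter h2
    refine (isCompact_closedBall (0 : E3) (b - 1 / ((n : ℝ) + 1))).of_isClosed_subset h1 ?_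
    intro x hx
    rw [Metric.mem_closedBall, dist_zero_right]
    exact hx.1
  · intro n x hx
    have h0 : 0 < 1 / ((n : ℝ) + 1) := by positivity
    exact ⟨by linarith [hx.1], fun p hp => by linarith [hx.2 p hp]⟩
  · ext x
    rw [Set.mem_iUnion]
    constructor
    · rintro ⟨n, hx⟩
      have h0 : 0 < 1 / ((n : ℝ) + 1) := by positivity
      exact ⟨by linarith [hx.1], fun p hp => by linarith [hx.2 p hp]⟩
    · intro hx
      have h1 : ∀ᶠ n : ℕ in atTop, ∀ p ∈ T, 1 / ((n : ℝ) + 1) < ‖x - p‖ - a := by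
        rw [Filter.eventually_all_finset]
        intro p hp
        exact tendsto_one_div_add_atTop_nhds_zero_nat.eventually_lt_const
          (by linarith [hx.2 p hp])
      have h2 : ∀ᶠ n : ℕ in atTop, 1 / ((n : ℝ) + 1) < b - ‖x‖ :=
        tendsto_one_div_add_atTop_nhds_zero_nat.eventually_lt_const (by linarith [hx.1])
      obtain ⟨n, hn1, hn2⟩ := (h1.and h2).exists
      exact ⟨n, by linarith, fun p hp => by linarith [hn1 p hp]⟩

theorem chr_symm {U : Set E3} {g : TensorField} (hU : IsOpen U) (hg : MetricOn U g) {x : E3}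
    (hx : x ∈ U) (k i j : Fin 3) : christoffel g k i j x = christoffel g k j i x := by
  have h1 : ∀ a b : Fin 3, (fun y => g y a b) =ᶠ[𝓝 x] fun y => g y b a := by
    intro a b
    filter_upwards [hU.mem_nhds hx] with y hy
    have := (hg.posDef y hy).isHermitian.apply a b
    simpa using this.symm
  have h2 : ∀ l a b : Fin 3, pd l (fun y => g y a b) x = pd l (fun y => g y b a) x := by
    intro l a b
    unfold pd
    rw [(h1 a b).fderiv_eq]
  unfold christoffel
  congr 1
  refine Finset.sum_congr rfl fun l _ => ?_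
  rw [h2 l i j]
  ring

end ABSITaux

theorem t_ABSIT (hSETWT : Stmt_SETWT) (hINT : Stmt_INT) (hPTD : Stmt_PTD) (hHSYM : Stmt_HSYM) :
    Stmt_ABSIT := by
  intro F P D hs
  obtain ⟨hg, hh, h2n, hH2, hEq, -, -, -, -, -, -, -, -, -, hKs, -, -, -, -, -, -, -, -, hU, -, -⟩ :=
    hSETWT F P D hs
  have heps1 : P.eps < 1 := by linarith [hs.eps_le]
  have hI := hINT P.eps (omT F D) D.g' D.h' (D.w P) (D.Gw P) (D.Mw P) hs.eps_pos heps1 hU hg hh hH2 hEq
  have lvl : ∀ f : E3 → ℝ, (∀ K : Set E3, IsCompact K → K ⊆ omT F D → IntegrableOn f K) →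
      LvlIntT F P D f := by
    intro f hf s s' h1 _ h3
    obtain ⟨K, hK, hKU, hsub⟩ := hKs s s' h1 h3
    exact (hf K hK hKU).mono_set hsub
  have hvol0 : ∀ x, 0 ≤ D.vol x := fun x => Real.sqrt_nonneg _
  have hX0 : ∀ x, 0 ≤ D.X P x := fun x => Real.sqrt_nonneg _
  have hvolc : ∀ K : Set E3, K ⊆ omT F D → ContinuousOn D.vol K := fun K hKU x hx =>
    (MCF.volDen_smooth hU hg (hKU hx)).continuousAt.continuousWithinAt
  have hvol : ∀ K : Set E3, IsCompact K → K ⊆ omT F D → IntegrableOn D.vol K := fun K hK hKU =>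
    (hvolc K hKU).integrableOn_compact hK
  have hX4 : ∀ K : Set E3, IsCompact K → K ⊆ omT F D →
      IntegrableOn (fun x => D.X P x ^ 4 * D.vol x) K := fun K hK hKU => (hI K hK hKU).2.1
  have hGm : ∀ K : Set E3, IsCompact K → K ⊆ omT F D → ∀ i,
      AEMeasurable (fun x => D.Gw P x i) (volume.restrict K) := fun K hK hKU i =>
    (hH2.memG K hK hKU i).1.aemeasurable
  have hXm : ∀ K : Set E3, IsCompact K → K ⊆ omT F D → AEMeasurable (D.X P) (volume.restrict K) :=
    fun K hK hKU => MCF.m_len (MCF.coef hU hg hh hK hKU) (hGm K hK hKU)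
  have hvm : ∀ K : Set E3, IsCompact K → K ⊆ omT F D → AEMeasurable D.vol (volume.restrict K) :=
    fun K hK hKU => (MCF.coef hU hg hh hK hKU).vol
  have hdom : ∀ K : Set E3, IsCompact K → K ⊆ omT F D →
      IntegrableOn (fun x => D.vol x + D.X P x ^ 4 * D.vol x) K := fun K hK hKU =>
    (hvol K hK hKU).add (hX4 K hK hKU)
  have hXle : ∀ x, D.X P x ≤ 1 + D.X P x ^ 4 := by
    intro x
    nlinarith [hX0 x, sq_nonneg (D.X P x ^ 2 - 1), sq_nonneg (D.X P x - 1)]
  have hX3le : ∀ x, D.X P x ^ 3 ≤ 1 + D.X P x ^ 4 := by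
    intro x
    have h1 := hX0 x
    by_cases hc : D.X P x ≤ 1
    · have : D.X P x ^ 3 ≤ 1 := pow_le_one₀ h1 hc
      have : 0 ≤ D.X P x ^ 4 := by positivity
      linarith
    · push Not at hc
      have : D.X P x ^ 3 ≤ D.X P x ^ 4 := pow_le_pow_right₀ hc.le (by norm_num)
      linarith
  refine ⟨lvl _ hvol, lvl _ ?_, lvl _ ?_, lvl _ ?_, lvl _ ?_, lvl _ ?_, ?_, ?_⟩
  · intro K hK hKU
    refine (hdom K hK hKU).mono' (((hXm K hK hKU).pow_const 3).mul
      (hvm K hK hKU)).aestronglyMeasurable (Eventually.of_forall fun x => ?_)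
    have h1 := hX0 x
    have h2 := hvol0 x
    rw [Real.norm_of_nonneg (by positivity)]
    calc D.X P x ^ 3 * D.vol x ≤ (1 + D.X P x ^ 4) * D.vol x :=
          mul_le_mul_of_nonneg_right (hX3le x) h2
      _ = _ := by ring
  · intro K hK hKU
    exact (hI K hK hKU).2.2.2.2.1
  · intro K hK hKU
    exact (hI K hK hKU).2.2.2.2.2.1
  · intro K hK hKU
    have hc := MCF.coef hU hg hh hK hKU
    have hjc : ∀ x ∈ omT F D, ContinuousAt (surplus D.g' D.h') x := by
      intro x hx
      unfold surplus jlen ev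
      refine (MCF.energy_smooth hU hg hh hx).continuousAt.sub ?_
      refine Real.continuous_sqrt.continuousAt.comp ?_
      have h1 : ContDiffAt ℝ ∞ (fun x => ∑ i, ∑ j, (D.g' x)⁻¹ i j
          * momentumDensity D.g' D.h' i x * momentumDensity D.g' D.h' j x) x :=
        ContDiffAt.sum fun i _ => ContDiffAt.sum fun j _ =>
          ((MCF.inv_smooth hU hg hx i j).mul (MCF.mom_smooth hU hg hh hx i)).mul
            (MCF.mom_smooth hU hg hh hx j)
      exact h1.continuousAt
    have hsc : ContinuousOn (surplus D.g' D.h') K := fun x hx =>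
      (hjc x (hKU hx)).continuousWithinAt
    obtain ⟨C, hC⟩ := hK.exists_bound_of_continuousOn hsc
    have hsm : AEMeasurable (surplus D.g' D.h') (volume.restrict K) :=
      (hsc.aestronglyMeasurable hK.measurableSet).aemeasurable
    refine Integrable.mono' ((hdom K hK hKU).const_mul |C|)
      (((hXm K hK hKU).mul hsm).mul (hvm K hK hKU)).aestronglyMeasurable ?_
    refine (ae_restrict_iff' hK.measurableSet).2 (Eventually.of_forall fun x hx => ?_)
    have h1 := hX0 x
    have h2 := hvol0 x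
    have h3 : |surplus D.g' D.h' x| ≤ |C| := by
      have := hC x hx
      rw [Real.norm_eq_abs] at this
      exact this.trans (le_abs_self C)
    show ‖D.X P x * surplus D.g' D.h' x * D.vol x‖ ≤ |C| * (D.vol x + D.X P x ^ 4 * D.vol x)
    rw [norm_mul, norm_mul, Real.norm_of_nonneg h1, Real.norm_of_nonneg h2, Real.norm_eq_abs]
    calc D.X P x * |surplus D.g' D.h' x| * D.vol x
        ≤ (1 + D.X P x ^ 4) * |C| * D.vol x := by
          refine mul_le_mul_of_nonneg_right ?_ h2
          exact mul_le_mul (hXle x) h3 (abs_nonneg _) (by positivity)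
      _ = _ := by ring
  · intro K hK hKU
    exact (hI K hK hKU).2.2.2.2.2.2.1
  · obtain ⟨C, -, hC⟩ := hPTD P.eps hs.eps_pos hs.eps_le
    have hsym := hHSYM (omT F D) (D.w P) (D.Gw P) (D.Mw P) hU hH2
    have hmem : ∀ᵐ x ∂(volume.restrict (omT F D)), x ∈ omT F D := ae_restrict_mem hU.measurableSet
    filter_upwards [hsym, hEq, hmem] with x hx1 hx2 hx3
    by_cases h0 : D.Gw P x = 0
    · have h1 : D.X P x = 0 := by
        unfold Dat.X len ev
        rw [h0]
        simp
      unfold Dat.Di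
      rw [h1, zero_mul]
    · have h1 := (hC D.g' D.h' x (D.Gw P x) (D.Mw P x) (hg.posDef x hx3) (hh.symm x hx3) hx1
        (ABSITaux.chr_symm hU hg hx3) h0 (h2n x hx3) (hx2.1 h0)).1
      exact mul_nonneg (hX0 x) h1
  · obtain ⟨K, hK, hKU, hKe⟩ := ABSITaux.annT_exhaust F.T (1 / D.R) D.R
    have h1 : AEMeasurable (D.X P) (volume.restrict (omT F D)) := by
      unfold omT
      rw [← hKe, aemeasurable_iUnion_iff]
      intro n
      exact hXm (K n) (hK n) (hKU n)
    exact h1.aestronglyMeasurable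

end Pool.Agent.PFU
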