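import Pool.Agent.PFU.StmtsE
import Pool.Agent.PFlow.E.ABSM

/-!
# The level set inequality for a setup with several ends
-/

set_option autoImplicit false

open MeasureTheory Filter Topology
open scoped ContDiff ENNReal

namespace Pool.Agent.PFU

open Pool.Agent.PenroseSph Pool.Agent.PFlow Pool.Agent.PFT

namespace ABSMTaux

/-- A bounded measurable function of `w` times a function integrable over the level regions. -/
theorem int_mul {F : Fr} {P : Par} {D : Dat} {f : E3 → ℝ} (hf : LvlIntT F P D f)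
    (hw : Measurable (D.w P)) (hm : MeasurableSet (omT F D)) (hlt : D.sb P / 4 < D.sM P)
    {ψ : ℝ → ℝ} (hc : Continuous ψ) (hcs : HasCompactSupport ψ)
    (hsupp : tsupport ψ ⊆ Set.Ioo (D.sb P / 4) (D.sM P)) :
    IntegrableOn (fun x => ψ (D.w P x) * f x) (omT F D) := by
  obtain ⟨s, s', h1, h2, h3, h4⟩ : ∃ s s', D.sb P / 4 < s ∧ s < s' ∧ s' < D.sM P ∧
      tsupport ψ ⊆ Set.Icc s s' := by
    by_cases hne : (tsupport ψ).Nonempty
    · have hK : IsCompact (tsupport ψ) := hcs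
      obtain ⟨a, ha, hamin⟩ := hK.exists_isLeast hne
      obtain ⟨b, hb, hbmax⟩ := hK.exists_isGreatest hne
      have ha' := hsupp ha
      have hb' := hsupp hb
      have hab : a ≤ b := hamin hb
      refine ⟨(D.sb P / 4 + a) / 2, (b + D.sM P) / 2, by linarith [ha'.1], ?_, by linarith [hb'.2],
        ?_⟩
      · linarith [ha'.1, hb'.2]
      · intro x hx
        have e1 := hamin hx
        have e2 := hbmax hx
        exact ⟨by linarith [ha'.1], by linarith [hb'.2]⟩
    · rw [Set.not_nonempty_iff_eq_empty] at hne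
      refine ⟨(2 * (D.sb P / 4) + D.sM P) / 3, (D.sb P / 4 + 2 * D.sM P) / 3, by linarith,
        by linarith, by linarith, ?_⟩
      rw [hne]
      exact Set.empty_subset _
  set S : Set E3 := omT F D ∩ {x | s ≤ D.w P x ∧ D.w P x ≤ s'} with hS
  have hSm : MeasurableSet S :=
    hm.inter ((measurableSet_le measurable_const hw).inter (measurableSet_le hw measurable_const))
  obtain ⟨C, hC⟩ := hc.bounded_above_of_compact_support hcs
  have hi : IntegrableOn (fun x => ψ (D.w P x) * f x) S := by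
    refine Integrable.bdd_mul (c := C) (hf s s' h1 h2 h3)
      (hc.measurable.comp hw).aestronglyMeasurable ?_
    exact Eventually.of_forall fun x => hC _
  have hz : ∀ x ∈ omT F D \ S, ψ (D.w P x) * f x = 0 := by
    intro x hx
    have hnot : D.w P x ∉ tsupport ψ := fun hmem => hx.2 ⟨hx.1, h4 hmem⟩
    rw [image_eq_zero_of_notMem_tsupport hnot, zero_mul]
  exact hi.of_forall_sdiff_eq_zero hm hz

/-- the integral of `ψ` up to the level `c` -/
theorem int_Iic_le {ψ : ℝ → ℝ} {c b : ℝ} (hc : 0 < c) (hψ : Continuous ψ) (h0 : ∀ s, 0 ≤ ψ s)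
    (hz : ∀ s, s ≤ 0 → ψ s = 0) (hb : ∀ s, s ≤ c → ψ s ≤ b) :
    (∫ s in Set.Iic c, ψ s) ≤ c * b := by
  have e1 : (∫ s in Set.Iic c, ψ s) = ∫ s in Set.Ioc 0 c, ψ s := by
    refine (setIntegral_eq_of_subset_of_forall_sdiff_eq_zero measurableSet_Iic ?_ ?_)
    · intro x hx
      exact hx.2
    · intro x hx
      refine hz x ?_
      by_contra hcon
      exact hx.2 ⟨not_le.1 hcon, hx.1⟩
  rw [e1, ← intervalIntegral.integral_of_le hc.le]
  have h := intervalIntegral.integral_mono_on (μ := volume) hc.le (hψ.intervalIntegrable 0 c)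
    (intervalIntegrable_const (c := b)) (fun s hs => hb s hs.2)
  simpa using h

end ABSMTaux

open ABSMTaux Pool.Agent.PFlow.ABSMaux in
theorem t_ABSMT (hSETWT : Stmt_SETWT) (hABSIT : Stmt_ABSIT) (hMIU : Stmt_MIU) : Stmt_ABSMT := by
  intro F P D hS ψ b hψ hψ0 hcs hsupp hb
  obtain ⟨hg, hh, hTN, hH2, hEq, hNI, hw, hSep, -, -, -, -, -, -, -, hsb, hsb1, hsbe, hs2, hsM,
    hKR, hlK, hPts, hOpen, -, -⟩ := hSETWT F P D hS
  obtain ⟨-, -, -, hDi, hSu, hMat, -, -⟩ := hABSIT F P D hS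
  have hgam := hS.gam_pos
  have heps := hS.eps_pos
  have hlt : D.sb P / 4 < D.sM P := by linarith
  have hOm : MeasurableSet (omT F D) := hOpen.measurableSet
  have hm := hMIU P.eps (1 / D.R) D.R (D.sb P / 4) (D.sM P) (2 * P.eps) F.T D.g' D.h' (D.w P)
    (D.Gw P) (D.Mw P) hS.eps_pos (by linarith [hS.eps_le]) hPts hlt (by linarith) hg hh hH2 hEq hNI
    hSep hS.conn ψ hψ hcs hsupp hψ0
  have hiDi := int_mul hDi hw hOm hlt hψ.continuous hcs hsupp
  have hiSu := int_mul hSu hw hOm hlt hψ.continuous hcs hsupp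
  have hiMat := int_mul hMat hw hOm hlt hψ.continuous hcs hsupp
  have hle : ∫ x in omT F D, ψ (D.w P x) * (D.Su P x + D.Di P x) * D.vol x
      ≤ ∫ x in omT F D, ψ (D.w P x) * (len D.g' x (D.Gw P x)
          * (matter D.g' D.h' x (D.Gw P x) + diss P.eps D.g' D.h' x (D.Gw P x) (D.Mw P x)))
          * volDen D.g' x := by
    refine setIntegral_mono_on ?_ ?_ hOm ?_
    · refine (hiSu.add hiDi).congr (Eventually.of_forall fun x => ?_)
      simp only [Pi.add_apply]
      ring
    · refine (hiMat.add hiDi).congr (Eventually.of_forall fun x => ?_)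
      simp only [Pi.add_apply, Dat.Di, Dat.X, Dat.vol]
      ring
    · intro x hx
      have h1 := surplus_le D.g' D.h' x (hg.posDef x hx) (D.Gw P x)
      have h2 : 0 ≤ len D.g' x (D.Gw P x) := Real.sqrt_nonneg _
      have h3 : 0 ≤ volDen D.g' x := Real.sqrt_nonneg _
      have h4 : D.Su P x + D.Di P x ≤ len D.g' x (D.Gw P x)
          * (matter D.g' D.h' x (D.Gw P x) + diss P.eps D.g' D.h' x (D.Gw P x) (D.Mw P x)) := by
        simp only [Dat.Su, Dat.Di, Dat.X]
        nlinarith [mul_le_mul_of_nonneg_left h1 h2]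
      exact mul_le_mul_of_nonneg_right (mul_le_mul_of_nonneg_left h4 (hψ0 _)) h3
  have hz : ∀ s, s ≤ 0 → ψ s = 0 := by
    intro s hs
    refine image_eq_zero_of_notMem_tsupport fun hmem => ?_
    have := (hsupp hmem).1
    linarith
  have hI := int_Iic_le (c := 2 * P.eps) (by linarith) hψ.continuous hψ0 hz hb
  have hcard : (0 : ℝ) ≤ F.T.card - 1 := by
    have h1 : 1 ≤ F.T.card := Finset.card_pos.2 ⟨0, hS.frame.zero⟩
    have h2 : (1 : ℝ) ≤ (F.T.card : ℝ) := by exact_mod_cast h1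
    linarith
  have hpi := Real.pi_pos
  have hextra : 4 * Real.pi * (F.T.card - 1) * (∫ s in Set.Iic (2 * P.eps), ψ s) ≤ kT F P * b := by
    unfold kT
    have h5 : 0 ≤ 4 * Real.pi * ((F.T.card : ℝ) - 1) := by positivity
    calc 4 * Real.pi * (F.T.card - 1) * (∫ s in Set.Iic (2 * P.eps), ψ s)
        ≤ 4 * Real.pi * (F.T.card - 1) * (2 * P.eps * b) := mul_le_mul_of_nonneg_left hI h5
      _ = 8 * Real.pi * (F.T.card - 1) * P.eps * b := by ring
  change -(∫ x in AnnT F.T (1 / D.R) D.R, deriv ψ (D.w P x) * D.Phi P x * D.vol x) ≤ _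
  change _ ≤ 4 * Real.pi * (∫ s, ψ s) + kT F P * b
    - 1 / (2 - P.eps) * (∫ x in AnnT F.T (1 / D.R) D.R, ψ (D.w P x) * D.Phi P x * D.vol x)
    - ∫ x in AnnT F.T (1 / D.R) D.R, ψ (D.w P x) * (D.Su P x + D.Di P x) * D.vol x
  refine hm.trans ?_
  have hle' : ∫ x in AnnT F.T (1 / D.R) D.R, ψ (D.w P x) * (D.Su P x + D.Di P x) * D.vol x
      ≤ ∫ x in AnnT F.T (1 / D.R) D.R, ψ (D.w P x) * (len D.g' x (D.Gw P x)
          * (matter D.g' D.h' x (D.Gw P x) + diss P.eps D.g' D.h' x (D.Gw P x) (D.Mw P x)))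
          * volDen D.g' x := hle
  have h6 : (∫ x in AnnT F.T (1 / D.R) D.R, ψ (D.w P x) * D.Phi P x * D.vol x)
      = ∫ x in AnnT F.T (1 / D.R) D.R, ψ (D.w P x)
        * flux P.eps D.g' D.h' x (D.Gw P x) (D.Mw P x) * volDen D.g' x := rfl
  rw [h6]
  linarith

end Pool.Agent.PFU
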