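import Pool.Agent.PFU.StmtsE

/-!
# (ABST) Assembly of the structure `AbsT`
-/

open MeasureTheory Filter Topology
open scoped ContDiff ENNReal

namespace Pool.Agent.PFU

open Pool.Agent.PenroseSph Pool.Agent.PFlow Pool.Agent.PFT

/-- ABST: the abstract facts. -/
theorem t_ABST (hSETWT : Stmt_SETWT) (hABSIT : Stmt_ABSIT) (hABSMT : Stmt_ABSMT)
    (hXWOT : Stmt_XWOT) (hXWIT : Stmt_XWIT) (hABSXT : Stmt_ABSXT) (hABSWT : Stmt_ABSWT)
    (hABSFT : Stmt_ABSFT) : Stmt_ABST := by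
  intro F P
  by_cases hP : 0 < P.eps ∧ P.eps ≤ 1 / 2 ∧ 0 < P.gam
  swap
  · exact ⟨1, 1, one_pos, le_rfl, fun D hD _ => absurd ⟨hD.eps_pos, hD.eps_le, hD.gam_pos⟩ hP⟩
  obtain ⟨B1, hB1, hO⟩ := hXWOT P.eps P.gam hP.1 hP.2.1 hP.2.2
  obtain ⟨B2, l1, hB2, hl1, hI⟩ := hXWIT F P
  refine ⟨max B1 B2, l1, lt_max_of_lt_left hB1, hl1, fun D hD hl => ?_⟩
  obtain ⟨-, -, -, -, -, -, hmw, -, -, -, -, -, -, -, -, -, -, -, -, -, -, -, -, hop, -, -⟩ :=
    hSETWT F P D hD
  obtain ⟨h1, h2, h3, h4, h5, -, h7, h8⟩ := hABSIT F P D hD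
  have hl0 : (0 : ℝ) ≤ D.l := by linarith
  exact
    { measOmega := hop.measurableSet
      vol_nonneg := fun x => Real.sqrt_nonneg _
      X_nonneg := fun x => Real.sqrt_nonneg _
      D_nonneg := h7
      meas_w := hmw
      int_vol := h1
      int_X := h2
      meas_X := h8
      int_Phi := h3
      int_D := h4
      int_S := h5
      mi := hABSMT F P D hD
      xid := hABSXT F P D hD
      window := fun s hs hs' => (hO F P D rfl rfl hD s hs hs').trans (le_max_left _ _)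
      inner := by
        intro ψ A hψ hc hs hA
        refine (hI D hD hl ψ A hψ hc hs hA).trans ?_
        have hA0 : 0 ≤ A := (abs_nonneg _).trans (hA 0).1
        refine mul_le_mul_of_nonneg_right ?_ hA0
        exact mul_le_mul_of_nonneg_right (le_max_right _ _) (Real.rpow_nonneg hl0 _)
      willmore := hABSWT F P D hD
      flux := hABSFT F P D hD }

end Pool.Agent.PFU
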