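import Pool.Agent.PFU.StmtsE
import Pool.Agent.PFlow.E.ABSW

/-!
# ABSWT: Willmore's inequality in the flat region, for a setup with several ends
-/

set_option autoImplicit false

open MeasureTheory Filter Topology
open scoped ContDiff ENNReal

namespace Pool.Agent.PFU

open Pool.Agent.PenroseSph Pool.Agent.PFlow Pool.Agent.PFT

namespace ABSWTaux

lemma integrable_testT {F : Fr} {P : Par} {D : Dat} {f : E3 → ℝ} (hf : LvlIntT F P D f)
    (hw : Measurable (D.w P)) (hOm : MeasurableSet (omT F D)) {ψ : ℝ → ℝ} (hψ : Continuous ψ)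
    (hc : HasCompactSupport ψ)
    {s s' : ℝ} (h1 : D.sb P / 4 < s) (h2 : s < s') (h3 : s' < D.sM P)
    (h4 : ∀ t, ψ t ≠ 0 → s ≤ t ∧ t ≤ s') :
    IntegrableOn (fun x => ψ (D.w P x) * f x) (omT F D) := by
  obtain ⟨C, hC⟩ := hc.exists_bound_of_continuous hψ
  have h5 : IntegrableOn (fun x => ψ (D.w P x) * f x)
      (omT F D ∩ {x | s ≤ D.w P x ∧ D.w P x ≤ s'}) := by
    refine Integrable.bdd_mul (c := C) (hf s s' h1 h2 h3) ?_ ?_
    · exact (hψ.measurable.comp hw).aestronglyMeasurable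
    · exact Eventually.of_forall fun x => hC _
  refine h5.of_forall_sdiff_eq_zero hOm fun x hx => ?_
  have : ψ (D.w P x) = 0 := by
    by_contra h
    exact hx.2 ⟨hx.1, h4 _ h⟩
  rw [this, zero_mul]

end ABSWTaux

open Pool.Agent.PFlow.EABSW ABSWTaux in
/-- ABSWT: Willmore's inequality in the flat region. -/
theorem t_ABSWT (hSETWT : Stmt_SETWT) (hABSIT : Stmt_ABSIT) (hW : Stmt_W) (hPTD : Stmt_PTD)
    (hHSYM : Stmt_HSYM) (hINT : Stmt_INT) : Stmt_ABSWT := by
  intro F P D hS ψ hψ hψ0 hψc hψt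
  obtain ⟨hmet, hten, htwo, hH2, hEq, -, hwm, -, hSep, -, h4l, -, -, -, -, hsb0, hsb1, -, hs2,
    hs2M, hKlR, h4Kl, -, hOo, hAnn, -⟩ := hSETWT F P D hS
  obtain ⟨-, -, iPhi, iDi, -, -, -, -⟩ := hABSIT F P D hS
  have hl := hS.l_ge
  have hR : 8 * D.l ≤ D.R := by linarith
  have hRpos : 0 < D.R := by linarith
  have hε0 := hS.eps_pos
  have hε1 := hS.eps_le
  have hlt : D.s2 P < D.sM P := by linarith [hS.gam_pos]
  set U : Set E3 := Ann (2 * D.l) D.R with hU
  have hUo : IsOpen U := isOpen_Ann _ _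
  have hUO : U ⊆ omT F D := by
    intro x hx
    refine hAnn ⟨?_, hx.2⟩
    have h2 : 2 * D.l < ‖x‖ := hx.1
    have h3 := hS.l_rad
    have h5 := hS.frame.rad_ge
    linarith
  have hflat : ∀ x ∈ U, D.g' x = 1 := fun x hx => hS.modified.flat x hx.1.le
  have hflat' : ∀ x ∈ U, ∀ᶠ y in 𝓝 x, D.g' y = 1 := fun x hx => by
    filter_upwards [hUo.mem_nhds hx] with y hy
    exact hflat y hy
  have hh0 : ∀ x ∈ U, D.h' x = 0 := fun x hx => hS.modified.supp x (by
    have : 2 * D.l < ‖x‖ := hx.1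
    linarith)
  -- Willmore's inequality
  have hEqU : ∀ᵐ x ∂(volume.restrict U),
      (D.Gw P x ≠ 0 → beps P.eps D.g' x (D.Gw P x) (cHess D.g' x (D.Gw P x) (D.Mw P x))
        = len D.g' x (D.Gw P x) ^ 2
          + len D.g' x (D.Gw P x) * beps P.eps D.g' x (D.Gw P x) (D.h' x)) ∧
      (D.Gw P x = 0 → D.Mw P x = 0) := ae_restrict_of_ae_restrict_of_subset hUO hEq
  have hmsq : ∀ K : Set E3, IsCompact K → K ⊆ U →
      IntegrableOn (fun x => msq (D.Mw P x) / vn (D.Gw P x)) K := by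
    intro K hK hKU
    exact (hINT P.eps (omT F D) D.g' D.h' (D.w P) (D.Gw P) (D.Mw P) hε0 (by linarith) hOo hmet hten
      hH2 hEq K hK (hKU.trans hUO)).2.2.2.1
  have hWil := hW (2 * D.l) D.R (D.s2 P) (D.sM P) (D.w P) (D.Gw P) (D.Mw P) (by linarith)
    (by linarith) hlt (h2On_mono hUO hH2) (hEqU.mono fun x hx => hx.2) hmsq hSep ψ hψ hψc hψt hψ0
  -- the pointwise inequality
  obtain ⟨C, hC0, hC⟩ := hPTD P.eps hε0 hε1
  have hsym := ae_restrict_of_ae_restrict_of_subset hUO (hHSYM (omT F D) (D.w P) (D.Gw P) (D.Mw P)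
    hOo hH2)
  have hlam : 0 < lam P.eps := by
    unfold lam
    have : 0 < 2 - P.eps := by linarith
    have : 0 < 4 - P.eps := by linarith
    positivity
  have hpt : ∀ᵐ x ∂(volume.restrict U), (2 - P.eps) / 4 * Wd (D.Gw P x) (D.Mw P x) ≤
      D.Phi P x * D.vol x + 1 / lam P.eps * (D.Di P x * D.vol x) := by
    rw [ae_restrict_iff' hUo.measurableSet] at hEqU hsym ⊢
    filter_upwards [hEqU, hsym] with x hx hsx hxU
    have hx := hx hxU
    have hsx := hsx hxU
    have hv : D.vol x = 1 := volDen_flat (hflat x hxU)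
    rw [hv, mul_one, mul_one]
    by_cases hp : D.Gw P x = 0
    · have hM := hx.2 hp
      have h1 : Wd (D.Gw P x) (D.Mw P x) = 0 := by
        rw [hp, hM, Wd]
        have h2 : vn (0 : Cov) = 0 := by simp [vn, vsq]
        rw [h2, div_zero]
      have h2 : len D.g' x (D.Gw P x) = 0 := by
        rw [hp, len_flat (hflat x hxU)]
        simp [vn, vsq]
      have h3 : D.Phi P x = 0 := by
        show flux P.eps D.g' D.h' x (D.Gw P x) (D.Mw P x) = 0
        rw [flux, h2, hh0 x hxU]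
        simp [ev, trg]
      have h4 : D.Di P x = 0 := by
        show len D.g' x (D.Gw P x) * _ = 0
        rw [h2, zero_mul]
      rw [h1, h3, h4]
      simp
    · have h1 := hC D.g' D.h' x (D.Gw P x) (D.Mw P x) (hmet.posDef x (hUO hxU))
        (hten.symm x (hUO hxU)) hsx
        (fun k i j => by rw [chr_flat (hflat' x hxU), chr_flat (hflat' x hxU)]) hp
        (htwo x (hUO hxU)) (hx.1 hp)
      obtain ⟨-, -, h2⟩ := h1
      obtain ⟨h3, h4⟩ := h2 (hh0 x hxU)
      have h5 : btan D.g' x (D.Gw P x) (cHess D.g' x (D.Gw P x) (D.Mw P x)) ^ 2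
          / len D.g' x (D.Gw P x) = Wd (D.Gw P x) (D.Mw P x) := by
        rw [cHess_flat (hflat' x hxU), btan_flat (hflat x hxU), len_flat (hflat x hxU), Wd]
      have h6 : D.Phi P x = flux P.eps D.g' D.h' x (D.Gw P x) (D.Mw P x) := rfl
      have h7 : D.Di P x = len D.g' x (D.Gw P x) *
        diss P.eps D.g' D.h' x (D.Gw P x) (D.Mw P x) := rfl
      rw [h6, h3, h5, h7]
      linarith
  -- integrability
  obtain ⟨s, s', hs, hss', hs', hsup⟩ := support_bounds hlt hψc hψt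
  have hsb : D.sb P / 4 < s := by linarith
  have j1 := integrable_testT iPhi hwm hOo.measurableSet hψ hψc hsb hss' hs' hsup
  have j2 := integrable_testT iDi hwm hOo.measurableSet hψ hψc hsb hss' hs' hsup
  have hzero : ∀ f : E3 → ℝ, ∫ x in (omT F D), ψ (D.w P x) * f x = ∫ x in U, ψ (D.w P x) * f x := by
    intro f
    refine (setIntegral_eq_of_subset_of_forall_sdiff_eq_zero hOo.measurableSet hUO
      fun x hx => ?_)
    have h0 : ψ (D.w P x) = 0 := by
      by_contra h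
      have h1 := (hsup _ h).1
      have h2 := h4l x hx.1 (by linarith)
      refine hx.2 ⟨?_, hx.1.1⟩
      have : 4 * D.l ≤ ‖x‖ := h2
      linarith
    rw [h0, zero_mul]
  have k1 : IntegrableOn (fun x => ψ (D.w P x) * (D.Phi P x * D.vol x)) U := j1.mono_set hUO
  have k2 : IntegrableOn (fun x => ψ (D.w P x) * (D.Di P x * D.vol x)) U := j2.mono_set hUO
  -- comparison of the integrals
  have hmono : ∫ x in U, (2 - P.eps) / 4 * (ψ (D.w P x) * Wd (D.Gw P x) (D.Mw P x)) ≤
      ∫ x in U, (ψ (D.w P x) * (D.Phi P x * D.vol x) +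
        1 / lam P.eps * (ψ (D.w P x) * (D.Di P x * D.vol x))) := by
    refine integral_mono_of_nonneg ?_ (k1.add (k2.const_mul _)) ?_
    · refine Eventually.of_forall fun x => ?_
      have h1 : 0 ≤ Wd (D.Gw P x) (D.Mw P x) := div_nonneg (sq_nonneg _) (Real.sqrt_nonneg _)
      have h2 : 0 ≤ (2 - P.eps) / 4 := by linarith
      exact mul_nonneg h2 (mul_nonneg (hψ0 _) h1)
    · filter_upwards [hpt] with x hx
      calc (2 - P.eps) / 4 * (ψ (D.w P x) * Wd (D.Gw P x) (D.Mw P x))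
          = ψ (D.w P x) * ((2 - P.eps) / 4 * Wd (D.Gw P x) (D.Mw P x)) := by ring
        _ ≤ ψ (D.w P x) * (D.Phi P x * D.vol x + 1 / lam P.eps * (D.Di P x * D.vol x)) :=
            mul_le_mul_of_nonneg_left hx (hψ0 _)
        _ = _ := by ring
  have hR1 : ∫ x in U, (ψ (D.w P x) * (D.Phi P x * D.vol x) +
        1 / lam P.eps * (ψ (D.w P x) * (D.Di P x * D.vol x))) =
      (∫ x in U, ψ (D.w P x) * (D.Phi P x * D.vol x)) +
        1 / lam P.eps * ∫ x in U, ψ (D.w P x) * (D.Di P x * D.vol x) := by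
    rw [← integral_const_mul]
    exact integral_add k1 (k2.const_mul _)
  rw [integral_const_mul, hR1] at hmono
  have e1 : ∫ x in (omT F D), ψ (D.w P x) * D.Phi P x * D.vol x =
      ∫ x in U, ψ (D.w P x) * (D.Phi P x * D.vol x) := by
    rw [← hzero]
    simp only [mul_assoc]
  have e2 : ∫ x in (omT F D), ψ (D.w P x) * D.Di P x * D.vol x =
      ∫ x in U, ψ (D.w P x) * (D.Di P x * D.vol x) := by
    rw [← hzero]
    simp only [mul_assoc]
  rw [e1, e2]
  have h2 : 0 ≤ (2 - P.eps) / 4 := by linarith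
  have h3 := mul_le_mul_of_nonneg_left hWil h2
  have h4 : (2 - P.eps) / 4 * (16 * Real.pi * ∫ s, ψ s) =
      4 * Real.pi * (2 - P.eps) * ∫ s, ψ s := by ring
  rw [h4] at h3
  linarith

end Pool.Agent.PFU
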