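import Pool.Agent.PFU.StmtsE
import Pool.Agent.PFlow.E.ABSX
import Pool.Agent.PFlow.E.ABSW

/-!
# ABSXT: the identity of the flux density in the flat region (several ends)
-/

set_option autoImplicit false

open MeasureTheory Filter Topology
open scoped ContDiff ENNReal

namespace Pool.Agent.PFU

open Pool.Agent.PenroseSph Pool.Agent.PFlow Pool.Agent.PFT

open Pool.Agent.PFlow.ABSXaux (integrableOn_vsz4 exists_Icc beps_zero btan_zero)
open Pool.Agent.PFlow.EABSW (isOpen_Ann h2On_mono)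

theorem t_ABSXT (hSETWT : Stmt_SETWT) (hXID : Stmt_XID) (hL4 : Stmt_L4) : Stmt_ABSXT := by
  intro F P D hS ψ hψ hψc hψs
  obtain ⟨hg, hh, -, hH2, hEq, -, -, -, -, hRhalf, hfar, -, -, -, hcomp, hsb0, hsb1, -, hs2, hsM,
    hKl, hKl2, -, hOmo, hsub, -⟩ := hSETWT F P D hS
  have hl := hS.l_ge
  have hrad := hS.l_rad
  have hrad1 := hS.frame.rad_ge
  have hgam := hS.gam_pos
  have hlR : 2 * D.l < D.R := by linarith
  have hU : Ann (2 * D.l) D.R ⊆ omT F D := by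
    intro x hx
    exact hsub ⟨by have := hx.1; linarith, hx.2⟩
  have hUo : IsOpen (Ann (2 * D.l) D.R) := isOpen_Ann _ _
  have hlt : D.s2 P < D.sM P := by linarith
  obtain ⟨s, s', hs, hs', hss⟩ := exists_Icc hlt hψc hψs
  obtain ⟨K, hK, hKO, hKs⟩ := hcomp s s' (by linarith) hs'
  have hH2' : H2On (Ann (2 * D.l) D.R) (D.w P) (D.Gw P) (D.Mw P) := h2On_mono hU hH2
  have hg' : MetricOn (Ann (2 * D.l) D.R) D.g' :=
    ⟨fun i j => (hg.smooth i j).mono hU, fun x hx => hg.posDef x (hU hx)⟩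
  have hh' : TensorOn (Ann (2 * D.l) D.R) D.h' :=
    ⟨fun i j => (hh.smooth i j).mono hU, fun x hx => hh.symm x (hU hx)⟩
  have hEq' : EqW (Ann (2 * D.l) D.R) P.eps D.g' D.h' (D.Gw P) (D.Mw P) :=
    ae_restrict_of_ae_restrict_of_subset hU hEq
  have hL := (hL4 (Ann (2 * D.l) D.R) (D.w P) (D.Gw P) (D.Mw P) hUo hH2').memG
  have hcl : IsClosed {x : E3 | 4 * D.l ≤ ‖x‖} := isClosed_le continuous_const continuous_norm
  have hK' : IsCompact (K ∩ {x : E3 | 4 * D.l ≤ ‖x‖}) := hK.inter_right hcl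
  have hKU : K ∩ {x : E3 | 4 * D.l ≤ ‖x‖} ⊆ Ann (2 * D.l) D.R := by
    rintro x ⟨hx, hx4⟩
    have hx4' : 4 * D.l ≤ ‖x‖ := hx4
    exact ⟨by linarith, (hKO hx).1⟩
  have key := hXID P.eps (2 * D.l) D.R D.g' D.h' (D.w P) (D.Gw P) (D.Mw P) hS.eps_pos
    (by linarith [hS.eps_le]) (by linarith) hlR hg' hh' hH2' hEq'
    (fun K hK hKO => integrableOn_vsz4 (hL K hK hKO)) ψ (K ∩ {x : E3 | 4 * D.l ≤ ‖x‖}) hψ hK' hKU
    (fun x hx hw => ⟨hKs ⟨hU hx, hss _ hw⟩, hfar x (hU hx) (hψs hw).1.le⟩)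
  have hzero : ∫ x in Ann (2 * D.l) D.R, ψ (D.w P x) * len D.g' x (D.Gw P x) ^ 2
      * (2 / (2 - P.eps) * beps P.eps D.g' x (D.Gw P x) (D.h' x)
        - btan D.g' x (D.Gw P x) (D.h' x)) * volDen D.g' x = 0 := by
    apply setIntegral_eq_zero_of_forall_eq_zero
    intro x hx
    have h3 : D.h' x = 0 := hS.modified.supp x (by have := hx.1; linarith)
    rw [h3, beps_zero, btan_zero]
    ring
  rw [hzero, add_zero] at key
  -- the integrands vanish outside of the annulus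
  have hout : ∀ x ∈ omT F D \ Ann (2 * D.l) D.R, D.w P x ∉ tsupport ψ := by
    rintro x ⟨hx, hxU⟩ hw
    have h4 := hfar x hx (hψs hw).1.le
    exact hxU ⟨by linarith, hx.1⟩
  have hψ0 : ∀ x ∈ omT F D \ Ann (2 * D.l) D.R, ψ (D.w P x) = 0 := by
    intro x hx
    by_contra h0
    exact hout x hx (subset_tsupport ψ h0)
  have hψ1 : ∀ x ∈ omT F D \ Ann (2 * D.l) D.R, deriv ψ (D.w P x) = 0 := by
    intro x hx
    by_contra h0
    exact hout x hx (support_deriv_subset h0)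
  have hm : MeasurableSet (omT F D) := hOmo.measurableSet
  rw [setIntegral_eq_of_subset_of_forall_sdiff_eq_zero hm hU
    (fun x hx => by rw [hψ0 x hx, zero_mul, zero_mul]),
    setIntegral_eq_of_subset_of_forall_sdiff_eq_zero hm hU
    (fun x hx => by rw [hψ0 x hx, hψ1 x hx, mul_zero, add_zero, zero_mul, zero_mul])]
  exact key

end Pool.Agent.PFU
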