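import Pool.Agent.PFU.StmtsM
import Pool.Agent.PFlow.M_AEG

/-!
AEGT: the derivative of the filled function, almost everywhere (several ends).
-/

open MeasureTheory Set Filter Topology

namespace Pool.Agent.PFU

open Pool.Agent.PenroseSph Pool.Agent.PFlow Pool.Agent.PFT

open PFlow.MAEG in
theorem t_AEGT (hFAT : Stmt_FAT) (hFBT : Stmt_FBT) : Stmt_AEGT := by
  intro T a' b' s₀ s₁ W C z₁ hT hL hz
  obtain ⟨hA, hF, -, -, -, -⟩ := hFAT T a' b' s₀ s₁ W C z₁ hT hL hz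
  obtain ⟨hB1, hB2⟩ := hFBT T a' b' s₀ s₁ W C z₁ hT hL hz
  refine ⟨(isClosed_eq hA.continuous hL.continuous).inter
    (isClosed_eq hF.continuous hA.continuous), ?_⟩
  filter_upwards [ae_fderiv_eq hF hA, ae_fderiv_eq hA hL] with x h1 h2
  constructor
  · rintro ⟨h3, h4⟩
    rw [h1 h4, h2 h3]
  · intro h3
    by_cases h4 : fillT W s₀ s₁ T z₁ x = fillA W s₀ z₁ x
    · have h5 : fillA W s₀ z₁ x ≠ W x := fun h5 => h3 ⟨h5, h4⟩
      rw [h1 h4]
      exact fderiv_of_const (hB1 x h5)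
    · exact fderiv_of_const (hB2 x h4)

end Pool.Agent.PFU
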