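import Pool.Agent.PFU.StmtsM

/-!
# The filled regions disappear in the limit (several inner balls)
-/

open MeasureTheory Filter Topology
open scoped ContDiff ENNReal

namespace Pool.Agent.PFU

open Pool.Agent.PenroseSph Pool.Agent.PFlow Pool.Agent.PFT

theorem t_BADT (hFAT : Stmt_FAT) (hFMT : Stmt_FMT) (hAEGT : Stmt_AEGT) : Stmt_BADT := by
  intro T U a' b' s₀ s₁ w G M K z₁ v W C e f _ hH hK hKU hKw hKx hz₁ hTr hfix hWT hWL hv
    hag he hWe hvG hf hfK hf0 hf1
  set ν := volume.restrict K with hν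
  set F : ℕ → E3 → ℝ := fun n => fillT (W n) s₀ s₁ T z₁ with hFdef
  set S : ℕ → Set E3 := fun n => goodT (W n) s₀ s₁ T z₁ with hSdef
  have hFL : ∀ n, LipschitzWith (C n) (F n) := fun n =>
    (hFAT T a' b' s₀ s₁ (W n) (C n) z₁ (hWT n) (hWL n) hz₁).2.1
  have htr : ∀ x ∈ K, trWT T a' b' s₀ s₁ w x = w x := by
    intro x hx
    obtain ⟨h2, h1⟩ := hKx x hx
    obtain ⟨h3, h4⟩ := hKw x hx
    unfold trWT
    rw [if_neg (by rintro ⟨p, hp, hle⟩; exact absurd (h1 p hp) (not_lt.2 hle)),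
      if_neg (not_le.2 h2), min_eq_right h4.le, max_eq_right h3.le]
  have hFw : ∀ n, ∀ x ∈ K, |w x - F n x| ≤ e n := by
    intro n x hx
    have h1 := hFMT T a' b' s₀ s₁ (e n) (W n) (trWT T a' b' s₀ s₁ w) z₁ (hWT n) hTr hz₁ (hWe n) x
    rw [hfix, htr x hx, abs_sub_comm] at h1
    exact h1
  have hSc : ∀ n, IsClosed (S n) := fun n =>
    (hAEGT T a' b' s₀ s₁ (W n) (C n) z₁ (hWT n) (hWL n) hz₁).1
  have hFS : ∀ n i, ∀ᵐ x ∂ν, pd i (F n) x = (S n).indicator (pd i (v n)) x := by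
    intro n i
    have h1 := (hAEGT T a' b' s₀ s₁ (W n) (C n) z₁ (hWT n) (hWL n) hz₁).2
    filter_upwards [ae_restrict_of_ae h1, ae_restrict_mem hK.measurableSet] with x hx hxK
    by_cases hxS : x ∈ S n
    · rw [Set.indicator_of_mem hxS]
      unfold pd
      rw [hx.1 hxS, Filter.EventuallyEq.fderiv_eq (hag n x hxK)]
    · rw [Set.indicator_of_notMem hxS]
      unfold pd
      rw [hx.2 hxS]
      rfl
  obtain ⟨u, hu, huw, huG, huM⟩ := hH.approx K hK hKU
  have : IsFiniteMeasure ν := ⟨by rw [hν, Measure.restrict_apply_univ]; exact hK.measure_lt_top⟩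
  have hG : ∀ i, MemLp (fun x => G x i) 2 ν := fun i =>
    (hH.memG K hK hKU i).mono_exponent (by norm_num)
  have hM : ∀ i, MemLp (fun x => M x i i) 2 ν := fun i => hH.memM K hK hKU i i
  have mu : ∀ m i, MemLp (pd i (u m)) 2 ν := fun m i =>
    MBAD.memLp_cont hK (MBAD.contDiff_pd (hu m) i).continuous
  have mv : ∀ n i, MemLp (pd i (v n)) 2 ν := fun n i =>
    MBAD.memLp_cont hK (MBAD.contDiff_pd (hv n) i).continuous
  have c1 : ∀ i, Tendsto (fun m => MBAD.N ν (fun x => pd i (u m) x - G x i)) atTop (𝓝 0) :=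
    fun i => MBAD.l2_of_l4 hK _ (fun m => (mu m i).1.sub (hG i).1) (huG i)
  have c2 : ∀ i, Tendsto (fun m => MBAD.N ν (fun x => pd i (pd i (u m)) x - M x i i)) atTop
      (𝓝 0) := fun i => MBAD.toReal_tendsto _ (huM i i)
  have c3 : ∀ i, Tendsto (fun n => MBAD.N ν (fun x => pd i (v n) x - G x i)) atTop (𝓝 0) :=
    fun i => MBAD.l2_of_l4 hK _ (fun n => (mv n i).1.sub (hG i).1) (hvG i)
  have hCf : ∀ i, ∃ c : ℝ, 0 ≤ c ∧ ∀ x ∈ K, |pd i f x| ≤ c := by
    intro i
    obtain ⟨c, hc⟩ := hK.exists_bound_of_continuousOn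
      (MBAD.contDiff_pd hf i).continuous.continuousOn
    exact ⟨max c 0, le_max_right _ _, fun x hx => (hc x hx).trans (le_max_left _ _)⟩
  choose cf hcf0 hcf using hCf
  set Q : ℝ := ∑ i : Fin 3, (2 * ((cf i * (MBAD.N ν (fun x => G x i) + 1) +
    (MBAD.N ν (fun x => M x i i) + 1)) * MBAD.N ν (fun _ => 1)) +
    (3 * MBAD.N ν (fun x => G x i) + 2) + MBAD.N ν (fun x => G x i)) with hQ
  have hQ0 : 0 ≤ Q := by
    refine Finset.sum_nonneg fun i _ => ?_
    have h1 := MBAD.N_nonneg (μ := ν) (fun x => G x i)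
    have h2 := MBAD.N_nonneg (μ := ν) (fun x => M x i i)
    have h3 := MBAD.N_nonneg (μ := ν) (fun _ => 1)
    have h4 := hcf0 i
    positivity
  have main : ∀ κ : ℝ, 0 < κ → κ ≤ 1 → ∀ᶠ n in atTop,
      ∫ x in K \ S n, f x * vsq (G x) ≤ κ * Q := by
    intro κ hκ hκ1
    have d1 : ∀ᶠ m in atTop, ∀ i, MBAD.N ν (fun x => pd i (u m) x - G x i) ≤ κ :=
      eventually_all.2 fun i => (c1 i).eventually_le_const hκ
    have d2 : ∀ᶠ m in atTop, ∀ i, MBAD.N ν (fun x => pd i (pd i (u m)) x - M x i i) ≤ 1 :=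
      eventually_all.2 fun i => (c2 i).eventually_le_const one_pos
    have d3 : ∀ᶠ m in atTop, ∀ x ∈ K, dist (w x) (u m x) < κ :=
      Metric.tendstoUniformlyOn_iff.1 huw κ hκ
    obtain ⟨m, hm1, hm2, hm3⟩ := (d1.and (d2.and d3)).exists
    have d4 : ∀ᶠ n in atTop, ∀ i, MBAD.N ν (fun x => pd i (v n) x - G x i) ≤ κ :=
      eventually_all.2 fun i => (c3 i).eventually_le_const hκ
    have d5 : ∀ᶠ n in atTop, e n ≤ κ := he.eventually_le_const hκ
    filter_upwards [d4, d5] with n hn4 hn5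
    have hc := fun i => MBAD.coord (w := w) (η := κ) (e := κ) (δ := κ) (δ' := 1) (b := κ) hK
      (hSc n).measurableSet hf hfK hf0 hf1 (hu m) (hv n) (hFL n) i (hG i) (hM i) (hFS n i)
      (fun x hx => by
        have := hm3 x hx
        rw [dist_comm, Real.dist_eq] at this
        exact this.le)
      (fun x hx => (hFw n x hx).trans hn5) (by linarith) (hcf0 i) (hcf i) (hm1 i) (hm2 i) (hn4 i)
    have e1 : ∫ x in K \ S n, f x * vsq (G x) = ∑ i, ∫ x in K \ S n, f x * G x i ^ 2 := by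
      rw [← integral_finsetSum _ (fun i _ => (hc i).1)]
      refine integral_congr_ae (Eventually.of_forall fun x => ?_)
      show f x * vsq (G x) = ∑ i, f x * G x i ^ 2
      unfold vsq
      rw [Finset.mul_sum]
    rw [e1, hQ, Finset.mul_sum]
    refine Finset.sum_le_sum fun i _ => (hc i).2.trans ?_
    have h1 := MBAD.N_nonneg (μ := ν) (fun x => G x i)
    have h2 := MBAD.N_nonneg (μ := ν) (fun x => M x i i)
    have h3 := MBAD.N_nonneg (μ := ν) (fun _ => 1)
    have h4 := hcf0 i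
    have h5 : (cf i * (MBAD.N ν (fun x => G x i) + κ) + (MBAD.N ν (fun x => M x i i) + 1)) *
        MBAD.N ν (fun _ => 1) ≤ (cf i * (MBAD.N ν (fun x => G x i) + 1) +
        (MBAD.N ν (fun x => M x i i) + 1)) * MBAD.N ν (fun _ => 1) := by
      refine mul_le_mul_of_nonneg_right ?_ h3
      have := mul_le_mul_of_nonneg_left (add_le_add_right hκ1 (MBAD.N ν (fun x => G x i))) h4
      linarith
    have h6 : κ * (3 * MBAD.N ν (fun x => G x i) + κ + κ) ≤
        κ * (3 * MBAD.N ν (fun x => G x i) + 2) :=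
      mul_le_mul_of_nonneg_left (by linarith) hκ.le
    have h7 := mul_le_mul_of_nonneg_left h5 (show 0 ≤ κ + κ by linarith)
    calc _ ≤ (κ + κ) * ((cf i * (MBAD.N ν (fun x => G x i) + 1) +
        (MBAD.N ν (fun x => M x i i) + 1)) * MBAD.N ν (fun _ => 1)) +
        κ * (3 * MBAD.N ν (fun x => G x i) + 2) + κ * MBAD.N ν (fun x => G x i) :=
          add_le_add (add_le_add h7 h6) le_rfl
      _ = _ := by ring
  rw [Metric.tendsto_nhds]
  intro ε hε
  have hκ : 0 < min 1 (ε / (2 * (Q + 1))) := lt_min one_pos (by positivity)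
  filter_upwards [main _ hκ (min_le_left _ _)] with n hn
  have h0 : 0 ≤ ∫ x in K \ S n, f x * vsq (G x) := by
    refine integral_nonneg fun x => mul_nonneg (hf0 x) ?_
    unfold vsq
    exact Finset.sum_nonneg fun i _ => sq_nonneg _
  rw [Real.dist_eq, sub_zero, abs_of_nonneg h0]
  have h1 : min 1 (ε / (2 * (Q + 1))) * Q ≤ ε / (2 * (Q + 1)) * Q :=
    mul_le_mul_of_nonneg_right (min_le_right _ _) hQ0
  have h2 : ε / (2 * (Q + 1)) * Q < ε := by
    rw [div_mul_eq_mul_div, div_lt_iff₀ (by positivity)]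
    nlinarith
  exact (hn.trans h1).trans_lt h2

end Pool.Agent.PFU
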