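import Pool.Agent.PFU.StmtsC
import Pool.Agent.PFT.CAP

/-!
# CAPT: the capped data, several kept ends (assembly of the block)

The proof of `Pool/Agent/PFT/CAP.lean` with `{0}` replaced by a finite set `T`.
-/

open MeasureTheory Filter Topology
open scoped ContDiff ENNReal

namespace Pool.Agent.PFU

open Pool.Agent.PenroseSph Pool.Agent.PFlow Pool.Agent.PFT

namespace CAPTAux

open PFlow.CUTM PFT.CHIAux PFT.CAPAux

/-! ### Local form of the capped data -/

variable {P T : Finset E3} {g k : TensorField} {N : ℝ}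

theorem notMem_of_far {x : E3} (hx0 : x ∉ T) {a : ℝ} (ha : 0 < a)
    (h : ∀ p ∈ P, p ∉ T → a ≤ ‖x - p‖) : x ∉ P := by
  intro hx
  have := h x hx hx0
  rw [sub_self, norm_zero] at this
  linarith

theorem capG_far (hCHIT : Stmt_CHIT) (hS : SepN P N) {x : E3} (h : ∀ p ∈ P, p ∉ T → 1 / (16 * N) ≤ ‖x - p‖) :
    capG (P \ T) N g x = g x := by
  obtain ⟨-, -, -, -, h5, -, -⟩ := hCHIT P T N hS
  unfold capG
  rw [(h5 x h).1, (h5 x h).2, one_smul, zero_mul, zero_smul, add_zero]

theorem capK_far (hCHIT : Stmt_CHIT) (hS : SepN P N) {x : E3} (h : ∀ p ∈ P, p ∉ T → 1 / (8 * N) ≤ ‖x - p‖) :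
    capK (P \ T) N k x = k x := by
  obtain ⟨-, -, -, -, -, h6, -⟩ := hCHIT P T N hS
  unfold capK
  rw [h6 x h, one_smul]

theorem capG_near (hCHIT : Stmt_CHIT) (hS : SepN P N) {p : E3} (hp : p ∈ P) (hp0 : p ∉ T) {x : E3}
    (hx : ‖x - p‖ < 1 / (2 * N)) : capG (P \ T) N g x = cap1 N p g x := by
  obtain ⟨-, -, -, -, -, -, h7⟩ := hCHIT P T N hS
  obtain ⟨a, b, -⟩ := h7 p hp hp0 x hx
  unfold capG cap1
  rw [a, b]

theorem capK_near (hCHIT : Stmt_CHIT) (hS : SepN P N) {p : E3} (hp : p ∈ P) (hp0 : p ∉ T) {x : E3}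
    (hx : ‖x - p‖ < 1 / (2 * N)) : capK (P \ T) N k x = cut1 N p k x := by
  obtain ⟨-, -, -, -, -, -, h7⟩ := hCHIT P T N hS
  obtain ⟨-, -, c⟩ := h7 p hp hp0 x hx
  unfold capK cut1
  rw [c]

theorem far_open (a : ℝ) {x : E3} (hx : ∀ p ∈ P, p ∉ T → a < ‖x - p‖) :
    ∀ᶠ y in 𝓝 x, ∀ p ∈ P, p ∉ T → a ≤ ‖y - p‖ := by
  have : ∀ᶠ y in 𝓝 x, ∀ p ∈ P, (p ∉ T → a ≤ ‖y - p‖) := by
    rw [Filter.eventually_all_finset]
    intro p hp
    by_cases h0 : p ∈ T
    · exact Eventually.of_forall fun y h => absurd h0 h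
    · have h1 := hx p hp h0
      filter_upwards [((continuous_id.sub continuous_const).norm.tendsto x).eventually
        (lt_mem_nhds h1)] with y hy _ using hy.le
  exact this

theorem metric_capG (hCHIT : Stmt_CHIT) (hS : SepN P N) (hE : SeveralEnds P g k) :
    MetricOn ((T : Set E3))ᶜ (capG (P \ T) N g) := by
  have hN : (0 : ℝ) < N := lt_of_lt_of_le one_pos hS.1
  obtain ⟨c1, -, c3, c4, -, -, -⟩ := hCHIT P T N hS
  constructor
  · intro i j x hx
    have hx0 : x ∉ T := by simpa using hx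
    refine ContDiffAt.contDiffWithinAt ?_
    by_cases h : ∃ p ∈ P, p ∉ T ∧ ‖x - p‖ < 1 / (32 * N)
    · obtain ⟨p, hp, hp0, hxp⟩ := h
      have : (fun y => capG (P \ T) N g y i j) =ᶠ[𝓝 x] fun _ => (N ^ 4 • (1 : Bil)) i j := by
        filter_upwards [near_open p _ hxp] with y hy
        have hy2 : ‖y - p‖ < 1 / (2 * N) := hy.trans_le
          (one_div_le_one_div_of_le (by positivity) (by linarith))
        rw [capG_near hCHIT hS hp hp0 hy2, cap1_core hN hy.le]
      exact contDiffAt_const.congr_of_eventuallyEq this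
    · push Not at h
      have hxP : x ∉ P := notMem_of_far hx0 (a := 1 / (32 * N)) (by positivity) h
      have hg := smooth_at (hE.metric.smooth i j) hxP
      have : (fun y => capG (P \ T) N g y i j) = fun y => chiN (P \ T) N y * g y i j
          + ((∑ p ∈ P \ T, (1 - kin N (y - p))) * N ^ 4) * (1 : Bil) i j := by
        funext y
        simp [capG, Matrix.add_apply, Matrix.smul_apply]
      rw [this]
      exact (c1.contDiffAt.mul hg).add ((c3.contDiffAt.mul contDiffAt_const).mul contDiffAt_const)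
  · intro x hx
    have hx0 : x ∉ T := by simpa using hx
    by_cases h : ∃ p ∈ P, p ∉ T ∧ ‖x - p‖ < 1 / (2 * N)
    · obtain ⟨p, hp, hp0, hxp⟩ := h
      rw [capG_near hCHIT hS hp hp0 hxp]
      by_cases hxe : x = p
      · rw [cap1_core hN (by rw [hxe, sub_self, norm_zero]; positivity)]
        exact scalar_posDef (by positivity)
      · have hxP : x ∉ P := by
          intro hxP
          have := far hS hp hxP hxe hxp
          rw [sub_self, norm_zero] at this
          have : (0 : ℝ) < 1 / (2 * N) := by positivity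
          linarith
        exact comb_posDef (hE.metric.posDef x (by simpa using hxP)) (kin_nonneg KAP N _)
          (kin_le_one KAP N _) (by positivity)
    · push Not at h
      have hxP : x ∉ P := notMem_of_far hx0 (a := 1 / (2 * N)) (by positivity) h
      rw [capG_far hCHIT hS fun p hp hp0 => (one_div_le_one_div_of_le (by positivity)
        (by linarith)).trans (h p hp hp0)]
      exact hE.metric.posDef x (by simpa using hxP)

theorem tensor_capK (hCHIT : Stmt_CHIT) (hS : SepN P N) (hE : SeveralEnds P g k) :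
    TensorOn ((T : Set E3))ᶜ (capK (P \ T) N k) := by
  have hN : (0 : ℝ) < N := lt_of_lt_of_le one_pos hS.1
  obtain ⟨-, c2, -, -, -, -, -⟩ := hCHIT P T N hS
  constructor
  · intro i j x hx
    have hx0 : x ∉ T := by simpa using hx
    refine ContDiffAt.contDiffWithinAt ?_
    by_cases h : ∃ p ∈ P, p ∉ T ∧ ‖x - p‖ < 1 / (16 * N)
    · obtain ⟨p, hp, hp0, hxp⟩ := h
      have : (fun y => capK (P \ T) N k y i j) =ᶠ[𝓝 x] fun _ => (0 : ℝ) := by
        filter_upwards [near_open p _ hxp] with y hy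
        have hy2 : ‖y - p‖ < 1 / (2 * N) := hy.trans_le
          (one_div_le_one_div_of_le (by positivity) (by linarith))
        rw [capK_near hCHIT hS hp hp0 hy2, cut1_core hN hy.le]
        rfl
      exact contDiffAt_const.congr_of_eventuallyEq this
    · push Not at h
      have hxP : x ∉ P := notMem_of_far hx0 (a := 1 / (16 * N)) (by positivity) h
      have hg := smooth_at (hE.tensor.smooth i j) hxP
      have : (fun y => capK (P \ T) N k y i j)
          = fun y => chiN (P \ T) (N / 2) y * k y i j := by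
        funext y
        simp [capK, Matrix.smul_apply]
      rw [this]
      exact c2.contDiffAt.mul hg
  · intro x hx
    have hx0 : x ∉ T := by simpa using hx
    by_cases hxP : x ∈ P
    · have hxp : ‖x - x‖ < 1 / (2 * N) := by rw [sub_self, norm_zero]; positivity
      rw [capK_near hCHIT hS hxP hx0 hxp, cut1_core hN (by rw [sub_self, norm_zero]; positivity)]
      exact Matrix.transpose_zero
    · unfold capK
      exact (hE.tensor.symm x (by simpa using hxP)).smul _

theorem plane_cap (hCHIT : Stmt_CHIT) (hS : SepN P N) (hps : PlaneSignP P g k) :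
    PlaneSignP T (capG (P \ T) N g) (capK (P \ T) N k) := by
  have hN : (0 : ℝ) < N := lt_of_lt_of_le one_pos hS.1
  obtain ⟨-, -, -, c4, -, -, -⟩ := hCHIT P T N hS
  intro x hx0
  by_cases h : ∃ p ∈ P, p ∉ T ∧ ‖x - p‖ < 1 / (16 * N)
  · obtain ⟨p, hp, hp0, hxp⟩ := h
    have hy2 : ‖x - p‖ < 1 / (2 * N) := hxp.trans_le
      (one_div_le_one_div_of_le (by positivity) (by linarith))
    left
    intro v _
    rw [capK_near hCHIT hS hp hp0 hy2, cut1_core hN hxp.le]
    simp [ev, trg]
  · push Not at h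
    have hxP : x ∉ P := notMem_of_far hx0 (a := 1 / (16 * N)) (by positivity) h
    have hg : capG (P \ T) N g x = g x := capG_far hCHIT hS h
    have h0 := (c4 x).2.1
    have hk : capK (P \ T) N k x = chiN (P \ T) (N / 2) x • k x := rfl
    rcases hps x hxP with h1 | h1
    · left
      intro v hv
      rw [hg] at hv
      rw [hk, trg_eq_of hg, ev_smul', PFlow.EShell.trg_smul]
      exact mul_le_mul_of_nonneg_left (h1 v hv) h0
    · right
      intro v hv
      rw [hg] at hv
      rw [hk, trg_eq_of hg, ev_smul', PFlow.EShell.trg_smul]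
      exact mul_le_mul_of_nonneg_left (h1 v hv) h0

/-- The defect. -/
noncomputable def dfc (P T : Finset E3) (C N : ℝ) (x : E3) : ℝ :=
  C / N ^ 2 * ∑ p ∈ P \ T, kap (8 * N * ‖x - p‖)

theorem dfc_cont (C N : ℝ) : Continuous (dfc P T C N) := by
  unfold dfc
  refine continuous_const.mul (continuous_finsetSum _ fun p _ => ?_)
  exact KAP.1.continuous.comp (continuous_const.mul (continuous_id.sub continuous_const).norm)

theorem dfc_nonneg {C : ℝ} (hC : 0 ≤ C) (N : ℝ) (x : E3) : 0 ≤ dfc P T C N x :=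
  mul_nonneg (by positivity) (Finset.sum_nonneg fun p _ => (kap_mem _).1)

theorem dfc_le {C : ℝ} (hC : 0 ≤ C) (N : ℝ) (x : E3) :
    dfc P T C N x ≤ C * ((P \ T).card : ℝ) / N ^ 2 := by
  unfold dfc
  rw [mul_div_right_comm]
  refine mul_le_mul_of_nonneg_left ?_ (by positivity)
  refine (Finset.sum_le_card_nsmul _ _ 1 fun p _ => (kap_mem _).2).trans ?_
  simp

theorem dfc_supp (C : ℝ) (hN : 0 < N) {x : E3} (h : ∀ p ∈ P, p ∉ T → 1 / (4 * N) ≤ ‖x - p‖) :
    dfc P T C N x = 0 := by
  unfold dfc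
  rw [Finset.sum_eq_zero, mul_zero]
  intro p hp
  refine KAP.2.2.2.1 _ ?_
  have := h p (Finset.mem_sdiff.1 hp |>.1) (Finset.mem_sdiff.1 hp).2
  rw [div_le_iff₀ (by positivity)] at this
  linarith

theorem dfc_ge {C : ℝ} (hC : 0 ≤ C) (hN : 0 < N) {p : E3} (hp : p ∈ P) (hp0 : p ∉ T) {x : E3}
    (hx : ‖x - p‖ ≤ 1 / (8 * N)) : C / N ^ 2 ≤ dfc P T C N x := by
  unfold dfc
  refine le_mul_of_one_le_right (by positivity) ?_
  have h1 : kap (8 * N * ‖x - p‖) = 1 := by
    refine KAP.2.2.1 _ ?_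
    rw [le_div_iff₀ (by positivity)] at hx
    linarith
  rw [← h1]
  exact Finset.single_le_sum (f := fun q => kap (8 * N * ‖x - q‖)) (fun q _ => (kap_mem _).1)
    (Finset.mem_sdiff.2 ⟨hp, hp0⟩)

/-- Block CAPT. -/
theorem main (hCHIT : Stmt_CHIT) (hCENT : Stmt_CENT) (hNEP : Stmt_NEP) (hSB : Stmt_SB)
    (hCNE : Stmt_CNE) (hCVO : Stmt_CVO) : Stmt_CAPT := by
  intro P T g k hTP hE hsur hps
  obtain ⟨C, N₀, hC, hS₀, hNE⟩ := hNEP P g k hE
  obtain ⟨C₁, hC₁, hCNE'⟩ := hCNE C hC
  obtain ⟨C₂, hC₂, hSB'⟩ := hSB C₁ hC₁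
  obtain ⟨C₃, hC₃, hCVO'⟩ := hCVO C hC
  refine ⟨C₂ * ((P \ T).card : ℝ) + C₃, N₀, by positivity, hS₀.1, hS₀.2, ?_⟩
  intro N hNN
  have hN1 : 1 ≤ N := hS₀.1.trans hNN
  have hN : (0 : ℝ) < N := lt_of_lt_of_le one_pos hN1
  have hN₀ : (0 : ℝ) < N₀ := lt_of_lt_of_le one_pos hS₀.1
  have hS : SepN P N := ⟨hN1, fun p hp q hq hpq =>
    (one_div_le_one_div_of_le hN₀ hNN).trans_lt (hS₀.2 p hp q hq hpq)⟩
  have hNE' : ∀ p ∈ P, ∀ x : E3, 0 < ‖x - p‖ → ‖x - p‖ ≤ 1 / (4 * N) →
      x ∉ P ∧ NearEnd C ‖x - p‖ g k x := fun p hp x h1 h2 => hNE p hp x h1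
    (h2.trans (one_div_le_one_div_of_le (by positivity) (by linarith)))
  have hm := metric_capG (T := T) hCHIT hS hE
  have ht := tensor_capK (T := T) hCHIT hS hE
  obtain ⟨hend1, hend2⟩ := hCENT P T N g k hTP hE hS
  refine ⟨capG (P \ T) N g, capK (P \ T) N k, dfc P T C₂ N, ?_⟩
  constructor
  · exact ⟨hm, ht, hend1, hend2⟩
  · exact plane_cap hCHIT hS hps
  · exact fun x hx => capG_far hCHIT hS fun p hp hp0 => (hx p hp hp0).le
  · exact fun x hx => capK_far hCHIT hS fun p hp hp0 => (hx p hp hp0).le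
  · intro x _ i j
    obtain ⟨-, -, -, c4, -, -, -⟩ := hCHIT P T N hS
    obtain ⟨a, b⟩ := (c4 x).2
    have : capK (P \ T) N k x i j = chiN (P \ T) (N / 2) x * k x i j := rfl
    rw [this, abs_mul, abs_of_nonneg a]
    exact mul_le_of_le_one_left (abs_nonneg _) b
  · exact dfc_cont _ _
  · exact dfc_nonneg hC₂.le _
  · intro x
    refine (dfc_le hC₂.le N x).trans ?_
    gcongr
    linarith
  · exact fun x hx => dfc_supp _ hN hx
  · intro x hx0
    by_cases h : ∃ p ∈ P, p ∉ T ∧ ‖x - p‖ ≤ 1 / (8 * N)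
    · obtain ⟨p, hp, hp0, hxp⟩ := h
      have hge := dfc_ge hC₂.le hN hp hp0 hxp
      have hx2 : ‖x - p‖ < 1 / (2 * N) := hxp.trans_lt
        (one_div_lt_one_div_of_lt (by positivity) (by linarith))
      by_cases hx3 : ‖x - p‖ < 1 / (32 * N)
      · have e1 : capG (P \ T) N g =ᶠ[𝓝 x] fun _ => N ^ 4 • (1 : Bil) := by
          filter_upwards [near_open p _ hx3, near_open p _ hx2] with y hy hy2
          rw [capG_near hCHIT hS hp hp0 hy2, cap1_core hN hy.le]
        have e2 : capK (P \ T) N k =ᶠ[𝓝 x] fun _ => 0 := by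
          filter_upwards [near_open p _ hx3, near_open p _ hx2] with y hy hy2
          rw [capK_near hCHIT hS hp hp0 hy2, cut1_core hN (hy.le.trans
            (one_div_le_one_div_of_le (by positivity) (by linarith)))]
        rw [PFlow.EShell.surplus_congr e1 e2, surplus_const]
        have := dfc_nonneg (P := P) (T := T) hC₂.le N x
        linarith
      · push Not at hx3
        have hs : 0 < ‖x - p‖ := lt_of_lt_of_le (by positivity) hx3
        have hx4 : ‖x - p‖ ≤ 1 / (4 * N) := hxp.trans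
          (one_div_le_one_div_of_le (by positivity) (by linarith))
        obtain ⟨hxP, hne⟩ := hNE' p hp x hs hx4
        have hgP : (g x).PosDef := hE.metric.posDef x (by simpa using hxP)
        have hgs : ∀ i j, ContDiffAt ℝ ∞ (fun y => g y i j) x := fun i j =>
          smooth_at (hE.metric.smooth i j) hxP
        have hks : ∀ i j, ContDiffAt ℝ ∞ (fun y => k y i j) x := fun i j =>
          smooth_at (hE.tensor.smooth i j) hxP
        have hne1 := hCNE' N p x g k hN1 hx3 hx4 hgP hgs hks hne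
        have hpos : ∀ᶠ y in 𝓝 x, (cap1 N p g y).PosDef := by
          filter_upwards [notMem_open hxP] with y hy
          exact comb_posDef (hE.metric.posDef y (by simpa using hy)) (kin_nonneg KAP N _)
            (kin_le_one KAP N _) (by positivity)
        have hs1 : ‖x - p‖ ≤ 1 := hx4.trans (by
          rw [div_le_one (by positivity)]; linarith)
        have hb := hSB' ‖x - p‖ (cap1 N p g) (cut1 N p k) x hs hs1 hpos
          (fun i j => cap1_smooth hN p (hgs i j)) (fun i j => cut1_smooth hN p (hks i j)) hne1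
        have e1 : capG (P \ T) N g =ᶠ[𝓝 x] cap1 N p g := by
          filter_upwards [near_open p _ hx2] with y hy2
          rw [capG_near hCHIT hS hp hp0 hy2]
        have e2 : capK (P \ T) N k =ᶠ[𝓝 x] cut1 N p k := by
          filter_upwards [near_open p _ hx2] with y hy2
          rw [capK_near hCHIT hS hp hp0 hy2]
        rw [PFlow.EShell.surplus_congr e1 e2]
        have h1 : C₂ * ‖x - p‖ ^ 2 ≤ C₂ / N ^ 2 := by
          have h2 : ‖x - p‖ ≤ 1 / N := hx4.trans
            (one_div_le_one_div_of_le (by positivity) (by linarith))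
          have h3 : ‖x - p‖ ^ 2 ≤ (1 / N) ^ 2 := pow_le_pow_left₀ hs.le h2 2
          calc C₂ * ‖x - p‖ ^ 2 ≤ C₂ * (1 / N) ^ 2 := mul_le_mul_of_nonneg_left h3 hC₂.le
            _ = C₂ / N ^ 2 := by rw [div_pow, one_pow]; ring
        have := (abs_le.1 hb).1
        linarith
    · push Not at h
      have hxP : x ∉ P := notMem_of_far hx0 (a := 1 / (8 * N)) (by positivity)
        fun p hp hp0 => (h p hp hp0).le
      have e1 : capG (P \ T) N g =ᶠ[𝓝 x] g := by
        filter_upwards [far_open _ h] with y hy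
        exact capG_far hCHIT hS fun p hp hp0 => (one_div_le_one_div_of_le (by positivity)
          (by linarith)).trans (hy p hp hp0)
      have e2 : capK (P \ T) N k =ᶠ[𝓝 x] k := by
        filter_upwards [far_open _ h] with y hy
        exact capK_far hCHIT hS hy
      rw [PFlow.EShell.surplus_congr e1 e2]
      have := dfc_nonneg (P := P) (T := T) hC₂.le N x
      linarith [hsur x hxP]
  · intro p hp hp0
    have h1 : ∫ x in Metric.closedBall p (1 / (4 * N)), volDen (capG (P \ T) N g) x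
        = ∫ x in Metric.closedBall p (1 / (4 * N)), volDen (cap1 N p g) x := by
      refine setIntegral_congr_fun Metric.isClosed_closedBall.measurableSet fun x hx => ?_
      have hx1 : ‖x - p‖ ≤ 1 / (4 * N) := by
        rw [← dist_eq_norm]; exact hx
      have hx2 : ‖x - p‖ < 1 / (2 * N) := hx1.trans_lt
        (one_div_lt_one_div_of_lt (by positivity) (by linarith))
      simp only [volDen, capG_near hCHIT hS hp hp0 hx2]
    rw [h1]
    refine (hCVO' N p g k hN1 fun x hx1 hx2 => ?_).trans ?_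
    · obtain ⟨a, b⟩ := hNE' p hp x hx1 hx2
      exact ⟨hE.metric.posDef x (by simpa using a), b⟩
    · gcongr
      have : 0 ≤ C₂ * ((P \ T).card : ℝ) := by positivity
      linarith

end CAPTAux

/-- **Block CAPT.** -/
theorem t_CAPT (hCHIT : Stmt_CHIT) (hCENT : Stmt_CENT) (hNEP : Stmt_NEP) (hSB : Stmt_SB)
    (hCNE : Stmt_CNE) (hCVO : Stmt_CVO) : Stmt_CAPT :=
  CAPTAux.main hCHIT hCENT hNEP hSB hCNE hCVO

end Pool.Agent.PFU
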