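import Pool.Agent.PFU.StmtsC
import Pool.Agent.PFT.CEN

/-!
# The capped data have the same ends at infinity and at the points of `T`
-/

open MeasureTheory Filter Topology
open scoped ContDiff ENNReal

namespace Pool.Agent.PFU

open Pool.Agent.PenroseSph Pool.Agent.PFlow Pool.Agent.PFT
open Pool.Agent.PFT.CENAux (decay_congr)

namespace CENTAux

theorem cap_eq (hCHIT : Stmt_CHIT) {P T : Finset E3} {N : ℝ} (hs : SepN P N) (g k : TensorField)
    {x : E3} (hx : ∀ p ∈ P, p ∉ T → 1 / (8 * N) ≤ ‖x - p‖) :
    capG (P \ T) N g x = g x ∧ capK (P \ T) N k x = k x := by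
  obtain ⟨-, -, -, -, h5, h6, -⟩ := hCHIT P T N hs
  have hN : 0 < N := lt_of_lt_of_le one_pos hs.1
  have hx' : ∀ p ∈ P, p ∉ T → 1 / (16 * N) ≤ ‖x - p‖ := by
    intro p hp hp0
    refine le_trans ?_ (hx p hp hp0)
    apply one_div_le_one_div_of_le (by positivity)
    linarith
  obtain ⟨a, b⟩ := h5 x hx'
  constructor
  · unfold capG
    rw [a, b, one_smul, zero_mul, zero_smul, add_zero]
  · unfold capK
    rw [h6 x hx, one_smul]

end CENTAux

open CENTAux

/-- **CENT.** -/
theorem t_CENT (hCHIT : Stmt_CHIT) : Stmt_CENT := by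
  intro P T N g k hTP hE hs
  have hN : 0 < N := lt_of_lt_of_le one_pos hs.1
  have h8 : 1 / (8 * N) ≤ 1 := by
    rw [div_le_one (by positivity)]
    linarith [hs.1]
  constructor
  · obtain ⟨C, R, D⟩ := hE.infinity
    obtain ⟨M, hM⟩ : ∃ M : ℝ, ∀ p ∈ P, ‖p‖ ≤ M :=
      ⟨∑ p ∈ P, ‖p‖, fun p hp => Finset.single_le_sum (f := fun p => ‖p‖)
        (fun q _ => norm_nonneg q) hp⟩
    have key : ∀ x : E3, max R (M + 2) ≤ ‖x‖ → ∀ᶠ y in 𝓝 x,
        ∀ p ∈ P, p ∉ T → 1 / (8 * N) ≤ ‖y - p‖ := by
      intro x hx
      have h1 : M + 1 < ‖x‖ := by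
        have := (le_max_right R (M + 2)).trans hx
        linarith
      filter_upwards [(isOpen_lt continuous_const continuous_norm).mem_nhds h1] with y hy p hp _
      have hy' : M + 1 < ‖y‖ := hy
      have h2 := norm_sub_norm_le y p
      have h3 := hM p hp
      linarith
    refine ⟨C, max R (M + 2), decay_congr D (le_max_left _ _) ?_ ?_⟩
    · intro x hx
      exact (key x hx).mono fun y hy => (cap_eq hCHIT hs g k hy).1
    · intro x hx
      exact (key x hx).mono fun y hy => (cap_eq hCHIT hs g k hy).2
  · intro q hq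
    obtain ⟨C, R, D⟩ := hE.points q (hTP hq)
    have key : ∀ x : E3, max R (4 * N) ≤ ‖x‖ → ∀ᶠ y in 𝓝 x,
        ∀ p ∈ P, p ∉ T → 1 / (8 * N) ≤ ‖inversion y + q - p‖ := by
      intro x hx
      have h1 : 2 * N < ‖x‖ := by
        have := (le_max_right R (4 * N)).trans hx
        linarith
      filter_upwards [(isOpen_lt continuous_const continuous_norm).mem_nhds h1] with y hy p hp hp0
      have hy' : 2 * N < ‖y‖ := hy
      have hy0 : y ≠ 0 := by
        rintro rfl
        rw [norm_zero] at hy'
        linarith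
      have h2 : ‖inversion y‖ ≤ 1 / (2 * N) := by
        rw [CENAux.norm_inv y hy0]
        exact one_div_le_one_div_of_le (by positivity) hy'.le
      have hne : p ≠ q := by
        rintro rfl
        exact hp0 hq
      have h3 : 1 / N < ‖p - q‖ := hs.2 p hp q (hTP hq) hne
      have h4 := norm_sub_norm_le (p - q) (inversion y)
      have h4' : ‖p - q - inversion y‖ = ‖inversion y + q - p‖ := by
        rw [← norm_neg]
        congr 1
        abel
      rw [h4'] at h4
      have h5 : 1 / N = 2 * (1 / (2 * N)) := by field_simp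
      have h6 : 1 / (8 * N) ≤ 1 / (2 * N) :=
        one_div_le_one_div_of_le (by positivity) (by linarith)
      linarith
    refine ⟨C, max R (4 * N), decay_congr D (le_max_left _ _) ?_ ?_⟩
    · intro x hx
      refine (key x hx).mono fun y hy => ?_
      show (inversionJac y).transpose * capG (P \ T) N g (inversion y + q) * inversionJac y
        = (inversionJac y).transpose * g (inversion y + q) * inversionJac y
      rw [(cap_eq hCHIT hs g k hy).1]
    · intro x hx
      refine (key x hx).mono fun y hy => ?_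
      show (inversionJac y).transpose * capK (P \ T) N k (inversion y + q) * inversionJac y
        = (inversionJac y).transpose * k (inversion y + q) * inversionJac y
      rw [(cap_eq hCHIT hs g k hy).2]

end Pool.Agent.PFU
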