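import Pool.Agent.PFU.StmtsC
import Pool.Agent.PFT.CHI

/-!
# CHIT: properties of the cut-offs at the points of `P` outside `T`
-/

open MeasureTheory Filter Topology
open scoped ContDiff ENNReal

namespace Pool.Agent.PFU

open Pool.Agent.PenroseSph Pool.Agent.PFlow Pool.Agent.PFT

open PFT.CHIAux in
theorem t_CHIT : Stmt_CHIT := by
  intro P T N hS
  have hN : (0 : ℝ) < N := lt_of_lt_of_le one_pos hS.1
  have hN2 : (0 : ℝ) < N / 2 := by positivity
  have e16 : 1 / (16 * (N / 2)) = 1 / (8 * N) := by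
    congr 1; ring
  have le1 : 1 / (16 * N) ≤ 1 / (2 * N) := by
    apply one_div_le_one_div_of_le <;> linarith
  have le2 : 1 / (8 * N) ≤ 1 / (2 * N) := by
    apply one_div_le_one_div_of_le <;> linarith
  refine ⟨chiN_smooth _ hN, chiN_smooth _ hN2, ?_, ?_, ?_, ?_, ?_⟩
  · exact ContDiff.sum fun p _ => contDiff_const.sub (kin_smooth hN p)
  · exact fun x => ⟨chiN_mem _ _ x, chiN_mem _ _ x⟩
  · intro x hx
    have hx' : ∀ p ∈ P \ T, 1 / (16 * N) ≤ ‖x - p‖ := fun p hp =>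
      hx p (Finset.mem_sdiff.1 hp).1 (Finset.mem_sdiff.1 hp).2
    refine ⟨chiN_one hN hx', Finset.sum_eq_zero fun p hp => ?_⟩
    rw [PFlow.CUTM.kin_one KAP hN (hx' p hp), sub_self]
  · intro x hx
    refine chiN_one hN2 fun p hp => ?_
    rw [e16]
    exact hx p (Finset.mem_sdiff.1 hp).1 (Finset.mem_sdiff.1 hp).2
  · intro p hp hpT x hx
    have hp' : p ∈ P \ T := Finset.mem_sdiff.2 ⟨hp, hpT⟩
    have hf : ∀ q ∈ P \ T, q ≠ p → 1 / (2 * N) ≤ ‖x - q‖ := fun q hq hqp =>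
      far hS hp (Finset.mem_sdiff.1 hq).1 hqp hx
    refine ⟨chiN_single hN hp' fun q hq hqp => le1.trans (hf q hq hqp),
      sum_single hN hp' fun q hq hqp => le1.trans (hf q hq hqp), ?_⟩
    refine chiN_single hN2 hp' fun q hq hqp => ?_
    rw [e16]
    exact le2.trans (hf q hq hqp)

end Pool.Agent.PFU
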