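import Pool.Agent.PFU.StmtsP

/-!
# CLOSET: for a strong penalty the solution is close to `1` near the points of `T`
-/

open MeasureTheory Filter Topology Set
open scoped ContDiff RealInnerProductSpace

namespace Pool.Agent.PFU

open Pool.Agent.PenroseSph Pool.Agent.PFlow Pool.Agent.PFT Pool.Agent.PFlow.PB

namespace CLOSETAux

theorem pd_trans (f : E3 → ℝ) (p x : E3) (i : Fin 3) :
    pd i (fun y => f (y - p)) x = pd i f (x - p) := by
  unfold pd
  rw [fderiv_comp_sub]

theorem grad_trans (f : E3 → ℝ) (p x : E3) :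
    grad (fun y => f (y - p)) x = grad f (x - p) := by
  funext i
  exact pd_trans f p x i

theorem hess_trans (f : E3 → ℝ) (p x : E3) (i j : Fin 3) :
    hess2 (fun y => f (y - p)) x i j = hess2 f (x - p) i j := by
  show pd i (pd j (fun y => f (y - p))) x = pd i (pd j f) (x - p)
  have e : pd j (fun y => f (y - p)) = fun y => pd j f (y - p) := by
    funext y
    exact pd_trans f p y j
  rw [e]
  exact pd_trans (pd j f) p x i

theorem penI_out {T : Finset E3} {a : ℝ} (ha : 0 < a) {x : E3} (h : ∀ p ∈ T, a ≤ ‖x - p‖) :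
    penI T a x = 0 :=
  Finset.sum_eq_zero fun p hp => Close.chi1_out ha (h p hp)

theorem penI_in {T : Finset E3} {a : ℝ} (ha : 0 < a) {x p : E3} (hp : p ∈ T)
    (h : ‖x - p‖ ≤ 3 * a / 4) : 1 ≤ penI T a x := by
  have h1 : Close.chi1 a (x - p) ≤ ∑ q ∈ T, Close.chi1 a (x - q) :=
    Finset.single_le_sum (f := fun q => Close.chi1 a (x - q))
      (fun q _ => Close.chi1_nonneg a (x - q)) hp
  rw [Close.chi1_in ha h] at h1
  exact h1

end CLOSETAux

open CLOSETAux in
theorem t_CLOSET (hPENT : Stmt_PENT) : Stmt_CLOSET := by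
  intro ε a b η T g h hε hε1 hPts hη hd
  have ha := hPts.pos
  have hb : 16 * a < b := by
    obtain ⟨p₀, hp₀⟩ := hPts.ne
    have h1 := hPts.inside p₀ hp₀
    have h2 := norm_nonneg p₀
    linarith
  have hb0 : 0 < b := by linarith
  have hfar : ∀ x : E3, 3 * b / 2 ≤ ‖x‖ → ∀ p ∈ T, a ≤ ‖x - p‖ := by
    intro x hx p hp
    have h1 := hPts.inside p hp
    have h2 := norm_sub_norm_le x p
    linarith
  obtain ⟨ζ₁, C₁, z1s, z1r, z1i, z1o, z1g, z1h⟩ :=
    kCUT ε (a / 2) (3 * a / 4) hε hε1 (by positivity) (by linarith)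
  obtain ⟨ζ₂, C₂, z2s, z2r, z2i, z2o, z2g, z2h⟩ :=
    kCUT ε (3 * b / 2) (2 * b) hε hε1 (by positivity) (by linarith)
  obtain ⟨C₃, hC₃⟩ := kBAR ε g h (b / 2) C₁ hε hε1 hd
  obtain ⟨C₄, hC₄⟩ := kBAR ε g h (b / 2) C₂ hε hε1 hd
  -- the data with a larger radius
  have hd2 : GData g h (3 * b / 2) :=
    ⟨hd.met, hd.ten, fun x hx => hd.flat x (by linarith)⟩
  obtain ⟨η', hη0, hη1, hη2⟩ : ∃ η' : ℝ, 0 < η' ∧ η' ≤ 1 / 2 ∧ η' ≤ η :=
    ⟨min η (1 / 2), lt_min hη (by norm_num), min_le_right _ _, min_le_left _ _⟩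
  refine ⟨(|C₃| + |C₄| + 1) / η', by positivity, ?_⟩
  intro lam hlam δ κ hδ hδ1 hκ hκ1 u G hsol hcont hu
  have hl : 0 < lam := lt_of_lt_of_le (by positivity) hlam
  have hlη : |C₃| + |C₄| + 1 ≤ lam * η' := by
    rw [div_le_iff₀ hη0] at hlam
    exact hlam
  obtain ⟨c, L, hPC⟩ := pBRID.coef ε δ κ g h (3 * b / 2) hε hε1 hδ hκ (by positivity) hd2
  have hPen := (hPENT T a b lam hPts hl).pen
  have hop : ∀ (f : E3 → ℝ), ContDiff ℝ 2 f → ∀ x,
      opA (cA ε δ κ g) x (gr f x) (fun i => hs f i x) + cB ε δ g h x (gr f x) =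
        opL ε δ κ g x (grad f x) (hess2 f x) + cB ε δ g h x (vec (grad f x)) := by
    intro f hf x
    obtain ⟨j1, j2⟩ := pBRID.jet f x hf.contDiffAt
    rw [pBRID.op ε δ κ g h (3 * b / 2) hε hε1 hδ hκ hd2, j2, j1]
  constructor
  · -- lower bound inside
    intro p hp
    have hpb := hPts.inside p hp
    have hτ : 0 < 1 - η' := by linarith
    have zps : ContDiff ℝ 2 (fun y => ζ₁ (y - p)) := z1s.comp (contDiff_id.sub contDiff_const)
    have zpg : ∀ x, ‖vec (grad (fun y => ζ₁ (y - p)) x)‖ ≤ C₁ := by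
      intro x
      rw [grad_trans]
      exact z1g (x - p)
    have zph : ∀ x i j, |hess2 (fun y => ζ₁ (y - p)) x i j| ≤
        C₁ * ‖vec (grad (fun y => ζ₁ (y - p)) x)‖ ^ (1 - ε) := by
      intro x i j
      rw [grad_trans, hess_trans]
      exact z1h (x - p) i j
    have hf : ContDiff ℝ 2 (fun y => 0 + (1 - η') * ζ₁ (y - p)) :=
      contDiff_const.add (contDiff_const.mul zps)
    have hcs : HasCompactSupport (fun x => (0 + (1 - η') * ζ₁ (x - p)) - 0) := by
      refine HasCompactSupport.intro (isCompact_closedBall p (3 * a / 4)) fun x hx => ?_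
      have hx2 : 3 * a / 4 ≤ ‖x - p‖ := by
        have : ¬ ‖x - p‖ ≤ 3 * a / 4 := by
          rw [Metric.mem_closedBall, dist_eq_norm] at hx
          exact hx
        linarith [not_le.mp this]
      rw [z1o (x - p) hx2]
      ring
    have key := pCGLO _ _ c L (3 * b / 2) _ _ _ _ hPC hPen u G hsol hcont hu 1 (Or.inl rfl)
      (fun y => 0 + (1 - η') * ζ₁ (y - p)) 0 hf hcs (by simp) 1 one_pos ?_
    · intro x hx
      have h1 := key x
      rw [z1i (x - p) hx] at h1
      linarith
    · intro x hx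
      have hx1 : u x < 0 + (1 - η') * ζ₁ (x - p) := by linarith
      have hζ0 : ζ₁ (x - p) ≠ 0 := by
        intro h0
        rw [h0] at hx1
        linarith [(hu x).1]
      have hxa : ‖x - p‖ ≤ 3 * a / 4 := by
        by_contra hcon
        exact hζ0 (z1o (x - p) (le_of_not_ge hcon))
      have hxb : ‖x‖ ≤ b := by
        have h2 := norm_sub_norm_le x p
        linarith
      have hbar := Close.bar_aff hε hε1 hτ (by linarith) zps zpg zph 0 x
      have hK := hC₃ δ κ hδ hδ1 hκ hκ1 x (grad (fun y => 0 + (1 - η') * ζ₁ (y - p)) x)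
        (hess2 (fun y => 0 + (1 - η') * ζ₁ (y - p)) x) hbar.1 hbar.2
      have hS := penI_in ha hp hxa
      rw [hop _ hf x, Close.chi2_in hb0 hxb]
      have hA := abs_le.mp (le_refl |opL ε δ κ g x (grad (fun y => 0 + (1 - η') * ζ₁ (y - p)) x)
        (hess2 (fun y => 0 + (1 - η') * ζ₁ (y - p)) x)|)
      have hB := abs_le.mp
        (le_refl |cB ε δ g h x (vec (grad (fun y => 0 + (1 - η') * ζ₁ (y - p)) x))|)
      have hu1 : u x ≤ 1 - η' := by
        have h3 : (1 - η') * ζ₁ (x - p) ≤ (1 - η') * 1 :=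
          mul_le_mul_of_nonneg_left (z1r (x - p)).2 hτ.le
        linarith
      have hpen : lam * η' ≤ lam * (1 - u x) := mul_le_mul_of_nonneg_left (by linarith) hl.le
      have hpen2 : lam * (1 - u x) ≤ penI T a x * (lam * (1 - u x)) := by
        have h5 : 0 ≤ lam * (1 - u x) := mul_nonneg hl.le (by linarith)
        nlinarith
      have := le_abs_self C₃
      have := abs_nonneg C₄
      have e : (1 : ℝ) * (opL ε δ κ g x (grad (fun y => 0 + (1 - η') * ζ₁ (y - p)) x)
          (hess2 (fun y => 0 + (1 - η') * ζ₁ (y - p)) x) +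
          cB ε δ g h x (vec (grad (fun y => 0 + (1 - η') * ζ₁ (y - p)) x)) -
          (lam * (penI T a x + 0) * u x - lam * penI T a x)) =
          opL ε δ κ g x (grad (fun y => 0 + (1 - η') * ζ₁ (y - p)) x)
          (hess2 (fun y => 0 + (1 - η') * ζ₁ (y - p)) x) +
          cB ε δ g h x (vec (grad (fun y => 0 + (1 - η') * ζ₁ (y - p)) x)) +
          penI T a x * (lam * (1 - u x)) := by ring
      rw [e]
      linarith [hA.1, hB.1]
  · -- upper bound outside
    have hτ : 0 < 1 - η' := by linarith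
    have hf : ContDiff ℝ 2 (fun y => η' + (1 - η') * ζ₂ y) :=
      contDiff_const.add (contDiff_const.mul z2s)
    have hcs : HasCompactSupport (fun x => (η' + (1 - η') * ζ₂ x) - η') := by
      refine HasCompactSupport.intro (isCompact_closedBall (0 : E3) (2 * b)) fun x hx => ?_
      have hx2 : 2 * b ≤ ‖x‖ := by
        have : ¬ ‖x‖ ≤ 2 * b := by simpa using hx
        linarith [not_le.mp this]
      rw [z2o x hx2]
      ring
    have key := pCGLO _ _ c L (3 * b / 2) _ _ _ _ hPC hPen u G hsol hcont hu (-1) (Or.inr rfl)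
      (fun y => η' + (1 - η') * ζ₂ y) η' hf hcs (by linarith) 1 one_pos ?_
    · intro x hx
      have h1 := key x
      rw [z2o x hx] at h1
      linarith
    · intro x hx
      have hx1 : η' + (1 - η') * ζ₂ x < u x := by linarith
      have hxb : 3 * b / 2 ≤ ‖x‖ := by
        by_contra hcon
        rw [z2i x (le_of_not_ge hcon)] at hx1
        linarith [(hu x).2]
      have hbar := Close.bar_aff hε hε1 hτ (by linarith) z2s z2g z2h η' x
      have hK := hC₄ δ κ hδ hδ1 hκ hκ1 x (grad (fun y => η' + (1 - η') * ζ₂ y) x)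
        (hess2 (fun y => η' + (1 - η') * ζ₂ y) x) hbar.1 hbar.2
      rw [hop _ hf x, penI_out ha (hfar x hxb), Close.chi2_out hb0 hxb]
      have hA := abs_le.mp (le_refl |opL ε δ κ g x (grad (fun y => η' + (1 - η') * ζ₂ y) x)
        (hess2 (fun y => η' + (1 - η') * ζ₂ y) x)|)
      have hB := abs_le.mp (le_refl |cB ε δ g h x (vec (grad (fun y => η' + (1 - η') * ζ₂ y) x))|)
      have hu1 : η' ≤ u x := by
        have h3 : 0 ≤ (1 - η') * ζ₂ x := mul_nonneg hτ.le (z2r x).1
        linarith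
      have hpen : lam * η' ≤ lam * u x := mul_le_mul_of_nonneg_left hu1 hl.le
      have := le_abs_self C₄
      have := abs_nonneg C₃
      have e : (-1 : ℝ) * (opL ε δ κ g x (grad (fun y => η' + (1 - η') * ζ₂ y) x)
          (hess2 (fun y => η' + (1 - η') * ζ₂ y) x) +
          cB ε δ g h x (vec (grad (fun y => η' + (1 - η') * ζ₂ y) x)) -
          (lam * (0 + 1) * u x - lam * 0)) =
          -(opL ε δ κ g x (grad (fun y => η' + (1 - η') * ζ₂ y) x)
          (hess2 (fun y => η' + (1 - η') * ζ₂ y) x) +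
          cB ε δ g h x (vec (grad (fun y => η' + (1 - η') * ζ₂ y) x))) + lam * u x := by ring
      rw [e]
      linarith [hA.2, hB.2]

end Pool.Agent.PFU
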