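import Pool.Agent.PFU.StmtsA

/-!
# CNUM: the numerical limit
-/

set_option autoImplicit false

namespace Pool.Agent.PFU

namespace CNUMaux

open Filter Topology

lemma a_lim : Tendsto (fun ε : ℝ => (Real.exp (2 * ε) - Real.exp ε) / ε) (𝓝[>] 0) (𝓝 1) := by
  have h1 : HasDerivAt (fun ε : ℝ => Real.exp (2 * ε) - Real.exp ε) 1 0 := by
    have h2 : HasDerivAt (fun ε : ℝ => 2 * ε) 2 0 := by
      simpa using (hasDerivAt_id (0 : ℝ)).const_mul 2
    have h3 := h2.exp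
    have h4 := Real.hasDerivAt_exp 0
    have h5 : HasDerivAt (fun ε : ℝ => Real.exp (2 * ε) - Real.exp ε)
        (Real.exp (2 * 0) * 2 - Real.exp 0) 0 := h3.sub h4
    have h6 : Real.exp (2 * 0) * 2 - Real.exp 0 = 1 := by
      rw [mul_zero, Real.exp_zero]
      norm_num
    rwa [h6] at h5
  have h6 := h1.tendsto_slope
  have h7 : Tendsto (slope (fun ε : ℝ => Real.exp (2 * ε) - Real.exp ε) 0) (𝓝[>] 0) (𝓝 1) :=
    h6.mono_left (nhdsWithin_mono _ (fun x hx => ne_of_gt hx))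
  refine h7.congr' ?_
  filter_upwards with x
  rw [slope_def_field]
  simp

lemma id_lim : Tendsto (fun ε : ℝ => ε) (𝓝[>] 0) (𝓝 0) :=
  tendsto_nhdsWithin_of_tendsto_nhds tendsto_id

lemma e1_lim : Tendsto (fun ε : ℝ => 1 / (1 + ε)) (𝓝[>] 0) (𝓝 1) := by
  have h : Tendsto (fun ε : ℝ => 1 / (1 + ε)) (𝓝[>] 0) (𝓝 (1 / (1 + 0))) :=
    tendsto_const_nhds.div (tendsto_const_nhds.add id_lim) (by norm_num)
  simpa using h

lemma e2_lim : Tendsto (fun ε : ℝ => ε / (1 + ε)) (𝓝[>] 0) (𝓝 0) := by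
  have h : Tendsto (fun ε : ℝ => ε / (1 + ε)) (𝓝[>] 0) (𝓝 (0 / (1 + 0))) :=
    id_lim.div (tendsto_const_nhds.add id_lim) (by norm_num)
  simpa using h

lemma ee_lim : Tendsto (fun ε : ℝ => ε ^ (-(ε / (1 + ε)))) (𝓝[>] 0) (𝓝 1) := by
  have h1 : Tendsto (fun ε : ℝ => ε * Real.log ε) (𝓝[>] 0) (𝓝 0) := by
    have h2 : Tendsto (fun ε : ℝ => ε * Real.log ε) (𝓝 0) (𝓝 (0 * Real.log 0)) :=
      Real.continuous_mul_log.tendsto 0
    simp only [Real.log_zero, mul_zero] at h2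
    exact tendsto_nhdsWithin_of_tendsto_nhds h2
  have h3 : Tendsto (fun ε : ℝ => Real.exp (-((ε * Real.log ε) * (1 / (1 + ε))))) (𝓝[>] 0)
      (𝓝 (Real.exp (-(0 * 1)))) :=
    (Real.continuous_exp.tendsto _).comp (h1.mul e1_lim).neg
  simp only [zero_mul, neg_zero, Real.exp_zero] at h3
  refine h3.congr' ?_
  filter_upwards [self_mem_nhdsWithin] with ε hε
  have hε' : (0 : ℝ) < ε := hε
  rw [Real.rpow_def_of_pos hε']
  congr 1
  ring

lemma phi_lim (E' V' : ℝ) (hE : 0 < E') (hV : 0 < V') :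
    Tendsto (fun ε : ℝ => (E' * ((Real.exp (2 * ε) - Real.exp ε) / ε)) ^ (1 / (1 + ε)) *
      ε ^ (-(ε / (1 + ε))) * V' ^ (ε / (1 + ε))) (𝓝[>] 0) (𝓝 E') := by
  have h1 : Tendsto (fun ε : ℝ => (E' * ((Real.exp (2 * ε) - Real.exp ε) / ε)) ^ (1 / (1 + ε)))
      (𝓝[>] 0) (𝓝 ((E' * 1) ^ (1 : ℝ))) :=
    (a_lim.const_mul E').rpow e1_lim (Or.inl (by simpa using hE.ne'))
  have h2 : Tendsto (fun ε : ℝ => V' ^ (ε / (1 + ε))) (𝓝[>] 0) (𝓝 (V' ^ (0 : ℝ))) :=
    tendsto_const_nhds.rpow e2_lim (Or.inl hV.ne')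
  have h3 := (h1.mul ee_lim).mul h2
  simpa using h3

end CNUMaux

open CNUMaux Filter Topology in
theorem t_CNUM : Stmt_CNUM := by
  intro E V τ hE hV hτ
  have hE' : 0 < E + τ / 2 := by linarith
  have hV' : 0 < V + 1 := by linarith
  have hl := phi_lim (E + τ / 2) (V + 1) hE' hV'
  have hev := hl.eventually (gt_mem_nhds (show E + τ / 2 < E + τ by linarith))
  rw [eventually_nhdsWithin_iff, Metric.eventually_nhds_iff] at hev
  obtain ⟨δ, hδ, hδ'⟩ := hev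
  refine ⟨δ / 2, by linarith, ?_⟩
  intro ε hε hε1
  have hd : dist ε 0 < δ := by
    rw [Real.dist_eq, sub_zero, abs_of_pos hε]
    linarith
  have hφ := hδ' hd hε
  have ha : 0 ≤ Real.exp (2 * ε) - Real.exp ε := by
    have : Real.exp ε ≤ Real.exp (2 * ε) := Real.exp_le_exp.2 (by linarith)
    linarith
  have h1ε : 0 < 1 + ε := by linarith
  have he1 : 0 ≤ 1 / (1 + ε) := by positivity
  have he2 : 0 ≤ ε / (1 + ε) := by positivity
  have hB0 : 0 ≤ E * (Real.exp (2 * ε) - Real.exp ε) := mul_nonneg hE ha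
  have hB : E * (Real.exp (2 * ε) - Real.exp ε) ≤
      (E + τ / 2) * ((Real.exp (2 * ε) - Real.exp ε) / ε) * ε := by
    have : (E + τ / 2) * ((Real.exp (2 * ε) - Real.exp ε) / ε) * ε =
        (E + τ / 2) * (Real.exp (2 * ε) - Real.exp ε) := by
      field_simp
    rw [this]
    exact mul_le_mul_of_nonneg_right (by linarith) ha
  have hX0 : 0 ≤ (E + τ / 2) * ((Real.exp (2 * ε) - Real.exp ε) / ε) :=
    mul_nonneg hE'.le (div_nonneg ha hε.le)
  have hs : ε ^ (1 / (1 + ε)) = ε * ε ^ (-(ε / (1 + ε))) := by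
    have h1 : (1 : ℝ) / (1 + ε) = 1 + -(ε / (1 + ε)) := by
      field_simp
      ring
    rw [h1, Real.rpow_add hε, Real.rpow_one]
  calc (E * (Real.exp (2 * ε) - Real.exp ε)) ^ (1 / (1 + ε)) * V ^ (ε / (1 + ε))
      ≤ ((E + τ / 2) * ((Real.exp (2 * ε) - Real.exp ε) / ε) * ε) ^ (1 / (1 + ε)) *
          (V + 1) ^ (ε / (1 + ε)) := by
        apply mul_le_mul
        · exact Real.rpow_le_rpow hB0 hB he1
        · exact Real.rpow_le_rpow hV (by linarith) he2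
        · exact Real.rpow_nonneg hV _
        · exact Real.rpow_nonneg (mul_nonneg hX0 hε.le) _
    _ = ((E + τ / 2) * ((Real.exp (2 * ε) - Real.exp ε) / ε)) ^ (1 / (1 + ε)) *
          ε ^ (-(ε / (1 + ε))) * (V + 1) ^ (ε / (1 + ε)) * ε := by
        rw [Real.mul_rpow hX0 hε.le, hs]
        ring
    _ ≤ (E + τ) * ε := mul_le_mul_of_nonneg_right hφ.le hε.le

end Pool.Agent.PFU
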