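import Pool.Agent.PFU.StmtsA
import Pool.Agent.PFlow.StmtsM

/-!
# CONN: the sublevel set connects the ends, for small `ε`
-/

open MeasureTheory Filter Topology
open scoped ContDiff ENNReal

namespace Pool.Agent.PFU

open Pool.Agent.PenroseSph Pool.Agent.PFlow Pool.Agent.PFT

namespace CONNm

lemma isCompact_kset (P : Finset E3) (a : E3 → ℝ) (r : ℝ) : IsCompact (kset P a r) := by
  have h1 : kset P a r ⊆ Metric.closedBall 0 r := fun x hx => by
    rw [Metric.mem_closedBall, dist_zero_right]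
    exact hx.1
  refine (isCompact_closedBall (0 : E3) r).of_isClosed_subset ?_ h1
  have h2 : kset P a r = {x : E3 | ‖x‖ ≤ r} ∩ ⋂ p ∈ P, {x : E3 | a p ≤ ‖x - p‖} := by
    ext x
    simp [kset]
  rw [h2]
  refine (isClosed_le continuous_norm continuous_const).inter ?_
  refine isClosed_biInter fun p _ => ?_
  exact isClosed_le continuous_const (by fun_prop)

lemma isOpen_AnnT (T : Finset E3) (a b : ℝ) : IsOpen (AnnT T a b) := by
  have h2 : AnnT T a b = {x : E3 | ‖x‖ < b} ∩ ⋂ p ∈ T, {x : E3 | a < ‖x - p‖} := by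
    ext x
    simp [AnnT]
  rw [h2]
  refine (isOpen_lt continuous_norm continuous_const).inter ?_
  refine isOpen_biInter_finset fun p _ => ?_
  exact isOpen_lt continuous_const (by fun_prop)

lemma volDen_nonneg (g : TensorField) (x : E3) : 0 ≤ volDen g x := Real.sqrt_nonneg _

lemma len_nonneg (g : TensorField) (x : E3) (p : Cov) : 0 ≤ len g x p := Real.sqrt_nonneg _

lemma len_zero (g : TensorField) (x : E3) {p : Cov} (hp : ∀ i, p i = 0) : len g x p = 0 := by
  unfold len ev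
  simp [hp]

lemma grad_zero {v : E3 → ℝ} {x : E3} {c : ℝ} (h : v =ᶠ[𝓝 x] fun _ => c) (i : Fin 3) :
    grad v x i = 0 := by
  unfold grad pd
  rw [h.fderiv_eq]
  simp

/-- Splitting a strict inequality of extended reals. -/
lemma split {a x y : ℝ≥0∞} (h : a < x + y) : ∃ τ A₁ A₂ : ℝ, 0 < τ ∧ 0 ≤ A₁ ∧ 0 ≤ A₂ ∧
    ENNReal.ofReal A₁ ≤ x ∧ ENNReal.ofReal A₂ ≤ y ∧ a.toReal + 4 * τ ≤ A₁ + A₂ := by
  have ha : 0 ≤ a.toReal := ENNReal.toReal_nonneg
  rcases eq_or_ne x ⊤ with hx | hx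
  · exact ⟨1, a.toReal + 4, 0, one_pos, by linarith, le_refl _, by rw [hx]; exact le_top,
      by simp, by linarith⟩
  rcases eq_or_ne y ⊤ with hy | hy
  · exact ⟨1, 0, a.toReal + 4, one_pos, le_refl _, by linarith, by simp,
      by rw [hy]; exact le_top, by linarith⟩
  have h1 : a.toReal < x.toReal + y.toReal := by
    rw [← ENNReal.toReal_add hx hy]
    exact ENNReal.toReal_strict_mono (ENNReal.add_ne_top.2 ⟨hx, hy⟩) h
  exact ⟨(x.toReal + y.toReal - a.toReal) / 4, x.toReal, y.toReal, by linarith,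
    ENNReal.toReal_nonneg, ENNReal.toReal_nonneg, by rw [ENNReal.ofReal_toReal hx],
    by rw [ENNReal.ofReal_toReal hy], by linarith⟩

/-- A common gap for all the subsets. -/
lemma gap {P T : Finset E3} {g : TensorField} (hU : Unsplit P T g) : ∃ τ : ℝ, 0 < τ ∧
    ∀ S : Finset E3, S ⊆ T → S.Nonempty → S ≠ T → ∃ A₁ A₂ : ℝ, 0 ≤ A₁ ∧ 0 ≤ A₂ ∧
      LowerP P S g A₁ ∧ LowerP P (T \ S) g A₂ ∧ (minAreaOf P T g).toReal + 4 * τ ≤ A₁ + A₂ := by
  have h1 : ∀ S : Finset E3, ∃ τ : ℝ, 0 < τ ∧ (S ⊆ T → S.Nonempty → S ≠ T → ∃ A₁ A₂ : ℝ,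
      0 ≤ A₁ ∧ 0 ≤ A₂ ∧ LowerP P S g A₁ ∧ LowerP P (T \ S) g A₂ ∧
      (minAreaOf P T g).toReal + 4 * τ ≤ A₁ + A₂) := by
    intro S
    by_cases hS : S ⊆ T ∧ S.Nonempty ∧ S ≠ T
    · obtain ⟨τ, A₁, A₂, hτ, h1, h2, h3, h4, h5⟩ := split (hU S hS.1 hS.2.1 hS.2.2)
      refine ⟨τ, hτ, fun _ _ _ => ⟨A₁, A₂, h1, h2, ?_, ?_, h5⟩⟩
      · intro U hR hC
        exact h3.trans (iInf₂_le U ⟨hR, hC⟩)
      · intro U hR hC
        exact h4.trans (iInf₂_le U ⟨hR, hC⟩)
    · exact ⟨1, one_pos, fun a b c => absurd ⟨a, b, c⟩ hS⟩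
  choose τ hτ hS using h1
  obtain ⟨S₀, -, hmin⟩ := Finset.exists_min_image T.powerset τ ⟨T, by simp⟩
  refine ⟨τ S₀, hτ S₀, fun S h1 h2 h3 => ?_⟩
  obtain ⟨A₁, A₂, e1, e2, e3, e4, e5⟩ := hS S h1 h2 h3
  have := hmin S (Finset.mem_powerset.2 h1)
  exact ⟨A₁, A₂, e1, e2, e3, e4, by linarith⟩

/-- A region that is almost optimal. -/
lemma region {P T : Finset E3} {g : TensorField} (h : minAreaOf P T g ≠ ⊤) {τ : ℝ} (hτ : 0 < τ) :
    ∃ U : Set E3, RegionP P U ∧ (∀ p ∈ T, ContainsEnd p U) ∧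
      perimeterP P g U ≤ ENNReal.ofReal ((minAreaOf P T g).toReal + τ) := by
  have h1 : minAreaOf P T g < ENNReal.ofReal ((minAreaOf P T g).toReal + τ) := by
    rw [ENNReal.lt_ofReal_iff_toReal_lt h]
    linarith
  have h2 : (⨅ (U : Set E3) (_ : RegionP P U ∧ ∀ p ∈ T, ContainsEnd p U), perimeterP P g U)
      < ENNReal.ofReal ((minAreaOf P T g).toReal + τ) := h1
  simp only [iInf_lt_iff] at h2
  obtain ⟨U, ⟨hR, hC⟩, hU⟩ := h2
  exact ⟨U, hR, hC, hU.le⟩

/-- The levels. -/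
lemma levels {ε c C₂ γ κ l R : ℝ} (h : NumT ε c C₂ γ κ l R) (hε : ε ≤ 1 / 4) :
    sbE ε c l / 4 < ε ∧ 2 * ε ≤ s2E ε γ l ∧ l ≤ R := by
  have he := h.eps_pos
  have hl := h.l_ge
  have hc := h.c_le
  have hc0 := h.c_pos
  refine ⟨?_, ?_, ?_⟩
  · unfold sbE pe
    have h1 : (4 * l) ^ (-(2 / ε - 1)) ≤ 1 := by
      refine Real.rpow_le_one_of_one_le_of_nonpos (by linarith) ?_
      have : 1 ≤ 2 / ε := by
        rw [le_div_iff₀ he]
        linarith
      linarith
    have h0 : 0 ≤ (4 * l) ^ (-(2 / ε - 1)) := Real.rpow_nonneg (by linarith) _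
    have h2 : ε * c * (4 * l) ^ (-(2 / ε - 1)) ≤ ε * 1 * 1 := by
      refine mul_le_mul (mul_le_mul_of_nonneg_left hc he.le) h1 h0 (by linarith)
    linarith
  · unfold s2E
    have h1 : (1 : ℝ) ≤ Real.log (4 * l) := by
      rw [Real.le_log_iff_exp_le (by linarith)]
      have := Real.exp_one_lt_d9
      linarith
    have h2 : 0 < 2 - ε := by linarith
    have hg := h.gam_pos
    nlinarith
  · have h1 := h.R_ge'
    have hk := h.kap_pos
    have hk2 := h.kap_le
    rw [div_le_iff₀ hk] at h1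
    by_contra hcon
    rw [not_le] at hcon
    rcases lt_or_ge 0 R with h4 | h4
    · nlinarith
    · nlinarith

end CONNm

open CONNm in
theorem t_CONN (hMOLE : Stmt_MOLE) (hFLV : Stmt_FLV) (hCTOP : Stmt_CTOP) (hCNUM : Stmt_CNUM)
    (hH2L : Stmt_H2L) (hLOGW : Stmt_LOGW) : Stmt_CONN := by
  intro P T g ρ r hTP hTne hMet hEll hρ hr1 hPr hdisj hUns
  by_cases hprop : ∃ S : Finset E3, S ⊆ T ∧ S.Nonempty ∧ S ≠ T
  swap
  · -- one end only
    refine ⟨1 / 4, 1, 1, by norm_num, le_refl _, one_pos, one_pos, ?_⟩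
    intro ε c C₂ γ κ l R η g' u G M hε hNum hPts hlδ hbl hMet' hsame hsol hloc hlev p hp q hq
    have hpq : p = q := by
      by_contra hne
      refine hprop ⟨{p}, by simpa using hp, by simp, ?_⟩
      intro h
      rw [← h, Finset.mem_singleton] at hq
      exact hne hq.symm
    subst hpq
    refine ⟨{p}, ?_, isPreconnected_singleton, rfl, rfl⟩
    intro x hx
    rw [Set.mem_singleton_iff] at hx
    subst hx
    left
    exact ⟨x, hp, by rw [sub_self, norm_zero]; exact hPts.pos.le⟩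
  -- at least two ends
  have hfin : minAreaOf P T g ≠ ⊤ := by
    obtain ⟨S, h1, h2, h3⟩ := hprop
    exact (lt_of_lt_of_le (hUns S h1 h2 h3) le_top).ne
  obtain ⟨τ, hτ, hgap⟩ := gap hUns
  obtain ⟨U, hReg, hCont, hper⟩ := region hfin hτ
  have ha0 : 0 ≤ (minAreaOf P T g).toReal := ENNReal.toReal_nonneg
  set a : ℝ := (minAreaOf P T g).toReal with ha
  obtain ⟨v, a₀, b₀, ε₀, ha₀, hb₀, hε₀, hvs, hv01, hvb, hvp, hv1, hvE⟩ :=
    hMOLE P g U (a + τ) τ hMet hReg (by linarith) hper hτ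
  obtain ⟨C, hC, hct⟩ := hCTOP P T g ρ r hTP hMet hEll hρ hPr hdisj
  -- the number `M`
  obtain ⟨N, hN1, hN⟩ : ∃ N : ℕ, 1 ≤ N ∧ (1 + C / N) * (a + 3 * τ) < a + 4 * τ := by
    obtain ⟨n, hn⟩ := exists_nat_gt (C * (a + 3 * τ) / τ)
    have h0 : 0 ≤ C * (a + 3 * τ) / τ := by positivity
    have hn0 : (0 : ℝ) < n := lt_of_le_of_lt h0 hn
    refine ⟨n, by exact_mod_cast hn0, ?_⟩
    rw [div_lt_iff₀ hτ] at hn
    have : C / n * (a + 3 * τ) < τ := by
      rw [div_mul_eq_mul_div, div_lt_iff₀ hn0]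
      linarith
    linarith
  obtain ⟨δ', hδ', hδ'ρ, hBalls, hct'⟩ := hct N hN1
  set K : Set E3 := kset P (aDelT T ρ δ') r with hK
  have hKc : IsCompact K := isCompact_kset _ _ _
  have hKm : MeasurableSet K := hKc.isClosed.measurableSet
  have hV : 0 ≤ ∫ x in K, volDen g x := setIntegral_nonneg hKm fun x _ => volDen_nonneg g x
  obtain ⟨ε', hε', hnum⟩ := hCNUM (a + 2 * τ) (∫ x in K, volDen g x) τ (by linarith) hV hτ
  refine ⟨min (1 / 4) (min ε₀ ε'), min a₀ δ', max b₀ r, by positivity, min_le_left _ _,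
    by positivity, lt_max_of_lt_left hb₀, ?_⟩
  intro ε c C₂ γ κ l R η g' u G Mb hε hNum hPts hlδ hbl hMet' hsame hsol hloc hlev
  by_contra hcon
  have hε4 : ε ≤ 1 / 4 := hε.trans (min_le_left _ _)
  have hεε₀ : ε ≤ ε₀ := hε.trans ((min_le_right _ _).trans (min_le_left _ _))
  have hεε' : ε ≤ ε' := hε.trans ((min_le_right _ _).trans (min_le_right _ _))
  have he := hNum.eps_pos
  have hl4 := hNum.l_ge
  have hl0 : 0 < l := by linarith
  obtain ⟨hsb, hs2, hlR⟩ := levels hNum hε4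
  have hR0 : 0 < R := by linarith
  have hlρ : 1 / l < ρ := (hlδ.trans_le (min_le_right _ _)).trans hδ'ρ
  have hla : 1 / l < a₀ := hlδ.trans_le (min_le_left _ _)
  have hRl : 1 / R ≤ 1 / l := one_div_le_one_div_of_le hl0 hlR
  have hRρ : 1 / R < ρ := lt_of_le_of_lt hRl hlρ
  have hrl : r < l := lt_of_le_of_lt (le_max_right _ _) hbl
  have hbl' : b₀ < l := lt_of_le_of_lt (le_max_left _ _) hbl
  have hrR : r < R := by linarith
  have hKA : K ⊆ AnnT T (1 / R) R := by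
    intro x hx
    refine ⟨lt_of_le_of_lt hx.1 hrR, fun p hp => ?_⟩
    have h1 := hx.2 p (hTP hp)
    unfold aDelT at h1
    rw [if_pos hp] at h1
    linarith
  -- the two metrics agree on `K`
  have hgK : ∀ x ∈ K, g' x = g x := by
    intro x hx
    refine hsame x (hx.1.trans (le_max_right _ _)) fun p hp => ?_
    have h1 := hx.2 p hp
    have h2 : min a₀ δ' ≤ δ' := min_le_right _ _
    unfold aDelT at h1
    split_ifs at h1 <;> linarith
  -- the functions
  have hMetΩ : MetricOn (AnnT T (1 / R) R) g' :=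
    ⟨fun i j => (hMet'.smooth i j).mono (Set.subset_univ _),
      fun x _ => hMet'.posDef x trivial⟩
  have hTen : TensorOn (AnnT T (1 / R) R) 0 :=
    ⟨fun i j => contDiffOn_const, fun x _ => Matrix.isSymm_zero⟩
  have hpos : ∀ x ∈ AnnT T (1 / R) R, 0 < u x := fun x hx => hloc.pos x hx.1
  obtain ⟨hw2, -, -⟩ := hLOGW ε (AnnT T (1 / R) R) g' 0 u G Mb he (by linarith)
    (isOpen_AnnT _ _ _) hMetΩ hTen hsol.h2 hpos hsol.eq
  have hw1 : L1Approx K (wOf ε u) (gOf ε u G) :=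
    hH2L (AnnT T (1 / R) R) K (wOf ε u) (gOf ε u G) _ hw2 hKc hKA
  have hwc : ContinuousOn (wOf ε u) (AnnT T (1 / R) R) := hw2.cont
  have hwm : Measurable (wOf ε u) :=
    (Real.measurable_log.comp hsol.cont.measurable).const_mul (-ε)
  -- the topological lemma
  obtain ⟨S, hS1, hS2, hS3, hS⟩ := hct' ε R (wOf ε u) (gOf ε u G) he hε4 hRρ hrR hPts hwc hw1
    hlev hcon
  obtain ⟨A₁, A₂, hA1, hA2, hL1, hL2, hsum⟩ := hgap S hS1 hS2 hS3
  have key := hS A₁ A₂ hA1 hA2 hL1 hL2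
  -- the energy of `v`
  have hE : ∫ x, len g' x (grad v x) ^ (1 + ε) * volDen g' x
      = ∫ x, len g x (grad v x) ^ (1 + ε) * volDen g x := by
    refine integral_congr_ae (ae_of_all _ fun x => ?_)
    show len g' x (grad v x) ^ (1 + ε) * volDen g' x = len g x (grad v x) ^ (1 + ε) * volDen g x
    by_cases h1 : ‖x‖ ≤ max b₀ r ∧ ∀ p ∈ P, min a₀ δ' ≤ ‖x - p‖
    · have h2 := hsame x h1.1 h1.2
      simp only [len, volDen, h2]
    · have h3 : ∀ i, grad v x i = 0 := by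
        rcases not_and_or.1 h1 with h1 | h1
        · rw [not_le] at h1
          have h4 : v =ᶠ[𝓝 x] fun _ => (0 : ℝ) := by
            have : ∀ᶠ y in 𝓝 x, b₀ < ‖y‖ :=
              (continuous_norm.tendsto x).eventually
                (lt_mem_nhds (lt_of_le_of_lt (le_max_left _ _) h1))
            filter_upwards [this] with y hy
            exact hvb y hy.le
          exact fun i => grad_zero h4 i
        · push Not at h1
          obtain ⟨p, hp, h1⟩ := h1
          have h4 : v =ᶠ[𝓝 x] fun _ => v p := by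
            have h5 : Continuous fun y : E3 => ‖y - p‖ := by fun_prop
            have : ∀ᶠ y in 𝓝 x, ‖y - p‖ < a₀ :=
              (h5.tendsto x).eventually (gt_mem_nhds (lt_of_lt_of_le h1 (min_le_left _ _)))
            filter_upwards [this] with y hy
            exact hvp p hp y hy.le
          exact fun i => grad_zero h4 i
      rw [len_zero g' x h3, len_zero g x h3, Real.zero_rpow (by linarith)]
      simp
  have hE0 : 0 ≤ ∫ x, len g x (grad v x) ^ (1 + ε) * volDen g x :=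
    integral_nonneg fun x => mul_nonneg (Real.rpow_nonneg (len_nonneg _ _ _) _)
      (volDen_nonneg _ _)
  have hEle := hvE ε he hεε₀
  -- the flux inequality
  have hflv := hFLV T ε c C₂ γ κ l R η g' u G Mb v hNum hPts hMet' hsol hloc hvs
    (fun x hx => hvb x (by linarith)) (fun p hp x hx => by
      rw [hvp p (hTP hp) x ?_, hv1 p (hTP hp) (hCont p hp)]
      have : 1 / (4 * l) ≤ 1 / l := one_div_le_one_div_of_le hl0 (by linarith)
      linarith) K hKc hKA ε (2 * ε) hsb (by linarith) hs2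
  rw [hE] at hflv
  have hTm : MeasurableSet (K ∩ {x | ε ≤ wOf ε u x ∧ wOf ε u x ≤ 2 * ε}) :=
    hKm.inter ((measurableSet_le measurable_const hwm).inter
      (measurableSet_le hwm measurable_const))
  have c1 : ∫ x in K ∩ {x | ε ≤ wOf ε u x ∧ wOf ε u x ≤ 2 * ε},
      len g' x (gOf ε u G x) * volDen g' x
      = ∫ x in K ∩ {x | ε ≤ wOf ε u x ∧ wOf ε u x ≤ 2 * ε},
      len g x (gOf ε u G x) * volDen g x := by
    refine setIntegral_congr_fun hTm fun x hx => ?_
    have hxg := hgK x hx.1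
    simp only [len, volDen, hxg]
  have c2 : ∫ x in K, volDen g' x = ∫ x in K, volDen g x := by
    refine setIntegral_congr_fun hKm fun x hx => ?_
    have hxg := hgK x hx
    simp only [volDen, hxg]
  rw [c1, c2] at hflv
  have hexp : 0 ≤ Real.exp (2 * ε) - Real.exp ε := by
    have := Real.exp_le_exp.2 (by linarith : ε ≤ 2 * ε)
    linarith
  have hmono : ((∫ x, len g x (grad v x) ^ (1 + ε) * volDen g x)
      * (Real.exp (2 * ε) - Real.exp ε)) ^ (1 / (1 + ε))
      ≤ ((a + 2 * τ) * (Real.exp (2 * ε) - Real.exp ε)) ^ (1 / (1 + ε)) := by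
    refine Real.rpow_le_rpow (mul_nonneg hE0 hexp) ?_ (by positivity)
    refine mul_le_mul_of_nonneg_right ?_ hexp
    linarith
  have hVp : 0 ≤ (∫ x in K, volDen g x) ^ (ε / (1 + ε)) := Real.rpow_nonneg hV _
  have hn := hnum ε he hεε'
  have hI : ∫ x in K ∩ {x | ε ≤ wOf ε u x ∧ wOf ε u x ≤ 2 * ε},
      len g x (gOf ε u G x) * volDen g x ≤ (a + 3 * τ) * ε := by
    have h1 := mul_le_mul_of_nonneg_right hmono hVp
    linarith
  have hCN : 0 ≤ 1 + C / (N : ℝ) := by positivity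
  have h2 := mul_le_mul_of_nonneg_left hI hCN
  have h3 : (a + 4 * τ) * ε ≤ (A₁ + A₂) * ε := mul_le_mul_of_nonneg_right hsum he.le
  have h4 : (1 + C / (N : ℝ)) * ((a + 3 * τ) * ε) < (a + 4 * τ) * ε := by
    rw [← mul_assoc]
    exact mul_lt_mul_of_pos_right hN he
  linarith

end Pool.Agent.PFU
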