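import Pool.Agent.PFU.StmtsA
import Pool.Agent.PFT.PERG

/-!
# (CTOP) The level sets if the sublevel set does not connect the ends of `T`
-/

open MeasureTheory Filter Topology
open scoped ContDiff ENNReal

namespace Pool.Agent.PFU

open Pool.Agent.PenroseSph Pool.Agent.PFlow Pool.Agent.PFT

namespace CTOP

lemma compl_sub {P : Finset E3} {a : E3 → ℝ} {r : ℝ} (hB : Balls P a r) :
    kset P a r ⊆ ((P : Set E3))ᶜ := by
  intro x hx h0
  have h1 : x ∈ P := h0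
  have h2 := hx.2 x h1
  rw [sub_self, norm_zero] at h2
  have h3 := hB.pos x h1
  linarith

/-- The integrand is integrable. -/
lemma int_len {P : Finset E3} {a : E3 → ℝ} {r : ℝ} {g : TensorField} {G : E3 → Cov}
    (hg : MetricOn ((P : Set E3))ᶜ g) (hB : Balls P a r)
    (hG : ∀ i, IntegrableOn (fun x => G x i) (kset P a r)) :
    IntegrableOn (fun x => len g x (G x) * volDen g x) (kset P a r) := by
  have hKc : IsCompact (kset P a r) := PERGm.isCompact_kset P a r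
  have hKm : MeasurableSet (kset P a r) := hKc.isClosed.measurableSet
  have hK0 := compl_sub hB
  have hci : ∀ i j, ContinuousOn (fun x => (g x)⁻¹ i j) (kset P a r) := fun i j =>
    (MCT.smooth_inv hg i j).continuousOn.mono hK0
  have hcv : ContinuousOn (volDen g) (kset P a r) := by
    unfold volDen
    exact ((MCT.smooth_det hg.smooth).continuousOn.mono hK0).sqrt
  obtain ⟨c1, h1, b1⟩ := MCT.exists_bd hKc (fun (ij : Fin 3 × Fin 3) x => (g x)⁻¹ ij.1 ij.2)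
    (fun ij => hci ij.1 ij.2)
  obtain ⟨c2, h2, b2⟩ := MCT.exists_bd hKc (fun (_ : Unit) x => volDen g x) (fun _ => hcv)
  refine Integrable.mono' (g := fun x => Real.sqrt (3 * c1) * c2 * ∑ i, |G x i|) ?_
    (PERGm.len_aesm hKc hci hcv fun i => (hG i).aestronglyMeasurable) ?_
  · refine Integrable.const_mul ?_ _
    exact integrable_finsetSum _ fun i _ => (hG i).abs
  · refine (ae_restrict_iff' hKm).mpr (ae_of_all _ fun x hx => ?_)
    rw [Real.norm_of_nonneg (mul_nonneg (PERGm.len_nonneg g x (G x)) (PERGm.volDen_nonneg g x))]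
    have e1 := PERGm.len_le (g := g) (x := x) (by linarith : (0 : ℝ) ≤ c1)
      (fun i j => b1 x hx (i, j)) (G x)
    have e2 := b2 x hx ()
    have e3 : 0 ≤ volDen g x := Real.sqrt_nonneg _
    rw [abs_of_nonneg e3] at e2
    have e4 : 0 ≤ ∑ i, |G x i| := Finset.sum_nonneg fun _ _ => abs_nonneg _
    calc len g x (G x) * volDen g x ≤ (Real.sqrt (3 * c1) * ∑ i, |G x i|) * c2 :=
          mul_le_mul e1 e2 e3 (by positivity)
      _ = _ := by ring

/-- The inequality for the part `Z` of the sublevel set. -/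
lemma piece (hTR : Stmt_TRNC) {T S : Finset E3} {g : TensorField} {ρ r ε d A Q : ℝ}
    {K V Z : Set E3} {w : E3 → ℝ} {G : E3 → Cov}
    (hPE : ∀ (w : E3 → ℝ) (G : E3 → Cov) (σ : E3 → ℝ) (s₀ s₁ : ℝ), s₀ < s₁ → L1Approx K w G →
        (∀ x : E3, ‖x‖ = r → s₁ < w x) → (∀ p ∈ S, ∀ x : E3, ‖x - p‖ = ρ → w x < s₀) →
        (∀ p ∈ T, p ∉ S → ∀ x : E3, ‖x - p‖ = ρ → w x = σ p) →
          A * (s₁ - s₀) ≤ Q * ∫ x in K ∩ {x | s₀ ≤ w x ∧ w x ≤ s₁}, len g x (G x) * volDen g x)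
    (hV : IsOpen V) (hK : IsCompact K) (hKV : K ⊆ V) (hwV : ContinuousOn w V) (hZ : IsOpen Z)
    (hZV : Z ⊆ V) (hcl : ∀ x ∈ V, x ∈ closure Z → w x < 2 * ε → x ∈ Z) (hd1 : ε < d)
    (hd2 : d < 2 * ε) (hd3 : 2 * ε ≤ 1) (hL : L1Approx K w G)
    (hout : ∀ x : E3, ‖x‖ = r → x ∈ K ∧ 1 < w x)
    (hS : ∀ p ∈ S, ∀ x : E3, ‖x - p‖ = ρ → x ∈ K ∧ x ∈ Z ∧ w x < ε)
    (hS' : ∀ p ∈ T, p ∉ S → ∀ x : E3, ‖x - p‖ = ρ → x ∈ K ∧ x ∉ Z) :
    A * (d - ε) ≤ Q * ∫ x in K ∩ Z ∩ {x | ε ≤ w x ∧ w x ≤ d}, len g x (G x) * volDen g x := by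
  obtain ⟨w₁, G₁, m, hm, hL1, h1, h2, h3⟩ :=
    hTR V K Z w G d (2 * ε) hV hK hKV hwV hZ hZV hcl hd2 hL
  have key := hPE w₁ G₁ (fun _ => m) ε d hd1 hL1 ?_ ?_ ?_
  · have hset : K ∩ {x | ε ≤ w₁ x ∧ w₁ x ≤ d} = K ∩ Z ∩ {x | ε ≤ w x ∧ w x ≤ d} := by
      ext x
      constructor
      · rintro ⟨hxK, hx1, hx2⟩
        have hxZ : x ∈ Z := by
          by_contra hc
          have := h3 x hxK hc
          linarith
        have hxd : w x ≤ d := by
          by_contra hc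
          have := h2 x hxK hxZ (not_le.mp hc)
          linarith
        have h4 := (h1 x hxK hxZ hxd).1
        refine ⟨⟨hxK, hxZ⟩, ?_, hxd⟩
        rw [← h4]
        exact hx1
      · rintro ⟨⟨hxK, hxZ⟩, hx1, hx2⟩
        have h4 := (h1 x hxK hxZ hx2).1
        refine ⟨hxK, ?_⟩
        show ε ≤ w₁ x ∧ w₁ x ≤ d
        rw [h4]
        exact ⟨hx1, hx2⟩
    rw [hset] at key
    have hm1 : MeasurableSet (K ∩ Z ∩ {x | ε ≤ w x ∧ w x ≤ d}) := by
      have e1 : K ∩ Z ∩ {x | ε ≤ w x ∧ w x ≤ d} = (K ∩ w ⁻¹' Set.Icc ε d) ∩ Z := by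
        ext x
        simp only [Set.mem_inter_iff, Set.mem_setOf_eq, Set.mem_preimage, Set.mem_Icc]
        tauto
      rw [e1]
      exact (hL.cont.preimage_isClosed_of_isClosed hK.isClosed isClosed_Icc).measurableSet.inter
        hZ.measurableSet
    have hint : ∫ x in K ∩ Z ∩ {x | ε ≤ w x ∧ w x ≤ d}, len g x (G₁ x) * volDen g x
        = ∫ x in K ∩ Z ∩ {x | ε ≤ w x ∧ w x ≤ d}, len g x (G x) * volDen g x := by
      refine setIntegral_congr_fun hm1 fun x hx => ?_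
      show len g x (G₁ x) * volDen g x = len g x (G x) * volDen g x
      rw [(h1 x hx.1.1 hx.1.2 hx.2.2).2]
    rw [hint] at key
    exact key
  · intro x hx
    obtain ⟨hxK, hx1⟩ := hout x hx
    by_cases hxZ : x ∈ Z
    · exact h2 x hxK hxZ (by linarith)
    · rw [h3 x hxK hxZ]
      exact hm
  · intro p hp x hx
    obtain ⟨hxK, hxZ, hxw⟩ := hS p hp x hx
    rw [(h1 x hxK hxZ (by linarith)).1]
    exact hxw
  · intro p hpT hp x hx
    obtain ⟨hxK, hxZ⟩ := hS' p hpT hp x hx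
    exact h3 x hxK hxZ

/-- The component of a point and the rest of an open set. -/
lemma rest_open {B : Set E3} (hB : IsOpen B) (p : E3) :
    IsOpen (B \ connectedComponentIn B p) := by
  rw [isOpen_iff_mem_nhds]
  rintro x ⟨hxB, hxp⟩
  have h1 : IsOpen (connectedComponentIn B x) := hB.connectedComponentIn
  refine mem_of_superset (h1.mem_nhds (mem_connectedComponentIn hxB)) fun y hy => ?_
  refine ⟨connectedComponentIn_subset _ _ hy, fun hyp => hxp ?_⟩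
  rw [connectedComponentIn_eq hyp, ← connectedComponentIn_eq hy]
  exact mem_connectedComponentIn hxB

end CTOP

open CTOP in
/-- CTOP. -/
theorem t_CTOP (hPERD : Stmt_PERD) (hTRNC : Stmt_TRNC) : Stmt_CTOP := by
  classical
  intro P T g ρ r hTP hg hell hρ hin hdis
  obtain ⟨C, hC, hPD⟩ := hPERD P T g ρ r hTP hg hell hρ hin hdis
  refine ⟨C, hC, fun M hM => ?_⟩
  obtain ⟨δ, hδ, hδρ, hBa, hPE⟩ := hPD M hM
  refine ⟨δ, hδ, hδρ, hBa, ?_⟩
  intro ε R w G hε hε4 hRρ hrR hPts hwV hL hw hnot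
  set K : Set E3 := kset P (aDelT T ρ δ) r with hKdef
  set V : Set E3 := AnnT T (1 / R) R with hVdef
  have haT : ∀ p ∈ T, aDelT T ρ δ p = ρ := fun p hp => by
    unfold aDelT
    rw [if_pos hp]
  have haP : ∀ p, aDelT T ρ δ p ≤ ρ := fun p => by
    unfold aDelT
    split_ifs
    · exact le_rfl
    · exact hδρ.le
  have hKc : IsCompact K := PERGm.isCompact_kset P _ r
  have hKm : MeasurableSet K := hKc.isClosed.measurableSet
  have hR0 : 0 < 1 / R := hPts.pos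
  -- the set `V`
  have hVo : IsOpen V := by
    have h1 : IsOpen {x : E3 | ‖x‖ < R} := isOpen_lt continuous_norm continuous_const
    have h2 : IsOpen (⋂ p ∈ T, {x : E3 | 1 / R < ‖x - p‖}) :=
      isOpen_biInter_finset fun p _ => isOpen_lt continuous_const (by fun_prop)
    have h3 : V = {x : E3 | ‖x‖ < R} ∩ ⋂ p ∈ T, {x : E3 | 1 / R < ‖x - p‖} := by
      ext x
      simp [hVdef, AnnT]
    rw [h3]
    exact h1.inter h2
  have hKV : K ⊆ V := by
    intro x hx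
    refine ⟨hx.1.trans_lt hrR, fun p hp => ?_⟩
    have h1 := hx.2 p (hTP hp)
    rw [haT p hp] at h1
    linarith
  -- spheres
  have hout : ∀ x : E3, ‖x‖ = r → x ∈ K ∧ 1 < w x := by
    intro x hx
    have h1 : x ∈ K := PERGm.outer_mem hBa hx
    exact ⟨h1, (hw x (hKV h1)).2 hx.ge⟩
  have hsph : ∀ p ∈ T, ∀ x : E3, ‖x - p‖ = ρ → x ∈ K ∧ w x < ε := by
    intro p hp x hx
    have h1 : x ∈ K := PERGm.inner_mem hBa (hTP hp) (by rw [haT p hp]; exact hx)
    exact ⟨h1, (hw x (hKV h1)).1 p hp hx.le⟩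
  -- the sublevel set
  set B : Set E3 := {x : E3 | (∃ t ∈ T, ‖x - t‖ ≤ 1 / R) ∨ (x ∈ V ∧ w x < 2 * ε)} with hBdef
  have hball : ∀ t ∈ T, ∀ x : E3, ‖x - t‖ ≤ ρ → x ∈ B := by
    intro t ht x hx
    by_cases h : ∃ t' ∈ T, ‖x - t'‖ ≤ 1 / R
    · exact Or.inl h
    · push Not at h
      have hxV : x ∈ V := by
        refine ⟨?_, h⟩
        have h1 := hin t (hTP ht)
        have h2 : ‖x‖ ≤ ‖x - t‖ + ‖t‖ := by
          have := norm_add_le (x - t) t
          simpa using this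
        linarith
      have h3 := (hw x hxV).1 t ht hx
      exact Or.inr ⟨hxV, by linarith⟩
  have hBo : IsOpen B := by
    have h1 : B = (⋃ t ∈ T, Metric.ball t ρ) ∪ (V ∩ w ⁻¹' Set.Iio (2 * ε)) := by
      ext x
      constructor
      · rintro (⟨t, ht, h⟩ | h)
        · refine Or.inl ?_
          simp only [Set.mem_iUnion]
          refine ⟨t, ht, ?_⟩
          rw [mem_ball_iff_norm]
          linarith
        · exact Or.inr h
      · rintro (h | h)
        · simp only [Set.mem_iUnion] at h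
          obtain ⟨t, ht, h⟩ := h
          rw [mem_ball_iff_norm] at h
          exact hball t ht x h.le
        · exact Or.inr h
    rw [h1]
    refine (isOpen_biUnion fun t _ => Metric.isOpen_ball).union ?_
    exact hwV.isOpen_inter_preimage hVo isOpen_Iio
  have hnot2 : ∃ p ∈ T, ∃ q ∈ T, ¬ Conn B p q := by
    unfold TConn at hnot
    push Not at hnot
    exact hnot
  obtain ⟨p, hp, q, hq, hpq⟩ := hnot2
  have hpB : p ∈ B := hball p hp p (by simp [hρ.le])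
  obtain ⟨Z₁, hZ1⟩ : ∃ Z₁, Z₁ = connectedComponentIn B p := ⟨_, rfl⟩
  have hZ1o : IsOpen Z₁ := by rw [hZ1]; exact hBo.connectedComponentIn
  have hZ2o : IsOpen (B \ Z₁) := by rw [hZ1]; exact rest_open hBo p
  have hZ1B : Z₁ ⊆ B := by rw [hZ1]; exact connectedComponentIn_subset _ _
  have hpZ : p ∈ Z₁ := by rw [hZ1]; exact mem_connectedComponentIn hpB
  have hqZ : q ∉ Z₁ := fun h => hpq ⟨Z₁, hZ1B, by rw [hZ1]; exact isPreconnected_connectedComponentIn,
    hpZ, h⟩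
  have hsub : ∀ t ∈ T, ∀ y ∈ Metric.closedBall t ρ, y ∈ Z₁ → Metric.closedBall t ρ ⊆ Z₁ := by
    intro t ht y hy hyZ
    have h1 : Metric.closedBall t ρ ⊆ connectedComponentIn B y := by
      refine (convex_closedBall t ρ).isPreconnected.subset_connectedComponentIn hy ?_
      intro x hx
      exact hball t ht x (mem_closedBall_iff_norm.mp hx)
    rw [hZ1] at hyZ ⊢
    rw [connectedComponentIn_eq hyZ]
    exact h1
  have hin1 : ∀ t ∈ T, t ∈ Z₁ → ∀ x : E3, ‖x - t‖ = ρ → x ∈ Z₁ := by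
    intro t ht htZ x hx
    exact hsub t ht t (Metric.mem_closedBall_self hρ.le) htZ (mem_closedBall_iff_norm.mpr hx.le)
  have hin2 : ∀ t ∈ T, t ∉ Z₁ → ∀ x : E3, ‖x - t‖ = ρ → x ∉ Z₁ := by
    intro t ht htZ x hx hxZ
    exact htZ (hsub t ht x (mem_closedBall_iff_norm.mpr hx.le) hxZ
      (Metric.mem_closedBall_self hρ.le))
  refine ⟨T.filter (fun t => t ∈ Z₁), Finset.filter_subset _ _, ⟨p, Finset.mem_filter.mpr ⟨hp, hpZ⟩⟩,
    ?_, ?_⟩
  · intro h
    have h1 : q ∈ T.filter (fun t => t ∈ Z₁) := by rw [h]; exact hq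
    exact hqZ (Finset.mem_filter.mp h1).2
  intro A₁ A₂ hA1 hA2 hLo1 hLo2
  set F : E3 → ℝ := fun x => len g x (G x) * volDen g x with hF
  have hF0 : ∀ x, 0 ≤ F x := fun x =>
    mul_nonneg (PERGm.len_nonneg g x (G x)) (PERGm.volDen_nonneg g x)
  have hFi : IntegrableOn F K := int_len hg hBa hL.int
  have hQ : 0 ≤ 1 + C / M := by positivity
  -- the inequality for `d < 2 ε`
  have main : ∀ d : ℝ, ε < d → d < 2 * ε → (A₁ + A₂) * (d - ε) ≤ (1 + C / M) *
      ∫ x in K ∩ {x | ε ≤ w x ∧ w x ≤ 2 * ε}, F x := by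
    intro d hd1 hd2
    have p1 := piece (S := T.filter (fun t => t ∈ Z₁)) (T := T) (g := g) (ρ := ρ) (r := r) (ε := ε)
      (d := d) (A := A₁) (Q := 1 + C / M) (K := K) (V := V) (Z := Z₁ ∩ V) (w := w) (G := G) hTRNC
      (fun w' G' σ s₀ s₁ hs hL' ho hi hj =>
        hPE _ w' G' σ s₀ s₁ (Finset.filter_subset _ _) hs hL' ho hi hj A₁ hA1 hLo1)
      hVo hKc hKV hwV (hZ1o.inter hVo) Set.inter_subset_right ?_ hd1 hd2 (by linarith) hL hout ?_ ?_
    have p2 := piece (S := T \ T.filter (fun t => t ∈ Z₁)) (T := T) (g := g) (ρ := ρ) (r := r)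
      (ε := ε) (d := d) (A := A₂) (Q := 1 + C / M) (K := K) (V := V) (Z := (B \ Z₁) ∩ V) (w := w)
      (G := G) hTRNC
      (fun w' G' σ s₀ s₁ hs hL' ho hi hj =>
        hPE _ w' G' σ s₀ s₁ Finset.sdiff_subset hs hL' ho hi hj A₂ hA2 hLo2)
      hVo hKc hKV hwV (hZ2o.inter hVo) Set.inter_subset_right ?_ hd1 hd2 (by linarith) hL hout ?_ ?_
    · have hmw : ∀ e : ℝ, MeasurableSet (K ∩ w ⁻¹' Set.Icc ε e) := fun e =>
        (hL.cont.preimage_isClosed_of_isClosed hKc.isClosed isClosed_Icc).measurableSet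
      obtain ⟨D₁, hD1⟩ : ∃ D₁, D₁ = K ∩ (Z₁ ∩ V) ∩ {x | ε ≤ w x ∧ w x ≤ d} := ⟨_, rfl⟩
      obtain ⟨D₂, hD2⟩ : ∃ D₂, D₂ = K ∩ ((B \ Z₁) ∩ V) ∩ {x | ε ≤ w x ∧ w x ≤ d} := ⟨_, rfl⟩
      rw [← hD1] at p1
      rw [← hD2] at p2
      have hD2m : MeasurableSet D₂ := by
        have e1 : D₂ = (K ∩ w ⁻¹' Set.Icc ε d) ∩ ((B \ Z₁) ∩ V) := by
          rw [hD2]
          ext x
          simp only [Set.mem_inter_iff, Set.mem_setOf_eq, Set.mem_preimage, Set.mem_Icc]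
          tauto
        rw [e1]
        exact (hmw d).inter (hZ2o.inter hVo).measurableSet
      have hdj : Disjoint D₁ D₂ := by
        rw [Set.disjoint_left]
        intro x h1 h2
        rw [hD1] at h1
        rw [hD2] at h2
        exact h2.1.2.1.2 h1.1.2.1
      have hD1K : D₁ ⊆ K := by rw [hD1]; exact fun x hx => hx.1.1
      have hD2K : D₂ ⊆ K := by rw [hD2]; exact fun x hx => hx.1.1
      have hU : ∫ x in D₁ ∪ D₂, F x = (∫ x in D₁, F x) + ∫ x in D₂, F x :=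
        setIntegral_union hdj hD2m (hFi.mono_set hD1K) (hFi.mono_set hD2K)
      have hmono : ∫ x in D₁ ∪ D₂, F x ≤ ∫ x in K ∩ {x | ε ≤ w x ∧ w x ≤ 2 * ε}, F x := by
        refine setIntegral_mono_set (hFi.mono_set Set.inter_subset_left)
          (ae_of_all _ fun x => hF0 x) (ae_of_all _ ?_)
        intro x hx
        rcases hx with hx | hx
        · rw [hD1] at hx
          exact ⟨hx.1.1, hx.2.1, hx.2.2.trans hd2.le⟩
        · rw [hD2] at hx
          exact ⟨hx.1.1, hx.2.1, hx.2.2.trans hd2.le⟩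
      have h5 := mul_le_mul_of_nonneg_left hmono hQ
      rw [hU] at h5
      have p1' : A₁ * (d - ε) ≤ (1 + C / M) * ∫ x in D₁, F x := p1
      have p2' : A₂ * (d - ε) ≤ (1 + C / M) * ∫ x in D₂, F x := p2
      linarith
    · -- closure, second part
      intro x hxV hxc hxw
      have hxB : x ∈ B := Or.inr ⟨hxV, hxw⟩
      refine ⟨⟨hxB, fun hx1 => ?_⟩, hxV⟩
      obtain ⟨y, hy1, hy2⟩ := mem_closure_iff.mp hxc Z₁ hZ1o hx1
      exact hy2.1.2 hy1
    · intro t ht x hx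
      have ht' := Finset.mem_sdiff.mp ht
      obtain ⟨h1, h2⟩ := hsph t ht'.1 x hx
      have h3 : t ∉ Z₁ := fun h => ht'.2 (Finset.mem_filter.mpr ⟨ht'.1, h⟩)
      exact ⟨h1, ⟨⟨hball t ht'.1 x hx.le, hin2 t ht'.1 h3 x hx⟩, hKV h1⟩, h2⟩
    · intro t htT ht x hx
      obtain ⟨h1, h2⟩ := hsph t htT x hx
      have h3 : t ∈ Z₁ := by
        by_contra h
        exact ht (Finset.mem_sdiff.mpr ⟨htT, fun h' => h (Finset.mem_filter.mp h').2⟩)
      exact ⟨h1, fun h => h.1.2 (hin1 t htT h3 x hx)⟩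
    · -- closure, first part
      intro x hxV hxc hxw
      have hxB : x ∈ B := Or.inr ⟨hxV, hxw⟩
      refine ⟨?_, hxV⟩
      by_contra hx1
      obtain ⟨y, hy1, hy2⟩ := mem_closure_iff.mp hxc (B \ Z₁) hZ2o ⟨hxB, hx1⟩
      exact hy1.2 hy2.1
    · intro t ht x hx
      have ht' := Finset.mem_filter.mp ht
      obtain ⟨h1, h2⟩ := hsph t ht'.1 x hx
      exact ⟨h1, ⟨hin1 t ht'.1 ht'.2 x hx, hKV h1⟩, h2⟩
    · intro t htT ht x hx
      obtain ⟨h1, h2⟩ := hsph t htT x hx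
      have h3 : t ∉ Z₁ := fun h => ht (Finset.mem_filter.mpr ⟨htT, h⟩)
      exact ⟨h1, fun h => hin2 t htT h3 x hx h.1⟩
  -- let `d → 2 ε`
  have hlim : Tendsto (fun d : ℝ => (A₁ + A₂) * (d - ε)) (𝓝[<] (2 * ε))
      (𝓝 ((A₁ + A₂) * (2 * ε - ε))) := by
    have hc : Continuous (fun d : ℝ => (A₁ + A₂) * (d - ε)) := by fun_prop
    exact (hc.tendsto (2 * ε)).mono_left nhdsWithin_le_nhds
  have h6 := le_of_tendsto hlim (b := (1 + C / M) *
      ∫ x in K ∩ {x | ε ≤ w x ∧ w x ≤ 2 * ε}, F x) (by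
    filter_upwards [Ioo_mem_nhdsLT (by linarith : ε < 2 * ε)] with d hd
    exact main d hd.1 hd.2)
  have h7 : (A₁ + A₂) * (2 * ε - ε) = (A₁ + A₂) * ε := by ring
  rw [h7] at h6
  exact h6

end Pool.Agent.PFU
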