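import Pool.Agent.PFU.StmtsD
import Pool.Agent.PFlow.E.EETA

/-!
# Module EETAU: the defect of the change of sign is small (general open set)
-/

open MeasureTheory Filter Topology
open scoped ContDiff ENNReal

namespace Pool.Agent.PFU

open Pool.Agent.PenroseSph Pool.Agent.PFlow Pool.Agent.PFT

namespace EEtaU

open Pool.Agent.PFlow.EEtaAux (contDiffAt_inv cont_pd)

variable {U : Set E3} {g h : TensorField} {x : E3}

theorem cd_inv (hU : IsOpen U) (hg : MetricOn U g) (hx : x ∈ U) (i j : Fin 3) :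
    ContDiffAt ℝ ∞ (fun y => (g y)⁻¹ i j) x :=
  contDiffAt_inv (fun i j => (hg.smooth i j).contDiffAt (hU.mem_nhds hx))
    (hg.posDef x hx).det_pos.ne' i j

theorem cd_tr (hU : IsOpen U) (hg : MetricOn U g) (hh : TensorOn U h) (hx : x ∈ U) :
    ContDiffAt ℝ ∞ (fun y => trg g y (h y)) x := by
  unfold trg
  refine ContDiffAt.sum fun i _ => ContDiffAt.sum fun j _ => (cd_inv hU hg hx i j).mul ?_
  exact (hh.smooth i j).contDiffAt (hU.mem_nhds hx)

theorem cont_len (hU : IsOpen U) (hg : MetricOn U g) (hh : TensorOn U h) (hx : x ∈ U) :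
    ContinuousAt (fun y => len g y (grad (fun z => trg g z (h z)) y)) x := by
  unfold len
  refine ContinuousAt.sqrt ?_
  unfold ev
  refine tendsto_finsetSum _ fun i _ => tendsto_finsetSum _ fun j _ => ?_
  exact (((cd_inv hU hg hx i j).continuousAt).mul (cont_pd (cd_tr hU hg hh hx) i)).mul
    (cont_pd (cd_tr hU hg hh hx) j)

theorem cont_eEta (hU : IsOpen U) (hg : MetricOn U g) (hh : TensorOn U h) {η : ℝ} (hη : 0 < η)
    (hx : x ∈ U) : ContinuousAt (eEta η g h) x := by
  unfold eEta
  have ht := (cd_tr hU hg hh hx).continuousAt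
  have h1 : ContinuousAt (fun y => Real.sqrt (trg g y (h y) ^ 2 + η ^ 2)) x :=
    ((ht.pow 2).add continuousAt_const).sqrt
  have h2 : (Real.sqrt (trg g x (h x) ^ 2 + η ^ 2)) ^ 3 ≠ 0 := by
    have : 0 < trg g x (h x) ^ 2 + η ^ 2 := by positivity
    positivity
  exact continuousAt_const.add (((continuousAt_const.mul ht.abs).mul (cont_len hU hg hh hx)).div
    (h1.pow 3) h2)

end EEtaU

open EEtaU in
open Pool.Agent.PFlow.EEtaAux (eEta_nonneg eEta_le tendsto_eEta) in
theorem t_EETAD : Stmt_EETAD := by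
  intro U g h hU hg hh
  refine ⟨fun η hη => ⟨fun x hx => (cont_eEta hU hg hh hη hx).continuousWithinAt,
    fun x _ => eEta_nonneg η x⟩, ?_⟩
  intro K q τ hK hKU hq hτ
  have hsub : ∀ x ∈ K, x ∈ U := fun x hx => hKU hx
  -- bound of the differential
  have hcont : ContinuousOn (fun y => len g y (grad (fun z => trg g z (h z)) y)) K :=
    fun x hx => (cont_len hU hg hh (hsub x hx)).continuousWithinAt
  obtain ⟨B, hB⟩ := hK.exists_bound_of_continuousOn hcont
  have hbound : ∀ n : ℕ, ∀ x ∈ K,
      eEta (1 / ((n : ℝ) + 1)) g h x ≤ 1 / 2 + 2 * |B| := by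
    intro n x hx
    have h1 : (0 : ℝ) < 1 / ((n : ℝ) + 1) := by positivity
    have h2 : 1 / ((n : ℝ) + 1) ≤ 1 := by
      rw [div_le_one (by positivity)]
      have : (0 : ℝ) ≤ n := Nat.cast_nonneg n
      linarith
    have h3 := eEta_le (g := g) (h := h) h1 h2 x
    have h4 := hB x hx
    rw [Real.norm_eq_abs] at h4
    have h5 := (le_abs_self _).trans (h4.trans (le_abs_self B))
    linarith
  have hlim : Tendsto (fun n : ℕ => ∫ x in K, eEta (1 / ((n : ℝ) + 1)) g h x ^ q)
      atTop (𝓝 (∫ x in K, (0 : ℝ))) := by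
    refine tendsto_integral_of_dominated_convergence (fun _ => (1 / 2 + 2 * |B|) ^ q) ?_ ?_ ?_ ?_
    · intro n
      have h1 : (0 : ℝ) < 1 / ((n : ℝ) + 1) := by positivity
      have h2 : ContinuousOn (fun x => eEta (1 / ((n : ℝ) + 1)) g h x ^ q) K := by
        refine ContinuousOn.rpow_const
          (fun x hx => (cont_eEta hU hg hh h1 (hsub x hx)).continuousWithinAt) ?_
        intro x _
        right
        linarith
      exact h2.aestronglyMeasurable hK.measurableSet
    · have : IntegrableOn (fun _ : E3 => (1 / 2 + 2 * |B|) ^ q) K volume :=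
        integrableOn_const hK.measure_lt_top.ne
      exact this
    · intro n
      rw [ae_restrict_iff' hK.measurableSet]
      refine Eventually.of_forall fun x hx => ?_
      rw [Real.norm_eq_abs, abs_of_nonneg (Real.rpow_nonneg (eEta_nonneg _ x) _)]
      exact Real.rpow_le_rpow (eEta_nonneg _ x) (hbound n x hx) (by linarith)
    · refine Eventually.of_forall fun x => ?_
      have h1 := (tendsto_eEta (g := g) (h := h) x).rpow_const (p := q) (Or.inr (by linarith))
      rw [Real.zero_rpow (by linarith)] at h1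
      exact h1
  rw [integral_zero] at hlim
  obtain ⟨n, hn⟩ := ((hlim.eventually (gt_mem_nhds hτ)).exists)
  refine ⟨1 / ((n : ℝ) + 1), by positivity, ?_, hn.le⟩
  rw [div_le_one (by positivity)]
  have : (0 : ℝ) ≤ n := Nat.cast_nonneg n
  linarith

theorem t_EETAU : Stmt_EETAU :=
  fun U K g h hU hg hh hK hKU q τ hq hτ => (t_EETAD U g h hU hg hh).2 K q τ hK hKU hq hτ

end Pool.Agent.PFU
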