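import Pool.Agent.PFU.StmtsE
import Pool.Agent.PFlow.E.ENER

set_option autoImplicit false

/-!
# ENERT: the energy bound, several ends
-/

open MeasureTheory Filter Topology
open scoped ContDiff ENNReal

namespace Pool.Agent.PFU

open Pool.Agent.PenroseSph Pool.Agent.PFlow Pool.Agent.PFT
open Pool.Agent.PFlow.ENERaux (measurableSet_cAnn cAnn_mono ae_ne_norm msz_le msz_nonneg c0 Kb
  lam_nonneg ph_nonneg ph_sub weighted)

namespace ENERTaux

lemma B2_le {F : Fr} {P : Par} {D : Dat} (hS : SetupT F P D) {B : ℝ} (hB : 0 ≤ B) :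
    B * D.l ^ (-(2 * pe P.eps + 1)) / D.sb P ^ 2 ≤ B * Kb P := by
  have hl : 0 < D.l := by linarith [hS.l_ge]
  have hl1 : 1 ≤ D.l := by linarith [hS.l_ge]
  have he := hS.eps_pos
  have hc := hS.c_pos
  unfold Dat.sb sbE Kb
  rw [Real.mul_rpow (by norm_num) hl.le]
  have e1 : D.l ^ (-(2 * pe P.eps + 1)) = D.l ^ (-pe P.eps) * D.l ^ (-pe P.eps) * D.l⁻¹ := by
    rw [← Real.rpow_add hl, ← Real.rpow_neg_one, ← Real.rpow_add hl]
    congr 1
    ring
  rw [e1]
  have h4 : (0 : ℝ) < (4 : ℝ) ^ (-pe P.eps) := Real.rpow_pos_of_pos (by norm_num) _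
  have hlp : 0 < D.l ^ (-pe P.eps) := Real.rpow_pos_of_pos hl _
  have e2 : B * (D.l ^ (-pe P.eps) * D.l ^ (-pe P.eps) * D.l⁻¹) /
      (P.eps * P.c * ((4 : ℝ) ^ (-pe P.eps) * D.l ^ (-pe P.eps))) ^ 2 =
      B * ((P.eps * P.c * (4 : ℝ) ^ (-pe P.eps)) ^ 2)⁻¹ * D.l⁻¹ := by
    field_simp
  rw [e2]
  have h5 : D.l⁻¹ ≤ 1 := inv_le_one_of_one_le₀ hl1
  have h6 : 0 ≤ B * ((P.eps * P.c * (4 : ℝ) ^ (-pe P.eps)) ^ 2)⁻¹ := by positivity
  nlinarith

end ENERTaux

open ENERTaux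

theorem t_ENERT (hSETWT : Stmt_SETWT) (hBETA : Stmt_BETA) (hTSTAT : Stmt_TSTAT)
    (hUPHT : Stmt_UPHT) (hMATLT : Stmt_MATLT) : Stmt_ENERT := by
  intro F P B
  obtain ⟨β, hβ⟩ := hBETA
  obtain ⟨Bu, hBu, hUPH⟩ := hUPHT F P B β hβ
  obtain ⟨Bm, hBm, hMATL⟩ := hMATLT F P B
  by_cases hP : 0 < P.eps ∧ P.eps ≤ 1 / 2
  swap
  · exact ⟨1, one_pos, fun D hS => absurd ⟨hS.eps_pos, hS.eps_le⟩ hP⟩
  obtain ⟨Ct, hCt, hTSTA⟩ := hTSTAT P.eps hP.1 hP.2
  set K2 : ℝ := 3 * kT F P + Ct * (B * Kb P + (1 + B)) + 1 + Bm * ((12 * P.C + 144 * P.C ^ 2) * Bu)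
    + 1 / 2 * (P.C * Bu) + Bm * Bu with hK2
  refine ⟨|2 / c0 P * K2| + 1, by positivity, ?_⟩
  intro D hS hA se hcut
  obtain ⟨-, -, -, -, -, -, -, -, -, -, -, hlow, hup, -, -, hsb0, hsb1, -, hs2, hsM, hKR, hKl,
    -, -, -, -⟩ := hSETWT F P D hS
  have hkT : 0 ≤ kT F P := by
    have h1 : 1 ≤ F.T.card := Finset.card_pos.2 ⟨0, hS.frame.zero⟩
    have h2 : (1 : ℝ) ≤ F.T.card := by exact_mod_cast h1
    have h3 := hS.eps_pos
    unfold kT
    have h4 : 0 ≤ (F.T.card : ℝ) - 1 := by linarith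
    positivity
  have hrad := hS.frame.rad_ge
  have hlrad := hS.l_rad
  obtain ⟨-, hphi, hphle⟩ := hUPH D hS hA
  obtain ⟨hM1, -⟩ := hMATL D hS hA
  have hgam := hS.gam_pos
  have hl4 := hS.l_ge
  have hl : 0 < D.l := by linarith
  have hl1 : 1 ≤ D.l := by linarith
  have hCpos := hS.C_pos
  have hse1 : D.s2 P + 1 ≤ se := by linarith [hcut.lower]
  have hse2 : se + 1 < D.sM P := hcut.upper
  have hB : 0 ≤ B := by
    have h1 := hA.window (D.s2 P) le_rfl (by linarith)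
    refine le_trans ?_ h1
    apply setIntegral_nonneg
    · exact hA.measOmega.inter ((measurableSet_lt measurable_const hA.meas_w).inter
        (measurableSet_lt hA.meas_w measurable_const))
    · intro x _
      exact mul_nonneg (pow_nonneg (hA.X_nonneg x) 3) (hA.vol_nonneg x)
  have hB2 : 0 ≤ B * D.l ^ (-(2 * pe P.eps + 1)) :=
    mul_nonneg hB (Real.rpow_nonneg hl.le _)
  obtain ⟨χ, hχc, hχ01, hχ0, hχ1, hχlow, hχend, hT⟩ :=
    hTSTA (omT F D) D.vol (D.w P) (D.X P) (D.Phi P) (D.Di P) (D.Su P) (D.sb P) (D.s2 P) (D.sM P)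
      B (B * D.l ^ (-(2 * pe P.eps + 1))) (2 * P.eps) (kT F P) hA hsb0 hsb1 (by linarith) hB hB2
      (by linarith [hP.2]) hkT se hse1 hse2
  -- upper bound of the right side
  have her : Real.exp (D.s2 P / (2 - P.eps)) *
      Real.exp (-((lam P.eps / 2 - 1 / (2 - P.eps)) * (se - D.s2 P))) ≤ 1 := hcut.err
  have hrhs : Ct * (B * D.l ^ (-(2 * pe P.eps + 1)) / D.sb P ^ 2
      + (1 + B) * Real.exp (D.s2 P / (2 - P.eps))
        * Real.exp (-((lam P.eps / 2 - 1 / (2 - P.eps)) * (se - D.s2 P))))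
      ≤ Ct * (B * Kb P + (1 + B)) := by
    apply mul_le_mul_of_nonneg_left _ hCt.le
    have h1 := B2_le hS hB
    have h2 : (1 + B) * Real.exp (D.s2 P / (2 - P.eps))
        * Real.exp (-((lam P.eps / 2 - 1 / (2 - P.eps)) * (se - D.s2 P))) ≤ (1 + B) * 1 := by
      rw [mul_assoc]
      exact mul_le_mul_of_nonneg_left her (by linarith)
    linarith
  -- lower bound of the matter term
  have hm := hM1 χ se hχc hχ01 hχ0 hχ1 hse2 hχend
  have hsub1 : cAnn (D.l / 2) D.l ⊆ cAnn (D.l / 4) (D.Kl P) :=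
    cAnn_mono (by linarith) (by linarith)
  have hsub2 : cAnn D.l (2 * D.l) ⊆ cAnn (D.l / 4) (D.Kl P) :=
    cAnn_mono (by linarith) (by linarith)
  have hshell : |∫ x in cAnn (D.l / 2) D.l, D.ph P x * (msz (D.h x) / D.l + msz (D.h x) ^ 2)|
      ≤ (12 * P.C + 144 * P.C ^ 2) * Bu := by
    apply weighted hl (by positivity) (measurableSet_cAnn _ _) hphi hphle hsub1
    refine ae_of_all _ fun x hx => ?_
    have hx1 : 1 ≤ ‖x‖ := by linarith [hx.1]
    have hx2 : (D.l / 2) ^ 2 ≤ ‖x‖ ^ 2 := pow_le_pow_left₀ (by linarith) hx.1 2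
    have h1 : ∀ i j, |D.h x i j| ≤ 4 * P.C / D.l ^ 2 := by
      intro i j
      refine (hS.hdecay x (by linarith [hx.1]) i j).trans ?_
      rw [div_le_div_iff₀ (by positivity) (by positivity)]
      nlinarith
    have h2 : msz (D.h x) ≤ 12 * P.C / D.l ^ 2 := by
      refine (msz_le (by positivity) h1).trans (le_of_eq ?_)
      ring
    have h3 := msz_nonneg (D.h x)
    have h4 : msz (D.h x) / D.l ≤ 12 * P.C / D.l ^ 3 := by
      calc msz (D.h x) / D.l ≤ (12 * P.C / D.l ^ 2) / D.l := by gcongr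
        _ = _ := by field_simp
    have h5 : msz (D.h x) ^ 2 ≤ 144 * P.C ^ 2 / D.l ^ 3 := by
      calc msz (D.h x) ^ 2 ≤ (12 * P.C / D.l ^ 2) ^ 2 := pow_le_pow_left₀ h3 h2 2
        _ = 144 * P.C ^ 2 / (D.l ^ 3 * D.l) := by field_simp; ring
        _ ≤ 144 * P.C ^ 2 / D.l ^ 3 := by
          apply div_le_div_of_nonneg_left (by positivity) (by positivity)
          have : 0 < D.l ^ 3 := by positivity
          nlinarith
    rw [abs_of_nonneg (by positivity)]
    calc msz (D.h x) / D.l + msz (D.h x) ^ 2 ≤ 12 * P.C / D.l ^ 3 + 144 * P.C ^ 2 / D.l ^ 3 :=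
          add_le_add h4 h5
      _ = _ := by ring
  have htrans : |∫ x in cAnn D.l (2 * D.l), D.ph P x * linR D.g' x| ≤ P.C * Bu := by
    apply weighted hl hCpos.le (measurableSet_cAnn _ _) hphi hphle hsub2
    filter_upwards [ae_ne_norm hl, ae_ne_norm (by linarith : 0 < 2 * D.l)] with x hx1 hx2 hx
    exact hS.modified.trans_sup x (lt_of_le_of_ne hx.1 (Ne.symm hx1)) (lt_of_le_of_ne hx.2 hx2)
  obtain ⟨hphi2, hph2⟩ := ph_sub hphi hphle hsub2
  have hlast : Bm / D.l ^ 4 * (∫ x in cAnn D.l (2 * D.l), D.ph P x) ≤ Bm * Bu := by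
    calc Bm / D.l ^ 4 * (∫ x in cAnn D.l (2 * D.l), D.ph P x)
        ≤ Bm / D.l ^ 4 * (Bu * D.l ^ 3) := mul_le_mul_of_nonneg_left hph2 (by positivity)
      _ = Bm * Bu * D.l⁻¹ := by field_simp
      _ ≤ Bm * Bu * 1 := by
        apply mul_le_mul_of_nonneg_left (inv_le_one_of_one_le₀ hl1) (by positivity)
      _ = Bm * Bu := mul_one _
  have hmat : -(1 + Bm * ((12 * P.C + 144 * P.C ^ 2) * Bu) + 1 / 2 * (P.C * Bu) + Bm * Bu) ≤
      ∫ x in omT F D, χ (D.w P x) * Real.exp (D.w P x / (2 - P.eps)) * D.Su P x * D.vol x := by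
    refine le_trans ?_ hm
    have h1 := hcut.def_le
    have h2 : Bm * (∫ x in cAnn (D.l / 2) D.l,
        D.ph P x * (msz (D.h x) / D.l + msz (D.h x) ^ 2)) ≤
        Bm * ((12 * P.C + 144 * P.C ^ 2) * Bu) :=
      mul_le_mul_of_nonneg_left ((le_abs_self _).trans hshell) hBm.le
    have h3 := neg_abs_le (∫ x in cAnn D.l (2 * D.l), D.ph P x * linR D.g' x)
    linarith
  -- integrability
  have heps2 : 0 < 2 - P.eps := by linarith [hP.2]
  set s : ℝ := D.sb P * (3 / 8) with hs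
  set s' : ℝ := (se + 1 + D.sM P) / 2 with hs'
  set A : Set E3 := omT F D ∩ {x | s ≤ D.w P x ∧ D.w P x ≤ s'} with hAdef
  have hwm := hA.meas_w
  have hAm : MeasurableSet A := hA.measOmega.inter
    ((measurableSet_le measurable_const hwm).inter (measurableSet_le hwm measurable_const))
  have hiS := hA.int_S s s' (by linarith) (by linarith) (by linarith)
  have hiD := hA.int_D s s' (by linarith) (by linarith) (by linarith)
  set Ψ : E3 → ℝ := fun x => χ (D.w P x) * Real.exp (D.w P x / (2 - P.eps)) with hΨ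
  have hexpm : Measurable (fun x => Real.exp (D.w P x / (2 - P.eps))) :=
    Real.measurable_exp.comp (hwm.div_const _)
  have hΨm : Measurable Ψ := (hχc.measurable.comp hwm).mul hexpm
  have hexpA : ∀ x ∈ A, Real.exp (D.w P x / (2 - P.eps)) ≤ Real.exp (s' / (2 - P.eps)) := by
    intro x hx
    apply Real.exp_le_exp.2
    exact div_le_div_of_nonneg_right hx.2.2 heps2.le
  have hΨ0 : ∀ x, 0 ≤ Ψ x := fun x => mul_nonneg (hχ01 _).1 (Real.exp_pos _).le
  have hΨb : ∀ x ∈ A, ‖Ψ x‖ ≤ Real.exp (s' / (2 - P.eps)) := by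
    intro x hx
    rw [Real.norm_eq_abs, abs_of_nonneg (hΨ0 x)]
    calc Ψ x ≤ 1 * Real.exp (D.w P x / (2 - P.eps)) :=
          mul_le_mul_of_nonneg_right (hχ01 _).2 (Real.exp_pos _).le
      _ = Real.exp (D.w P x / (2 - P.eps)) := one_mul _
      _ ≤ _ := hexpA x hx
  have hΨout : ∀ x ∈ omT F D \ A, Ψ x = 0 := by
    intro x hx
    have h1 : ¬ (s ≤ D.w P x ∧ D.w P x ≤ s') := fun h => hx.2 ⟨hx.1, h⟩
    have h2 : χ (D.w P x) = 0 := by
      by_cases h3 : s ≤ D.w P x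
      · have h4 : s' < D.w P x := by
          by_contra h5
          exact h1 ⟨h3, not_lt.1 h5⟩
        exact hχend _ (by linarith)
      · exact hχ0 _ (by push Not at h3; linarith)
    simp only [hΨ, h2, zero_mul]
  have hint : ∀ f : E3 → ℝ, IntegrableOn f A → IntegrableOn (fun x => Ψ x * f x) (omT F D) := by
    intro f hf
    have h1 : IntegrableOn (fun x => Ψ x * f x) A :=
      Integrable.bdd_mul (c := Real.exp (s' / (2 - P.eps))) hf hΨm.aestronglyMeasurable
        ((ae_restrict_iff' hAm).2 (ae_of_all _ hΨb))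
    exact h1.of_forall_sdiff_eq_zero hA.measOmega fun x hx => by rw [hΨout x hx, zero_mul]
  have hIS := hint _ hiS
  have hID := hint _ hiD
  have hsplit : ∫ x in omT F D, χ (D.w P x) * Real.exp (D.w P x / (2 - P.eps))
      * (D.Su P x + D.Di P x / 2) * D.vol x =
      (∫ x in omT F D, χ (D.w P x) * Real.exp (D.w P x / (2 - P.eps)) * D.Su P x * D.vol x)
        + 1 / 2 * ∫ x in omT F D, Ψ x * (D.Di P x * D.vol x) := by
    rw [← integral_const_mul]
    have e1 : ∫ x in omT F D, χ (D.w P x) * Real.exp (D.w P x / (2 - P.eps)) * D.Su P x * D.vol x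
        = ∫ x in omT F D, Ψ x * (D.Su P x * D.vol x) := by
      refine integral_congr_ae (ae_of_all _ fun x => ?_)
      simp only [hΨ]
      ring
    rw [e1, ← integral_add hIS (hID.const_mul _)]
    refine integral_congr_ae (ae_of_all _ fun x => ?_)
    simp only [hΨ]
    ring
  have hDle : ∫ x in omT F D, Ψ x * (D.Di P x * D.vol x) ≤ 2 * K2 := by
    rw [hsplit] at hT
    have h4pi : 0 ≤ 4 * Real.pi * (2 - P.eps) := by positivity
    have := hT
    rw [hK2]
    linarith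
  -- the annulus
  have hR : D.Kl P < D.R := by
    have : 0 < D.Kl P := by linarith
    linarith
  have hfar : ∀ x ∈ cAnn (D.l / 4) (D.Kl P), ∀ p ∈ F.T, 1 / 2 ≤ ‖x - p‖ := by
    intro x hx p hp
    have h1 := hS.frame.inside p hp
    have h2 := hS.frame.rho_pos
    have h3 := norm_sub_norm_le x p
    have h4 := hx.1
    linarith
  have hsubOm : cAnn (D.l / 4) (D.Kl P) ⊆ omT F D := by
    intro x hx
    have hRpos : 4 < D.R := by linarith
    refine ⟨lt_of_le_of_lt hx.2 hR, fun p hp => ?_⟩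
    have h1 : 1 / D.R < 1 / 2 := by
      apply one_div_lt_one_div_of_lt (by norm_num) (by linarith)
    linarith [hfar x hx p hp]
  have hwlow : ∀ x ∈ cAnn (D.l / 4) (D.Kl P), D.sb P < D.w P x := by
    intro x hx
    apply hlow x (hsubOm hx)
    intro p hp
    have h1 : 1 / (4 * D.l) < 1 / 2 := by
      apply one_div_lt_one_div_of_lt (by norm_num) (by linarith)
    linarith [hfar x hx p hp]
  have hwup : ∀ x ∈ cAnn (D.l / 4) (D.Kl P), D.w P x ≤ D.s2 P + 1 + 2 * P.gam :=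
    fun x hx => hup x hx.1 hx.2
  have hsubA : cAnn (D.l / 4) (D.Kl P) ⊆ A := by
    intro x hx
    have h1 := hwlow x hx
    have h2 := hwup x hx
    have h3 := hcut.lower
    exact ⟨hsubOm hx, by linarith, by linarith⟩
  have hc0 : 0 < c0 P := Real.exp_pos _
  have hlam := lam_nonneg hP.1 hP.2
  have hc01 : c0 P ≤ 1 := by
    unfold c0
    apply Real.exp_le_one_iff.2
    have : 0 ≤ lam P.eps / 2 * (1 + 2 * P.gam) := by positivity
    linarith
  have hχc0 : ∀ x ∈ cAnn (D.l / 4) (D.Kl P), c0 P ≤ χ (D.w P x) := by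
    intro x hx
    have h1 := hwlow x hx
    have h2 := hwup x hx
    have h3 := hcut.lower
    rcases le_total (D.w P x) (D.s2 P) with h4 | h4
    · rw [hχ1 _ h1.le h4]; exact hc01
    · refine le_trans ?_ (hχlow _ h4 (by linarith))
      unfold c0
      apply Real.exp_le_exp.2
      have : lam P.eps / 2 * (D.w P x - D.s2 P) ≤ lam P.eps / 2 * (1 + 2 * P.gam) :=
        mul_le_mul_of_nonneg_left (by linarith) (by positivity)
      linarith
  have hmS := measurableSet_cAnn (D.l / 4) (D.Kl P)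
  have hfin : IntegrableOn (fun x => Real.exp (D.w P x / (2 - P.eps)) * D.Di P x * D.vol x)
      (cAnn (D.l / 4) (D.Kl P)) := by
    have h1 : IntegrableOn (fun x => D.Di P x * D.vol x) (cAnn (D.l / 4) (D.Kl P)) :=
      hiD.mono_set hsubA
    have h2 : IntegrableOn (fun x => Real.exp (D.w P x / (2 - P.eps)) * (D.Di P x * D.vol x))
        (cAnn (D.l / 4) (D.Kl P)) :=
      Integrable.bdd_mul (c := Real.exp (s' / (2 - P.eps))) h1 hexpm.aestronglyMeasurable
        ((ae_restrict_iff' hmS).2 (ae_of_all _ fun x hx => by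
          rw [Real.norm_eq_abs, abs_of_pos (Real.exp_pos _)]
          exact hexpA x (hsubA hx)))
    refine h2.congr (ae_of_all _ fun x => ?_)
    simp only
    ring
  refine ⟨hfin, ?_⟩
  have hDnn : ∀ᵐ x ∂(volume.restrict (omT F D)), 0 ≤ Ψ x * (D.Di P x * D.vol x) := by
    filter_upwards [hA.D_nonneg] with x hx
    exact mul_nonneg (hΨ0 x) (mul_nonneg hx (hA.vol_nonneg x))
  have hDnnS : ∀ᵐ x ∂(volume.restrict (cAnn (D.l / 4) (D.Kl P))), 0 ≤ D.Di P x :=
    ae_mono (Measure.restrict_mono hsubOm le_rfl) hA.D_nonneg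
  have h1 : ∫ x in cAnn (D.l / 4) (D.Kl P), Ψ x * (D.Di P x * D.vol x) ≤ 2 * K2 :=
    (setIntegral_mono_set hID hDnn hsubOm.eventuallyLE).trans hDle
  have h2 : c0 P * ∫ x in cAnn (D.l / 4) (D.Kl P),
      Real.exp (D.w P x / (2 - P.eps)) * D.Di P x * D.vol x ≤
      ∫ x in cAnn (D.l / 4) (D.Kl P), Ψ x * (D.Di P x * D.vol x) := by
    rw [← integral_const_mul]
    apply integral_mono_ae (hfin.const_mul _) (hID.mono_set hsubOm)
    filter_upwards [hDnnS, ae_restrict_mem hmS] with x hx hxS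
    have h3 := hχc0 x hxS
    have h4 : 0 ≤ Real.exp (D.w P x / (2 - P.eps)) * (D.Di P x * D.vol x) :=
      mul_nonneg (Real.exp_pos _).le (mul_nonneg hx (hA.vol_nonneg x))
    calc c0 P * (Real.exp (D.w P x / (2 - P.eps)) * D.Di P x * D.vol x)
        = c0 P * (Real.exp (D.w P x / (2 - P.eps)) * (D.Di P x * D.vol x)) := by ring
      _ ≤ χ (D.w P x) * (Real.exp (D.w P x / (2 - P.eps)) * (D.Di P x * D.vol x)) :=
        mul_le_mul_of_nonneg_right h3 h4
      _ = Ψ x * (D.Di P x * D.vol x) := by simp only [hΨ]; ring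
  have h3 : ∫ x in cAnn (D.l / 4) (D.Kl P),
      Real.exp (D.w P x / (2 - P.eps)) * D.Di P x * D.vol x ≤ 2 / c0 P * K2 := by
    rw [div_mul_eq_mul_div, le_div_iff₀ hc0, mul_comm]
    exact h2.trans h1
  exact h3.trans ((le_abs_self _).trans (by linarith))

end Pool.Agent.PFU
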