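import Pool.Agent.PFU.StmtsP

/-!
# Block PT, module EQLT: the equation of the limit, several inner balls
-/

open MeasureTheory Filter Topology Set
open scoped ContDiff RealInnerProductSpace

namespace Pool.Agent.PFU

open Pool.Agent.PenroseSph Pool.Agent.PFlow Pool.Agent.PFT Pool.Agent.PFlow.PB

open Pool.Agent.PFlow.PB.EQLAux

theorem isOpen_AnnT (T : Finset E3) (a b : ℝ) : IsOpen (AnnT T a b) := by
  have h : AnnT T a b = {x : E3 | ‖x‖ < b} ∩ ⋂ p ∈ T, {x : E3 | a < ‖x - p‖} := by
    ext x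
    simp [AnnT]
  rw [h]
  exact (isOpen_lt continuous_norm continuous_const).inter (isOpen_biInter_finset fun p _ =>
    isOpen_lt continuous_const (continuous_id.sub continuous_const).norm)

theorem t_EQLT : Stmt_EQLT := by
  have hb : BRID := pBRID
  have hn : NDIV := pNDIV
  have hl : LIMEQ := pLIMEQ
  have hs : SYMM := pSYMM
  have hk : KLIMU := kLIMU
  have hm : KSMO := kSMO
  have ht : KTN := kTN
  intro T ε a b g h Θ θ B t₀ δ κ u G M C v F N L
  have hbpos : 0 < b := by
    obtain ⟨p, hp⟩ := L.pts.ne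
    have h1 := L.pts.inside p hp
    have h2 := L.pts.pos
    have h3 := norm_nonneg p
    linarith
  have hr : (0 : ℝ) < 3 * b / 2 := by linarith
  have hD : GData g h (3 * b / 2) :=
    ⟨L.data.met, L.data.ten, fun x hx => L.data.flat x (by linarith)⟩
  have hgc : ∀ i j, Continuous fun x => g x i j := fun i j =>
    (contDiffOn_univ.1 (L.data.met.smooth i j)).continuous
  have hreg : ∀ n x ξ, 0 < regA ε (δ n) (κ n) (lsq g x ξ) := by
    intro n x ξ
    have h1 : 0 ≤ lsq g x ξ := (ht g x (L.data.met.posDef x (mem_univ x)) ξ).1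
    unfold regA
    have h2 : 0 < (lsq g x ξ + δ n ^ 2) ^ ((ε - 1) / 2) :=
      Real.rpow_pos_of_pos (by have := L.δ_pos n; positivity) _
    have := L.κ_pos n
    positivity
  obtain ⟨⟨C₁, hC₁, hbd⟩, hconv⟩ := hk ε g h _ L.eps_pos L.eps_lt hD
  -- the coefficients
  set α : ℕ → E3 → E3 → Fin 3 → Fin 3 → ℝ := fun n x ξ i j =>
    (opL ε (δ n) (κ n) g x ξ (eu i j) - opL ε (δ n) (κ n) g x ξ 0) /
      regA ε (δ n) (κ n) (lsq g x ξ) with hα
  set β : ℕ → E3 → E3 → ℝ := fun n x ξ =>
    (opL ε (δ n) (κ n) g x ξ 0 + cB ε (δ n) g h x ξ) /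
      regA ε (δ n) (κ n) (lsq g x ξ) with hβ
  set α₀ : E3 → E3 → Fin 3 → Fin 3 → ℝ := fun x ξ i j =>
    volDen g x * beps ε g x ξ (cHess g x ξ (eu i j)) -
      volDen g x * beps ε g x ξ (cHess g x ξ 0) with hα₀
  set β₀ : E3 → E3 → ℝ := fun x ξ =>
    volDen g x * beps ε g x ξ (cHess g x ξ 0) +
      volDen g x * (len g x ξ * beps ε g x ξ (h x)) with hβ₀
  set C₂ : ℝ := max C (2 * C₁) with hC₂
  have hCle : C ≤ C₂ := le_max_left _ _
  have hC1le : 2 * C₁ ≤ C₂ := le_max_right _ _
  have hM2 : ∀ n i, MemLp (M n i) 2 := fun n i => ((L.h2 n).h2 i).memG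
  have hmeasL : ∀ n (X : Bil), Measurable fun z : E3 × E3 =>
      opL ε (δ n) (κ n) g z.1 z.2 X := by
    intro n X
    have h1 := (cont_opA (hm ε (δ n) (κ n) g h _ L.eps_pos L.eps_lt (L.δ_pos n) (L.κ_pos n) hD).1
      (fun i => WithLp.toLp 2 (X i))).measurable
    have h2 : (fun z : E3 × E3 => opL ε (δ n) (κ n) g z.1 z.2 X) = fun z : E3 × E3 =>
        opA (cA ε (δ n) (κ n) g) z.1 z.2 (fun i => WithLp.toLp 2 (X i)) := by
      funext z
      rw [hb.op ε (δ n) (κ n) g h _ L.eps_pos L.eps_lt (L.δ_pos n) (L.κ_pos n) hD]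
      rfl
    rw [h2]
    exact h1
  have hmeasR : ∀ n, Measurable fun z : E3 × E3 =>
      regA ε (δ n) (κ n) (lsq g z.1 z.2) := fun n => meas_regA hgc _ _ _
  have hsq : ∀ n, sqv (G n) ≤ C := by
    intro n
    have h1 := L.bound n
    have h2 := EQLAux.sq_nonneg' (u n)
    have h3 : 0 ≤ ∑ i, sqv (M n i) := Finset.sum_nonneg fun i _ => sqv_nonneg _
    linarith
  have hsM : ∀ n, ∑ i, sqv (M n i) ≤ C := by
    intro n
    have h1 := L.bound n
    have h2 := EQLAux.sq_nonneg' (u n)
    have h3 := sqv_nonneg (G n)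
    linarith
  have key := hl (AnnT T a b) G M F N α β α₀ β₀ C₂ (isOpen_AnnT T a b) hM2
    (fun i => (L.h2v.h2 i).memG) (fun n => (L.h2 n).h1.memG) L.h2v.h1.memG
    (fun n => (hsM n).trans hCle) (fun n => (hsq n).trans hCle) L.ae L.weak ?_ ?_ ?_ ?_ ?_ ?_
  · -- conclusion
    obtain ⟨hsym, hzero⟩ := hs v F N L.h2v
    rw [EqU, ae_restrict_iff' (isOpen_AnnT T a b).measurableSet]
    filter_upwards [key, hsym, hzero] with x hx hsx hzx hxU
    have hmt : mat N x = mt fun i => N i x := by
      ext i j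
      exact (hsx i j).symm
    refine ⟨fun hF => ?_, fun hF => ?_⟩
    · have hF' : F x ≠ 0 := by
        intro h0
        apply hF
        funext i
        show (F x) i = 0
        rw [h0]
        rfl
      have h1 := hx hxU hF'
      have haff := ((aff_beps ε g x (F x)).mul (volDen g x)).expand (mt fun i => N i x)
      have hvol : 0 < volDen g x :=
        Real.sqrt_pos.2 (L.data.met.posDef x (mem_univ x)).det_pos
      have h2 : volDen g x * beps ε g x (F x) (cHess g x (F x) (mt fun i => N i x)) +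
          volDen g x * (len g x (F x) * beps ε g x (F x) (h x)) = 0 := by
        rw [haff, add_assoc]
        exact h1
      rw [hmt]
      have h3 : volDen g x * (beps ε g x (F x) (cHess g x (F x) (mt fun i => N i x)) +
          len g x (F x) * beps ε g x (F x) (h x)) = 0 := by
        rw [mul_add]
        exact h2
      exact (mul_eq_zero.1 h3).resolve_left hvol.ne'
    · have hF' : F x = 0 := by
        ext i
        exact congrFun hF i
      have h1 := hzx hF'
      rw [hmt]
      ext i j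
      show N i x j = 0
      rw [h1 i]
      rfl
  · -- the equation
    intro n
    obtain ⟨c, L', hc⟩ := hb.coef ε (δ n) (κ n) g h _ L.eps_pos L.eps_lt (L.δ_pos n) (L.κ_pos n)
      hr hD
    filter_upwards [hn _ _ _ _ _ _ _ _ _ hc L.pen.pen _ _ _ (L.sol n) (L.h2 n)] with x hx hxU
    have hx1 : ∀ p ∈ T, a ≤ ‖x - p‖ := fun p hp => (hxU.2 p hp).le
    have hx2 : ‖x‖ ≤ b := hxU.1.le
    rw [L.pen.mid x hx1 hx2, L.pen.out x hx1, zero_mul, sub_zero,
      hb.op ε (δ n) (κ n) g h _ L.eps_pos L.eps_lt (L.δ_pos n) (L.κ_pos n) hD,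
      (aff_opL ε (δ n) (κ n) g x (G n x)).expand] at hx
    have hR := hreg n x (G n x)
    simp only [hα, hβ]
    have h1 : ∑ i, ∑ j, (opL ε (δ n) (κ n) g x (G n x) (eu i j) -
        opL ε (δ n) (κ n) g x (G n x) 0) / regA ε (δ n) (κ n) (lsq g x (G n x)) * M n i x j =
        (∑ i, ∑ j, (opL ε (δ n) (κ n) g x (G n x) (eu i j) -
        opL ε (δ n) (κ n) g x (G n x) 0) * M n i x j) /
          regA ε (δ n) (κ n) (lsq g x (G n x)) := by
      rw [Finset.sum_div]
      refine Finset.sum_congr rfl fun i _ => ?_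
      rw [Finset.sum_div]
      exact Finset.sum_congr rfl fun j _ => by ring
    rw [h1, ← add_div, ← add_assoc]
    rw [div_eq_zero_iff]
    left
    exact hx
  · intro n i j
    exact ((hmeasL n _).sub (hmeasL n _)).div (hmeasR n)
  · intro n
    refine ((hmeasL n _).add ?_).div (hmeasR n)
    exact (hm ε (δ n) (κ n) g h _ L.eps_pos L.eps_lt (L.δ_pos n) (L.κ_pos n)
      hD).2.1.continuous.measurable
  · -- the bound of α
    intro n x ξ i j
    have hb1 := fun X => (hbd (δ n) (κ n) (L.δ_pos n) (L.δ_le n) (L.κ_pos n) (L.κ_le n) x ξ X).1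
    have h0 := hb1 0
    simp only [Matrix.zero_apply, abs_zero, Finset.sum_const_zero, add_zero] at h0
    have ht1 : ∀ t : ℝ, 0 < t → t * |α n x ξ i j| ≤ C₁ * t + 2 * C₁ * ‖ξ‖ := by
      intro t htp
      have h1 := hb1 (t • eu i j)
      have h2 : ∑ k, ∑ l, |(t • eu i j) k l| = t := by
        rw [Finset.sum_eq_single i]
        · rw [Finset.sum_eq_single j]
          · simp [eu, abs_of_pos htp]
          · intro l _ hl
            simp [eu, hl]
          · simp
        · intro k _ hk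
          refine Finset.sum_eq_zero fun l _ => ?_
          simp [eu, hk]
        · simp
      rw [h2] at h1
      have h3 := (aff_opL ε (δ n) (κ n) g x ξ).scale i j t
      have h4 : t * α n x ξ i j = opL ε (δ n) (κ n) g x ξ (t • eu i j) /
          regA ε (δ n) (κ n) (lsq g x ξ) - opL ε (δ n) (κ n) g x ξ 0 /
          regA ε (δ n) (κ n) (lsq g x ξ) := by
        rw [← sub_div, h3]
        simp only [hα]
        ring
      have h5 : t * |α n x ξ i j| = |t * α n x ξ i j| := by
        rw [abs_mul, abs_of_pos htp]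
      rw [h5, h4]
      refine (abs_sub _ _).trans ?_
      linarith
    have hle : |α n x ξ i j| ≤ C₁ := by
      by_contra hcon
      push Not at hcon
      have h1 := ht1 ((2 * C₁ * ‖ξ‖ + 1) / (|α n x ξ i j| - C₁)) (by
        apply div_pos
        · positivity
        · linarith)
      have h2 : 0 < |α n x ξ i j| - C₁ := by linarith
      have h3 : (2 * C₁ * ‖ξ‖ + 1) / (|α n x ξ i j| - C₁) * (|α n x ξ i j| - C₁) =
          2 * C₁ * ‖ξ‖ + 1 := div_mul_cancel₀ _ h2.ne'
      nlinarith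
    linarith
  · -- the bound of β
    intro n x ξ
    have hb1 := hbd (δ n) (κ n) (L.δ_pos n) (L.δ_le n) (L.κ_pos n) (L.κ_le n) x ξ 0
    have h0 := hb1.1
    simp only [Matrix.zero_apply, abs_zero, Finset.sum_const_zero, add_zero] at h0
    simp only [hβ]
    rw [add_div]
    refine (abs_add_le _ _).trans ?_
    have h1 := hb1.2.1
    have h2 : 2 * C₁ * ‖ξ‖ ≤ C₂ * ‖ξ‖ := mul_le_mul_of_nonneg_right hC1le (norm_nonneg _)
    linarith
  · -- convergence
    intro x ξ p hξ hp
    have hξ' : (WithLp.ofLp ξ) ≠ 0 := by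
      intro h0
      apply hξ
      ext i
      exact congrFun h0 i
    obtain ⟨h1, h2⟩ := hconv x δ κ p ξ L.δ_pos L.κ_pos L.δ_tend L.κ_tend hp hξ
    refine ⟨fun i j => ?_, ?_⟩
    · have h3 := (h1 (eu i j)).sub (h1 0)
      refine h3.congr fun n => ?_
      simp only [hα, sub_div]
    · have h3 := (h1 0).add h2
      refine h3.congr fun n => ?_
      simp only [hβ, add_div]

end Pool.Agent.PFU
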