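import Pool.Agent.PFU.StmtsF
import Pool.Agent.PFT.EXT

/-!
# EXTT: existence of the setup for the capped data, flow from several ends
-/

set_option autoImplicit false

open MeasureTheory Filter Topology
open scoped ContDiff ENNReal

namespace Pool.Agent.PFU

open Pool.Agent.PenroseSph Pool.Agent.PFlow Pool.Agent.PFT

namespace EXTTm

/-- The frame. -/
theorem frame {P T : Finset E3} {N : ℝ} (hTP : T ⊆ P) (h0 : (0 : E3) ∈ T) (hN : 1 ≤ N)
    (hsep : ∀ p ∈ P, ∀ q ∈ P, p ≠ q → 1 / N < ‖p - q‖) :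
    ∃ F : Fr, F.T = T ∧ F.Ok ∧ 4 * F.rho = 1 / N ∧ (∀ p ∈ P, ‖p‖ + 1 < F.rad) := by
  have hN0 : 0 < N := by linarith
  have h4 : 4 * (1 / (4 * N)) = 1 / N := by
    field_simp
  have hle : 1 / N ≤ 1 := by
    rw [div_le_one hN0]; exact hN
  have hpos : 0 < 1 / (4 * N) := by positivity
  have hr : ∀ p ∈ P, ‖p‖ + 1 < 2 + ∑ q ∈ P, ‖q‖ := by
    intro p hp
    have : ‖p‖ ≤ ∑ q ∈ P, ‖q‖ :=
      Finset.single_le_sum (f := fun q : E3 => ‖q‖) (fun q _ => norm_nonneg q) hp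
    linarith
  refine ⟨⟨T, 1 / (4 * N), 2 + ∑ q ∈ P, ‖q‖⟩, rfl, ?_, h4, hr⟩
  refine ⟨h0, hpos, ?_, ?_, ?_, ?_⟩
  · show 1 / (4 * N) ≤ 1
    linarith
  · show 1 ≤ 2 + ∑ q ∈ P, ‖q‖
    have : 0 ≤ ∑ p ∈ P, ‖p‖ := Finset.sum_nonneg fun p _ => norm_nonneg p
    linarith
  · intro p hp
    have := hr p (hTP hp)
    show ‖p‖ + 1 / (4 * N) < 2 + ∑ q ∈ P, ‖q‖
    linarith
  · intro p hp q hq hpq
    have := hsep p (hTP hp) q (hTP hq) hpq
    show 2 * (1 / (4 * N)) < ‖p - q‖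
    linarith

theorem isCompact_cAnnT (T : Finset E3) (a b : ℝ) : IsCompact (cAnnT T a b) := by
  have h : cAnnT T a b = Metric.closedBall (0 : E3) b ∩ ⋂ p ∈ T, {x : E3 | a ≤ ‖x - p‖} := by
    ext x
    simp only [cAnnT, Set.mem_ofPred_eq, Set.mem_inter_iff, mem_closedBall_zero_iff,
      Set.mem_iInter]
  rw [h]
  refine (isCompact_closedBall 0 b).inter_right ?_
  refine isClosed_biInter fun p _ => ?_
  exact isClosed_le continuous_const (continuous_id.sub continuous_const).norm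

theorem kin_one {R : ℝ} {x : E3} (h : 2 ≤ 32 * R * ‖x‖) : kin R x = 1 := by
  unfold kin kap
  rw [Real.smoothTransition.zero_of_nonpos (by linarith)]
  ring

theorem chiN_one {T : Finset E3} {R : ℝ} {x : E3} (h : ∀ p ∈ T, 2 ≤ 32 * R * ‖x - p‖) :
    chiN T R x = 1 := by
  unfold chiN
  exact Finset.prod_eq_one fun p hp => kin_one (h p hp)

theorem chiN_nonneg (T : Finset E3) (R : ℝ) (x : E3) : 0 ≤ chiN T R x := by
  unfold chiN
  exact Finset.prod_nonneg fun p _ => (EXTAux.kin_mem R (x - p)).1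

/-- The union of the caps. -/
def caps (P T : Finset E3) (N : ℝ) : Set E3 :=
  ⋃ p ∈ P \ T, Metric.closedBall p (1 / (4 * N))

theorem mem_caps {P T : Finset E3} {N : ℝ} {x : E3} :
    x ∈ caps P T N ↔ ∃ p ∈ P, p ∉ T ∧ ‖x - p‖ ≤ 1 / (4 * N) := by
  unfold caps
  simp only [Set.mem_iUnion, Metric.mem_closedBall, dist_eq_norm, Finset.mem_sdiff, exists_prop]
  constructor
  · rintro ⟨p, ⟨h1, h2⟩, h3⟩
    exact ⟨p, h1, h2, h3⟩
  · rintro ⟨p, h1, h2, h3⟩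
    exact ⟨p, ⟨h1, h2⟩, h3⟩

theorem caps_compact (P T : Finset E3) (N : ℝ) : IsCompact (caps P T N) :=
  (P \ T).isCompact_biUnion fun p _ => isCompact_closedBall p _

theorem caps_volume {P T : Finset E3} {N V : ℝ} {f : E3 → ℝ} (hN : 0 < N)
    (hsep : ∀ p ∈ P, ∀ q ∈ P, p ≠ q → 1 / N < ‖p - q‖) (hf : Continuous f)
    (hV : ∀ p ∈ P, p ∉ T → ∫ x in Metric.closedBall p (1 / (4 * N)), f x ≤ V) :
    ∫ x in caps P T N, f x ≤ ((P \ T).card : ℝ) * V := by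
  unfold caps
  rw [integral_biUnion_finset _ (fun p _ => Metric.isClosed_closedBall.measurableSet) _
    (fun p _ => hf.continuousOn.integrableOn_compact (isCompact_closedBall p _))]
  · refine (Finset.sum_le_card_nsmul _ _ V fun p hp =>
      hV p (Finset.mem_sdiff.1 hp).1 (Finset.mem_sdiff.1 hp).2).trans ?_
    rw [nsmul_eq_mul]
  · intro p hp q hq hpq
    have hp' : p ∈ P := (Finset.mem_sdiff.1 (Finset.mem_coe.1 hp)).1
    have hq' : q ∈ P := (Finset.mem_sdiff.1 (Finset.mem_coe.1 hq)).1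
    refine Metric.closedBall_disjoint_closedBall ?_
    rw [dist_eq_norm]
    refine lt_of_le_of_lt ?_ (hsep p hp' q hq' hpq)
    have : 1 / N = 1 / (4 * N) + 1 / (4 * N) + (1 / (4 * N) + 1 / (4 * N)) := by
      field_simp; norm_num
    have : 0 < 1 / (4 * N) := by positivity
    linarith

/-- The barrier for the tensor `0`. -/
theorem barrier_zero {F : Fr} {C R : ℝ} {g h : TensorField} (hB : Barrier F C R g h) :
    Barrier F C R g 0 :=
  { inn := fun ε h1 h2 p hp x h3 h4 =>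
      ⟨(hB.inn ε h1 h2 p hp x h3 h4).2, (hB.inn ε h1 h2 p hp x h3 h4).2⟩
    out := fun ε h1 h2 x h3 => ⟨(hB.out ε h1 h2 x h3).2, (hB.out ε h1 h2 x h3).2⟩ }

theorem tconn_mono {T : Finset E3} {a b c : ℝ} {w₀ w : E3 → ℝ}
    (h : ∀ x ∈ AnnT T a b, w x ≤ w₀ x) (hc : TConn T a b c w₀) : TConn T a b c w := by
  intro p hp q hq
  obtain ⟨S, hS, h1, h2, h3⟩ := hc p hp q hq
  refine ⟨S, fun x hx => ?_, h1, h2, h3⟩
  rcases hS hx with h4 | ⟨h4, h5⟩
  · exact Or.inl h4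
  · exact Or.inr ⟨h4, (h x h4).trans_lt h5⟩

theorem w_mono {ε : ℝ} {u₀ u : E3 → ℝ} {x : E3} (hε : 0 < ε) (h0 : 0 < u₀ x)
    (h : u₀ x ≤ u x) : wOf ε u x ≤ wOf ε u₀ x := by
  unfold wOf
  exact EXTAux.ar5 hε (Real.log_le_log h0 h)

/-- The second part of the defect is small for small `η`, uniformly in `R`. -/
theorem eta_small (hEETAU : Stmt_EETAU) {T : Finset E3} {g k : TensorField}
    (hg : MetricOn ((T : Set E3))ᶜ g) (hk : TensorOn ((T : Set E3))ᶜ k) {a l q τ : ℝ}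
    (ha : 0 < a) (hq : 1 ≤ q) (hτ : 0 < τ) :
    ∃ η : ℝ, 0 < η ∧ ∀ R : ℝ, 1 ≤ 8 * R * a →
      ∫ x in cAnnT T a l, (chiN T (R / 2) x * eEta η g k x) ^ q ≤ τ := by
  obtain ⟨η, hη, -, hI⟩ := hEETAU ((T : Set E3))ᶜ (cAnnT T a l) g k
    (T.finite_toSet.isClosed).isOpen_compl hg hk (isCompact_cAnnT T a l) (by
      intro x hx hxT
      have h1 := hx.2 x (Finset.mem_coe.1 hxT)
      rw [sub_self, norm_zero] at h1
      linarith) q τ hq hτ
  refine ⟨η, hη, fun R hR => le_trans (le_of_eq ?_) hI⟩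
  refine setIntegral_congr_fun (isCompact_cAnnT T a l).measurableSet fun x hx => ?_
  have h1 : chiN T (R / 2) x = 1 := by
    refine chiN_one fun p hp => ?_
    have h2 := hx.2 p hp
    have h3 : 0 ≤ R := by
      by_contra hcon
      push Not at hcon
      have : R * a < 0 := mul_neg_of_neg_of_pos hcon ha
      linarith
    have h4 : R * a ≤ R * ‖x - p‖ := mul_le_mul_of_nonneg_left h2 h3
    have e1 : 32 * (R / 2) * ‖x - p‖ = 16 * (R * ‖x - p‖) := by ring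
    have e2 : 8 * R * a = 8 * (R * a) := by ring
    rw [e1]
    rw [e2] at hR
    linarith
  simp only [h1, one_mul]

end EXTTm

open EXTTm in
/-- **EXTT.** -/
theorem t_EXTT (hCAPT : Stmt_CAPT) (hMODT : Stmt_MODT) (_hMODMT : Stmt_MODMT)
    (hEETAU : Stmt_EETAU) (hLOCIT : Stmt_LOCIT) (hGAMT : Stmt_GAMT) (hULBT : Stmt_ULBT)
    (hUUBT : Stmt_UUBT) (hLOCT : Stmt_LOCT) (hUSAMT : Stmt_USAMT) (hJUUT : Stmt_JUUT)
    (hNDST : Stmt_NDST) (hCCO : Stmt_CCO) (hPT : Stmt_PT) (_hSETWT : Stmt_SETWT)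
    (hABST : Stmt_ABST) (hCONN : Stmt_CONN) (hELL : Stmt_ELL) (hBETA : Stmt_BETA) :
    Stmt_EXTT := by
  intro P T g k hTP h0T hE hsur hps hUn
  obtain ⟨β, hβ⟩ := hBETA
  obtain ⟨C₁, Nc, hC₁, hNc1, hsepc, hcap⟩ := hCAPT P T g k hTP hE hsur hps
  obtain ⟨F, hFT, hF, hFrho, hFrad⟩ := frame hTP h0T hNc1 hsepc
  subst hFT
  have hNc0 : 0 < Nc := by linarith
  have hrho := hF.rho_pos
  have hdist : ∀ p ∈ P, ∀ q ∈ P, p ≠ q → 4 * F.rho < ‖p - q‖ := fun p hp q hq hpq => by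
    rw [hFrho]; exact hsepc p hp q hq hpq
  have hFF : FrameFor P F := by
    refine ⟨hF, hTP, fun q hq hqT => ⟨fun p hp => ?_, ?_⟩⟩
    · have := hdist q hq p (hTP hp) (fun h => hqT (h ▸ hp))
      linarith
    · have := hFrad q hq
      linarith
  obtain ⟨Cb, Nm, hCb, hNm1, hmodt⟩ := hMODT P F g k hFF hE hsur hps
  obtain ⟨ρ, r, hρ0, hρρ, hrr, hLI⟩ := hLOCIT F Cb hF hCb
  have hr1 : 1 ≤ r := hF.rad_ge.trans hrr.le
  have hPr : ∀ p ∈ P, ‖p‖ + ρ < r := fun p hp => by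
    have h1 := hFrad p hp
    have h2 := hF.rho_le
    linarith
  have hPρ : ∀ p ∈ F.T, ∀ q ∈ P, p ≠ q → 2 * ρ < ‖p - q‖ := fun p hp q hq hpq => by
    have := hdist p (hTP hp) q hq hpq
    linarith
  obtain ⟨ε₁, δ₀, b, hε₁, hε₁4, hδ₀, hb, hconn⟩ := hCONN P F.T g ρ r hTP ⟨0, h0T⟩ hE.metric
    (hELL P g k hE) hρ0 hr1 hPr hPρ hUn
  refine ⟨F, ρ, r, ε₁, rfl, hρ0, hr1, hε₁, hε₁4, hPρ, hPr, ?_⟩
  intro ε τ δ hε hεε hτ hδ
  have hε2 : ε ≤ 1 / 2 := by linarith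
  obtain ⟨RU, hRU⟩ := hLI ε hε hε2
  -- the lower bound
  obtain ⟨c₀, N₁, R₁, r₂, hc₀, hN₁, hR₁, hulb⟩ := hULBT P F g k ε Cb hTP hF hE
    (fun p hp hpT q hq => by
      have := hdist p hp q (hTP hq) (fun h => hpT (h ▸ hq))
      linarith) (fun p hp => by linarith [hFrad p hp]) hε hε2 hCb
  obtain ⟨γ, hγ, hgam⟩ := hGAMT F ε Cb c₀ hF hε hε2 hCb hc₀
  obtain ⟨J, hJ, hjuu⟩ := hJUUT ε γ β hε hε2 hγ hβ
  obtain ⟨s, hs⟩ : ∃ s : ℝ, s = -ε * Real.log c₀ := ⟨_, rfl⟩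
  obtain ⟨C₃, hC₃⟩ : ∃ C₃ : ℝ, C₃ = C₁ * ((P \ F.T).card : ℝ) + C₁ := ⟨_, rfl⟩
  have hC₃1 : C₁ ≤ C₃ := by
    rw [hC₃]
    have : 0 ≤ C₁ * ((P \ F.T).card : ℝ) := by positivity
    linarith
  have hC₃0 : 0 < C₃ := lt_of_lt_of_le hC₁ hC₃1
  obtain ⟨N, hN, hN1, hcost⟩ := hCCO ε C₃ s J (min τ (1 / 2))
    (max (max Nc Nm) (max N₁ (max (1 / δ) (1 / δ₀)))) hε hε2
    hC₃0 hJ.le (lt_min hτ (by norm_num))
  have hNNc : Nc ≤ N := (le_max_left _ _).trans ((le_max_left _ _).trans hN)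
  have hNNm : Nm ≤ N := (le_max_right _ _).trans ((le_max_left _ _).trans hN)
  have hNN₁ : N₁ ≤ N := (le_max_left _ _).trans ((le_max_right _ _).trans hN)
  have hNδ : 1 / δ ≤ N :=
    (le_max_left _ _).trans ((le_max_right _ _).trans ((le_max_right _ _).trans hN))
  have hNδ₀ : 1 / δ₀ ≤ N :=
    (le_max_right _ _).trans ((le_max_right _ _).trans ((le_max_right _ _).trans hN))
  have hN0 : 0 < N := by linarith
  have hNδ' : 1 / (8 * N) ≤ δ / 2 := by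
    rw [div_le_iff₀ hδ] at hNδ
    rw [div_le_iff₀ (by positivity)]
    linarith
  have hNδ₀' : 1 / (16 * N) < δ₀ := by
    rw [div_le_iff₀ hδ₀] at hNδ₀
    rw [div_lt_iff₀ (by positivity)]
    linarith
  have hsep : ∀ p ∈ P, ∀ q ∈ P, p ≠ q → 1 / N < ‖p - q‖ := fun p hp q hq hpq =>
    (one_div_le_one_div_of_le hNc0 hNNc).trans_lt (hsepc p hp q hq hpq)
  have hNrho : 1 / (4 * N) ≤ F.rho := by
    have h1 : 1 / (4 * N) ≤ 1 / (4 * Nc) := one_div_le_one_div_of_le (by positivity) (by linarith)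
    have h2 : 4 * (1 / (4 * Nc)) = 1 / Nc := by field_simp
    linarith
  -- the capped data
  obtain ⟨g₁, k₁, e₁, hCN⟩ := hcap N hNNc
  obtain ⟨C, lm, hCp, hlm, hdec, hell, hmod⟩ := hmodt C₁ N g₁ k₁ e₁ hNNm hCN
  have hsam := hUSAMT P F.T g k C₁ N g₁ k₁ e₁ hTP hE hCN hN1
  obtain ⟨c₁, R₂, r₃, hc₁, hR₂, huub⟩ := hUUBT F g₁ k₁ ε Cb hF hCN.two hε hε2 hCb
  obtain ⟨c, CL, κ, lL, hc0, hc1, hCL, hκ0, hκ1, hlL, hloc⟩ := hLOCT F ε Cb c₁ γ hF hε hε2 hCb
    hc₁ hγ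
  obtain ⟨B, l₁, hB, hl₁, habs⟩ := hABST F ⟨ε, C, c, CL, γ, κ⟩
  obtain ⟨l₀, hl₀⟩ : ∃ l₀ : ℝ, 4 ≤ l₀ ∧ lm ≤ l₀ ∧ lL ≤ l₀ ∧ l₁ ≤ l₀ ∧ 8 / F.rho ≤ l₀ ∧
      8 * F.rad ≤ l₀ ∧ 2 * r₂ + 1 ≤ l₀ ∧ 2 * r₃ + 1 ≤ l₀ ∧ Real.exp s ≤ l₀ ∧ b + 1 ≤ l₀ ∧
      2 / δ₀ ≤ l₀ := by
    have hev : ∀ a : ℝ, ∀ᶠ l : ℝ in atTop, a ≤ l := fun a => eventually_ge_atTop a
    exact ((hev 4).and ((hev lm).and ((hev lL).and ((hev l₁).and ((hev (8 / F.rho)).and
      ((hev (8 * F.rad)).and ((hev (2 * r₂ + 1)).and ((hev (2 * r₃ + 1)).and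
      ((hev (Real.exp s)).and ((hev (b + 1)).and (hev (2 / δ₀)))))))))))).exists
  obtain ⟨hl04, hl0m, hl0L, hl01, hl0ρ, hl0r, hl0r2, hl0r3, hl0s, hl0b, hl0δ⟩ := hl₀
  refine ⟨⟨ε, C, c, CL, γ, κ⟩, B, l₀, g₁, k₁, rfl, hB, hl04, ?_, ?_⟩
  · intro x hx
    refine ⟨hCN.same x fun p hp hp0 => ?_, hCN.sameK x fun p hp hp0 => ?_⟩
    · refine lt_of_le_of_lt ?_ (hx p hp hp0)
      exact (one_div_le_one_div_of_le (by positivity) (by linarith)).trans hNδ'
    · exact lt_of_le_of_lt hNδ' (hx p hp hp0)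
  intro l τ' L hl hτ' hL
  have hl4 : 4 ≤ l := hl04.trans hl
  have hl0 : 0 < l := by linarith
  have hlρ : 8 / F.rho ≤ l := hl0ρ.trans hl
  have hlρ' : 8 ≤ l * F.rho := by rwa [div_le_iff₀ hrho] at hlρ
  have hlr : 8 * F.rad ≤ l := hl0r.trans hl
  have hrad1 := hF.rad_ge
  obtain ⟨RL, hRL16, hRL⟩ := hloc l (hl0L.trans hl)
  obtain ⟨RG, hRG16, hRG⟩ := hgam l (by linarith)
  obtain ⟨B', hB', hnds⟩ := hNDST F ⟨ε, C, c, CL, γ, κ⟩ B β g₁ l hβ
  -- the small number for the second part of the defect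
  obtain ⟨t, ht⟩ : ∃ t, t = min τ' (1 / 2) := ⟨_, rfl⟩
  have ht0 : 0 < t := by rw [ht]; exact lt_min hτ' (by norm_num)
  have htτ : t ≤ τ' := by rw [ht]; exact min_le_left _ _
  have ht1 : t ≤ 1 / 2 := by rw [ht]; exact min_le_right _ _
  have hq1 : 1 ≤ (1 + ε) / ε := by
    rw [le_div_iff₀ hε]
    linarith
  have hτ'0 : 0 < (t / B') ^ ((1 + ε) / ε) := Real.rpow_pos_of_pos (div_pos ht0 hB') _
  obtain ⟨η, hη, hηI⟩ := eta_small hEETAU hCN.two.metric hCN.two.tensor (a := κ / l) (l := l)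
    (div_pos hκ0 hl0) hq1 hτ'0
  -- the choice of `R`
  have hsM := EXI1aux.sME_tendsto (ε := ε) (γ := γ) (by linarith)
  have hlam := EXI1aux.lam_pos hε hε2
  have e8 := (EXI1aux.err_tendsto hsM hlam (s2E ε γ l / (2 - ε)) (s2E ε γ l)).eventually_le_const
    ht0
  have e6 := hsM.eventually_gt_atTop (s2E ε γ l + L + 1)
  have e7 := hsM.eventually_ge_atTop (s2E ε γ l + 1 + 2 * γ + 2)
  obtain ⟨R, h1, h2, h3, h4, h5, h6, h7, h8, h9, h10, h11⟩ := ((eventually_ge_atTop RL).and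
    ((eventually_ge_atTop RU).and ((eventually_ge_atTop (kE ε γ ^ 4 * l)).and
    ((eventually_ge_atTop (2 * l / κ)).and ((eventually_gt_atTop (2 / ρ)).and
    (e6.and (e7.and (e8.and ((eventually_ge_atTop RG).and ((eventually_ge_atTop R₁).and
      (eventually_ge_atTop R₂))))))))))).exists
  have hR16 : 16 * l ≤ R := hRL16.trans h1
  have hR0 : 0 < R := by linarith
  have hR4 : 4 * l ≤ R := by linarith
  obtain ⟨hbar, hM⟩ := hmod l R η (hl0m.trans hl) hR4 hη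
  have hη0 : 0 < R ^ (-pe ε - 1) := Real.rpow_pos_of_pos hR0 _
  have hRρ : 128 ≤ R * F.rho := by
    have : 16 * l * F.rho ≤ R * F.rho := mul_le_mul_of_nonneg_right hR16 hrho.le
    linarith
  have hRrho : 128 * (1 / R) ≤ F.rho := by
    rw [mul_one_div, div_le_iff₀ hR0]
    linarith
  have h1R : 0 < 1 / R := by positivity
  have hPts : Pts F.T (1 / R) R :=
    { ne := ⟨0, h0T⟩
      pos := h1R
      inside := fun p hp => by
        have h1 := hF.inside p hp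
        linarith
      disj := fun p hp q hq hpq => by
        have h1 := hF.disj p hp q hq hpq
        linarith }
  obtain ⟨u₀, u, G₀, G, M₀, M, hS₀, hS, huu⟩ := hPT ε (1 / R) R (R ^ (-pe ε - 1)) F.T
    (modGT F.T l R g₁) (modHT F.T η l R g₁ k₁) hε (by linarith) hPts hη0 hM.metric hM.tensor
    hM.twoNonneg (by
      intro x hx
      exact ⟨hM.flat x (by linarith), hM.supp x (by linarith)⟩)
  obtain ⟨hsa, hsa0, -, -⟩ := hsam l R η r₂ (by linarith) hR4 hη (by linarith)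
  obtain ⟨-, -, hsb, hsb0⟩ := hsam l R η r₃ (by linarith) hR4 hη (by linarith)
  -- the location of the levels of a solution
  have key : ∀ (h' : TensorField) (v : E3 → ℝ) (G' : E3 → Cov) (M' : E3 → Bil),
      Barrier F Cb R (modGT F.T l R g₁) h' →
      SameOnT P F.T g k R N r₂ (modGT F.T l R g₁) h' →
      SameOnT F.T F.T g₁ k₁ R 1 r₃ (modGT F.T l R g₁) h' →
      SolutionT F.T ε (1 / R) R (R ^ (-pe ε - 1)) (modGT F.T l R g₁) h' v G' M' →
      LocatedT F.T ε c CL γ κ l R v ∧ (∀ x ∈ AnnT F.T (1 / R) R,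
        (∀ p ∈ F.T, ‖x - p‖ ≤ ρ → wOf ε v x < ε) ∧ (r ≤ ‖x‖ → 1 < wOf ε v x)) ∧
      ∀ x : E3, ‖x‖ ≤ F.rad → c₀ ≤ v x := by
    intro h' v G' M' hB1 hB2 hB3 hB4
    have k1 := hulb N R hNN₁ h10 _ _ _ v G' M' hη0 le_rfl hM.metric hB2 hB1 hB4
    obtain ⟨g1, g2, g3, g4⟩ := hRG R h9 _ _ _ v G' M' hη0 le_rfl hM.metric hB1 hB4 k1
    have k2 := huub R h11 _ _ _ v G' M' hη0 le_rfl hM.metric hB3 hB1 hB4
    exact ⟨hRL R h1 _ _ _ v G' M' hη0 le_rfl hM.metric hB1 hB4 k2 g1 g2 g3 g4,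
      hRU R h2 _ _ _ v G' M' hη0 le_rfl hM.metric hB1 hB4 g1, k1⟩
  obtain ⟨hL', hfin, hlow⟩ := key _ u G M hbar hsa hsb hS
  obtain ⟨hL₀, hfin₀, -⟩ := key _ u₀ G₀ M₀ (barrier_zero hbar) hsa0 hsb0 hS₀
  -- the ends are connected by the sublevel set
  have hR16' : 1 / (16 * R) < 1 / l := one_div_lt_one_div_of_lt hl0 (by linarith)
  have hlδ : 1 / l < δ₀ := by
    have h1 : 2 / δ₀ ≤ l := hl0δ.trans hl
    rw [div_le_iff₀ hδ₀] at h1
    rw [div_lt_iff₀ hl0]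
    linarith
  have hNum : NumT ε c CL γ κ l R :=
    { eps_pos := hε
      eps_le := hε2
      c_pos := hc0
      c_le := hc1
      C2_pos := hCL
      gam_pos := hγ
      kap_pos := hκ0
      kap_le := hκ1
      l_ge := hl4
      R_ge := h3
      R_ge' := h4 }
  have hcon0 := hconn ε c CL γ κ l R (R ^ (-pe ε - 1)) (modGT F.T l R g₁) u₀ G₀ M₀ hεε hNum hPts
    hlδ (by linarith) hM.metric (by
      intro x hxb hxδ
      have e1 : modGT F.T l R g₁ x = g₁ x :=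
        hM.same x (fun p hp => (hR16'.trans hlδ).trans_le (hxδ p (hTP hp))) (by linarith)
      rw [e1]
      exact hCN.same x fun p hp _ => hNδ₀'.trans_le (hxδ p hp)) hS₀ hL₀ hfin₀
  have hcon : TConn F.T (1 / R) R (2 * ε) (wOf ε u) :=
    tconn_mono (fun x hx => w_mono hε (hL₀.pos x hx.1) (huu x)) hcon0
  obtain ⟨e, he⟩ : ∃ e : E3 → ℝ, e = fun x => e₁ x + chiN F.T (R / 2) x * eEta η g₁ k₁ x :=
    ⟨_, rfl⟩
  rw [← he] at hM
  have hSet : SetupT F ⟨ε, C, c, CL, γ, κ⟩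
      ⟨l, R, R ^ (-pe ε - 1), g₁, k₁, modGT F.T l R g₁, modHT F.T η l R g₁ k₁, e, u, G, M⟩ :=
    { frame := hF
      eps_pos := hε
      eps_le := hε2
      C_pos := hCp
      c_pos := hc0
      c_le := hc1
      C2_pos := hCL
      gam_pos := hγ
      kap_pos := hκ0
      kap_le := hκ1
      l_ge := hl4
      l_rho := hlρ
      l_rad := hlr
      R_ge := h3
      R_ge' := h4
      metric0 := hCN.two.metric
      tensor0 := hCN.two.tensor
      hdecay := hdec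
      ell2 := hell
      modified := hM
      sol := hS
      located := hL'
      conn := hcon }
  have hA : AbsOfT F ⟨ε, C, c, CL, γ, κ⟩
      ⟨l, R, R ^ (-pe ε - 1), g₁, k₁, modGT F.T l R g₁, modHT F.T η l R g₁ k₁, e, u, G, M⟩ B :=
    habs _ hSet (hl01.trans hl)
  -- the caps
  have hTmem : ∀ x ∈ caps P F.T N, (∀ p ∈ F.T, F.rho < ‖x - p‖) ∧ ‖x‖ < F.rad := by
    intro x hx
    obtain ⟨q, hq, hq0, hxq⟩ := mem_caps.1 hx
    constructor
    · intro p hp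
      have a1 := hdist q hq p (hTP hp) (fun h => hq0 (h ▸ hp))
      have a2 : ‖q - p‖ ≤ ‖x - p‖ + ‖x - q‖ := by
        have h := norm_sub_le (x - p) (x - q)
        rwa [sub_sub_sub_cancel_left] at h
      linarith
    · have b1 : ‖x‖ ≤ ‖x - q‖ + ‖q‖ := by
        have := norm_add_le (x - q) q
        rwa [sub_add_cancel] at this
      have b2 := hFrad q hq
      have b3 := hF.rho_le
      linarith
  have hρR : 1 / R < F.rho := by linarith
  have hTann : ∀ x ∈ caps P F.T N, x ∈ AnnT F.T (1 / R) R := fun x hx =>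
    ⟨(hTmem x hx).2.trans_le (by linarith), fun p hp => hρR.trans ((hTmem x hx).1 p hp)⟩
  have hE0 : C₁ / N ^ 2 ≤ C₃ / N ^ 2 := div_le_div_of_nonneg_right hC₃1 (by positivity)
  have hvol : ∫ x in caps P F.T N, volDen (modGT F.T l R g₁) x ≤ C₃ * N ^ 3 := by
    refine (caps_volume hN0 hsep (EXTAux.cont_vol hM.metric) (V := C₁ * N ^ 3) ?_).trans ?_
    · intro p hp hp0
      have : ∫ x in Metric.closedBall p (1 / (4 * N)), volDen (modGT F.T l R g₁) x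
          = ∫ x in Metric.closedBall p (1 / (4 * N)), volDen g₁ x := by
        refine setIntegral_congr_fun Metric.isClosed_closedBall.measurableSet fun x hx => ?_
        have hx' : x ∈ caps P F.T N := mem_caps.2 ⟨p, hp, hp0, by rw [← dist_eq_norm]; exact hx⟩
        obtain ⟨a1, a2⟩ := hTmem x hx'
        have : modGT F.T l R g₁ x = g₁ x := by
          refine hM.same x (fun q hq => ?_) (by linarith)
          refine lt_trans ?_ (hρR.trans (a1 q hq))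
          exact one_div_lt_one_div_of_lt hR0 (by linarith)
        simp only [volDen, this]
      rw [this]
      exact hCN.volume p hp hp0
    · rw [hC₃]
      exact EXTAux.ar2 hC₁.le (by positivity)
  have hs2 : s ≤ s2E ε γ l := by
    unfold s2E
    have h1 : s ≤ Real.log l := by
      rw [Real.le_log_iff_exp_le hl0]
      exact hl0s.trans hl
    have h2 : Real.log l ≤ Real.log (4 * l) := Real.log_le_log hl0 (by linarith)
    have h3 : 0 ≤ Real.log (4 * l) := Real.log_nonneg (by linarith)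
    exact EXTAux.ar3 hε2 (h1.trans h2) h3 hγ
  have hsb' : 0 < sbE ε c l := by
    unfold sbE
    have := Real.rpow_pos_of_pos (show 0 < 4 * l by positivity) (-pe ε)
    positivity
  have h4l : 1 / (4 * l) ≤ F.rho := by
    rw [div_le_iff₀ (by positivity)]
    linarith
  have hNd := (hnds _ hSet hA rfl rfl).2.2 (caps P F.T N) e₁
    (fun x => chiN F.T (R / 2) x * eEta η g₁ k₁ x)
    (C₃ / N ^ 2) (C₃ * N ^ 3) s J (fun x => by rw [he]) hCN.defect_cont (by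
      have h1 : (fun x => chiN F.T (R / 2) x * eEta η g₁ k₁ x) = fun x => e x - e₁ x := by
        funext x; rw [he]; ring
      rw [h1]
      exact hM.defect_cont.sub hCN.defect_cont)
    (fun x => ⟨hCN.defect_nonneg x, mul_nonneg (chiN_nonneg _ _ x)
      (EXTAux.eEta_nonneg η g₁ k₁ x), (hCN.defect_le x).trans hE0⟩)
    (fun x hx => hCN.defect_supp x fun p hp hp0 => by
      by_contra hcon
      push Not at hcon
      exact hx (mem_caps.2 ⟨p, hp, hp0, hcon.le⟩))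
    (caps_compact P F.T N) hTann (fun x hx => by
      have hu := hlow x (hTmem x hx).2.le
      constructor
      · by_contra hcon
        push Not at hcon
        have h1 : wOf ε u x ≤ sbE ε c l := by
          have : wOf ε u x < sbE ε c l / 2 := hcon
          linarith
        obtain ⟨p, hp, h2⟩ := hL'.low x (hTann x hx) h1
        linarith [(hTmem x hx).1 p hp]
      · show -ε * Real.log (u x) ≤ s
        rw [hs]
        exact EXTAux.ar5 hε (Real.log_le_log hc₀ hu))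
    hs2 hJ.le (by positivity) hvol (hjuu F _ _ B rfl rfl hSet hA).2
  have hR8 : 1 ≤ 8 * R * (κ / l) := by
    rw [div_le_iff₀ hκ0] at h4
    rw [mul_div_assoc', le_div_iff₀ hl0]
    linarith
  have hNt : ndT F ⟨ε, C, c, CL, γ, κ⟩
      ⟨l, R, R ^ (-pe ε - 1), g₁, k₁, modGT F.T l R g₁, modHT F.T η l R g₁ k₁, e, u, G, M⟩
      ≤ min τ (1 / 2) + t := by
    refine hNd.trans (add_le_add hcost ?_)
    have hi0 : 0 ≤ ∫ x in cAnnT F.T (κ / l) l,
        (chiN F.T (R / 2) x * eEta η g₁ k₁ x) ^ ((1 + ε) / ε) :=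
      integral_nonneg fun x => Real.rpow_nonneg (mul_nonneg (chiN_nonneg _ _ x)
        (EXTAux.eEta_nonneg η g₁ k₁ x)) _
    have h9 : (∫ x in cAnnT F.T (κ / l) l, (chiN F.T (R / 2) x * eEta η g₁ k₁ x) ^ ((1 + ε) / ε))
        ^ (ε / (1 + ε)) ≤ ((t / B') ^ ((1 + ε) / ε)) ^ (ε / (1 + ε)) :=
      Real.rpow_le_rpow hi0 (hηI R hR8) (by positivity)
    have h10 : ((t / B') ^ ((1 + ε) / ε)) ^ (ε / (1 + ε)) = t / B' := by
      rw [← Real.rpow_mul (by positivity)]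
      have : (1 + ε) / ε * (ε / (1 + ε)) = 1 := by
        have : 1 + ε ≠ 0 := by positivity
        field_simp
      rw [this, Real.rpow_one]
    rw [h10] at h9
    calc B' * (∫ x in cAnnT F.T (κ / l) l,
          (chiN F.T (R / 2) x * eEta η g₁ k₁ x) ^ ((1 + ε) / ε)) ^ (ε / (1 + ε))
        ≤ B' * (t / B') := mul_le_mul_of_nonneg_left h9 hB'.le
      _ = t := by field_simp
  have her : Dat.er ⟨l, R, R ^ (-pe ε - 1), g₁, k₁, modGT F.T l R g₁,
      modHT F.T η l R g₁ k₁, e, u, G, M⟩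
      ⟨ε, C, c, CL, γ, κ⟩ (sME ε γ R - 2) ≤ t := h8
  have hm1 : min τ (1 / 2) ≤ τ := min_le_left _ _
  have hm2 : min τ (1 / 2 : ℝ) ≤ 1 / 2 := min_le_right _ _
  refine ⟨⟨l, R, R ^ (-pe ε - 1), g₁, k₁, modGT F.T l R g₁, modHT F.T η l R g₁ k₁, e, u, G, M⟩,
    sME ε γ R - 2, rfl, rfl, rfl, hSet, hA, ⟨?_, ?_, her.trans (by linarith),
    hNt.trans (by linarith)⟩, hNt.trans (by linarith), her.trans htτ, h6, ?_, hfin⟩
  · show s2E ε γ l + 1 + 2 * γ ≤ sME ε γ R - 2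
    linarith
  · show sME ε γ R - 2 + 1 < sME ε γ R
    linarith
  · show 1 / R < ρ / 2
    rw [div_lt_iff₀ hR0]
    rw [div_lt_iff₀ hρ0] at h5
    linarith

end Pool.Agent.PFU
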