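import Pool.Agent.PFU.StmtsM

/-!
# FAT: the filled functions are Lipschitz and truncated (several inner balls)
-/

open MeasureTheory Filter Topology
open scoped ContDiff ENNReal

namespace Pool.Agent.PFU

open Pool.Agent.PenroseSph Pool.Agent.PFlow Pool.Agent.PFT

namespace MFAT

open Pool.Agent.PFlow.MFA (outside_preconnected conn_segment lip_segment setA_le)

section A

variable {T : Finset E3} {a' b' s₀ s₁ : ℝ} {W : E3 → ℝ} {C : NNReal} {z₁ : E3}

theorem b'_pos (hT : TruncT T a' b' s₀ s₁ W) : 0 < b' := by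
  obtain ⟨p, hp⟩ := hT.ne
  have := hT.inside p hp
  have := norm_nonneg p
  have := hT.pos
  linarith

theorem setA_s0 (hT : TruncT T a' b' s₀ s₁ W) (y : E3) :
    s₀ ∈ {c : ℝ | s₀ ≤ c ∧ Conn {z | c ≤ W z} y z₁} :=
  ⟨le_rfl, Set.univ, fun z _ => hT.lower z, isPreconnected_univ, Set.mem_univ _, Set.mem_univ _⟩

theorem setA_bdd (y : E3) : BddAbove {c : ℝ | s₀ ≤ c ∧ Conn {z | c ≤ W z} y z₁} :=
  ⟨W y, fun _ hc => setA_le hc.2⟩

theorem fillA_le (hT : TruncT T a' b' s₀ s₁ W) (y : E3) : fillA W s₀ z₁ y ≤ W y :=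
  csSup_le ⟨s₀, setA_s0 hT y⟩ fun _ hc => setA_le hc.2

theorem le_fillA {c : ℝ} {y : E3} (h : s₀ ≤ c ∧ Conn {z | c ≤ W z} y z₁) :
    c ≤ fillA W s₀ z₁ y := le_csSup (setA_bdd y) h

theorem s0_le_fillA (hT : TruncT T a' b' s₀ s₁ W) (y : E3) : s₀ ≤ fillA W s₀ z₁ y :=
  le_fillA (setA_s0 hT y)

theorem fillA_lip1 (hT : TruncT T a' b' s₀ s₁ W) (hL : LipschitzWith C W) (y y' : E3) :
    fillA W s₀ z₁ y - C * ‖y' - y‖ ≤ fillA W s₀ z₁ y' := by
  rw [sub_le_iff_le_add]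
  refine csSup_le ⟨s₀, setA_s0 hT y⟩ ?_
  rintro c ⟨hc, hconn⟩
  have h0 : 0 ≤ C * ‖y' - y‖ := mul_nonneg C.2 (norm_nonneg _)
  have h1 : max s₀ (c - C * ‖y' - y‖) ≤ fillA W s₀ z₁ y' := by
    refine le_fillA ⟨le_max_left _ _, conn_segment hconn ?_ ?_⟩
    · intro z hz
      have hz' : c ≤ W z := hz
      exact max_le (hc.trans hz') (by linarith)
    · intro z hz
      have h2 := lip_segment hL hz
      have h3 := setA_le hconn
      have h4 := (abs_le.1 h2).1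
      exact max_le (hT.lower z) (by linarith)
  have h2 := (le_max_right s₀ (c - C * ‖y' - y‖)).trans h1
  linarith

theorem fillA_lip (hT : TruncT T a' b' s₀ s₁ W) (hL : LipschitzWith C W) :
    LipschitzWith C (fillA W s₀ z₁) := by
  refine LipschitzWith.of_dist_le_mul fun y y' => ?_
  rw [Real.dist_eq, dist_eq_norm, abs_le]
  have h1 := fillA_lip1 (z₁ := z₁) hT hL y y'
  have h2 := fillA_lip1 (z₁ := z₁) hT hL y' y
  have h3 : ‖y' - y‖ = ‖y - y'‖ := norm_sub_rev _ _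
  rw [h3] at h1
  constructor <;> linarith

theorem fillA_trunc (hT : TruncT T a' b' s₀ s₁ W) (hL : LipschitzWith C W) (hz : b' ≤ ‖z₁‖) :
    TruncT T a' b' s₀ s₁ (fillA W s₀ z₁) where
  ne := hT.ne
  pos := hT.pos
  inside := hT.inside
  disj := hT.disj
  lts := hT.lts
  cont := (fillA_lip hT hL).continuous
  lower := s0_le_fillA hT
  upper := fun x => (fillA_le hT x).trans (hT.upper x)
  inner := fun p hp x hx =>
    le_antisymm ((fillA_le hT x).trans (hT.inner p hp x hx).le) (s0_le_fillA hT x)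
  outer := fun x hx => by
    refine le_antisymm ((fillA_le hT x).trans (hT.upper x)) (le_fillA ⟨hT.lts.le, ?_⟩)
    exact ⟨{x | b' ≤ ‖x‖}, fun z hz => (hT.outer z hz).ge,
      outside_preconnected (b'_pos hT), hx, hz⟩

end A

section B

variable {T : Finset E3} {a' b' s₀ s₁ : ℝ} {W : E3 → ℝ} {C : NNReal}

theorem setB_s1 (hT : TruncT T a' b' s₀ s₁ W) (y : E3) :
    s₁ ∈ {c : ℝ | c ≤ s₁ ∧ ∃ z ∈ T, Conn {x | W x ≤ c} y z} := by
  obtain ⟨p, hp⟩ := hT.ne
  exact ⟨le_rfl, p, hp, Set.univ, fun z _ => hT.upper z, isPreconnected_univ, Set.mem_univ _,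
    Set.mem_univ _⟩

theorem setB_ge {c : ℝ} {y : E3} (h : ∃ z ∈ T, Conn {x | W x ≤ c} y z) : W y ≤ c := by
  obtain ⟨z, _, S, hS, _, hy, _⟩ := h
  exact hS hy

theorem setB_bdd (y : E3) : BddBelow {c : ℝ | c ≤ s₁ ∧ ∃ z ∈ T, Conn {x | W x ≤ c} y z} :=
  ⟨W y, fun _ hc => setB_ge hc.2⟩

theorem le_fillBT (hT : TruncT T a' b' s₀ s₁ W) (y : E3) : W y ≤ fillBT W s₁ T y :=
  le_csInf ⟨s₁, setB_s1 hT y⟩ fun _ hc => setB_ge hc.2

theorem fillBT_le {c : ℝ} {y : E3} (h : c ≤ s₁ ∧ ∃ z ∈ T, Conn {x | W x ≤ c} y z) :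
    fillBT W s₁ T y ≤ c := csInf_le (setB_bdd y) h

theorem fillBT_le_s1 (hT : TruncT T a' b' s₀ s₁ W) (y : E3) : fillBT W s₁ T y ≤ s₁ :=
  fillBT_le (setB_s1 hT y)

theorem fillBT_lip1 (hT : TruncT T a' b' s₀ s₁ W) (hL : LipschitzWith C W) (y y' : E3) :
    fillBT W s₁ T y' ≤ fillBT W s₁ T y + C * ‖y' - y‖ := by
  rw [← sub_le_iff_le_add]
  refine le_csInf ⟨s₁, setB_s1 hT y⟩ ?_
  rintro c ⟨hc, p, hp, hconn⟩
  have h0 : 0 ≤ C * ‖y' - y‖ := mul_nonneg C.2 (norm_nonneg _)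
  have h1 : fillBT W s₁ T y' ≤ min s₁ (c + C * ‖y' - y‖) := by
    refine fillBT_le ⟨min_le_left _ _, p, hp, conn_segment hconn ?_ ?_⟩
    · intro z hz
      have hz' : W z ≤ c := hz
      exact le_min (hz'.trans hc) (by linarith)
    · intro z hz
      have h2 := lip_segment hL hz
      have h3 : W y ≤ c := setB_ge ⟨p, hp, hconn⟩
      have h4 := (abs_le.1 h2).2
      exact le_min (hT.upper z) (by linarith)
  have h2 := h1.trans (min_le_right s₁ (c + C * ‖y' - y‖))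
  linarith

theorem fillBT_lip (hT : TruncT T a' b' s₀ s₁ W) (hL : LipschitzWith C W) :
    LipschitzWith C (fillBT W s₁ T) := by
  refine LipschitzWith.of_dist_le_mul fun y y' => ?_
  rw [Real.dist_eq, dist_eq_norm, abs_le]
  have h1 := fillBT_lip1 hT hL y y'
  have h2 := fillBT_lip1 hT hL y' y
  have h3 : ‖y' - y‖ = ‖y - y'‖ := norm_sub_rev _ _
  rw [h3] at h1
  constructor <;> linarith

theorem fillBT_trunc (hT : TruncT T a' b' s₀ s₁ W) (hL : LipschitzWith C W) :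
    TruncT T a' b' s₀ s₁ (fillBT W s₁ T) where
  ne := hT.ne
  pos := hT.pos
  inside := hT.inside
  disj := hT.disj
  lts := hT.lts
  cont := (fillBT_lip hT hL).continuous
  lower := fun x => (hT.lower x).trans (le_fillBT hT x)
  upper := fillBT_le_s1 hT
  inner := fun p hp x hx => by
    refine le_antisymm (fillBT_le ⟨hT.lts.le, p, hp, ?_⟩)
      ((hT.lower x).trans (le_fillBT hT x))
    refine ⟨Metric.closedBall p a', fun z hz => ?_, (convex_closedBall p a').isPreconnected,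
      mem_closedBall_iff_norm.2 hx, Metric.mem_closedBall_self hT.pos.le⟩
    exact (hT.inner p hp z (mem_closedBall_iff_norm.1 hz)).le
  outer := fun x hx =>
    le_antisymm (fillBT_le_s1 hT x) ((hT.outer x hx).ge.trans (le_fillBT hT x))

end B

end MFAT

/-- FAT. -/
theorem t_FAT : Stmt_FAT := by
  intro T a' b' s₀ s₁ W C z₁ hT hL hz
  have h1 := MFAT.fillA_lip (z₁ := z₁) hT hL
  have h2 := MFAT.fillA_trunc hT hL hz
  exact ⟨h1, MFAT.fillBT_lip h2 h1, MFAT.fillA_le hT, MFAT.le_fillBT h2, h2,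
    MFAT.fillBT_trunc h2 h1⟩

end Pool.Agent.PFU
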