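import Pool.Agent.PFU.StmtsM

/-!
# The filled functions are locally constant where something was filled (several inner balls)

Adapted from `Pool.Agent.PFlow.M_FB`.
-/

open MeasureTheory Filter Topology

namespace Pool.Agent.PFU

open Pool.Agent.PenroseSph Pool.Agent.PFlow

namespace MFBT

/-- Comparison of the values of `fillBT` at two points of a preconnected set. -/
theorem fillBT_le {V : E3 → ℝ} {s₁ m : ℝ} {T : Finset E3} {M : ℝ} (hTne : T.Nonempty)
    (hM : ∀ z ∈ T, M ≤ V z) (hup : ∀ x, V x ≤ s₁) {B : Set E3}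
    (hB : IsPreconnected B) (hm : ∀ z ∈ B, V z ≤ m) {x y : E3} (hx : x ∈ B) (hy : y ∈ B)
    (hxm : m ≤ fillBT V s₁ T x) : fillBT V s₁ T y ≤ fillBT V s₁ T x := by
  have hbdd : ∀ u : E3, BddBelow {c : ℝ | c ≤ s₁ ∧ ∃ z ∈ T, Conn {x | V x ≤ c} u z} := by
    intro u
    refine ⟨M, ?_⟩
    rintro c ⟨-, z, hzT, S, hS, -, -, hz⟩
    exact (hM z hzT).trans (hS hz)
  have hne : {c : ℝ | c ≤ s₁ ∧ ∃ z ∈ T, Conn {x | V x ≤ c} x z}.Nonempty := by
    obtain ⟨z, hz⟩ := hTne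
    exact ⟨s₁, le_rfl, z, hz, Set.univ, fun z _ => hup z, isPreconnected_univ, Set.mem_univ _,
      Set.mem_univ _⟩
  refine le_csInf hne ?_
  rintro c ⟨hc0, p, hp, hc⟩
  have hcx : fillBT V s₁ T x ≤ c := csInf_le (hbdd x) ⟨hc0, p, hp, hc⟩
  refine csInf_le (hbdd y) ⟨hc0, p, hp, MFB.conn_move hB hx hy ?_ hc⟩
  intro z hz
  exact (hm z hz).trans (hxm.trans hcx)

end MFBT

theorem t_FBT (hFAT : Stmt_FAT) : Stmt_FBT := by
  intro T a' b' s₀ s₁ W C z₁ hT hC hz
  obtain ⟨hL1, hL2, hAW, hAF, hT1, hT2⟩ := hFAT T a' b' s₀ s₁ W C z₁ hT hC hz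
  refine ⟨?_, ?_⟩
  · intro x hx
    have hlt : fillA W s₀ z₁ x < W x := lt_of_le_of_ne (hAW x) hx
    obtain ⟨m, hm1, hm2⟩ := exists_between hlt
    have h1 : ∀ᶠ y in 𝓝 x, fillA W s₀ z₁ y < m :=
      hL1.continuous.continuousAt.eventually_lt continuousAt_const hm1
    have h2 : ∀ᶠ y in 𝓝 x, m < W y :=
      continuousAt_const.eventually_lt hT.cont.continuousAt hm2
    obtain ⟨r, hr, hball⟩ := Metric.eventually_nhds_iff_ball.mp (h1.and h2)
    refine Metric.eventually_nhds_iff_ball.mpr ⟨r, hr, fun y hy => ?_⟩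
    have hB : IsPreconnected (Metric.ball x r) := (convex_ball x r).isPreconnected
    have hmB : ∀ z ∈ Metric.ball x r, m ≤ W z := fun z hz => (hball z hz).2.le
    have hxB : x ∈ Metric.ball x r := Metric.mem_ball_self hr
    exact le_antisymm (MFB.fillA_le hT.lower hB hmB hy hxB (hball y hy).1.le)
      (MFB.fillA_le hT.lower hB hmB hxB hy hm1.le)
  · intro x hx
    have hlt : fillA W s₀ z₁ x < fillT W s₀ s₁ T z₁ x := lt_of_le_of_ne (hAF x) (Ne.symm hx)
    obtain ⟨m, hm1, hm2⟩ := exists_between hlt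
    have h1 : ∀ᶠ y in 𝓝 x, fillA W s₀ z₁ y < m :=
      hL1.continuous.continuousAt.eventually_lt continuousAt_const hm1
    have h2 : ∀ᶠ y in 𝓝 x, m < fillT W s₀ s₁ T z₁ y :=
      continuousAt_const.eventually_lt hL2.continuous.continuousAt hm2
    obtain ⟨r, hr, hball⟩ := Metric.eventually_nhds_iff_ball.mp (h1.and h2)
    refine Metric.eventually_nhds_iff_ball.mpr ⟨r, hr, fun y hy => ?_⟩
    have hB : IsPreconnected (Metric.ball x r) := (convex_ball x r).isPreconnected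
    have hmB : ∀ z ∈ Metric.ball x r, fillA W s₀ z₁ z ≤ m := fun z hz => (hball z hz).1.le
    have hxB : x ∈ Metric.ball x r := Metric.mem_ball_self hr
    have hM : ∀ z ∈ T, s₀ ≤ fillA W s₀ z₁ z := fun z _ => hT1.lower z
    exact le_antisymm (MFBT.fillBT_le hT.ne hM hT1.upper hB hmB hxB hy hm2.le)
      (MFBT.fillBT_le hT.ne hM hT1.upper hB hmB hy hxB (hball y hy).2.le)

end Pool.Agent.PFU
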