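import Pool.Agent.PFU.StmtsM

/-!
FCT: superlevel sets of the filled function are preconnected, and every point of a sublevel set is
connected with a point of `T` in it.
-/

open MeasureTheory Filter Topology
open scoped ContDiff

namespace Pool.Agent.PFU.MFCT

open Pool.Agent.PenroseSph Pool.Agent.PFlow Pool.Agent.PFT

/-- an admissible level of `fillBT` is an upper bound for its value -/
theorem fillBT_le {V : E3 → ℝ} {s₁ : ℝ} {T : Finset E3} {y p : E3} {c : ℝ} (hc : c ≤ s₁)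
    (hp : p ∈ T) (h : Conn {z | V z ≤ c} y p) : fillBT V s₁ T y ≤ c := by
  refine csInf_le ⟨V y, ?_⟩ ⟨hc, p, hp, h⟩
  rintro d ⟨_, q, _, S, hS, _, hy, _⟩
  exact hS hy

theorem exists_of_fillBT_lt {V : E3 → ℝ} {s₁ : ℝ} {T : Finset E3} {y : E3} {c : ℝ}
    (hT : T.Nonempty) (hV : ∀ x, V x ≤ s₁) (h : fillBT V s₁ T y < c) :
    ∃ d < c, d ≤ s₁ ∧ ∃ p ∈ T, Conn {z | V z ≤ d} y p := by
  have hne : {c : ℝ | c ≤ s₁ ∧ ∃ z ∈ T, Conn {x | V x ≤ c} y z}.Nonempty := by
    obtain ⟨p, hp⟩ := hT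
    exact ⟨s₁, le_refl _, p, hp, MFC.conn_univ hV y p⟩
  obtain ⟨d, ⟨hd1, hd2⟩, hd3⟩ := exists_lt_of_csInf_lt hne h
  exact ⟨d, hd3, hd1, hd2⟩

/-- the sublevel sets -/
theorem sub {V : E3 → ℝ} {s₁ : ℝ} {T : Finset E3} (hT : T.Nonempty) (hV : ∀ x, V x ≤ s₁)
    (c : ℝ) (x : E3) (hx : fillBT V s₁ T x < c) :
    ∃ p ∈ T, Conn {y | fillBT V s₁ T y < c} x p := by
  obtain ⟨d, hdc, hd, p, hp, S, hS, hSp, hxS, hpS⟩ := exists_of_fillBT_lt hT hV hx
  exact ⟨p, hp, S, fun z hz => lt_of_le_of_lt (fillBT_le hd hp ⟨S, hS, hSp, hz, hpS⟩) hdc,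
    hSp, hxS, hpS⟩

/-- two points of a component of a strict sublevel set: `fillBT` is at least the level -/
theorem low {V : E3 → ℝ} {s₁ : ℝ} {T : Finset E3} {y z : E3} (hT : T.Nonempty)
    (hVc : Continuous V) (hV : ∀ x, V x ≤ s₁)
    {D : Set E3} (hDo : IsOpen D) (hDp : IsPreconnected D)
    (hD : D ⊆ {x | V x < fillBT V s₁ T y}) (hy : y ∈ D) (hz : z ∈ D) :
    fillBT V s₁ T y ≤ fillBT V s₁ T z := by
  by_contra hlt
  push Not at hlt
  obtain ⟨d, hdb, hd, p, hp, S, hS, hSp, hzS, hpS⟩ := exists_of_fillBT_lt hT hV hlt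
  have hpath : IsPathConnected D := (hDo.isConnected_iff_isPathConnected).mp ⟨⟨y, hy⟩, hDp⟩
  obtain ⟨γ, hγ⟩ := hpath.joinedIn y hy z hz
  have hK : IsCompact (Set.range γ) := isCompact_range γ.continuous
  have hKne : (Set.range γ).Nonempty := Set.range_nonempty _
  obtain ⟨x, hx, hmax⟩ := hK.exists_isMaxOn hKne hVc.continuousOn
  have hKp : IsPreconnected (Set.range γ) := isPreconnected_range γ.continuous
  have hxD : x ∈ D := by
    obtain ⟨t, rfl⟩ := hx
    exact hγ t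
  have hVx : V x < fillBT V s₁ T y := hD hxD
  have h1 : Conn {w | V w ≤ max d (V x)} y p := by
    refine ⟨Set.range γ ∪ S, ?_, ?_, ?_, ?_⟩
    · rintro w (hw | hw)
      · have h2 : V w ≤ V x := hmax hw
        exact le_trans h2 (le_max_right _ _)
      · have h2 : V w ≤ d := hS hw
        exact le_trans h2 (le_max_left _ _)
    · exact IsPreconnected.union z ⟨1, γ.target⟩ hzS hKp hSp
    · exact Or.inl ⟨0, γ.source⟩
    · exact Or.inr hpS
  have h2 := fillBT_le (max_le hd (hV x)) hp h1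
  exact absurd h2 (not_le.mpr (max_lt hdb hVx))

/-- the superlevel sets -/
theorem super {W V F : E3 → ℝ} {s₀ s₁ : ℝ} {T : Finset E3} {z₁ : E3} (hT : T.Nonempty)
    (hVdef : V = fillA W s₀ z₁)
    (hFdef : F = fillBT V s₁ T) (hW : ∀ x, s₀ ≤ W x) (hVc : Continuous V)
    (hV : ∀ x, V x ≤ s₁)
    (hVF : ∀ x, V x ≤ F x) (hz1 : V z₁ = s₁) (c : ℝ) :
    IsPreconnected {x | c < F x} := by
  refine isPreconnected_of_forall z₁ fun y hy => ?_
  by_cases hcy : c < V y
  · exact MFC.super_aux hVdef hW hVF hcy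
  · push Not at hcy
    have hyb : y ∈ {x | V x < F y} := lt_of_le_of_lt hcy hy
    have hopen : IsOpen {x | V x < F y} := isOpen_lt hVc continuous_const
    obtain ⟨D, hDdef⟩ : ∃ D, D = connectedComponentIn {x | V x < F y} y := ⟨_, rfl⟩
    have hDo : IsOpen D := hDdef ▸ hopen.connectedComponentIn
    have hDp : IsPreconnected D := hDdef ▸ isPreconnected_connectedComponentIn
    have hDs : D ⊆ {x | V x < F y} := hDdef ▸ connectedComponentIn_subset _ _
    have hyD : y ∈ D := hDdef ▸ mem_connectedComponentIn hyb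
    have hFle : F y ≤ s₁ := by
      rw [hFdef]
      obtain ⟨p, hp⟩ := hT
      exact fillBT_le (le_refl _) hp (MFC.conn_univ hV y p)
    have hzD : z₁ ∉ D := by
      intro h
      have h1 : V z₁ < F y := hDs h
      rw [hz1] at h1
      exact absurd hFle (not_le.mpr h1)
    have hfr : (frontier D).Nonempty := by
      rw [nonempty_frontier_iff]
      exact ⟨⟨y, hyD⟩, fun h => hzD (h ▸ Set.mem_univ z₁)⟩
    obtain ⟨y0, hy0⟩ := hfr
    have hy0c : y0 ∈ closure D := hy0.1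
    have hy0D : y0 ∉ D := by
      have h1 := hy0.2
      rwa [hDo.interior_eq] at h1
    have hins : IsPreconnected (insert y0 D) :=
      hDp.subset_closure (Set.subset_insert _ _)
        (Set.insert_subset_iff.mpr ⟨hy0c, subset_closure⟩)
    have hVy0 : F y ≤ V y0 := by
      by_contra hlt
      push Not at hlt
      apply hy0D
      have h2 : insert y0 D ⊆ {x | V x < F y} := Set.insert_subset_iff.mpr ⟨hlt, hDs⟩
      have h3 := hins.subset_connectedComponentIn (Set.mem_insert_of_mem y0 hyD) h2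
      rw [← hDdef] at h3
      exact h3 (Set.mem_insert _ _)
    have hcy0 : c < V y0 := lt_of_lt_of_le hy hVy0
    obtain ⟨S, hS, hS1, hS2, hS3⟩ := MFC.super_aux hVdef hW hVF hcy0
    refine ⟨insert y0 D ∪ S, ?_, Or.inr hS1, Or.inl (Set.mem_insert_of_mem y0 hyD),
      IsPreconnected.union y0 (Set.mem_insert _ _) hS2 hins hS3⟩
    rintro w (hw | hw)
    · rcases hw with rfl | hw
      · exact lt_of_lt_of_le hcy0 (hVF _)
      · have h4 : F y ≤ F w := by
          rw [hFdef]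
          rw [hFdef] at hDs
          exact low hT hVc hV hDo hDp hDs hyD hw
        exact lt_of_lt_of_le hy h4
    · exact hS hw

end Pool.Agent.PFU.MFCT

namespace Pool.Agent.PFU

open Pool.Agent.PenroseSph Pool.Agent.PFlow Pool.Agent.PFT

theorem t_FCT (hFAT : Stmt_FAT) : Stmt_FCT := by
  intro T a' b' s₀ s₁ W C z₁ hW hL hz c
  obtain ⟨hA, hF, hAW, hAF, hTA, hTF⟩ := hFAT T a' b' s₀ s₁ W C z₁ hW hL hz
  exact ⟨fun x hx => MFCT.sub hW.ne hTA.upper c x hx,
    MFCT.super hW.ne rfl rfl hW.lower hTA.cont hTA.upper hAF (hTA.outer z₁ hz) c⟩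

end Pool.Agent.PFU
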