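import Pool.Agent.PFU.StmtsM

/-!
# FDT: nothing is filled at regular levels (several inner balls)
-/

open MeasureTheory Filter Topology
open scoped ContDiff ENNReal

namespace Pool.Agent.PFU

open Pool.Agent.PenroseSph Pool.Agent.PFlow Pool.Agent.PFT

namespace FDTaux

open Pool.Agent.PFlow.MFD

variable {T : Finset E3} {a' b' s₀ s₁ : ℝ} {W : E3 → ℝ} {z₁ : E3}

/-- One step: no filling at a regular level. -/
theorem stepA (hFD1 : Stmt_FD1) (hT : TruncT T a' b' s₀ s₁ W) (hz : b' ≤ ‖z₁‖) {x : E3}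
    (hle : fillA W s₀ z₁ x ≤ W x) (h1 : fillA W s₀ z₁ x < s₁)
    (hreg : RegLevel W (fillA W s₀ z₁ x)) : fillA W s₀ z₁ x = W x := by
  by_contra hne
  have hlt : fillA W s₀ z₁ x < W x := lt_of_le_of_ne hle hne
  set c := fillA W s₀ z₁ x with hc
  have hbdd : BddAbove {c : ℝ | s₀ ≤ c ∧ Conn {z | c ≤ W z} x z₁} := by
    refine ⟨W x, ?_⟩
    rintro d ⟨-, S, hS, -, hx, -⟩
    exact hS hx
  have hnon : {c : ℝ | s₀ ≤ c ∧ Conn {z | c ≤ W z} x z₁}.Nonempty :=
    ⟨s₀, le_rfl, conn_univ (Set.eq_univ_of_forall fun z => hT.lower z) _ _⟩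
  have hle0 : s₀ ≤ c := by
    have : s₀ ≤ fillA W s₀ z₁ x :=
      le_csSup hbdd ⟨le_rfl, conn_univ (Set.eq_univ_of_forall fun z => hT.lower z) _ _⟩
    exact this
  have hnot : ¬ Conn {z | c < W z} x z₁ := by
    intro hcon
    obtain ⟨c', hc', hcon'⟩ := conn_closed hT.cont hcon
    have h2 : c' ≤ fillA W s₀ z₁ x := le_csSup hbdd ⟨by linarith, hcon'⟩
    linarith
  have hz1 : c < W z₁ := by
    rw [hT.outer z₁ hz]
    exact h1
  obtain ⟨e, he, hnot'⟩ := hFD1 W c x z₁ hT.cont hreg hlt hz1 hnot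
  obtain ⟨d, ⟨-, hd⟩, hcd⟩ := exists_lt_of_lt_csSup hnon
    (show c - e < sSup {c : ℝ | s₀ ≤ c ∧ Conn {z | c ≤ W z} x z₁} by
      change c - e < fillA W s₀ z₁ x
      linarith)
  apply hnot'
  refine conn_mono hd ?_
  intro z hz
  exact lt_of_lt_of_le hcd hz

/-- The same for the second filling. -/
theorem stepB (hFD1 : Stmt_FD1) (hT : TruncT T a' b' s₀ s₁ W) {x : E3}
    (hle : W x ≤ fillBT W s₁ T x) (h0 : s₀ < fillBT W s₁ T x) (h1 : fillBT W s₁ T x < s₁)
    (hreg : RegLevel (fun z => - W z) (- fillBT W s₁ T x)) : fillBT W s₁ T x = W x := by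
  by_contra hne
  have hlt : W x < fillBT W s₁ T x := lt_of_le_of_ne hle (Ne.symm hne)
  set c := fillBT W s₁ T x with hc
  obtain ⟨p₀, hp₀⟩ := hT.ne
  have hbdd : BddBelow {c : ℝ | c ≤ s₁ ∧ ∃ z ∈ T, Conn {y | W y ≤ c} x z} := by
    refine ⟨W x, ?_⟩
    rintro d ⟨-, z, -, S, hS, -, hx, -⟩
    exact hS hx
  have hnon : {c : ℝ | c ≤ s₁ ∧ ∃ z ∈ T, Conn {y | W y ≤ c} x z}.Nonempty :=
    ⟨s₁, le_rfl, p₀, hp₀, conn_univ (Set.eq_univ_of_forall fun z => hT.upper z) _ _⟩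
  have hnot : ∀ p ∈ T, ¬ Conn {z | - c < - W z} x p := by
    intro p hp hcon
    obtain ⟨c', hc', hcon'⟩ := conn_closed hT.cont.neg hcon
    have h2 : fillBT W s₁ T x ≤ - c' := by
      refine csInf_le hbdd ⟨by linarith, p, hp, conn_mono hcon' ?_⟩
      intro z hz
      have hz' : c' ≤ - W z := hz
      change W z ≤ - c'
      linarith
    linarith
  have hex : ∀ p ∈ T, ∃ e : ℝ, 0 < e ∧ ¬ Conn {z | - c - e < - W z} x p := by
    intro p hp
    have hz1 : - c < - W p := by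
      rw [hT.inner p hp p (by rw [sub_self, norm_zero]; exact hT.pos.le)]
      linarith
    obtain ⟨e, he, hnot'⟩ := hFD1 (fun z => - W z) (- c) x p hT.cont.neg hreg
      (by linarith) hz1 (hnot p hp)
    exact ⟨e, he, hnot'⟩
  choose! e he hnot' using hex
  obtain ⟨q, hq, hmin⟩ := Finset.exists_min_image T e hT.ne
  obtain ⟨d, ⟨-, p, hp, hd⟩, hcd⟩ := exists_lt_of_csInf_lt hnon
    (show sInf {c : ℝ | c ≤ s₁ ∧ ∃ z ∈ T, Conn {y | W y ≤ c} x z} < c + e q by
      change fillBT W s₁ T x < c + e q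
      linarith [he q hq])
  apply hnot' p hp
  refine conn_mono hd ?_
  intro z hz
  have hz' : W z ≤ d := hz
  have := hmin p hp
  change - c - e p < - W z
  linarith

end FDTaux

open FDTaux in
/-- **FDT.** Nothing is filled at regular levels. -/
theorem t_FDT (hFAT : Stmt_FAT) : Stmt_FDT := by
  have hFD1 : Stmt_FD1 := Pool.Agent.PFlow.AllM.pFD1
  intro T a' b' s₀ s₁ W C z₁ hT hL hz α β hα hαβ hβ hreg x hx
  obtain ⟨f1, f2, f3, f4, f5, f6⟩ := hFAT T a' b' s₀ s₁ W C z₁ hT hL hz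
  set V := fillA W s₀ z₁ with hV
  have hA : ∀ y, V y ∈ Set.Ioo α β → V y = W y := by
    intro y hy
    exact stepA hFD1 hT hz (f3 y) (lt_of_lt_of_le hy.2 hβ) (hreg _ hy)
  have hregV : ∀ c ∈ Set.Ioo α β, RegLevel V c := by
    intro c hc
    refine Pool.Agent.PFlow.MFD.regLevel_congr (hreg c hc) ?_ ?_
    · refine Metric.isCompact_of_isClosed_isBounded (isClosed_eq f5.cont continuous_const) ?_
      refine (Metric.isBounded_closedBall (x := (0 : E3)) (r := b')).subset ?_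
      intro z hz'
      rw [mem_closedBall_zero_iff]
      by_contra hcon
      push Not at hcon
      have h2 := f5.outer z hcon.le
      have h3 : V z = c := hz'
      rw [h2] at h3
      rw [← h3] at hc
      exact absurd hc.2 (not_lt.mpr hβ)
    · intro z hz'
      have h2 : ∀ᶠ y in 𝓝 z, V y ∈ Set.Ioo α β := by
        have h3 : Tendsto V (𝓝 z) (𝓝 (V z)) := f5.cont.continuousAt
        rw [hz'] at h3
        exact h3 (Ioo_mem_nhds hc.1 hc.2)
      filter_upwards [h2] with y hy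
      exact hA y hy
  have h4 : fillBT V s₁ T x = V x :=
    stepB hFD1 f5 (f4 x) (lt_of_le_of_lt hα hx.1) (lt_of_lt_of_le hx.2 hβ)
      (Pool.Agent.PFlow.MFD.regLevel_neg (hregV _ hx))
  have h5 : fillT W s₀ s₁ T z₁ x = V x := h4
  refine ⟨?_, h5⟩
  rw [h5] at hx
  exact hA x hx

end Pool.Agent.PFU
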