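import Pool.Agent.PFU.StmtsP

/-!
# Block PT, module FLUXLT: the flux identity of the limit, several inner balls
-/

open MeasureTheory Filter Topology Set
open scoped ContDiff RealInnerProductSpace

namespace Pool.Agent.PFU

open Pool.Agent.PenroseSph Pool.Agent.PFlow Pool.Agent.PFT Pool.Agent.PFlow.PB

theorem t_FLUXLT : Stmt_FLUXLT := by
  have h2 : API2 := pAPI2
  have hl : LIMW := pLIMW
  have hk : KLIM := kLIM
  have hm : KSMO := kSMO
  have ht : KTN := kTN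
  intro T ε a b g h Θ θ B t₀ δ κ u G M C v F N L χ hχ hχc hχs
  obtain ⟨⟨C₁, hC₁, hgr⟩, hconv⟩ := hk ε g h (b / 2) L.eps_pos L.eps_lt L.data
  have hsm := fun n => hm ε (δ n) (κ n) g h (b / 2) L.eps_pos L.eps_lt (L.δ_pos n) (L.κ_pos n)
    L.data
  have hH1 : H1 χ (gr χ) := h2.ofC1 χ hχ hχc
  have key := hl G F (fun n => cA ε (δ n) (κ n) g) (fun n => cB ε (δ n) g h) (cA0 ε g)
    (cB0 ε g h) (2 * C₁) (fun n => (L.h2 n).h1.memG) L.h2v.h1.memG L.strong L.ae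
    (fun n => (hsm n).1.continuous.measurable) (fun n => (hsm n).2.1.continuous.measurable)
    ?_ ?_ ?_ χ hχ hχc ?_
  · have e1 : ∀ x, ⟪cA0 ε g x (F x), gr χ x⟫ =
        len g x (F x) ^ (ε - 1) * ev (g x)⁻¹ (F x) (grad χ x) * volDen g x := fun x =>
      FluxL.inner_cA0 ht (L.data.met.posDef x (Set.mem_univ x)) ε (F x) χ
    have e2 : ∀ x, cB0 ε g h x (F x) * χ x =
        len g x (F x) ^ ε * beps ε g x (F x) (h x) * χ x * volDen g x := fun x => by
      unfold cB0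
      ring
    simp only [e1, e2] at key
    exact key
  · intro n x ξ
    have h3 := (hgr (δ n) (κ n) (L.δ_pos n) (L.δ_le n) (L.κ_pos n) (L.κ_le n) x ξ).1
    refine h3.trans ?_
    have h4 := FluxL.rpow_le L.eps_pos L.eps_lt (norm_nonneg ξ)
    have h5 : κ n * ‖ξ‖ ≤ 1 * ‖ξ‖ := mul_le_mul_of_nonneg_right (L.κ_le n) (norm_nonneg ξ)
    calc C₁ * (‖ξ‖ ^ ε + κ n * ‖ξ‖) ≤ C₁ * ((1 + ‖ξ‖) + (1 + ‖ξ‖)) := by
          apply mul_le_mul_of_nonneg_left _ hC₁
          linarith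
      _ = _ := by ring
  · intro n x ξ
    have h3 := (hgr (δ n) (κ n) (L.δ_pos n) (L.δ_le n) (L.κ_pos n) (L.κ_le n) x ξ).2
    refine h3.trans ?_
    have h4 := FluxL.rpow_le L.eps_pos L.eps_lt (norm_nonneg ξ)
    calc C₁ * ‖ξ‖ ^ ε ≤ C₁ * ((1 + ‖ξ‖) + (1 + ‖ξ‖)) := by
          apply mul_le_mul_of_nonneg_left _ hC₁
          linarith [norm_nonneg ξ]
      _ = _ := by ring
  · intro x ξ p hp
    exact hconv x δ κ p ξ L.δ_pos L.κ_pos L.δ_tend L.κ_tend hp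
  · intro n
    rw [(L.sol n).2 χ (gr χ) hH1]
    refine integral_congr_ae (Filter.Eventually.of_forall fun x => ?_)
    show (cB ε (δ n) g h x (G n x) - Θ x * u n x + θ x) * χ x = cB ε (δ n) g h x (G n x) * χ x
    by_cases hx : x ∈ tsupport χ
    · obtain ⟨h6, h7⟩ := hχs hx
      have h8 : ∀ p ∈ T, a ≤ ‖x - p‖ := fun p hp => (h7 p hp).le
      rw [L.pen.mid x h8 h6.le, L.pen.out x h8]
      ring
    · rw [image_eq_zero_of_notMem_tsupport hx, mul_zero, mul_zero]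

end Pool.Agent.PFU
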