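import Pool.Agent.PFU.StmtsA
import Pool.Agent.PFlow.E.FLX
import Pool.Agent.PFlow.E.FLXA
import Pool.Agent.PFlow.E.ABSF
import Pool.Agent.PFlow.E.SETW

/-!
# FLV: the flux of the solution for the tensor `0`
-/

open MeasureTheory Filter Topology
open scoped ContDiff ENNReal

namespace Pool.Agent.PFU

open Pool.Agent.PenroseSph Pool.Agent.PFlow Pool.Agent.PFT

namespace FLVaux

/-! ### Algebra -/

theorem ev_lin (B : Bil) (p q r : Cov) (a b : ℝ) :
    ev B p (fun i => a * q i + b * r i) = a * ev B p q + b * ev B p r := by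
  simp only [ev, Fin.sum_univ_three]
  ring

theorem ev_zero (B : Bil) (p : Cov) : ev B p 0 = 0 := by
  simp [ev]

theorem isSymm_inv {g : TensorField} {x : E3} (hg : (g x).PosDef) : ((g x)⁻¹ : Bil).IsSymm := by
  have h1 := hg.inv.isHermitian
  unfold Matrix.IsHermitian at h1
  rwa [Matrix.conjTranspose_eq_transpose_of_trivial] at h1

theorem ev_nonneg {g : TensorField} {x : E3} (hg : (g x).PosDef) (p : Cov) :
    0 ≤ ev (g x)⁻¹ p p := PFlow.ABSFm.ev_nonneg hg.inv.posSemidef p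

theorem len_nonneg (g : TensorField) (x : E3) (p : Cov) : 0 ≤ len g x p := Real.sqrt_nonneg _

theorem vol_nonneg (g : TensorField) (x : E3) : 0 ≤ volDen g x := Real.sqrt_nonneg _

theorem abs_ev_le {g : TensorField} {x : E3} (hg : (g x).PosDef) (p q : Cov) :
    |ev (g x)⁻¹ p q| ≤ len g x p * len g x q := by
  by_cases hq : q = 0
  · rw [hq, ev_zero, abs_zero]
    exact mul_nonneg (len_nonneg _ _ _) (len_nonneg _ _ _)
  have h := PFlow.ABSFm.cauchy hg.inv (isSymm_inv hg) p q hq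
  have hqq := PFlow.ABSFm.ev_pos hg.inv hq
  rw [div_le_iff₀ hqq] at h
  unfold len
  rw [← Real.sqrt_mul (ev_nonneg hg p)]
  exact Real.abs_le_sqrt h

theorem pr_le {g : TensorField} {x : E3} (hg : (g x).PosDef) {ε : ℝ} (hε : 0 < ε) (p q : Cov) :
    |len g x p ^ (ε - 1) * ev (g x)⁻¹ p q| ≤ len g x p ^ ε * len g x q := by
  have h0 := len_nonneg g x p
  rw [abs_mul, abs_of_nonneg (Real.rpow_nonneg h0 _)]
  calc len g x p ^ (ε - 1) * |ev (g x)⁻¹ p q|
      ≤ len g x p ^ (ε - 1) * (len g x p * len g x q) :=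
        mul_le_mul_of_nonneg_left (abs_ev_le hg p q) (Real.rpow_nonneg h0 _)
    _ = (len g x p ^ (ε - 1) * len g x p) * len g x q := by ring
    _ = len g x p ^ ε * len g x q := by rw [PFlow.MFLX.rpow_sub_mul h0 hε]

theorem young {a b ε : ℝ} (ha : 0 ≤ a) (hb : 0 ≤ b) (hε : 0 < ε) :
    a ^ ε * b ≤ ε / (1 + ε) * a ^ (1 + ε) + 1 / (1 + ε) * b ^ (1 + ε) := by
  have h := Real.geom_mean_le_arith_mean2_weighted (w₁ := ε / (1 + ε)) (w₂ := 1 / (1 + ε))
    (p₁ := a ^ (1 + ε)) (p₂ := b ^ (1 + ε)) (by positivity) (by positivity) (by positivity)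
    (by positivity) (by field_simp; ring)
  rw [← Real.rpow_mul ha, ← Real.rpow_mul hb] at h
  have e1 : (1 + ε) * (ε / (1 + ε)) = ε := by field_simp
  have e2 : (1 + ε) * (1 / (1 + ε)) = 1 := by field_simp
  rwa [e1, e2, Real.rpow_one] at h

theorem rpow_le {t q : ℝ} (ht : 0 ≤ t) (hq : 0 ≤ q) (hq2 : q ≤ 2) : t ^ q ≤ 1 + t ^ 2 := by
  rcases le_total t 1 with h | h
  · have h1 : t ^ q ≤ 1 := Real.rpow_le_one ht h hq
    have h2 : 0 ≤ t ^ 2 := sq_nonneg t
    linarith
  · have h1 : t ^ q ≤ t ^ (2 : ℝ) := Real.rpow_le_rpow_of_exponent_le h hq2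
    have h3 : t ^ (2 : ℝ) = t ^ (2 : ℕ) := by
      rw [← Real.rpow_natCast]
      norm_num
    rw [h3] at h1
    linarith

theorem tensorOn_zero (U : Set E3) : TensorOn U (0 : TensorField) :=
  ⟨fun _ _ => contDiffOn_const, fun _ _ => Matrix.transpose_zero⟩

theorem beps_zero (ε : ℝ) (g : TensorField) (x : E3) (p : Cov) :
    beps ε g x p ((0 : TensorField) x) = 0 := by
  simp [beps, trg, bnn, ev]

/-! ### The sets -/

theorem isOpen_AnnT (T : Finset E3) (a b : ℝ) : IsOpen (AnnT T a b) := by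
  have h1 : AnnT T a b = {x : E3 | ‖x‖ < b} ∩ ⋂ p ∈ T, {x : E3 | a < ‖x - p‖} := by
    ext x
    simp [AnnT]
  rw [h1]
  exact (isOpen_lt continuous_norm continuous_const).inter
    (isOpen_biInter_finset fun p _ => isOpen_lt continuous_const (by fun_prop))

theorem isCompact_cAnnT (T : Finset E3) (a b : ℝ) : IsCompact (cAnnT T a b) := by
  have h1 : cAnnT T a b = {x : E3 | ‖x‖ ≤ b} ∩ ⋂ p ∈ T, {x : E3 | a ≤ ‖x - p‖} := by
    ext x
    simp [cAnnT]
  have h2 : IsClosed (cAnnT T a b) := by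
    rw [h1]
    exact (isClosed_le continuous_norm continuous_const).inter
      (isClosed_biInter fun p _ => isClosed_le continuous_const (by fun_prop))
  refine (isCompact_closedBall (0 : E3) b).of_isClosed_subset h2 fun x hx => ?_
  rw [mem_closedBall_zero_iff]
  exact hx.1

/-! ### Integrability on compact sets -/

section Int

variable {U K : Set E3} {g : TensorField} {u : E3 → ℝ} {G : E3 → Cov} {M : E3 → Bil} {ε : ℝ}

theorem cont_inv (hg : MetricOn Set.univ g) (i j : Fin 3) :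
    Continuous (fun x => ((g x)⁻¹ : Bil) i j) :=
  continuousOn_univ.1 (PFlow.MAP.contOn_inv hg i j)

theorem cont_vol (hg : MetricOn Set.univ g) : Continuous (volDen g) := by
  have h1 : ContinuousOn (fun x => volDen g x) Set.univ := by
    unfold volDen
    exact ((Continuous.matrix_det continuous_id).comp_continuousOn
      (PFlow.MAP.contOn_entry hg.smooth)).sqrt
  exact continuousOn_univ.1 h1

theorem cont_len_grad (hg : MetricOn Set.univ g) {v : E3 → ℝ} (hv : ContDiff ℝ ∞ v) :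
    Continuous (fun x => len g x (grad v x)) := by
  unfold len ev grad
  refine Continuous.sqrt (continuous_finsetSum _ fun i _ => continuous_finsetSum _ fun j _ => ?_)
  exact ((cont_inv hg i j).mul (PFlow.MAP.cont_pd hv i)).mul (PFlow.MAP.cont_pd hv j)

theorem am_G (hH2 : H2On U u G M) (hK : IsCompact K) (hKU : K ⊆ U) (i : Fin 3) :
    AEMeasurable (fun x => G x i) (volume.restrict K) :=
  (hH2.memG K hK hKU i).1.aemeasurable

theorem am_len (hg : MetricOn Set.univ g) (hH2 : H2On U u G M) (hK : IsCompact K)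
    (hKU : K ⊆ U) : AEMeasurable (fun x => len g x (G x)) (volume.restrict K) := by
  unfold len
  exact (PFlow.MAP.am_ev (fun i j => (cont_inv hg i j).aemeasurable) (am_G hH2 hK hKU)
    (am_G hH2 hK hKU)).sqrt

theorem int_sq (hg : MetricOn Set.univ g) (hH2 : H2On U u G M) (hK : IsCompact K)
    (hKU : K ⊆ U) : IntegrableOn (fun x => 1 + len g x (G x) ^ 2) K := by
  obtain ⟨C, hC, hCx⟩ := CT Set.univ g 0 isOpen_univ hg (tensorOn_zero _) K hK
    (Set.subset_univ _)
  have h1 : IntegrableOn (fun x => C * ∑ i, G x i ^ 2) K :=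
    (integrable_finsetSum _ fun i _ => (hH2.memG K hK hKU i).integrable_sq).const_mul C
  have h2 : IntegrableOn (fun x => len g x (G x) ^ 2) K := by
    refine Integrable.mono' h1 ((am_len hg hH2 hK hKU).pow_const 2).aestronglyMeasurable ?_
    rw [ae_restrict_iff' hK.measurableSet]
    refine ae_of_all _ fun x hx => ?_
    rw [Real.norm_eq_abs, abs_of_nonneg (sq_nonneg _)]
    unfold len
    rw [Real.sq_sqrt (ev_nonneg (hg.posDef x trivial) _)]
    exact ((hCx x hx).1 (G x)).2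
  exact (integrableOn_const hK.measure_lt_top.ne).add h2

theorem int_pow (hg : MetricOn Set.univ g) (hH2 : H2On U u G M) (hK : IsCompact K)
    (hKU : K ⊆ U) (he0 : 0 < ε) (he1 : ε ≤ 1 / 2) :
    IntegrableOn (fun x => len g x (G x) ^ (1 + ε) * volDen g x) K := by
  have h1 : IntegrableOn (fun x => (1 + len g x (G x) ^ 2) * volDen g x) K :=
    (int_sq hg hH2 hK hKU).mul_continuousOn (cont_vol hg).continuousOn hK
  refine Integrable.mono' h1 (((am_len hg hH2 hK hKU).pow_const (1 + ε)).mul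
    (cont_vol hg).aemeasurable).aestronglyMeasurable (ae_of_all _ fun x => ?_)
  rw [Real.norm_eq_abs, abs_of_nonneg
    (mul_nonneg (Real.rpow_nonneg (len_nonneg _ _ _) _) (vol_nonneg _ _))]
  exact mul_le_mul_of_nonneg_right (rpow_le (len_nonneg _ _ _) (by linarith) (by linarith))
    (vol_nonneg _ _)

theorem int_pr (hg : MetricOn Set.univ g) (hH2 : H2On U u G M) (hK : IsCompact K)
    (hKU : K ⊆ U) (he0 : 0 < ε) (he1 : ε ≤ 1 / 2) {v : E3 → ℝ} (hv : ContDiff ℝ ∞ v) :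
    IntegrableOn (fun x => len g x (G x) ^ (ε - 1) * ev (g x)⁻¹ (G x) (grad v x)
      * volDen g x) K := by
  have h1 : IntegrableOn
      (fun x => (1 + len g x (G x) ^ 2) * (len g x (grad v x) * volDen g x)) K :=
    (int_sq hg hH2 hK hKU).mul_continuousOn
      ((cont_len_grad hg hv).mul (cont_vol hg)).continuousOn hK
  have hm : AEMeasurable (fun x => ev (g x)⁻¹ (G x) (grad v x)) (volume.restrict K) :=
    PFlow.MAP.am_ev (fun i j => (cont_inv hg i j).aemeasurable) (am_G hH2 hK hKU)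
      (fun i => (PFlow.MAP.cont_pd hv i).aemeasurable)
  refine Integrable.mono' h1 ((((am_len hg hH2 hK hKU).pow_const (ε - 1)).mul hm).mul
    (cont_vol hg).aemeasurable).aestronglyMeasurable (ae_of_all _ fun x => ?_)
  have hv0 := vol_nonneg g x
  have hl0 := len_nonneg g x (grad v x)
  rw [Real.norm_eq_abs, abs_mul, abs_of_nonneg hv0, ← mul_assoc]
  refine mul_le_mul_of_nonneg_right ?_ hv0
  refine (pr_le (hg.posDef x trivial) he0 _ _).trans ?_
  exact mul_le_mul_of_nonneg_right (rpow_le (len_nonneg _ _ _) he0.le (by linarith)) hl0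

end Int

/-! ### Numbers and levels -/

theorem w_ge {ε s : ℝ} {u : E3 → ℝ} {x : E3} (he : 0 < ε) (hu : 0 < u x) :
    s ≤ wOf ε u x ↔ u x ≤ Real.exp (-s / ε) := by
  rw [wOf, ← Real.log_le_iff_le_exp hu, le_div_iff₀ he]
  constructor <;> intro h <;> linarith

theorem w_le {ε s : ℝ} {u : E3 → ℝ} {x : E3} (he : 0 < ε) (hu : 0 < u x) :
    wOf ε u x ≤ s ↔ Real.exp (-s / ε) ≤ u x := by
  rw [wOf, ← Real.le_log_iff_exp_le hu, div_le_iff₀ he]
  constructor <;> intro h <;> linarith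

section Main

variable {T : Finset E3} {ε c C₂ γ κ l R η : ℝ} {g : TensorField} {u : E3 → ℝ} {G : E3 → Cov}
  {M : E3 → Bil} {v : E3 → ℝ}

theorem nums (hN : NumT ε c C₂ γ κ l R) :
    0 < R ∧ 0 < sbE ε c l ∧ sbE ε c l < s2E ε γ l ∧ 4 * l ≤ kE ε γ * l ∧ kE ε γ * l < R ∧
    4 * l ≤ R / 2 ∧ 1 / R < κ / l ∧ κ / l ≤ 1 / (4 * l) ∧
    (2 - ε) * Real.log (kE ε γ * l) = s2E ε γ l + γ + 1 := by
  have he := hN.eps_pos
  have he2 := hN.eps_le
  have hg := hN.gam_pos
  have hk := hN.kap_pos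
  have hk2 := hN.kap_le
  have hl := hN.l_ge
  have hl0 : 0 < l := by linarith
  have h2e : 0 < 2 - ε := by linarith
  have hR := hN.R_ge
  have hR' := hN.R_ge'
  obtain ⟨K, hK⟩ : ∃ K, K = kE ε γ := ⟨_, rfl⟩
  have hKlog : (2 - ε) * Real.log K = (2 - ε) * Real.log 4 + 1 + 2 * γ := by
    rw [hK, kE, Real.log_mul (by norm_num) (Real.exp_pos _).ne', Real.log_exp]
    field_simp
    ring
  have hK4 : 4 ≤ K := by
    rw [hK, kE]
    have : 1 ≤ Real.exp ((1 + 2 * γ) / (2 - ε)) := Real.one_le_exp (by positivity)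
    linarith
  rw [← hK] at hR
  have hK0 : 0 < K := by linarith
  have hK3 : (4 : ℝ) ^ 3 ≤ K ^ 3 := pow_le_pow_left₀ (by norm_num) hK4 3
  have hKl : 0 < K * l := by positivity
  have hRK : 64 * (K * l) ≤ R := by
    calc 64 * (K * l) ≤ K ^ 3 * (K * l) := mul_le_mul_of_nonneg_right (by linarith) hKl.le
      _ = K ^ 4 * l := by ring
      _ ≤ R := hR
  have h4K : 4 * l ≤ K * l := mul_le_mul_of_nonneg_right hK4 hl0.le
  have hR0 : 0 < R := by linarith
  have hpe : 0 < pe ε := by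
    unfold pe
    have : 2 ≤ 1 / ε := by
      rw [le_div_iff₀ he]
      linarith
    have h3 : 2 / ε = 2 * (1 / ε) := by ring
    rw [h3]
    linarith
  have hsb : 0 < sbE ε c l := by
    unfold sbE
    have := hN.c_pos
    positivity
  have hsb1 : sbE ε c l ≤ 1 / 2 := by
    unfold sbE
    have h1 : (4 * l) ^ (-pe ε) ≤ 1 :=
      Real.rpow_le_one_of_one_le_of_nonpos (by linarith) (by linarith)
    have h2 : ε * c ≤ 1 / 2 := by
      have := mul_le_mul he2 hN.c_le hN.c_pos.le (by norm_num)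
      linarith
    have h3 : 0 ≤ ε * c := mul_nonneg he.le hN.c_pos.le
    calc ε * c * (4 * l) ^ (-pe ε) ≤ ε * c * 1 := mul_le_mul_of_nonneg_left h1 h3
      _ ≤ 1 / 2 := by linarith
  have hs2 : 1 < s2E ε γ l := by
    unfold s2E
    have h1 : Real.log 16 ≤ Real.log (4 * l) := Real.log_le_log (by norm_num) (by linarith)
    have h2 := PFlow.SETWaux.log_ge
    nlinarith
  refine ⟨hR0, hsb, by linarith, ?_, ?_, by linarith, ?_, ?_, ?_⟩
  · rw [← hK]
    exact h4K
  · rw [← hK]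
    linarith
  · rw [div_lt_div_iff₀ hR0 hl0]
    rw [div_le_iff₀ hk] at hR'
    linarith
  · rw [div_le_div_iff₀ hl0 (by positivity)]
    nlinarith
  · rw [← hK, Real.log_mul hK0.ne' hl0.ne', mul_add, hKlog]
    unfold s2E
    rw [Real.log_mul (by norm_num) hl0.ne']
    ring

/-- Points outside of the compact set `cAnnT T (κ/l) (kE l)`. -/
theorem off (hN : NumT ε c C₂ γ κ l R) {x : E3} (hx : x ∉ cAnnT T (κ / l) (kE ε γ * l)) :
    kE ε γ * l < ‖x‖ ∨ ∃ p ∈ T, ‖x - p‖ < κ / l := by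
  by_contra hcon
  push Not at hcon
  exact hx hcon

theorem sub_U (hN : NumT ε c C₂ γ κ l R) :
    cAnnT T (κ / l) (kE ε γ * l) ⊆ AnnT T (1 / R) R := by
  obtain ⟨hR0, -, -, -, h4, -, h6, -, -⟩ := nums hN
  intro x hx
  exact ⟨hx.1.trans_lt h4, fun p hp => h6.trans_le (hx.2 p hp)⟩

theorem grad_off (hN : NumT ε c C₂ γ κ l R) (hv0 : ∀ x : E3, 4 * l ≤ ‖x‖ → v x = 0)
    (hv1 : ∀ p ∈ T, ∀ x : E3, ‖x - p‖ ≤ 1 / (4 * l) → v x = 1) {x : E3}
    (hx : x ∉ cAnnT T (κ / l) (kE ε γ * l)) : grad v x = 0 := by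
  obtain ⟨hR0, -, -, h3, -, -, -, h7, -⟩ := nums hN
  funext i
  change fderiv ℝ v x _ = 0
  rcases off hN hx with h | ⟨p, hp, h⟩
  · have h1 : v =ᶠ[𝓝 x] fun _ => (0 : ℝ) := by
      filter_upwards [(continuous_norm.tendsto x).eventually (lt_mem_nhds h)] with y hy
      exact hv0 y (h3.trans hy.le)
    rw [h1.fderiv_eq, fderiv_fun_const]
    rfl
  · have h1 : v =ᶠ[𝓝 x] fun _ => (1 : ℝ) := by
      filter_upwards [((continuous_id.sub continuous_const).norm.tendsto x).eventually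
        (gt_mem_nhds h)] with y hy
      exact hv1 p hp y (le_of_lt (lt_of_lt_of_le hy h7))
    rw [h1.fderiv_eq, fderiv_fun_const]
    rfl

/-- The identity for the flux. -/
theorem key (hFLXV : Stmt_FLXV) (hN : NumT ε c C₂ γ κ l R) (hg : MetricOn Set.univ g)
    (hS : SolutionT T ε (1 / R) R η g 0 u G M) (hL : LocatedT T ε c C₂ γ κ l R u)
    (hv : ContDiff ℝ ∞ v) (hv0 : ∀ x : E3, 4 * l ≤ ‖x‖ → v x = 0)
    (hv1 : ∀ p ∈ T, ∀ x : E3, ‖x - p‖ ≤ 1 / (4 * l) → v x = 1)
    {θ : ℝ → ℝ} (hθ : Continuous θ) {t₀ t₁ : ℝ}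
    (h0 : Real.exp (-(s2E ε γ l + 1) / ε) ≤ t₀) (h1 : t₁ ≤ Real.exp (-(sbE ε c l / 4) / ε))
    (h01 : t₀ ≤ t₁) (hz : ∀ t, t ≤ t₀ ∨ t₁ ≤ t → θ t = 0) :
    IntegrableOn (fun x => θ (u x) * len g x (G x) ^ (1 + ε) * volDen g x)
      (AnnT T (1 / R) R) ∧
    ∫ x in AnnT T (1 / R) R, θ (u x) * len g x (G x) ^ (1 + ε) * volDen g x
      = (∫ t in t₀..t₁, θ t)
        * ∫ x, len g x (G x) ^ (ε - 1) * ev (g x)⁻¹ (G x) (grad v x) * volDen g x := by
  obtain ⟨hR0, hsb0, hsb, hk4, hkR, h4R, hRk, hk1, hlog⟩ := nums hN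
  have he := hN.eps_pos
  have he2 := hN.eps_le
  have hl := hN.l_ge
  have hl0 : 0 < l := by linarith
  obtain ⟨U, hUdef⟩ : ∃ U : Set E3, U = AnnT T (1 / R) R := ⟨_, rfl⟩
  obtain ⟨K, hKdef⟩ : ∃ K : Set E3, K = cAnnT T (κ / l) (kE ε γ * l) := ⟨_, rfl⟩
  have hUo : IsOpen U := hUdef ▸ isOpen_AnnT T _ _
  have hUm : MeasurableSet U := hUo.measurableSet
  have hK : IsCompact K := hKdef ▸ isCompact_cAnnT T _ _
  have hKU : K ⊆ U := by rw [hKdef, hUdef]; exact sub_U hN
  have hH2 : H2On U u G M := by rw [hUdef]; exact hS.h2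
  rw [← hUdef]
  obtain ⟨ζ, hζ, hζc, hζs, hζ1⟩ := PFlow.MIB.exists_cutoff hK hUo hKU
  have hζK : ∀ x ∈ K, ζ x = 1 := fun x hx =>
    (hζ1.filter_mono (nhds_le_nhdsSet hx)).self_of_nhds
  have hζg : ∀ x ∈ K, grad ζ x = 0 := by
    intro x hx
    have h1 : ζ =ᶠ[𝓝 x] fun _ => (1 : ℝ) := hζ1.filter_mono (nhds_le_nhdsSet hx)
    funext j
    unfold grad pd
    rw [h1.fderiv_eq, fderiv_fun_const]
    rfl
  have hgv : ∀ x, x ∉ K → grad v x = 0 := fun x hx =>
    grad_off hN hv0 hv1 (by rw [← hKdef]; exact hx)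
  -- the primitive
  obtain ⟨q, hq⟩ : ∃ q : ℝ, q = ∫ t in t₀..t₁, θ t := ⟨_, rfl⟩
  obtain ⟨Ψ, hΨ⟩ : ∃ Ψ : ℝ → ℝ, Ψ = fun s => ∫ t in t₀..s, θ t := ⟨_, rfl⟩
  have hd : ∀ s, HasDerivAt Ψ (θ s) s := fun s => by
    rw [hΨ]
    exact (hθ.integral_hasStrictDerivAt t₀ s).hasDerivAt
  have hder : deriv Ψ = θ := funext fun s => (hd s).deriv
  have hC1 : ContDiff ℝ 1 Ψ := by
    rw [contDiff_one_iff_deriv]
    refine ⟨fun s => (hd s).differentiableAt, ?_⟩
    rw [hder]
    exact hθ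
  have hlow : ∀ s, s ≤ t₀ → Ψ s = 0 := by
    intro s hs
    rw [hΨ]
    have : Set.EqOn θ (fun _ => (0 : ℝ)) (Set.uIcc t₀ s) := by
      intro t ht
      have h2 : t ≤ max t₀ s := ht.2
      rw [max_eq_left hs] at h2
      exact hz t (Or.inl h2)
    change ∫ t in t₀..s, θ t = 0
    rw [intervalIntegral.integral_congr this, intervalIntegral.integral_zero]
  have hup : ∀ s, t₁ ≤ s → Ψ s = q := by
    intro s hs
    have h2 := intervalIntegral.integral_add_adjacent_intervals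
      (hθ.intervalIntegrable (μ := volume) t₀ t₁) (hθ.intervalIntegrable (μ := volume) t₁ s)
    have : Set.EqOn θ (fun _ => (0 : ℝ)) (Set.uIcc t₁ s) := by
      intro t ht
      have h3 : min t₁ s ≤ t := ht.1
      rw [min_eq_left hs] at h3
      exact hz t (Or.inr h3)
    rw [intervalIntegral.integral_congr this, intervalIntegral.integral_zero, add_zero] at h2
    rw [hΨ, hq]
    exact h2.symm
  -- outside of `K`
  have hoff : ∀ x ∈ U, x ∉ K → θ (u x) = 0 ∧ Ψ (u x) = q * v x := by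
    intro x hxU hxK
    rw [hUdef] at hxU
    have hu0 : 0 < u x := hL.pos x hxU.1
    rcases off (T := T) hN (by rw [← hKdef]; exact hxK) with h | ⟨p, hp, h⟩
    · have hx1 : 1 ≤ ‖x‖ := by linarith
      have h2 := hL.outer_low x hx1 hxU.1
      have h3 : Real.log (kE ε γ * l) ≤ Real.log ‖x‖ :=
        Real.log_le_log (by linarith) h.le
      have h4 : (2 - ε) * Real.log (kE ε γ * l) ≤ (2 - ε) * Real.log ‖x‖ :=
        mul_le_mul_of_nonneg_left h3 (by linarith)
      have h5 : s2E ε γ l + 1 ≤ wOf ε u x := by linarith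
      have h6 : u x ≤ t₀ := ((w_ge he hu0).1 h5).trans h0
      rw [hz _ (Or.inl h6), hlow _ h6, hv0 x (by linarith), mul_zero]
      exact ⟨rfl, rfl⟩
    · have h2 : wOf ε u x < sbE ε c l / 4 := by
        by_contra hcon
        exact absurd (hL.low' x hxU (not_lt.1 hcon) p hp) (not_le.2 h)
      have h3 : t₁ ≤ u x := h1.trans ((w_le he hu0).1 h2.le)
      rw [hz _ (Or.inr h3), hup _ h3, hv1 p hp x (h.le.trans hk1), mul_one]
      exact ⟨rfl, rfl⟩
  have huc : Continuous u := hS.cont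
  constructor
  · have hz2 : ∀ x ∈ U \ K, θ (u x) * len g x (G x) ^ (1 + ε) * volDen g x = 0 := by
      rintro x ⟨hxU, hxK⟩
      rw [(hoff x hxU hxK).1, zero_mul, zero_mul]
    refine IntegrableOn.of_forall_sdiff_eq_zero ?_ hUm hz2
    have h2 : IntegrableOn (fun x => θ (u x) * (len g x (G x) ^ (1 + ε) * volDen g x)) K :=
      (int_pow hg hH2 hK hKU he he2).continuousOn_mul (hθ.comp huc).continuousOn hK
    refine h2.congr_fun (fun x _ => ?_) hK.measurableSet
    change θ (u x) * (len g x (G x) ^ (1 + ε) * volDen g x)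
      = θ (u x) * len g x (G x) ^ (1 + ε) * volDen g x
    ring
  -- the flux identities
  have hζ1' : ContDiff ℝ 1 ζ := hζ.of_le (by exact_mod_cast le_top)
  have hv1' : ContDiff ℝ 1 v := hv.of_le (by exact_mod_cast le_top)
  have hflux := hS.flux
  rw [← hUdef] at hflux
  have hF := hFLXV ε U g 0 u G M he (by linarith) hUo hg (tensorOn_zero _) hH2 hflux Ψ ζ hC1
    hζ1' hζc hζs
  have hF2 := hflux (fun x => v x * ζ x) (hv1'.mul hζ1') hζc.mul_left
    (tsupport_mul_subset_right.trans hζs)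
  simp only [beps_zero, mul_zero, zero_mul, integral_zero] at hF hF2
  obtain ⟨A, hA⟩ : ∃ A : E3 → ℝ, A = fun x =>
    v x * (len g x (G x) ^ (ε - 1) * ev (g x)⁻¹ (G x) (grad ζ x) * volDen g x) := ⟨_, rfl⟩
  obtain ⟨B, hB⟩ : ∃ B : E3 → ℝ, B = fun x =>
    len g x (G x) ^ (ε - 1) * ev (g x)⁻¹ (G x) (grad v x) * volDen g x := ⟨_, rfl⟩
  have hK1 : IsCompact (tsupport ζ) := hζc
  have hg0 : ∀ x, x ∉ tsupport ζ → grad ζ x = 0 := by
    intro x hx
    funext j
    unfold grad pd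
    rw [fderiv_of_notMem_tsupport ℝ hx]
    rfl
  have iA : Integrable A := by
    have h2 : IntegrableOn A (tsupport ζ) := by
      rw [hA]
      exact (int_pr hg hH2 hK1 hζs he he2 hζ).continuousOn_mul hv.continuous.continuousOn hK1
    refine (integrableOn_iff_integrable_of_support_subset ?_).1 h2
    intro x hx
    by_contra hcon
    refine hx ?_
    rw [hA]
    change v x * (len g x (G x) ^ (ε - 1) * ev (g x)⁻¹ (G x) (grad ζ x) * volDen g x) = 0
    rw [hg0 x hcon, ev_zero]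
    ring
  have hB0 : ∀ x, x ∉ K → B x = 0 := by
    intro x hx
    rw [hB]
    change len g x (G x) ^ (ε - 1) * ev (g x)⁻¹ (G x) (grad v x) * volDen g x = 0
    rw [hgv x hx, ev_zero]
    ring
  have iB : Integrable B := by
    have h2 : IntegrableOn B K := by
      rw [hB]
      exact int_pr hg hH2 hK hKU he he2 hv
    refine (integrableOn_iff_integrable_of_support_subset ?_).1 h2
    intro x hx
    by_contra hcon
    exact hx (hB0 x hcon)
  have e3 : (∫ x, A x) + ∫ x, B x = 0 := by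
    rw [← integral_add iA iB, ← hF2]
    refine integral_congr_ae (ae_of_all _ fun x => ?_)
    change A x + B x = len g x (G x) ^ (ε - 1) *
      ev (g x)⁻¹ (G x) (grad (fun y => v y * ζ y) x) * volDen g x
    have h2 : grad (fun y => v y * ζ y) x = fun i => v x * grad ζ x i + ζ x * grad v x i := by
      funext i
      have h3 : HasFDerivAt v (fderiv ℝ v x) x := ((hv.differentiable (by simp)) x).hasFDerivAt
      have h4 : HasFDerivAt ζ (fderiv ℝ ζ x) x := ((hζ.differentiable (by simp)) x).hasFDerivAt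
      have h5 : HasFDerivAt (fun y => v y * ζ y) (v x • fderiv ℝ ζ x + ζ x • fderiv ℝ v x) x :=
        h3.mul h4
      unfold grad pd
      rw [h5.fderiv]
      rfl
    rw [h2, ev_lin]
    have h3 : ζ x * ev (g x)⁻¹ (G x) (grad v x) = ev (g x)⁻¹ (G x) (grad v x) := by
      by_cases hx : x ∈ K
      · rw [hζK x hx, one_mul]
      · rw [hgv x hx, ev_zero, mul_zero]
    rw [h3, hA, hB]
    ring
  have e1 : ∫ x in U, θ (u x) * len g x (G x) ^ (1 + ε) * volDen g x =
      ∫ x in U, deriv Ψ (u x) * len g x (G x) ^ (1 + ε) * ζ x * volDen g x := by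
    refine setIntegral_congr_fun hUm fun x hx => ?_
    change θ (u x) * len g x (G x) ^ (1 + ε) * volDen g x =
      deriv Ψ (u x) * len g x (G x) ^ (1 + ε) * ζ x * volDen g x
    rw [hder]
    by_cases hxK : x ∈ K
    · rw [hζK x hxK, mul_one]
    · rw [(hoff x hx hxK).1]
      ring
  have e2 : ∫ x in U, Ψ (u x) * (len g x (G x) ^ (ε - 1) * ev (g x)⁻¹ (G x) (grad ζ x))
      * volDen g x = q * ∫ x, A x := by
    have e6 : ∫ x in U, q * A x = ∫ x, q * A x := by
      refine setIntegral_eq_integral_of_forall_compl_eq_zero fun x hx => ?_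
      rw [hA]
      change q * (v x * (len g x (G x) ^ (ε - 1) * ev (g x)⁻¹ (G x) (grad ζ x) * volDen g x)) = 0
      rw [hg0 x fun h => hx (hζs h), ev_zero]
      ring
    rw [← integral_const_mul, ← e6]
    · refine setIntegral_congr_fun hUm fun x hx => ?_
      change Ψ (u x) * (len g x (G x) ^ (ε - 1) * ev (g x)⁻¹ (G x) (grad ζ x)) * volDen g x
        = q * A x
      rw [hA]
      change _ = q * (v x * (len g x (G x) ^ (ε - 1) * ev (g x)⁻¹ (G x) (grad ζ x) * volDen g x))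
      by_cases hxK : x ∈ K
      · rw [hζg x hxK, ev_zero]
        ring
      · rw [(hoff x hx hxK).2]
        ring
  rw [e1, ← hq]
  change _ = q * ∫ x, len g x (G x) ^ (ε - 1) * ev (g x)⁻¹ (G x) (grad v x) * volDen g x
  have e4 : ∫ x, len g x (G x) ^ (ε - 1) * ev (g x)⁻¹ (G x) (grad v x) * volDen g x
      = ∫ x, B x := by rw [hB]
  rw [e4]
  rw [e2] at hF
  have e5 : (∫ x, A x) = -∫ x, B x := by linarith
  rw [e5] at hF
  linarith

/-- The trapezoidal function. -/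
noncomputable def trz (a b δ t : ℝ) : ℝ := Real.exp (-t) * PFlow.FLXAaux.trap a b δ t

theorem trz_cont (a b δ : ℝ) : Continuous (trz a b δ) :=
  (Real.continuous_exp.comp continuous_neg).mul (PFlow.FLXAaux.trap_cont a b δ)

theorem trz_nonneg (a b δ t : ℝ) : 0 ≤ trz a b δ t :=
  mul_nonneg (Real.exp_pos _).le (PFlow.FLXAaux.trap_nonneg a b δ t)

theorem trz_le_one {a b δ : ℝ} (hδ : 0 < δ) (t : ℝ) : trz a b δ t ≤ 1 := by
  calc trz a b δ t ≤ Real.exp (-t) * Real.exp t :=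
        mul_le_mul_of_nonneg_left (PFlow.FLXAaux.trap_le hδ t) (Real.exp_pos _).le
    _ = 1 := by rw [← Real.exp_add, neg_add_cancel, Real.exp_zero]

theorem trz_eq {a b δ t : ℝ} (h1 : a ≤ t) (h2 : t ≤ b) : trz a b δ t = 1 := by
  rw [trz, PFlow.FLXAaux.trap_eq h1 h2, ← Real.exp_add, neg_add_cancel, Real.exp_zero]

theorem trz_zero {a b δ t : ℝ} (hδ : 0 < δ) (h : t ≤ a - δ ∨ b + δ ≤ t) : trz a b δ t = 0 := by
  rw [trz, PFlow.FLXAaux.trap_zero hδ h, mul_zero]

/-- A function which is constant on a ball has vanishing gradient on the closed ball. -/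
theorem grad_ball {p : E3} {r m : ℝ} (hr : 0 < r) (hv : ContDiff ℝ ∞ v)
    (h : ∀ x : E3, ‖x - p‖ ≤ r → v x = m) {x : E3} (hx : ‖x - p‖ ≤ r) : grad v x = 0 := by
  funext i
  have hc : IsClosed {y : E3 | pd i v y = 0} :=
    isClosed_eq (PFlow.MAP.cont_pd hv i) continuous_const
  have hb : Metric.ball p r ⊆ {y : E3 | pd i v y = 0} := by
    intro y hy
    have h1 : v =ᶠ[𝓝 y] fun _ => m := by
      filter_upwards [Metric.isOpen_ball.mem_nhds hy] with z hz
      rw [mem_ball_iff_norm] at hz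
      exact h z hz.le
    change fderiv ℝ v y _ = 0
    rw [h1.fderiv_eq, fderiv_fun_const]
    rfl
  have h2 := hc.closure_subset_iff.2 hb
  rw [closure_ball p hr.ne'] at h2
  exact h2 (mem_closedBall_iff_norm.2 hx)

theorem flux_le (hFLXV : Stmt_FLXV) (hN : NumT ε c C₂ γ κ l R) (hg : MetricOn Set.univ g)
    (hS : SolutionT T ε (1 / R) R η g 0 u G M) (hL : LocatedT T ε c C₂ γ κ l R u)
    (hv : ContDiff ℝ ∞ v) (hv0 : ∀ x : E3, 4 * l ≤ ‖x‖ → v x = 0)
    (hv1 : ∀ p ∈ T, ∀ x : E3, ‖x - p‖ ≤ 1 / (4 * l) → v x = 1) :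
    ∫ x, len g x (G x) ^ (ε - 1) * ev (g x)⁻¹ (G x) (grad v x) * volDen g x
      ≤ ∫ x, len g x (grad v x) ^ (1 + ε) * volDen g x := by
  obtain ⟨hR0, hsb0, hsb, hk4, hkR, h4R, hRk, hk1, hlog⟩ := nums hN
  have he := hN.eps_pos
  have he2 := hN.eps_le
  have hl := hN.l_ge
  have hl0 : 0 < l := by linarith
  obtain ⟨J, hJ⟩ : ∃ J : ℝ, J = ∫ x, len g x (G x) ^ (ε - 1) *
    ev (g x)⁻¹ (G x) (grad v x) * volDen g x := ⟨_, rfl⟩
  obtain ⟨E, hE⟩ : ∃ E : ℝ, E = ∫ x, len g x (grad v x) ^ (1 + ε) * volDen g x := ⟨_, rfl⟩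
  rw [← hJ, ← hE]
  have hnn : ∀ x, 0 ≤ len g x (grad v x) ^ (1 + ε) * volDen g x := fun x =>
    mul_nonneg (Real.rpow_nonneg (len_nonneg _ _ _) _) (vol_nonneg _ _)
  have hE0 : 0 ≤ E := by
    rw [hE]
    exact integral_nonneg hnn
  rcases le_or_gt J 0 with hJ0 | hJ0
  · linarith
  obtain ⟨a, ha⟩ : ∃ a : ℝ, a = Real.exp (-(s2E ε γ l) / ε) := ⟨_, rfl⟩
  obtain ⟨b, hb⟩ : ∃ b : ℝ, b = Real.exp (-(sbE ε c l) / ε) := ⟨_, rfl⟩
  have hab : a < b := by
    rw [ha, hb]
    exact Real.exp_lt_exp.2 (div_lt_div_of_pos_right (by linarith) he)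
  have hb1 : b < 1 := by
    rw [hb, Real.exp_lt_one_iff]
    exact div_neg_of_neg_of_pos (by linarith) he
  have ha1 : Real.exp (-(s2E ε γ l + 1) / ε) < a := by
    rw [ha]
    exact Real.exp_lt_exp.2 (div_lt_div_of_pos_right (by linarith) he)
  have hb2 : b < Real.exp (-(sbE ε c l / 4) / ε) := by
    rw [hb]
    exact Real.exp_lt_exp.2 (div_lt_div_of_pos_right (by linarith) he)
  obtain ⟨δ, hδ, hd1, hd2, hd3⟩ : ∃ δ : ℝ, 0 < δ ∧ δ ≤ (1 - b) / 2 ∧
      δ ≤ a - Real.exp (-(s2E ε γ l + 1) / ε) ∧ δ ≤ Real.exp (-(sbE ε c l / 4) / ε) - b := by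
    refine ⟨min ((1 - b) / 2) (min (a - Real.exp (-(s2E ε γ l + 1) / ε))
      (Real.exp (-(sbE ε c l / 4) / ε) - b)), ?_, min_le_left _ _, ?_, ?_⟩
    · exact lt_min (by linarith) (lt_min (by linarith) (by linarith))
    · exact (min_le_right _ _).trans (min_le_left _ _)
    · exact (min_le_right _ _).trans (min_le_right _ _)
  obtain ⟨hi, hid⟩ := key hFLXV hN hg hS hL hv hv0 hv1 (trz_cont a b δ) (t₀ := a - δ)
    (t₁ := b + δ) (by linarith) (by linarith) (by linarith) (fun t ht => trz_zero hδ ht)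
  have hint : ∫ t in (a - δ)..(b + δ), trz a b δ t ≤ 1 := by
    calc ∫ t in (a - δ)..(b + δ), trz a b δ t ≤ ∫ _t in (a - δ)..(b + δ), (1 : ℝ) :=
          intervalIntegral.integral_mono_on (by linarith) ((trz_cont a b δ).intervalIntegrable _ _)
            (continuous_const.intervalIntegrable _ _) fun t _ => trz_le_one hδ t
      _ = (b + δ) - (a - δ) := by
          rw [intervalIntegral.integral_const, smul_eq_mul, mul_one]
      _ ≤ 1 := by
          have : 0 < a := by rw [ha]; exact Real.exp_pos _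
          linarith
  rw [← hJ] at hid
  -- integrals over `U`
  obtain ⟨U, hUdef⟩ : ∃ U : Set E3, U = AnnT T (1 / R) R := ⟨_, rfl⟩
  obtain ⟨K, hKdef⟩ : ∃ K : Set E3, K = cAnnT T (κ / l) (kE ε γ * l) := ⟨_, rfl⟩
  have hUo : IsOpen U := hUdef ▸ isOpen_AnnT T _ _
  have hUm : MeasurableSet U := hUo.measurableSet
  have hK : IsCompact K := hKdef ▸ isCompact_cAnnT T _ _
  have hKU : K ⊆ U := by rw [hKdef, hUdef]; exact sub_U hN
  have hH2 : H2On U u G M := by rw [hUdef]; exact hS.h2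
  rw [← hUdef] at hi hid
  have hgv : ∀ x, x ∉ K → grad v x = 0 := fun x hx =>
    grad_off hN hv0 hv1 (by rw [← hKdef]; exact hx)
  have hB0 : ∀ x, x ∉ K →
      len g x (G x) ^ (ε - 1) * ev (g x)⁻¹ (G x) (grad v x) * volDen g x = 0 := by
    intro x hx
    rw [hgv x hx, ev_zero]
    ring
  have hl00 : ∀ x, len g x (0 : Cov) = 0 := by
    intro x
    unfold len
    rw [ev_zero, Real.sqrt_zero]
  have hH0 : ∀ x, x ∉ K → len g x (grad v x) ^ (1 + ε) * volDen g x = 0 := by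
    intro x hx
    rw [hgv x hx, hl00, Real.zero_rpow (by linarith), zero_mul]
  have iB : IntegrableOn (fun x => len g x (G x) ^ (ε - 1) * ev (g x)⁻¹ (G x) (grad v x)
      * volDen g x) U :=
    IntegrableOn.of_forall_sdiff_eq_zero (int_pr hg hH2 hK hKU he he2 hv) hUm
      fun x hx => hB0 x hx.2
  have hcH : Continuous fun x => len g x (grad v x) ^ (1 + ε) * volDen g x :=
    ((cont_len_grad hg hv).rpow_const fun x => Or.inr (by linarith)).mul (cont_vol hg)
  have iH : IntegrableOn (fun x => len g x (grad v x) ^ (1 + ε) * volDen g x) U :=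
    IntegrableOn.of_forall_sdiff_eq_zero (hcH.continuousOn.integrableOn_compact hK) hUm
      fun x hx => hH0 x hx.2
  have hJU : J = ∫ x in U, len g x (G x) ^ (ε - 1) * ev (g x)⁻¹ (G x) (grad v x)
      * volDen g x := by
    rw [hJ]
    exact (setIntegral_eq_integral_of_forall_compl_eq_zero fun x hx =>
      hB0 x fun h => hx (hKU h)).symm
  have hEU : E = ∫ x in U, len g x (grad v x) ^ (1 + ε) * volDen g x := by
    rw [hE]
    exact (setIntegral_eq_integral_of_forall_compl_eq_zero fun x hx =>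
      hH0 x fun h => hx (hKU h)).symm
  have hmain : J ≤ ε / (1 + ε) * ((∫ t in (a - δ)..(b + δ), trz a b δ t) * J)
      + 1 / (1 + ε) * E := by
    rw [← hid, hEU, ← integral_const_mul, ← integral_const_mul,
      ← integral_add (hi.const_mul _) (iH.const_mul _)]
    nth_rewrite 1 [hJU]
    refine setIntegral_mono_on iB ((hi.const_mul _).add (iH.const_mul _)) hUm fun x hx => ?_
    change len g x (G x) ^ (ε - 1) * ev (g x)⁻¹ (G x) (grad v x) * volDen g x
      ≤ ε / (1 + ε) * (trz a b δ (u x) * len g x (G x) ^ (1 + ε) * volDen g x)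
        + 1 / (1 + ε) * (len g x (grad v x) ^ (1 + ε) * volDen g x)
    have hv0' := vol_nonneg g x
    have hlG := len_nonneg g x (G x)
    have hlv := len_nonneg g x (grad v x)
    by_cases hgx : grad v x = 0
    · rw [hgx, ev_zero, mul_zero, zero_mul]
      have := trz_nonneg a b δ (u x)
      have h1 : 0 ≤ len g x (G x) ^ (1 + ε) := Real.rpow_nonneg hlG _
      have h2 : 0 ≤ len g x (0 : Cov) ^ (1 + ε) := Real.rpow_nonneg (len_nonneg _ _ _) _
      positivity
    · rw [hUdef] at hx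
      have hu0 : 0 < u x := hL.pos x hx.1
      have hx4 : ‖x‖ ≤ 4 * l := by
        by_contra hcon
        refine hgx ?_
        push Not at hcon
        have h1 : v =ᶠ[𝓝 x] fun _ => (0 : ℝ) := by
          filter_upwards [(continuous_norm.tendsto x).eventually (lt_mem_nhds hcon)] with y hy
          exact hv0 y (le_of_lt hy)
        funext i
        change fderiv ℝ v x _ = 0
        rw [h1.fderiv_eq, fderiv_fun_const]
        rfl
      have hxp : ∀ p ∈ T, 1 / (4 * l) < ‖x - p‖ := by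
        intro p hp
        by_contra hcon
        exact hgx (grad_ball (by positivity) hv (hv1 p hp) (not_lt.1 hcon))
      have hw1 : sbE ε c l ≤ wOf ε u x := by
        by_contra hcon
        obtain ⟨p, hp, h1⟩ := hL.low x hx (le_of_lt (not_le.1 hcon))
        exact absurd h1 (not_le.2 (hxp p hp))
      have hw2 : wOf ε u x ≤ s2E ε γ l := by
        rcases hx4.lt_or_eq with h | h
        · exact (hL.mid x hx h).le
        · have h1 := hL.outer x (by linarith) (by linarith)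
          rw [h] at h1
          have h2 := (abs_le.1 h1).2
          unfold s2E
          linarith
      have h1 : trz a b δ (u x) = 1 := by
        refine trz_eq ?_ ?_
        · rw [ha]
          exact (w_le he hu0).1 hw2
        · rw [hb]
          exact (w_ge he hu0).1 hw1
      rw [h1, one_mul]
      have h2 := (le_abs_self _).trans (pr_le (hg.posDef x trivial) he (G x) (grad v x))
      have h3 := young hlG hlv he
      calc len g x (G x) ^ (ε - 1) * ev (g x)⁻¹ (G x) (grad v x) * volDen g x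
          ≤ (ε / (1 + ε) * len g x (G x) ^ (1 + ε)
            + 1 / (1 + ε) * len g x (grad v x) ^ (1 + ε)) * volDen g x :=
            mul_le_mul_of_nonneg_right (h2.trans h3) hv0'
        _ = _ := by ring
  have h5 : (∫ t in (a - δ)..(b + δ), trz a b δ t) * J ≤ 1 * J :=
    mul_le_mul_of_nonneg_right hint hJ0.le
  rw [one_mul] at h5
  have h6 : ε / (1 + ε) * ((∫ t in (a - δ)..(b + δ), trz a b δ t) * J) ≤ ε / (1 + ε) * J :=
    mul_le_mul_of_nonneg_left h5 (by positivity)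
  have h7 : J * (1 / (1 + ε)) ≤ E * (1 / (1 + ε)) := by
    have h8 : ε / (1 + ε) = 1 - 1 / (1 + ε) := by
      field_simp
      ring
    rw [h8] at h6 hmain
    linarith
  exact le_of_mul_le_mul_right h7 (by positivity)

theorem exp_rpow {ε s : ℝ} (he : 0 < ε) : Real.exp (-s / ε) ^ (-ε) = Real.exp s := by
  rw [← Real.exp_mul]
  congr 1
  field_simp

/-- The weight. -/
noncomputable def wt (ε a b δ t : ℝ) : ℝ :=
  ε ^ (1 + ε) * (max t (a / 2)) ^ (-(1 + ε)) * trz a b δ t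

theorem wt_cont {ε a b δ : ℝ} (ha : 0 < a) : Continuous (wt ε a b δ) := by
  unfold wt
  refine (continuous_const.mul (Continuous.rpow_const (by fun_prop) fun x => Or.inl ?_)).mul
    (trz_cont a b δ)
  have : a / 2 ≤ max x (a / 2) := le_max_right _ _
  have h2 : 0 < a / 2 := by positivity
  linarith

theorem wt_int {ε a b δ : ℝ} (he : 0 < ε) (he1 : ε ≤ 1 / 2) (ha : 0 < a) (hab : a ≤ b)
    (hδ : 0 < δ) (hδa : δ ≤ a / 2) :
    ∫ t in (a - δ)..(b + δ), wt ε a b δ t ≤ (a - δ) ^ (-ε) - (b + δ) ^ (-ε) := by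
  have hle : a - δ ≤ b + δ := by linarith
  have h0 : 0 < a - δ := by linarith
  have hni : (0 : ℝ) ∉ Set.uIcc (a - δ) (b + δ) := by
    rw [Set.uIcc_of_le hle]
    intro h
    linarith [h.1]
  have hii : IntervalIntegrable (fun t : ℝ => ε ^ (1 + ε) * t ^ (-(1 + ε))) volume
      (a - δ) (b + δ) :=
    (intervalIntegral.intervalIntegrable_rpow (Or.inr hni)).const_mul _
  have h1 : ∫ t in (a - δ)..(b + δ), wt ε a b δ t ≤
      ∫ t in (a - δ)..(b + δ), ε ^ (1 + ε) * t ^ (-(1 + ε)) := by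
    refine intervalIntegral.integral_mono_on hle ((wt_cont ha).intervalIntegrable _ _) hii
      fun t ht => ?_
    have ht1 : a / 2 ≤ t := by linarith [ht.1]
    have ht0 : 0 < t := by linarith
    rw [wt, max_eq_left ht1]
    refine mul_le_of_le_one_right ?_ (trz_le_one hδ t)
    have := Real.rpow_nonneg ht0.le (-(1 + ε))
    have := Real.rpow_nonneg he.le (1 + ε)
    positivity
  refine h1.trans ?_
  rw [intervalIntegral.integral_const_mul, integral_rpow (Or.inr ⟨by linarith, hni⟩)]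
  have e1 : -(1 + ε) + 1 = -ε := by ring
  rw [e1]
  have e2 : ε ^ (1 + ε) = ε * ε ^ ε := by
    rw [Real.rpow_add he, Real.rpow_one]
  have e3 : ε ^ (1 + ε) * (((b + δ) ^ (-ε) - (a - δ) ^ (-ε)) / (-ε))
      = ε ^ ε * ((a - δ) ^ (-ε) - (b + δ) ^ (-ε)) := by
    rw [e2]
    field_simp
    ring
  rw [e3]
  have h2 : ε ^ ε ≤ 1 := Real.rpow_le_one he.le (by linarith) he.le
  have h3 : (b + δ) ^ (-ε) ≤ (a - δ) ^ (-ε) :=
    Real.rpow_le_rpow_of_nonpos h0 hle (by linarith)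
  exact mul_le_of_le_one_left (by linarith) h2

theorem gOf_eq (ε : ℝ) (u : E3 → ℝ) (G : E3 → Cov) (x : E3) :
    gOf ε u G x = (-ε / u x) • G x := by
  funext i
  change -ε * (G x i / u x) = -ε / u x * G x i
  ring

theorem final (hFLXV : Stmt_FLXV) (hHOLA : PFlow.Stmt_HOLA) (hN : NumT ε c C₂ γ κ l R)
    (hg : MetricOn Set.univ g)
    (hS : SolutionT T ε (1 / R) R η g 0 u G M) (hL : LocatedT T ε c C₂ γ κ l R u)
    (hv : ContDiff ℝ ∞ v) (hv0 : ∀ x : E3, 4 * l ≤ ‖x‖ → v x = 0)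
    (hv1 : ∀ p ∈ T, ∀ x : E3, ‖x - p‖ ≤ 1 / (4 * l) → v x = 1) {K : Set E3}
    (hK : IsCompact K) (hKU : K ⊆ AnnT T (1 / R) R) {σ₁ σ₂ : ℝ} (hs1 : sbE ε c l / 4 < σ₁)
    (hs12 : σ₁ < σ₂) (hs2 : σ₂ ≤ s2E ε γ l) :
    ∫ x in K ∩ {x | σ₁ ≤ wOf ε u x ∧ wOf ε u x ≤ σ₂}, len g x (gOf ε u G x) * volDen g x
      ≤ ((∫ x, len g x (grad v x) ^ (1 + ε) * volDen g x) * (Real.exp σ₂ - Real.exp σ₁))
        ^ (1 / (1 + ε)) * (∫ x in K, volDen g x) ^ (ε / (1 + ε)) := by
  obtain ⟨hR0, hsb0, hsb, hk4, hkR, h4R, hRk, hk1, hlog⟩ := nums hN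
  have he := hN.eps_pos
  have he2 := hN.eps_le
  have hJE := flux_le hFLXV hN hg hS hL hv hv0 hv1
  obtain ⟨J, hJ⟩ : ∃ J : ℝ, J = ∫ x, len g x (G x) ^ (ε - 1) *
    ev (g x)⁻¹ (G x) (grad v x) * volDen g x := ⟨_, rfl⟩
  obtain ⟨E, hE⟩ : ∃ E : ℝ, E = ∫ x, len g x (grad v x) ^ (1 + ε) * volDen g x := ⟨_, rfl⟩
  rw [← hJ, ← hE] at hJE
  rw [← hE]
  obtain ⟨a, ha⟩ : ∃ a : ℝ, a = Real.exp (-σ₂ / ε) := ⟨_, rfl⟩
  obtain ⟨b, hb⟩ : ∃ b : ℝ, b = Real.exp (-σ₁ / ε) := ⟨_, rfl⟩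
  have ha0 : 0 < a := by rw [ha]; exact Real.exp_pos _
  have hb0 : 0 < b := by rw [hb]; exact Real.exp_pos _
  have hab : a < b := by
    rw [ha, hb]
    exact Real.exp_lt_exp.2 (div_lt_div_of_pos_right (by linarith) he)
  have ha1 : Real.exp (-(s2E ε γ l + 1) / ε) < a := by
    rw [ha]
    exact Real.exp_lt_exp.2 (div_lt_div_of_pos_right (by linarith) he)
  have hb2 : b < Real.exp (-(sbE ε c l / 4) / ε) := by
    rw [hb]
    exact Real.exp_lt_exp.2 (div_lt_div_of_pos_right (by linarith) he)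
  obtain ⟨L, hLdef⟩ : ∃ L : Set E3, L = {x | σ₁ ≤ wOf ε u x ∧ wOf ε u x ≤ σ₂} := ⟨_, rfl⟩
  rw [← hLdef]
  have hwm : Measurable (wOf ε u) := by
    unfold wOf
    exact (Real.measurable_log.comp hS.cont.measurable).const_mul _
  have hLm : MeasurableSet L := by
    rw [hLdef]
    exact (measurableSet_le measurable_const hwm).inter (measurableSet_le hwm measurable_const)
  have hTm : MeasurableSet (K ∩ L) := hK.measurableSet.inter hLm
  have hlen : ∀ x, len g x (gOf ε u G x) = |(-ε / u x)| * len g x (G x) := by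
    intro x
    rw [gOf_eq, PFlow.ABSFm.len_smul]
  have hpt : ∀ δ : ℝ, 0 < δ → ∀ x ∈ K ∩ L, len g x (gOf ε u G x) ^ (1 + ε) * volDen g x =
      wt ε a b δ (u x) * len g x (G x) ^ (1 + ε) * volDen g x := by
    intro δ hδ x hx
    have hxU := hKU hx.1
    have hu0 : 0 < u x := hL.pos x hxU.1
    have hx2 : σ₁ ≤ wOf ε u x ∧ wOf ε u x ≤ σ₂ := by
      have := hx.2
      rw [hLdef] at this
      exact this
    have h1 : a ≤ u x := by rw [ha]; exact (w_le he hu0).1 hx2.2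
    have h2 : u x ≤ b := by rw [hb]; exact (w_ge he hu0).1 hx2.1
    have h3 : |(-ε / u x)| = ε / u x := by
      rw [abs_div, abs_neg, abs_of_pos he, abs_of_pos hu0]
    rw [hlen, h3, Real.mul_rpow (by positivity) (len_nonneg _ _ _), wt, trz_eq h1 h2,
      max_eq_left (by linarith), Real.div_rpow he.le hu0.le, Real.rpow_neg hu0.le]
    ring
  have hnn : ∀ x, 0 ≤ len g x (gOf ε u G x) ^ (1 + ε) * volDen g x := fun x =>
    mul_nonneg (Real.rpow_nonneg (len_nonneg _ _ _) _) (vol_nonneg _ _)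
  obtain ⟨δ₀, hδ₀, hd1, hd2, hd3⟩ : ∃ δ : ℝ, 0 < δ ∧ δ ≤ a / 2 ∧
      δ ≤ a - Real.exp (-(s2E ε γ l + 1) / ε) ∧ δ ≤ Real.exp (-(sbE ε c l / 4) / ε) - b := by
    refine ⟨min (a / 2) (min (a - Real.exp (-(s2E ε γ l + 1) / ε))
      (Real.exp (-(sbE ε c l / 4) / ε) - b)), ?_, min_le_left _ _, ?_, ?_⟩
    · exact lt_min (by positivity) (lt_min (by linarith) (by linarith))
    · exact (min_le_right _ _).trans (min_le_left _ _)
    · exact (min_le_right _ _).trans (min_le_right _ _)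
  have hkey : ∀ δ : ℝ, 0 < δ → δ ≤ δ₀ →
      IntegrableOn (fun x => len g x (gOf ε u G x) ^ (1 + ε) * volDen g x) (K ∩ L) ∧
      ∫ x in K ∩ L, len g x (gOf ε u G x) ^ (1 + ε) * volDen g x
        ≤ E * ((a - δ) ^ (-ε) - (b + δ) ^ (-ε)) := by
    intro δ hδ hδ'
    obtain ⟨hi, hid⟩ := key hFLXV hN hg hS hL hv hv0 hv1 (wt_cont (ε := ε) (b := b) (δ := δ) ha0)
      (t₀ := a - δ) (t₁ := b + δ) (by linarith) (by linarith) (by linarith)
      (fun t ht => by rw [wt, trz_zero hδ ht, mul_zero])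
    rw [← hJ] at hid
    have hw0 : ∀ t, 0 ≤ wt ε a b δ t := fun t => by
      have h1 : 0 ≤ max t (a / 2) := le_max_of_le_right (by positivity)
      exact mul_nonneg (mul_nonneg (Real.rpow_nonneg he.le _) (Real.rpow_nonneg h1 _))
        (trz_nonneg _ _ _ _)
    have hsub : K ∩ L ⊆ AnnT T (1 / R) R := fun x hx => hKU hx.1
    have hnn2 : ∀ x, 0 ≤ wt ε a b δ (u x) * len g x (G x) ^ (1 + ε) * volDen g x := fun x =>
      mul_nonneg (mul_nonneg (hw0 _) (Real.rpow_nonneg (len_nonneg _ _ _) _)) (vol_nonneg _ _)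
    refine ⟨(hi.mono_set hsub).congr_fun (fun x hx => (hpt δ hδ x hx).symm) hTm, ?_⟩
    have hI0 : 0 ≤ ∫ t in (a - δ)..(b + δ), wt ε a b δ t :=
      intervalIntegral.integral_nonneg (by linarith) fun t _ => hw0 t
    have hE0 : 0 ≤ E := by
      rw [hE]
      exact integral_nonneg fun x =>
        mul_nonneg (Real.rpow_nonneg (len_nonneg _ _ _) _) (vol_nonneg _ _)
    calc ∫ x in K ∩ L, len g x (gOf ε u G x) ^ (1 + ε) * volDen g x
        = ∫ x in K ∩ L, wt ε a b δ (u x) * len g x (G x) ^ (1 + ε) * volDen g x :=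
          setIntegral_congr_fun hTm fun x hx => hpt δ hδ x hx
      _ ≤ ∫ x in AnnT T (1 / R) R, wt ε a b δ (u x) * len g x (G x) ^ (1 + ε) * volDen g x :=
          setIntegral_mono_set hi (Eventually.of_forall hnn2) (Eventually.of_forall hsub)
      _ = (∫ t in (a - δ)..(b + δ), wt ε a b δ t) * J := hid
      _ ≤ (∫ t in (a - δ)..(b + δ), wt ε a b δ t) * E := mul_le_mul_of_nonneg_left hJE hI0
      _ ≤ ((a - δ) ^ (-ε) - (b + δ) ^ (-ε)) * E :=
          mul_le_mul_of_nonneg_right (wt_int he he2 ha0 hab.le hδ (by linarith)) hE0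
      _ = _ := mul_comm _ _
  have hI : ∫ x in K ∩ L, len g x (gOf ε u G x) ^ (1 + ε) * volDen g x
      ≤ E * (Real.exp σ₂ - Real.exp σ₁) := by
    have hlim : Tendsto (fun δ : ℝ => E * ((a - δ) ^ (-ε) - (b + δ) ^ (-ε))) (𝓝[>] 0)
        (𝓝 (E * (Real.exp σ₂ - Real.exp σ₁))) := by
      have hc1 : ContinuousAt (fun δ : ℝ => (a - δ) ^ (-ε)) 0 :=
        ContinuousAt.rpow_const (by fun_prop) (Or.inl (by rw [sub_zero]; exact ha0.ne'))
      have hc2 : ContinuousAt (fun δ : ℝ => (b + δ) ^ (-ε)) 0 :=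
        ContinuousAt.rpow_const (by fun_prop) (Or.inl (by rw [add_zero]; exact hb0.ne'))
      have h1 := (continuousAt_const (y := E)).mul (hc1.sub hc2)
      have h2 : E * ((a - 0) ^ (-ε) - (b + 0) ^ (-ε)) = E * (Real.exp σ₂ - Real.exp σ₁) := by
        rw [sub_zero, add_zero, ha, hb, exp_rpow he, exp_rpow he]
      rw [← h2]
      exact h1.tendsto.mono_left nhdsWithin_le_nhds
    refine ge_of_tendsto hlim ?_
    filter_upwards [Ioo_mem_nhdsGT hδ₀] with δ hδ
    exact (hkey δ hδ.1 hδ.2.le).2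
  have hV : (∫ x in K ∩ L, volDen g x) ≤ ∫ x in K, volDen g x :=
    setIntegral_mono_set ((cont_vol hg).continuousOn.integrableOn_compact hK)
      (Eventually.of_forall (vol_nonneg g)) (Eventually.of_forall fun x hx => hx.1)
  have hX : AEStronglyMeasurable (fun x => len g x (gOf ε u G x)) (volume.restrict (K ∩ L)) := by
    have h1 : AEMeasurable (fun x => len g x (G x)) (volume.restrict (K ∩ L)) :=
      (am_len hg hS.h2 hK hKU).mono_measure (Measure.restrict_mono Set.inter_subset_left le_rfl)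
    have h2 : Measurable fun x => |(-ε / u x)| := (hS.cont.measurable.const_div (-ε)).abs
    have h3 : (fun x => len g x (gOf ε u G x)) = fun x => |(-ε / u x)| * len g x (G x) :=
      funext hlen
    rw [h3]
    exact (h2.aemeasurable.mul h1).aestronglyMeasurable
  exact (hHOLA ε (K ∩ L) (volDen g) (fun x => len g x (gOf ε u G x)) _ _ he (by linarith) hTm
    (vol_nonneg g) (fun x => len_nonneg _ _ _)
    (((cont_vol hg).continuousOn.integrableOn_compact hK).mono_set Set.inter_subset_left)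
    (hkey δ₀ hδ₀ le_rfl).1 hX hI hV).2

end Main

end FLVaux

/-- **FLV.** -/
theorem t_FLV (hFLXV : Stmt_FLXV) (hHOLA : PFlow.Stmt_HOLA) : Stmt_FLV := by
  intro T ε c C₂ γ κ l R η g u G M v hN _ hg hS hL hv hv0 hv1 K hK hKU σ₁ σ₂ h1 h2 h3
  exact FLVaux.final hFLXV hHOLA hN hg hS hL hv hv0 hv1 hK hKU h1 h2 h3

end Pool.Agent.PFU
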