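import Pool.Agent.PFU.StmtsE
import Pool.Agent.PFlow.E.FLXA

/-!
# FLXAT: monotonicity of the flux (several ends)
-/

set_option autoImplicit false

open MeasureTheory Filter Topology
open scoped ContDiff ENNReal

namespace Pool.Agent.PFU

open Pool.Agent.PenroseSph Pool.Agent.PFlow Pool.Agent.PFT

namespace MFLXAT

open Pool.Agent.PFlow.FLXAaux (rpow_le_one_add bump_int bump_cont bump_zero bump_one bump_le)

variable {ε : ℝ} {Ω : Set E3} {vol w X Φ D S : E3 → ℝ} {sb s₂ sM B₁ B₂ c₀ K₀ : ℝ}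

lemma int_theta (hA : AbsT ε Ω vol w X Φ D S sb s₂ sM B₁ B₂ c₀ K₀) (h0 : 0 < ε) (h1 : ε ≤ 1 / 2)
    {ϑ : ℝ → ℝ} (hϑ : Continuous ϑ) {s s' : ℝ} (hs : sb / 4 < s) (hss : s < s') (hs' : s' < sM)
    (hsupp : ∀ t, t < s ∨ s' < t → ϑ t = 0) :
    IntegrableOn (fun x => ϑ (w x) * (Real.exp (-w x) * X x ^ (1 + ε)) * vol x) Ω := by
  have hT : MeasurableSet {x : E3 | s ≤ w x ∧ w x ≤ s'} :=
    hA.meas_w measurableSet_Icc
  have hz : ∀ x ∈ Ω \ (Ω ∩ {x : E3 | s ≤ w x ∧ w x ≤ s'}),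
      ϑ (w x) * (Real.exp (-w x) * X x ^ (1 + ε)) * vol x = 0 := by
    rintro x ⟨hx, hx'⟩
    have h2 : w x < s ∨ s' < w x := by
      by_contra hcon
      push Not at hcon
      exact hx' ⟨hx, hcon⟩
    rw [hsupp _ h2, zero_mul, zero_mul]
  refine IntegrableOn.of_forall_sdiff_eq_zero ?_ hA.measOmega hz
  obtain ⟨K, hK⟩ := (isCompact_Icc (a := s) (b := s')).exists_bound_of_continuousOn
    (f := fun t => ϑ t * Real.exp (-t)) (by fun_prop)
  have hv := hA.int_vol s s' hs hss hs'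
  have hX := hA.int_X s s' hs hss hs'
  have hg : IntegrableOn (fun x => K * (vol x + X x ^ 3 * vol x))
      (Ω ∩ {x : E3 | s ≤ w x ∧ w x ≤ s'}) := (hv.add hX).const_mul K
  have hXm : AEStronglyMeasurable X (volume.restrict (Ω ∩ {x : E3 | s ≤ w x ∧ w x ≤ s'})) :=
    hA.meas_X.mono_measure (Measure.restrict_mono Set.inter_subset_left le_rfl)
  have hXr : AEStronglyMeasurable (fun x => X x ^ (1 + ε))
      (volume.restrict (Ω ∩ {x : E3 | s ≤ w x ∧ w x ≤ s'})) :=
    (hXm.aemeasurable.pow_const _).aestronglyMeasurable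
  refine Integrable.mono' hg ?_ ?_
  · refine AEStronglyMeasurable.mul (AEStronglyMeasurable.mul ?_ (AEStronglyMeasurable.mul ?_ hXr))
      hv.aestronglyMeasurable
    · exact (hϑ.measurable.comp hA.meas_w).aestronglyMeasurable
    · exact (Real.measurable_exp.comp hA.meas_w.neg).aestronglyMeasurable
  · refine (ae_restrict_iff' (hA.measOmega.inter hT)).mpr (Eventually.of_forall ?_)
    rintro x ⟨_, hx⟩
    have k1 := hK (w x) hx
    have k2 := rpow_le_one_add h0 h1 (hA.X_nonneg x)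
    have k3 : 0 ≤ X x ^ (1 + ε) := Real.rpow_nonneg (hA.X_nonneg x) _
    have k4 := hA.vol_nonneg x
    have k5 : 0 ≤ K := (norm_nonneg _).trans k1
    calc ‖ϑ (w x) * (Real.exp (-w x) * X x ^ (1 + ε)) * vol x‖
        = ‖ϑ (w x) * Real.exp (-w x)‖ * (X x ^ (1 + ε) * vol x) := by
          rw [← mul_assoc, mul_assoc (ϑ (w x) * Real.exp (-w x)), norm_mul,
            Real.norm_of_nonneg (mul_nonneg k3 k4)]
      _ ≤ K * ((1 + X x ^ 3) * vol x) :=
          mul_le_mul k1 (mul_le_mul_of_nonneg_right k2 k4) (mul_nonneg k3 k4) k5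
      _ = K * (vol x + X x ^ 3 * vol x) := by ring

lemma flux_theta (hA : AbsT ε Ω vol w X Φ D S sb s₂ sM B₁ B₂ c₀ K₀) (h0 : 0 < ε) (h1 : ε ≤ 1 / 2)
    {β : ℝ → ℝ} (hβ : IsBump β) (hM : s₂ + 1 < sM) {θ : ℝ → ℝ} (hθ : Continuous θ)
    (hθ0 : ∀ s, 0 ≤ θ s) {p q : ℝ} (hp : sb / 4 < p) (hpq : p < q) (hq : q ≤ s₂ + 1 / 4)
    (hsupp : ∀ s, s ≤ p ∨ q ≤ s → θ s = 0) :
    ∫ x in Ω, θ (w x) * (Real.exp (-w x) * X x ^ (1 + ε)) * vol x ≤
      (∫ s in p..q, θ s) * jInf ε β Ω vol w X s₂ := by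
  set c : ℝ := ∫ s in p..q, θ s with hc
  have hc0 : 0 ≤ c := intervalIntegral.integral_nonneg hpq.le fun s _ => hθ0 s
  have hβc := bump_cont hβ s₂
  have hp4 : p ≤ s₂ + 1 / 4 := hpq.le.trans hq
  set Ψ : ℝ → ℝ := fun s => (∫ t in p..s, θ t) - c * ∫ t in p..s, β (t - s₂) with hΨ
  have hd : ∀ s, HasDerivAt Ψ (θ s - c * β (s - s₂)) s := by
    intro s
    refine HasDerivAt.sub ?_ (HasDerivAt.const_mul c ?_)
    · exact (hθ.integral_hasStrictDerivAt p s).hasDerivAt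
    · exact (hβc.integral_hasStrictDerivAt p s).hasDerivAt
  have hder : deriv Ψ = fun s => θ s - c * β (s - s₂) := funext fun s => (hd s).deriv
  have hC1 : ContDiff ℝ 1 Ψ := by
    rw [contDiff_one_iff_deriv]
    refine ⟨fun s => (hd s).differentiableAt, ?_⟩
    rw [hder]
    exact hθ.sub (continuous_const.mul hβc)
  have hθlow : ∀ s, s ≤ p → ∫ t in p..s, θ t = 0 := by
    intro s hs
    have : Set.EqOn θ (fun _ => (0 : ℝ)) (Set.uIcc p s) := by
      intro t ht
      have h2 : t ≤ max p s := ht.2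
      rw [max_eq_left hs] at h2
      exact hsupp t (Or.inl h2)
    rw [intervalIntegral.integral_congr this, intervalIntegral.integral_zero]
  have hθup : ∀ s, q ≤ s → ∫ t in p..s, θ t = c := by
    intro s hs
    have h2 := intervalIntegral.integral_add_adjacent_intervals
      (hθ.intervalIntegrable p q) (hθ.intervalIntegrable (μ := volume) q s)
    have : Set.EqOn θ (fun _ => (0 : ℝ)) (Set.uIcc q s) := by
      intro t ht
      have h3 : min q s ≤ t := ht.1
      rw [min_eq_left hs] at h3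
      exact hsupp t (Or.inr h3)
    rw [intervalIntegral.integral_congr this, intervalIntegral.integral_zero, add_zero] at h2
    exact h2.symm
  have hΨlow : ∀ s, s ≤ p → Ψ s = 0 := by
    intro s hs
    simp only [hΨ]
    rw [hθlow s hs, bump_zero hβ hp4 (hs.trans hp4)]
    ring
  have hΨup : ∀ s, s₂ + 3 / 4 ≤ s → Ψ s = 0 := by
    intro s hs
    simp only [hΨ]
    rw [hθup s (by linarith), bump_one hβ hp4 hs]
    ring
  have hΨ0 : ∀ s, 0 ≤ Ψ s := by
    intro s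
    rcases le_total s (s₂ + 1 / 4) with h | h
    · rcases le_total s p with h2 | h2
      · exact (hΨlow s h2).ge
      · simp only [hΨ]
        rw [bump_zero hβ hp4 h, mul_zero, sub_zero]
        exact intervalIntegral.integral_nonneg h2 fun t _ => hθ0 t
    · simp only [hΨ]
      rw [hθup s (hq.trans h)]
      have := mul_le_mul_of_nonneg_left (bump_le hβ hp4 (s := s)) hc0
      linarith
  have hsub : Function.support Ψ ⊆ Set.Icc p (s₂ + 3 / 4) := by
    intro s hs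
    constructor
    · by_contra hcon
      exact hs (hΨlow s (le_of_not_ge hcon))
    · by_contra hcon
      exact hs (hΨup s (le_of_not_ge hcon))
  have htsub : tsupport Ψ ⊆ Set.Icc p (s₂ + 3 / 4) := closure_minimal hsub isClosed_Icc
  have hcpt : HasCompactSupport Ψ :=
    isCompact_Icc.of_isClosed_subset (isClosed_tsupport Ψ) htsub
  have hts : tsupport Ψ ⊆ Set.Ioo (sb / 4) sM := htsub.trans fun s hs =>
    ⟨hp.trans_le hs.1, hs.2.trans_lt (by linarith)⟩
  have hflux := hA.flux Ψ hC1 hΨ0 hcpt hts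
  have i1 := int_theta hA h0 h1 hθ hp hpq (by linarith) (fun t ht => hsupp t (ht.imp le_of_lt le_of_lt))
  have i2 := int_theta hA h0 h1 hβc (s := (s₂ + 1 / 4)) (s' := s₂ + 3 / 4) (by linarith)
    (by linarith) (by linarith) (fun t ht => hβ.supp _ (ht.imp (fun h => by linarith)
      (fun h => by linarith)))
  have e1 : ∫ x in Ω, deriv Ψ (w x) * (Real.exp (-w x) * X x ^ (1 + ε)) * vol x =
      (∫ x in Ω, θ (w x) * (Real.exp (-w x) * X x ^ (1 + ε)) * vol x) -
        c * jInf ε β Ω vol w X s₂ := by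
    unfold jInf
    rw [← integral_const_mul, ← integral_sub i1 (i2.const_mul c)]
    refine integral_congr_ae (Eventually.of_forall fun x => ?_)
    simp only [hder]
    ring
  rw [e1] at hflux
  linarith

end MFLXAT

open MFLXAT in
open Pool.Agent.PFlow.FLXAaux (trap trap_cont trap_nonneg trap_le trap_eq trap_zero) in
/-- FLXAT: monotonicity of the flux. -/
theorem t_FLXAT : Stmt_FLXAT := by
  intro ε β h0 h1 hβ Ω vol w X Φ D S sb s₂ sM B₁ B₂ c₀ K₀ hA hsb hs₂ hM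
  have hJ : 0 ≤ jInf ε β Ω vol w X s₂ := by
    unfold jInf
    refine integral_nonneg fun x => ?_
    have k1 := hβ.nonneg (w x - s₂)
    have k2 : 0 ≤ X x ^ (1 + ε) := Real.rpow_nonneg (hA.X_nonneg x) _
    have k3 := hA.vol_nonneg x
    have k4 := (Real.exp_pos (-w x)).le
    positivity
  refine ⟨hJ, ?_⟩
  intro σ₁ σ₂ hσ₁ hσ hσ₂
  have hT : MeasurableSet {x : E3 | σ₁ ≤ w x ∧ w x ≤ σ₂} := hA.meas_w measurableSet_Icc
  have main : ∀ τ : ℝ, 0 < τ → τ ≤ 1 / 4 → sb / 4 < σ₁ - τ →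
      ∫ x in Ω ∩ {x | σ₁ ≤ w x ∧ w x ≤ σ₂}, X x ^ (1 + ε) * vol x
        ≤ jInf ε β Ω vol w X s₂ * (Real.exp (σ₂ + τ) - Real.exp (σ₁ - τ)) := by
    intro τ hτ hτ4 hτ1
    have hpq : σ₁ - τ < σ₂ + τ := by linarith
    have k1 := flux_theta hA h0 h1 hβ hM (trap_cont σ₁ σ₂ τ) (trap_nonneg σ₁ σ₂ τ) hτ1 hpq
      (by linarith) (fun s hs => trap_zero hτ hs)
    have k2 := int_theta hA h0 h1 (trap_cont σ₁ σ₂ τ) hτ1 hpq (by linarith)
      (fun t ht => trap_zero hτ (ht.imp le_of_lt le_of_lt))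
    have k3 : ∫ s in (σ₁ - τ)..(σ₂ + τ), trap σ₁ σ₂ τ s ≤
        Real.exp (σ₂ + τ) - Real.exp (σ₁ - τ) := by
      rw [← integral_exp]
      exact intervalIntegral.integral_mono_on hpq.le
        ((trap_cont σ₁ σ₂ τ).intervalIntegrable _ _)
        (Real.continuous_exp.intervalIntegrable _ _) (fun s _ => trap_le hτ s)
    calc ∫ x in Ω ∩ {x | σ₁ ≤ w x ∧ w x ≤ σ₂}, X x ^ (1 + ε) * vol x
        = ∫ x in Ω ∩ {x | σ₁ ≤ w x ∧ w x ≤ σ₂},
            trap σ₁ σ₂ τ (w x) * (Real.exp (-w x) * X x ^ (1 + ε)) * vol x := by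
          refine setIntegral_congr_fun (hA.measOmega.inter hT) ?_
          rintro x ⟨_, hx⟩
          simp only
          rw [trap_eq hx.1 hx.2, ← mul_assoc, ← Real.exp_add, add_neg_cancel, Real.exp_zero,
            one_mul]
      _ ≤ ∫ x in Ω, trap σ₁ σ₂ τ (w x) * (Real.exp (-w x) * X x ^ (1 + ε)) * vol x := by
          refine setIntegral_mono_set k2 (Eventually.of_forall fun x => ?_)
            (Eventually.of_forall (Set.inter_subset_left))
          have j1 := trap_nonneg σ₁ σ₂ τ (w x)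
          have j2 : 0 ≤ X x ^ (1 + ε) := Real.rpow_nonneg (hA.X_nonneg x) _
          have j3 := hA.vol_nonneg x
          have j4 := (Real.exp_pos (-w x)).le
          show (0 : ℝ) ≤ _
          positivity
      _ ≤ (∫ s in (σ₁ - τ)..(σ₂ + τ), trap σ₁ σ₂ τ s) * jInf ε β Ω vol w X s₂ := k1
      _ ≤ (Real.exp (σ₂ + τ) - Real.exp (σ₁ - τ)) * jInf ε β Ω vol w X s₂ :=
          mul_le_mul_of_nonneg_right k3 hJ
      _ = _ := mul_comm _ _
  have hlim : Tendsto (fun τ : ℝ => jInf ε β Ω vol w X s₂ *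
      (Real.exp (σ₂ + τ) - Real.exp (σ₁ - τ))) (𝓝[>] 0)
      (𝓝 (jInf ε β Ω vol w X s₂ * (Real.exp σ₂ - Real.exp σ₁))) := by
    have hc : Continuous (fun τ : ℝ => jInf ε β Ω vol w X s₂ *
      (Real.exp (σ₂ + τ) - Real.exp (σ₁ - τ))) := by fun_prop
    have := hc.tendsto 0
    rw [add_zero, sub_zero] at this
    exact this.mono_left nhdsWithin_le_nhds
  refine ge_of_tendsto hlim ?_
  have hpos : 0 < min (1 / 4) (σ₁ - sb / 4) := lt_min (by norm_num) (by linarith)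
  filter_upwards [Ioo_mem_nhdsGT hpos] with τ hτ
  exact main τ hτ.1 (hτ.2.le.trans (min_le_left _ _))
    (by linarith [hτ.2.trans_le (min_le_right (1 / 4) (σ₁ - sb / 4))])

end Pool.Agent.PFU
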