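import Pool.Agent.PFU.StmtsE
import Pool.Agent.PFlow.E.FLX

/-!
# FLXU: the flux identity tested with a function of `u`, for a general open set
-/

open MeasureTheory Filter Topology
open scoped ContDiff ENNReal

namespace Pool.Agent.PFU

open Pool.Agent.PenroseSph Pool.Agent.PFlow Pool.Agent.PFT

theorem t_FLXU : Stmt_FLXU := by
  intro ε U g h u G M hε0 hε1 hAo hg hh hH2 hweak ψ K hψ hK hKA hsupp
  obtain ⟨ζ, hζ, hζc, hζs, hζ1⟩ := MIB.exists_cutoff hK hAo hKA
  obtain ⟨K1, hK1def⟩ : ∃ K1 : Set E3, K1 = tsupport ζ := ⟨_, rfl⟩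
  have hK1 : IsCompact K1 := hK1def ▸ hζc
  have hK1A : K1 ⊆ U := hK1def ▸ hζs
  have hK1m : MeasurableSet K1 := hK1.measurableSet
  have hζK : ∀ x ∈ K, ζ x = 1 := fun x hx =>
    (hζ1.filter_mono (nhds_le_nhdsSet hx)).self_of_nhds
  have hζpd : ∀ x ∈ K, ∀ j, pd j ζ x = 0 := by
    intro x hx j
    have h1 : ζ =ᶠ[𝓝 x] fun _ => (1 : ℝ) := hζ1.filter_mono (nhds_le_nhdsSet hx)
    unfold pd
    rw [h1.fderiv_eq, fderiv_fun_const]
    rfl
  have hKK1 : K ⊆ K1 := by
    intro x hx
    rw [hK1def]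
    apply subset_tsupport
    rw [Function.mem_support, hζK x hx]
    exact one_ne_zero
  have hζoff : ∀ x, x ∉ K1 → ζ x = 0 := fun x hx =>
    image_eq_zero_of_notMem_tsupport (by rw [← hK1def]; exact hx)
  have hζoff' : ∀ x, x ∉ K1 → ∀ j, pd j ζ x = 0 := by
    intro x hx j
    have h1 : x ∉ tsupport ζ := by
      rw [← hK1def]
      exact hx
    unfold pd
    rw [fderiv_of_notMem_tsupport ℝ h1]
    rfl
  -- the bounds
  obtain ⟨C, hC, hCx⟩ := CT Set.univ g h isOpen_univ hg hh K1 hK1 (Set.subset_univ _)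
  have hC0 : 0 < C := by linarith
  have hfin : IsFiniteMeasure (volume.restrict K1) :=
    ⟨by rw [Measure.restrict_apply_univ]; exact hK1.measure_lt_top⟩
  have hGm : ∀ i, AEMeasurable (fun x => G x i) (volume.restrict K1) := fun i =>
    (hH2.memG K1 hK1 hK1A i).1.aemeasurable
  have tr : ∀ {f : E3 → ℝ}, ContinuousOn f Set.univ → AEMeasurable f (volume.restrict K1) :=
    fun {f} hf => (hf.mono (Set.subset_univ _)).aemeasurable hK1m
  have hPm : ∀ i j, AEMeasurable (fun x => (g x)⁻¹ i j) (volume.restrict K1) :=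
    fun i j => tr (MAP.contOn_inv hg i j)
  have hHm : ∀ i j, AEMeasurable (fun x => h x i j) (volume.restrict K1) :=
    fun i j => tr (hh.smooth i j).continuousOn
  have hVm : AEMeasurable (fun x => volDen g x) (volume.restrict K1) := by
    have h1 : ContinuousOn (fun x => volDen g x) Set.univ := by
      unfold volDen
      exact ((Continuous.matrix_det continuous_id).comp_continuousOn
        (MAP.contOn_entry hg.smooth)).sqrt
    exact tr h1
  have hLm : AEMeasurable (fun x => len g x (G x)) (volume.restrict K1) := by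
    unfold len
    exact (MAP.am_ev hPm hGm hGm).sqrt
  have hRm : ∀ i, AEMeasurable (fun x => raise g x (G x) i) (volume.restrict K1) := by
    intro i
    unfold raise
    exact MAP.am_sum fun j => (hPm i j).mul (hGm j)
  have hNm : ∀ i, AEMeasurable (fun x => nrm g x (G x) i) (volume.restrict K1) := by
    intro i
    unfold nrm
    exact (hRm i).div hLm
  have hBm : AEMeasurable (fun x => beps ε g x (G x) (h x)) (volume.restrict K1) := by
    unfold beps bnn trg
    exact (MAP.am_sum fun i => MAP.am_sum fun j => (hPm i j).mul (hHm i j)).sub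
      ((MAP.am_ev hHm hNm hNm).const_mul _)
  have hram : ∀ j, AEMeasurable (fun x => MFLX.ra g x (G x) j) (volume.restrict K1) := by
    intro j
    unfold MFLX.ra
    exact MAP.am_sum fun i => (hPm i j).mul (hGm i)
  have hlen0 : ∀ x, 0 ≤ len g x (G x) := fun x => Real.sqrt_nonneg _
  have hvol0 : ∀ x, 0 ≤ volDen g x := fun x => Real.sqrt_nonneg _
  -- the length is square integrable
  have hLL : MemLp (fun x => 1 + len g x (G x)) 2 (volume.restrict K1) := by
    have h0 : ∀ i, MemLp (fun x => |G x i|) 2 (volume.restrict K1) := fun i =>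
      (hH2.memG K1 hK1 hK1A i).abs
    have h00 : MemLp (fun x => ∑ i, |G x i|) 2 (volume.restrict K1) :=
      memLp_finsetSum Finset.univ fun i _ => h0 i
    have h01 : MemLp (fun x => C * ∑ i, |G x i|) 2 (volume.restrict K1) := h00.const_mul C
    have h02 : MemLp (fun _ : E3 => (1 : ℝ)) 2 (volume.restrict K1) := memLp_const 1
    have h1 : MemLp (fun x => 1 + C * ∑ i, |G x i|) 2 (volume.restrict K1) := h02.add h01
    have hm : AEStronglyMeasurable (fun x => 1 + len g x (G x)) (volume.restrict K1) :=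
      (hLm.const_add 1).aestronglyMeasurable
    refine h1.mono' hm ?_
    rw [ae_restrict_iff' hK1m]
    refine ae_of_all _ fun x hx => ?_
    rw [Real.norm_eq_abs, abs_of_nonneg (by linarith [hlen0 x])]
    have h2 := MFLX.len_le_vn hC (hCx x hx).1 (G x)
    have h3 := MFLX.vn_le_sum (G x)
    have h4 : C * vn (G x) ≤ C * ∑ i, |G x i| := mul_le_mul_of_nonneg_left h3 hC0.le
    linarith
  -- the weights
  obtain ⟨Z, hZdef⟩ : ∃ Z : Fin 3 → E3 → ℝ, Z = fun j x =>
      len g x (G x) ^ (ε - 1) * MFLX.ra g x (G x) j * volDen g x := ⟨_, rfl⟩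
  obtain ⟨R, hRdef⟩ : ∃ R : E3 → ℝ, R = fun x =>
      len g x (G x) ^ ε * beps ε g x (G x) (h x) * volDen g x := ⟨_, rfl⟩
  have hZm : ∀ j, AEMeasurable (Z j) (volume.restrict K1) := by
    intro j
    rw [hZdef]
    exact ((hLm.pow_const _).mul (hram j)).mul hVm
  have hZ : ∀ j, MemLp (Z j) 2 (volume.restrict K1) := by
    intro j
    refine (hLL.const_mul (3 * (C * C) * C)).mono' (hZm j).aestronglyMeasurable ?_
    rw [ae_restrict_iff' hK1m]
    refine ae_of_all _ fun x hx => ?_
    obtain ⟨h1, -, -, -, -, -, -, -, h2, -, h3⟩ := hCx x hx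
    rw [hZdef, Real.norm_eq_abs, abs_mul, abs_mul, abs_of_nonneg (hvol0 x),
      abs_of_nonneg (Real.rpow_nonneg (hlen0 x) _)]
    have h4 := MFLX.ra_le hC h1 h2 (G x) j
    have h5 := MFLX.rpow_sub_mul (hlen0 x) hε0
    have h6 := MFLX.rpow_le_one_add (hlen0 x) hε0 hε1
    have h7 : len g x (G x) ^ (ε - 1) * |MFLX.ra g x (G x) j| ≤
        3 * (C * C) * (1 + len g x (G x)) := by
      calc len g x (G x) ^ (ε - 1) * |MFLX.ra g x (G x) j|
          ≤ len g x (G x) ^ (ε - 1) * (3 * (C * (C * len g x (G x)))) :=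
            mul_le_mul_of_nonneg_left h4 (Real.rpow_nonneg (hlen0 x) _)
        _ = 3 * (C * C) * (len g x (G x) ^ (ε - 1) * len g x (G x)) := by ring
        _ ≤ 3 * (C * C) * (1 + len g x (G x)) := by
            rw [h5]
            exact mul_le_mul_of_nonneg_left h6 (by positivity)
    calc len g x (G x) ^ (ε - 1) * |MFLX.ra g x (G x) j| * volDen g x
        ≤ 3 * (C * C) * (1 + len g x (G x)) * C :=
          mul_le_mul h7 h3 (hvol0 x) (by have := hlen0 x; positivity)
      _ = 3 * (C * C) * C * (1 + len g x (G x)) := by ring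
  have hR : Integrable R (volume.restrict K1) := by
    obtain ⟨C', hC'⟩ : ∃ C' : ℝ, C' = 3 * (3 * (C * C)) +
      3 * (3 * (C * (3 * (C * C)) * (3 * (C * C)))) := ⟨_, rfl⟩
    have hC'0 : 0 ≤ C' := by
      rw [hC']
      positivity
    refine ((hLL.integrable (by norm_num)).const_mul (C' * C)).mono' ?_ ?_
    · rw [hRdef]
      exact (((hLm.pow_const _).mul hBm).mul hVm).aestronglyMeasurable
    · rw [ae_restrict_iff' hK1m]
      refine ae_of_all _ fun x hx => ?_
      obtain ⟨h1, -, -, -, h1h, -, -, -, h2, -, h3⟩ := hCx x hx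
      rw [hRdef, Real.norm_eq_abs, abs_mul, abs_mul, abs_of_nonneg (hvol0 x),
        abs_of_nonneg (Real.rpow_nonneg (hlen0 x) _)]
      have h4 := MFLX.beps_le (h := h) hC h1 h2 hε0 hε1 h1h (G x)
      rw [← hC'] at h4
      have h6 := MFLX.rpow_le_one_add (hlen0 x) hε0 hε1
      calc len g x (G x) ^ ε * |beps ε g x (G x) (h x)| * volDen g x
          ≤ (1 + len g x (G x)) * C' * C :=
            mul_le_mul (mul_le_mul h6 h4 (abs_nonneg _) (by have := hlen0 x; positivity)) h3
              (hvol0 x) (by have := hlen0 x; positivity)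
        _ = C' * C * (1 + len g x (G x)) := by ring
  -- the approximation
  obtain ⟨v, hv, hvu, hvG, -⟩ := hH2.approx K1 hK1 hK1A
  have huc : ContinuousOn u K1 := hH2.cont.mono hK1A
  have hψc : Continuous ψ := hψ.continuous
  have hψ'c : Continuous (deriv ψ) := hψ.continuous_deriv (by simp)
  have hid : ∀ n, ∫ x in K1, ∑ j, (Z j x * (deriv ψ (v n x) * ζ x * pd j (v n) x)
      + Z j x * (ψ (v n x) * pd j ζ x)) = ∫ x in K1, R x * (ψ (v n x) * ζ x) := by
    intro n
    have h1 := hweak (fun x => ψ (v n x) * ζ x) ?_ ?_ ?_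
    · have h2 : ∫ x, len g x (G x) ^ (ε - 1) *
          ev (g x)⁻¹ (G x) (grad (fun x => ψ (v n x) * ζ x) x) * volDen g x =
          ∫ x in K1, ∑ j, (Z j x * (deriv ψ (v n x) * ζ x * pd j (v n) x)
            + Z j x * (ψ (v n x) * pd j ζ x)) := by
        rw [← setIntegral_eq_integral_of_forall_compl_eq_zero (s := K1)]
        · refine integral_congr_ae (ae_of_all _ fun x => ?_)
          change len g x (G x) ^ (ε - 1) *
            ev (g x)⁻¹ (G x) (grad (fun x => ψ (v n x) * ζ x) x) * volDen g x = _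
          rw [MFLX.ev_eq, Finset.mul_sum, Finset.sum_mul]
          refine Finset.sum_congr rfl fun j _ => ?_
          have h3 : grad (fun x => ψ (v n x) * ζ x) x j =
              deriv ψ (v n x) * ζ x * pd j (v n) x + ψ (v n x) * pd j ζ x :=
            MFLX.pd_chi hψ (hv n) hζ j x
          rw [h3, hZdef]
          ring
        · intro x hx
          rw [MFLX.ev_eq, Finset.sum_eq_zero, mul_zero, zero_mul]
          intro j _
          have h3 : grad (fun x => ψ (v n x) * ζ x) x j =
              deriv ψ (v n x) * ζ x * pd j (v n) x + ψ (v n x) * pd j ζ x :=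
            MFLX.pd_chi hψ (hv n) hζ j x
          rw [h3, hζoff x hx, hζoff' x hx j]
          ring
      have h3 : ∫ x, len g x (G x) ^ ε * beps ε g x (G x) (h x) * (ψ (v n x) * ζ x)
          * volDen g x = ∫ x in K1, R x * (ψ (v n x) * ζ x) := by
        rw [← setIntegral_eq_integral_of_forall_compl_eq_zero (s := K1)]
        · refine integral_congr_ae (ae_of_all _ fun x => ?_)
          change len g x (G x) ^ ε * beps ε g x (G x) (h x) * (ψ (v n x) * ζ x)
            * volDen g x = R x * (ψ (v n x) * ζ x)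
          rw [hRdef]
          ring
        · intro x hx
          rw [hζoff x hx]
          ring
      rw [← h2, ← h3]
      exact h1
    · exact (hψ.comp ((hv n).of_le (by exact_mod_cast le_top))).mul
        (hζ.of_le (by exact_mod_cast le_top))
    · exact hζc.mul_left
    · exact (tsupport_mul_subset_right).trans hζs
  -- bounded continuous coefficients
  have hcb : ∀ {c : E3 → ℝ}, ContinuousOn c K1 →
      AEStronglyMeasurable c (volume.restrict K1) ∧ ∃ B : ℝ,
        ∀ᵐ x ∂(volume.restrict K1), |c x| ≤ B := by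
    intro c hc
    obtain ⟨B, hB⟩ := hK1.exists_bound_of_continuousOn hc
    refine ⟨hc.aestronglyMeasurable hK1m, B, ?_⟩
    rw [ae_restrict_iff' hK1m]
    exact ae_of_all _ hB
  have hun : ∀ {f : ℝ → ℝ} {z : E3 → ℝ}, Continuous f → Continuous z → ∀ η > 0,
      ∀ᶠ n in atTop, ∀ᵐ x ∂(volume.restrict K1), |f (v n x) * z x - f (u x) * z x| ≤ η := by
    intro f z hf hz η hη
    filter_upwards [MFLX.unif hK1 huc hvu hf hz η hη] with n hn
    rw [ae_restrict_iff' hK1m]
    exact ae_of_all _ hn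
  have hcu : ∀ {f : ℝ → ℝ} {z : E3 → ℝ}, Continuous f → Continuous z →
      ContinuousOn (fun x => f (u x) * z x) K1 := fun hf hz =>
    (hf.comp_continuousOn huc).mul hz.continuousOn
  have hcv : ∀ {f : ℝ → ℝ} {z : E3 → ℝ} (n : ℕ), Continuous f → Continuous z →
      ContinuousOn (fun x => f (v n x) * z x) K1 := fun n hf hz =>
    ((hf.comp (hv n).continuous).mul hz).continuousOn
  have hζcont : Continuous ζ := hζ.continuous
  have hζj : ∀ j, Continuous (pd j ζ) := fun j => MAP.cont_pd hζ j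
  have hvL : ∀ n j, MemLp (pd j (v n)) 2 (volume.restrict K1) := by
    intro n j
    have hc : Continuous (pd j (v n)) := MAP.cont_pd (hv n) j
    obtain ⟨B, hB⟩ := hK1.exists_bound_of_continuousOn hc.continuousOn
    refine MemLp.of_bound hc.aestronglyMeasurable B ?_
    rw [ae_restrict_iff' hK1m]
    exact ae_of_all _ hB
  have hGL : ∀ j, MemLp (fun x => G x j) 2 (volume.restrict K1) := hH2.memG K1 hK1 hK1A
  -- the limits
  have L1 : ∀ j, Tendsto (fun n => ∫ x in K1, Z j x * (deriv ψ (v n x) * ζ x * pd j (v n) x))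
      atTop (𝓝 (∫ x in K1, Z j x * (deriv ψ (u x) * ζ x * G x j))) := by
    intro j
    obtain ⟨hm, B, hB⟩ := hcb (hcu hψ'c hζcont)
    exact MFLX.lim_mul (hZ j) (hGL j) (fun n => hvL n j) (hvG j) hm
      (fun n => (hcb (hcv n hψ'c hζcont)).1) B hB (hun hψ'c hζcont)
  have L2 : ∀ j, Tendsto (fun n => ∫ x in K1, Z j x * (ψ (v n x) * pd j ζ x))
      atTop (𝓝 (∫ x in K1, Z j x * (ψ (u x) * pd j ζ x))) := by
    intro j
    obtain ⟨hm, B, hB⟩ := hcb (hcu hψc (hζj j))
    exact MFLX.lim_bdd ((hZ j).integrable (by norm_num)) hm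
      (fun n => (hcb (hcv n hψc (hζj j))).1) B hB (hun hψc (hζj j))
  have L3 : Tendsto (fun n => ∫ x in K1, R x * (ψ (v n x) * ζ x)) atTop
      (𝓝 (∫ x in K1, R x * (ψ (u x) * ζ x))) := by
    obtain ⟨hm, B, hB⟩ := hcb (hcu hψc hζcont)
    exact MFLX.lim_bdd hR hm (fun n => (hcb (hcv n hψc hζcont)).1) B hB (hun hψc hζcont)
  have i1 : ∀ n j, Integrable (fun x => Z j x * (deriv ψ (v n x) * ζ x * pd j (v n) x))
      (volume.restrict K1) := by
    intro n j
    obtain ⟨hm, B, hB⟩ := hcb (hcv n hψ'c hζcont)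
    have h1 : Integrable (fun x => Z j x * pd j (v n) x * (deriv ψ (v n x) * ζ x))
        (volume.restrict K1) := ((hZ j).integrable_mul (hvL n j)).mul_bdd (c := B) hm hB
    refine h1.congr (ae_of_all _ fun x => ?_)
    change Z j x * pd j (v n) x * (deriv ψ (v n x) * ζ x) =
      Z j x * (deriv ψ (v n x) * ζ x * pd j (v n) x)
    ring
  have i2 : ∀ n j, Integrable (fun x => Z j x * (ψ (v n x) * pd j ζ x))
      (volume.restrict K1) := by
    intro n j
    obtain ⟨hm, B, hB⟩ := hcb (hcv n hψc (hζj j))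
    exact ((hZ j).integrable (by norm_num)).mul_bdd (c := B) hm hB
  have i3 : ∀ j, Integrable (fun x => Z j x * (deriv ψ (u x) * ζ x * G x j))
      (volume.restrict K1) := by
    intro j
    obtain ⟨hm, B, hB⟩ := hcb (hcu hψ'c hζcont)
    have h1 : Integrable (fun x => Z j x * G x j * (deriv ψ (u x) * ζ x))
        (volume.restrict K1) := ((hZ j).integrable_mul (hGL j)).mul_bdd (c := B) hm hB
    refine h1.congr (ae_of_all _ fun x => ?_)
    change Z j x * G x j * (deriv ψ (u x) * ζ x) = Z j x * (deriv ψ (u x) * ζ x * G x j)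
    ring
  have i4 : ∀ j, Integrable (fun x => Z j x * (ψ (u x) * pd j ζ x))
      (volume.restrict K1) := by
    intro j
    obtain ⟨hm, B, hB⟩ := hcb (hcu hψc (hζj j))
    exact ((hZ j).integrable (by norm_num)).mul_bdd (c := B) hm hB
  have L4 : Tendsto (fun n => ∫ x in K1, ∑ j, (Z j x * (deriv ψ (v n x) * ζ x * pd j (v n) x)
      + Z j x * (ψ (v n x) * pd j ζ x))) atTop
      (𝓝 (∫ x in K1, ∑ j, (Z j x * (deriv ψ (u x) * ζ x * G x j)
        + Z j x * (ψ (u x) * pd j ζ x)))) := by
    have i12 : ∀ n j, Integrable (fun x => Z j x * (deriv ψ (v n x) * ζ x * pd j (v n) x)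
        + Z j x * (ψ (v n x) * pd j ζ x)) (volume.restrict K1) := fun n j =>
      (i1 n j).add (i2 n j)
    have i34 : ∀ j, Integrable (fun x => Z j x * (deriv ψ (u x) * ζ x * G x j)
        + Z j x * (ψ (u x) * pd j ζ x)) (volume.restrict K1) := fun j => (i3 j).add (i4 j)
    rw [integral_finsetSum _ fun j _ => i34 j]
    have h1 : ∀ n, ∫ x in K1, ∑ j, (Z j x * (deriv ψ (v n x) * ζ x * pd j (v n) x)
        + Z j x * (ψ (v n x) * pd j ζ x)) =
        ∑ j, ((∫ x in K1, Z j x * (deriv ψ (v n x) * ζ x * pd j (v n) x))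
          + ∫ x in K1, Z j x * (ψ (v n x) * pd j ζ x)) := by
      intro n
      rw [integral_finsetSum _ fun j _ => i12 n j]
      exact Finset.sum_congr rfl fun j _ => integral_add (i1 n j) (i2 n j)
    simp_rw [h1]
    refine tendsto_finsetSum _ fun j _ => ?_
    rw [integral_add (i3 j) (i4 j)]
    exact (L1 j).add (L2 j)
  have hfinal := tendsto_nhds_unique L4 (by simpa only [hid] using L3)
  -- rewriting both sides
  have hψ0 : ∀ x ∈ U, x ∉ K → ψ (u x) = 0 := by
    intro x hx hxK
    by_contra h1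
    exact hxK (hsupp x hx (subset_tsupport ψ h1))
  have hψ'0 : ∀ x ∈ U, x ∉ K → deriv ψ (u x) = 0 := by
    intro x hx hxK
    by_contra h1
    exact hxK (hsupp x hx (support_deriv_subset h1))
  have e1 : ∫ x in U, deriv ψ (u x) * len g x (G x) ^ (1 + ε) * volDen g x =
      ∫ x in K1, ∑ j, (Z j x * (deriv ψ (u x) * ζ x * G x j) + Z j x * (ψ (u x) * pd j ζ x)) := by
    rw [setIntegral_eq_of_subset_of_forall_sdiff_eq_zero hAo.measurableSet hK1A]
    · refine setIntegral_congr_fun hK1m fun x hx => ?_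
      change deriv ψ (u x) * len g x (G x) ^ (1 + ε) * volDen g x = _
      have h1 : ∀ j, ψ (u x) * pd j ζ x = 0 := by
        intro j
        by_cases hxK : x ∈ K
        · rw [hζpd x hxK j, mul_zero]
        · rw [hψ0 x (hK1A hx) hxK, zero_mul]
      have h2 : deriv ψ (u x) * ζ x = deriv ψ (u x) := by
        by_cases hxK : x ∈ K
        · rw [hζK x hxK, mul_one]
        · rw [hψ'0 x (hK1A hx) hxK, zero_mul]
      have h3 : ∑ j, (Z j x * (deriv ψ (u x) * ζ x * G x j) + Z j x * (ψ (u x) * pd j ζ x)) =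
          deriv ψ (u x) * (len g x (G x) ^ (ε - 1) * ev (g x)⁻¹ (G x) (G x)) * volDen g x := by
        rw [MFLX.ev_eq, Finset.mul_sum, Finset.mul_sum, Finset.sum_mul]
        refine Finset.sum_congr rfl fun j _ => ?_
        rw [h1 j, h2, hZdef]
        ring
      rw [h3]
      have h4 : ev (g x)⁻¹ (G x) (G x) = len g x (G x) * len g x (G x) := by
        have h5 : 0 ≤ ev (g x)⁻¹ (G x) (G x) :=
          le_trans (div_nonneg (MFLX.vsq_nonneg _) hC0.le) ((hCx x hx).1 (G x)).1
        unfold len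
        rw [Real.mul_self_sqrt h5]
      have h5 : len g x (G x) ^ (1 + ε) = len g x (G x) ^ (ε - 1) *
          (len g x (G x) * len g x (G x)) := by
        rw [← mul_assoc, MFLX.rpow_sub_mul (hlen0 x) hε0]
        have h6 := MFLX.rpow_sub_mul (ε := 1 + ε) (hlen0 x) (by linarith)
        rw [add_sub_cancel_left] at h6
        exact h6.symm
      rw [h4, h5]
    · intro x hx
      rw [hψ'0 x hx.1 fun hxK => hx.2 (hKK1 hxK), zero_mul, zero_mul]
  have e2 : ∫ x in U, len g x (G x) ^ ε * beps ε g x (G x) (h x) * ψ (u x) * volDen g x =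
      ∫ x in K1, R x * (ψ (u x) * ζ x) := by
    rw [setIntegral_eq_of_subset_of_forall_sdiff_eq_zero hAo.measurableSet hK1A]
    · refine setIntegral_congr_fun hK1m fun x hx => ?_
      change len g x (G x) ^ ε * beps ε g x (G x) (h x) * ψ (u x) * volDen g x =
        R x * (ψ (u x) * ζ x)
      have h2 : ψ (u x) * ζ x = ψ (u x) := by
        by_cases hxK : x ∈ K
        · rw [hζK x hxK, mul_one]
        · rw [hψ0 x (hK1A hx) hxK, zero_mul]
      rw [h2, hRdef]
      ring
    · intro x hx
      rw [hψ0 x hx.1 fun hxK => hx.2 (hKK1 hxK), mul_zero, zero_mul]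
  rw [e1, e2, hfinal]

end Pool.Agent.PFU
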