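import Pool.Agent.PFU.StmtsM

/-!
# FMT: the filled function depends on the function in a Lipschitz way
-/

open MeasureTheory Filter Topology
open scoped ContDiff ENNReal

namespace Pool.Agent.PFU

open Pool.Agent.PenroseSph Pool.Agent.PFlow Pool.Agent.PFT
open Pool.Agent.PFlow.MFM (conn_mono conn_univ conn_left fillA_le fillA_sub)

namespace FMTAux

lemma memB {V : E3 → ℝ} {s₁ : ℝ} {T : Finset E3} (hT : T.Nonempty) (h1 : ∀ x, V x ≤ s₁)
    (y : E3) : s₁ ∈ {c : ℝ | c ≤ s₁ ∧ ∃ z ∈ T, Conn {x | V x ≤ c} y z} := by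
  obtain ⟨p, hp⟩ := hT
  exact ⟨le_refl s₁, p, hp, conn_univ h1 y p⟩

lemma bddB {V : E3 → ℝ} {s₁ : ℝ} (T : Finset E3) (y : E3) :
    BddBelow {c : ℝ | c ≤ s₁ ∧ ∃ z ∈ T, Conn {x | V x ≤ c} y z} := by
  refine ⟨V y, ?_⟩
  rintro c ⟨-, z, -, hc⟩
  exact conn_left hc

/-- One half of the estimate for `fillBT`. -/
lemma fillBT_sub {V V' : E3 → ℝ} {s₁ e : ℝ} {T : Finset E3} (hT : T.Nonempty)
    (h1 : ∀ x, V x ≤ s₁) (h1' : ∀ x, V' x ≤ s₁) (he : ∀ x, V' x - V x ≤ e) (y : E3) :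
    fillBT V' s₁ T y ≤ fillBT V s₁ T y + e := by
  rw [← sub_le_iff_le_add]
  refine le_csInf ⟨s₁, memB hT h1 y⟩ fun c hc => ?_
  rw [sub_le_iff_le_add]
  obtain ⟨-, z₀, hz₀, hconn⟩ := hc
  refine le_trans (csInf_le (bddB T y) ⟨min_le_left _ _, z₀, hz₀, ?_⟩) (min_le_right s₁ (c + e))
  refine conn_mono (fun z hz => ?_) hconn
  refine le_min (h1' z) ?_
  have h2 : V z ≤ c := hz
  have h3 := he z
  linarith

/-- The estimate for `fillT`, one half. -/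
lemma fillT_sub {W W' : E3 → ℝ} {s₀ s₁ e : ℝ} {T : Finset E3} (hT : T.Nonempty)
    (h0 : ∀ x, s₀ ≤ W x) (h0' : ∀ x, s₀ ≤ W' x) (h1 : ∀ x, W x ≤ s₁) (h1' : ∀ x, W' x ≤ s₁)
    (he : ∀ x, W' x - W x ≤ e) (z₁ y : E3) :
    fillT W' s₀ s₁ T z₁ y ≤ fillT W s₀ s₁ T z₁ y + e := by
  refine fillBT_sub hT (fun x => (fillA_le h0 z₁ x).trans (h1 x))
    (fun x => (fillA_le h0' z₁ x).trans (h1' x)) (fun x => ?_) y
  have := fillA_sub h0' h0 he z₁ x
  linarith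

end FMTAux

open FMTAux in
/-- **FMT.** The filled function depends on the function in a Lipschitz way. -/
theorem t_FMT : Stmt_FMT := by
  intro T a' b' s₀ s₁ e W W' z₁ hW hW' _ he x
  have h1 := fillT_sub hW.ne hW.lower hW'.lower hW.upper hW'.upper (e := e)
    (fun x => by have := abs_le.1 (he x); linarith) z₁ x
  have h2 := fillT_sub hW.ne hW'.lower hW.lower hW'.upper hW.upper (e := e)
    (fun x => by have := abs_le.1 (he x); linarith) z₁ x
  rw [abs_le]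
  constructor <;> linarith

end Pool.Agent.PFU
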