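import Pool.Agent.PFU.StmtsM

/-!
# FXT: a function without islands is not changed by filling, several inner balls
-/

open MeasureTheory Filter Topology
open scoped ContDiff

namespace Pool.Agent.PFU

open Pool.Agent.PenroseSph Pool.Agent.PFlow Pool.Agent.PFT

namespace FXTx

open PFlow.MFX (comp_props comp_join ext_preconnected)

section
variable {T : Finset E3} {a b a' b' s₀ s₁ : ℝ} {w : E3 → ℝ}

lemma trWT_ann (h3 : b' < b) (hs : s₀ < s₁)
    (hi : ∀ p ∈ T, ∀ x : E3, a < ‖x - p‖ → ‖x - p‖ ≤ a' → w x ≤ s₀)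
    (ho : ∀ x : E3, b' ≤ ‖x‖ → ‖x‖ < b → s₁ ≤ w x) {x : E3} (hx : x ∈ AnnT T a b) :
    trWT T a' b' s₀ s₁ w x = max s₀ (min s₁ (w x)) := by
  unfold trWT
  split_ifs with h4 h5
  · obtain ⟨p, hp, h6⟩ := h4
    have := hi p hp x (hx.2 p hp) h6
    rw [min_eq_right (this.trans hs.le), max_eq_left this]
  · have := ho x h5 hx.1
    rw [min_eq_left this, max_eq_right hs.le]
  · rfl

lemma trWT_inner {x p : E3} (hp : p ∈ T) (hx : ‖x - p‖ ≤ a') : trWT T a' b' s₀ s₁ w x = s₀ := by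
  unfold trWT
  rw [if_pos ⟨p, hp, hx⟩]

lemma trWT_outer (h2 : ∀ p ∈ T, ‖p‖ + a' < b') {x : E3} (hx : b' ≤ ‖x‖) :
    trWT T a' b' s₀ s₁ w x = s₁ := by
  unfold trWT
  rw [if_neg, if_pos hx]
  rintro ⟨p, hp, h⟩
  have h3 := h2 p hp
  have h4 := norm_sub_norm_le x p
  linarith

lemma isOpen_annT : IsOpen (AnnT T a b) := by
  have h : AnnT T a b = {x : E3 | ‖x‖ < b} ∩ ⋂ p ∈ T, {x : E3 | a < ‖x - p‖} := by
    ext x
    simp [AnnT]
  rw [h]
  refine (isOpen_lt continuous_norm continuous_const).inter ?_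
  exact isOpen_biInter_finset fun p _ => isOpen_lt continuous_const
    (continuous_norm.comp (continuous_id.sub continuous_const))

lemma trunc_trWT (hne : T.Nonempty) (h0 : 0 < a) (h1 : a < a') (h2 : ∀ p ∈ T, ‖p‖ + a' < b')
    (hd : ∀ p ∈ T, ∀ q ∈ T, p ≠ q → 2 * a' < ‖p - q‖) (h3 : b' < b) (hs : s₀ < s₁)
    (hw : ContinuousOn w (AnnT T a b))
    (hi : ∀ p ∈ T, ∀ x : E3, a < ‖x - p‖ → ‖x - p‖ ≤ a' → w x ≤ s₀)
    (ho : ∀ x : E3, b' ≤ ‖x‖ → ‖x‖ < b → s₁ ≤ w x) :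
    TruncT T a' b' s₀ s₁ (trWT T a' b' s₀ s₁ w) := by
  refine ⟨hne, by linarith, h2, hd, hs, ?_, ?_, ?_, fun p hp x hx => trWT_inner hp hx,
    fun x hx => trWT_outer h2 hx⟩
  · rw [continuous_iff_continuousAt]
    intro x
    by_cases c1 : ∃ p ∈ T, ‖x - p‖ < a'
    · obtain ⟨p, hp, c1⟩ := c1
      have h4 : (fun _ => s₀) =ᶠ[𝓝 x] trWT T a' b' s₀ s₁ w := by
        filter_upwards [(isOpen_lt (continuous_norm.comp (continuous_id.sub
          (continuous_const (y := p)))) continuous_const).mem_nhds c1] with z hz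
        exact (trWT_inner hp (le_of_lt hz)).symm
      exact continuousAt_const.congr h4
    · by_cases c2 : b' < ‖x‖
      · have h4 : (fun _ => s₁) =ᶠ[𝓝 x] trWT T a' b' s₀ s₁ w := by
          filter_upwards [(isOpen_lt continuous_const continuous_norm).mem_nhds c2] with z hz
          exact (trWT_outer h2 (le_of_lt hz)).symm
        exact continuousAt_const.congr h4
      · push Not at c1 c2
        have hx : x ∈ AnnT T a b := ⟨by linarith, fun p hp => by linarith [c1 p hp]⟩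
        have h4 : (fun z => max s₀ (min s₁ (w z))) =ᶠ[𝓝 x] trWT T a' b' s₀ s₁ w := by
          filter_upwards [isOpen_annT.mem_nhds hx] with z hz
          exact (trWT_ann h3 hs hi ho hz).symm
        have h5 : ContinuousAt w x := hw.continuousAt (isOpen_annT.mem_nhds hx)
        have h6 : ContinuousAt (fun z => max s₀ (min s₁ (w z))) x :=
          continuousAt_const.max (continuousAt_const.min h5)
        exact h6.congr h4
  · intro x
    unfold trWT
    split_ifs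
    · exact le_refl _
    · exact hs.le
    · exact le_max_left _ _
  · intro x
    unfold trWT
    split_ifs
    · exact hs.le
    · exact le_refl _
    · exact max_le hs.le (min_le_left _ _)

/-- closures inside the set -/
lemma closure_annT (h1 : a < a') (h3 : b' < b) {D : Set E3}
    (hD : ∀ x ∈ D, (∀ p ∈ T, a' ≤ ‖x - p‖) ∧ ‖x‖ ≤ b') :
    IsCompact (closure D) ∧ closure D ⊆ AnnT T a b := by
  have h4 : closure D ⊆ (⋂ p ∈ T, {x : E3 | a' ≤ ‖x - p‖}) ∩ {x : E3 | ‖x‖ ≤ b'} := by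
    refine closure_minimal (fun x hx => ⟨?_, (hD x hx).2⟩) ?_
    · simp only [Set.mem_iInter]
      exact fun p hp => (hD x hx).1 p hp
    · refine IsClosed.inter ?_ (isClosed_le continuous_norm continuous_const)
      exact isClosed_biInter fun p _ => isClosed_le continuous_const
        (continuous_norm.comp (continuous_id.sub continuous_const))
  have h5 : ∀ x ∈ closure D, (∀ p ∈ T, a' ≤ ‖x - p‖) ∧ ‖x‖ ≤ b' := by
    intro x hx
    have h6 := h4 hx
    refine ⟨fun p hp => ?_, h6.2⟩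
    have h7 := h6.1
    simp only [Set.mem_iInter] at h7
    exact h7 p hp
  refine ⟨?_, fun x hx => ⟨?_, fun p hp => ?_⟩⟩
  · refine (isCompact_closedBall (0 : E3) b').of_isClosed_subset isClosed_closure ?_
    intro x hx
    rw [mem_closedBall_zero_iff]
    exact (h5 x hx).2
  · exact lt_of_le_of_lt (h5 x hx).2 h3
  · exact lt_of_lt_of_le h1 ((h5 x hx).1 p hp)

/-- Superlevel sets are connected to the outside. -/
lemma conn_outer (hne : T.Nonempty) (h0 : 0 < a) (h1 : a < a') (h2 : ∀ p ∈ T, ‖p‖ + a' < b')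
    (hd : ∀ p ∈ T, ∀ q ∈ T, p ≠ q → 2 * a' < ‖p - q‖) (h3 : b' < b) (hs : s₀ < s₁)
    (hw : ContinuousOn w (AnnT T a b)) (hn : NoIsland (AnnT T a b) w)
    (hi : ∀ p ∈ T, ∀ x : E3, a < ‖x - p‖ → ‖x - p‖ ≤ a' → w x ≤ s₀)
    (ho : ∀ x : E3, b' ≤ ‖x‖ → ‖x‖ < b → s₁ ≤ w x) {z₁ : E3} (hz : b' ≤ ‖z₁‖) {c : ℝ}
    (hc : s₀ ≤ c) {y : E3} (hy : c < trWT T a' b' s₀ s₁ w y) :
    Conn {z | c ≤ trWT T a' b' s₀ s₁ w z} y z₁ := by
  have hT := trunc_trWT hne h0 h1 h2 hd h3 hs hw hi ho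
  have hcs : c < s₁ := lt_of_lt_of_le hy (hT.upper y)
  have hb : 0 < b' := by
    obtain ⟨p, hp⟩ := hne
    have := h2 p hp
    have := norm_nonneg p
    linarith
  have hP : IsOpen {z | c < trWT T a' b' s₀ s₁ w z} := isOpen_lt continuous_const hT.cont
  obtain ⟨d1, d2, d3, d4, d5⟩ := comp_props _ hP hy
  have hO : {x : E3 | b' ≤ ‖x‖} ⊆ {z | c < trWT T a' b' s₀ s₁ w z} := by
    intro x hx
    show c < trWT T a' b' s₀ s₁ w x
    rw [trWT_outer h2 hx]
    exact hcs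
  have hmain : ∃ x ∈ connectedComponentIn {z | c < trWT T a' b' s₀ s₁ w z} y, b' ≤ ‖x‖ := by
    by_contra hcon
    push Not at hcon
    have hD : ∀ x ∈ connectedComponentIn {z | c < trWT T a' b' s₀ s₁ w z} y,
        (∀ p ∈ T, a' ≤ ‖x - p‖) ∧ ‖x‖ ≤ b' := by
      intro x hx
      refine ⟨fun p hp => ?_, (hcon x hx).le⟩
      by_contra h4
      push Not at h4
      have h5 : c < trWT T a' b' s₀ s₁ w x := d4 hx
      rw [trWT_inner hp h4.le] at h5
      linarith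
    obtain ⟨k1, k2⟩ := closure_annT h1 h3 hD
    obtain ⟨⟨y', hy', hwy⟩, _⟩ := hn _ d1 k1 k2 y d3
    have h6 : ¬ c < trWT T a' b' s₀ s₁ w y' := d5 y' hy'
    have h7 : y' ∈ AnnT T a b := k2 (frontier_subset_closure hy')
    have h8 : y ∈ AnnT T a b := k2 (subset_closure d3)
    apply h6
    rw [trWT_ann h3 hs hi ho h7]
    rw [trWT_ann h3 hs hi ho h8] at hy
    exact lt_of_lt_of_le hy (max_le_max_left _ (min_le_min_left _ hwy))
  obtain ⟨x, hx, hxb⟩ := hmain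
  have h9 := comp_join _ _ (ext_preconnected b' hb) hO hx hxb
  exact ⟨_, d4.trans (fun z (hz : c < trWT T a' b' s₀ s₁ w z) => le_of_lt hz), d2, d3, h9 hz⟩

/-- Points of sublevel sets are connected to a point of `T`. -/
lemma conn_inner (hne : T.Nonempty) (h0 : 0 < a) (h1 : a < a') (h2 : ∀ p ∈ T, ‖p‖ + a' < b')
    (hd : ∀ p ∈ T, ∀ q ∈ T, p ≠ q → 2 * a' < ‖p - q‖) (h3 : b' < b) (hs : s₀ < s₁)
    (hw : ContinuousOn w (AnnT T a b)) (hn : NoIsland (AnnT T a b) w)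
    (hi : ∀ p ∈ T, ∀ x : E3, a < ‖x - p‖ → ‖x - p‖ ≤ a' → w x ≤ s₀)
    (ho : ∀ x : E3, b' ≤ ‖x‖ → ‖x‖ < b → s₁ ≤ w x) {c : ℝ}
    (hc : c ≤ s₁) {y : E3} (hy : trWT T a' b' s₀ s₁ w y < c) :
    ∃ p ∈ T, Conn {z | trWT T a' b' s₀ s₁ w z ≤ c} y p := by
  have hT := trunc_trWT hne h0 h1 h2 hd h3 hs hw hi ho
  have hcs : s₀ < c := lt_of_le_of_lt (hT.lower y) hy
  have hP : IsOpen {z | trWT T a' b' s₀ s₁ w z < c} := isOpen_lt hT.cont continuous_const
  obtain ⟨d1, d2, d3, d4, d5⟩ := comp_props _ hP hy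
  have hO : ∀ p ∈ T, Metric.closedBall p a' ⊆ {z | trWT T a' b' s₀ s₁ w z < c} := by
    intro p hp x hx
    show trWT T a' b' s₀ s₁ w x < c
    rw [trWT_inner hp (mem_closedBall_iff_norm.mp hx)]
    exact hcs
  have hmain : ∃ p ∈ T, ∃ x ∈ connectedComponentIn {z | trWT T a' b' s₀ s₁ w z < c} y,
      ‖x - p‖ ≤ a' := by
    by_contra hcon
    push Not at hcon
    have hD : ∀ x ∈ connectedComponentIn {z | trWT T a' b' s₀ s₁ w z < c} y,
        (∀ p ∈ T, a' ≤ ‖x - p‖) ∧ ‖x‖ ≤ b' := by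
      intro x hx
      refine ⟨fun p hp => (hcon p hp x hx).le, ?_⟩
      by_contra h4
      push Not at h4
      have h5 : trWT T a' b' s₀ s₁ w x < c := d4 hx
      rw [trWT_outer h2 h4.le] at h5
      linarith
    obtain ⟨k1, k2⟩ := closure_annT h1 h3 hD
    obtain ⟨_, ⟨y', hy', hwy⟩⟩ := hn _ d1 k1 k2 y d3
    have h6 : ¬ trWT T a' b' s₀ s₁ w y' < c := d5 y' hy'
    have h7 : y' ∈ AnnT T a b := k2 (frontier_subset_closure hy')
    have h8 : y ∈ AnnT T a b := k2 (subset_closure d3)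
    apply h6
    rw [trWT_ann h3 hs hi ho h7]
    rw [trWT_ann h3 hs hi ho h8] at hy
    exact lt_of_le_of_lt (max_le_max_left _ (min_le_min_left _ hwy)) hy
  obtain ⟨p, hp, x, hx, hxb⟩ := hmain
  have h9 := comp_join _ _ (convex_closedBall p a').isPreconnected (hO p hp) hx
    (mem_closedBall_iff_norm.mpr hxb)
  exact ⟨p, hp, _, d4.trans (fun z (hz : trWT T a' b' s₀ s₁ w z < c) => le_of_lt hz), d2, d3,
    h9 (Metric.mem_closedBall_self (by linarith))⟩

end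

end FXTx

open FXTx in
/-- A function without islands is not changed by filling. -/
theorem t_FXT : Stmt_FXT := by
  intro T a b a' b' s₀ s₁ w z₁ hne h0 h1 h3 h2 hd hs hw hn hi ho hz
  have hT := trunc_trWT hne h0 h1 h2 hd h3 hs hw hi ho
  refine ⟨hT, ?_⟩
  have hA : fillA (trWT T a' b' s₀ s₁ w) s₀ z₁ = trWT T a' b' s₀ s₁ w := by
    funext y
    unfold fillA
    have hmem : s₀ ∈ {c : ℝ | s₀ ≤ c ∧ Conn {z | c ≤ trWT T a' b' s₀ s₁ w z} y z₁} := by
      refine ⟨le_refl _, Set.univ, fun z _ => hT.lower z, isPreconnected_univ, trivial, trivial⟩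
    have hub : ∀ c ∈ {c : ℝ | s₀ ≤ c ∧ Conn {z | c ≤ trWT T a' b' s₀ s₁ w z} y z₁},
        c ≤ trWT T a' b' s₀ s₁ w y := by
      rintro c ⟨_, S, hS, _, hy, _⟩
      exact hS hy
    apply le_antisymm
    · exact csSup_le ⟨s₀, hmem⟩ hub
    · refine le_of_forall_lt fun c hc => ?_
      by_cases hc0 : c < s₀
      · exact lt_of_lt_of_le hc0 (le_csSup ⟨_, hub⟩ hmem)
      · push Not at hc0
        obtain ⟨c', hc1, hc2⟩ := exists_between hc
        refine lt_of_lt_of_le hc1 (le_csSup ⟨_, hub⟩ ⟨hc0.trans hc1.le, ?_⟩)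
        exact conn_outer hne h0 h1 h2 hd h3 hs hw hn hi ho hz (hc0.trans hc1.le) hc2
  intro y
  unfold fillT
  rw [hA]
  unfold fillBT
  have hmem : s₁ ∈ {c : ℝ | c ≤ s₁ ∧ ∃ z ∈ T, Conn {x | trWT T a' b' s₀ s₁ w x ≤ c} y z} := by
    obtain ⟨p, hp⟩ := hne
    refine ⟨le_refl _, p, hp, Set.univ, fun z _ => hT.upper z, isPreconnected_univ, trivial,
      trivial⟩
  have hlb : ∀ c ∈ {c : ℝ | c ≤ s₁ ∧ ∃ z ∈ T, Conn {x | trWT T a' b' s₀ s₁ w x ≤ c} y z},
      trWT T a' b' s₀ s₁ w y ≤ c := by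
    rintro c ⟨_, z, _, S, hS, _, hy, _⟩
    exact hS hy
  apply le_antisymm
  · refine le_of_forall_gt fun c hc => ?_
    by_cases hc0 : s₁ < c
    · exact lt_of_le_of_lt (csInf_le ⟨_, hlb⟩ hmem) hc0
    · push Not at hc0
      obtain ⟨c', hc1, hc2⟩ := exists_between hc
      refine lt_of_le_of_lt (csInf_le ⟨_, hlb⟩ ⟨hc2.le.trans hc0, ?_⟩) hc2
      exact conn_inner hne h0 h1 h2 hd h3 hs hw hn hi ho (hc2.le.trans hc0) hc1
  · exact le_csInf ⟨s₁, hmem⟩ hlb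

end Pool.Agent.PFU
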