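import Pool.Agent.PFU.StmtsL
import Pool.Agent.PFT.Har

/-!
# HART: the Harnack type bound for `SolutionT`
-/

open MeasureTheory Filter Topology
open scoped ContDiff

set_option autoImplicit false

namespace Pool.Agent.PFU

open Pool.Agent.PenroseSph Pool.Agent.PFlow Pool.Agent.PFT

namespace HART

open Pool.Agent.PFT.HARAux

/-- the admissible functions: `u` or `1 - u`, with the data under control on `K'` -/
def AdmT (ε : ℝ) (H : E3 → ℝ) (g : TensorField) (K' : Set E3) (v : E3 → ℝ) : Prop :=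
  ∃ (T : Finset E3) (a b η : ℝ) (g' h' : TensorField) (u : E3 → ℝ) (G : E3 → Cov) (M : E3 → Bil),
    SolutionT T ε a b η g' h' u G M ∧ (∀ x ∈ K', ∀ᶠ y in 𝓝 x, g' y = g y) ∧
    (∀ x ∈ K', ∀ i j, |h' x i j| ≤ H x) ∧
    ((v = u ∧ K' ⊆ {x : E3 | ‖x‖ ≤ b}) ∨
      (v = (fun x => 1 - u x) ∧ K' ⊆ {x : E3 | ∀ p ∈ T, a ≤ ‖x - p‖}))

lemma AdmT.nonneg {ε : ℝ} {H : E3 → ℝ} {g : TensorField} {K' : Set E3} {v : E3 → ℝ} (h : AdmT ε H g K' v) (x : E3) :
    0 ≤ v x := by
  obtain ⟨T, a, b, η, g', h', u, G, M, hS, -, -, h | h⟩ := h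
  · rw [h.1]
    exact hS.nonneg x
  · rw [h.1]
    have := hS.le_one x
    simp only
    linarith

lemma AdmT.mono {ε : ℝ} {H : E3 → ℝ} {g : TensorField} {K' K'' : Set E3} {v : E3 → ℝ} (h : AdmT ε H g K' v)
    (hK : K'' ⊆ K') : AdmT ε H g K'' v := by
  obtain ⟨T, a, b, η, g', h', u, G, M, hS, h1, h2, h | h⟩ := h
  · exact ⟨T, a, b, η, g', h', u, G, M, hS, fun x hx => h1 x (hK hx), fun x hx => h2 x (hK hx),
      Or.inl ⟨h.1, hK.trans h.2⟩⟩
  · exact ⟨T, a, b, η, g', h', u, G, M, hS, fun x hx => h1 x (hK hx), fun x hx => h2 x (hK hx),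
      Or.inr ⟨h.1, hK.trans h.2⟩⟩

/-- the ball step -/
lemma bst {ε : ℝ} {H : E3 → ℝ} {U : Set E3} {g : TensorField} (hε : 0 < ε) (hε1 : ε ≤ 1)
    (hH : ContinuousOn H U)
    (hU : IsOpen U) (hg : MetricOn U g) {z : E3} {r₁ r₂ : ℝ} (h1 : 0 < r₁) (h12 : r₁ < r₂)
    (hb : Metric.closedBall z r₂ ⊆ U) :
    ∃ θ : ℝ, 0 < θ ∧ θ ≤ 1 ∧ ∀ (K' : Set E3) (v : E3 → ℝ), an z r₁ r₂ ⊆ K' → AdmT ε H g K' v →
      ∀ c₀ : ℝ, 0 ≤ c₀ → (∀ x ∈ Metric.closedBall z r₁, c₀ ≤ v x) →
        ∀ x ∈ Metric.closedBall z ((r₁ + r₂) / 2), θ * c₀ ≤ v x := by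
  obtain ⟨H₀, hH₀⟩ := (an_compact z r₁ r₂).exists_bound_of_continuousOn (hH.mono fun x hx => hb (by
    rw [Metric.mem_closedBall, dist_eq_norm]
    exact hx.2))
  have hHm : ∀ x ∈ an z r₁ r₂, H x ≤ |H₀| := fun x hx =>
    (le_abs_self _).trans (((Real.norm_eq_abs _).symm.le.trans (hH₀ x hx)).trans (le_abs_self _))
  obtain ⟨A, hA, hkey⟩ := key hε hε1 (abs_nonneg H₀) hU hg h1 hb
  set E : ℝ → ℝ := fun r => Real.exp (-(A * r ^ 2)) with hE
  have hanti : ∀ r s : ℝ, 0 ≤ r → r < s → E s < E r := by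
    intro r s hr hrs
    simp only [hE]
    apply Real.exp_lt_exp.mpr
    have : r ^ 2 < s ^ 2 := by nlinarith
    nlinarith
  have hanti' : ∀ r s : ℝ, 0 ≤ r → r ≤ s → E s ≤ E r := by
    intro r s hr hrs
    rcases hrs.eq_or_lt with h | h
    · rw [h]
    · exact (hanti r s hr h).le
  have hd : 0 < E r₁ - E r₂ := by linarith [hanti r₁ r₂ h1.le h12]
  have hn : 0 < E ((r₁ + r₂) / 2) - E r₂ := by
    linarith [hanti ((r₁ + r₂) / 2) r₂ (by linarith) (by linarith)]
  refine ⟨(E ((r₁ + r₂) / 2) - E r₂) / (E r₁ - E r₂), div_pos hn hd, ?_, ?_⟩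
  · rw [div_le_one hd]
    linarith [hanti r₁ ((r₁ + r₂) / 2) h1.le (by linarith)]
  · intro K' v hK' hv c₀ hc₀ hin x hx
    rw [Metric.mem_closedBall, dist_eq_norm] at hx
    rcases hc₀.eq_or_lt with h0 | h0
    · rw [← h0, mul_zero]
      exact hv.nonneg x
    by_cases hxr : ‖x - z‖ ≤ r₁
    · have h2 := hin x (by rwa [Metric.mem_closedBall, dist_eq_norm])
      refine le_trans ?_ h2
      refine mul_le_of_le_one_left hc₀ ?_
      rw [div_le_one hd]
      linarith [hanti r₁ ((r₁ + r₂) / 2) h1.le (by linarith)]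
    push Not at hxr
    have hxK : x ∈ an z r₁ r₂ := ⟨hxr.le, by linarith⟩
    set k : ℝ := c₀ / (E r₁ - E r₂) with hk
    have hk0 : 0 < k := div_pos h0 hd
    -- the comparison
    have hcmp : k * gb A z x + -(k * E r₂) ≤ v x := by
      have hfr : ∀ y ∈ frontier (an z r₁ r₂), k * gb A z y + -(k * E r₂) ≤ v y := by
        intro y hy
        rcases an_frontier hy with h | h
        · have h2 := hin y (by rw [Metric.mem_closedBall, dist_eq_norm, h])
          have h3 : gb A z y = E r₁ := by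
            simp only [gb, hE, h]
          rw [h3]
          refine le_trans (le_of_eq ?_) h2
          rw [hk]
          field_simp
          ring
        · have h3 : gb A z y = E r₂ := by
            simp only [gb, hE, h]
          rw [h3]
          have := hv.nonneg y
          linarith
      obtain ⟨T, a, b, η, g', h', u, G, M, hS, hg', hh', h | h⟩ := hv
      · have := hS.sub (an z r₁ r₂) (an_compact z r₁ r₂) (hK'.trans h.2)
          (fun y => k * gb A z y + -(k * E r₂))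
          (fun y _ => ((contDiff_const.mul (gb_contDiff A z)).add contDiff_const).contDiffAt.of_le
            (by norm_cast))
          (fun y hy => ⟨(hkey g' h' y hy (hg' y (hK' hy)) (fun i j => (hh' y (hK' hy) i j).trans (hHm y hy)) k _ hk0.ne').1,
            (hkey g' h' y hy (hg' y (hK' hy)) (fun i j => (hh' y (hK' hy) i j).trans (hHm y hy)) k _ hk0.ne').2.1 hk0⟩)
          (by
            intro y hy
            have := hfr y hy
            rw [h.1] at this
            exact this) x hxK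
        rw [h.1]
        exact this
      · have hkn : -k < 0 := by linarith
        have := hS.super (an z r₁ r₂) (an_compact z r₁ r₂) (hK'.trans h.2)
          (fun y => -k * gb A z y + (1 + k * E r₂))
          (fun y _ => ((contDiff_const.mul (gb_contDiff A z)).add contDiff_const).contDiffAt.of_le
            (by norm_cast))
          (fun y hy => ⟨(hkey g' h' y hy (hg' y (hK' hy)) (fun i j => (hh' y (hK' hy) i j).trans (hHm y hy)) (-k) _ hkn.ne).1,
            (hkey g' h' y hy (hg' y (hK' hy)) (fun i j => (hh' y (hK' hy) i j).trans (hHm y hy)) (-k) _ hkn.ne).2.2 hkn⟩)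
          (by
            intro y hy
            have := hfr y hy
            rw [h.1] at this
            simp only at this ⊢
            linarith) x hxK
        rw [h.1]
        simp only at this ⊢
        linarith
    refine le_trans ?_ hcmp
    have h4 : E ((r₁ + r₂) / 2) ≤ gb A z x := by
      have := hanti' ‖x - z‖ ((r₁ + r₂) / 2) (norm_nonneg _) hx
      simpa only [gb, hE] using this
    have h5 : (E ((r₁ + r₂) / 2) - E r₂) / (E r₁ - E r₂) * c₀ = k * E ((r₁ + r₂) / 2) + -(k * E r₂) := by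
      rw [hk]
      field_simp
      ring
    rw [h5]
    have := mul_le_mul_of_nonneg_left h4 hk0.le
    linarith

/-- the chain argument -/
lemma chain {ε : ℝ} {H : E3 → ℝ} {U : Set E3} {g : TensorField} (hε : 0 < ε) (hε1 : ε ≤ 1)
    (hH : ContinuousOn H U)
    (hU : IsOpen U) (hconn : IsPreconnected U) (hg : MetricOn U g) {z₀ : E3} {r₀ : ℝ} {K : Set E3}
    (hr₀ : 0 < r₀) (hb₀ : Metric.closedBall z₀ r₀ ⊆ U) (hK : IsCompact K) (hKU : K ⊆ U) :
    ∃ (K' : Set E3) (c : ℝ), IsCompact K' ∧ K' ⊆ U ∧ 0 < c ∧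
      ∀ v : E3 → ℝ, AdmT ε H g K' v → ∀ c₀ : ℝ, 0 ≤ c₀ →
        (∀ x ∈ Metric.closedBall z₀ r₀, c₀ ≤ v x) → ∀ x ∈ K, c * c₀ ≤ v x := by
  -- the good centres
  set Good : E3 → Prop := fun z => ∃ (r : ℝ) (K' : Set E3) (c : ℝ), 0 < r ∧ IsCompact K' ∧ K' ⊆ U ∧
    0 < c ∧ ∀ v : E3 → ℝ, AdmT ε H g K' v → ∀ c₀ : ℝ, 0 ≤ c₀ →
      (∀ x ∈ Metric.closedBall z₀ r₀, c₀ ≤ v x) → ∀ x ∈ Metric.closedBall z r, c * c₀ ≤ v x
    with hGood
  have hz₀ : Good z₀ := ⟨r₀, ∅, 1, hr₀, isCompact_empty, Set.empty_subset _, one_pos,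
    fun v _ c₀ _ hin x hx => by
      rw [one_mul]
      exact hin x hx⟩
  have hz₀U : z₀ ∈ U := hb₀ (Metric.mem_closedBall_self hr₀.le)
  have hopen : IsOpen {z | Good z} := by
    rw [Metric.isOpen_iff]
    rintro z ⟨r, K', c, hr, hK', hKU', hc, h⟩
    refine ⟨r / 2, by linarith, fun z' hz' => ?_⟩
    refine ⟨r / 2, K', c, by linarith, hK', hKU', hc, fun v hv c₀ hc₀ hin x hx => ?_⟩
    refine h v hv c₀ hc₀ hin x ?_
    rw [Metric.mem_ball] at hz'
    rw [Metric.mem_closedBall] at hx ⊢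
    linarith [dist_triangle x z' z]
  have hclosed : closure {z | Good z} ∩ U ⊆ {z | Good z} := by
    rintro z ⟨hzc, hzU⟩
    obtain ⟨ρ, hρ, hρU⟩ := Metric.isOpen_iff.mp hU z hzU
    set r₂ : ℝ := ρ / 2 with hr₂
    have hr₂0 : 0 < r₂ := by rw [hr₂]; linarith
    obtain ⟨z', ⟨r, K', c, hr, hK', hKU', hc, h⟩, hzz'⟩ := Metric.mem_closure_iff.mp hzc (r₂ / 4) (by linarith)
    set r₁ : ℝ := min r (r₂ / 4) with hr₁
    have hr₁0 : 0 < r₁ := lt_min hr (by linarith)
    have hr₁2 : r₁ ≤ r₂ / 4 := min_le_right _ _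
    have hbU : Metric.closedBall z' r₂ ⊆ U := by
      intro x hx
      apply hρU
      rw [Metric.mem_closedBall] at hx
      rw [Metric.mem_ball]
      have := dist_triangle x z' z
      rw [dist_comm] at hzz'
      rw [hr₂] at hx hzz'
      linarith
    obtain ⟨θ, hθ, hθ1, hB⟩ := bst hε hε1 hH hU hg hr₁0 (by linarith : r₁ < r₂) hbU
    have hanU : an z' r₁ r₂ ⊆ U := fun x hx => hbU (by
      rw [Metric.mem_closedBall, dist_eq_norm]
      exact hx.2)
    refine ⟨r₂ / 4, K' ∪ an z' r₁ r₂, θ * c, by linarith, hK'.union (an_compact _ _ _),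
      Set.union_subset hKU' hanU, mul_pos hθ hc, fun v hv c₀ hc₀ hin x hx => ?_⟩
    have h2 := hB (K' ∪ an z' r₁ r₂) v Set.subset_union_right hv (c * c₀) (mul_nonneg hc.le hc₀)
      (fun y hy => h v (hv.mono Set.subset_union_left) c₀ hc₀ hin y (by
        rw [Metric.mem_closedBall] at hy ⊢
        exact hy.trans (min_le_left _ _))) x (by
        rw [Metric.mem_closedBall] at hx ⊢
        have := dist_triangle x z z'
        linarith)
    rw [mul_assoc]
    exact h2
  have hall : U ⊆ {z | Good z} :=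
    hconn.subset_of_closure_inter_subset hopen ⟨z₀, hz₀U, hz₀⟩ hclosed
  -- compactness
  choose! r K' c hr hK' hKU' hc h using fun z (hz : z ∈ U) => hall hz
  obtain ⟨t, htK, hcov⟩ := hK.elim_nhds_subcover (fun z => Metric.ball z (r z))
    (fun z hz => Metric.ball_mem_nhds z (hr z (hKU hz)))
  by_cases ht : t.Nonempty
  · refine ⟨⋃ z ∈ t, K' z, t.inf' ht c, t.isCompact_biUnion fun z hz => hK' z (hKU (htK z hz)),
      Set.iUnion₂_subset fun z hz => hKU' z (hKU (htK z hz)), ?_, ?_⟩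
    · rw [Finset.lt_inf'_iff]
      exact fun z hz => hc z (hKU (htK z hz))
    · intro v hv c₀ hc₀ hin x hx
      obtain ⟨z, hz, hxz⟩ := Set.mem_iUnion₂.mp (hcov hx)
      have h2 := h z (hKU (htK z hz)) v (hv.mono (Set.subset_biUnion_of_mem (u := K') hz)) c₀ hc₀ hin x
        (Metric.ball_subset_closedBall hxz)
      exact (mul_le_mul_of_nonneg_right (Finset.inf'_le c hz) hc₀).trans h2
  · rw [Finset.not_nonempty_iff_eq_empty] at ht
    refine ⟨∅, 1, isCompact_empty, Set.empty_subset _, one_pos, fun v hv c₀ hc₀ hin x hx => ?_⟩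
    have := hcov hx
    rw [ht] at this
    simp at this

end HART

open HART in
/-- **HART**: the Harnack type bound for `SolutionT`. -/
theorem t_HART : Stmt_HART := by
  intro ε H U g hε hε1 hH hU hconn hg z₀ r₀ K hr₀ hb₀ hK hKU
  obtain ⟨K', c, h1, h2, h3, h4⟩ := chain hε hε1 hH hU hconn hg hr₀ hb₀ hK hKU
  refine ⟨K', c, h1, h2, h3, ?_⟩
  intro T a b η g' h' u G M hS hg' hh' c₀ hc₀
  constructor
  · intro hK' hin
    exact h4 u ⟨T, a, b, η, g', h', u, G, M, hS, hg', hh', Or.inl ⟨rfl, hK'⟩⟩ c₀ hc₀ hin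
  · intro hK' hin x hx
    have := h4 (fun x => 1 - u x) ⟨T, a, b, η, g', h', u, G, M, hS, hg', hh', Or.inr ⟨rfl, hK'⟩⟩ c₀ hc₀
      (fun y hy => by
        have := hin y hy
        linarith) x hx
    linarith

end Pool.Agent.PFU
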