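import Pool.Agent.PFU.StmtsD
import Pool.Agent.PFlow.E.HATA
import Pool.Agent.PFlow.E.HATB
import Pool.Agent.PFlow.E.HATC
import Pool.Agent.PFlow.E.JPROD

/-!
# HATU: the tensor `ĥ` on a general open set
-/

open scoped ContDiff

namespace Pool.Agent.PFU

open Pool.Agent.PenroseSph Pool.Agent.PFlow Pool.Agent.PFT

namespace HATUaux

open Pool.Agent.PFlow.HATC

lemma nsq_le' {g h : TensorField} {x : E3} (hg : (g x).PosDef) (hh : (h x).IsSymm)
    (hp : (∀ v : Cov, ev (g x) v v = 1 → ev (h x) v v ≤ trg g x (h x)) ∨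
      (∀ v : Cov, ev (g x) v v = 1 → trg g x (h x) ≤ ev (h x) v v)) :
    nsq g x (h x) ≤ 3 * trg g x (h x) ^ 2 := by
  rcases hp with h1 | h1
  · exact (HATA g x (h x) hg hh h1).2
  · have h2 := (HATA g x ((-1 : ℝ) • h x) hg ?_ ?_).2
    · rw [HATC.nsq_smul, HATC.trg_smul] at h2
      nlinarith
    · have := hh
      unfold Matrix.IsSymm at this ⊢
      rw [Matrix.transpose_smul, this]
    · intro v hv
      rw [HATC.ev_smul, HATC.trg_smul]
      have := h1 v hv
      linarith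

lemma surplus_hat {U : Set E3} {g h : TensorField} {η : ℝ} (hη : 0 < η) (hUo : IsOpen U)
    (hg : MetricOn U g) (hh : TensorOn U h) {x : E3} (hxU : x ∈ U)
    (hp : (∀ v : Cov, ev (g x) v v = 1 → ev (h x) v v ≤ trg g x (h x)) ∨
      (∀ v : Cov, ev (g x) v v = 1 → trg g x (h x) ≤ ev (h x) v v)) :
    surplus g h x - eEta η g h x ≤ surplus g (hat η g h) x := by
  have htr := HATC.trg_smooth hg hh
  have hf : ContDiffOn ℝ ∞ (fun y => hatF η (trg g y (h y))) U :=
    (HATC.hatF_smooth hη).comp_contDiffOn htr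
  have hJ := (JPROD U g h (fun y => hatF η (trg g y (h y))) hUo hg hh hf x hxU).2
  have hdt : DifferentiableAt ℝ (fun y => trg g y (h y)) x :=
    (htr.contDiffAt (hUo.mem_nhds hxU)).differentiableAt (by simp)
  rw [HATC.grad_comp hη hdt, HATC.len_smul g x _ (by positivity)] at hJ
  have hn := nsq_le' (hg.posDef x hxU) (hh.symm x hxU) hp
  have hn0 : 0 ≤ nsq g x (h x) := HATBaux.nsq_nonneg (hg.posDef x hxU) (h x)
  set t := trg g x (h x) with ht
  set S := Real.sqrt (t ^ 2 + η ^ 2) with hS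
  have hS0 : 0 < S := HATC.sq_pos hη t
  set L := len g x (grad (fun y => trg g y (h y)) x) with hL
  have hL0 : 0 ≤ L := Real.sqrt_nonneg _
  have hjl : 0 ≤ jlen g h x := Real.sqrt_nonneg _
  have hsq : Real.sqrt (nsq g x (h x) + t ^ 2) ≤ 2 * |t| := by
    have e : 2 * |t| = Real.sqrt ((2 * |t|) ^ 2) := by
      rw [Real.sqrt_sq (by positivity)]
    rw [e]
    apply Real.sqrt_le_sqrt
    rw [mul_pow, sq_abs]
    linarith
  have hJ2 : jlen g (hat η g h) x ≤ jlen g h x + 2 * η ^ 2 * |t| * L / S ^ 3 := by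
    have e1 : jlen g (hat η g h) x ≤ |hatF η t| * jlen g h x
        + Real.sqrt (nsq g x (h x) + t ^ 2) * (η ^ 2 / S ^ 3 * L) := hJ
    have e2 : |hatF η t| * jlen g h x ≤ 1 * jlen g h x :=
      mul_le_mul_of_nonneg_right (HATC.abs_hatF_le hη t) hjl
    have e3 : Real.sqrt (nsq g x (h x) + t ^ 2) * (η ^ 2 / S ^ 3 * L)
        ≤ 2 * |t| * (η ^ 2 / S ^ 3 * L) :=
      mul_le_mul_of_nonneg_right hsq (by positivity)
    have e4 : 2 * |t| * (η ^ 2 / S ^ 3 * L) = 2 * η ^ 2 * |t| * L / S ^ 3 := by ring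
    linarith
  have hE : eEta η g h x = η ^ 2 / 2 + 2 * η ^ 2 * |t| * L / S ^ 3 := rfl
  unfold surplus
  rw [hE, HATC.energy_eq, HATC.energy_eq]
  have e5 : nsq g x (hat η g h x) = hatF η t ^ 2 * nsq g x (h x) := HATC.nsq_smul g x _ _
  have e6 : trg g x (hat η g h x) = hatF η t * t := HATC.trg_smul g x _ _
  rw [e5, e6, ← ht]
  have e7 := HATC.hatF_sq hη t
  have e8 := HATC.hatF_sq_le hη t
  have e9 : 0 ≤ (1 - hatF η t ^ 2) * nsq g x (h x) := mul_nonneg (by linarith) hn0
  nlinarith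

end HATUaux

open HATUaux HATBaux in
/-- **HATU.** -/
theorem t_HATU : Stmt_HATU := by
  intro U g h η hη hUo hg hh hps
  refine ⟨⟨?_, ?_⟩, ?_, ?_, ?_, ?_⟩
  · intro i j
    have h1 := ((HATBaux.contDiff_hatF hη).comp_contDiffOn
      (HATBaux.contDiffOn_trg hg hh)).mul (hh.smooth i j)
    exact h1
  · intro x hx
    exact (hh.symm x hx).smul _
  · intro x hx v hv
    unfold hat
    rw [HATBaux.ev_smul, HATBaux.trg_smul]
    rcases hps x hx with h1 | h1
    · have h2 := (HATA g x (h x) (hg.posDef x hx) (hh.symm x hx) h1).1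
      exact mul_le_mul_of_nonneg_left (h1 v hv) (HATBaux.hatF_nonneg h2)
    · have h3 := (HATA g x ((-1 : ℝ) • h x) (hg.posDef x hx) ((hh.symm x hx).smul _) (by
        intro w hw
        rw [HATBaux.ev_smul, HATBaux.trg_smul]
        have := h1 w hw
        linarith)).1
      rw [HATBaux.trg_smul] at h3
      exact mul_le_mul_of_nonpos_left (h1 v hv) (HATBaux.hatF_nonpos (by linarith))
  · intro x hx
    unfold hat
    rw [HATBaux.nsq_smul]
    have h1 := HATBaux.nsq_nonneg (hg.posDef x hx) (h x)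
    have h2 := HATBaux.hatF_sq_le η (trg g x (h x))
    nlinarith
  · intro x i j
    unfold hat
    rw [Matrix.smul_apply, smul_eq_mul, abs_mul]
    have h1 := HATBaux.abs_hatF_le η (trg g x (h x))
    nlinarith [abs_nonneg (h x i j)]
  · intro x hx
    exact surplus_hat hη hUo hg hh hx (hps x hx)

end Pool.Agent.PFU
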