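import Pool.Agent.PFU.StmtsE

/-!
# HOLKT: the area integral over a compact set
-/

open MeasureTheory Filter Topology
open scoped ContDiff ENNReal

namespace Pool.Agent.PFU

open Pool.Agent.PenroseSph Pool.Agent.PFlow Pool.Agent.PFT

namespace HOLKTaux

/-- The volume density is continuous where the metric is smooth. -/
theorem continuousOn_volDen {g : TensorField} {U : Set E3} (hg : MetricOn U g) :
    ContinuousOn (volDen g) U := by
  have h1 : ContinuousOn (fun x => (g x).det) U := by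
    have : ContinuousOn (fun x => g x) U := by
      refine continuousOn_pi.2 fun i => continuousOn_pi.2 fun j => (hg.smooth i j).continuousOn
    exact (Continuous.matrix_det continuous_id).comp_continuousOn this
  exact h1.sqrt

/-- The power between `1` and `3`. -/
theorem rpow_le_one_add_cube {t ε : ℝ} (ht : 0 ≤ t) (he0 : 0 < ε) (he1 : ε ≤ 1 / 2) :
    t ^ (1 + ε) ≤ 1 + t ^ 3 := by
  rcases le_total t 1 with h | h
  · have h2 : t ^ (1 + ε) ≤ 1 := Real.rpow_le_one ht h (by linarith)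
    have h3 : 0 ≤ t ^ 3 := pow_nonneg ht 3
    linarith
  · have h2 : t ^ (1 + ε) ≤ t ^ (3 : ℝ) := Real.rpow_le_rpow_of_exponent_le h (by linarith)
    have h3 : t ^ (3 : ℝ) = t ^ (3 : ℕ) := by
      rw [← Real.rpow_natCast]; norm_num
    rw [h3] at h2
    linarith

end HOLKTaux

open HOLKTaux in
theorem t_HOLKT (hSETWT : Stmt_SETWT) (hFLXAT : Stmt_FLXAT) (hHOLA : Stmt_HOLA) :
    Stmt_HOLKT := by
  intro F P B β hβ D hS hA
  obtain ⟨hmet, -, -, -, -, -, hwm, -, -, -, -, -, -, -, -, hsb0, hsb1, -, hs2, hsM, -⟩ :=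
    hSETWT F P D hS
  have he0 := hS.eps_pos
  have he1 := hS.eps_le
  have hgam := hS.gam_pos
  have hsbs2 : D.sb P < D.s2 P := lt_of_le_of_lt hsb1 hs2
  have hs2M : D.s2 P + 1 < D.sM P := by linarith
  have hF := hFLXAT P.eps β he0 he1 hβ _ _ _ _ _ _ _ _ _ _ _ _ _ _ hA hsb0 hsbs2 hs2M
  refine ⟨hF.1, ?_⟩
  intro K hK hKO s₀ s₁ hs0 hs01 hs1
  set L : Set E3 := {x | s₀ ≤ D.w P x ∧ D.w P x ≤ s₁} with hL
  have hLm : MeasurableSet L :=
    (measurableSet_le measurable_const hwm).inter (measurableSet_le hwm measurable_const)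
  have hTm : MeasurableSet (K ∩ L) := hK.measurableSet.inter hLm
  have hTO : K ∩ L ⊆ omT F D ∩ L := Set.inter_subset_inter_left _ hKO
  have hTsub : K ∩ L ⊆ omT F D := fun x hx => hKO hx.1
  have hs1' : s₁ < D.sM P := by linarith
  have hiv0 : IntegrableOn D.vol (omT F D ∩ L) := hA.int_vol s₀ s₁ hs0 hs01 hs1'
  have hiX0 : IntegrableOn (fun x => D.X P x ^ 3 * D.vol x) (omT F D ∩ L) :=
    hA.int_X s₀ s₁ hs0 hs01 hs1'
  have hmX0 : AEStronglyMeasurable (D.X P) (volume.restrict (omT F D ∩ L)) :=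
    hA.meas_X.mono_measure (Measure.restrict_mono Set.inter_subset_left le_rfl)
  have hmXe : AEStronglyMeasurable (fun x => D.X P x ^ (1 + P.eps))
      (volume.restrict (omT F D ∩ L)) := by
    have : Measurable fun t : ℝ => t ^ (1 + P.eps) := by fun_prop
    exact (this.comp_aemeasurable hmX0.aemeasurable).aestronglyMeasurable
  have hnn : ∀ x, 0 ≤ D.X P x ^ (1 + P.eps) * D.vol x := fun x =>
    mul_nonneg (Real.rpow_nonneg (hA.X_nonneg x) _) (hA.vol_nonneg x)
  have hiXe0 : IntegrableOn (fun x => D.X P x ^ (1 + P.eps) * D.vol x) (omT F D ∩ L) := by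
    refine Integrable.mono' (hiv0.add hiX0) (hmXe.mul hiv0.aestronglyMeasurable) ?_
    refine Filter.Eventually.of_forall fun x => ?_
    have hv0 := hA.vol_nonneg x
    rw [Real.norm_eq_abs, abs_of_nonneg (hnn x)]
    calc D.X P x ^ (1 + P.eps) * D.vol x ≤ (1 + D.X P x ^ 3) * D.vol x :=
          mul_le_mul_of_nonneg_right (rpow_le_one_add_cube (hA.X_nonneg x) he0 he1) hv0
      _ = (D.vol + fun x => D.X P x ^ 3 * D.vol x) x := by
          simp only [Pi.add_apply]; ring
  -- the flux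
  have hI : (∫ x in K ∩ L, D.X P x ^ (1 + P.eps) * D.vol x)
      ≤ jT F P D β * (Real.exp s₁ - Real.exp s₀) :=
    (setIntegral_mono_set hiXe0 (Filter.Eventually.of_forall hnn)
      (Filter.Eventually.of_forall hTO)).trans (hF.2 s₀ s₁ hs0 hs01.le hs1)
  -- the volume
  have hV : (∫ x in K ∩ L, D.vol x) ≤ ∫ x in K, D.vol x := by
    refine setIntegral_mono_set ?_ (Filter.Eventually.of_forall hA.vol_nonneg)
      (Filter.Eventually.of_forall fun x hx => hx.1)
    exact ((continuousOn_volDen hmet).mono hKO).integrableOn_compact hK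
  exact (hHOLA P.eps (K ∩ L) D.vol (D.X P) _ _ he0 (by linarith) hTm hA.vol_nonneg hA.X_nonneg
    (hiv0.mono_set hTO) (hiXe0.mono_set hTO) (hmX0.mono_measure (Measure.restrict_mono hTO le_rfl))
    hI hV).2

end Pool.Agent.PFU
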