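import Pool.Agent.PFU.StmtsD
import Pool.Agent.PFlow.E.MOD
import Pool.Agent.PFlow.E.AFD
import Pool.Agent.PFlow.E.BARB
import Pool.Agent.PFlow.E.HSM2
import Pool.Agent.PFlow.E.KAP
import Pool.Agent.PFlow.E.CUTM
import Pool.Agent.PFT.UBAR
import Pool.Agent.PFT.CEN
import Pool.Agent.PFT.CHI

/-!
# INNB: the modified data near the ends
-/

open MeasureTheory Filter Topology
open scoped ContDiff ENNReal

namespace Pool.Agent.PFU

open Pool.Agent.PenroseSph Pool.Agent.PFlow Pool.Agent.PFT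

namespace INNBaux

open Pool.Agent.PFlow.MODL

/-- The squared length depends on the value of the metric only. -/
theorem nsq_at {g g' : TensorField} {x x' : E3} (h : g x = g' x') (B : Bil) :
    nsq g x B = nsq g' x' B := by
  unfold nsq
  rw [h]

theorem nsq_zero (g : TensorField) (x : E3) : nsq g x 0 = 0 := by
  unfold nsq
  simp

/-- The other ends are far away. -/
theorem other {F : Fr} (hF : F.Ok) {p q x : E3} (hp : p ∈ F.T) (hq : q ∈ F.T) (hqp : q ≠ p)
    (hx : ‖x‖ ≤ F.rho) : F.rho < ‖x + p - q‖ := by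
  have h1 := hF.disj p hp q hq (Ne.symm hqp)
  have h2 : ‖p - q‖ ≤ ‖x + p - q‖ + ‖x‖ := by
    have : p - q = (x + p - q) - x := by abel
    rw [this]
    exact norm_sub_le _ _
  linarith

/-- The inverted metrics agree near the points far out. -/
theorem inv_ev {g gp : TensorField} {p : E3} {ρ μ : ℝ} (hρ : 0 < ρ) (hμ : 0 < μ)
    (h : ∀ x : E3, 0 < ‖x‖ → ‖x‖ < ρ + μ → gp x = g (x + p)) {y : E3} (hy : 1 / ρ ≤ ‖y‖) :
    inverted (shift p g) =ᶠ[𝓝 y] inverted gp := by
  have h1 : 1 / (ρ + μ) < ‖y‖ :=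
    lt_of_lt_of_le (one_div_lt_one_div_of_lt hρ (by linarith)) hy
  filter_upwards [(isOpen_lt continuous_const continuous_norm).mem_nhds h1] with z hz
  have hz' : 1 / (ρ + μ) < ‖z‖ := hz
  have hz0 : 0 < ‖z‖ := lt_trans (by positivity) hz'
  have hzne : z ≠ 0 := norm_pos_iff.mp hz0
  have h2 : ‖inversion z‖ = 1 / ‖z‖ := CENAux.norm_inv z hzne
  have h3 : 0 < ‖inversion z‖ := by
    rw [h2]
    positivity
  have h4 : ‖inversion z‖ < ρ + μ := by
    rw [h2, div_lt_iff₀ hz0]
    rw [div_lt_iff₀ (by linarith)] at hz'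
    linarith
  unfold inverted
  have h5 : shift p g (inversion z) = gp (inversion z) := by
    unfold shift
    exact (h _ h3 h4).symm
  rw [h5]

end INNBaux

open INNBaux Pool.Agent.PFlow.MODL in
/-- **INNB.** The modified data near the ends. -/
theorem t_INNB (hCUTT : Stmt_CUTT) (hHATU : Stmt_HATU) : Stmt_INNB := by
  intro F μ gp kp hF hμ hμρ hTE hPS
  obtain ⟨C₁, hC₁, -, hd2, -, hel2⟩ := AFD gp kp hTE
  obtain ⟨C₆, hC₆, hhs⟩ := HSM2 gp kp C₁ hTE.metric hTE.tensor hd2 hel2
  obtain ⟨C₇, hC₇, hbb⟩ := BARB (C₁ + C₆)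
  have hinv0 : DecayFrom C₁ 1 (inverted gp) 0 := decay_zero hd2 hC₁.le
  obtain ⟨C, hCdef⟩ : ∃ C : ℝ, C = C₁ + C₆ + 2 * C₇ + 12 := ⟨_, rfl⟩
  have hC : 0 < C := by linarith
  have hρ := hF.rho_pos
  have hρ1 := hF.rho_le
  have h1ρ : 1 ≤ 1 / F.rho := by
    rw [le_div_iff₀ hρ]
    linarith
  refine ⟨C, hC, fun p hp g k hg hk hpl hgk => ?_⟩
  have hgp : ∀ x : E3, 0 < ‖x‖ → ‖x‖ < F.rho + μ → gp x = g (x + p) := fun x h1 h2 =>
    (hgk x h1 h2).1
  refine ⟨?_, ?_, ?_⟩
  · refine decay_mono (CENAux.decay_congr hinv0 h1ρ (fun x hx => inv_ev hρ hμ hgp hx)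
      fun x _ => EventuallyEq.refl _ _) (by linarith)
  · intro y hy
    rw [(inv_ev hρ hμ hgp hy).self_of_nhds]
    exact ell_mono hC₁ (by linarith) (hel2 y (h1ρ.trans hy))
  · intro l R η hl8 hlr hlR hη
    have hl8' : 8 ≤ l := by
      have : 8 / F.rho = 8 * (1 / F.rho) := by ring
      linarith
    have hl0 : 0 < l := by linarith
    have hR0 : 0 < R := by linarith
    have hlρ : 8 ≤ l * F.rho := by
      rwa [div_le_iff₀ hρ] at hl8
    have hsmall : 1 / (16 * R) < F.rho := by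
      rw [div_lt_iff₀ (by positivity)]
      have : 4 * l * F.rho ≤ R * F.rho := mul_le_mul_of_nonneg_right hlR hρ.le
      nlinarith
    have h16 : (1 : ℝ) / (16 * R) < 1 / (8 * R) := by
      apply one_div_lt_one_div_of_lt (by positivity)
      linarith
    have hpos8 : (0 : ℝ) < 1 / (8 * R) := by positivity
    obtain ⟨m1, m2, -, m4, -, -, -, m8, -, -, -, -⟩ :=
      hCUTT F.T g k η l R hη (by linarith) hlR hg hk hpl
    obtain ⟨-, -, nH, -, -⟩ := hHATU ((F.T : Set E3))ᶜ g k η hη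
      (F.T.finite_toSet.isClosed.isOpen_compl) hg hk (fun x hx => hpl x (by simpa using hx))
    -- the factor of the tensor
    have hfac : ∀ x : E3, 0 ≤ kap (2 * ‖x‖ / l) * chiN F.T (R / 2) x ∧
        kap (2 * ‖x‖ / l) * chiN F.T (R / 2) x ≤ 1 := by
      intro x
      have a1 := KAP.2.1 (2 * ‖x‖ / l)
      have a2 := m8 x
      exact ⟨mul_nonneg a1.1 a2.1, mul_le_one₀ a1.2 a2.1 a2.2⟩
    have hHnsq : ∀ x : E3, x ∉ F.T → nsq g x (modHT F.T η l R g k x) ≤ nsq g x (k x) := by
      intro x hx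
      have e1 : modHT F.T η l R g k x =
          (kap (2 * ‖x‖ / l) * chiN F.T (R / 2) x) • hat η g k x := rfl
      have hx' : x ∈ ((F.T : Set E3))ᶜ := by simpa using hx
      have n0 : 0 ≤ nsq g x (hat η g k x) :=
        (KTN_thm g x (hg.posDef x hx') 0).2.2.2.2.2.2.1 _
      rw [e1, nsq_smul]
      have h2 : (kap (2 * ‖x‖ / l) * chiN F.T (R / 2) x) ^ 2 ≤ 1 :=
        pow_le_one₀ (hfac x).1 (hfac x).2
      calc (kap (2 * ‖x‖ / l) * chiN F.T (R / 2) x) ^ 2 * nsq g x (hat η g k x)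
          ≤ 1 * nsq g x (hat η g k x) := mul_le_mul_of_nonneg_right h2 n0
        _ ≤ nsq g x (k x) := by
          rw [one_mul]
          exact nH x hx'
    -- the points
    have hnot : ∀ x : E3, 1 / (8 * R) ≤ ‖x‖ → ‖x‖ ≤ F.rho → x + p ∉ F.T := by
      intro x h1 h2 h3
      have h4 : x + p ≠ p := by
        intro h5
        have : x = 0 := by simpa using h5
        rw [this, norm_zero] at h1
        linarith
      have := other hF hp h3 h4 h2
      rw [sub_self, norm_zero] at this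
      linarith
    have hnear : ∀ x : E3, 1 / (8 * R) ≤ ‖x‖ → ‖x‖ ≤ F.rho →
        ∀ q ∈ F.T, 1 / (16 * R) < ‖x + p - q‖ := by
      intro x h1 h2 q hq
      rcases eq_or_ne q p with h | h
      · rw [h, add_sub_cancel_right]
        linarith
      · have := other hF hp hq h h2
        linarith
    have hin : ∀ x : E3, ‖x‖ ≤ F.rho → ‖x + p‖ < l := by
      intro x h2
      have h3 := hF.inside p hp
      have h4 := norm_add_le x p
      have h5 := hF.rad_ge
      linarith
    -- near x the modified metric is the given one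
    have hev : ∀ x : E3, 1 / (8 * R) ≤ ‖x‖ → ‖x‖ ≤ F.rho →
        shift p (modGT F.T l R g) =ᶠ[𝓝 x] gp := by
      intro x h1 h2
      have e1 : ∀ᶠ y in 𝓝 x, ∀ q ∈ F.T, 1 / (16 * R) < ‖y + p - q‖ := by
        refine (Finset.eventually_all F.T).2 fun q hq => ?_
        exact (isOpen_lt continuous_const (by fun_prop)).mem_nhds (hnear x h1 h2 q hq)
      have e2 : ∀ᶠ y in 𝓝 x, ‖y + p‖ < l :=
        (isOpen_lt (by fun_prop) continuous_const).mem_nhds (hin x h2)
      have e3 : ∀ᶠ y in 𝓝 x, 0 < ‖y‖ :=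
        (isOpen_lt continuous_const continuous_norm).mem_nhds (lt_of_lt_of_le hpos8 h1)
      have e4 : ∀ᶠ y in 𝓝 x, ‖y‖ < F.rho + μ :=
        (isOpen_lt continuous_norm continuous_const).mem_nhds
          (show ‖x‖ < F.rho + μ by linarith)
      filter_upwards [e1, e2, e3, e4] with y h5 h6 h7 h8
      unfold shift
      rw [m4 (y + p) h5 h6, hgp y h7 h8]
    -- the size of the tensor
    have hsz : ∀ x : E3, 1 / (8 * R) ≤ ‖x‖ → ‖x‖ ≤ F.rho →
        nsq gp x (modHT F.T η l R g k (x + p)) ≤ C₆ * ‖x‖ ^ 4 := by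
      intro x h1 h2
      have hx0 : 0 < ‖x‖ := lt_of_lt_of_le hpos8 h1
      obtain ⟨a1, a2⟩ := hgk x hx0 (by linarith)
      rw [nsq_at a1]
      refine (hHnsq (x + p) (hnot x h1 h2)).trans ?_
      rw [← a2, ← nsq_at a1]
      exact hhs x (norm_pos_iff.mp hx0) (by linarith)
    constructor
    · intro x h1 h2
      have e : x - p + p = x := by abel
      have a1 := (hev (x - p) h1 h2).self_of_nhds
      unfold shift at a1
      rw [e] at a1
      rw [nsq_at a1]
      have a2 := hsz (x - p) h1 h2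
      rw [e] at a2
      refine a2.trans ?_
      gcongr
      linarith
    · intro ε hε hε1 x h1 h2
      have hx0 : 0 < ‖x‖ := lt_of_lt_of_le hpos8 h1
      have hne : x ≠ 0 := norm_pos_iff.mp hx0
      have hx1 : ‖x‖ ≤ 1 := by linarith
      have key : ∀ h' : TensorField, (h' x).IsSymm → nsq gp x (h' x) ≤ C₆ * ‖x‖ ^ 4 →
          BarAt ε C (shift p (modGT F.T l R g)) h' x := by
        intro h' hs hn
        unfold BarAt
        have e1 : barB ε (shift p (modGT F.T l R g)) h' x = barB ε gp h' x :=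
          UBARm.barB_congr (hev x h1 h2) rfl
        have b1 := hbb gp h' x hne hx1 hTE.metric hs (decay_mono hinv0 (by linarith))
          (fun y hy => ell_mono hC₁ (by linarith) (hel2 y hy)) (by
            refine hn.trans ?_
            gcongr
            linarith) ε hε hε1
        have b2 := model_in hε hε1 hx0 hx1
        rw [e1]
        have b3 : |barB ε gp h' x - bE ε ‖x‖| ≤ C₇ + 4 := by
          calc |barB ε gp h' x - bE ε ‖x‖|
              = |(barB ε gp h' x + 2 * (1 - ε) / ‖x‖) -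
                (bE ε ‖x‖ + 2 * (1 - ε) / ‖x‖)| := by
                congr 1
                ring
            _ ≤ |barB ε gp h' x + 2 * (1 - ε) / ‖x‖| +
                |bE ε ‖x‖ + 2 * (1 - ε) / ‖x‖| := abs_sub _ _
            _ ≤ C₇ + 4 := add_le_add b1 b2
        have b4 : C₇ + 4 ≤ C / (1 + ‖x‖ ^ 2) := by
          rw [le_div_iff₀ (by positivity)]
          have h3 : ‖x‖ ^ 2 ≤ 1 := pow_le_one₀ (norm_nonneg _) hx1
          nlinarith
        exact b3.trans b4
      refine ⟨key _ ?_ ?_, key _ ?_ ?_⟩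
      · exact m2.symm (x + p) (Set.mem_univ _)
      · exact hsz x h1 h2
      · show (0 : Bil).IsSymm
        simp [Matrix.IsSymm]
      · show nsq gp x 0 ≤ _
        rw [nsq_zero]
        positivity

end Pool.Agent.PFU
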