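import Pool.Agent.PFU.StmtsE

/-!
# Flows from several ends, module JUPT: upper bound for the flux
-/

open MeasureTheory Filter Topology
open scoped ContDiff ENNReal

namespace Pool.Agent.PFU

open Pool.Agent.PenroseSph Pool.Agent.PFlow Pool.Agent.PFT

namespace JUPT

variable {α : Type*} [MeasurableSpace α] {μ : Measure α}

lemma memLp_rpow {F : α → ℝ} {a : ℝ} (ha : 0 < a) (hF : ∀ x, 0 ≤ F x) (hi : Integrable F μ) :
    MemLp (fun x => F x ^ a) (ENNReal.ofReal (1 / a)) μ := by
  have hm : AEStronglyMeasurable (fun x => F x ^ a) μ :=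
    (Real.continuous_rpow_const ha.le).comp_aestronglyMeasurable hi.1
  rw [← integrable_norm_rpow_iff hm (by
    rw [ne_eq, ENNReal.ofReal_eq_zero, not_le]
    positivity) ENNReal.ofReal_ne_top]
  refine hi.congr (Eventually.of_forall fun x => ?_)
  rw [ENNReal.toReal_ofReal (by positivity)]
  show F x = ‖F x ^ a‖ ^ (1 / a)
  rw [Real.norm_of_nonneg (Real.rpow_nonneg (hF x) _),
    ← Real.rpow_mul (hF x), mul_one_div_cancel ha.ne', Real.rpow_one]

/-- Hölder's inequality for `F ^ a * G ^ b`, `a + b = 1`. -/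
lemma holder {F G : α → ℝ} {a b : ℝ} (ha : 0 < a) (hb : 0 < b) (hab : a + b = 1)
    (hF : ∀ x, 0 ≤ F x) (hG : ∀ x, 0 ≤ G x) (hFi : Integrable F μ) (hGi : Integrable G μ) :
    Integrable (fun x => F x ^ a * G x ^ b) μ ∧
      ∫ x, F x ^ a * G x ^ b ∂μ ≤ (∫ x, F x ∂μ) ^ a * (∫ x, G x ∂μ) ^ b := by
  have hc : (1 / a).HolderConjugate (1 / b) := Real.holderConjugate_one_div ha hb hab
  have m1 := memLp_rpow ha hF hFi
  have m2 := memLp_rpow hb hG hGi
  have h1 := integral_mul_le_Lp_mul_Lq_of_nonneg hc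
    (Eventually.of_forall fun x => Real.rpow_nonneg (hF x) a)
    (Eventually.of_forall fun x => Real.rpow_nonneg (hG x) b) m1 m2
  have e1 : ∀ x, (F x ^ a) ^ (1 / a) = F x := fun x => by
    rw [← Real.rpow_mul (hF x), mul_one_div_cancel ha.ne', Real.rpow_one]
  have e2 : ∀ x, (G x ^ b) ^ (1 / b) = G x := fun x => by
    rw [← Real.rpow_mul (hG x), mul_one_div_cancel hb.ne', Real.rpow_one]
  simp only [e1, e2, one_div_one_div] at h1
  refine ⟨?_, h1⟩
  have : ENNReal.HolderConjugate (ENNReal.ofReal (1 / a)) (ENNReal.ofReal (1 / b)) :=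
    Real.HolderConjugate.ennrealOfReal hc
  exact m1.integrable_mul m2

end JUPT

open JUPT in
/-- Upper bound for the flux. -/
theorem t_JUPT : Stmt_JUPT := by
  intro ε β hε hε2 hβ
  obtain ⟨M, hM⟩ : ∃ M : ℝ, ∀ s, β s ≤ M := by
    have hc : HasCompactSupport β := by
      refine HasCompactSupport.intro (isCompact_Icc (a := (1 / 4 : ℝ)) (b := 3 / 4)) fun x hx => ?_
      rw [Set.mem_Icc, not_and_or, not_le, not_le] at hx
      rcases hx with hx | hx
      · exact hβ.supp x (Or.inl hx.le)
      · exact hβ.supp x (Or.inr hx.le)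
    obtain ⟨M, hM⟩ := hc.exists_bound_of_continuous hβ.smooth.continuous
    exact ⟨M, fun s => (le_abs_self _).trans (hM s)⟩
  refine ⟨max M 1, lt_max_of_lt_right one_pos, ?_⟩
  intro Ω vol w X Φ D S sb s₂ sM B₁ B₂ V c K hA hsb hs2 hsM hV
  set T : Set E3 := Ω ∩ {x | s₂ < w x ∧ w x < s₂ + 1} with hT
  have hTm : MeasurableSet T := by
    refine hA.measOmega.inter ?_
    exact (measurableSet_lt measurable_const hA.meas_w).inter
      (measurableSet_lt hA.meas_w measurable_const)
  have hTsub : T ⊆ Ω ∩ {x | s₂ ≤ w x ∧ w x ≤ s₂ + 1} := fun x hx => ⟨hx.1, hx.2.1.le, hx.2.2.le⟩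
  have iv : IntegrableOn vol T :=
    (hA.int_vol s₂ (s₂ + 1) (by linarith) (by linarith) hsM).mono_set hTsub
  have iX : IntegrableOn (fun x => X x ^ 3 * vol x) T :=
    (hA.int_X s₂ (s₂ + 1) (by linarith) (by linarith) hsM).mono_set hTsub
  obtain ⟨i1, h1⟩ := holder (μ := volume.restrict T) (a := (1 + ε) / 3) (b := (2 - ε) / 3)
    (by linarith) (by linarith) (by ring)
    (fun x => mul_nonneg (pow_nonneg (hA.X_nonneg x) 3) (hA.vol_nonneg x)) hA.vol_nonneg iX iv
  have e1 : ∀ x, (X x ^ 3 * vol x) ^ ((1 + ε) / 3) * vol x ^ ((2 - ε) / 3)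
      = X x ^ (1 + ε) * vol x := by
    intro x
    have hX := hA.X_nonneg x
    have hv := hA.vol_nonneg x
    rw [Real.mul_rpow (pow_nonneg hX 3) hv, mul_assoc, ← Real.rpow_natCast, ← Real.rpow_mul hX,
      ← Real.rpow_add_of_nonneg hv (by linarith) (by linarith),
      show (1 + ε) / 3 + (2 - ε) / 3 = 1 by ring, Real.rpow_one]
    congr 2
    push_cast
    ring
  simp only [e1] at i1 h1
  have hB : ∫ x in T, X x ^ 3 * vol x ≤ B₁ := hA.window s₂ le_rfl hsM.le
  have hv0 : 0 ≤ ∫ x in T, vol x := integral_nonneg fun x => hA.vol_nonneg x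
  have hX0 : 0 ≤ ∫ x in T, X x ^ 3 * vol x :=
    integral_nonneg fun x => mul_nonneg (pow_nonneg (hA.X_nonneg x) 3) (hA.vol_nonneg x)
  have h2 : (∫ x in T, X x ^ 3 * vol x) ^ ((1 + ε) / 3) * (∫ x in T, vol x) ^ ((2 - ε) / 3)
      ≤ B₁ ^ ((1 + ε) / 3) * V ^ ((2 - ε) / 3) := by
    apply mul_le_mul
    · exact Real.rpow_le_rpow hX0 hB (by linarith)
    · exact Real.rpow_le_rpow hv0 hV (by linarith)
    · positivity
    · exact Real.rpow_nonneg (hX0.trans hB) _
  have hexp := Real.exp_pos (-s₂)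
  have hM0 : 0 < max M 1 := lt_max_of_lt_right one_pos
  have h3 : jInf ε β Ω vol w X s₂
      ≤ ∫ x in T, max M 1 * Real.exp (-s₂) * (X x ^ (1 + ε) * vol x) := by
    unfold jInf
    rw [← integral_indicator hTm, ← integral_indicator hA.measOmega]
    refine integral_mono_of_nonneg (Eventually.of_forall fun x => ?_) ?_
      (Eventually.of_forall fun x => ?_)
    · refine Set.indicator_nonneg (fun x _ => ?_) x
      have := hβ.nonneg (w x - s₂)
      have := hA.vol_nonneg x
      have := Real.rpow_nonneg (hA.X_nonneg x) (1 + ε)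
      positivity
    · rw [integrable_indicator_iff hTm]
      exact i1.const_mul _
    · by_cases hx : x ∈ T
      · rw [Set.indicator_of_mem hx, Set.indicator_of_mem hx.1]
        have a1 := hβ.nonneg (w x - s₂)
        have a2 : β (w x - s₂) ≤ max M 1 := (hM _).trans (le_max_left _ _)
        have a3 : Real.exp (-w x) ≤ Real.exp (-s₂) := by
          apply Real.exp_le_exp.mpr
          linarith [hx.2.1]
        have a4 := Real.rpow_nonneg (hA.X_nonneg x) (1 + ε)
        have a5 := hA.vol_nonneg x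
        calc β (w x - s₂) * (Real.exp (-w x) * X x ^ (1 + ε)) * vol x
            = (β (w x - s₂) * Real.exp (-w x)) * (X x ^ (1 + ε) * vol x) := by ring
          _ ≤ (max M 1 * Real.exp (-s₂)) * (X x ^ (1 + ε) * vol x) := by
            apply mul_le_mul_of_nonneg_right _ (mul_nonneg a4 a5)
            exact mul_le_mul a2 a3 (Real.exp_pos _).le hM0.le
      · have hzero : Ω.indicator (fun x => β (w x - s₂) * (Real.exp (-w x) * X x ^ (1 + ε)) * vol x) x
            = 0 := by
          by_cases hxO : x ∈ Ω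
          · rw [Set.indicator_of_mem hxO]
            have : β (w x - s₂) = 0 := by
              apply hβ.supp
              by_contra hcon
              push Not at hcon
              exact hx ⟨hxO, by linarith [hcon.1], by linarith [hcon.2]⟩
            rw [this]
            ring
          · rw [Set.indicator_of_notMem hxO]
        rw [hzero, Set.indicator_of_notMem hx]
  rw [integral_const_mul] at h3
  calc jInf ε β Ω vol w X s₂ ≤ _ := h3
    _ ≤ max M 1 * Real.exp (-s₂) * (B₁ ^ ((1 + ε) / 3) * V ^ ((2 - ε) / 3)) :=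
        mul_le_mul_of_nonneg_left (h1.trans h2) (by positivity)
    _ = _ := by ring

end Pool.Agent.PFU
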