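import Pool.Agent.PFU.StmtsP
import Pool.Agent.PFlow.E.HATA

/-!
# KNN: the drift is nonnegative for a 2-nonnegative tensor, and zero for the tensor `0`
-/

open Matrix

namespace Pool.Agent.PFU

open Pool.Agent.PenroseSph Pool.Agent.PFlow Pool.Agent.PFT Pool.Agent.PFlow.PB

namespace KNN

lemma ev_eq (B : Bil) (v w : Cov) : ev B v w = v ⬝ᵥ B *ᵥ w := by
  simp only [ev, dotProduct, mulVec, Finset.mul_sum]
  refine Finset.sum_congr rfl fun i _ => Finset.sum_congr rfl fun j _ => ?_
  ring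

lemma raise_eq (g : TensorField) (x : E3) (p : Cov) : raise g x p = (g x)⁻¹ *ᵥ p := by
  funext i
  rfl

lemma ev_smul (B : Bil) (v : Cov) (s : ℝ) : ev B (s • v) (s • v) = s ^ 2 * ev B v v := by
  simp only [ev, Pi.smul_apply, smul_eq_mul, Finset.mul_sum]
  refine Finset.sum_congr rfl fun i _ => Finset.sum_congr rfl fun j _ => ?_
  ring

lemma ev_nonneg {G : Bil} (hG : G.PosDef) (v : Cov) : 0 ≤ ev G v v := by
  rw [ev_eq]
  have := hG.posSemidef.dotProduct_mulVec_nonneg v
  simpa using this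

lemma ev_pos {G : Bil} (hG : G.PosDef) {v : Cov} (hv : v ≠ 0) : 0 < ev G v v := by
  rw [ev_eq]
  have := hG.dotProduct_mulVec_pos hv
  simpa using this

lemma ev_raise {g : TensorField} {x : E3} (hg : (g x).PosDef) (p : Cov) :
    ev (g x) (raise g x p) (raise g x p) = lsq g x p := by
  have hdet : IsUnit (g x).det := (Matrix.isUnit_iff_isUnit_det _).1 hg.isUnit
  rw [lsq, ev_eq, ev_eq, raise_eq, Matrix.mulVec_mulVec, Matrix.mul_nonsing_inv _ hdet,
    Matrix.one_mulVec, dotProduct_comm]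

end KNN

open KNN in
/-- **KNN.** -/
theorem t_KNN : Stmt_KNN := by
  intro ε δ g h x hε hε1 hδ hg hh hv ξ
  have hS : 0 ≤ lsq g x ξ := ev_nonneg hg.inv _
  have hT : 0 ≤ trg g x (h x) := by
    have := HATA g x (h x) hg hh hv
    exact this.1
  have hle : ev (h x) (raise g x ξ) (raise g x ξ) ≤ lsq g x ξ * trg g x (h x) := by
    by_cases h0 : raise g x ξ = 0
    · rw [h0]
      have e0 : ev (h x) (0 : Cov) 0 = 0 := by simp [ev]
      rw [e0]
      exact mul_nonneg hS hT
    · have hp : 0 < lsq g x ξ := by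
        rw [← ev_raise hg]
        exact ev_pos hg h0
      have hs : 0 < Real.sqrt (lsq g x ξ) := Real.sqrt_pos.2 hp
      have h1 := hv ((Real.sqrt (lsq g x ξ))⁻¹ • raise g x ξ) (by
        rw [ev_smul, ev_raise hg, inv_pow, Real.sq_sqrt hp.le, inv_mul_cancel₀ hp.ne'])
      rw [ev_smul, inv_pow, Real.sq_sqrt hp.le, inv_mul_le_iff₀ hp] at h1
      exact h1
  constructor
  · have hST := mul_nonneg hS hT
    unfold cB
    refine mul_nonneg (mul_nonneg (Real.sqrt_nonneg _) (Real.rpow_nonneg (by positivity) _)) ?_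
    nlinarith
  · unfold cB
    have e1 : trg g x ((0 : TensorField) x) = 0 := by simp [trg]
    have e2 : ev ((0 : TensorField) x) (raise g x ξ) (raise g x ξ) = 0 := by simp [ev]
    rw [e1, e2]
    ring

end Pool.Agent.PFU
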