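import Pool.Agent.PFU.StmtsE
import Pool.Agent.PFlow.E.LEY

/-!
# Module LEYT: the local bound near an end, for a metric given in a punctured ball only
-/

set_option autoImplicit false

open MeasureTheory Filter Topology
open scoped ContDiff ENNReal

namespace Pool.Agent.PFU

open Pool.Agent.PenroseSph Pool.Agent.PFlow Pool.Agent.PFT Pool.Agent.PFlow.GB.COVGm

namespace LEYTaux

open Pool.Agent.PFlow.LEYaux
open Pool.Agent.PenroseConvex.CovR (D2 Chg chg_eventually)

theorem changeAt_inv {B : Set E3} (hB : IsOpen B) {g : TensorField} (hg : MetricOn B g) {y : E3}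
    (hy : y ≠ 0) (hm : inversion y ∈ B) :
    PenroseConvex.ChangeAt inversion g (inverted g) y := by
  refine ⟨inversion_contDiffAt hy, ?_, ?_, ?_, ?_, ?_⟩
  · intro i j
    exact (hg.smooth i j _ hm).contDiffAt (hB.mem_nhds hm)
  · filter_upwards [hB.mem_nhds hm] with z hz
    have h := (hg.posDef z hz).isHermitian
    rw [Matrix.IsHermitian, Matrix.conjTranspose_eq_transpose_of_trivial] at h
    exact h
  · exact (hg.posDef _ hm).det_pos.ne'
  · rw [jac_inversion hy]
    exact (HSM2.jac_unit y hy).ne_zero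
  · filter_upwards [AFDaux.isOpen_compl_zero.mem_nhds (show y ∈ ({0}ᶜ : Set E3) from hy)]
      with z hz
    unfold PenroseConvex.pullback inverted
    rw [jac_inversion hz]

theorem chg_inv {B : Set E3} (hB : IsOpen B) {g : TensorField} (hg : MetricOn B g) {y : E3}
    (hy : y ≠ 0) (hm : inversion y ∈ B) :
    Chg inversion g (inverted g) y := (chg_eventually (changeAt_inv hB hg hy hm)).self_of_nhds

/-- The covariant Hessian in the inverted coordinates. -/
theorem cHess_invB {B : Set E3} (hB : IsOpen B) {g : TensorField} (hg : MetricOn B g) {y : E3}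
    (hy : y ≠ 0) (hm : inversion y ∈ B) (G : E3 → Cov) (M : E3 → Bil) :
    cHess (inverted g) y (gy G y) (my G M y) = pb (PenroseConvex.jac inversion y)
      (cHess g (inversion y) (G (inversion y)) (M (inversion y))) := by
  have h := chg_inv hB hg hy hm
  ext i j
  have h2 : ∑ k, christoffel (inverted g) k i j y * gy G y k
      = ∑ a, G (inversion y) a
        * ∑ k, PenroseConvex.jac inversion y a k * christoffel (inverted g) k i j y := by
    simp only [gy, pc, Fin.sum_univ_three]
    ring
  simp only [cHess, Matrix.of_apply]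
  rw [h2]
  simp only [PenroseConvex.CovR.covC h]
  simp only [PenroseConvex.CovR.RR, pb, my, Matrix.of_apply, Fin.sum_univ_three]
  ring

theorem beps_invB {B : Set E3} (hB : IsOpen B) {g : TensorField} (hg : MetricOn B g) {y : E3}
    (hy : y ≠ 0) (hm : inversion y ∈ B) (ε : ℝ) (p : Cov) (N : Bil) :
    beps ε (inverted g) y (pc (PenroseConvex.jac inversion y) p)
      (pb (PenroseConvex.jac inversion y) N) = beps ε g (inversion y) p N := by
  have h := rel_chg (chg_inv hB hg hy hm)
  unfold beps
  rw [trg_pb h, bnn_pc h]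

/-- The inverted metric. -/
theorem inverted_metricB {V B : Set E3} (hV : V ⊆ {0}ᶜ) (hVB : Set.MapsTo inversion V B)
    {g : TensorField} (hg : MetricOn B g) : MetricOn V (inverted g) where
  smooth := by
    intro i j
    have h : (fun x => inverted g x i j) = fun y =>
        ∑ b, (∑ a, inversionJac y a i * g (inversion y) a b) * inversionJac y b j := by
      funext y; exact AFDaux.inverted_apply g y i j
    rw [h]
    refine ContDiffOn.sum fun b _ => ContDiffOn.mul (ContDiffOn.sum fun a _ => ?_)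
      ((AFDaux.contDiffOn_jac b j).mono hV)
    refine ((AFDaux.contDiffOn_jac a i).mono hV).mul ?_
    exact (hg.smooth a b).comp (AFDaux.contDiffOn_inversion.mono hV) hVB
  posDef := by
    intro x hx
    exact AFDaux.inverted_posDef (hV hx) (hg.posDef _ (hVB hx))

/-- Measurability of the integrand. -/
theorem meas_lenB {K V : Set E3} (hVo : IsOpen V) (hK : K ⊆ V) (hKm : MeasurableSet K)
    {g : TensorField} (hg : MetricOn V g) {p : E3 → Cov}
    (hp : ∀ i, AEStronglyMeasurable (fun y => p y i) (volume.restrict K)) :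
    AEStronglyMeasurable (fun y => len g y (p y) ^ 3 * volDen g y) (volume.restrict K) := by
  have hd : ∀ y ∈ K, ∀ i j, DifferentiableAt ℝ (fun z => g z i j) y := fun y hy i j =>
    (((hg.smooth i j) y (hK hy)).contDiffAt
      (hVo.mem_nhds (hK hy))).differentiableAt (by simp)
  have hi : ∀ i j, AEStronglyMeasurable (fun y => (g y)⁻¹ i j) (volume.restrict K) := by
    intro i j
    refine ContinuousOn.aestronglyMeasurable (fun y hy => ?_) hKm
    exact (PenroseConvex.CovR.differentiableAt_inv (hd y hy) (hg.posDef y (hK hy)).det_pos.ne'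
      i j).continuousAt.continuousWithinAt
  have hdet : AEStronglyMeasurable (fun y => (g y).det) (volume.restrict K) := by
    refine ContinuousOn.aestronglyMeasurable (fun y hy => ?_) hKm
    exact (PenroseConvex.CovR.continuousAt_det (M := g) fun i j =>
      (hd y hy i j).continuousAt).continuousWithinAt
  have hl : AEStronglyMeasurable (fun y => len g y (p y)) (volume.restrict K) := by
    unfold len ev
    refine Real.continuous_sqrt.comp_aestronglyMeasurable ?_
    refine Finset.aestronglyMeasurable_fun_sum _ fun i _ =>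
      Finset.aestronglyMeasurable_fun_sum _ fun j _ => ?_
    exact ((hi i j).mul (hp i)).mul (hp j)
  exact (hl.pow 3).mul (Real.continuous_sqrt.comp_aestronglyMeasurable hdet)

end LEYTaux

open Pool.Agent.PFlow.LEYaux LEYTaux

/-- **(LEYT)** -/
theorem t_LEYT (hLE : Stmt_LE) : Stmt_LEYT := by
  intro ε C κ₁ κ₂ ρ hε hε2 hC hκ₁ hκ hρ hρ1
  have hκ₂ : 0 < κ₂ := hκ₁.trans hκ
  obtain ⟨C₁, hC₁⟩ : ∃ C₁ : ℝ, C₁ = (√(3 * C) * (4 * √C) + 162 * C ^ 3) * (2 * κ₂) ^ 2 :=
    ⟨_, rfl⟩
  have hC₁0 : 0 ≤ C₁ := by rw [hC₁]; positivity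
  obtain ⟨CL, hCL, hLE'⟩ := hLE (ε / 2) C₁ (1 / (2 * κ₂)) (1 / κ₂) (1 / κ₁) (2 / κ₁)
    (by positivity) (by linarith) hC₁0 (by positivity)
    (by
      rw [div_lt_div_iff₀ (by positivity) hκ₂]
      linarith)
    (one_div_lt_one_div_of_lt hκ₁ hκ)
    (by
      rw [div_lt_div_iff₀ hκ₁ hκ₁]
      linarith)
  obtain ⟨D, hD⟩ : ∃ D : ℝ, D = √(3 * C) ^ 3 * √(6 * (1 + C) ^ 3) := ⟨_, rfl⟩
  have hD0 : 0 < D := by rw [hD]; positivity
  refine ⟨D * CL, 1 + 2 * κ₂ / ρ + 120 * C ^ 2 * κ₂ / ε, by positivity, ?_, ?_⟩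
  · have : 0 ≤ 120 * C ^ 2 * κ₂ / ε := by positivity
    have : 0 ≤ 2 * κ₂ / ρ := by positivity
    linarith
  intro l S g g' h' u G M hl hS hg hdec hell hx hu heq huS
  have hκρ : 2 * κ₂ ≤ 2 * κ₂ / ρ := by
    rw [le_div_iff₀ hρ]
    nlinarith
  have hl1 : 1 ≤ l := by
    have : 0 ≤ 120 * C ^ 2 * κ₂ / ε := by positivity
    linarith
  have hl0 : 0 < l := lt_of_lt_of_le one_pos hl1
  have hlρ : 2 * κ₂ / ρ ≤ l := by
    have : 0 ≤ 120 * C ^ 2 * κ₂ / ε := by positivity
    linarith
  have hlκ : 2 * κ₂ ≤ l := hκρ.trans hlρ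
  have hlε : 120 * C ^ 2 * κ₂ ≤ ε * l := by
    have h1 : 120 * C ^ 2 * κ₂ / ε ≤ l := by linarith
    rw [div_le_iff₀ hε] at h1
    linarith
  -- the sets
  obtain ⟨V, hV⟩ : ∃ V : Set E3, V = Ann (1 / (2 * κ₂) * l) (2 / κ₁ * l) := ⟨_, rfl⟩
  obtain ⟨U, hU⟩ : ∃ U : Set E3, U = Ann (κ₁ / (2 * l)) (2 * κ₂ / l) := ⟨_, rfl⟩
  have hVn : ∀ y ∈ V, 1 / (2 * κ₂) * l < ‖y‖ ∧ ‖y‖ < 2 / κ₁ * l := by
    intro y hy
    rw [hV] at hy
    exact hy
  have hVpos : ∀ y ∈ V, 0 < ‖y‖ := fun y hy => lt_trans (by positivity) (hVn y hy).1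
  have hV0 : V ⊆ {0}ᶜ := fun y hy => norm_pos_iff.1 (hVpos y hy)
  have hVt : ∀ y ∈ V, 1 / ‖y‖ ≤ 2 * κ₂ / l := by
    intro y hy
    have h1 := (hVn y hy).1
    rw [div_le_div_iff₀ (hVpos y hy) hl0]
    rw [one_div, inv_mul_lt_iff₀ (by positivity)] at h1
    linarith
  have hV1 : ∀ y ∈ V, 1 ≤ ‖y‖ := by
    intro y hy
    have h1 := hVt y hy
    have h2 : 2 * κ₂ / l ≤ 1 := (div_le_one hl0).2 hlκ
    have h3 := h1.trans h2
    rwa [div_le_one (hVpos y hy)] at h3
  have hVρ : ∀ y ∈ V, 1 / ρ < ‖y‖ := by
    intro y hy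
    refine lt_of_le_of_lt ?_ (hVn y hy).1
    rw [div_le_iff₀ hρ] at hlρ
    rw [div_le_iff₀ hρ, one_div, mul_assoc, inv_mul_eq_div, le_div_iff₀ (by positivity)]
    linarith
  obtain ⟨Bp, hBp⟩ : ∃ Bp : Set E3, Bp = {x : E3 | 0 < ‖x‖ ∧ ‖x‖ < ρ} := ⟨_, rfl⟩
  have hBo : IsOpen Bp := by
    rw [hBp]
    exact (isOpen_lt continuous_const continuous_norm).inter
      (isOpen_lt continuous_norm continuous_const)
  have hVB : Set.MapsTo inversion V Bp := by
    intro y hy
    have hp := hVpos y hy
    rw [hBp]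
    refine ⟨?_, ?_⟩
    · rw [HSM2.norm_inversion y (hV0 hy)]
      positivity
    · rw [HSM2.norm_inversion y (hV0 hy), inv_lt_comm₀ hp hρ, ← one_div]
      exact hVρ y hy
  rw [← hBp] at hg
  have hVU : Set.MapsTo inversion V U := by
    intro y hy
    rw [hU]
    have hp := hVpos y hy
    obtain ⟨h1, h2⟩ := hVn y hy
    refine ⟨?_, ?_⟩
    · rw [HSM2.norm_inversion y (hV0 hy), lt_inv_comm₀ (by positivity) hp, inv_div]
      calc ‖y‖ < 2 / κ₁ * l := h2
        _ = 2 * l / κ₁ := by ring
    · rw [HSM2.norm_inversion y (hV0 hy), inv_lt_comm₀ hp (by positivity), inv_div]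
      calc l / (2 * κ₂) = 1 / (2 * κ₂) * l := by ring
        _ < ‖y‖ := h1
  have hUo : IsOpen U := by
    rw [hU]
    exact (isOpen_lt continuous_const continuous_norm).inter
      (isOpen_lt continuous_norm continuous_const)
  have hVo : IsOpen V := by
    rw [hV]
    exact (isOpen_lt continuous_const continuous_norm).inter
      (isOpen_lt continuous_norm continuous_const)
  rw [← hU] at hx hu heq huS
  have hgg : ∀ x ∈ U, ∀ᶠ z in 𝓝 x, g' z = g z := fun x hxU => by
    filter_upwards [hUo.mem_nhds hxU] with z hz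
    exact (hx z hz).1
  -- the transformed function
  have hu2 := h2_inv hV0 hVU (h2_one_sub hu)
  have hpos : ∀ y ∈ V, (inverted g y).PosDef := fun y hy =>
    AFDaux.inverted_posDef (hV0 hy) (hg.posDef _ (hVB hy))
  have hellV : ∀ y ∈ V, ∀ v : Cov, (∑ i, v i ^ 2) ≤ C * ev (inverted g y) v v :=
    fun y hy v => (hell y (hVρ y hy).le v).1
  have hrel : ∀ y ∈ V, Rel (PenroseConvex.jac inversion y) (inverted g y)⁻¹
      (g (inversion y))⁻¹ := fun y hy => rel_chg (chg_inv hBo hg (hV0 hy) (hVB hy))
  -- the inequality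
  have hpde : ∀ᵐ y ∂(volume.restrict V),
      |∑ i, my (fun x => -G x) (fun x => -M x) y i i|
        ≤ (1 - ε / 2) * msz (my (fun x => -G x) (fun x => -M x) y)
          + C₁ / l * vsz (gy (fun x => -G x) y) := by
    have h1 := (qmp.restrict hVU).ae heq
    filter_upwards [h1, ae_restrict_mem hVo.measurableSet] with y hy hyV
    obtain ⟨hy1, hy2⟩ := hy
    by_cases hG0 : G (inversion y) = 0
    · have hM0 := hy2 hG0
      have e : ∑ i, my (fun x => -G x) (fun x => -M x) y i i = 0 := by
        refine Finset.sum_eq_zero fun i _ => ?_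
        simp [my, hG0, hM0]
      rw [e, abs_zero]
      have a1 := msz_nonneg (my (fun x => -G x) (fun x => -M x) y)
      have a2 := vsz_nonneg (gy (fun x => -G x) y)
      have a3 : 0 ≤ 1 - ε / 2 := by linarith
      positivity
    · have hxU := hVU hyV
      have hgx := hgg _ hxU
      have hy3 := hy1 hG0
      obtain ⟨hx1, -, hx3⟩ := hx _ hxU
      rw [cHess_congr hgx, beps_congr hx1, beps_congr hx1, len_congr hx1] at hy3
      have hgp : (g (inversion y)).PosDef := hg.posDef _ (hVB hyV)
      have hlen : len (inverted g) y (gy (fun x => -G x) y)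
          = len g (inversion y) (G (inversion y)) := by
        unfold gy
        rw [len_pc (hrel y hyV), len_neg]
      have hlp : 0 < len g (inversion y) (G (inversion y)) :=
        (GB.ALG g (inversion y) (G (inversion y)) hgp hG0).1
      have hp0 : gy (fun x => -G x) y ≠ 0 := by
        intro h0
        rw [h0, len_zero] at hlen
        exact hlp.ne hlen
      have hb : |beps ε (inverted g) y (gy (fun x => -G x) y)
          (cHess (inverted g) y (gy (fun x => -G x) y)
            (my (fun x => -G x) (fun x => -M x) y))|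
          ≤ len (inverted g) y (gy (fun x => -G x) y) * (4 * √C * (1 / ‖y‖) ^ 2) := by
        rw [hlen, cHess_invB hBo hg (hV0 hyV) (hVB hyV)]
        unfold gy
        rw [beps_invB hBo hg (hV0 hyV) (hVB hyV), cHess_neg, beps_neg, abs_neg]
        have e1 : beps ε g (inversion y) (G (inversion y))
            (cHess g (inversion y) (G (inversion y)) (M (inversion y)))
            = -(len g (inversion y) (G (inversion y))
              * beps ε g (inversion y) (G (inversion y)) (h' (inversion y))) := by linarith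
        rw [e1, abs_neg, abs_mul, abs_of_pos hlp]
        refine mul_le_mul_of_nonneg_left ?_ hlp.le
        refine (beps_le hgp _ _ hε.le (by linarith)).trans ?_
        have e2 : √(nsq g (inversion y) (h' (inversion y))) ≤ √C * (1 / ‖y‖) ^ 2 := by
          have hx4 : nsq g (inversion y) (h' (inversion y)) ≤ C * ‖inversion y‖ ^ 4 := by
            have e0 : nsq g (inversion y) (h' (inversion y))
                = nsq g' (inversion y) (h' (inversion y)) := by
              unfold nsq
              rw [hx1]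
            rw [e0]
            exact hx3
          calc √(nsq g (inversion y) (h' (inversion y))) ≤ √(C * ‖inversion y‖ ^ 4) :=
              Real.sqrt_le_sqrt hx4
            _ = √C * (1 / ‖y‖) ^ 2 := by
              rw [HSM2.norm_inversion y (hV0 hyV), Real.sqrt_mul hC.le, one_div,
                show (‖y‖⁻¹) ^ 4 = ((‖y‖⁻¹) ^ 2) ^ 2 by ring, Real.sqrt_sq (by positivity)]
        linarith
      have hpb := point_bound (g := inverted g) (y := y) (C := C) (t := 1 / ‖y‖)
        (B := 4 * √C) (ε := ε) hC (by positivity) (by positivity) hε.le (by linarith)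
        (hpos y hyV)
        (fun i j => by
          have h2 := (hdec y (hVρ y hyV).le i j).1
          rwa [mul_one_div])
        (fun i j k => by
          have h2 := (hdec y (hVρ y hyV).le i j).2.1 k
          rwa [div_pow, one_pow, mul_one_div])
        (hellV y hyV) hp0 (M := my (fun x => -G x) (fun x => -M x) y) hb
      refine hpb.trans ?_
      have t0 : 0 ≤ 1 / ‖y‖ := by positivity
      have t1 := hVt y hyV
      have a1 := msz_nonneg (my (fun x => -G x) (fun x => -M x) y)
      have a2 := vsz_nonneg (gy (fun x => -G x) y)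
      refine add_le_add (mul_le_mul_of_nonneg_right ?_ a1) (mul_le_mul_of_nonneg_right ?_ a2)
      · have h3 : 30 * C ^ 2 * (1 / ‖y‖) ≤ 30 * C ^ 2 * (2 * κ₂ / l) :=
          mul_le_mul_of_nonneg_left t1 (by positivity)
        have h4 : 30 * C ^ 2 * (2 * κ₂ / l) ≤ ε / 2 := by
          rw [mul_div_assoc', div_le_iff₀ hl0]
          linarith
        linarith
      · have h3 : (1 / ‖y‖) ^ 2 ≤ (2 * κ₂) ^ 2 / l := by
          calc (1 / ‖y‖) ^ 2 ≤ (2 * κ₂ / l) ^ 2 := pow_le_pow_left₀ t0 t1 2
            _ = (2 * κ₂) ^ 2 / l ^ 2 := by rw [div_pow]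
            _ ≤ (2 * κ₂) ^ 2 / l := by
              refine div_le_div_of_nonneg_left (by positivity) hl0 ?_
              nlinarith
        calc (√(3 * C) * (4 * √C) + 162 * C ^ 3) * (1 / ‖y‖) ^ 2
            ≤ (√(3 * C) * (4 * √C) + 162 * C ^ 3) * ((2 * κ₂) ^ 2 / l) :=
              mul_le_mul_of_nonneg_left h3 (by positivity)
          _ = C₁ / l := by rw [hC₁]; ring
  -- the local estimate
  obtain ⟨hint, hle⟩ := hLE' l S (fun y => 1 - u (inversion y)) (gy (fun x => -G x))
    (my (fun x => -G x) (fun x => -M x)) hl0 hS (by rw [← hV]; exact hu2)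
    (by
      rw [← hV]
      intro y hy
      exact huS _ (hVU hy))
    (by rw [← hV]; exact hpde)
  -- change of variables
  obtain ⟨K, hKdef⟩ : ∃ K : Set E3, K = cAnn (1 / κ₂ * l) (1 / κ₁ * l) := ⟨_, rfl⟩
  rw [← hKdef] at hint hle
  have hKV : K ⊆ V := by
    intro y hy
    rw [hKdef] at hy
    rw [hV]
    refine ⟨lt_of_lt_of_le ?_ hy.1, lt_of_le_of_lt hy.2 ?_⟩
    · refine mul_lt_mul_of_pos_right ?_ hl0
      rw [div_lt_div_iff₀ (by positivity) hκ₂]
      linarith
    · refine mul_lt_mul_of_pos_right ?_ hl0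
      rw [div_lt_div_iff₀ hκ₁ hκ₁]
      linarith
  have hKc : IsCompact K := by rw [hKdef]; exact AFDaux.isCompact_cAnn _ _
  have hK0 : K ⊆ {0}ᶜ := hKV.trans hV0
  have himg : cAnn (κ₁ / l) (κ₂ / l) = inversion '' K := by
    rw [hKdef, ← mem_image_inversion (a := κ₁ / l) (b := κ₂ / l) (by positivity)
      (by positivity), inv_div, inv_div]
    congr 2 <;> ring
  have hgi : MetricOn V (inverted g) := inverted_metricB hV0 hVB hg
  -- the integrand
  have hval : ∀ y ∈ K, |(inversionJac y).det| * (len g' (inversion y) (G (inversion y)) ^ 3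
      * volDen g' (inversion y))
      = len (inverted g) y (gy (fun x => -G x) y) ^ 3 * volDen (inverted g) y := by
    intro y hy
    have hyV := hKV hy
    have hx1 := (hx _ (hVU hyV)).1
    have hlen : len (inverted g) y (gy (fun x => -G x) y)
        = len g (inversion y) (G (inversion y)) := by
      unfold gy
      rw [len_pc (hrel y hyV), len_neg]
    rw [hlen, volDen_chg (chg_inv hBo hg (hV0 hyV) (hVB hyV)), jac_inversion (hV0 hyV), len_congr hx1]
    unfold volDen
    rw [hx1]
    ring
  have hbd : ∀ y ∈ K, len (inverted g) y (gy (fun x => -G x) y) ^ 3 * volDen (inverted g) y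
      ≤ D * vsz (gy (fun x => -G x) y) ^ 3 := by
    intro y hy
    have hyV := hKV hy
    have b1 := len_le hC.le (hpos y hyV).det_pos.ne'.isUnit (hellV y hyV)
      (gy (fun x => -G x) y)
    have b2 : volDen (inverted g) y ≤ √(6 * (1 + C) ^ 3) := by
      refine Real.sqrt_le_sqrt (det_le (by positivity) fun i j => ?_)
      have h2 := (hdec y (hVρ y hyV).le i j).1
      have h3 : C / ‖y‖ ≤ C := div_le_self hC.le (hV1 y hyV)
      have h4 : |(1 : Bil) i j| ≤ 1 := by
        rw [Matrix.one_apply]
        split_ifs <;> simp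
      have h5 : inverted g y i j = (inverted g y i j - (1 : Bil) i j) + (1 : Bil) i j := by ring
      rw [h5]
      refine (abs_add_le _ _).trans ?_
      linarith
    have b3 : 0 ≤ len (inverted g) y (gy (fun x => -G x) y) := Real.sqrt_nonneg _
    calc len (inverted g) y (gy (fun x => -G x) y) ^ 3 * volDen (inverted g) y
        ≤ (√(3 * C) * vsz (gy (fun x => -G x) y)) ^ 3 * √(6 * (1 + C) ^ 3) :=
          mul_le_mul (pow_le_pow_left₀ b3 b1 3) b2 (Real.sqrt_nonneg _)
            (by have := vsz_nonneg (gy (fun x => -G x) y); positivity)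
      _ = D * vsz (gy (fun x => -G x) y) ^ 3 := by rw [hD]; ring
  have hnn : ∀ y, 0 ≤ len (inverted g) y (gy (fun x => -G x) y) ^ 3
      * volDen (inverted g) y := fun y => by
    have b3 : 0 ≤ len (inverted g) y (gy (fun x => -G x) y) := Real.sqrt_nonneg _
    have b4 : 0 ≤ volDen (inverted g) y := Real.sqrt_nonneg _
    positivity
  have hint2 : IntegrableOn (fun y => len (inverted g) y (gy (fun x => -G x) y) ^ 3
      * volDen (inverted g) y) K := by
    refine Integrable.mono' (hint.const_mul D)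
      (meas_lenB hVo hKV hKc.measurableSet hgi fun i => (hu2.memG K hKc hKV i).1) ?_
    filter_upwards [ae_restrict_mem hKc.measurableSet] with y hy
    rw [Real.norm_of_nonneg (hnn y)]
    exact hbd y hy
  rw [himg]
  constructor
  · rw [integrableOn_image hKc.measurableSet hK0]
    exact hint2.congr_fun (fun y hy => (hval y hy).symm) hKc.measurableSet
  · rw [integral_image hKc.measurableSet hK0]
    calc ∫ y in K, |(inversionJac y).det| * (len g' (inversion y) (G (inversion y)) ^ 3
          * volDen g' (inversion y))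
        = ∫ y in K, len (inverted g) y (gy (fun x => -G x) y) ^ 3 * volDen (inverted g) y :=
          setIntegral_congr_fun hKc.measurableSet fun y hy => hval y hy
      _ ≤ ∫ y in K, D * vsz (gy (fun x => -G x) y) ^ 3 :=
          setIntegral_mono_on hint2 (hint.const_mul D) hKc.measurableSet fun y hy => hbd y hy
      _ = D * ∫ y in K, vsz (gy (fun x => -G x) y) ^ 3 := integral_const_mul _ _
      _ ≤ D * (CL * S ^ 3) := mul_le_mul_of_nonneg_left hle hD0.le
      _ = D * CL * S ^ 3 := by ring

end Pool.Agent.PFU
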