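import Pool.Agent.PFU.StmtsF

/-!
# The limit `τ → 0`, `ε → 0` for the joint flow from several ends
-/

set_option autoImplicit false

open MeasureTheory Filter Topology
open scoped ContDiff ENNReal

namespace Pool.Agent.PFU

namespace LIMUm

/-- The right hand side with `τ = ε`. -/
noncomputable def F (m V D C ε : ℝ) : ℝ :=
  ((4 * Real.pi * (2 - ε) ^ 2 + ε)
    * ((4 * Real.pi * (2 - ε) - C * ε - ε) / (8 * Real.pi * m)) ^ (-(2 - ε))
    * D) ^ (1 / (1 + ε)) * V ^ (ε / (1 + ε))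

theorem F_tendsto {m V D C : ℝ} (hm : 0 < m) (hV : 0 < V) :
    Tendsto (F m V D C) (𝓝[>] 0) (𝓝 (16 * Real.pi * m ^ 2 * D)) := by
  have hpi := Real.pi_pos
  have hc : ContinuousAt (F m V D C) 0 := by
    unfold F
    have e1 : ContinuousAt (fun ε : ℝ => 1 / (1 + ε)) 0 :=
      ContinuousAt.div continuousAt_const (by fun_prop) (by norm_num)
    have e2 : ContinuousAt (fun ε : ℝ => ε / (1 + ε)) 0 :=
      ContinuousAt.div continuousAt_id (by fun_prop) (by norm_num)
    have e3 : ContinuousAt (fun ε : ℝ => ((4 * Real.pi * (2 - ε) - C * ε - ε) / (8 * Real.pi * m))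
        ^ (-(2 - ε))) 0 := by
      refine ContinuousAt.rpow (by fun_prop) (by fun_prop) (Or.inl ?_)
      have : 0 < (4 * Real.pi * (2 - 0) - C * 0 - 0) / (8 * Real.pi * m) := by
        apply div_pos <;> [(ring_nf; positivity); positivity]
      exact this.ne'
    have e4 : ContinuousAt (fun ε : ℝ => (4 * Real.pi * (2 - ε) ^ 2 + ε)
        * ((4 * Real.pi * (2 - ε) - C * ε - ε) / (8 * Real.pi * m)) ^ (-(2 - ε)) * D) 0 :=
      ((by fun_prop : ContinuousAt (fun ε : ℝ => 4 * Real.pi * (2 - ε) ^ 2 + ε) 0).mul e3).mul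
        continuousAt_const
    refine (ContinuousAt.rpow e4 e1 (Or.inr (by norm_num))).mul
      (ContinuousAt.rpow continuousAt_const e2 (Or.inl hV.ne'))
  have hv : F m V D C 0 = 16 * Real.pi * m ^ 2 * D := by
    unfold F
    have h1 : (4 * Real.pi * (2 - 0) - C * 0 - 0) / (8 * Real.pi * m) = m⁻¹ := by
      field_simp
      ring
    rw [h1]
    have h2 : (m⁻¹ : ℝ) ^ (-(2 - 0 : ℝ)) = m ^ 2 := by
      rw [sub_zero, Real.rpow_neg (by positivity), Real.rpow_two, inv_pow, inv_inv]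
    rw [h2, add_zero, add_zero, zero_div, Real.rpow_zero, mul_one, div_one, Real.rpow_one,
      sub_zero]
    ring
  rw [← hv]
  exact hc.tendsto.mono_left nhdsWithin_le_nhds

end LIMUm

open LIMUm in
theorem t_LIMU : Stmt_LIMU := by
  intro m A c V C₀ ε₁ hV hA hc hC₀ hε₁ H
  have hpi := Real.pi_pos
  have hpi3 := Real.pi_gt_three
  obtain ⟨e₀, he₀⟩ : ∃ e₀ : ℝ, e₀ = min ε₁ (min (1 / 2) (1 / (C₀ + 1))) := ⟨_, rfl⟩
  have he₀0 : 0 < e₀ := by rw [he₀]; exact lt_min hε₁ (lt_min (by norm_num) (by positivity))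
  have he₀1 : e₀ ≤ ε₁ := by rw [he₀]; exact min_le_left _ _
  have he₀2 : e₀ ≤ 1 / 2 := by rw [he₀]; exact (min_le_right _ _).trans (min_le_left _ _)
  have he₀3 : e₀ ≤ 1 / (C₀ + 1) := by
    rw [he₀]; exact (min_le_right _ _).trans (min_le_right _ _)
  have hCe : ∀ ε : ℝ, 0 < ε → ε ≤ e₀ → C₀ * ε ≤ 1 := by
    intro ε h0 h1
    have h2 : ε ≤ 1 / (C₀ + 1) := h1.trans he₀3
    rw [le_div_iff₀ (by positivity)] at h2
    nlinarith
  have hm : 0 < m := by
    obtain ⟨lm, J, h1, h2, h3, _⟩ := H e₀ 1 e₀ 1 he₀0 he₀1 one_pos le_rfl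
      (by linarith) le_rfl
    by_contra hneg
    have h4 : 8 * Real.pi * m * lm ≤ 0 := by
      have : 8 * Real.pi * m ≤ 0 := mul_nonpos_of_nonneg_of_nonpos (by positivity) (not_lt.mp hneg)
      exact mul_nonpos_of_nonpos_of_nonneg this h1.le
    have h5 := hCe e₀ he₀0 le_rfl
    nlinarith
  refine ⟨hm, ?_⟩
  obtain ⟨B, hB⟩ : ∃ B : ℝ, B = c * (16 * Real.pi * m ^ 2) := ⟨_, rfl⟩
  have hB0 : 0 ≤ B := by rw [hB]; positivity
  -- the inequality for two levels
  have key : ∀ s₀ s₁ : ℝ, 0 < s₀ → s₀ < s₁ → s₁ ≤ 1 →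
      A * (s₁ - s₀) ≤ B * (Real.exp s₁ - Real.exp s₀) := by
    intro s₀ s₁ h0 h1 h2
    have hD : 0 < Real.exp s₁ - Real.exp s₀ := sub_pos.mpr (Real.exp_lt_exp.mpr h1)
    have hlim : Tendsto (fun ε : ℝ => c * F m V (Real.exp s₁ - Real.exp s₀) C₀ ε) (𝓝[>] 0)
        (𝓝 (B * (Real.exp s₁ - Real.exp s₀))) := by
      have h3 := (F_tendsto (D := Real.exp s₁ - Real.exp s₀) (C := C₀) hm hV).const_mul c
      have e : c * (16 * Real.pi * m ^ 2 * (Real.exp s₁ - Real.exp s₀)) =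
          B * (Real.exp s₁ - Real.exp s₀) := by rw [hB]; ring
      rw [e] at h3
      exact h3
    refine ge_of_tendsto hlim ?_
    have hev : ∀ᶠ ε : ℝ in 𝓝[>] 0, ε < min s₀ e₀ :=
      nhdsWithin_le_nhds (eventually_lt_nhds (lt_min h0 he₀0))
    filter_upwards [hev, self_mem_nhdsWithin] with ε hε1 hε0
    have hε0' : 0 < ε := hε0
    have hεs : ε < s₀ := hε1.trans_le (min_le_left _ _)
    have hεe : ε < e₀ := hε1.trans_le (min_le_right _ _)
    have hεh : ε < 1 / 2 := hεe.trans_le he₀2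
    have hCε := hCe ε hε0' hεe.le
    obtain ⟨lm, J, g1, g2, g3, g4, g5⟩ :=
      H ε ε s₀ s₁ hε0' (hεe.le.trans he₀1) hε0' hεs.le h1 h2
    refine g5.trans (mul_le_mul_of_nonneg_left ?_ hc)
    have hL : 0 < (4 * Real.pi * (2 - ε) - C₀ * ε - ε) / (8 * Real.pi * m) := by
      apply div_pos _ (by positivity)
      nlinarith
    unfold F
    have hLl : (4 * Real.pi * (2 - ε) - C₀ * ε - ε) / (8 * Real.pi * m) ≤ lm := by
      rw [div_le_iff₀ (by positivity)]
      linarith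
    have hJ : J ≤ (4 * Real.pi * (2 - ε) ^ 2 + ε)
        * ((4 * Real.pi * (2 - ε) - C₀ * ε - ε) / (8 * Real.pi * m)) ^ (-(2 - ε)) := by
      have h5 : J ≤ (4 * Real.pi * (2 - ε) ^ 2 + ε) * lm ^ (-(2 - ε)) := by
        rw [Real.rpow_neg g1.le, ← div_eq_mul_inv, le_div_iff₀ (Real.rpow_pos_of_pos g1 _)]
        exact g4
      refine h5.trans (mul_le_mul_of_nonneg_left ?_ (by positivity))
      exact Real.rpow_le_rpow_of_nonpos hL hLl (by linarith)
    refine mul_le_mul_of_nonneg_right ?_ (Real.rpow_nonneg hV.le _)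
    refine Real.rpow_le_rpow (mul_nonneg g2 hD.le) ?_ (by positivity)
    exact mul_le_mul_of_nonneg_right hJ hD.le
  have h1 : ∀ s : ℝ, 0 < s → s ≤ 1 / 2 → A ≤ B * Real.exp (2 * s) := by
    intro s hs hs2
    have h2 := key s (2 * s) hs (by linarith) (by linarith)
    have h3 : Real.exp (2 * s) - Real.exp s ≤ s * Real.exp (2 * s) := by
      have h4 : Real.exp s = Real.exp (2 * s) * Real.exp (-s) := by
        rw [← Real.exp_add]
        congr 1
        ring
      have h5 : 1 - s ≤ Real.exp (-s) := by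
        have := Real.add_one_le_exp (-s)
        linarith
      have h6 : Real.exp (2 * s) * (1 - s) ≤ Real.exp (2 * s) * Real.exp (-s) :=
        mul_le_mul_of_nonneg_left h5 (Real.exp_pos _).le
      rw [h4]
      linarith
    have h7 : A * s ≤ (B * Real.exp (2 * s)) * s := by
      have h8 : B * (Real.exp (2 * s) - Real.exp s) ≤ B * (s * Real.exp (2 * s)) :=
        mul_le_mul_of_nonneg_left h3 hB0
      have h9 : 2 * s - s = s := by ring
      rw [h9] at h2
      linarith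
    exact le_of_mul_le_mul_right h7 hs
  have h2 : Tendsto (fun s : ℝ => B * Real.exp (2 * s)) (𝓝[>] 0)
      (𝓝 (B * Real.exp (2 * 0))) := by
    have : Continuous fun s : ℝ => B * Real.exp (2 * s) := by fun_prop
    exact this.continuousAt.tendsto.mono_left nhdsWithin_le_nhds
  rw [mul_zero, Real.exp_zero, mul_one] at h2
  rw [← hB]
  refine ge_of_tendsto h2 ?_
  have hev : ∀ᶠ s : ℝ in 𝓝[>] 0, s < 1 / 2 :=
    nhdsWithin_le_nhds (eventually_lt_nhds (by norm_num))
  filter_upwards [hev, self_mem_nhdsWithin] with s hs1 hs0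
  exact h1 s hs0 hs1.le

end Pool.Agent.PFU
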