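import Pool.Agent.PFU.StmtsP

/-!
# Block PT, module LIMXT: existence of the two sequences of regularised solutions and of their limits
-/

open MeasureTheory Filter Topology Set
open scoped ContDiff RealInnerProductSpace

namespace Pool.Agent.PFU

open Pool.Agent.PenroseSph Pool.Agent.PFlow Pool.Agent.PFT Pool.Agent.PFlow.PB

namespace LimXTm

theorem gdata_zero {g h : TensorField} {r : ℝ} (hd : GData g h r) : GData g 0 r := by
  refine ⟨hd.met, ⟨?_, ?_⟩, fun x hx => ⟨(hd.flat x hx).1, rfl⟩⟩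
  · intro i j
    exact contDiffOn_const
  · intro x _
    exact Matrix.isSymm_zero

theorem gdata_mono {g h : TensorField} {r r' : ℝ} (hd : GData g h r) (hr : r ≤ r') :
    GData g h r' := ⟨hd.met, hd.ten, fun x hx => hd.flat x (hr.trans hx)⟩

/-- the solutions for fixed parameters -/
theorem sols {ε b : ℝ} {g k : TensorField} {Θ θ : E3 → ℝ} {B t₀ : ℝ} (hε : 0 < ε) (hε1 : ε < 1)
    (hr : 0 < 3 * b / 2) (hd2 : GData g k (3 * b / 2)) (hpen : Pen Θ θ B t₀ (3 * b / 2))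
    (δ : ℝ) (hδ : 0 < δ) : ∃ (u : E3 → ℝ) (G : E3 → E3) (M : Fin 3 → E3 → E3),
      WSol (cA ε δ δ g) (cB ε δ g k) Θ θ u G ∧ H2 u G M ∧ Continuous u ∧
      ∀ x, 0 ≤ u x ∧ u x ≤ 1 := by
  obtain ⟨c, L, hcoef⟩ := pBRID.coef ε δ δ g k (3 * b / 2) hε hε1 hδ hδ hr hd2
  obtain ⟨u, G, hsol, h01⟩ := pEXI _ _ c L _ Θ θ B t₀ hcoef hpen
  obtain ⟨M, hM⟩ := pHTWO _ _ c L _ Θ θ B t₀ hcoef hpen u G hsol
  obtain ⟨C, _, hC⟩ := pCONT
  obtain ⟨w, hw1, _, hw3⟩ := hC u G M hM
  have hwc : Continuous w := LimXm.cont_of_holder hw3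
  refine ⟨w, G, M, LimXm.wsol_congr pAPI1 hsol hw1, LimXm.h2_congr pAPI1 hM hw1, hwc, ?_⟩
  apply LimXm.all_of_ae
  · exact (isClosed_le continuous_const hwc).inter (isClosed_le hwc continuous_const)
  · filter_upwards [hw1, h01] with x hx1 hx2
    rw [hx1]
    exact hx2

end LimXTm

open LimXTm in
/-- LIMXT: existence of the sequences for the tensors `0` and `h` and of their limits. -/
theorem t_LIMXT (hPENT : Stmt_PENT) (hCLOSET : Stmt_CLOSET) (hPAIRC : Stmt_PAIRC)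
    (hKNN : Stmt_KNN) : Stmt_LIMXT := by
  intro ε a b η T g h hε hε1 hpts hη hd htn
  have hd0 : GData g 0 (b / 2) := gdata_zero hd
  obtain ⟨l₁, hl₁, hclose₁⟩ := hCLOSET ε a b η T g 0 hε hε1 hpts hη hd0
  obtain ⟨l₂, hl₂, hclose₂⟩ := hCLOSET ε a b η T g h hε hε1 hpts hη hd
  obtain ⟨lam, hlam⟩ : ∃ lam, lam = max l₁ l₂ := ⟨_, rfl⟩
  have hlam0 : 0 < lam := by
    rw [hlam]
    exact lt_max_of_lt_left hl₁
  have hlam1 : l₁ ≤ lam := by
    rw [hlam]
    exact le_max_left _ _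
  have hlam2 : l₂ ≤ lam := by
    rw [hlam]
    exact le_max_right _ _
  have hpen := hPENT T a b lam hpts hlam0
  have hc₁ := hclose₁ lam hlam1
  have hc₂ := hclose₂ lam hlam2
  clear hclose₁ hclose₂
  obtain ⟨Θ, hΘ⟩ : ∃ Θ : E3 → ℝ, Θ = fun x => lam * (penI T a x + Close.chi2 b x) := ⟨_, rfl⟩
  obtain ⟨θ, hθ⟩ : ∃ θ : E3 → ℝ, θ = fun x => lam * penI T a x := ⟨_, rfl⟩
  rw [← hΘ, ← hθ] at hpen
  rw [← hΘ, ← hθ] at hc₁ hc₂
  obtain ⟨p₀, hp₀⟩ := hpts.ne
  have hbpos : 0 < b := by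
    have h1 := hpts.inside p₀ hp₀
    have h2 := norm_nonneg p₀
    have h3 := hpts.pos
    linarith
  have hr : 0 < 3 * b / 2 := by linarith
  have hd2 : GData g h (3 * b / 2) := gdata_mono hd (by linarith)
  have hd02 : GData g 0 (3 * b / 2) := gdata_mono hd0 (by linarith)
  have hδpos : ∀ n : ℕ, (0 : ℝ) < 1 / ((n : ℝ) + 1) := fun n => by positivity
  have hδle : ∀ n : ℕ, 1 / ((n : ℝ) + 1) ≤ (1 : ℝ) := by
    intro n
    rw [div_le_one (by positivity)]
    have : (0 : ℝ) ≤ n := Nat.cast_nonneg n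
    linarith
  have hδt : Tendsto (fun n : ℕ => 1 / ((n : ℝ) + 1)) atTop (𝓝 0) :=
    tendsto_one_div_add_atTop_nhds_zero_nat
  choose u₀ G₀ M₀ hsol₀ hH2₀ hcont₀ h01₀ using fun n : ℕ =>
    sols hε hε1 hr hd02 hpen.pen (1 / ((n : ℝ) + 1)) (hδpos n)
  choose u G M hsol hH2 hcont h01 using fun n : ℕ =>
    sols hε hε1 hr hd2 hpen.pen (1 / ((n : ℝ) + 1)) (hδpos n)
  -- the comparison
  have hle : ∀ n x, u₀ n x ≤ u n x := by
    intro n
    obtain ⟨c, L, hcoef⟩ := pBRID.coef ε (1 / ((n : ℝ) + 1)) (1 / ((n : ℝ) + 1)) g h (3 * b / 2)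
      hε hε1 (hδpos n) (hδpos n) hr hd2
    have hk : ∀ x ξ : E3, 0 ≤ cB ε (1 / ((n : ℝ) + 1)) g h x ξ ∧
        cB ε (1 / ((n : ℝ) + 1)) g 0 x ξ = 0 := fun x ξ =>
      hKNN ε (1 / ((n : ℝ) + 1)) g h x hε hε1 (hδpos n) (hd.met.posDef x (mem_univ x))
        (hd.ten.symm x (mem_univ x)) (htn x (mem_univ x)) ξ
    have h0 : cB ε (1 / ((n : ℝ) + 1)) g 0 = fun _ _ => 0 := by
      funext x ξ
      exact (hk x ξ).2
    have hs0 := hsol₀ n
    rw [h0] at hs0
    have hae := hPAIRC _ _ c L _ Θ θ _ _ hcoef hpen.pen (fun x ξ => (hk x ξ).1)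
      (u₀ n) (G₀ n) (u n) (G n) hs0 (hsol n)
    exact LimXm.all_of_ae (isClosed_le (hcont₀ n) (hcont n)) hae
  -- the bounds
  obtain ⟨C₀, hC₀⟩ := pUNIF pNDIV ε g 0 (3 * b / 2) Θ θ _ _ hε hε1 hr hd02 hpen.pen
  obtain ⟨C, hC⟩ := pUNIF pNDIV ε g h (3 * b / 2) Θ θ _ _ hε hε1 hr hd2 hpen.pen
  have hbound₀ : ∀ n, PB.sq (u₀ n) + sqv (G₀ n) + ∑ i, sqv (M₀ n i) ≤ C₀ := fun n =>
    hC₀ _ _ (hδpos n) (hδle n) (hδpos n) (hδle n) (u₀ n) (G₀ n) (M₀ n) (hsol₀ n) (hH2₀ n)
      (Filter.Eventually.of_forall (h01₀ n))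
  have hbound : ∀ n, PB.sq (u n) + sqv (G n) + ∑ i, sqv (M n i) ≤ C := fun n =>
    hC _ _ (hδpos n) (hδle n) (hδpos n) (hδle n) (u n) (G n) (M n) (hsol n) (hH2 n)
      (Filter.Eventually.of_forall (h01 n))
  -- the limits
  obtain ⟨r, v₀, F₀, N₀, hrm, hv₀, hvc₀, hunif₀, hstrong₀, hae₀, hweak₀⟩ :=
    pCPT u₀ G₀ M₀ C₀ hH2₀ hcont₀ hbound₀
  obtain ⟨t, v, F, N, htm, hv, hvc, hunif, hstrong, hae, hweak⟩ :=
    pCPT (fun n => u (r n)) (fun n => G (r n)) (fun n => M (r n)) C (fun n => hH2 (r n))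
      (fun n => hcont (r n)) (fun n => hbound (r n))
  have ht := htm.tendsto_atTop
  have hs : Tendsto (fun n => r (t n)) atTop atTop := hrm.tendsto_atTop.comp ht
  have hunif₀' : ∀ K : Set E3, IsCompact K →
      TendstoUniformlyOn (fun n => u₀ (r (t n))) v₀ atTop K := fun K hK =>
    (hunif₀ K hK).seq_tendstoUniformlyOn t ht
  have hpt₀ : ∀ x, Tendsto (fun n => u₀ (r (t n)) x) atTop (𝓝 (v₀ x)) := fun x =>
    (hunif₀' {x} isCompact_singleton).tendsto_at (mem_singleton x)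
  have hpt : ∀ x, Tendsto (fun n => u (r (t n)) x) atTop (𝓝 (v x)) := fun x =>
    (hunif {x} isCompact_singleton).tendsto_at (mem_singleton x)
  refine ⟨Θ, θ, lam * ((T.card : ℝ) + 1), lam, fun n => 1 / ((r (t n) : ℝ) + 1), fun n => 1 / ((r (t n) : ℝ) + 1),
    fun n => u₀ (r (t n)), fun n => G₀ (r (t n)), fun n => M₀ (r (t n)), C₀, v₀, F₀, N₀,
    fun n => u (r (t n)), fun n => G (r (t n)), fun n => M (r (t n)), C, v, F, N,
    ?_, ?_, ?_, ?_, ?_, ?_, ?_⟩
  · exact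
      { eps_pos := hε
        eps_lt := hε1
        pts := hpts
        data := hd0
        pen := hpen
        δ_pos := fun n => hδpos (r (t n))
        δ_le := fun n => hδle (r (t n))
        δ_tend := hδt.comp hs
        κ_pos := fun n => hδpos (r (t n))
        κ_le := fun n => hδle (r (t n))
        κ_tend := hδt.comp hs
        sol := fun n => hsol₀ (r (t n))
        h2 := fun n => hH2₀ (r (t n))
        cont := fun n => hcont₀ (r (t n))
        nonneg := fun n x => (h01₀ (r (t n)) x).1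
        le_one := fun n x => (h01₀ (r (t n)) x).2
        bound := fun n => hbound₀ (r (t n))
        h2v := hv₀
        contv := hvc₀
        unif := hunif₀'
        strong := fun K hK => (hstrong₀ K hK).comp ht
        ae := by
          filter_upwards [hae₀] with x hx
          exact hx.comp ht
        weak := fun ψ hψ i j => (hweak₀ ψ hψ i j).comp ht }
  · exact
      { eps_pos := hε
        eps_lt := hε1
        pts := hpts
        data := hd
        pen := hpen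
        δ_pos := fun n => hδpos (r (t n))
        δ_le := fun n => hδle (r (t n))
        δ_tend := hδt.comp hs
        κ_pos := fun n => hδpos (r (t n))
        κ_le := fun n => hδle (r (t n))
        κ_tend := hδt.comp hs
        sol := fun n => hsol (r (t n))
        h2 := fun n => hH2 (r (t n))
        cont := fun n => hcont (r (t n))
        nonneg := fun n x => (h01 (r (t n)) x).1
        le_one := fun n x => (h01 (r (t n)) x).2
        bound := fun n => hbound (r (t n))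
        h2v := hv
        contv := hvc
        unif := hunif
        strong := hstrong
        ae := hae
        weak := hweak }
  · intro p hp x hx
    refine ge_of_tendsto' (hpt₀ x) fun n => ?_
    exact (hc₁ _ _ (hδpos _) (hδle _) (hδpos _) (hδle _) _ _ (hsol₀ (r (t n)))
      (hcont₀ (r (t n))) (h01₀ (r (t n)))).1 p hp x hx
  · intro x hx
    refine le_of_tendsto' (hpt₀ x) fun n => ?_
    exact (hc₁ _ _ (hδpos _) (hδle _) (hδpos _) (hδle _) _ _ (hsol₀ (r (t n)))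
      (hcont₀ (r (t n))) (h01₀ (r (t n)))).2 x hx
  · intro p hp x hx
    refine ge_of_tendsto' (hpt x) fun n => ?_
    exact (hc₂ _ _ (hδpos _) (hδle _) (hδpos _) (hδle _) _ _ (hsol (r (t n)))
      (hcont (r (t n))) (h01 (r (t n)))).1 p hp x hx
  · intro x hx
    refine le_of_tendsto' (hpt x) fun n => ?_
    exact (hc₂ _ _ (hδpos _) (hδle _) (hδpos _) (hδle _) _ _ (hsol (r (t n)))
      (hcont (r (t n))) (h01 (r (t n)))).2 x hx
  · intro x
    exact le_of_tendsto_of_tendsto' (hpt₀ x) (hpt x) fun n => hle (r (t n)) x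

end Pool.Agent.PFU
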