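import Pool.Agent.PFU.StmtsL
import Pool.Agent.PFT.LOCUT
import Pool.Agent.PFT.TRN

/-!
# LOCIT: location of the level sets for several ends, uniformly in `ε`
-/

open MeasureTheory Filter Topology
open scoped ContDiff ENNReal

namespace Pool.Agent.PFU

open Pool.Agent.PenroseSph Pool.Agent.PFlow Pool.Agent.PFT

namespace LOCIT

open Pool.Agent.PFlow.LOCU Pool.Agent.PFT.LOCUTAux

/-- Translation of the gradient. -/
theorem gradS (F : E3 → ℝ) (p x : E3) :
    grad (fun y => F (y - p)) x = grad F (x - p) := by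
  funext i
  have h := TRN.pdS F (-p) i x
  simp only [← sub_eq_add_neg] at h
  exact h

/-- Translation of the second derivatives. -/
theorem hessS (F : E3 → ℝ) (p x : E3) :
    hess2 (fun y => F (y - p)) x = hess2 F (x - p) := by
  have h1 : ∀ (H : E3 → ℝ) (j : Fin 3), pd j (fun y => H (y - p)) = fun y => pd j H (y - p) := by
    intro H j
    have h := TRN.pdS' H (-p) j
    simp only [← sub_eq_add_neg] at h
    exact h
  unfold hess2
  ext i j
  simp only [Matrix.of_apply]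
  rw [h1 F j, h1 (pd j F) i]

/-- Translation of the operator. -/
theorem opS (ε : ℝ) (g h : TensorField) (F : E3 → ℝ) (p x : E3) :
    opN ε g h (fun y => F (y - p)) x = opN ε (shift p g) (shift p h) F (x - p) := by
  have hc : ∀ (q : Cov) (N : Bil), cHess (shift p g) (x - p) q N = cHess g x q N := by
    intro q N
    unfold cHess
    simp only [TRN.christoffelS, sub_add_cancel]
  have hg : shift p g (x - p) = g x := by unfold shift; rw [sub_add_cancel]
  have hh : shift p h (x - p) = h x := by unfold shift; rw [sub_add_cancel]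
  unfold opN
  rw [gradS, hessS, hc, hh]
  have hl : ∀ q : Cov, len (shift p g) (x - p) q = len g x q := by
    intro q
    unfold len
    rw [hg]
  have hb : ∀ (q : Cov) (N : Bil), beps ε (shift p g) (x - p) q N = beps ε g x q N := by
    intro q N
    have hn : nrm (shift p g) (x - p) q = nrm g x q := by
      funext i
      unfold nrm
      rw [hl]
      unfold raise
      rw [hg]
    unfold beps trg bnn
    rw [hn]
    simp only [hg]
  rw [hl, hb, hb]

/-- Comparison with the lower barrier on `1/(2R) ≤ |x - p| ≤ ρ₁`. -/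
theorem lower {T : Finset E3} {p : E3} {ε C R η ρ₁ : ℝ} {g h : TensorField}
    {u : E3 → ℝ} {G : E3 → Cov} {M : E3 → Bil} (hp : p ∈ T) (hC : 0 < C) (hε : 0 < ε)
    (hε2 : ε ≤ 1 / 2)
    (hR : 2 ≤ R) (hη1 : η < 1) (hρ : 1 / (2 * R) < ρ₁) (hpR : ‖p‖ + ρ₁ ≤ R)
    (hg : MetricOn Set.univ g)
    (hbar : ∀ x : E3, 1 / (8 * R) ≤ ‖x‖ → ‖x‖ ≤ ρ₁ →
      |barB ε (shift p g) (shift p h) x - bE ε ‖x‖| ≤ C / (1 + ‖x‖ ^ 2))
    (hsol : SolutionT T ε (1 / R) R η g h u G M) {x : E3} (hx : x - p ∈ cAnn (1 / (2 * R)) ρ₁) :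
    (1 - η) * (phiB ε 1 (C + 1) ‖x - p‖ - phiB ε 1 (C + 1) ρ₁)
      ≤ u x * (phiB ε 1 (C + 1) (1 / (2 * R)) - phiB ε 1 (C + 1) ρ₁) := by
  have hR0 : 0 < R := by linarith
  have ha0 : 0 < 1 / (2 * R) := by positivity
  have hρ0 : 0 < ρ₁ := ha0.trans hρ
  have hanti := strictAnti PHI hε hε2 (by linarith : 0 ≤ C + 1) (Or.inl rfl)
  have hD : 0 < phiB ε 1 (C + 1) (1 / (2 * R)) - phiB ε 1 (C + 1) ρ₁ := by
    have := hanti (Set.mem_Ioi.2 ha0) (Set.mem_Ioi.2 hρ0) hρ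
    linarith
  set D := phiB ε 1 (C + 1) (1 / (2 * R)) - phiB ε 1 (C + 1) ρ₁ with hDdef
  set k := (1 - η) / D with hk
  have hkpos : 0 < k := div_pos (by linarith) hD
  set e := Homeomorph.subRight p with he
  have hcomp : IsCompact (e ⁻¹' (cAnn (1 / (2 * R)) ρ₁)) :=
    e.isCompact_preimage.2 (isCompact_cAnn _ _)
  set Φ : E3 → ℝ := fun y => k * (phiB ε 1 (C + 1) ‖y‖ - phiB ε 1 (C + 1) ρ₁) with hΦ
  have hmain := hsol.sub (e ⁻¹' (cAnn (1 / (2 * R)) ρ₁)) hcomp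
    (fun y hy => by
      have h1 : ‖y - p‖ ≤ ρ₁ := hy.2
      have h2 : ‖y‖ ≤ ‖y - p‖ + ‖p‖ := by
        have := norm_add_le (y - p) p
        rwa [sub_add_cancel] at this
      show ‖y‖ ≤ R
      linarith)
    (fun y => Φ (y - p))
  have hpt : ∀ y ∈ cAnn (1 / (2 * R)) ρ₁, ContDiffAt ℝ 2 Φ y ∧ grad Φ y ≠ 0 ∧
      0 < opN ε (shift p g) (shift p h) Φ y := by
    intro y hy
    have hy0 : y ≠ 0 := by
      intro h0
      have := hy.1
      rw [h0, norm_zero] at this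
      linarith
    have hb : 1 / (8 * R) ≤ ‖y‖ := by
      refine le_trans ?_ hy.1
      apply one_div_le_one_div_of_le (by positivity)
      linarith
    obtain ⟨h1, h2, h3, -⟩ := barr ε C (shift p g) (shift p h) y hε hε2 hC.le hy0
      (hg.posDef (y + p) (Set.mem_univ _)) (hbar y hb hy.2) 1 (Or.inl rfl)
    refine ⟨contDiffAt_const.mul (h1.sub contDiffAt_const), ?_, h3 rfl k _ hkpos⟩
    have hd : DifferentiableAt ℝ (fun y : E3 => phiB ε 1 (C + 1) ‖y‖) y :=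
      h1.differentiableAt (by norm_num)
    have hg2 := grad_affine k (-(k * phiB ε 1 (C + 1) ρ₁)) hd
    have heq : Φ = fun y : E3 => k * phiB ε 1 (C + 1) ‖y‖ + -(k * phiB ε 1 (C + 1) ρ₁) := by
      funext y; rw [hΦ]; ring
    rw [heq, hg2]
    exact smul_ne_zero hkpos.ne' h2
  have h4 := hmain (fun y hy => ContDiffAt.comp (g := Φ) (f := fun y : E3 => y - p) y
    (hpt (y - p) hy).1 (contDiffAt_id.sub contDiffAt_const)) ?_ ?_ x hx
  · have h5 : k * (phiB ε 1 (C + 1) ‖x - p‖ - phiB ε 1 (C + 1) ρ₁) ≤ u x := h4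
    rw [hk, div_mul_eq_mul_div, div_le_iff₀ hD] at h5
    exact h5
  · intro y hy
    rw [gradS, opS]
    exact (hpt (y - p) hy).2
  · intro y hy
    rw [← e.preimage_frontier] at hy
    have hy' : y - p ∈ frontier (cAnn (1 / (2 * R)) ρ₁) := hy
    rcases frontier_cAnn hy' with h5 | h5
    · show k * (phiB ε 1 (C + 1) ‖y - p‖ - phiB ε 1 (C + 1) ρ₁) ≤ u y
      rw [h5, ← hDdef, hk, div_mul_cancel₀ _ hD.ne']
      apply hsol.inner p hp
      rw [h5]
      exact (by field_simp : 1 / (2 * R) = 1 / R / 2).le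
    · show k * (phiB ε 1 (C + 1) ‖y - p‖ - phiB ε 1 (C + 1) ρ₁) ≤ u y
      rw [h5, sub_self, mul_zero]
      exact hsol.nonneg y

/-- Comparison with the upper barrier on `r₁ ≤ |x| ≤ 2R`. -/
theorem upper {T : Finset E3} {ε C R η r₁ : ℝ} {g h : TensorField}
    {u : E3 → ℝ} {G : E3 → Cov} {M : E3 → Bil} (hC : 0 < C) (hε : 0 < ε) (hε2 : ε ≤ 1 / 2)
    (hR : 2 ≤ R) (hη : 0 < η) (hr₁ : 1 ≤ r₁) (hT : ∀ p ∈ T, ‖p‖ + 1 / R ≤ r₁)
    (hg : MetricOn Set.univ g)
    (hbar : ∀ x : E3, r₁ ≤ ‖x‖ → |barB ε g h x - bE ε ‖x‖| ≤ C / (1 + ‖x‖ ^ 2))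
    (hsol : SolutionT T ε (1 / R) R η g h u G M) (hpos1 : 0 < phiB ε (-1) (C + 1) r₁)
    (hpos2 : 0 < phiB ε (-1) (C + 1) (2 * R)) {x : E3} (hx : x ∈ cAnn r₁ (2 * R)) :
    u x ≤ phiB ε (-1) (C + 1) ‖x‖ / phiB ε (-1) (C + 1) r₁ + η := by
  have hR0 : 0 < R := by linarith
  set k := 1 / phiB ε (-1) (C + 1) r₁ with hk
  have hkpos : 0 < k := div_pos one_pos hpos1
  have hmain := hsol.super (cAnn r₁ (2 * R)) (isCompact_cAnn _ _)
    (fun y hy p hp => by
      have h1 := hT p hp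
      have h2 : ‖y‖ ≤ ‖y - p‖ + ‖p‖ := by
        have := norm_add_le (y - p) p
        rwa [sub_add_cancel] at this
      have h3 := hy.1
      linarith)
    (fun y => k * phiB ε (-1) (C + 1) ‖y‖ + η)
  have hpt : ∀ y ∈ cAnn r₁ (2 * R),
      ContDiffAt ℝ 2 (fun y : E3 => phiB ε (-1) (C + 1) ‖y‖) y ∧
      grad (fun y : E3 => phiB ε (-1) (C + 1) ‖y‖) y ≠ 0 ∧
      opN ε g h (fun y : E3 => k * phiB ε (-1) (C + 1) ‖y‖ + η) y < 0 := by
    intro y hy
    have hy0 : y ≠ 0 := by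
      intro h0
      have := hy.1
      rw [h0, norm_zero] at this
      linarith
    obtain ⟨h1, h2, -, h3⟩ := barr ε C g h y hε hε2 hC.le hy0 (hg.posDef y (Set.mem_univ y))
      (hbar y hy.1) (-1) (Or.inr rfl)
    exact ⟨h1, h2, h3 rfl k _ hkpos⟩
  have h4 := hmain (fun y hy => (contDiffAt_const.mul (hpt y hy).1).add contDiffAt_const) ?_ ?_ x hx
  · rw [hk, div_mul_eq_mul_div, one_mul] at h4
    exact h4
  · intro y hy
    refine ⟨?_, (hpt y hy).2.2⟩
    have hd : DifferentiableAt ℝ (fun y : E3 => phiB ε (-1) (C + 1) ‖y‖) y :=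
      (hpt y hy).1.differentiableAt (by norm_num)
    rw [grad_affine k η hd]
    exact smul_ne_zero hkpos.ne' (hpt y hy).2.1
  · intro y hy
    rcases frontier_cAnn hy with h5 | h5
    · show u y ≤ k * phiB ε (-1) (C + 1) ‖y‖ + η
      rw [h5, hk, div_mul_cancel₀ _ hpos1.ne']
      have := hsol.le_one y
      linarith
    · show u y ≤ k * phiB ε (-1) (C + 1) ‖y‖ + η
      have h6 : 0 < k * phiB ε (-1) (C + 1) ‖y‖ := by
        rw [h5]; exact mul_pos hkpos hpos2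
      have := hsol.outer y h5.ge
      linarith

end LOCIT

open LOCIT Pool.Agent.PFlow.LOCU Pool.Agent.PFT.LOCUTAux in
/-- LOCIT: location of the level sets, uniformly in `ε`. -/
theorem t_LOCIT : Stmt_LOCIT := by
  intro F C hF hC
  set ρ₁ := F.rho with hρdef
  set r₁ := F.rad with hrdef
  have hρ0 : 0 < ρ₁ := hF.rho_pos
  have hρ1 : ρ₁ ≤ 1 := hF.rho_le
  have hr₁ : 1 ≤ r₁ := hF.rad_ge
  have hπ := Real.pi_pos
  set Q := Real.exp ((C + 1) * Real.pi) with hQ
  have hQ0 : 0 < Q := Real.exp_pos _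
  have hQ1 : 1 ≤ Q := Real.one_le_exp (by positivity)
  have he1 : 1 < Real.exp 1 := by
    have := Real.add_one_lt_exp (one_ne_zero)
    linarith
  have he3 : Real.exp 1 < 3 := Real.exp_one_lt_three
  have he0 : 0 < Real.exp 1 := Real.exp_pos _
  refine ⟨ρ₁ / (8 * Q), r₁ * (8 * (Real.exp 1 * Q)), by positivity, ?_, ?_, ?_⟩
  · rw [div_lt_iff₀ (by positivity)]
    nlinarith
  · have h1 : 1 < 8 * (Real.exp 1 * Q) := by nlinarith
    nlinarith
  intro ε hε hε2
  refine ⟨max (16 / (ρ₁ / (8 * Q))) (max 8 r₁), ?_⟩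
  intro R hR' η g h u G M hη hηR hg hbar hsol hupos
  have hR : 8 ≤ R := ((le_max_left _ _).trans (le_max_right _ _)).trans hR'
  have hRr : r₁ ≤ R := ((le_max_right _ _).trans (le_max_right _ _)).trans hR'
  have hR0 : 0 < R := by linarith
  have hRρ : 16 / (ρ₁ / (8 * Q)) ≤ R := (le_max_left _ _).trans hR'
  have haρ : 1 / (2 * R) ≤ ρ₁ / 8 := by
    have h1 : 16 ≤ R * (ρ₁ / (8 * Q)) := by
      rwa [div_le_iff₀ (by positivity)] at hRρ
    have h2 : R * (ρ₁ / (8 * Q)) ≤ R * (ρ₁ / 8) := by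
      gcongr
      linarith
    rw [div_le_iff₀ (by positivity)]
    nlinarith
  set p := pe ε with hp
  have hpdef : p = 2 / ε - 1 := rfl
  have hinv : 2 ≤ 1 / ε := by
    rw [le_div_iff₀ hε]; linarith
  have hp3 : 3 ≤ p := by
    rw [hpdef, show 2 / ε = 2 * (1 / ε) by ring]; linarith
  have hp0 : 0 < p := by linarith
  have hεp : 1 / ε ≤ p := by
    rw [hpdef, show 2 / ε = 2 * (1 / ε) by ring]; linarith
  -- the exponential
  set E := Real.exp ((C + 1) * Real.pi / (2 * ε)) with hE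
  have hE0 : 0 < E := Real.exp_pos _
  have hEneg : Real.exp (-((C + 1) * Real.pi / (2 * ε))) = E⁻¹ := by
    rw [Real.exp_neg]
  have hE2 : E ^ 2 ≤ Q ^ p := by
    rw [hE, ← Real.exp_nat_mul, hQ, ← Real.exp_mul]
    apply Real.exp_le_exp.2
    have : ((2 : ℕ) : ℝ) * ((C + 1) * Real.pi / (2 * ε)) = (C + 1) * Real.pi * (1 / ε) := by
      push_cast; field_simp
    rw [this]
    exact mul_le_mul_of_nonneg_left hεp (by positivity)
  -- bounds for powers
  have hep : Real.exp (-p) = (Real.exp 1) ^ (-p) := by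
    rw [← Real.exp_mul, one_mul]
  have h8p : (8 : ℝ) ^ (-p) ≤ Real.exp (-p) := by
    rw [hep]
    exact Real.rpow_le_rpow_of_nonpos he0 (by linarith) (by linarith)
  have hη8 : η ≤ Real.exp (-p) / 8 := by
    refine hηR.trans ?_
    have h1 : R ^ (-p - 1) ≤ (8 : ℝ) ^ (-p - 1) :=
      Real.rpow_le_rpow_of_nonpos (by norm_num) hR (by linarith)
    have h2 : (8 : ℝ) ^ (-p - 1) = 8 ^ (-p) / 8 := by
      rw [Real.rpow_sub (by norm_num), Real.rpow_one]
    rw [h2] at h1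
    refine h1.trans ?_
    gcongr
  have hexpp : Real.exp (-p) ≤ 1 := Real.exp_le_one_iff.2 (by linarith)
  have hη1 : η ≤ 1 / 8 := by linarith
  have h4p : (4 : ℝ) ^ (-p) ≤ 1 / 64 := by
    have h1 : (4 : ℝ) ^ (-p) ≤ (4 : ℝ) ^ (-(3 : ℝ)) :=
      Real.rpow_le_rpow_of_exponent_le (by norm_num) (by linarith)
    refine h1.trans ?_
    rw [Real.rpow_neg (by norm_num), show (3 : ℝ) = ((3 : ℕ) : ℝ) by norm_num,
      Real.rpow_natCast]
    norm_num
  have hC1 : 0 ≤ C + 1 := by linarith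
  -- the barrier integrals
  obtain ⟨-, -, -, hPp1, hPp2⟩ := PHI ε (C + 1) 1 hε hε2 hC1 (Or.inl rfl)
  obtain ⟨-, -, -, hPm1, hPm2⟩ := PHI ε (C + 1) (-1) hε hε2 hC1 (Or.inr rfl)
  have hantip := strictAnti PHI hε hε2 hC1 (Or.inl rfl)
  rw [hEneg] at hPp1 hPp2 hPm1 hPm2
  have hposm : ∀ r, 1 ≤ r → 0 < phiB ε (-1) (C + 1) r := by
    intro r hr
    refine lt_of_lt_of_le ?_ (hPm1 r hr).1
    have : 0 < r := by linarith
    positivity
  have h2p : (0 : ℝ) < 2 ^ (-p) := by positivity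
  have ha0 : 0 < 1 / (2 * R) := by positivity
  have hρ₁p : 0 < ρ₁ ^ p := by positivity
  have hhalf : (1 / (2 * R)) ^ p ≤ ρ₁ ^ p / 2 := by
    have h1 : (1 / (2 * R)) ^ p ≤ (ρ₁ * (1 / 8)) ^ p :=
      Real.rpow_le_rpow ha0.le (by linarith) hp0.le
    have h2 : (1 / 8 : ℝ) ^ p ≤ (1 / 8 : ℝ) ^ (1 : ℝ) :=
      Real.rpow_le_rpow_of_exponent_ge (by norm_num) (by norm_num) (by linarith)
    rw [Real.rpow_one] at h2
    rw [Real.mul_rpow hρ0.le (by norm_num)] at h1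
    nlinarith
  have hlowu : ∀ z ∈ F.T, ∀ x : E3, 1 / (2 * R) ≤ ‖x - z‖ → ‖x - z‖ ≤ ρ₁ / (8 * Q) →
      1 / 2 < u x := by
    intro z hz x hxa hxρ
    have hρle : ρ₁ / (8 * Q) ≤ ρ₁ := by
      apply div_le_self hρ0.le
      linarith
    have hxpos : 0 < ‖x - z‖ := lt_of_lt_of_le ha0 hxa
    have hxρ₁ : ‖x - z‖ ≤ ρ₁ := hxρ.trans hρle
    have haρ' : 1 / (2 * R) < ρ₁ := by linarith
    have hpin := hF.inside z hz
    have hlow := LOCIT.lower hz hC hε hε2 (by linarith) (by linarith : η < 1) haρ'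
      (by linarith) hg
      (fun y hy1 hy2 => (hbar.inn ε hε (by linarith) z hz y hy1 hy2).1) hsol (x := x)
      ⟨hxa, hxρ₁⟩
    set A := phiB ε 1 (C + 1) (1 / (2 * R)) with hA
    set B := phiB ε 1 (C + 1) ρ₁ with hB
    set X := phiB ε 1 (C + 1) ‖x - z‖ with hX
    have hAB : B < A := hantip (Set.mem_Ioi.2 ha0) (Set.mem_Ioi.2 hρ0) haρ'
    -- numerator
    have hnum : A - X ≤ E * ‖x - z‖ ^ p / p := by
      refine (hPp2 _ _ ha0.le hxa (hxρ₁.trans hρ1)).2.trans ?_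
      have : 0 ≤ (1 / (2 * R)) ^ p := by positivity
      gcongr
      linarith
    -- denominator
    have hden : 2 ^ (-p) * E⁻¹ * (ρ₁ ^ p / 2) / p ≤ A - B := by
      have h1 := (hPp2 _ _ ha0.le haρ'.le hρ1).1
      have h4 : 2 ^ (-p) * E⁻¹ * (ρ₁ ^ p / 2) / p
          ≤ 2 ^ (-p) * E⁻¹ * (ρ₁ ^ p - (1 / (2 * R)) ^ p) / p := by
        gcongr
        linarith
      linarith
    -- quotient
    have hq : A - X ≤ 1 / 4 * (A - B) := by
      have h1 : E * ‖x - z‖ ^ p / p ≤ 1 / 4 * (2 ^ (-p) * E⁻¹ * (ρ₁ ^ p / 2) / p) := by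
        have h2 : ‖x - z‖ ^ p ≤ (ρ₁ * (1 / (8 * Q))) ^ p :=
          Real.rpow_le_rpow hxpos.le (by rw [mul_one_div]; exact hxρ) hp0.le
        have h3 : (ρ₁ * (1 / (8 * Q))) ^ p = ρ₁ ^ p * (2 ^ (-p) * 4 ^ (-p) * (Q ^ p)⁻¹) := by
          rw [show 1 / (8 * Q) = (2 : ℝ)⁻¹ * 4⁻¹ * Q⁻¹ by field_simp; norm_num,
            Real.mul_rpow hρ0.le (by positivity),
            Real.mul_rpow (by positivity) (by positivity),
            Real.mul_rpow (by positivity) (by positivity),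
            Real.inv_rpow (by positivity), Real.inv_rpow (by positivity),
            Real.inv_rpow hQ0.le, Real.rpow_neg (by norm_num), Real.rpow_neg (by norm_num)]
        have hQp : 0 < Q ^ p := by positivity
        have h4 : (Q ^ p)⁻¹ ≤ (E ^ 2)⁻¹ := inv_anti₀ (by positivity) hE2
        have h5 : E * ‖x - z‖ ^ p ≤ E * (ρ₁ ^ p * (2 ^ (-p) * (1 / 64) * (E ^ 2)⁻¹)) := by
          rw [h3] at h2
          gcongr
          refine h2.trans ?_
          gcongr
        have h6 : E * (ρ₁ ^ p * (2 ^ (-p) * (1 / 64) * (E ^ 2)⁻¹))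
            = 1 / 64 * (ρ₁ ^ p * (2 ^ (-p) * E⁻¹)) := by
          field_simp
        rw [h6] at h5
        have h7 : 1 / 4 * (2 ^ (-p) * E⁻¹ * (ρ₁ ^ p / 2) / p)
            = 1 / 8 * (ρ₁ ^ p * (2 ^ (-p) * E⁻¹)) / p := by
          ring
        rw [h7]
        have h8 : 0 < ρ₁ ^ p * (2 ^ (-p) * E⁻¹) := by positivity
        exact div_le_div_of_nonneg_right (by linarith) hp0.le
      have h2 : 1 / 4 * (2 ^ (-p) * E⁻¹ * (ρ₁ ^ p / 2) / p) ≤ 1 / 4 * (A - B) := by
        gcongr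
      linarith
    have h1 : 3 / 4 * (A - B) ≤ X - B := by linarith
    have h2 : 7 / 8 * (3 / 4 * (A - B)) ≤ (1 - η) * (X - B) := by
      apply mul_le_mul (by linarith) h1 (by nlinarith) (by linarith)
    have h3 : 21 / 32 * (A - B) ≤ u x * (A - B) := by linarith
    have h4 : 21 / 32 ≤ u x := le_of_mul_le_mul_right h3 (by linarith)
    linarith
  intro x hx
  constructor
  · intro z hz hxρ
    have hxa : 1 / (2 * R) ≤ ‖x - z‖ := by
      refine le_trans ?_ (hx.2 z hz).le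
      apply one_div_le_one_div_of_le hR0; linarith
    have h1 := hlowu z hz x hxa hxρ
    have h2 : -1 < Real.log (u x) := by
      rw [Real.lt_log_iff_exp_lt (hupos x hx.1)]
      refine lt_of_le_of_lt ?_ h1
      rw [Real.exp_neg, inv_le_comm₀ he0 (by norm_num)]
      have := Real.exp_one_gt_d9
      norm_num
      linarith
    show -ε * Real.log (u x) < ε
    nlinarith
  · intro hxr
    have hge : 1 ≤ 8 * (Real.exp 1 * Q) := by nlinarith
    have hr0 : 0 < r₁ := by linarith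
    have hxr1 : r₁ ≤ ‖x‖ := by
      refine le_trans ?_ hxr
      nlinarith
    have hx1 : 1 ≤ ‖x‖ := hr₁.trans hxr1
    have hTr : ∀ z ∈ F.T, ‖z‖ + 1 / R ≤ r₁ := by
      intro z hz
      have hpin := hF.inside z hz
      have h6 : 1 / R = 2 * (1 / (2 * R)) := by field_simp
      rw [h6]
      linarith
    have hup := LOCIT.upper hC hε hε2 (by linarith) hη hr₁ hTr hg
      (fun y hy => (hbar.out ε hε (by linarith) y hy).1) hsol (hposm r₁ hr₁)
      (hposm _ (by linarith)) (x := x) ⟨hxr1, by linarith [hx.1]⟩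
    have hpR : 0 < phiB ε (-1) (C + 1) r₁ := hposm r₁ hr₁
    have hden : 2 ^ (-p) * E⁻¹ * r₁ ^ (-p) / p ≤ phiB ε (-1) (C + 1) r₁ := (hPm1 r₁ hr₁).1
    have hnum : phiB ε (-1) (C + 1) ‖x‖ ≤ E * ‖x‖ ^ (-p) / p := (hPm1 ‖x‖ hx1).2
    have hnum2 : E * ‖x‖ ^ (-p) / p
        ≤ Real.exp (-p) / 8 * (2 ^ (-p) * E⁻¹ * r₁ ^ (-p) / p) := by
      have h2 : ‖x‖ ^ (-p) ≤ (r₁ * (8 * (Real.exp 1 * Q))) ^ (-p) :=
        Real.rpow_le_rpow_of_nonpos (by positivity) hxr (by linarith)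
      have h3 : (r₁ * (8 * (Real.exp 1 * Q))) ^ (-p)
          = r₁ ^ (-p) * (2 ^ (-p) * 4 ^ (-p) * (Real.exp (-p) * (Q ^ p)⁻¹)) := by
        rw [show 8 * (Real.exp 1 * Q) = 2 * 4 * (Real.exp 1 * Q) by ring,
          Real.mul_rpow (by positivity) (by positivity),
          Real.mul_rpow (by positivity) (by positivity),
          Real.mul_rpow (by positivity) (by positivity),
          Real.mul_rpow (by positivity) (by positivity), ← hep, Real.rpow_neg hQ0.le]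
      have hQp : 0 < Q ^ p := by positivity
      have hrp : 0 < r₁ ^ (-p) := by positivity
      have h4 : (Q ^ p)⁻¹ ≤ (E ^ 2)⁻¹ := inv_anti₀ (by positivity) hE2
      have hexp0 := Real.exp_pos (-p)
      have h5 : E * ‖x‖ ^ (-p)
          ≤ E * (r₁ ^ (-p) * (2 ^ (-p) * (1 / 64) * (Real.exp (-p) * (E ^ 2)⁻¹))) := by
        rw [h3] at h2
        gcongr
        refine h2.trans ?_
        gcongr
      have h6 : E * (r₁ ^ (-p) * (2 ^ (-p) * (1 / 64) * (Real.exp (-p) * (E ^ 2)⁻¹)))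
          = 1 / 64 * (r₁ ^ (-p) * (Real.exp (-p) * (2 ^ (-p) * E⁻¹))) := by
        field_simp
      rw [h6] at h5
      have h7 : Real.exp (-p) / 8 * (2 ^ (-p) * E⁻¹ * r₁ ^ (-p) / p)
          = 1 / 8 * (r₁ ^ (-p) * (Real.exp (-p) * (2 ^ (-p) * E⁻¹))) / p := by
        ring
      rw [h7]
      have h8 : 0 < r₁ ^ (-p) * (Real.exp (-p) * (2 ^ (-p) * E⁻¹)) := by positivity
      exact div_le_div_of_nonneg_right (by linarith) hp0.le
    have hratio : phiB ε (-1) (C + 1) ‖x‖ / phiB ε (-1) (C + 1) r₁ ≤ Real.exp (-p) / 8 := by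
      rw [div_le_iff₀ hpR]
      refine hnum.trans (hnum2.trans ?_)
      have hexp0 := Real.exp_pos (-p)
      gcongr
    have hexp0 := Real.exp_pos (-p)
    have hux : u x < Real.exp (-p) := by linarith
    have h1 : Real.log (u x) < -p := by
      rw [Real.log_lt_iff_lt_exp (hupos x hx.1)]
      exact hux
    have h2 : Real.log (u x) < -(1 / ε) := by linarith
    show 1 < -ε * Real.log (u x)
    have h3 : ε * Real.log (u x) < ε * -(1 / ε) := mul_lt_mul_of_pos_left h2 hε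
    have h4 : ε * -(1 / ε) = -1 := by field_simp
    linarith

end Pool.Agent.PFU
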