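import Pool.Agent.PFU.StmtsL
import Pool.Agent.PFU.LOCIT
import Pool.Agent.PFlow.E.LOC

/-!
# LOCT: location of the level sets for several ends
-/

open MeasureTheory Filter Topology
open scoped ContDiff ENNReal

namespace Pool.Agent.PFU

open Pool.Agent.PenroseSph Pool.Agent.PFlow Pool.Agent.PFT

namespace LOCT

open Pool.Agent.PFlow.LOCU Pool.Agent.PFT.LOCUTAux

/-- Comparison with the upper barrier on `1/R ≤ |x - p| ≤ ρ₁`. -/
theorem upperIn {T : Finset E3} {p : E3} {ε C R η ρ₁ c₁ : ℝ} {g h : TensorField}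
    {u : E3 → ℝ} {G : E3 → Cov} {M : E3 → Bil} (hC : 0 < C) (hε : 0 < ε)
    (hε2 : ε ≤ 1 / 2) (hc₁ : 0 < c₁) (hR : 0 < R) (hρ : 1 / R < ρ₁)
    (hT : ∀ q ∈ T, q ≠ p → ρ₁ + 1 / R ≤ ‖p - q‖)
    (hg : MetricOn Set.univ g)
    (hbar : ∀ x : E3, 1 / (8 * R) ≤ ‖x‖ → ‖x‖ ≤ ρ₁ →
      |barB ε (shift p g) (shift p h) x - bE ε ‖x‖| ≤ C / (1 + ‖x‖ ^ 2))
    (hsol : SolutionT T ε (1 / R) R η g h u G M)
    (hub : ∀ x : E3, ‖x - p‖ = ρ₁ → u x ≤ 1 - c₁)
    {x : E3} (hx : x - p ∈ cAnn (1 / R) ρ₁) :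
    c₁ * (phiB ε (-1) (C + 1) (1 / R) - phiB ε (-1) (C + 1) ‖x - p‖)
      ≤ (1 - u x) * (phiB ε (-1) (C + 1) (1 / R) - phiB ε (-1) (C + 1) ρ₁) := by
  have ha0 : 0 < 1 / R := by positivity
  have hρ0 : 0 < ρ₁ := ha0.trans hρ
  have hanti := strictAnti PHI hε hε2 (by linarith : 0 ≤ C + 1) (Or.inr rfl)
  have hD : 0 < phiB ε (-1) (C + 1) (1 / R) - phiB ε (-1) (C + 1) ρ₁ := by
    have := hanti (Set.mem_Ioi.2 ha0) (Set.mem_Ioi.2 hρ0) hρ
    linarith
  set D := phiB ε (-1) (C + 1) (1 / R) - phiB ε (-1) (C + 1) ρ₁ with hDdef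
  set k := c₁ / D with hk
  have hkpos : 0 < k := div_pos hc₁ hD
  have hkD : k * D = c₁ := div_mul_cancel₀ _ hD.ne'
  set e := Homeomorph.subRight p with he
  have hcomp : IsCompact (e ⁻¹' (cAnn (1 / R) ρ₁)) :=
    e.isCompact_preimage.2 (isCompact_cAnn _ _)
  set Φ : E3 → ℝ := fun y =>
    k * phiB ε (-1) (C + 1) ‖y‖ + (1 - k * phiB ε (-1) (C + 1) (1 / R)) with hΦ
  have hmain := hsol.super (e ⁻¹' (cAnn (1 / R) ρ₁)) hcomp
    (fun y hy q hq => by
      have h0 : 1 / R ≤ ‖y - p‖ := hy.1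
      have h1 : ‖y - p‖ ≤ ρ₁ := hy.2
      by_cases hqp : q = p
      · rw [hqp]
        exact h0
      · have h2 := hT q hq hqp
        have h3 : ‖p - q‖ ≤ ‖y - p‖ + ‖y - q‖ := by
          have h4 := norm_sub_le (y - q) (y - p)
          have h5 : y - q - (y - p) = p - q := by abel
          rw [h5] at h4
          linarith
        linarith)
    (fun y => Φ (y - p))
  have hpt : ∀ y ∈ cAnn (1 / R) ρ₁, ContDiffAt ℝ 2 Φ y ∧ grad Φ y ≠ 0 ∧
      opN ε (shift p g) (shift p h) Φ y < 0 := by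
    intro y hy
    have hy0 : y ≠ 0 := by
      intro h0
      have := hy.1
      rw [h0, norm_zero] at this
      linarith
    have hb : 1 / (8 * R) ≤ ‖y‖ := by
      refine le_trans ?_ hy.1
      apply one_div_le_one_div_of_le hR
      linarith
    obtain ⟨h1, h2, -, h3⟩ := barr ε C (shift p g) (shift p h) y hε hε2 hC.le hy0
      (hg.posDef (y + p) (Set.mem_univ _)) (hbar y hb hy.2) (-1) (Or.inr rfl)
    refine ⟨(contDiffAt_const.mul h1).add contDiffAt_const, ?_, h3 rfl k _ hkpos⟩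
    have hd : DifferentiableAt ℝ (fun y : E3 => phiB ε (-1) (C + 1) ‖y‖) y :=
      h1.differentiableAt (by norm_num)
    have hg2 := grad_affine k (1 - k * phiB ε (-1) (C + 1) (1 / R)) hd
    rw [hΦ, hg2]
    exact smul_ne_zero hkpos.ne' h2
  have h4 := hmain (fun y hy => ContDiffAt.comp (g := Φ) (f := fun y : E3 => y - p) y
    (hpt (y - p) hy).1 (contDiffAt_id.sub contDiffAt_const)) ?_ ?_ x hx
  · have h5 : u x ≤ k * phiB ε (-1) (C + 1) ‖x - p‖
        + (1 - k * phiB ε (-1) (C + 1) (1 / R)) := h4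
    have h6 : k * (phiB ε (-1) (C + 1) (1 / R) - phiB ε (-1) (C + 1) ‖x - p‖) ≤ 1 - u x := by
      linarith
    have h7 := mul_le_mul_of_nonneg_right h6 hD.le
    calc c₁ * (phiB ε (-1) (C + 1) (1 / R) - phiB ε (-1) (C + 1) ‖x - p‖)
        = k * (phiB ε (-1) (C + 1) (1 / R) - phiB ε (-1) (C + 1) ‖x - p‖) * D := by
          rw [← hkD]
          ring
      _ ≤ (1 - u x) * D := h7
  · intro y hy
    rw [LOCIT.gradS, LOCIT.opS]
    exact (hpt (y - p) hy).2
  · intro y hy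
    rw [← e.preimage_frontier] at hy
    have hy' : y - p ∈ frontier (cAnn (1 / R) ρ₁) := hy
    rcases frontier_cAnn hy' with h5 | h5
    · show u y ≤ k * phiB ε (-1) (C + 1) ‖y - p‖ + (1 - k * phiB ε (-1) (C + 1) (1 / R))
      rw [h5]
      have := hsol.le_one y
      linarith
    · show u y ≤ k * phiB ε (-1) (C + 1) ‖y - p‖ + (1 - k * phiB ε (-1) (C + 1) (1 / R))
      rw [h5]
      have h6 := hub y h5
      have h7 : k * phiB ε (-1) (C + 1) (1 / R) - k * phiB ε (-1) (C + 1) ρ₁ = c₁ := by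
        rw [← hkD, hDdef]
        ring
      linarith

end LOCT

open LOCT in
/-- LOCT: location of the level sets. -/
theorem t_LOCT : Stmt_LOCT := by
  intro F ε C c₁ γ hF hε hε1 hC hc₁ hγ
  have hp3 := Loc.pe_ge ε hε hε1
  have hεp := Loc.mul_pe ε hε
  have hρ0 : 0 < F.rho := hF.rho_pos
  have hρ1 : F.rho ≤ 1 := hF.rho_le
  set ρ₁ := F.rho with hρdef
  set p := pe ε with hp
  set q := 2 ^ (-p) * Real.exp (-((C + 1) * Real.pi / (2 * ε))) with hq
  set E := Real.exp ((C + 1) * Real.pi / (2 * ε)) with hE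
  have hπ := Real.pi_pos
  have hC1 : 0 ≤ C + 1 := by linarith
  have hp0 : 0 < p := by linarith
  have hp1 : 1 ≤ p := by linarith
  have hq0 : 0 < q := by positivity
  have hE1 : 1 ≤ E := Real.one_le_exp (by positivity)
  have hE0 : 0 < E := by linarith
  have hq1 : q ≤ 1 := by
    have h1 : (2 : ℝ) ^ (-p) ≤ 1 := Real.rpow_le_one_of_one_le_of_nonpos (by norm_num) (by linarith)
    have h2 : Real.exp (-((C + 1) * Real.pi / (2 * ε))) ≤ 1 := by
      rw [Real.exp_le_one_iff]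
      have : 0 ≤ (C + 1) * Real.pi / (2 * ε) := by positivity
      linarith
    calc q ≤ 1 * 1 := by
          rw [hq]
          gcongr
      _ = 1 := one_mul 1
  have hFp : Loc.Facts p q E (phiB ε 1 (C + 1)) :=
    Loc.facts PHI ε (C + 1) 1 hε hε1 hC1 (Or.inl rfl)
  have hFm : Loc.Facts p q E (phiB ε (-1) (C + 1)) :=
    Loc.facts PHI ε (C + 1) (-1) hε hε1 hC1 (Or.inr rfl)
  set Φp := phiB ε 1 (C + 1) with hΦp
  set Φm := phiB ε (-1) (C + 1) with hΦm
  have hρp : 0 < ρ₁ ^ p := Real.rpow_pos_of_pos hρ0 p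
  have hρp1 : ρ₁ ^ p ≤ 1 := Real.rpow_le_one hρ0.le hρ1 hp0.le
  obtain ⟨c₂, hc₂0, hc₂1, hc₂c⟩ : ∃ c₂ : ℝ, 0 < c₂ ∧ c₂ ≤ 1 ∧ c₂ ≤ c₁ :=
    ⟨min c₁ 1, lt_min hc₁ one_pos, min_le_right _ _, min_le_left _ _⟩
  obtain ⟨c, hc⟩ : ∃ c : ℝ, c = c₂ * q / (4 * E) := ⟨_, rfl⟩
  obtain ⟨C₂, hC₂⟩ : ∃ C₂ : ℝ, C₂ = 2 * E / (q * ρ₁ ^ p) + 1 := ⟨_, rfl⟩
  have hc0 : 0 < c := by rw [hc]; positivity
  have hcc₂ : c ≤ c₂ / 4 := by
    rw [hc, div_le_div_iff₀ (by positivity) (by norm_num)]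
    have h1 : c₂ * q ≤ c₂ * E := mul_le_mul_of_nonneg_left (hq1.trans hE1) hc₂0.le
    linarith
  have hc1 : c ≤ 1 := by linarith
  have hfrac : 1 ≤ E / (q * ρ₁ ^ p) := by
    rw [le_div_iff₀ (by positivity), one_mul]
    calc q * ρ₁ ^ p ≤ 1 * 1 := by gcongr
      _ ≤ E := by linarith
  have hC₂1 : 2 ≤ C₂ := by
    rw [hC₂, mul_div_assoc]
    linarith
  have hC₂ρ : 1 / ρ₁ ^ p ≤ C₂ := by
    have h1 : 1 / ρ₁ ^ p ≤ E / (q * ρ₁ ^ p) := by
      rw [div_le_div_iff₀ hρp (by positivity)]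
      have h2 : q * ρ₁ ^ p ≤ E * ρ₁ ^ p := mul_le_mul_of_nonneg_right (hq1.trans hE1) hρp.le
      linarith
    rw [hC₂, mul_div_assoc]
    linarith
  obtain ⟨κ, hκ⟩ : ∃ κ : ℝ, κ = c / (64 * C₂) := ⟨_, rfl⟩
  have hκ0 : 0 < κ := by rw [hκ]; positivity
  have hκ8 : κ ≤ 1 / 128 := by
    rw [hκ, div_le_div_iff₀ (by positivity) (by norm_num)]
    linarith
  refine ⟨c, C₂, κ, max (2 * C₂) (1 / ρ₁), hc0, hc1, by linarith, hκ0, by linarith,
    le_max_of_le_left (by linarith), ?_⟩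
  intro l hl'
  have hl : 2 * C₂ ≤ l := (le_max_left _ _).trans hl'
  have hlρ : 1 / ρ₁ ≤ l := (le_max_right _ _).trans hl'
  have hl1 : 1 ≤ l := by linarith
  have hl0 : 0 < l := by linarith
  have hlρ' : 1 / l ≤ ρ₁ := by
    rw [div_le_iff₀ hl0]
    rw [div_le_iff₀ hρ0] at hlρ
    linarith
  have hrad : 1 ≤ F.rad := hF.rad_ge
  refine ⟨16 * l + l / κ + 8 / ρ₁ + F.rad, ?_, ?_⟩
  · have h1 : 0 ≤ l / κ := by positivity
    have h2 : 0 ≤ 8 / ρ₁ := by positivity
    linarith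
  intro R hR η g h u G M hη0 hη hg hbar sol hup hposu houter hlow hmid
  have hRa : 16 * l ≤ R := by
    have h1 : 0 ≤ l / κ := by positivity
    have h2 : 0 ≤ 8 / ρ₁ := by positivity
    linarith
  have hRb : l / κ ≤ R := by
    have h2 : 0 ≤ 8 / ρ₁ := by positivity
    linarith
  have hRc : 8 / ρ₁ ≤ R := by
    have h1 : 0 ≤ l / κ := by positivity
    linarith
  have hRd : F.rad ≤ R := by
    have h1 : 0 ≤ l / κ := by positivity
    have h2 : 0 ≤ 8 / ρ₁ := by positivity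
    linarith
  have hR16 : 16 ≤ R := by linarith
  have hR0 : 0 < R := by linarith
  have hηp : η ≤ R ^ (-p) := by
    refine hη.trans (Real.rpow_le_rpow_of_exponent_le (by linarith) (by linarith))
  have hη1 : η ≤ 1 / 2 := by
    have h1 : R ^ (-p) ≤ R ^ (-(1 : ℝ)) :=
      Real.rpow_le_rpow_of_exponent_le (by linarith) (by linarith)
    rw [Real.rpow_neg_one] at h1
    have h2 : R⁻¹ ≤ 16⁻¹ := inv_anti₀ (by norm_num) hR16
    have h3 : (16 : ℝ)⁻¹ ≤ 1 / 2 := by norm_num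
    linarith
  have hRρ : 1 / R ≤ ρ₁ / 8 := by
    rw [div_le_iff₀ hR0]
    rw [div_le_iff₀ hρ0] at hRc
    linarith
  have hRi2 : 1 / (2 * R) = 1 / R / 2 := by
    field_simp
  have hRi0 : 0 < 1 / R := by positivity
  have ha0 : 0 < 1 / (2 * R) := by positivity
  have haρ : 1 / (2 * R) < ρ₁ := by rw [hRi2]; linarith
  have hhalf : (1 / (2 * R)) ^ p ≤ ρ₁ ^ p / 2 := by
    have h1 : (1 / (2 * R)) ^ p ≤ (ρ₁ * (1 / 2)) ^ p :=
      Real.rpow_le_rpow ha0.le (by rw [hRi2]; linarith) hp0.le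
    have h2 : (1 / 2 : ℝ) ^ p ≤ (1 / 2 : ℝ) ^ (1 : ℝ) :=
      Real.rpow_le_rpow_of_exponent_ge (by norm_num) (by norm_num) (by linarith)
    rw [Real.rpow_one] at h2
    rw [Real.mul_rpow hρ0.le (by norm_num)] at h1
    have h3 : ρ₁ ^ p * (1 / 2 : ℝ) ^ p ≤ ρ₁ ^ p * (1 / 2) :=
      mul_le_mul_of_nonneg_left h2 hρp.le
    linarith
  -- the bound of `1 - u` near the ends
  have hRκ : 1 / R ≤ κ / l := by
    rw [div_le_div_iff₀ hR0 hl0, one_mul]
    have := mul_le_mul_of_nonneg_left hRb hκ0.le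
    have h1 : κ * (l / κ) = l := by field_simp
    linarith
  have hin : ∀ z ∈ F.T, ∀ x : E3, 1 / (2 * R) ≤ ‖x - z‖ → ∀ s, ‖x - z‖ ≤ s → κ / l ≤ s →
      s ≤ ρ₁ → 1 - u x ≤ C₂ * s ^ p := by
    intro z hz x hxa s hs hκs hsρ
    have hs0 : 0 < s := lt_of_lt_of_le (by positivity) hκs
    have hxρ : ‖x - z‖ ≤ ρ₁ := hs.trans hsρ
    have hpin := hF.inside z hz
    have hlo := LOCIT.lower hz hC hε hε1 (by linarith) (by linarith : η < 1) haρ
      (by linarith) hg
      (fun y hy1 hy2 => (hbar.inn ε hε (by linarith) z hz y hy1 hy2).1) sol (x := x)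
      ⟨hxa, hxρ⟩
    rw [← hΦp] at hlo
    have hAB : Φp ρ₁ < Φp (1 / (2 * R)) := hFp.anti _ _ ha0.le haρ
    have hXA : Φp ‖x - z‖ ≤ Φp (1 / (2 * R)) := hFp.anti' ha0.le hxa
    have hA := hFp.dupp _ _ ha0.le hxa (hxρ.trans hρ1)
    have hB := hFp.dlow _ _ ha0.le haρ.le hρ1
    have hsp : 0 < s ^ p := by positivity
    have h1 : E * (‖x - z‖ ^ p - (1 / (2 * R)) ^ p) / p ≤ E * s ^ p / p := by
      have h2 : ‖x - z‖ ^ p ≤ s ^ p := Real.rpow_le_rpow (norm_nonneg _) hs hp0.le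
      have h3 : 0 < (1 / (2 * R)) ^ p := by positivity
      gcongr
      linarith
    have h2 : q * (ρ₁ ^ p / 2) / p ≤ q * (ρ₁ ^ p - (1 / (2 * R)) ^ p) / p := by
      gcongr
      linarith
    have h3 : E * s ^ p / p ≤ 2 * E / (q * ρ₁ ^ p) * s ^ p * (Φp (1 / (2 * R)) - Φp ρ₁) := by
      have h4 : E * s ^ p / p = 2 * E / (q * ρ₁ ^ p) * s ^ p * (q * (ρ₁ ^ p / 2) / p) := by
        field_simp
      rw [h4]
      have h5 : 0 ≤ 2 * E / (q * ρ₁ ^ p) * s ^ p := by positivity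
      exact mul_le_mul_of_nonneg_left (h2.trans hB) h5
    have h6 : η ≤ s ^ p := by
      refine hηp.trans ?_
      rw [Real.rpow_neg hR0.le, ← Real.inv_rpow hR0.le, ← one_div]
      exact Real.rpow_le_rpow hRi0.le (hRκ.trans hκs) hp0.le
    have h7 : (1 - u x) * (Φp (1 / (2 * R)) - Φp ρ₁)
        ≤ C₂ * s ^ p * (Φp (1 / (2 * R)) - Φp ρ₁) := by
      have h8 : η * (Φp ‖x - z‖ - Φp ρ₁) ≤ s ^ p * (Φp (1 / (2 * R)) - Φp ρ₁) :=
        calc η * (Φp ‖x - z‖ - Φp ρ₁) ≤ η * (Φp (1 / (2 * R)) - Φp ρ₁) :=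
              mul_le_mul_of_nonneg_left (by linarith) hη0.le
          _ ≤ s ^ p * (Φp (1 / (2 * R)) - Φp ρ₁) :=
              mul_le_mul_of_nonneg_right h6 (by linarith)
      rw [hC₂]
      linarith
    exact le_of_mul_le_mul_right h7 (by linarith)
  -- the bound from below of `1 - u`
  have hout : ∀ x ∈ AnnT F.T (1 / R) R, (∀ z ∈ F.T, 1 / (4 * l) < ‖x - z‖) →
      c * (4 * l) ^ (-p) < 1 - u x := by
    intro x hx hxl
    have h4l : (4 * l) ^ (-p) ≤ 1 :=
      Real.rpow_le_one_of_one_le_of_nonpos (by linarith) (by linarith)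
    have h4l0 : 0 < (4 * l) ^ (-p) := by positivity
    by_cases hfar : ∀ z ∈ F.T, ρ₁ / 4 ≤ ‖x - z‖
    · have h1 := hup x hfar
      have h2 : c * (4 * l) ^ (-p) ≤ c * 1 := mul_le_mul_of_nonneg_left h4l hc0.le
      linarith
    · rw [not_forall] at hfar
      obtain ⟨z, hfar⟩ := hfar
      rw [Classical.not_imp, not_le] at hfar
      obtain ⟨hz, hxz⟩ := hfar
      have hub : ∀ y : E3, ‖y - z‖ = ρ₁ → u y ≤ 1 - c₁ := by
        intro y hy
        apply hup
        intro w hw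
        by_cases hwz : w = z
        · rw [hwz, hy]
          linarith
        · have h1 := hF.disj z hz w hw (Ne.symm hwz)
          have h2 : ‖z - w‖ ≤ ‖y - z‖ + ‖y - w‖ := by
            have h4 := norm_sub_le (y - w) (y - z)
            have h5 : y - w - (y - z) = z - w := by abel
            rw [h5] at h4
            linarith
          linarith
      have hxR := hx.2 z hz
      have hmain := upperIn hC hε hε1 hc₁ hR0 (by linarith : 1 / R < ρ₁)
        (fun w hw hwz => by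
          have h1 := hF.disj z hz w hw (Ne.symm hwz)
          linarith) hg
        (fun y hy1 hy2 => (hbar.inn ε hε (by linarith) z hz y hy1 hy2).1) sol hub (x := x)
        ⟨hxR.le, by linarith⟩
      rw [← hΦm] at hmain
      have hA := hFm.dlow _ _ hRi0.le hxR.le (by linarith)
      have hB := hFm.dupp _ _ hRi0.le (by linarith : 1 / R ≤ ρ₁) hρ1
      have h1 : 1 / (4 * l) = (4 * l)⁻¹ := one_div _
      have h2 : (4 * l) ^ (-p) ≤ ‖x - z‖ ^ p := by
        rw [Real.rpow_neg (by positivity), ← Real.inv_rpow (by positivity), ← h1]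
        exact Real.rpow_le_rpow (by positivity) (hxl z hz).le hp0.le
      have h3 : (1 / R) ^ p ≤ (4 * l) ^ (-p) / 2 := by
        have h4 : 1 / R ≤ (4 * l)⁻¹ * (1 / 2) := by
          rw [one_div, ← mul_inv_le_iff₀ (by norm_num)]
          have h5 : (1 / 2 : ℝ)⁻¹ = 2 := by norm_num
          rw [h5, ← one_div, ← one_div, div_mul_eq_mul_div, div_le_div_iff₀ hR0 (by positivity)]
          linarith
        have h5 : (1 / R) ^ p ≤ ((4 * l)⁻¹ * (1 / 2)) ^ p :=
          Real.rpow_le_rpow hRi0.le h4 hp0.le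
        have h6 : (1 / 2 : ℝ) ^ p ≤ (1 / 2 : ℝ) ^ (1 : ℝ) :=
          Real.rpow_le_rpow_of_exponent_ge (by norm_num) (by norm_num) (by linarith)
        rw [Real.rpow_one] at h6
        rw [Real.mul_rpow (by positivity) (by norm_num), Real.inv_rpow (by positivity),
          ← Real.rpow_neg (by positivity)] at h5
        have h7 := mul_le_mul_of_nonneg_left h6 h4l0.le
        linarith
      have h4 : q * ((4 * l) ^ (-p) / 2) / p ≤ Φm (1 / R) - Φm ‖x - z‖ := by
        refine le_trans ?_ hA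
        gcongr
        linarith
      have h5 : Φm (1 / R) - Φm ρ₁ ≤ E * 1 / p := by
        refine hB.trans ?_
        have h6 : 0 < (1 / R) ^ p := by positivity
        gcongr
        linarith
      have hu1 := sol.le_one x
      have h6 : c₁ * (q * ((4 * l) ^ (-p) / 2) / p) ≤ (1 - u x) * (E * 1 / p) :=
        calc c₁ * (q * ((4 * l) ^ (-p) / 2) / p) ≤ c₁ * (Φm (1 / R) - Φm ‖x - z‖) :=
              mul_le_mul_of_nonneg_left h4 hc₁.le
          _ ≤ (1 - u x) * (Φm (1 / R) - Φm ρ₁) := hmain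
          _ ≤ (1 - u x) * (E * 1 / p) := mul_le_mul_of_nonneg_left h5 (by linarith)
      have h7 : 2 * (c₂ * q / (4 * E) * (4 * l) ^ (-p)) * (E * 1 / p)
          ≤ (1 - u x) * (E * 1 / p) := by
        refine le_trans ?_ h6
        have h8 : 2 * (c₂ * q / (4 * E) * (4 * l) ^ (-p)) * (E * 1 / p)
            = c₂ * (q * ((4 * l) ^ (-p) / 2) / p) := by
          field_simp
          ring
        rw [h8]
        exact mul_le_mul_of_nonneg_right hc₂c (by positivity)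
      have h8 := le_of_mul_le_mul_right h7 (by positivity)
      have h9 : 0 < c * (4 * l) ^ (-p) := by positivity
      rw [← hc] at h8
      linarith
  have hκR : ∀ y : ℝ, κ / l ≤ y → 1 / (2 * R) ≤ y := fun y hy => by
    rw [hRi2]
    linarith
  refine ⟨hposu, houter, hlow, ?_, ?_, ?_, ?_, fun x _ hxl => hmid x hxl⟩
  · intro z hz x hx1 hx2
    by_cases hxρ : ‖x - z‖ ≤ ρ₁
    · exact hin z hz x (hκR _ hx1) _ le_rfl hx1 hxρ
    · rw [not_le] at hxρ
      have h1 : ρ₁ ^ p ≤ ‖x - z‖ ^ p := Real.rpow_le_rpow hρ0.le hxρ.le hp0.le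
      have h2 : 1 ≤ C₂ * ρ₁ ^ p := by
        rw [div_le_iff₀ hρp] at hC₂ρ
        exact hC₂ρ
      have h3 : C₂ * ρ₁ ^ p ≤ C₂ * ‖x - z‖ ^ p := mul_le_mul_of_nonneg_left h1 (by linarith)
      have h4 := sol.nonneg x
      linarith
  · intro z hz x hx1 hx2
    have h1l : 1 / l ≤ 1 := by
      rw [div_le_one hl0]
      exact hl1
    have h1 := hin z hz x (hκR _ hx1) (1 / l) hx2 (hx1.trans hx2) hlρ'
    have h2 : C₂ * (1 / l) ^ p ≤ C₂ * (1 / l) ^ (1 : ℝ) := by
      have := Real.rpow_le_rpow_of_exponent_ge (by positivity) h1l hp1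
      exact mul_le_mul_of_nonneg_left this (by linarith)
    rw [Real.rpow_one] at h2
    have h3 : C₂ * (1 / l) ≤ 1 / 2 := by
      rw [mul_one_div, div_le_div_iff₀ hl0 (by norm_num)]
      linarith
    linarith
  · intro x hx hw
    by_contra hcon
    rw [not_exists] at hcon
    have hcon' : ∀ z ∈ F.T, 1 / (4 * l) < ‖x - z‖ := by
      intro z hz
      have := hcon z
      rw [not_and, not_le] at this
      exact this hz
    have h3 := hout x hx hcon'
    have h4 : Real.log (u x) ≤ u x - 1 := Real.log_le_sub_one_of_pos (hposu x hx.1)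
    have h5 : ε * (1 - u x) ≤ wOf ε u x := by
      unfold wOf
      have := mul_le_mul_of_nonneg_left h4 hε.le
      linarith
    have h6 : sbE ε c l < ε * (1 - u x) := by
      unfold sbE
      have := mul_lt_mul_of_pos_left h3 hε
      rw [← hp]
      linarith
    linarith
  · intro x hx hw z hz
    by_contra hcon
    rw [not_le] at hcon
    have hκl' : κ / l ≤ κ := div_le_self hκ0.le hl1
    have hκρ : κ / l ≤ ρ₁ := by
      refine le_trans ?_ hlρ'
      gcongr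
      linarith
    have hxa : 1 / (2 * R) ≤ ‖x - z‖ := by
      have := hx.2 z hz
      rw [hRi2]
      linarith
    have h1 := hin z hz x hxa (κ / l) hcon.le le_rfl hκρ
    have hp4 : (κ / l) ^ p ≤ 4 * κ * (4 * l) ^ (-p) := by
      have h2 : κ / l = 4 * κ * (4 * l)⁻¹ := by
        field_simp
      rw [h2, Real.mul_rpow (by positivity) (by positivity), Real.inv_rpow (by positivity),
        ← Real.rpow_neg (by positivity)]
      have h3 : (4 * κ) ^ p ≤ (4 * κ) ^ (1 : ℝ) :=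
        Real.rpow_le_rpow_of_exponent_ge (by positivity) (by linarith) hp1
      rw [Real.rpow_one] at h3
      gcongr
    have hC₂κ : C₂ * κ = c / 64 := by
      rw [hκ]
      field_simp
    have hu : 1 / 2 ≤ u x := by
      have h2 : (κ / l) ^ p ≤ κ := by
        have h3 : (κ / l) ^ p ≤ (κ / l) ^ (1 : ℝ) :=
          Real.rpow_le_rpow_of_exponent_ge (by positivity) (by linarith) hp1
        rw [Real.rpow_one] at h3
        linarith
      have h4 : C₂ * (κ / l) ^ p ≤ C₂ * κ := mul_le_mul_of_nonneg_left h2 (by linarith)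
      linarith
    have hu0 : 0 < u x := by linarith
    have h2 : -Real.log (u x) ≤ 2 * (1 - u x) := by
      have h3 : Real.log (u x)⁻¹ ≤ (u x)⁻¹ - 1 := Real.log_le_sub_one_of_pos (by positivity)
      rw [Real.log_inv] at h3
      have h4 : (u x)⁻¹ - 1 = (1 - u x) / u x := by field_simp
      have h5 : (1 - u x) / u x ≤ 2 * (1 - u x) := by
        rw [div_le_iff₀ hu0]
        have h6 : 0 ≤ 1 - u x := by linarith [sol.le_one x]
        nlinarith
      linarith
    have h3 : wOf ε u x ≤ ε * (2 * (1 - u x)) := by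
      unfold wOf
      have := mul_le_mul_of_nonneg_left h2 hε.le
      linarith
    have h4 : 2 * (1 - u x) ≤ c / 8 * (4 * l) ^ (-p) := by
      have h5 : C₂ * (4 * κ * (4 * l) ^ (-p)) = c / 16 * (4 * l) ^ (-p) := by
        calc C₂ * (4 * κ * (4 * l) ^ (-p)) = 4 * (C₂ * κ) * (4 * l) ^ (-p) := by ring
          _ = c / 16 * (4 * l) ^ (-p) := by
            rw [hC₂κ]
            ring
      have h6 : C₂ * (κ / l) ^ p ≤ C₂ * (4 * κ * (4 * l) ^ (-p)) :=
        mul_le_mul_of_nonneg_left hp4 (by linarith)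
      linarith
    have h5 : wOf ε u x ≤ ε * (c / 8 * (4 * l) ^ (-p)) :=
      h3.trans (mul_le_mul_of_nonneg_left h4 hε.le)
    have h6 : sbE ε c l / 4 = ε * (c / 4 * (4 * l) ^ (-p)) := by
      unfold sbE
      rw [← hp]
      ring
    have h7 : ε * (c / 8 * (4 * l) ^ (-p)) < ε * (c / 4 * (4 * l) ^ (-p)) := by
      have h8 : 0 < ε * (c * (4 * l) ^ (-p)) := by positivity
      linarith
    linarith

end Pool.Agent.PFU
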