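import Pool.Agent.PFU.StmtsM

/-!
# Module LSBT: the limit `d → 0` in the integrated identity (several inner balls)
-/

open MeasureTheory Filter Topology
open scoped ContDiff

namespace Pool.Agent.PFU

open Pool.Agent.PenroseSph Pool.Agent.PFlow Pool.Agent.PFT

open Pool.Agent.PFlow.MLSB in
/-- **LSBT.** -/
theorem t_LSBT (hLSAT : Stmt_LSAT) (hFAT : Stmt_FAT) : Stmt_LSBT := by
  intro ε U g h K hε hε1 hU hg hh hK hKU
  have hUP : Stmt_UP := Pool.Agent.PFlow.AllM.pUP
  have hCT : Stmt_CT := Pool.Agent.PFlow.AllM.pCT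
  have hZD : Stmt_ZD := Pool.Agent.PFlow.AllM.pZD
  obtain ⟨C₂, hc⟩ := getCf hCT hU hg hh hK hKU
  obtain ⟨C₁, hC₁, hup⟩ := hUP ε U g h hε hε1 hU hg hh K hK hKU
  have hC₂ := hc.one_le
  refine ⟨C₁ * C₂, by positivity, ?_⟩
  intro T a' b' s₀ s₁ t₀ t₁ c W v C z₁ ψ B hD hB hfin hres
  obtain ⟨hfA, hfB, -⟩ := hFAT T a' b' s₀ s₁ W C z₁ hD.trunc hD.lip hD.far
  have hv := hD.smooth
  have hlsa := hLSAT ε T U g h a' b' s₀ s₁ t₀ t₁ c W v C z₁ K ψ hε hε1 hD
  have hB0 : 0 ≤ B := (hD.nonneg 0).trans (hB 0)
  -- the sets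
  set G := goodT W s₀ s₁ T z₁ with hGdef
  set F := fillT W s₀ s₁ T z₁ with hFdef
  have hGc : IsClosed G :=
    (isClosed_eq hfA.continuous hD.trunc.cont).inter (isClosed_eq hfB.continuous hfA.continuous)
  have hKm := hK.measurableSet
  have hSm : MeasurableSet (K ∩ G) := hKm.inter hGc.measurableSet
  have hSK : K ∩ G ⊆ K := Set.inter_subset_left
  set Tb := badsetT W s₀ s₁ T z₁ ψ with hTdef
  have hTm : MeasurableSet Tb :=
    ((isClosed_tsupport ψ).preimage hfB.continuous).measurableSet.diff hGc.measurableSet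
  have hTK : Tb ⊆ K \ G := by
    intro x hx
    exact ⟨hD.levels x (Set.Ioo_subset_Icc_self (hD.supp hx.1)), hx.2⟩
  have hTK' : Tb ⊆ K := fun x hx => (hTK hx).1
  have hWv : ∀ x ∈ K, W x = v x := fun x hx => (hD.agree x hx).self_of_nhds
  have hFv : ∀ x ∈ K ∩ G, F x = v x := fun x hx =>
    (hx.2.2.trans hx.2.1).trans (hWv x hx.1)
  have hae : ∀ᵐ x ∂(volume.restrict K), x ∈ ncr K v := by
    rw [ae_restrict_iff' hKm]
    have h0 : volume {x ∈ K | grad v x = 0} = 0 := hfin.measure_zero _
    have h1 : ∀ᵐ x : E3, x ∉ {x ∈ K | grad v x = 0} := measure_eq_zero_iff_ae_notMem.mp h0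
    filter_upwards [h1] with x hx hxK
    exact ⟨hxK, fun h2 => hx ⟨hxK, h2⟩⟩
  have haeS : ∀ᵐ x ∂(volume.restrict (K ∩ G)), x ∈ ncr K v :=
    ae_mono (Measure.restrict_mono hSK le_rfl) hae
  have haeT : ∀ᵐ x ∂(volume.restrict Tb), x ∈ ncr K v :=
    ae_mono (Measure.restrict_mono hTK' le_rfl) hae
  -- continuity
  have hvc : Continuous v := hv.continuous
  have hψc : Continuous ψ := hD.diff.continuous
  have hψ' : Continuous (deriv ψ) := hD.diff.continuous_deriv le_rfl
  have hvol : ContinuousOn (volDen g) K := (cont_vol hg).mono hKU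
  have hvol0 : ∀ x, 0 ≤ volDen g x := fun x => Real.sqrt_nonneg _
  have hvsq := cont_vsq hv
  have hvn := cont_vn hv
  set R : E3 → ℝ := fun x => resid ε g h x (grad v x) (hess2 v x) ^ 2 / vn (grad v x) with hR
  have hR0 : ∀ x, 0 ≤ R x := fun x => div_nonneg (sq_nonneg _) (vn_nonneg _)
  set Z : ℝ → E3 → ℝ := fun d x => DZx ε g h d x (grad v x) (hess2 v x) with hZ
  set Q : E3 → ℝ := fun x => C₁ * (R x + (1 + vsq (grad v x)) * (vn (grad v x) + 1)) with hQ
  have hQi : IntegrableOn (fun x => ψ (v x) * Q x * volDen g x) K := by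
    have h1 : IntegrableOn (fun x => (1 + vsq (grad v x)) * (vn (grad v x) + 1)) K :=
      (by fun_prop : Continuous fun x => (1 + vsq (grad v x)) * (vn (grad v x) + 1)).continuousOn
        |>.integrableOn_compact hK
    have h2 : IntegrableOn Q K := (hres.add h1).const_mul C₁
    have h3 : ContinuousOn (fun x => ψ (v x) * volDen g x) K :=
      (hψc.comp hvc).continuousOn.mul hvol
    have h4 := h2.continuousOn_mul h3 hK
    refine h4.congr (Eventually.of_forall fun x => ?_)
    simp only
    ring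
  have hZi : ∀ d, 0 < d → IntegrableOn (fun x => ψ (v x) * Z d x * volDen g x) K := by
    intro d hd
    have h1 := (cont_Z hZD hε hε1 hU hg hh hv hd).mono hKU
    have h2 : ContinuousOn (fun x => ψ (v x) * (Z d x * volDen g x)) K :=
      (hψc.comp hvc).continuousOn.mul h1
    refine (h2.integrableOn_compact hK).congr (Eventually.of_forall fun x => ?_)
    simp only
    ring
  have hZi' : ∀ d, 0 < d → IntegrableOn (fun x => ψ (F x) * Z d x * volDen g x) K := by
    intro d hd
    have h1 := (cont_Z hZD hε hε1 hU hg hh hv hd).mono hKU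
    have h2 : ContinuousOn (fun x => ψ (F x) * (Z d x * volDen g x)) K :=
      (hψc.comp hfB.continuous).continuousOn.mul h1
    refine (h2.integrableOn_compact hK).congr (Eventually.of_forall fun x => ?_)
    simp only
    ring
  -- the bad set
  set I₁ : ℝ := ∫ x in Tb, (R x + (1 + vsq (grad v x)) * vn (grad v x)) with hI₁
  set I₂ : ℝ := ∫ x in Tb, (1 + vsq (grad v x)) with hI₂
  have hi1 : IntegrableOn (fun x => R x + (1 + vsq (grad v x)) * vn (grad v x)) Tb := by
    have h1 : IntegrableOn (fun x => (1 + vsq (grad v x)) * vn (grad v x)) K :=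
      (by fun_prop : Continuous fun x => (1 + vsq (grad v x)) * vn (grad v x)).continuousOn
        |>.integrableOn_compact hK
    exact IntegrableOn.mono_set (hres.add h1) hTK'
  have hi2 : IntegrableOn (fun x => 1 + vsq (grad v x)) Tb := by
    have h1 : IntegrableOn (fun x => 1 + vsq (grad v x)) K :=
      (by fun_prop : Continuous fun x => 1 + vsq (grad v x)).continuousOn
        |>.integrableOn_compact hK
    exact h1.mono_set hTK'
  have hbad : ∀ d, 0 < d → d ≤ 1 →
      ∫ x in Tb, ψ (F x) * Z d x * volDen g x ≤ C₁ * C₂ * B * (I₁ + d * I₂) := by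
    intro d hd hd1
    have h1 : ∫ x in Tb, ψ (F x) * Z d x * volDen g x ≤
        ∫ x in Tb, C₁ * C₂ * B * ((R x + (1 + vsq (grad v x)) * vn (grad v x))
          + d * (1 + vsq (grad v x))) := by
      apply integral_mono_ae ((hZi' d hd).mono_set hTK') ((hi1.add (hi2.const_mul d)).const_mul _)
      filter_upwards [haeT] with x hx
      have hu := (hup x hx.1 (grad v x) (hess2 v x) d hx.2 (hess2_symm hv x) hd.le hd1).2
      have hE : 0 ≤ R x + (1 + vsq (grad v x)) * (vn (grad v x) + d) := by
        have := hR0 x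
        have := vsq_nonneg (grad v x)
        have := vn_nonneg (grad v x)
        positivity
      have h2 : ψ (F x) * Z d x ≤ B * (C₁ * (R x + (1 + vsq (grad v x)) * (vn (grad v x) + d))) :=
        (mul_le_mul_of_nonneg_left hu (hD.nonneg _)).trans
          (mul_le_mul_of_nonneg_right (hB _) (by positivity))
      calc ψ (F x) * Z d x * volDen g x
          ≤ B * (C₁ * (R x + (1 + vsq (grad v x)) * (vn (grad v x) + d))) * volDen g x :=
            mul_le_mul_of_nonneg_right h2 (hvol0 x)
        _ ≤ B * (C₁ * (R x + (1 + vsq (grad v x)) * (vn (grad v x) + d))) * C₂ :=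
            mul_le_mul_of_nonneg_left (hc.vupp x hx.1) (by positivity)
        _ = _ := by
          simp only [Pi.add_apply]
          ring
    have h2 : ∫ x in Tb, C₁ * C₂ * B * ((R x + (1 + vsq (grad v x)) * vn (grad v x))
        + d * (1 + vsq (grad v x))) = C₁ * C₂ * B * (I₁ + d * I₂) := by
      rw [integral_const_mul, integral_add hi1 (hi2.const_mul d), integral_const_mul]
    rw [← h2]
    exact h1
  -- the identity
  set L : ℝ → ℝ := fun d => - ∫ x in K ∩ G, deriv ψ (v x)
    * (∑ i, pd i v x * Zf ε g h d x (grad v x) (hess2 v x) i) * volDen g x with hL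
  have hid : ∀ d, 0 < d → ∫ x in K ∩ G, ψ (v x) * Z d x * volDen g x =
      L d - ∫ x in Tb, ψ (F x) * Z d x * volDen g x := by
    intro d hd
    have h1 : L d = ∫ x in K, ψ (F x) * Z d x * volDen g x := hlsa d hd
    rw [← integral_inter_add_sdiff hGc.measurableSet (hZi' d hd)] at h1
    have h2 : ∫ x in K \ G, ψ (F x) * Z d x * volDen g x =
        ∫ x in Tb, ψ (F x) * Z d x * volDen g x := by
      apply setIntegral_eq_of_subset_of_forall_sdiff_eq_zero (hKm.diff hGc.measurableSet) hTK
      intro x hx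
      have h3 : F x ∉ tsupport ψ := fun h4 => hx.2 ⟨h4, hx.1.2⟩
      rw [image_eq_zero_of_notMem_tsupport h3, zero_mul, zero_mul]
    have h3 : ∫ x in K ∩ G, ψ (F x) * Z d x * volDen g x =
        ∫ x in K ∩ G, ψ (v x) * Z d x * volDen g x := by
      apply setIntegral_congr_fun hSm
      intro x hx
      simp only
      rw [hFv x hx]
    rw [h2, h3] at h1
    linarith
  -- the limit of the left side
  obtain ⟨DA, hDA0, hDA⟩ := bd_sA (v := v) hc hK hv
  obtain ⟨DB, hDB0, hDB⟩ := bd_sB (v := v) hc hK hv ε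
  obtain ⟨Dψ, hDψ0, hDψ⟩ : Bd K fun x => deriv ψ (v x) :=
    Bd.of_continuous hK (hψ'.comp hvc).continuousOn
  set dn : ℕ → ℝ := fun n => 1 / ((n : ℝ) + 1) with hdn
  have hdn0 : ∀ n, 0 < dn n := fun n => by positivity
  have hdn1 : ∀ n, dn n ≤ 1 := fun n => by
    rw [hdn]
    simp only
    rw [div_le_one (by positivity)]
    linarith [(Nat.cast_nonneg n : (0 : ℝ) ≤ n)]
  have hdnt : Tendsto dn atTop (𝓝 0) := tendsto_one_div_add_atTop_nhds_zero_nat
  set L₀ : ℝ := - ∫ x in K ∩ G, deriv ψ (v x)
    * flux ε g h x (grad v x) (hess2 v x) * volDen g x with hL₀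
  have hLt : Tendsto (fun n => L (dn n)) atTop (𝓝 L₀) := by
    apply Tendsto.neg
    apply tendsto_integral_of_dominated_convergence (fun _ => Dψ * (DA + DB) * C₂)
    · intro n
      have h1 := (cont_F hZD hε hε1 hU hg hh hv (hdn0 n)).mono (hSK.trans hKU)
      have h2 : ContinuousOn (fun x => deriv ψ (v x) *
          ((∑ i, pd i v x * Zf ε g h (dn n) x (grad v x) (hess2 v x) i) * volDen g x))
          (K ∩ G) := (hψ'.comp hvc).continuousOn.mul h1
      refine (h2.aestronglyMeasurable hSm).congr (Eventually.of_forall fun x => ?_)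
      simp only
      ring
    · exact integrableOn_const (ne_top_of_le_ne_top hK.measure_lt_top.ne (measure_mono hSK))
    · intro n
      filter_upwards [haeS] with x hx
      have hgx := hc.pos x hx.1
      have h1 : |∑ i, pd i v x * Zf ε g h (dn n) x (grad v x) (hess2 v x) i| ≤ DA + DB := by
        have h2 : ∑ i, pd i v x * Zf ε g h (dn n) x (grad v x) (hess2 v x) i =
            len g x (grad v x) / ld (g x)⁻¹ (dn n) (grad v x) * sA g x (grad v x) (hess2 v x)
              + sB ε g h x (grad v x) :=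
          sum_Zf ε g h (dn n) x hgx (grad v x) hx.2 (hess2 v x)
        rw [h2]
        refine (abs_add_le _ _).trans (add_le_add ?_ (hDB x hx.1))
        rw [abs_mul]
        have h3 := ld_pos hgx hx.2 (dn n)
        have h4 := len_pos hgx hx.2
        have h5 : |len g x (grad v x) / ld (g x)⁻¹ (dn n) (grad v x)| ≤ 1 := by
          rw [abs_of_pos (by positivity), div_le_one h3]
          exact len_le_ld _ _
        calc _ ≤ 1 * DA := mul_le_mul h5 (hDA x hx) (abs_nonneg _) zero_le_one
          _ = DA := one_mul _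
      rw [Real.norm_eq_abs, abs_mul, abs_mul, abs_of_nonneg (hvol0 x)]
      exact mul_le_mul (mul_le_mul (hDψ x hx.1) h1 (abs_nonneg _) hDψ0) (hc.vupp x hx.1)
        (hvol0 x) (by positivity)
    · filter_upwards [haeS] with x hx
      have h1 := flux_tendsto ε g h (hc.pos x hx.1) hx.2 (hess2 v x) hdnt
      exact (h1.const_mul _).mul_const _
  -- Fatou
  set IB : ℝ := ∫ x in K ∩ G, ψ (v x) * Q x * volDen g x with hIB
  have hfat := fatou_real (μ := volume.restrict (K ∩ G))
    (F := fun n x => ψ (v x) * (Q x - Z (dn n) x) * volDen g x)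
    (f := fun x => ψ (v x) * (Q x - Z 0 x) * volDen g x)
    (a := fun n => IB - L (dn n) + C₁ * C₂ * B * (I₁ + dn n * I₂))
    (A := IB - L₀ + C₁ * C₂ * B * (I₁ + 0 * I₂))
    (fun n => by
      refine ((hQi.mono_set hSK).sub ((hZi _ (hdn0 n)).mono_set hSK)).congr
        (Eventually.of_forall fun x => ?_)
      simp only [Pi.sub_apply]
      ring)
    (fun n => by
      filter_upwards [haeS] with x hx
      have hu := (hup x hx.1 (grad v x) (hess2 v x) (dn n) hx.2 (hess2_symm hv x)
        (hdn0 n).le (hdn1 n)).2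
      have h1 : Z (dn n) x ≤ Q x := by
        refine hu.trans (mul_le_mul_of_nonneg_left (add_le_add_right ?_ _) (by linarith))
        exact mul_le_mul_of_nonneg_left (by linarith [hdn1 n])
          (by linarith [vsq_nonneg (grad v x)])
      exact mul_nonneg (mul_nonneg (hD.nonneg _) (by linarith)) (hvol0 x))
    (by
      filter_upwards [haeS] with x hx
      have h1 := DZx_tendsto ε g h (hc.pos x hx.1) hx.2 (hess2 v x) hdnt
      exact ((h1.const_sub (Q x)).const_mul _).mul_const _)
    (fun n => by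
      have h1 : ∫ x in K ∩ G, ψ (v x) * (Q x - Z (dn n) x) * volDen g x =
          IB - ∫ x in K ∩ G, ψ (v x) * Z (dn n) x * volDen g x := by
        rw [hIB, ← integral_sub (hQi.mono_set hSK) ((hZi _ (hdn0 n)).mono_set hSK)]
        congr 1
        funext x
        ring
      rw [h1, hid _ (hdn0 n)]
      linarith [hbad _ (hdn0 n) (hdn1 n)])
    ((tendsto_const_nhds.sub hLt).add
      ((tendsto_const_nhds.add (hdnt.mul_const I₂)).const_mul _))
  obtain ⟨hfi, hfle⟩ := hfat
  have hZ0 : IntegrableOn (fun x => ψ (v x) * Z 0 x * volDen g x) (K ∩ G) := by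
    refine ((hQi.mono_set hSK).sub hfi).congr (Eventually.of_forall fun x => ?_)
    simp only [Pi.sub_apply]
    ring
  have hZe : ∫ x in K ∩ G, ψ (v x) * Z 0 x * volDen g x =
      IB - ∫ x in K ∩ G, ψ (v x) * (Q x - Z 0 x) * volDen g x := by
    rw [hIB, ← integral_sub (hQi.mono_set hSK) hfi]
    congr 1
    funext x
    ring
  refine ⟨?_, hZ0, ?_⟩
  · -- second derivatives
    obtain ⟨D₃, hD₃0, hD₃⟩ := bd_diff (v := v) hc hK hv ε
    have hb1 : IntegrableOn (fun x => ψ (v x) * D₃ * volDen g x) (K ∩ G) :=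
      ((((hψc.comp hvc).continuousOn.mul continuousOn_const).mul hvol).integrableOn_compact
        hK).mono_set hSK
    have hb2 : IntegrableOn (fun x => ψ (v x) * (R x + (1 + vsq (grad v x)) * vn (grad v x))
        * volDen g x) (K ∩ G) := by
      have h1 : IntegrableOn (fun x => (1 + vsq (grad v x)) * vn (grad v x)) K :=
        (by fun_prop : Continuous fun x => (1 + vsq (grad v x)) * vn (grad v x)).continuousOn
          |>.integrableOn_compact hK
      have h2 : IntegrableOn (fun x => R x + (1 + vsq (grad v x)) * vn (grad v x)) K :=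
        hres.add h1
      have h3 : ContinuousOn (fun x => ψ (v x) * volDen g x) K :=
        (hψc.comp hvc).continuousOn.mul hvol
      refine ((h2.continuousOn_mul h3 hK).mono_set hSK).congr
        (Eventually.of_forall fun x => ?_)
      simp only
      ring
    have hb3 := (((hb1.sub hZ0).add (hb2.const_mul (C₁ * C₂))).const_mul (C₂ * (C₂ * C₁)))
    refine hb3.mono' ?_ ?_
    · exact ((hψc.comp hvc).measurable.mul
        ((cont_msq hv).measurable.div hvn.measurable)).aestronglyMeasurable
    · filter_upwards [haeS] with x hx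
      have hgx := hc.pos x hx.1
      have hup0 := (hup x hx.1 (grad v x) (hess2 v x) 0 hx.2 (hess2_symm hv x) le_rfl
        zero_le_one).1
      rw [ld_zero] at hup0
      have hm0 : 0 ≤ msq (hess2 v x) :=
        Finset.sum_nonneg fun _ _ => Finset.sum_nonneg fun _ _ => sq_nonneg _
      have h1 := hess_pt hC₁ hC₂ (len_pos hgx hx.2) (vn_pos hx.2) (vn_le hc hx.1 _)
        (len_le hc hx.1 _) (vn_sq _).symm hm0 hup0 (hD₃ x hx) rfl
      have hv1 : 1 ≤ C₂ * volDen g x := by
        have := hc.vlow x hx.1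
        rw [div_le_iff₀ (by linarith)] at this
        linarith
      have hmn : 0 ≤ msq (hess2 v x) / vn (grad v x) := div_nonneg hm0 (vn_nonneg _)
      rw [Real.norm_eq_abs, abs_of_nonneg (mul_nonneg (hD.nonneg _) hmn)]
      have h2 : msq (hess2 v x) / vn (grad v x) ≤
          (C₂ * (C₂ * C₁ * (D₃ - Z 0 x + C₁ * C₂ * (R x + (1 + vsq (grad v x))
            * vn (grad v x))))) * volDen g x := by
        have h3 := mul_le_mul_of_nonneg_left hv1 (hmn.trans h1)
        refine ((h1.trans_eq (mul_one _).symm).trans h3).trans (le_of_eq ?_)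
        simp only [hR, hZ]
        ring
      have h4 := mul_le_mul_of_nonneg_left h2 (hD.nonneg (v x))
      simp only [Pi.add_apply, Pi.sub_apply]
      refine h4.trans (le_of_eq ?_)
      ring
  · rw [hZe]
    have h1 : (∫ x in K ∩ G, ψ (v x) * (Q x - Z 0 x) * volDen g x) ≤
        IB - L₀ + C₁ * C₂ * B * (I₁ + 0 * I₂) := hfle
    have h2 : L₀ ≤ IB - (∫ x in K ∩ G, ψ (v x) * (Q x - Z 0 x) * volDen g x)
        + C₁ * C₂ * B * I₁ := by
      have h3 : C₁ * C₂ * B * (I₁ + 0 * I₂) = C₁ * C₂ * B * I₁ := by ring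
      linarith
    exact h2

end Pool.Agent.PFU
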