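import Pool.Agent.PFU.StmtsM

/-!
# Module LSGT: the Gauss-Bonnet inequality on the filled regular levels, several inner balls

Adapted from `Pool.Agent.PFlow.M_LSG`.
-/

open MeasureTheory Filter Topology
open scoped ContDiff ENNReal

namespace Pool.Agent.PFU

open Pool.Agent.PenroseSph Pool.Agent.PFlow Pool.Agent.PFT

namespace MLSGT

lemma compact_preT {T : Finset E3} {a' b' s₀ s₁ : ℝ} {F : E3 → ℝ}
    (D : TruncT T a' b' s₀ s₁ F) {c d : ℝ} (hd : d < s₁) :
    IsCompact {x | F x ∈ Set.Icc c d} := by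
  refine (isCompact_closedBall (0 : E3) b').of_isClosed_subset
    (isClosed_Icc.preimage D.cont) ?_
  intro x hx
  rw [mem_closedBall_zero_iff]
  by_contra h1
  have h2 := D.outer x (not_le.mp h1).le
  have h3 : F x ∈ Set.Icc c d := hx
  rw [h2] at h3
  exact absurd h3.2 (not_le.mpr hd)

/-- No critical value in `(α, β)`: the leaves have `n` pieces. -/
lemma pieces (hFAT : Stmt_FAT) (hFCT : Stmt_FCT) (hFDT : Stmt_FDT) (hLVT : Stmt_LVT)
    {T : Finset E3} {U : Set E3} {g h : TensorField}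
    {a' b' s₀ s₁ t₀ t₁ c : ℝ} {W v : E3 → ℝ} {C : NNReal} {z₁ : E3} {K : Set E3} {ψ : ℝ → ℝ}
    (D : LSDataT T U g h a' b' s₀ s₁ t₀ t₁ c W v C z₁ K ψ) {α β : ℝ} (hα : t₀ ≤ α)
    (hαβ : α < β) (hβ : β ≤ t₁) (hr : ∀ x ∈ K, v x ∈ Set.Ioo α β → grad v x ≠ 0) :
    ∃ n : ℕ, n ≤ T.card ∧ (c ≤ α → n ≤ 1) ∧ ∀ χ : ℝ → ℝ, BumpOn α β χ →
    ∫ x in K ∩ goodT W s₀ s₁ T z₁, χ (v x) * Kd g x (grad v x) (hess2 v x) * volDen g x
      ≤ n * (4 * Real.pi * ∫ s, χ s) := by
  obtain ⟨hA1, hA2, -, -, hA5, hA6⟩ := hFAT T a' b' s₀ s₁ W C z₁ D.trunc D.lip D.far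
  have hl0 := D.lt₀
  have hl1 := D.lt₁
  -- regular levels
  have hreg : ∀ c ∈ Set.Ioo α β, RegLevel W c := by
    intro c hc
    have hcK : ∀ z, W z = c → z ∈ K := fun z hz => D.levelsW z (by
      rw [hz]
      exact ⟨by linarith [hc.1], by linarith [hc.2]⟩)
    refine AllM.pSM W c D.trunc.cont ?_ ?_
    · have h1 := compact_preT D.trunc (c := c) (d := c) (by linarith [hc.2])
      rw [Set.Icc_self] at h1
      exact h1
    · intro z hz
      have hzK := hcK z hz
      have h1 := D.agree z hzK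
      have h2 : W z = v z := h1.self_of_nhds
      refine ⟨?_, ?_⟩
      · exact (D.smooth.of_le (by exact_mod_cast le_top)).contDiffAt.congr_of_eventuallyEq h1
      · rw [MLSG.grad_congr h1]
        exact hr z hzK (by rw [← h2, hz]; exact hc)
  have hgood := hFDT T a' b' s₀ s₁ W C z₁ D.trunc D.lip D.far α β (by linarith) hαβ
    (by linarith) hreg
  set F : E3 → ℝ := fillT W s₀ s₁ T z₁ with hF
  set V₀ : Set E3 := {x | F x ∈ Set.Ioo α β} with hV₀
  have hVo : IsOpen V₀ := isOpen_Ioo.preimage hA6.cont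
  have hVK : V₀ ⊆ K := fun x hx => D.levels x ⟨by linarith [hx.1], by linarith [hx.2]⟩
  have hFW : ∀ x ∈ V₀, F x = W x := by
    intro x hx
    have h1 := hgood x hx
    exact h1.2.trans h1.1
  have hev : ∀ x ∈ V₀, ∀ᶠ y in 𝓝 x, F y = v y := by
    intro x hx
    filter_upwards [hVo.mem_nhds hx, D.agree x (hVK hx)] with y hy1 hy2
    rw [hFW y hy1, hy2]
  have hFv : ∀ x ∈ V₀, F x = v x := fun x hx => (hev x hx).self_of_nhds
  have hgr : ∀ x ∈ V₀, grad v x ≠ 0 := by
    intro x hx
    refine hr x (hVK hx) ?_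
    rw [← hFv x hx]
    exact hx
  obtain ⟨n, V, hn, hn1, hVi, hVd, hVU, hVc⟩ := hLVT F α β T hαβ D.trunc.ne hA6.cont
    (fun p hp => by
      have h1 := hA6.inner p hp p (by
        rw [sub_self, norm_zero]
        exact hA6.pos.le)
      rw [h1]
      linarith)
    (compact_preT hA6 (by linarith))
    (fun x hx => by
      have h3 : fderiv ℝ F x = fderiv ℝ v x := Filter.EventuallyEq.fderiv_eq (hev x hx)
      refine ⟨D.smooth.contDiffAt.congr_of_eventuallyEq (hev x hx), ?_⟩
      rw [h3]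
      intro h4
      apply hgr x hx
      funext i
      simp only [grad, pd, h4]
      rfl)
    (fun s _ => (hFCT T a' b' s₀ s₁ W C z₁ D.trunc D.lip D.far s).1)
    (fun s _ => (hFCT T a' b' s₀ s₁ W C z₁ D.trunc D.lip D.far s).2)
  refine ⟨n, hn, ?_, ?_⟩
  · intro hc
    refine hn1 ⟨(α + β) / 2, ⟨by linarith, by linarith⟩, ?_⟩
    intro p hp q hq
    obtain ⟨S, hS, hS1, hS2, hS3⟩ := D.conn p hp q hq
    refine ⟨S, fun x hx => ?_, hS1, hS2, hS3⟩
    have h1 : F x < c := hS hx
    change F x < (α + β) / 2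
    linarith
  intro χ hχ
  have hVV : ∀ i, V i ⊆ V₀ := fun i => by
    rw [hV₀, ← hVU]
    exact Set.subset_iUnion V i
  have hfol : ∀ i, Fol (V i) α β g v := by
    intro i
    refine ⟨hVi i, ⟨fun j k => (D.met.smooth j k).mono (((hVV i).trans hVK).trans D.sub),
      fun x hx => D.met.posDef x (D.sub (hVK (hVV i hx)))⟩, D.smooth.contDiffOn, ?_,
      fun x hx => hgr x (hVV i hx), ?_⟩
    · intro x hx
      rw [← hFv x (hVV i hx)]
      exact hVV i hx
    · intro c d hc hd
      have h1 : cslab (V i) v c d = {x | F x ∈ Set.Icc c d} \ ⋃ j ∈ {j | j ≠ i}, V j := by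
        ext x
        constructor
        · rintro ⟨h1, h2⟩
          have h3 : v x ∈ Set.Icc c d := h2
          rw [← hFv x (hVV i h1)] at h3
          refine ⟨h3, ?_⟩
          intro h4
          simp only [Set.mem_iUnion, Set.mem_ofPred_eq, exists_prop] at h4
          obtain ⟨j, hj, hxj⟩ := h4
          exact Set.disjoint_left.mp (hVd j i hj) hxj h1
        · rintro ⟨h1, h2⟩
          have h3 : x ∈ V₀ := ⟨lt_of_lt_of_le hc h1.1, lt_of_le_of_lt h1.2 hd⟩
          have h4 : x ∈ ⋃ i, V i := by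
            rw [hVU]
            exact h3
          obtain ⟨j, hj⟩ := Set.mem_iUnion.mp h4
          have h5 : j = i := by
            by_contra h6
            apply h2
            simp only [Set.mem_iUnion, Set.mem_ofPred_eq, exists_prop]
            exact ⟨j, h6, hj⟩
          subst h5
          refine ⟨hj, ?_⟩
          change v x ∈ Set.Icc c d
          rw [← hFv x h3]
          exact h1
      rw [h1]
      exact (compact_preT hA6 (by linarith)).diff (isOpen_biUnion fun j _ => hVi j)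
  have hconn : ∀ i, ∀ s : ℝ, IsPreconnected (V i ∩ v ⁻¹' {s}) := by
    intro i s
    have h1 : V i ∩ v ⁻¹' {s} = V i ∩ F ⁻¹' {s} := by
      ext x
      constructor
      · rintro ⟨h1, h2⟩
        refine ⟨h1, ?_⟩
        have h3 : v x = s := h2
        change F x = s
        rw [hFv x (hVV i h1), h3]
      · rintro ⟨h1, h2⟩
        refine ⟨h1, ?_⟩
        have h3 : F x = s := h2
        change v x = s
        rw [← hFv x (hVV i h1), h3]
    rw [h1]
    exact hVc i s
  have hmain : ∀ i, ∫ x in V i, χ (v x) * Kd g x (grad v x) (hess2 v x) * volDen g x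
      ≤ 4 * Real.pi * ∫ s, χ s := by
    intro i
    refine le_trans (le_of_eq ?_) (GB.all_GB (V i) α β g v (hfol i) (hconn i) χ hχ)
    refine integral_congr_ae (Filter.Eventually.of_forall fun x => ?_)
    simp only [Kd, curv, dens]
    ring
  have hnn : 0 ≤ 4 * Real.pi * ∫ s, χ s :=
    mul_nonneg (by positivity) (integral_nonneg hχ.nonneg)
  have hVg : V₀ ⊆ K ∩ goodT W s₀ s₁ T z₁ := fun x hx => ⟨hVK hx, hgood x hx⟩
  have hgc : IsClosed (goodT W s₀ s₁ T z₁) :=
    (isClosed_eq hA5.cont D.trunc.cont).inter (isClosed_eq hA6.cont hA5.cont)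
  have hme : MeasurableSet (K ∩ goodT W s₀ s₁ T z₁) :=
    D.compact.measurableSet.inter hgc.measurableSet
  have hint : ∫ x in K ∩ goodT W s₀ s₁ T z₁,
      χ (v x) * Kd g x (grad v x) (hess2 v x) * volDen g x
      = ∫ x in V₀, χ (v x) * Kd g x (grad v x) (hess2 v x) * volDen g x := by
    refine setIntegral_eq_of_subset_of_forall_sdiff_eq_zero hme hVg ?_
    rintro x ⟨⟨hxK, hxg⟩, hxV⟩
    have h1 : χ (v x) = 0 := by
      by_contra h2
      apply hxV
      have h3 : v x ∈ Set.Ioo α β := hχ.supp (subset_tsupport χ h2)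
      have h4 : W x = v x := (D.agree x hxK).self_of_nhds
      have h5 : F x = v x := (hxg.2.trans hxg.1).trans h4
      change F x ∈ Set.Ioo α β
      rw [h5]
      exact h3
    rw [h1, zero_mul, zero_mul]
  by_cases hi : IntegrableOn
      (fun x => χ (v x) * Kd g x (grad v x) (hess2 v x) * volDen g x)
      (K ∩ goodT W s₀ s₁ T z₁)
  · rw [hint, hV₀, ← hVU, integral_iUnion_fintype (fun i => (hVi i).measurableSet)
      (fun i j hij => hVd i j hij) (fun i => hi.mono_set ((hVV i).trans hVg))]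
    calc ∑ i, ∫ x in V i, χ (v x) * Kd g x (grad v x) (hess2 v x) * volDen g x
        ≤ ∑ _i : Fin n, 4 * Real.pi * ∫ s, χ s := Finset.sum_le_sum fun i _ => hmain i
      _ = n * (4 * Real.pi * ∫ s, χ s) := by
          rw [Finset.sum_const, Finset.card_univ, Fintype.card_fin, nsmul_eq_mul]
  · rw [integral_undef hi]
    exact mul_nonneg (Nat.cast_nonneg n) hnn

/-- The right hand side. -/
noncomputable def rhs (T : Finset E3) (c : ℝ) (χ : ℝ → ℝ) : ℝ :=
  4 * Real.pi * (∫ s, χ s) + 4 * Real.pi * (T.card - 1) * ∫ s in Set.Iic c, χ s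

lemma rhs_nonneg {T : Finset E3} (hT : T.Nonempty) (c : ℝ) {χ : ℝ → ℝ} (h : ∀ s, 0 ≤ χ s) :
    0 ≤ rhs T c χ := by
  have h1 : (1 : ℝ) ≤ T.card := by exact_mod_cast hT.card_pos
  have h2 : 0 ≤ ∫ s, χ s := integral_nonneg h
  have h3 : 0 ≤ ∫ s in Set.Iic c, χ s := setIntegral_nonneg measurableSet_Iic fun s _ => h s
  have h4 : (0 : ℝ) ≤ T.card - 1 := by linarith
  unfold rhs
  positivity

/-- No critical value in `(α, β)`. -/
lemma base (hFAT : Stmt_FAT) (hFCT : Stmt_FCT) (hFDT : Stmt_FDT) (hLVT : Stmt_LVT)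
    {T : Finset E3} {U : Set E3} {g h : TensorField}
    {a' b' s₀ s₁ t₀ t₁ c : ℝ} {W v : E3 → ℝ} {C : NNReal} {z₁ : E3} {K : Set E3} {ψ : ℝ → ℝ}
    (D : LSDataT T U g h a' b' s₀ s₁ t₀ t₁ c W v C z₁ K ψ) {α β : ℝ} (hα : t₀ ≤ α)
    (hαβ : α < β) (hβ : β ≤ t₁) (hr : ∀ x ∈ K, v x ∈ Set.Ioo α β → grad v x ≠ 0)
    {χ : ℝ → ℝ} (hχ : BumpOn α β χ) :
    ∫ x in K ∩ goodT W s₀ s₁ T z₁, χ (v x) * Kd g x (grad v x) (hess2 v x) * volDen g x
      ≤ rhs T c χ := by
  have hT1 : (1 : ℝ) ≤ T.card := by exact_mod_cast D.trunc.ne.card_pos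
  have hnn : 0 ≤ 4 * Real.pi * ∫ s, χ s :=
    mul_nonneg (by positivity) (integral_nonneg hχ.nonneg)
  have hnc : 0 ≤ ∫ s in Set.Iic c, χ s :=
    setIntegral_nonneg measurableSet_Iic fun s _ => hχ.nonneg s
  have hzero : ∀ s, s ∉ Set.Ioo α β → χ s = 0 := by
    intro s hs
    by_contra h1
    exact hs (hχ.supp (subset_tsupport χ h1))
  rcases le_or_gt c α with hc | hc
  · -- only one piece
    obtain ⟨n, -, hn1, hn⟩ := pieces hFAT hFCT hFDT hLVT D hα hαβ hβ hr
    have h1 := hn χ hχ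
    have h2 : (n : ℝ) ≤ 1 := by exact_mod_cast hn1 hc
    have h3 : 0 ≤ 4 * Real.pi * ((T.card : ℝ) - 1) * ∫ s in Set.Iic c, χ s :=
      mul_nonneg (mul_nonneg (by positivity) (by linarith)) hnc
    have h4 := mul_le_mul_of_nonneg_right h2 hnn
    unfold rhs
    linarith
  rcases le_or_gt β c with hc' | hc'
  · obtain ⟨n, hnT, -, hn⟩ := pieces hFAT hFCT hFDT hLVT D hα hαβ hβ hr
    have h1 := hn χ hχ
    have h2 : (n : ℝ) ≤ T.card := by exact_mod_cast hnT
    have h3 : ∫ s in Set.Iic c, χ s = ∫ s, χ s := by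
      refine setIntegral_eq_integral_of_forall_compl_eq_zero ?_
      intro s hs
      refine hzero s fun h => hs ?_
      exact (h.2.le.trans hc')
    have h4 := mul_le_mul_of_nonneg_right h2 hnn
    unfold rhs
    rw [h3]
    calc _ ≤ (n : ℝ) * (4 * Real.pi * ∫ s, χ s) := h1
      _ ≤ T.card * (4 * Real.pi * ∫ s, χ s) := h4
      _ = _ := by ring
  -- `α < c < β`
  by_cases hi : IntegrableOn
      (fun x => χ (v x) * Kd g x (grad v x) (hess2 v x) * volDen g x)
      (K ∩ goodT W s₀ s₁ T z₁)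
  swap
  · rw [integral_undef hi]
    exact rhs_nonneg D.trunc.ne c hχ.nonneg
  obtain ⟨n, hnT, -, hn⟩ := pieces hFAT hFCT hFDT hLVT D hα hαβ hβ hr
  obtain ⟨m, -, hm1, hm⟩ := pieces hFAT hFCT hFDT hLVT D (hα.trans hc.le) hc' hβ
    (fun x hx h1 => hr x hx ⟨hc.trans h1.1, h1.2⟩)
  have hn2 : (n : ℝ) ≤ T.card := by exact_mod_cast hnT
  have hm2 : (m : ℝ) ≤ 1 := by exact_mod_cast hm1 le_rfl
  have hχi : Integrable χ := MLSG.integrable_bump hχ
  obtain ⟨B, hB⟩ : ∃ B : ℝ, ∀ s, χ s ≤ B := by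
    have hcs : HasCompactSupport χ :=
      Metric.isCompact_of_isClosed_isBounded (isClosed_tsupport χ)
        ((Metric.isBounded_Ioo α β).subset hχ.supp)
    obtain ⟨B, hB⟩ := hcs.exists_bound_of_continuous hχ.smooth.continuous
    exact ⟨B, fun s => (le_abs_self _).trans (by simpa using hB s)⟩
  have hB0 : 0 ≤ B := (hχ.nonneg 0).trans (hB 0)
  refine le_of_forall_pos_le_add fun ε hε => ?_
  set L : ℝ := 4 * Real.pi * (T.card - 1) * B with hL
  have hL0 : 0 ≤ L := mul_nonneg (mul_nonneg (by positivity) (by linarith)) hB0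
  obtain ⟨δ, hδ, hδL⟩ : ∃ δ : ℝ, 0 < δ ∧ L * δ ≤ ε := by
    refine ⟨ε / (L + 1), by positivity, ?_⟩
    rw [mul_div_assoc', div_le_iff₀ (by linarith)]
    nlinarith
  -- the cutoff
  set θ : ℝ → ℝ := fun s => Real.smoothTransition ((s - (c + δ / 2)) / (δ / 2)) with hθ
  have hθs : ContDiff ℝ 1 θ := by
    have h1 : ContDiff ℝ 1 (fun s : ℝ => (s - (c + δ / 2)) / (δ / 2)) :=
      (contDiff_id.sub contDiff_const).div_const _
    exact Real.smoothTransition.contDiff.comp h1
  have hθ0 : ∀ s, 0 ≤ θ s := fun s => Real.smoothTransition.nonneg _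
  have hθ1 : ∀ s, θ s ≤ 1 := fun s => Real.smoothTransition.le_one _
  have hθz : ∀ s, s ≤ c + δ / 2 → θ s = 0 := by
    intro s hs
    refine Real.smoothTransition.zero_of_nonpos ?_
    exact div_nonpos_of_nonpos_of_nonneg (by linarith) (by linarith)
  have hθo : ∀ s, c + δ ≤ s → θ s = 1 := by
    intro s hs
    refine Real.smoothTransition.one_of_one_le ?_
    rw [le_div_iff₀ (by linarith)]
    linarith
  have hb1 : BumpOn c β (fun s => χ s * θ s) := by
    refine ⟨hχ.smooth.mul hθs, fun s => mul_nonneg (hχ.nonneg s) (hθ0 s), ?_⟩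
    intro s hs
    have h1 : s ∈ tsupport χ := by
      refine closure_mono ?_ hs
      intro t ht h2
      apply ht
      change χ t * θ t = 0
      rw [h2, zero_mul]
    have h2 : s ∈ Set.Ici (c + δ / 2) := by
      have h3 : Function.support (fun s => χ s * θ s) ⊆ Set.Ici (c + δ / 2) := by
        intro t ht
        by_contra h4
        apply ht
        change χ t * θ t = 0
        rw [hθz t (le_of_lt (not_le.mp h4)), mul_zero]
      exact closure_minimal h3 isClosed_Ici hs
    refine ⟨?_, (hχ.supp h1).2⟩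
    have h4 : c + δ / 2 ≤ s := h2
    linarith
  have hb2 : BumpOn α β (fun s => χ s * (1 - θ s)) := by
    refine ⟨hχ.smooth.mul (contDiff_const.sub hθs),
      fun s => mul_nonneg (hχ.nonneg s) (by linarith [hθ1 s]), ?_⟩
    intro s hs
    refine hχ.supp (closure_mono ?_ hs)
    intro t ht h2
    apply ht
    change χ t * (1 - θ t) = 0
    rw [h2, zero_mul]
  have h1 := hm _ hb1
  have h2 := hn _ hb2
  have hi1 := MLSG.integrable_bump hb1
  have hi2 := MLSG.integrable_bump hb2
  -- splitting of the integral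
  have hθv : Continuous fun x => θ (v x) := hθs.continuous.comp D.smooth.continuous
  have hiL : IntegrableOn (fun x => (χ (v x) * θ (v x))
      * Kd g x (grad v x) (hess2 v x) * volDen g x) (K ∩ goodT W s₀ s₁ T z₁) := by
    have h3 : IntegrableOn (fun x => θ (v x) * (χ (v x)
        * Kd g x (grad v x) (hess2 v x) * volDen g x)) (K ∩ goodT W s₀ s₁ T z₁) := by
      refine Integrable.bdd_mul (c := 1) hi hθv.aestronglyMeasurable ?_
      refine Filter.Eventually.of_forall fun x => ?_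
      rw [Real.norm_eq_abs, abs_of_nonneg (hθ0 _)]
      exact hθ1 _
    refine h3.congr (Filter.Eventually.of_forall fun x => ?_)
    simp only
    ring
  have hiR : IntegrableOn (fun x => (χ (v x) * (1 - θ (v x)))
      * Kd g x (grad v x) (hess2 v x) * volDen g x) (K ∩ goodT W s₀ s₁ T z₁) := by
    refine (hi.sub hiL).congr (Filter.Eventually.of_forall fun x => ?_)
    simp only [Pi.sub_apply]
    ring
  have hsplit : ∫ x in K ∩ goodT W s₀ s₁ T z₁,
      χ (v x) * Kd g x (grad v x) (hess2 v x) * volDen g x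
      = (∫ x in K ∩ goodT W s₀ s₁ T z₁, (χ (v x) * θ (v x))
          * Kd g x (grad v x) (hess2 v x) * volDen g x)
        + ∫ x in K ∩ goodT W s₀ s₁ T z₁, (χ (v x) * (1 - θ (v x)))
          * Kd g x (grad v x) (hess2 v x) * volDen g x := by
    rw [← integral_add hiL hiR]
    refine integral_congr_ae (Filter.Eventually.of_forall fun x => ?_)
    simp only
    ring
  have hsum : ∫ s, χ s = (∫ s, χ s * θ s) + ∫ s, χ s * (1 - θ s) := by
    rw [← integral_add hi1 hi2]
    refine integral_congr_ae (Filter.Eventually.of_forall fun s => ?_)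
    simp only
    ring
  -- the error
  have herr : ∫ s, χ s * (1 - θ s) ≤ (∫ s in Set.Iic c, χ s) + B * δ := by
    have h3 : ∫ s, χ s * (1 - θ s) = ∫ s in Set.Iic (c + δ), χ s * (1 - θ s) := by
      symm
      refine setIntegral_eq_integral_of_forall_compl_eq_zero ?_
      intro s hs
      have h4 : c + δ ≤ s := le_of_lt (not_le.mp hs)
      rw [hθo s h4, sub_self, mul_zero]
    have h4 : ∫ s in Set.Iic (c + δ), χ s * (1 - θ s) ≤ ∫ s in Set.Iic (c + δ), χ s := by
      refine setIntegral_mono_on hi2.integrableOn hχi.integrableOn measurableSet_Iic ?_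
      intro s _
      have h5 := hχ.nonneg s
      have h6 := hθ0 s
      nlinarith
    have h5 : ∫ s in Set.Iic (c + δ), χ s
        = (∫ s in Set.Iic c, χ s) + ∫ s in Set.Ioc c (c + δ), χ s := by
      rw [← Set.Iic_union_Ioc_eq_Iic (show c ≤ c + δ by linarith)]
      exact setIntegral_union (Set.Iic_disjoint_Ioc le_rfl) measurableSet_Ioc
        hχi.integrableOn hχi.integrableOn
    have h6 : ∫ s in Set.Ioc c (c + δ), χ s ≤ B * δ := by
      have h7 : ∫ s in Set.Ioc c (c + δ), χ s ≤ ∫ _s in Set.Ioc c (c + δ), B := by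
        refine setIntegral_mono_on hχi.integrableOn ?_ measurableSet_Ioc fun s _ => hB s
        exact integrableOn_const (by simp)
      refine h7.trans (le_of_eq ?_)
      rw [setIntegral_const]
      simp only [Measure.real, Real.volume_Ioc, smul_eq_mul]
      rw [ENNReal.toReal_ofReal (by linarith)]
      ring
    linarith
  have hnn1 : 0 ≤ ∫ s, χ s * θ s := integral_nonneg hb1.nonneg
  have hnn2 : 0 ≤ ∫ s, χ s * (1 - θ s) := integral_nonneg hb2.nonneg
  have hpi : 0 < 4 * Real.pi := by positivity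
  have h3 : (m : ℝ) * (4 * Real.pi * ∫ s, χ s * θ s) ≤ 4 * Real.pi * ∫ s, χ s * θ s := by
    have := mul_le_mul_of_nonneg_right hm2 (mul_nonneg hpi.le hnn1)
    linarith
  have h4 : (n : ℝ) * (4 * Real.pi * ∫ s, χ s * (1 - θ s))
      ≤ T.card * (4 * Real.pi * ∫ s, χ s * (1 - θ s)) :=
    mul_le_mul_of_nonneg_right hn2 (mul_nonneg hpi.le hnn2)
  have h5 : 4 * Real.pi * ((T.card : ℝ) - 1) * ∫ s, χ s * (1 - θ s)
      ≤ 4 * Real.pi * ((T.card : ℝ) - 1) * ((∫ s in Set.Iic c, χ s) + B * δ) :=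
    mul_le_mul_of_nonneg_left herr (mul_nonneg hpi.le (by linarith))
  have h6 : 4 * Real.pi * ((T.card : ℝ) - 1) * (B * δ) ≤ ε := by
    calc 4 * Real.pi * ((T.card : ℝ) - 1) * (B * δ) = L * δ := by rw [hL]; ring
      _ ≤ ε := hδL
  rw [hsplit]
  unfold rhs
  rw [hsum]
  nlinarith [h1, h2, h3, h4, h5, h6]

/-- Induction over the critical values in `(α, β)`. -/
lemma step (hFAT : Stmt_FAT) (hFCT : Stmt_FCT) (hFDT : Stmt_FDT) (hLVT : Stmt_LVT)
    {T : Finset E3} {U : Set E3} {g h : TensorField}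
    {a' b' s₀ s₁ t₀ t₁ c₀ : ℝ} {W v : E3 → ℝ} {C : NNReal} {z₁ : E3} {K : Set E3} {ψ : ℝ → ℝ}
    (D : LSDataT T U g h a' b' s₀ s₁ t₀ t₁ c₀ W v C z₁ K ψ)
    (hfin : {x ∈ K | grad v x = 0}.Finite) (n : ℕ) :
    ∀ (α β : ℝ), t₀ ≤ α → β ≤ t₁ →
    ((v '' {x ∈ K | grad v x = 0}) ∩ Set.Ioo α β).ncard ≤ n →
    ∀ χ : ℝ → ℝ, BumpOn α β χ → (∀ x ∈ K, grad v x = 0 → v x ∉ tsupport χ) →
    ∫ x in K ∩ goodT W s₀ s₁ T z₁, χ (v x) * Kd g x (grad v x) (hess2 v x) * volDen g x
      ≤ rhs T c₀ χ := by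
  have hCr : (v '' {x ∈ K | grad v x = 0}).Finite := hfin.image v
  have hempty : ∀ (α β : ℝ), t₀ ≤ α → β ≤ t₁ →
      (v '' {x ∈ K | grad v x = 0}) ∩ Set.Ioo α β = ∅ →
      ∀ χ : ℝ → ℝ, BumpOn α β χ →
      ∫ x in K ∩ goodT W s₀ s₁ T z₁, χ (v x) * Kd g x (grad v x) (hess2 v x) * volDen g x
        ≤ rhs T c₀ χ := by
    intro α β hα hβ he χ hχ
    by_cases hαβ : α < β
    · refine base hFAT hFCT hFDT hLVT D hα hαβ hβ ?_ hχ
      intro x hx h1 h2
      have h3 : v x ∈ (v '' {x ∈ K | grad v x = 0}) ∩ Set.Ioo α β :=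
        ⟨⟨x, ⟨hx, h2⟩, rfl⟩, h1⟩
      rw [he] at h3
      exact h3
    · have h0 : ∀ s, χ s = 0 := by
        intro s
        by_contra h1
        have h2 := hχ.supp (subset_tsupport χ h1)
        exact hαβ (h2.1.trans h2.2)
      simp [h0, rhs]
  induction n with
  | zero =>
    intro α β hα hβ hn χ hχ _
    have h1 : ((v '' {x ∈ K | grad v x = 0}) ∩ Set.Ioo α β).Finite :=
      hCr.subset Set.inter_subset_left
    have h2 : (v '' {x ∈ K | grad v x = 0}) ∩ Set.Ioo α β = ∅ :=
      (Set.ncard_eq_zero h1).mp (Nat.le_zero.mp hn)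
    exact hempty α β hα hβ h2 χ hχ
  | succ n ih =>
    intro α β hα hβ hn χ hχ hc
    rcases ((v '' {x ∈ K | grad v x = 0}) ∩ Set.Ioo α β).eq_empty_or_nonempty with h0 | h0
    · exact hempty α β hα hβ h0 χ hχ
    obtain ⟨c, hcr, hcI⟩ := h0
    obtain ⟨y, ⟨hyK, hy0⟩, hyc⟩ := id hcr
    have hcs : c ∉ tsupport χ := by
      rw [← hyc]
      exact hc y hyK hy0
    have hLb := MLSG.bump_left hχ hcs
    have hRb := MLSG.bump_right hχ hcs
    have hfin' : ((v '' {x ∈ K | grad v x = 0}) ∩ Set.Ioo α β).Finite :=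
      hCr.subset Set.inter_subset_left
    have hcard : ∀ {α' β' : ℝ}, α ≤ α' → β' ≤ β → c ∉ Set.Ioo α' β' →
        ((v '' {x ∈ K | grad v x = 0}) ∩ Set.Ioo α' β').ncard ≤ n := by
      intro α' β' h1 h2 h3
      have h4 : (v '' {x ∈ K | grad v x = 0}) ∩ Set.Ioo α' β' ⊂
          (v '' {x ∈ K | grad v x = 0}) ∩ Set.Ioo α β := by
        refine ⟨Set.inter_subset_inter_right _ (Set.Ioo_subset_Ioo h1 h2), fun h5 => ?_⟩
        exact h3 (h5 ⟨hcr, hcI⟩).2
      have h5 := Set.ncard_lt_ncard h4 hfin'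
      omega
    have hL := ih α c hα (hcI.2.le.trans hβ)
      (hcard le_rfl hcI.2.le (fun h1 => lt_irrefl _ h1.2)) _ hLb (by
        intro x hx h1 h2
        refine hc x hx h1 ?_
        refine closure_mono ?_ h2
        intro t ht
        have ht' : t ∈ Set.Iio c := Set.mem_of_indicator_ne_zero ht
        have h3 : (Set.Iio c).indicator χ t ≠ 0 := ht
        rw [Set.indicator_of_mem ht'] at h3
        exact h3)
    have hR := ih c β (hα.trans hcI.1.le) hβ
      (hcard hcI.1.le le_rfl (fun h1 => lt_irrefl _ h1.1)) _ hRb (by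
        intro x hx h1 h2
        refine hc x hx h1 ?_
        refine closure_mono ?_ h2
        intro t ht
        have ht' : t ∈ Set.Ioi c := Set.mem_of_indicator_ne_zero ht
        have h3 : (Set.Ioi c).indicator χ t ≠ 0 := ht
        rw [Set.indicator_of_mem ht'] at h3
        exact h3)
    have hχc : χ c = 0 := image_eq_zero_of_notMem_tsupport hcs
    by_cases hi : IntegrableOn
        (fun x => χ (v x) * Kd g x (grad v x) (hess2 v x) * volDen g x)
        (K ∩ goodT W s₀ s₁ T z₁)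
    · have hmL : MeasurableSet (v ⁻¹' Set.Iio c) :=
        (isOpen_Iio.preimage D.smooth.continuous).measurableSet
      have hmR : MeasurableSet (v ⁻¹' Set.Ioi c) :=
        (isOpen_Ioi.preimage D.smooth.continuous).measurableSet
      have hiL : IntegrableOn (fun x => (Set.Iio c).indicator χ (v x)
          * Kd g x (grad v x) (hess2 v x) * volDen g x) (K ∩ goodT W s₀ s₁ T z₁) := by
        have h1 := Integrable.indicator hi hmL
        refine h1.congr (Filter.Eventually.of_forall fun x => ?_)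
        by_cases hx : v x ∈ Set.Iio c
        · rw [Set.indicator_of_mem (show x ∈ v ⁻¹' Set.Iio c from hx)]
          simp only [Set.indicator_of_mem hx]
        · rw [Set.indicator_of_notMem (show x ∉ v ⁻¹' Set.Iio c from hx)]
          simp only [Set.indicator_of_notMem hx, zero_mul]
      have hiR : IntegrableOn (fun x => (Set.Ioi c).indicator χ (v x)
          * Kd g x (grad v x) (hess2 v x) * volDen g x) (K ∩ goodT W s₀ s₁ T z₁) := by
        have h1 := Integrable.indicator hi hmR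
        refine h1.congr (Filter.Eventually.of_forall fun x => ?_)
        by_cases hx : v x ∈ Set.Ioi c
        · rw [Set.indicator_of_mem (show x ∈ v ⁻¹' Set.Ioi c from hx)]
          simp only [Set.indicator_of_mem hx]
        · rw [Set.indicator_of_notMem (show x ∉ v ⁻¹' Set.Ioi c from hx)]
          simp only [Set.indicator_of_notMem hx, zero_mul]
      have h1 : ∫ x in K ∩ goodT W s₀ s₁ T z₁,
          χ (v x) * Kd g x (grad v x) (hess2 v x) * volDen g x
          = (∫ x in K ∩ goodT W s₀ s₁ T z₁, (Set.Iio c).indicator χ (v x)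
              * Kd g x (grad v x) (hess2 v x) * volDen g x)
            + ∫ x in K ∩ goodT W s₀ s₁ T z₁, (Set.Ioi c).indicator χ (v x)
              * Kd g x (grad v x) (hess2 v x) * volDen g x := by
        rw [← integral_add hiL hiR]
        refine integral_congr_ae (Filter.Eventually.of_forall fun x => ?_)
        simp only
        rw [MLSG.cut_add hχc (v x)]
        ring
      have h2 : ∫ s, χ s = (∫ s, (Set.Iio c).indicator χ s) + ∫ s, (Set.Ioi c).indicator χ s := by
        rw [← integral_add (MLSG.integrable_bump hLb) (MLSG.integrable_bump hRb)]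
        exact integral_congr_ae (Filter.Eventually.of_forall fun s => MLSG.cut_add hχc s)
      have h3 : ∫ s in Set.Iic c₀, χ s = (∫ s in Set.Iic c₀, (Set.Iio c).indicator χ s)
          + ∫ s in Set.Iic c₀, (Set.Ioi c).indicator χ s := by
        rw [← integral_add (MLSG.integrable_bump hLb).integrableOn
          (MLSG.integrable_bump hRb).integrableOn]
        exact integral_congr_ae (Filter.Eventually.of_forall fun s => MLSG.cut_add hχc s)
      have h4 : rhs T c₀ χ = rhs T c₀ ((Set.Iio c).indicator χ)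
          + rhs T c₀ ((Set.Ioi c).indicator χ) := by
        unfold rhs
        rw [h2, h3]
        ring
      rw [h1, h4]
      exact add_le_add hL hR
    · rw [integral_undef hi]
      exact rhs_nonneg D.trunc.ne c₀ hχ.nonneg

end MLSGT

/-- **(LSGT)** The Gauss-Bonnet inequality on the filled regular levels, several inner balls. -/
theorem t_LSGT (hFAT : Stmt_FAT) (hFCT : Stmt_FCT) (hFDT : Stmt_FDT) (hLVT : Stmt_LVT) :
    Stmt_LSGT := by
  intro T U g h a' b' s₀ s₁ t₀ t₁ c W v C z₁ K ψ χ D hχ hfin hc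
  exact MLSGT.step hFAT hFCT hFDT hLVT D hfin _ t₀ t₁ le_rfl le_rfl le_rfl χ hχ hc

end Pool.Agent.PFU
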