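import Pool.Agent.PFU.StmtsM

/-!
# Module LST: the level set inequality for a smooth function with small residual, several inner balls

Adapted from `Pool.Agent.PFlow.M_LS`.
-/

open MeasureTheory Filter Topology
open scoped ContDiff

namespace Pool.Agent.PFU

open Pool.Agent.PenroseSph Pool.Agent.PFlow Pool.Agent.PFT

open Pool.Agent.PFlow.MLS Pool.Agent.PFlow.MMIT in
/-- **LST.** -/
theorem t_LST (hLSBT : Stmt_LSBT) (hLSGT : Stmt_LSGT) : Stmt_LST := by
  intro ε θ U g h K hε hε1 hθ hθ1 hU hg hh hK hKU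
  have hID : Stmt_ID := Pool.Agent.PFlow.AllM.pID
  have hPOS : Stmt_POS := Pool.Agent.PFlow.AllM.pPOS
  have hCT : Stmt_CT := Pool.Agent.PFlow.AllM.pCT
  obtain ⟨C₀, hC₀, hlsb⟩ := hLSBT ε U g h K hε hε1 hU hg hh hK hKU
  obtain ⟨c, hc1, hcx⟩ := hCT U g h hU hg hh K hK hKU
  have hc0 : 0 ≤ c := zero_le_one.trans hc1
  have hcs : ∀ x ∈ K, Cs c g h x := by
    intro x hx
    obtain ⟨e1, _, _, e4, e5, e6, e7, _, e9, _, _⟩ := hcx x hx
    exact ⟨hc1, fun p => (e1 p).1, fun p => (e1 p).2, e4, e5, e6, e7, e9⟩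
  have hvol : ∀ x ∈ K, volDen g x ≤ c := fun x hx => (hcx x hx).2.2.2.2.2.2.2.2.2.2
  have hvolpos : ∀ x ∈ K, 0 < volDen g x := fun x hx => MCF.volDen_pos hg (hKU hx)
  refine ⟨C₀ + c ^ 2 / (θ * ε ^ 2), by positivity, ?_⟩
  intro T a' b' s₀ s₁ t₀ t₁ cl W v Cn z₁ ψ B hD hB hfin hres
  obtain ⟨hi1, hi2, hineq⟩ := hlsb T a' b' s₀ s₁ t₀ t₁ cl W v Cn z₁ ψ B hD hB hfin hres
  have hT0 : (0 : ℝ) ≤ T.card - 1 := by
    have h1 : 1 ≤ T.card := hD.trunc.ne.card_pos
    have h2 : (1 : ℝ) ≤ T.card := by exact_mod_cast h1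
    linarith
  set S : Set E3 := K ∩ goodT W s₀ s₁ T z₁ with hS
  have hSK : S ⊆ K := Set.inter_subset_left
  have hB0 : 0 ≤ B := (hD.nonneg 0).trans (hB 0)
  -- the measures
  have hfinK : IsFiniteMeasure (volume.restrict K) :=
    ⟨by rw [Measure.restrict_apply_univ]; exact hK.measure_lt_top⟩
  have hle : volume.restrict S ≤ volume.restrict K := Measure.restrict_mono hSK le_rfl
  have hcf : MCF.Coef (volume.restrict K) g h := MCF.coef hU hg hh hK hKU
  have hmem : ∀ᵐ x ∂(volume.restrict K), x ∈ K := ae_restrict_mem hK.measurableSet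
  have hpc : ∀ i, Continuous (fun x => grad v x i) := fun i => (pd_cont hD.smooth i).continuous
  have hhc : ∀ i j, Continuous (fun x => hess2 v x i j) := fun i j =>
    (pd_cont (pd_cont hD.smooth j) i).continuous
  have hpm : ∀ i, AEMeasurable (fun x => grad v x i) (volume.restrict K) := fun i =>
    (hpc i).measurable.aemeasurable
  have hhm : ∀ i j, AEMeasurable (fun x => hess2 v x i j) (volume.restrict K) := fun i j =>
    (hhc i j).measurable.aemeasurable
  have hzz : Integrable (fun x => zz (grad v x) (hess2 v x)) (volume.restrict K) := by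
    have h1 : Continuous (fun x => zz (grad v x) (hess2 v x)) := by
      unfold zz vsq msq
      refine (continuous_const.add ((continuous_finsetSum _ fun i _ => (hpc i).pow 2).pow
        2)).add (continuous_finsetSum _ fun i _ => continuous_finsetSum _ fun j _ =>
          (hhc i j).pow 2)
    exact h1.continuousOn.integrableOn_compact hK
  have hψ1 : ContDiff ℝ 1 ψ := hD.diff
  have hψc : Continuous ψ := hψ1.continuous
  have hψs : HasCompactSupport ψ := by
    refine IsCompact.of_isClosed_subset (isCompact_Icc (a := t₀) (b := t₁))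
      (isClosed_tsupport ψ) ?_
    exact hD.supp.trans Set.Ioo_subset_Icc_self
  have hψv : Continuous (fun x => ψ (v x)) := hψc.comp hD.smooth.continuous
  have hψvm : AEMeasurable (fun x => ψ (v x)) (volume.restrict K) := hψv.measurable.aemeasurable
  -- the critical points
  have hne : ∀ᵐ x ∂(volume.restrict K), grad v x ≠ 0 := by
    rw [ae_restrict_iff' hK.measurableSet]
    have h1 : volume {x ∈ K | grad v x = 0} = 0 := hfin.measure_zero volume
    filter_upwards [measure_eq_zero_iff_ae_notMem.mp h1] with x hx hxK h0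
    exact hx ⟨hxK, h0⟩
  set Cr : Finset ℝ := (hfin.image v).toFinset with hCr
  have hnc : ∀ᵐ x ∂(volume.restrict K), v x ∉ Cr := by
    have h1 : ∀ᵐ x : E3, ∀ s ∈ Cr, W x - s = 0 → fderiv ℝ (fun y => W y - s) x = 0 := by
      rw [Filter.eventually_all_finset]
      intro s _
      have h2 : LipschitzWith Cn (fun y => W y - s) := by
        have := hD.lip.sub (LipschitzWith.const s)
        simpa using this
      exact MAEG.ae_fderiv_zero h2
    filter_upwards [ae_restrict_of_ae h1, hne, hmem] with x hx hx0 hxK hxC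
    apply hx0
    have h3 := hD.agree x hxK
    have h4 : W x = v x := h3.self_of_nhds
    have h5 := hx (v x) hxC (by rw [h4, sub_self])
    rw [fderiv_sub_const] at h5
    have h6 : fderiv ℝ v x = 0 := by
      rw [← h5]
      exact (Filter.EventuallyEq.fderiv_eq h3).symm
    funext i
    change fderiv ℝ v x _ = 0
    rw [h6]
    rfl
  -- the identity
  have hid : ∀ᵐ x ∂(volume.restrict K), DZx ε g h 0 x (grad v x) (hess2 v x) =
      Kd g x (grad v x) (hess2 v x) - len g x (grad v x) * (matter g h x (grad v x)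
        + diss ε g h x (grad v x) (hess2 v x))
      - flux ε g h x (grad v x) (hess2 v x) / (2 - ε)
      + resid ε g h x (grad v x) (hess2 v x) * zed ε g h x (grad v x) (hess2 v x) / ε := by
    filter_upwards [hmem, hne] with x hx hx0
    exact hID U g h hU hg hh x (hKU hx) ε _ _ hε hε1 hx0 (hess_symm hD.smooth x)
  have hpos : ∀ᵐ x ∂(volume.restrict K), (1 / ε - 1 / 4) *
      zed ε g h x (grad v x) (hess2 v x) ^ 2 ≤ dis0 ε g h x (grad v x) (hess2 v x) := by
    filter_upwards [hmem, hne] with x hx hx0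
    exact hPOS U g h hU hg hh x (hKU hx) ε _ _ hε hε1 hx0 (hess_symm hD.smooth x)
  -- nonnegativity of the test function and of the density
  have hψ0 : ∀ x, 0 ≤ ψ (v x) := fun x => hD.nonneg _
  have hψB : ∀ x, ψ (v x) ≤ B := fun x => hB _
  -- integrability
  have hdi : IntegrableOn (fun x => ψ (v x) * (len g x (grad v x) *
      dis0 ε g h x (grad v x) (hess2 v x)) * volDen g x) S := by
    have hm : AEStronglyMeasurable (fun x => ψ (v x) * (len g x (grad v x) *
        dis0 ε g h x (grad v x) (hess2 v x)) * volDen g x) (volume.restrict S) :=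
      (((hψvm.mul ((MCF.m_len hcf hpm).mul (MCF.m_dis0 hcf ε hpm hhm))).mul
        hcf.vol).mono_measure hle).aestronglyMeasurable
    have hb : IntegrableOn (fun x => c * (1000000 / ε * c ^ 11) *
        (ψ (v x) * (msq (hess2 v x) / vn (grad v x))) + c * (1000000 / ε * c ^ 11) * B *
          zz (grad v x) (hess2 v x)) S :=
      (hi1.const_mul _).add ((hzz.mono_measure hle).const_mul _)
    refine hb.mono' hm ?_
    filter_upwards [hle.absolutelyContinuous.ae_le (hmem.and hne)] with x hx
    obtain ⟨hxK, hx0⟩ := hx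
    have h1 := b_dis0 (hcs x hxK) hε hε1 (grad v x) hx0 (hess2 v x)
    have hA : 0 ≤ 1000000 / ε * c ^ 11 := by positivity
    have hz0 : 0 ≤ zz (grad v x) (hess2 v x) :=
      (vn_nonneg _).trans (pow_le_zz (grad v x) (hess2 v x)).1
    have hm0 : 0 ≤ msq (hess2 v x) / vn (grad v x) :=
      div_nonneg (msq_nonneg _) (vn_nonneg _)
    rw [Real.norm_eq_abs, abs_mul, abs_mul, abs_of_nonneg (hψ0 x), abs_of_pos (hvolpos x hxK)]
    calc ψ (v x) * |len g x (grad v x) * dis0 ε g h x (grad v x) (hess2 v x)| * volDen g x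
        ≤ ψ (v x) * (1000000 / ε * c ^ 11 * (msq (hess2 v x) / vn (grad v x)
          + zz (grad v x) (hess2 v x))) * c :=
          mul_le_mul (mul_le_mul_of_nonneg_left h1 (hψ0 x)) (hvol x hxK) (hvolpos x hxK).le
            (mul_nonneg (hψ0 x) (mul_nonneg hA (add_nonneg hm0 hz0)))
      _ = c * (1000000 / ε * c ^ 11) * (ψ (v x) * (msq (hess2 v x) / vn (grad v x)))
          + c * (1000000 / ε * c ^ 11) * (ψ (v x) * zz (grad v x) (hess2 v x)) := by ring
      _ ≤ c * (1000000 / ε * c ^ 11) * (ψ (v x) * (msq (hess2 v x) / vn (grad v x)))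
          + c * (1000000 / ε * c ^ 11) * (B * zz (grad v x) (hess2 v x)) := by
          have h2 : ψ (v x) * zz (grad v x) (hess2 v x) ≤ B * zz (grad v x) (hess2 v x) :=
            mul_le_mul_of_nonneg_right (hψB x) hz0
          have h3 := mul_le_mul_of_nonneg_left h2 (mul_nonneg hc0 hA)
          linarith
      _ = _ := by ring
  refine ⟨hdi, ?_⟩
  have hbdd : ∀ {F : E3 → ℝ}, Integrable F (volume.restrict K) →
      IntegrableOn (fun x => ψ (v x) * F x * volDen g x) S := by
    intro F hF
    have h1 : Integrable (fun x => ψ (v x) * F x * volDen g x) (volume.restrict K) := by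
      refine (hF.norm.const_mul (B * c)).mono' ((hψvm.mul hF.aestronglyMeasurable.aemeasurable).mul
        hcf.vol).aestronglyMeasurable ?_
      filter_upwards [hmem] with x hx
      rw [norm_mul, norm_mul, Real.norm_of_nonneg (hψ0 x), Real.norm_of_nonneg (hvolpos x hx).le]
      calc ψ (v x) * ‖F x‖ * volDen g x ≤ B * ‖F x‖ * c :=
            mul_le_mul (mul_le_mul_of_nonneg_right (hψB x) (norm_nonneg _)) (hvol x hx)
              (hvolpos x hx).le (mul_nonneg hB0 (norm_nonneg _))
        _ = _ := by ring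
    exact h1.mono_measure hle
  have hcae : ∀ᵐ x ∂(volume.restrict K), Cs c g h x := hmem.mono hcs
  have hfi := hbdd (int_flux hcf hcae hε hε1 hpm hhm hzz)
  have hmi := hbdd (int_mat hcf hcae hε hε1 hpm hhm hzz)
  have hri : IntegrableOn (fun x => resid ε g h x (grad v x) (hess2 v x) ^ 2 / vn (grad v x)) S :=
    hres.mono_set hSK
  have hqb : ∀ᵐ x ∂(volume.restrict S), |ψ (v x) * (resid ε g h x (grad v x) (hess2 v x) *
      zed ε g h x (grad v x) (hess2 v x) / ε) * volDen g x| ≤
      θ * (ψ (v x) * (len g x (grad v x) * dis0 ε g h x (grad v x) (hess2 v x)) * volDen g x)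
        + B * (c ^ 2 / (θ * ε ^ 2)) *
          (resid ε g h x (grad v x) (hess2 v x) ^ 2 / vn (grad v x)) := by
    filter_upwards [hle.absolutelyContinuous.ae_le ((hmem.and hne).and hpos)] with x hx
    obtain ⟨⟨hxK, hx0⟩, hxp⟩ := hx
    have h1 := b_res (hcs x hxK) hε hε1 hθ (grad v x) hx0 (hess2 v x) hxp
    have hr0 : 0 ≤ resid ε g h x (grad v x) (hess2 v x) ^ 2 / vn (grad v x) :=
      div_nonneg (sq_nonneg _) (vn_nonneg _)
    rw [abs_mul, abs_mul, abs_of_nonneg (hψ0 x), abs_of_pos (hvolpos x hxK)]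
    calc ψ (v x) * |resid ε g h x (grad v x) (hess2 v x) *
          zed ε g h x (grad v x) (hess2 v x) / ε| * volDen g x
        ≤ ψ (v x) * (θ * (len g x (grad v x) * dis0 ε g h x (grad v x) (hess2 v x))
          + c / (θ * ε ^ 2) * (resid ε g h x (grad v x) (hess2 v x) ^ 2 / vn (grad v x)))
            * volDen g x :=
          mul_le_mul_of_nonneg_right (mul_le_mul_of_nonneg_left h1 (hψ0 x)) (hvolpos x hxK).le
      _ = θ * (ψ (v x) * (len g x (grad v x) * dis0 ε g h x (grad v x) (hess2 v x)) * volDen g x)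
          + (ψ (v x) * volDen g x) * (c / (θ * ε ^ 2) *
            (resid ε g h x (grad v x) (hess2 v x) ^ 2 / vn (grad v x))) := by ring
      _ ≤ θ * (ψ (v x) * (len g x (grad v x) * dis0 ε g h x (grad v x) (hess2 v x)) * volDen g x)
          + (B * c) * (c / (θ * ε ^ 2) *
            (resid ε g h x (grad v x) (hess2 v x) ^ 2 / vn (grad v x))) := by
          have h2 : ψ (v x) * volDen g x ≤ B * c :=
            mul_le_mul (hψB x) (hvol x hxK) (hvolpos x hxK).le hB0
          have h3 := mul_le_mul_of_nonneg_right h2 (by positivity : 0 ≤ c / (θ * ε ^ 2) *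
            (resid ε g h x (grad v x) (hess2 v x) ^ 2 / vn (grad v x)))
          linarith
      _ = _ := by ring
  have hqi : IntegrableOn (fun x => ψ (v x) * (resid ε g h x (grad v x) (hess2 v x) *
      zed ε g h x (grad v x) (hess2 v x) / ε) * volDen g x) S := by
    refine ((hdi.const_mul θ).add (hri.const_mul (B * (c ^ 2 / (θ * ε ^ 2))))).mono' ?_ hqb
    exact (((hψvm.mul (((m_resid hcf ε hpm hhm).mul (MCF.m_zed hcf ε hpm hhm)).div_const ε)).mul
        hcf.vol).mono_measure hle).aestronglyMeasurable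
  -- the Gauss curvature term
  have hκ : ∀ᵐ x ∂(volume.restrict S), ψ (v x) * Kd g x (grad v x) (hess2 v x) * volDen g x =
      ψ (v x) * DZx ε g h 0 x (grad v x) (hess2 v x) * volDen g x
      + ψ (v x) * (len g x (grad v x) * (matter g h x (grad v x)
        + diss ε g h x (grad v x) (hess2 v x) - dis0 ε g h x (grad v x) (hess2 v x)))
          * volDen g x
      + ψ (v x) * (len g x (grad v x) * dis0 ε g h x (grad v x) (hess2 v x)) * volDen g x
      + 1 / (2 - ε) * (ψ (v x) * flux ε g h x (grad v x) (hess2 v x) * volDen g x)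
      - ψ (v x) * (resid ε g h x (grad v x) (hess2 v x) *
        zed ε g h x (grad v x) (hess2 v x) / ε) * volDen g x := by
    filter_upwards [hle.absolutelyContinuous.ae_le hid] with x hx
    rw [hx]
    ring
  have hκi : IntegrableOn (fun x => ψ (v x) * Kd g x (grad v x) (hess2 v x) * volDen g x) S :=
    ((((hi2.add hmi).add hdi).add (hfi.const_mul (1 / (2 - ε)))).sub hqi).congr
      (hκ.mono fun x hx => hx.symm)
  have hκint : ∫ x in S, ψ (v x) * Kd g x (grad v x) (hess2 v x) * volDen g x =
      (∫ x in S, ψ (v x) * DZx ε g h 0 x (grad v x) (hess2 v x) * volDen g x)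
      + (∫ x in S, ψ (v x) * (len g x (grad v x) * (matter g h x (grad v x)
        + diss ε g h x (grad v x) (hess2 v x) - dis0 ε g h x (grad v x) (hess2 v x)))
          * volDen g x)
      + (∫ x in S, ψ (v x) * (len g x (grad v x) * dis0 ε g h x (grad v x) (hess2 v x))
          * volDen g x)
      + 1 / (2 - ε) * (∫ x in S, ψ (v x) * flux ε g h x (grad v x) (hess2 v x) * volDen g x)
      - ∫ x in S, ψ (v x) * (resid ε g h x (grad v x) (hess2 v x) *
        zed ε g h x (grad v x) (hess2 v x) / ε) * volDen g x := by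
    rw [integral_congr_ae hκ]
    exact int5 (1 / (2 - ε)) hi2 hmi hdi hfi hqi
  -- the Gauss-Bonnet inequality in the limit
  have hGB : ∫ x in S, ψ (v x) * Kd g x (grad v x) (hess2 v x) * volDen g x ≤
      4 * Real.pi * (∫ s, ψ s) + 4 * Real.pi * (T.card - 1) * ∫ s in Set.Iic cl, ψ s := by
    have hψi : Integrable ψ := hψc.integrable_of_hasCompactSupport hψs
    have hlim : Tendsto (fun k => ∫ x in S, cut Cr k (v x) *
        (ψ (v x) * Kd g x (grad v x) (hess2 v x) * volDen g x)) atTop
        (𝓝 (∫ x in S, ψ (v x) * Kd g x (grad v x) (hess2 v x) * volDen g x)) := by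
      refine tendsto_integral_of_dominated_convergence
        (fun x => ‖ψ (v x) * Kd g x (grad v x) (hess2 v x) * volDen g x‖) ?_ hκi.norm ?_ ?_
      · intro k
        exact (((cut_smooth Cr k).continuous.comp
          hD.smooth.continuous).aestronglyMeasurable).mul hκi.aestronglyMeasurable
      · intro k
        filter_upwards with x
        rw [norm_mul, Real.norm_of_nonneg (cut_nonneg Cr k _)]
        exact mul_le_of_le_one_left (norm_nonneg _) (cut_le_one Cr k _)
      · filter_upwards [hle.absolutelyContinuous.ae_le hnc] with x hx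
        have h1 := (cut_lim Cr hx).mul_const
          (ψ (v x) * Kd g x (grad v x) (hess2 v x) * volDen g x)
        rwa [one_mul] at h1
    refine le_of_tendsto' hlim fun k => ?_
    have hχ : BumpOn t₀ t₁ (fun s => ψ s * cut Cr k s) :=
      ⟨hψ1.mul (cut_smooth Cr k), fun s => mul_nonneg (hD.nonneg s) (cut_nonneg Cr k s),
        (tsupport_mul_subset_left (f := ψ) (g := cut Cr k)).trans hD.supp⟩
    have h1 := hLSGT T U g h a' b' s₀ s₁ t₀ t₁ cl W v Cn z₁ K ψ (fun s => ψ s * cut Cr k s) hD hχ
      hfin (by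
        intro x hx hx0
        rw [notMem_tsupport_iff_eventuallyEq]
        have h2 : v x ∈ Cr := by
          rw [hCr, Set.Finite.mem_toFinset]
          exact ⟨x, ⟨hx, hx0⟩, rfl⟩
        filter_upwards [cut_zero Cr k h2] with s hs
        rw [hs, mul_zero]
        rfl)
    have h2 : ∫ s, ψ s * cut Cr k s ≤ ∫ s, ψ s := by
      refine integral_mono_of_nonneg ?_ hψi ?_
      · filter_upwards with s
        exact mul_nonneg (hD.nonneg s) (cut_nonneg Cr k s)
      · filter_upwards with s
        exact mul_le_of_le_one_right (hD.nonneg s) (cut_le_one Cr k s)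
    have h2' : ∫ s in Set.Iic cl, ψ s * cut Cr k s ≤ ∫ s in Set.Iic cl, ψ s := by
      refine integral_mono_of_nonneg ?_ hψi.integrableOn ?_
      · filter_upwards with s
        exact mul_nonneg (hD.nonneg s) (cut_nonneg Cr k s)
      · filter_upwards with s
        exact mul_le_of_le_one_right (hD.nonneg s) (cut_le_one Cr k s)
    have h3 : ∫ x in S, cut Cr k (v x) *
        (ψ (v x) * Kd g x (grad v x) (hess2 v x) * volDen g x) =
        ∫ x in S, (ψ (v x) * cut Cr k (v x)) * Kd g x (grad v x) (hess2 v x) * volDen g x := by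
      refine integral_congr_ae ?_
      filter_upwards with x
      ring
    rw [h3]
    refine h1.trans ?_
    have hpi : (0 : ℝ) ≤ 4 * Real.pi := by positivity
    exact add_le_add (mul_le_mul_of_nonneg_left h2 hpi)
      (mul_le_mul_of_nonneg_left h2' (mul_nonneg hpi hT0))
  -- the term with the residual
  have hq : ∫ x in S, ψ (v x) * (resid ε g h x (grad v x) (hess2 v x) *
      zed ε g h x (grad v x) (hess2 v x) / ε) * volDen g x ≤
      θ * (∫ x in S, ψ (v x) * (len g x (grad v x) * dis0 ε g h x (grad v x) (hess2 v x))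
          * volDen g x)
        + B * (c ^ 2 / (θ * ε ^ 2)) *
          ∫ x in K, resid ε g h x (grad v x) (hess2 v x) ^ 2 / vn (grad v x) := by
    have h1 := (integral_mono_ae hqi ((hdi.const_mul θ).add
      (hri.const_mul (B * (c ^ 2 / (θ * ε ^ 2)))))
        (hqb.mono fun x hx => (le_abs_self _).trans hx)).trans_eq
          (int2 θ (B * (c ^ 2 / (θ * ε ^ 2))) hdi hri)
    have h2 : ∫ x in S, resid ε g h x (grad v x) (hess2 v x) ^ 2 / vn (grad v x) ≤
        ∫ x in K, resid ε g h x (grad v x) (hess2 v x) ^ 2 / vn (grad v x) := by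
      refine setIntegral_mono_set hres ?_ hSK.eventuallyLE
      filter_upwards with x
      exact div_nonneg (sq_nonneg _) (vn_nonneg _)
    have h3 := mul_le_mul_of_nonneg_left h2 (by positivity : 0 ≤ B * (c ^ 2 / (θ * ε ^ 2)))
    linarith
  -- the filled part
  have hbK : badsetT W s₀ s₁ T z₁ ψ ⊆ K := fun x hx =>
    hD.levels x (Set.Ioo_subset_Icc_self (hD.supp hx.1))
  have hbad : ∫ x in badsetT W s₀ s₁ T z₁ ψ,
      (resid ε g h x (grad v x) (hess2 v x) ^ 2 / vn (grad v x)
          + (1 + vsq (grad v x)) * vn (grad v x)) ≤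
      (∫ x in K, resid ε g h x (grad v x) (hess2 v x) ^ 2 / vn (grad v x))
        + ∫ x in badsetT W s₀ s₁ T z₁ ψ, (1 + vsq (grad v x)) * vn (grad v x) := by
    rw [integral_add (hres.mono_set hbK) ((int_vol hpm hzz).mono_measure
      (Measure.restrict_mono hbK le_rfl))]
    refine add_le_add_left ?_ _
    refine setIntegral_mono_set hres ?_ hbK.eventuallyLE
    filter_upwards with x
    exact div_nonneg (sq_nonneg _) (vn_nonneg _)
  have hbad2 := mul_le_mul_of_nonneg_left hbad (mul_nonneg hC₀ hB0)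
  have hvb0 : 0 ≤ ∫ x in badsetT W s₀ s₁ T z₁ ψ, (1 + vsq (grad v x)) * vn (grad v x) := by
    refine integral_nonneg fun x => ?_
    exact mul_nonneg (by have := vsq_nonneg (grad v x); linarith) (vn_nonneg _)
  have hvb1 : 0 ≤ c ^ 2 / (θ * ε ^ 2) * B *
      ∫ x in badsetT W s₀ s₁ T z₁ ψ, (1 + vsq (grad v x)) * vn (grad v x) := by positivity
  rw [hκint] at hGB
  linarith

end Pool.Agent.PFU
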