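import Pool.Agent.PFU.StmtsM

/-!
# Passage to the limit in the level set inequality, several inner balls
-/

open MeasureTheory Filter Topology
open scoped ContDiff

namespace Pool.Agent.PFU

open Pool.Agent.PenroseSph Pool.Agent.PFlow Pool.Agent.PFT

open Pool.Agent.PFlow.MMIT in
/-- **MITT.** The limit inequality for fixed `θ`. -/
theorem t_MITT (hLST : Stmt_LST) (hFAT : Stmt_FAT) : Stmt_MITT := by
  intro ε θ a b T g h w G M ψ a' b' s₀ s₁ t₀ t₁ c z₁ K K' v W Cn hε hε1 hθ hθ1 hg hh hH hEq _ hS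
  have hU : IsOpen (AnnT T a b) := (hS.ls 0).openU
  have hK : IsCompact K := (hS.ls 0).compact
  have hKU : K ⊆ AnnT T a b := (hS.ls 0).sub
  have hK' : IsCompact K' := hS.compact'
  obtain ⟨C₀, hC₀, hls⟩ := hLST ε θ (AnnT T a b) g h K hε hε1 hθ hθ1 hU hg hh hK hKU
  obtain ⟨cc, hc1, hcx⟩ := Pool.Agent.PFlow.AllM.pCT (AnnT T a b) g h hU hg hh K hK hKU
  have hcs : ∀ x ∈ K, Cs cc g h x := by
    intro x hx
    obtain ⟨e1, _, _, e4, e5, e6, e7, _, e9, _, _⟩ := hcx x hx
    exact ⟨hc1, fun p => (e1 p).1, fun p => (e1 p).2, e4, e5, e6, e7, e9⟩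
  have hvol : ∀ x ∈ K, |volDen g x| ≤ cc := by
    intro x hx
    obtain ⟨_, _, _, _, _, _, _, _, _, e10, e11⟩ := hcx x hx
    rw [abs_of_nonneg ((by positivity : (0 : ℝ) ≤ 1 / cc).trans e10)]
    exact e11
  have hvolpos : ∀ x ∈ K, 0 < volDen g x := fun x hx => MCF.volDen_pos hg (hKU hx)
  have hc0 : 0 ≤ cc := zero_le_one.trans hc1
  obtain ⟨cv1, cv2, cv3⟩ := Pool.Agent.PFlow.AllM.pCV ε (AnnT T a b) g h w G M K v hε hε1 hU hg hh hH hEq hK hKU
    (fun n => (hS.ls n).smooth) hS.conv1 hS.conv2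
  -- the test function
  have hψ1 : ContDiff ℝ 1 ψ := (hS.ls 0).diff
  have hψc : Continuous ψ := hψ1.continuous
  have hψd : Continuous (deriv ψ) := hψ1.continuous_deriv (le_refl _)
  have hψs : HasCompactSupport ψ := by
    refine IsCompact.of_isClosed_subset (isCompact_Icc (a := t₀) (b := t₁))
      (isClosed_tsupport ψ) ?_
    exact (hS.ls 0).supp.trans Set.Ioo_subset_Icc_self
  have hψn : ∀ s, 0 ≤ ψ s := (hS.ls 0).nonneg
  obtain ⟨B, hB⟩ := hψc.bounded_above_of_compact_support hψs
  obtain ⟨B', hB'⟩ := hψd.bounded_above_of_compact_support hψs.deriv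
  have hB0 : 0 ≤ B := (norm_nonneg _).trans (hB 0)
  have hψle : ∀ s, ψ s ≤ B := fun s => (le_abs_self _).trans (hB s)
  -- the good sets
  have hGc : ∀ n, IsClosed (goodT (W n) s₀ s₁ T z₁) := by
    intro n
    obtain ⟨h1, h2, _⟩ := hFAT T a' b' s₀ s₁ (W n) (Cn n) z₁ (hS.ls n).trunc (hS.ls n).lip
      (hS.ls n).far
    exact (isClosed_eq h1.continuous (hS.ls n).lip.continuous).inter
      (isClosed_eq h2.continuous h1.continuous)
  have hGm : ∀ n, MeasurableSet (goodT (W n) s₀ s₁ T z₁) := fun n => (hGc n).measurableSet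
  -- measurability and integrability
  have hfin : IsFiniteMeasure (volume.restrict K) :=
    ⟨by rw [Measure.restrict_apply_univ]; exact hK.measure_lt_top⟩
  have hcf : MCF.Coef (volume.restrict K) g h := MCF.coef hU hg hh hK hKU
  have hmem : ∀ᵐ x ∂(volume.restrict K), x ∈ K := ae_restrict_mem hK.measurableSet
  have hcae : ∀ᵐ x ∂(volume.restrict K), Cs cc g h x := hmem.mono hcs
  have hGme : ∀ i, AEMeasurable (fun x => G x i) (volume.restrict K) := fun i =>
    (hH.memG K hK hKU i).aestronglyMeasurable.aemeasurable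
  have hMme : ∀ i j, AEMeasurable (fun x => M x i j) (volume.restrict K) := fun i j =>
    (hH.memM K hK hKU i j).aestronglyMeasurable.aemeasurable
  have hzz : Integrable (fun x => zz (G x) (M x)) (volume.restrict K) :=
    int_zz (hH.memG K hK hKU) (hH.memM K hK hKU)
  have hpc : ∀ n i, Continuous (fun x => grad (v n) x i) := fun n i =>
    (pd_cont (hS.ls n).smooth i).continuous
  have hhc : ∀ n i j, Continuous (fun x => hess2 (v n) x i j) := fun n i j =>
    (pd_cont (pd_cont (hS.ls n).smooth j) i).continuous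
  have hpm : ∀ n i, AEMeasurable (fun x => grad (v n) x i) (volume.restrict K) := fun n i =>
    (hpc n i).measurable.aemeasurable
  have hhm : ∀ n i j, AEMeasurable (fun x => hess2 (v n) x i j) (volume.restrict K) :=
    fun n i j => (hhc n i j).measurable.aemeasurable
  have hznn : ∀ n, Integrable (fun x => zz (grad (v n) x) (hess2 (v n) x))
      (volume.restrict K) := by
    intro n
    have h1 : Continuous (fun x => zz (grad (v n) x) (hess2 (v n) x)) := by
      unfold zz vsq msq
      refine (continuous_const.add ((continuous_finsetSum _ fun i _ => (hpc n i).pow 2).pow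
        2)).add (continuous_finsetSum _ fun i _ => continuous_finsetSum _ fun j _ =>
          (hhc n i j).pow 2)
    exact h1.continuousOn.integrableOn_compact hK
  -- the subsequence
  have hvsqi : IntegrableOn (fun x => vsq (G x)) K := by
    refine hzz.mono' (MCF.m_sum _ fun i => (hGme i).pow_const 2).aestronglyMeasurable ?_
    filter_upwards with x
    rw [Real.norm_eq_abs, abs_of_nonneg (vsq_nonneg _), ← vn_sq]
    exact (pow_le_zz (G x) (M x)).2.1
  obtain ⟨ns, hns, hae⟩ := exists_seq (κ := Fin 3 ⊕ (Fin 3 × Fin 3) ⊕ Unit)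
    (μ := volume.restrict K)
    (f := fun k n x => match k with
      | Sum.inl i => pd i (v n) x
      | Sum.inr (Sum.inl ij) => pd ij.1 (pd ij.2 (v n)) x
      | Sum.inr (Sum.inr _) =>
        (K' \ goodT (W n) s₀ s₁ T z₁).indicator (fun x => vsq (G x)) x)
    (g := fun k x => match k with
      | Sum.inl i => G x i
      | Sum.inr (Sum.inl ij) => M x ij.1 ij.2
      | Sum.inr (Sum.inr _) => 0) (by
      rintro (i | ij | u)
      · refine tendstoInMeasure_of_tendsto_eLpNorm (p := 4) (by norm_num)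
          (fun n => (hpm n i).aestronglyMeasurable) (hGme i).aestronglyMeasurable ?_
        exact hS.conv1 i
      · refine tendstoInMeasure_of_tendsto_eLpNorm (p := 2) (by norm_num)
          (fun n => (hhm n ij.1 ij.2).aestronglyMeasurable)
          (hMme ij.1 ij.2).aestronglyMeasurable ?_
        exact hS.conv2 ij.1 ij.2
      · have hm : ∀ n, MeasurableSet (K' \ goodT (W n) s₀ s₁ T z₁) := fun n =>
          hK'.measurableSet.diff (hGm n)
        have hi : ∀ n, Integrable
            ((K' \ goodT (W n) s₀ s₁ T z₁).indicator (fun x => vsq (G x)))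
            (volume.restrict K) := fun n => hvsqi.indicator (hm n)
        refine tendstoInMeasure_of_tendsto_eLpNorm (p := 1) (by norm_num)
          (fun n => (hi n).aestronglyMeasurable) aestronglyMeasurable_const ?_
        have h1 : ∀ n, eLpNorm ((fun x => (K' \ goodT (W n) s₀ s₁ T z₁).indicator
            (fun x => vsq (G x)) x) - fun _ => (0 : ℝ)) 1 (volume.restrict K) =
            ENNReal.ofReal (∫ x in K' \ goodT (W n) s₀ s₁ T z₁, vsq (G x)) := by
          intro n
          have h2 : ((fun x => (K' \ goodT (W n) s₀ s₁ T z₁).indicator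
              (fun x => vsq (G x)) x) - fun _ => (0 : ℝ)) =
              (K' \ goodT (W n) s₀ s₁ T z₁).indicator (fun x => vsq (G x)) := by
            funext x
            simp
          rw [h2, eLpNorm_one_eq_lintegral_enorm,
            ← ofReal_integral_norm_eq_lintegral_enorm (hi n)]
          congr 1
          have h3 : ∀ x, ‖(K' \ goodT (W n) s₀ s₁ T z₁).indicator (fun x => vsq (G x)) x‖ =
              (K' \ goodT (W n) s₀ s₁ T z₁).indicator (fun x => vsq (G x)) x := by
            intro x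
            rw [Real.norm_eq_abs, abs_of_nonneg]
            exact Set.indicator_nonneg (fun _ _ => vsq_nonneg _) x
          simp only [h3]
          rw [setIntegral_indicator (hm n)]
          congr 2
          exact Set.inter_eq_right.mpr (Set.sdiff_subset.trans hS.sub)
        have h4 := (ENNReal.tendsto_ofReal hS.bad)
        rw [ENNReal.ofReal_zero] at h4
        exact h4.congr fun n => (h1 n).symm) Finset.univ
  have hnst : Tendsto ns atTop atTop := hns.tendsto_atTop
  have hpt : ∀ᵐ x ∂(volume.restrict K),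
      (∀ i, Tendsto (fun n => grad (v (ns n)) x i) atTop (𝓝 (G x i))) ∧
      (∀ i j, Tendsto (fun n => hess2 (v (ns n)) x i j) atTop (𝓝 (M x i j))) ∧
      (G x = 0 ∨ (x ∈ K' → ∀ᶠ n in atTop, x ∈ goodT (W (ns n)) s₀ s₁ T z₁)) := by
    have h1 : ∀ i, ∀ᵐ x ∂(volume.restrict K), Tendsto (fun n => grad (v (ns n)) x i) atTop
        (𝓝 (G x i)) := fun i => hae (Sum.inl i) (Finset.mem_univ _)
    have h2 : ∀ i j, ∀ᵐ x ∂(volume.restrict K), Tendsto (fun n => hess2 (v (ns n)) x i j) atTop
        (𝓝 (M x i j)) := fun i j => hae (Sum.inr (Sum.inl (i, j))) (Finset.mem_univ _)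
    have h3 := hae (Sum.inr (Sum.inr ())) (Finset.mem_univ _)
    have h1' := ae_all_iff.mpr h1
    have h2' := ae_all_iff.mpr fun i => ae_all_iff.mpr (h2 i)
    filter_upwards [h1', h2', h3] with x e1 e2 e3
    refine ⟨e1, e2, ?_⟩
    by_cases hG0 : G x = 0
    · exact Or.inl hG0
    · refine Or.inr fun hxK' => ?_
      have h4 := (tendsto_order.mp e3).2 (vsq (G x)) (vsq_pos hG0)
      filter_upwards [h4] with n hn
      by_contra hx
      have h5 : x ∈ K' \ goodT (W (ns n)) s₀ s₁ T z₁ := ⟨hxK', hx⟩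
      change (K' \ goodT (W (ns n)) s₀ s₁ T z₁).indicator (fun x => vsq (G x)) x < _ at hn
      rw [Set.indicator_of_mem h5] at hn
      exact lt_irrefl _ hn
  have hvw : ∀ x ∈ K, Tendsto (fun n => v (ns n) x) atTop (𝓝 (w x)) := fun x hx =>
    (hS.unif.tendsto_at hx).comp hnst
  have hvc : ∀ n, Continuous (v (ns n)) := fun n => (hS.ls (ns n)).smooth.continuous
  have hlevel : ∀ x ∈ K, ψ (w x) = 0 ∨ x ∈ K' := by
    intro x hx
    by_cases h1 : ψ (w x) = 0
    · exact Or.inl h1
    · exact Or.inr (hS.levels x (hKU hx) (subset_tsupport ψ h1))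
  have hleveld : ∀ x ∈ K, deriv ψ (w x) = 0 ∨ x ∈ K' := by
    intro x hx
    by_cases h1 : deriv ψ (w x) = 0
    · exact Or.inl h1
    · exact Or.inr (hS.levels x (hKU hx) (support_deriv_subset h1))
  have hev : ∀ {A₀ : E3 → ℝ} {φ : ℝ → ℝ}, (∀ x, G x = 0 → A₀ x = 0) →
      (∀ x ∈ K, φ (w x) = 0 ∨ x ∈ K') → ∀ᵐ x ∂(volume.restrict K),
      A₀ x = 0 ∨ φ (w x) = 0 ∨ ∀ᶠ n in atTop, x ∈ goodT (W (ns n)) s₀ s₁ T z₁ := by
    intro A₀ φ hA hφ
    filter_upwards [hpt, hmem] with x hx hxK
    rcases hx.2.2 with h1 | h1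
    · exact Or.inl (hA x h1)
    · rcases hφ x hxK with h2 | h2
      · exact Or.inr (Or.inl h2)
      · exact Or.inr (Or.inr (h1 h2))
  have hF0 : ∀ x, G x = 0 → flux ε g h x (G x) (M x) = 0 := by
    intro x hx
    rw [hx, flux_zero]
  have hE0 : ∀ x, G x = 0 → len g x (G x) * (matter g h x (G x) + diss ε g h x (G x) (M x)
      - dis0 ε g h x (G x) (M x)) = 0 := by
    intro x hx
    rw [hx, len_zero, zero_mul]
  have hD0 : ∀ x, G x = 0 → (1 + vsq (G x)) * vn (G x) = 0 := by
    intro x hx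
    rw [hx, vn_zero, mul_zero]
  have hFi := int_flux hcf hcae hε hε1 hGme hMme hzz
  have hFni := fun n => int_flux hcf hcae hε hε1 (hpm n) (hhm n) (hznn n)
  have hEi := int_mat hcf hcae hε hε1 hGme hMme hzz
  have hEni := fun n => int_mat hcf hcae hε hε1 (hpm n) (hhm n) (hznn n)
  have hDi := int_vol (M := M) hGme hzz
  have hDni := fun n => int_vol (M := fun x => hess2 (v n) x) (hpm n) (hznn n)
  -- the four continuous terms
  have T1 := lim_term hK hψd hB' hvc hvw (fun n => hFni (ns n)) hFi (cv1.comp hnst) hcf.vol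
    hvol hc0 (fun n => hGm (ns n)) (hev hF0 hleveld)
  have T2 := lim_term hK hψc hB hvc hvw (fun n => hFni (ns n)) hFi (cv1.comp hnst) hcf.vol
    hvol hc0 (fun n => hGm (ns n)) (hev hF0 hlevel)
  have T3 := lim_term hK hψc hB hvc hvw (fun n => hEni (ns n)) hEi (cv2.comp hnst) hcf.vol
    hvol hc0 (fun n => hGm (ns n)) (hev hE0 hlevel)
  -- the bad sets
  have hres : volume.restrict K' ≤ volume.restrict K := Measure.restrict_mono hS.sub le_rfl
  have hAA' : Tendsto (fun n => ∫ x in K', |(1 + vsq (grad (v (ns n)) x)) *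
      vn (grad (v (ns n)) x) - (1 + vsq (G x)) * vn (G x)|) atTop (𝓝 0) := by
    refine squeeze_zero (fun n => integral_nonneg fun x => abs_nonneg _) (fun n => ?_)
      (cv3.comp hnst)
    exact setIntegral_mono_set ((hDni (ns n)).sub hDi).abs
      (Eventually.of_forall fun x => abs_nonneg _) (hS.sub.eventuallyLE)
  have hvw' : ∀ x ∈ K', Tendsto (fun n => v (ns n) x) atTop (𝓝 (w x)) := fun x hx =>
    hvw x (hS.sub hx)
  have T4 := lim_term (φ := fun _ => 1) (B := 1) (om := fun _ => 1) (C := 1) hK'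
    continuous_const (fun _ => by rw [abs_one]) hvc hvw'
    (fun n => IntegrableOn.mono_set (hDni (ns n)) hS.sub) (IntegrableOn.mono_set hDi hS.sub)
    hAA' aemeasurable_const (fun _ _ => by rw [abs_one]) zero_le_one (fun n => hGm (ns n)) (by
      have h1 : ∀ᵐ x ∂(volume.restrict K'), x ∈ K' := ae_restrict_mem hK'.measurableSet
      filter_upwards [(Measure.absolutelyContinuous_of_le hres).ae_le hpt, h1] with x hx hxK
      rcases hx.2.2 with h2 | h2
      · exact Or.inl (hD0 x h2)
      · exact Or.inr (Or.inr (h2 hxK)))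
  have T5 := lim_term (φ := fun _ => 1) (B := 1) (om := fun _ => 1) (C := 1)
    (Gd := fun _ => Set.univ) hK'
    continuous_const (fun _ => by rw [abs_one]) hvc hvw'
    (fun n => IntegrableOn.mono_set (hDni (ns n)) hS.sub) (IntegrableOn.mono_set hDi hS.sub)
    hAA' aemeasurable_const (fun _ _ => by rw [abs_one]) zero_le_one
    (fun _ => MeasurableSet.univ) (Eventually.of_forall fun x =>
      Or.inr (Or.inr (Eventually.of_forall fun _ => Set.mem_univ _)))
  simp only [one_mul, mul_one, Set.inter_univ] at T4 T5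
  have T6 : Tendsto (fun n => ∫ x in K' \ goodT (W (ns n)) s₀ s₁ T z₁,
      (1 + vsq (grad (v (ns n)) x)) * vn (grad (v (ns n)) x)) atTop (𝓝 0) := by
    have h1 := T5.sub T4
    rw [sub_self] at h1
    refine h1.congr fun n => ?_
    have h2 := integral_inter_add_sdiff (s := K') (hGm (ns n))
      (IntegrableOn.mono_set (hDni (ns n)) hS.sub)
    linarith
  have hbad : ∀ n, ∫ x in badsetT (W (ns n)) s₀ s₁ T z₁ ψ,
      (1 + vsq (grad (v (ns n)) x)) * vn (grad (v (ns n)) x) ≤
      ∫ x in K' \ goodT (W (ns n)) s₀ s₁ T z₁,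
      (1 + vsq (grad (v (ns n)) x)) * vn (grad (v (ns n)) x) := by
    intro n
    refine setIntegral_mono_set ((IntegrableOn.mono_set (hDni (ns n))
      (Set.sdiff_subset.trans hS.sub))) (Eventually.of_forall fun x => ?_)
      (LE.le.eventuallyLE ?_)
    · exact mul_nonneg (by have := vsq_nonneg (grad (v (ns n)) x); linarith) (vn_nonneg _)
    · rintro x ⟨hx1, hx2⟩
      have h3 := (hS.ls (ns n)).levels x
        (Set.Ioo_subset_Icc_self ((hS.ls (ns n)).supp hx1))
      exact ⟨hS.levelsn (ns n) x h3 hx1, hx2⟩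
  -- the Fatou term
  have hθ' : 0 < 1 - θ := by linarith
  have hsymm : ∀ᵐ x ∂(volume.restrict K), (M x).IsSymm :=
    (Measure.absolutelyContinuous_of_le (Measure.restrict_mono hKU le_rfl)).ae_le hH.symm
  have hd0 : ∀ x ∈ K, ∀ (p : Cov) (N : Bil), N.IsSymm → 0 ≤ len g x p * dis0 ε g h x p N := by
    intro x hx p N hN
    by_cases hp : p = 0
    · rw [hp, len_zero, zero_mul]
    · have h1 := Pool.Agent.PFlow.AllM.pPOS (AnnT T a b) g h hU hg hh x (hKU hx) ε p N hε hε1 hp hN
      have h2 : 0 ≤ (1 / ε - 1 / 4) * zed ε g h x p N ^ 2 := by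
        have h3 : (1 : ℝ) ≤ 1 / ε := by rw [le_div_iff₀ hε]; linarith
        exact mul_nonneg (by linarith) (sq_nonneg _)
      exact mul_nonneg (Real.sqrt_nonneg _) (h2.trans h1)
  have hY : Tendsto (fun n => ((4 * Real.pi * (∫ s, ψ s)
        + 4 * Real.pi * (T.card - 1) * (∫ s in Set.Iic c, ψ s))
      - 1 / (2 - ε) * (∫ x in K ∩ goodT (W (ns n)) s₀ s₁ T z₁,
        ψ (v (ns n) x) * flux ε g h x (grad (v (ns n)) x) (hess2 (v (ns n)) x) * volDen g x)
      - (∫ x in K ∩ goodT (W (ns n)) s₀ s₁ T z₁, ψ (v (ns n) x) * (len g x (grad (v (ns n)) x)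
          * (matter g h x (grad (v (ns n)) x)
            + diss ε g h x (grad (v (ns n)) x) (hess2 (v (ns n)) x)
            - dis0 ε g h x (grad (v (ns n)) x) (hess2 (v (ns n)) x))) * volDen g x)
      + C₀ * B * ((∫ x in K, resid ε g h x (grad (v (ns n)) x) (hess2 (v (ns n)) x) ^ 2
          / vn (grad (v (ns n)) x))
        + ∫ x in K' \ goodT (W (ns n)) s₀ s₁ T z₁,
          (1 + vsq (grad (v (ns n)) x)) * vn (grad (v (ns n)) x))
      + ∫ x in K ∩ goodT (W (ns n)) s₀ s₁ T z₁, deriv ψ (v (ns n) x)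
        * flux ε g h x (grad (v (ns n)) x) (hess2 (v (ns n)) x) * volDen g x) / (1 - θ)) atTop
      (𝓝 (((4 * Real.pi * (∫ s, ψ s)
        + 4 * Real.pi * (T.card - 1) * (∫ s in Set.Iic c, ψ s))
      - 1 / (2 - ε) * (∫ x in K, ψ (w x) * flux ε g h x (G x) (M x) * volDen g x)
      - (∫ x in K, ψ (w x) * (len g x (G x) * (matter g h x (G x)
            + diss ε g h x (G x) (M x) - dis0 ε g h x (G x) (M x))) * volDen g x)
      + C₀ * B * (0 + 0)
      + ∫ x in K, deriv ψ (w x) * flux ε g h x (G x) (M x) * volDen g x) / (1 - θ))) :=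
    ((((tendsto_const_nhds.sub (T2.const_mul _)).sub T3).add
      (((hS.conv3.comp hnst).add T6).const_mul _)).add T1).div_const _
  have hQm : ∀ n, AEMeasurable (fun x => ψ (v (ns n) x) * (len g x (grad (v (ns n)) x)
      * dis0 ε g h x (grad (v (ns n)) x) (hess2 (v (ns n)) x)) * volDen g x)
      (volume.restrict K) := fun n =>
    (((hψc.comp (hvc n)).measurable.aemeasurable).mul ((MCF.m_len hcf (hpm (ns n))).mul
      (MCF.m_dis0 hcf ε (hpm (ns n)) (hhm (ns n))))).mul hcf.vol
  have hwm : AEMeasurable w (volume.restrict K) :=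
    ((hH.cont.mono hKU).aestronglyMeasurable hK.measurableSet).aemeasurable
  have hQ₀m : AEMeasurable (fun x => ψ (w x) * (len g x (G x) * dis0 ε g h x (G x) (M x))
      * volDen g x) (volume.restrict K) :=
    ((hψc.measurable.comp_aemeasurable hwm).mul ((MCF.m_len hcf hGme).mul
      (MCF.m_dis0 hcf ε hGme hMme))).mul hcf.vol
  have hfat := fatou (fun n => hGm (ns n)) hK.measurableSet hQm hQ₀m
    (fun n => (hls T a' b' s₀ s₁ t₀ t₁ c (W (ns n)) (v (ns n)) (Cn (ns n)) z₁ ψ B (hS.ls (ns n))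
      hψle (hS.crit (ns n)) (hS.int (ns n))).1)
    (fun n x hx => mul_nonneg (mul_nonneg (hψn _)
      (hd0 x hx _ _ (hess_symm (hS.ls (ns n)).smooth x))) (hvolpos x hx).le)
    (by
      filter_upwards [hmem, hsymm] with x hx hs
      exact mul_nonneg (mul_nonneg (hψn _) (hd0 x hx _ _ hs)) (hvolpos x hx).le)
    (by
      filter_upwards [hmem, hpt] with x hx hxp
      by_cases hG0 : G x = 0
      · left
        rw [hG0, len_zero]
        ring
      · rcases hlevel x hx with h1 | h1
        · left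
          rw [h1]
          ring
        · right
          have h2 : len g x (G x) ≠ 0 := (len_pos' (hcs x hx) hG0).ne'
          refine ⟨?_, (hxp.2.2.resolve_left hG0) h1⟩
          exact ((((hψc.tendsto _).comp (hvw x hx))).mul ((MCF.t_len hxp.1).mul
            (MCF.t_dis0 ε hxp.1 h2 hxp.2.1))).mul_const _)
    (by
      intro n
      have h1 := (hls T a' b' s₀ s₁ t₀ t₁ c (W (ns n)) (v (ns n)) (Cn (ns n)) z₁ ψ B
        (hS.ls (ns n)) hψle (hS.crit (ns n)) (hS.int (ns n))).2
      have h2 := mul_le_mul_of_nonneg_left (hbad n) (mul_nonneg hC₀ hB0)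
      rw [le_div_iff₀ hθ']
      linarith) hY
  rw [le_div_iff₀ hθ'] at hfat
  linarith

end Pool.Agent.PFU
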