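import Pool.Agent.PFU.StmtsM
import Pool.Agent.PFlow.M_MI

/-!
# T2_MIU: the level set inequality with several inner balls

Adaptation of `Pool/Agent/PFlow/M_MI.lean`.
-/

open MeasureTheory Filter Topology
open scoped ContDiff ENNReal

namespace Pool.Agent.PFU

open Pool.Agent.PenroseSph Pool.Agent.PFlow Pool.Agent.PFT

namespace MIU

lemma isOpen_AnnT (T : Finset E3) (a b : ℝ) : IsOpen (AnnT T a b) := by
  have h1 : IsOpen {x : E3 | ‖x‖ < b} := isOpen_lt continuous_norm continuous_const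
  have h2 : IsOpen {x : E3 | ∀ p ∈ T, a < ‖x - p‖} := by
    have h3 : {x : E3 | ∀ p ∈ T, a < ‖x - p‖} = ⋂ p ∈ T, {x : E3 | a < ‖x - p‖} := by
      ext x
      simp only [Set.mem_setOf_eq, Set.mem_iInter]
    rw [h3]
    exact isOpen_biInter_finset fun p _ =>
      isOpen_lt continuous_const (continuous_id.sub continuous_const).norm
  exact h1.inter h2

lemma measurableSet_AnnT (T : Finset E3) (a b : ℝ) : MeasurableSet (AnnT T a b) :=
  (isOpen_AnnT T a b).measurableSet

/-- An integral over the region whose integrand vanishes off `K`. -/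
lemma setIntegral_eq {T : Finset E3} {a b : ℝ} {K : Set E3} (hK : K ⊆ AnnT T a b) (F : E3 → ℝ)
    (hF : ∀ x ∈ AnnT T a b, x ∉ K → F x = 0) :
    ∫ x in AnnT T a b, F x = ∫ x in K, F x := by
  refine setIntegral_eq_of_subset_of_forall_sdiff_eq_zero (measurableSet_AnnT T a b) hK ?_
  intro x hx
  exact hF x hx.1 hx.2

end MIU

open MIU in
theorem t_MIU (hSEQT : Stmt_SEQT) (hMITT : Stmt_MITT) : Stmt_MIU := by
  intro ε a b s₀ s₁ c T g h w G M hε0 hε1 hP hs hsc hg hh hw heq hNI hSep hTC ψ hψ hψc hψs hψ0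
  have hU := isOpen_AnnT T a b
  have hws : H2s (AnnT T a b) w G M := AllM.pL4 _ w G M hU hw
  have hapb := AllM.pAPB ε (AnnT T a b) g h w G M hε0 hε1 hU hg hh hws heq
  obtain ⟨a', b', σ₀, σ₁, t₀, t₁, z₁, K, K', v, W, C, hS⟩ :=
    hSEQT ε a b s₀ s₁ c T g h w G M hε0 hε1 hP hs hsc hg hh hws heq hNI hSep hTC hapb
      ψ hψ hψc hψs hψ0
  have hKA : K ⊆ AnnT T a b := (hS.ls 0).sub
  have hKc : IsCompact K := (hS.ls 0).compact
  have hz : ∀ x ∈ AnnT T a b, x ∉ K → w x ∉ tsupport ψ := by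
    intro x hx hxK hxs
    exact hxK (hS.sub (hS.levels x hx hxs))
  have hz0 : ∀ x ∈ AnnT T a b, x ∉ K → ψ (w x) = 0 := fun x hx hxK =>
    image_eq_zero_of_notMem_tsupport (hz x hx hxK)
  have hz1 : ∀ x ∈ AnnT T a b, x ∉ K → deriv ψ (w x) = 0 := by
    intro x hx hxK
    have h1 : w x ∉ tsupport ψ := hz x hx hxK
    have h2 : ψ =ᶠ[𝓝 (w x)] 0 := notMem_tsupport_iff_eventuallyEq.mp h1
    rw [h2.deriv_eq]
    simp
  obtain ⟨-, -, -, -, -, hI6, hI7, -, hI9⟩ :=
    AllM.pINT ε (AnnT T a b) g h w G M hε0 hε1 hU hg hh hw heq K hKc hKA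
  have hwc : ContinuousOn w K := hw.cont.mono hKA
  have hψw : ContinuousOn (fun x => ψ (w x)) K := hψ.continuous.comp_continuousOn hwc
  have hmul : ∀ F : E3 → ℝ, IntegrableOn F K → IntegrableOn (fun x => ψ (w x) * F x) K := by
    intro F hF
    obtain ⟨B, hB⟩ := hKc.exists_bound_of_continuousOn hψw
    exact Integrable.bdd_mul hF (hψw.aestronglyMeasurable hKc.measurableSet)
      ((ae_restrict_iff' hKc.measurableSet).mpr (Filter.Eventually.of_forall hB))
  have hJ0 : IntegrableOn (fun x => ψ (w x) * (len g x (G x) * dis0 ε g h x (G x) (M x))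
      * volDen g x) K := by
    refine (hmul _ hI9).congr (Filter.Eventually.of_forall fun x => ?_)
    simp only []
    ring
  have hJ1 : IntegrableOn (fun x => ψ (w x) * (len g x (G x) * (matter g h x (G x)
      + diss ε g h x (G x) (M x) - dis0 ε g h x (G x) (M x))) * volDen g x) K := by
    refine (((hmul _ hI7).add (hmul _ hI6)).sub (hmul _ hI9)).congr
      (Filter.Eventually.of_forall fun x => ?_)
    simp only [Pi.add_apply, Pi.sub_apply]
    ring
  have hsum : ∫ x in K, ψ (w x) * (len g x (G x) * (matter g h x (G x)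
        + diss ε g h x (G x) (M x))) * volDen g x
      = (∫ x in K, ψ (w x) * (len g x (G x) * (matter g h x (G x)
        + diss ε g h x (G x) (M x) - dis0 ε g h x (G x) (M x))) * volDen g x)
      + ∫ x in K, ψ (w x) * (len g x (G x) * dis0 ε g h x (G x) (M x)) * volDen g x := by
    rw [← integral_add hJ1 hJ0]
    refine integral_congr_ae (Filter.Eventually.of_forall fun x => ?_)
    simp only []
    ring
  rw [setIntegral_eq hKA _ (fun x hx hxK => by rw [hz1 x hx hxK]; ring),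
    setIntegral_eq hKA _ (fun x hx hxK => by rw [hz0 x hx hxK]; ring),
    setIntegral_eq hKA _ (fun x hx hxK => by rw [hz0 x hx hxK]; ring), hsum]
  set A := ∫ x in K, deriv ψ (w x) * flux ε g h x (G x) (M x) * volDen g x with hA
  set B := ∫ x in K, ψ (w x) * flux ε g h x (G x) (M x) * volDen g x with hB
  set D₁ := ∫ x in K, ψ (w x) * (len g x (G x) * (matter g h x (G x)
        + diss ε g h x (G x) (M x) - dis0 ε g h x (G x) (M x))) * volDen g x with hD₁
  set D₀ := ∫ x in K, ψ (w x) * (len g x (G x) * dis0 ε g h x (G x) (M x)) * volDen g x with hD₀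
  set P := 4 * Real.pi * (∫ s, ψ s)
    + 4 * Real.pi * ((T.card : ℝ) - 1) * (∫ s in Set.Iic c, ψ s) with hP'
  have key : ∀ θ : ℝ, 0 < θ → θ < 1 →
      -A ≤ P - 1 / (2 - ε) * B - D₁ - (1 - θ) * D₀ := by
    intro θ h0 h1
    exact hMITT ε θ a b T g h w G M ψ a' b' σ₀ σ₁ t₀ t₁ c z₁ K K' v W C hε0 hε1 h0 h1 hg hh
      hws heq hapb hS
  have hlim : Tendsto (fun θ : ℝ => P - 1 / (2 - ε) * B - D₁
      - (1 - θ) * D₀) (𝓝[>] 0) (𝓝 (P - 1 / (2 - ε) * B - D₁
      - (1 - 0) * D₀)) := by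
    refine Tendsto.mono_left ?_ nhdsWithin_le_nhds
    exact (continuous_const.sub ((continuous_const.sub continuous_id).mul
      continuous_const)).tendsto 0
  have hle := ge_of_tendsto hlim (by
    filter_upwards [Ioo_mem_nhdsGT (show (0 : ℝ) < 1 by norm_num)] with θ hθ
    exact key θ hθ.1 hθ.2)
  linarith

end Pool.Agent.PFU
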