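import Pool.Agent.PFU.StmtsF
import Pool.Agent.PFlow.E.MODM

/-!
# MODMT: the constant of the modified data may be increased
-/

open MeasureTheory Filter Topology
open scoped ContDiff

namespace Pool.Agent.PFU

open Pool.Agent.PenroseSph Pool.Agent.PFlow Pool.Agent.PFT

namespace MODMTAux

lemma decay_mono {C C' r : ℝ} {g h : TensorField} (hr0 : 0 < r) (hC : C ≤ C')
    (hd : DecayFrom C r g h) : DecayFrom C' r g h := by
  intro x hx i j
  have hr : 0 < ‖x‖ := by linarith
  obtain ⟨h1, h2, h3, h4, h5⟩ := hd x hx i j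
  have hm : ∀ n : ℕ, C / ‖x‖ ^ n ≤ C' / ‖x‖ ^ n := fun n =>
    div_le_div_of_nonneg_right hC (by positivity)
  have hm1 : C / ‖x‖ ≤ C' / ‖x‖ := div_le_div_of_nonneg_right hC hr.le
  exact ⟨h1.trans hm1, fun k => (h2 k).trans (hm 2), fun k l => (h3 k l).trans (hm 3),
    h4.trans (hm 2), fun k => (h5 k).trans (hm 3)⟩

lemma barAt_mono {ε C C' : ℝ} {g h : TensorField} {x : E3} (hC : C ≤ C')
    (hb : BarAt ε C g h x) : BarAt ε C' g h x := by
  unfold BarAt at *
  exact hb.trans (div_le_div_of_nonneg_right hC (by positivity))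

end MODMTAux

theorem t_MODMT : Stmt_MODMT := by
  intro F g h C C' l R g' h' e hF hl hR _ hC hM
  have hR' : 0 < 1 / (8 * R) := by positivity
  have hrad : ∀ x : E3, F.rad ≤ ‖x‖ → 0 < ‖x‖ := fun x hx => by linarith [hF.rad_ge]
  refine { hM with
    barrier := ?_
    decay1 := MODMTAux.decay_mono (by linarith [hF.rad_ge]) hC hM.decay1
    hsmall := ?_
    decay2 := ?_
    hsmall2 := ?_
    elliptic := ?_
    shell := ?_
    trans := ?_
    trans_sup := ?_ }
  · refine ⟨fun ε h1 h2 p hp x hx hx2 => ?_, fun ε h1 h2 x hx => ?_⟩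
    · obtain ⟨h3, h4⟩ := hM.barrier.inn ε h1 h2 p hp x hx hx2
      exact ⟨MODMTAux.barAt_mono hC h3, MODMTAux.barAt_mono hC h4⟩
    · obtain ⟨h3, h4⟩ := hM.barrier.out ε h1 h2 x hx
      exact ⟨MODMTAux.barAt_mono hC h3, MODMTAux.barAt_mono hC h4⟩
  · intro x hx i j
    exact (hM.hsmall x hx i j).trans (div_le_div_of_nonneg_right hC (by positivity))
  · intro p hp
    exact MODMTAux.decay_mono (by have := hF.rho_pos; positivity) hC (hM.decay2 p hp)
  · intro p hp x hx hx1
    exact (hM.hsmall2 p hp x hx hx1).trans (mul_le_mul_of_nonneg_right hC (by positivity))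
  · intro x hx v
    obtain ⟨h1, h2⟩ := hM.elliptic x hx v
    have h3 := EMODM.ev_nonneg (hM.metric.posDef x (Set.mem_univ x)) v
    have h4 : 0 ≤ ∑ i, v i ^ 2 := Finset.sum_nonneg fun i _ => sq_nonneg _
    exact ⟨h1.trans (mul_le_mul_of_nonneg_right hC h3),
      h2.trans (mul_le_mul_of_nonneg_right hC h4)⟩
  · intro x hx hx1
    have h1 := hM.shell x hx hx1
    have h2 : 0 ≤ msz (h x) / l + msz (h x) ^ 2 := by
      have : 0 ≤ msz (h x) := Real.sqrt_nonneg _
      positivity
    have h3 := mul_le_mul_of_nonneg_right hC h2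
    linarith
  · intro x hx hx1
    exact (hM.trans x hx hx1).trans (div_le_div_of_nonneg_right hC (by positivity))
  · intro x hx hx1
    exact (hM.trans_sup x hx hx1).trans (div_le_div_of_nonneg_right hC (by positivity))

end Pool.Agent.PFU
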