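import Pool.Agent.PFU.StmtsD
import Pool.Agent.PFlow.E.MOD

/-!
# MODT: the modified data for the capped data, with constants independent of the depth
-/

open MeasureTheory Filter Topology
open scoped ContDiff ENNReal

namespace Pool.Agent.PFU

open Pool.Agent.PenroseSph Pool.Agent.PFlow Pool.Agent.PFT

namespace MODTAux

lemma decay_mono {C C' r : ℝ} {g h : TensorField} (hr : 0 < r) (hC : C ≤ C')
    (hd : DecayFrom C r g h) : DecayFrom C' r g h := by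
  intro x hx i j
  have hx0 : 0 < ‖x‖ := lt_of_lt_of_le hr hx
  obtain ⟨h1, h2, h3, h4, h5⟩ := hd x hx i j
  have hm : ∀ n : ℕ, C / ‖x‖ ^ n ≤ C' / ‖x‖ ^ n := fun n =>
    div_le_div_of_nonneg_right hC (by positivity)
  have hm1 : C / ‖x‖ ≤ C' / ‖x‖ := div_le_div_of_nonneg_right hC hx0.le
  exact ⟨h1.trans hm1, fun k => (h2 k).trans (hm 2), fun k l => (h3 k l).trans (hm 3),
    h4.trans (hm 2), fun k => (h5 k).trans (hm 3)⟩

lemma bar_mono {C C' ε : ℝ} {g h : TensorField} {x : E3} (hC : C ≤ C')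
    (hd : BarAt ε C g h x) : BarAt ε C' g h x :=
  hd.trans (div_le_div_of_nonneg_right hC (by positivity))

lemma ell_mono {C C' a b : ℝ} (hC0 : 0 < C) (hC : C ≤ C') (ha : 0 ≤ a)
    (h : a ≤ C * b ∧ b ≤ C * a) : a ≤ C' * b ∧ b ≤ C' * a := by
  have hb : 0 ≤ b := by
    have h1 : 0 ≤ C * b := ha.trans h.1
    exact nonneg_of_mul_nonneg_right h1 hC0
  exact ⟨h.1.trans (mul_le_mul_of_nonneg_right hC hb),
    h.2.trans (mul_le_mul_of_nonneg_right hC ha)⟩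

lemma open_away (T : Finset E3) (a : ℝ) : IsOpen {y : E3 | ∀ p ∈ T, a < ‖y - p‖} := by
  have e : {y : E3 | ∀ p ∈ T, a < ‖y - p‖} = ⋂ p ∈ T, {y : E3 | a < ‖y - p‖} := by
    ext y
    simp
  rw [e]
  exact isOpen_biInter_finset fun p _ =>
    isOpen_lt continuous_const (continuous_id.sub continuous_const).norm

end MODTAux

open MODTAux in
/-- **MODTD.** -/
theorem t_MODTD (hPIEC : Stmt_PIEC) (hINNB : Stmt_INNB) (hOUTB : Stmt_OUTB) (hCUTT : Stmt_CUTT)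
    (hHATU : Stmt_HATU) (hEETAD : Stmt_EETAD) : Stmt_MODTD := by
  intro P F g k hTP hF hSE hS hPS hq
  obtain ⟨μ, N₀, gp, kp, g₀, k₀, e₀, hμ, hμ2, hN₀, hqN, hTE, hTE0, hPS0, he₀c, he₀0, he₀s, he₀e,
    hcap⟩ := hPIEC P F g k hTP hF hSE hS hPS hq
  obtain ⟨Co, l₀, hCo, hl₀, hout⟩ :=
    hOUTB F μ g₀ k₀ e₀ hF hμ hμ2 hTE0 hPS0 he₀c he₀0 he₀s he₀e
  have hinn : ∀ p ∈ F.T, ∃ C : ℝ, 0 < C ∧ ∀ q ∈ F.T, ∀ g k : TensorField,
      MetricOn ((F.T : Set E3))ᶜ g → TensorOn ((F.T : Set E3))ᶜ k → PlaneSignP F.T g k →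
      (∀ x : E3, 0 < ‖x‖ → ‖x‖ < F.rho + μ → gp p x = g (x + q) ∧ kp p x = k (x + q)) →
      DecayFrom C (1 / F.rho) (inverted (shift q g)) 0 ∧
      (∀ y : E3, 1 / F.rho ≤ ‖y‖ → ∀ v : Cov,
        (∑ i, v i ^ 2) ≤ C * ev (inverted (shift q g) y) v v ∧
        ev (inverted (shift q g) y) v v ≤ C * ∑ i, v i ^ 2) ∧
      ∀ l R η : ℝ, 8 / F.rho ≤ l → 8 * F.rad ≤ l → 4 * l ≤ R → 0 < η →
        (∀ x : E3, 1 / (8 * R) ≤ ‖x - q‖ → ‖x - q‖ ≤ F.rho →
          nsq (modGT F.T l R g) x (modHT F.T η l R g k x) ≤ C * ‖x - q‖ ^ 4) ∧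
        ∀ ε : ℝ, 0 < ε → ε ≤ 1 → ∀ x : E3, 1 / (8 * R) ≤ ‖x‖ → ‖x‖ ≤ F.rho →
          BarAt ε C (shift q (modGT F.T l R g)) (shift q (modHT F.T η l R g k)) x ∧
          BarAt ε C (shift q (modGT F.T l R g)) 0 x := fun p hp =>
    hINNB F μ (gp p) (kp p) hF hμ hμ2 (hTE p hp).1 (hTE p hp).2
  choose! Cp hCp hpin using hinn
  obtain ⟨C, hCdef⟩ : ∃ C : ℝ, C = Co + ∑ p ∈ F.T, Cp p := ⟨_, rfl⟩
  have hsum : 0 ≤ ∑ p ∈ F.T, Cp p := Finset.sum_nonneg fun p hp => (hCp p hp).le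
  have hCoC : Co ≤ C := by linarith
  have hCpC : ∀ p ∈ F.T, Cp p ≤ C := fun p hp => by
    have h1 : Cp p ≤ ∑ p ∈ F.T, Cp p :=
      Finset.single_le_sum (f := Cp) (fun q hq => (hCp q hq).le) hp
    linarith
  have hC : 0 < C := lt_of_lt_of_le hCo hCoC
  have hρ : 0 < F.rho := hF.rho_pos
  have hρ' : 0 < 1 / F.rho := by positivity
  have hrad : 1 ≤ F.rad := hF.rad_ge
  have hrad0 : 0 < F.rad := by linarith
  refine ⟨C, N₀, max (max l₀ 2) (max (8 / F.rho) (8 * F.rad)), hC, hN₀,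
    (le_max_right _ _).trans (le_max_left _ _), hqN, ?_⟩
  intro C₁ N g₁ k₁ e₁ hN hcapd
  obtain ⟨hgp, hg0⟩ := hcap C₁ N g₁ k₁ e₁ hN hcapd
  have hgM := hcapd.two.metric
  have hkT := hcapd.two.tensor
  have hpl := hcapd.plane
  obtain ⟨hk1, hOF⟩ := hout g₁ k₁ hgM hkT hpl hg0
  have hin := fun p hp => hpin p hp p hp g₁ k₁ hgM hkT hpl (hgp p hp)
  refine ⟨fun x hx i j => (hk1 x hx i j).trans (div_le_div_of_nonneg_right hCoC (by positivity)),
    fun p hp y hy v => ell_mono (hCp p hp) (hCpC p hp) (Finset.sum_nonneg fun i _ => sq_nonneg _)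
      ((hin p hp).2.1 y hy v), ?_⟩
  intro l R η hl hR hη
  have hl1 : l₀ ≤ l := ((le_max_left _ _).trans (le_max_left _ _)).trans hl
  have hl2 : 2 ≤ l := ((le_max_right _ _).trans (le_max_left _ _)).trans hl
  have hl3 : 8 / F.rho ≤ l := ((le_max_left _ _).trans (le_max_right _ _)).trans hl
  have hl4 : 8 * F.rad ≤ l := ((le_max_right _ _).trans (le_max_right _ _)).trans hl
  have hR0 : 0 < R := by linarith
  have hO := hOF l R η hl1 hR hη
  obtain ⟨m1, m2, m3, m4, m5, m6, m7, c1, c2, c3, c4, -⟩ :=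
    hCUTT F.T g₁ k₁ η l R hη (by linarith) hR hgM hkT hpl
  have hopenU : IsOpen ((F.T : Set E3))ᶜ := F.T.finite_toSet.isClosed.isOpen_compl
  obtain ⟨-, -, -, -, hhat⟩ := hHATU ((F.T : Set E3))ᶜ g₁ k₁ η hη hopenU hgM hkT
    (fun x hx => hpl x (by simpa using hx))
  obtain ⟨hEc, -⟩ := hEETAD ((F.T : Set E3))ᶜ g₁ k₁ hopenU hgM hkT
  obtain ⟨hEcη, hE0⟩ := hEc η hη
  have hinner : (1 : ℝ) / (16 * R) < 1 / (8 * R) := by
    apply one_div_lt_one_div_of_lt (by positivity)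
    linarith
  have hpos8 : (0 : ℝ) < 1 / (8 * R) := by positivity
  have hpos16 : (0 : ℝ) < 1 / (16 * R) := by positivity
  refine ⟨m1, m2, m3, m4, m5, m6, ⟨?_, ?_⟩, ?_, ?_, ?_, ?_, ?_, ?_, ?_, ?_, ?_, ?_, ?_, ?_, ?_⟩
  · intro ε hε hε1 p hp x hx hx1
    have h1 := ((hin p hp).2.2 l R η hl3 hl4 hR hη).2 ε hε hε1 x hx hx1
    exact ⟨bar_mono (hCpC p hp) h1.1, bar_mono (hCpC p hp) h1.2⟩
  · intro ε hε hε1 x hx
    have h1 := hO.bar ε hε hε1 x hx
    exact ⟨bar_mono hCoC h1.1, bar_mono hCoC h1.2⟩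
  · exact decay_mono hrad0 hCoC hO.decay1
  · intro x hx i j
    exact (hO.hsmall x hx i j).trans (div_le_div_of_nonneg_right hCoC (by positivity))
  · intro p hp
    exact decay_mono hρ' (hCpC p hp) (hin p hp).1
  · intro p hp x hx hx1
    have h1 := ((hin p hp).2.2 l R η hl3 hl4 hR hη).1 x hx hx1
    exact h1.trans (mul_le_mul_of_nonneg_right (hCpC p hp) (by positivity))
  · intro x hx v
    exact ell_mono hCo hCoC (Finset.sum_nonneg fun i _ => sq_nonneg _) (hO.elliptic x hx v)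
  · -- continuity
    refine hcapd.defect_cont.add ?_
    rw [continuous_iff_continuousAt]
    intro x
    by_cases hx : x ∈ F.T
    · have hopen : IsOpen {y : E3 | ‖y - x‖ < 1 / (16 * R)} :=
        isOpen_lt (continuous_id.sub continuous_const).norm continuous_const
      have h0 : (fun y => chiN F.T (R / 2) y * eEta η g₁ k₁ y) =ᶠ[𝓝 x] fun _ => (0 : ℝ) := by
        filter_upwards [hopen.mem_nhds (show x ∈ {y : E3 | ‖y - x‖ < 1 / (16 * R)} by
          simpa using hpos16)] with y hy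
        rw [c4 x hx y hy, zero_mul]
      exact continuousAt_const.congr h0.symm
    · exact (c3.continuousAt).mul (hEcη.continuousAt (hopenU.mem_nhds (by simpa using hx)))
  · -- nonnegativity
    intro x
    refine add_nonneg (hcapd.defect_nonneg x) ?_
    by_cases hx : x ∈ F.T
    · rw [c4 x hx x (by simpa using hpos16), zero_mul]
    · exact mul_nonneg (c1 x).1 (hE0 x (by simpa using hx))
  · -- core
    intro x hx1 hx2
    have hxT : x ∉ F.T := fun h => by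
      have := hx1 x h
      rw [sub_self, norm_zero] at this
      linarith
    have evG : modGT F.T l R g₁ =ᶠ[𝓝 x] g₁ := by
      have hopen : IsOpen ({y : E3 | ∀ p ∈ F.T, 1 / (16 * R) < ‖y - p‖} ∩ {y : E3 | ‖y‖ < l}) :=
        (open_away F.T _).inter (isOpen_lt continuous_norm continuous_const)
      filter_upwards [hopen.mem_nhds ⟨fun p hp => hinner.trans (hx1 p hp), by
        show ‖x‖ < l
        linarith⟩] with y hy
      exact m4 y hy.1 hy.2
    have evH : modHT F.T η l R g₁ k₁ =ᶠ[𝓝 x] hat η g₁ k₁ := by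
      have hopen : IsOpen ({y : E3 | ∀ p ∈ F.T, 1 / (8 * R) < ‖y - p‖} ∩
          {y : E3 | ‖y‖ < l / 2}) :=
        (open_away F.T _).inter (isOpen_lt continuous_norm continuous_const)
      filter_upwards [hopen.mem_nhds ⟨hx1, hx2⟩] with y hy
      exact m7 y (fun p hp => (hy.1 p hp).le) (le_of_lt hy.2)
    rw [Pool.Agent.PFlow.MODL.surplus_at evG evH]
    have h1 := hhat x (by simpa using hxT)
    have h2 := hcapd.energy x hxT
    have h3 := c2 x fun p hp => (hx1 p hp).le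
    simp only [h3, one_mul]
    linarith
  · -- shell
    intro x hx1 hx2
    have h1 := hO.shell x hx1 hx2
    have h6 := hcapd.defect_nonneg x
    have h4 : 0 ≤ msz (k₁ x) / l + msz (k₁ x) ^ 2 := by
      have : 0 ≤ msz (k₁ x) := Real.sqrt_nonneg _
      positivity
    have h5 : Co * (msz (k₁ x) / l + msz (k₁ x) ^ 2) ≤ C * (msz (k₁ x) / l + msz (k₁ x) ^ 2) :=
      mul_le_mul_of_nonneg_right hCoC h4
    beta_reduce at h1 ⊢
    linarith
  · intro x hx1 hx2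
    exact (hO.trans x hx1 hx2).trans (div_le_div_of_nonneg_right hCoC (by positivity))
  · intro x hx1 hx2
    exact (hO.trans_sup x hx1 hx2).trans (div_le_div_of_nonneg_right hCoC (by positivity))
  · exact hO.flat_surplus
  · exact hO.mass

/-- **MODT.** -/
theorem t_MODT (hPIEC : Stmt_PIEC) (hINNB : Stmt_INNB) (hOUTB : Stmt_OUTB) (hCUTT : Stmt_CUTT)
    (hHATU : Stmt_HATU) (hEETAD : Stmt_EETAD) : Stmt_MODT := by
  intro P F g k hF hSE hS hPS
  obtain ⟨C, N₀, l₀, hC, hN₀, hl₀, -, h⟩ := t_MODTD hPIEC hINNB hOUTB hCUTT hHATU hEETAD P F g k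
    hF.2.1 hF.1 hSE hS hPS hF.2.2
  refine ⟨C, N₀, hC, hN₀, fun C₁ N g₁ k₁ e₁ hN hcap => ?_⟩
  obtain ⟨h1, h2, h3⟩ := h C₁ N g₁ k₁ e₁ hN hcap
  exact ⟨C, l₀, hC, hl₀, h1, h2, fun l R η hl hR hη => ⟨(h3 l R η hl hR hη).barrier,
    h3 l R η hl hR hη⟩⟩

end Pool.Agent.PFU
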