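import Pool.Agent.PFU.StmtsA
import Pool.Agent.PFT.PERS
import Pool.Agent.PFlow.P.Moll

set_option autoImplicit false

/-!
# MOLE: a smooth function whose gradient has energy at most slightly more than the perimeter
-/

open MeasureTheory Filter Topology
open scoped ContDiff ENNReal Convolution

namespace Pool.Agent.PFU

open Pool.Agent.PenroseSph Pool.Agent.PFlow Pool.Agent.PFT

namespace MMOLE

open Pool.Agent.PFlow.PB (bmp Jm Jm_apply rho_smooth rho_cpt rho_cont rho_nonneg rho_int rad_le)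
open Pool.Agent.PFT.PERSAux (nhds_P cd_vol cd_inv cont_len Y_smooth Y_supp pdY_supp D_cont pdY_int
  D_int D_supp)
open Pool.Agent.PFlow.PERAaux (ar ar_nonneg abs_le_len cont_pd inv_app ev_nonneg ev_eq cs)

/-! ### Mollifications -/

theorem rh_supp (n : ℕ) {t : E3} (h : 1 / ((n : ℝ) + 1) ≤ ‖t‖) :
    (bmp n).normed volume t = 0 := by
  by_contra h0
  have h1 : t ∈ Function.support ((bmp n).normed volume) := h0
  rw [(bmp n).support_normed_eq, Metric.mem_ball, dist_zero_right] at h1
  exact absurd h1 (not_lt.2 h)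

theorem Jm_apply' (n : ℕ) (f : E3 → ℝ) (x : E3) :
    Jm n f x = ∫ y, (bmp n).normed volume (x - y) * f y := by
  have := integral_sub_left_eq_self (μ := (volume : Measure E3))
    (fun y => (bmp n).normed volume (x - y) * f y) x
  rw [← this, Jm_apply]
  congr 1
  ext t
  simp

theorem rho_int' (n : ℕ) (x : E3) : ∫ y, (bmp n).normed volume (x - y) = 1 := by
  rw [integral_sub_left_eq_self (μ := (volume : Measure E3))
    (fun y => (bmp n).normed volume y) x]
  exact rho_int n

theorem rho_integrable (n : ℕ) (x : E3) :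
    Integrable (fun y => (bmp n).normed volume (x - y)) :=
  ((rho_cont n).integrable_of_hasCompactSupport (rho_cpt n)).comp_sub_left x

theorem Jm_zero (n : ℕ) {f : E3 → ℝ} {x : E3} (h : ∀ y, ‖x - y‖ < 1 / ((n : ℝ) + 1) → f y = 0) :
    Jm n f x = 0 := by
  rw [Jm_apply']
  have e : (fun y => (bmp n).normed volume (x - y) * f y) = fun _ => 0 := by
    funext y
    rcases lt_or_ge ‖x - y‖ (1 / ((n : ℝ) + 1)) with h1 | h1
    · rw [h y h1, mul_zero]
    · rw [rh_supp n h1, zero_mul]
  rw [e, integral_zero]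

theorem Jm_one (n : ℕ) {f : E3 → ℝ} {x : E3}
    (h : ∀ᵐ y : E3, ‖x - y‖ < 1 / ((n : ℝ) + 1) → f y = 1) : Jm n f x = 1 := by
  rw [Jm_apply', ← rho_int' n x]
  refine integral_congr_ae ?_
  filter_upwards [h] with y hy
  rcases lt_or_ge ‖x - y‖ (1 / ((n : ℝ) + 1)) with h1 | h1
  · rw [hy h1, mul_one]
  · rw [rh_supp n h1, zero_mul]

theorem ind_bd (U : Set E3) (y : E3) : 0 ≤ U.indicator (1 : E3 → ℝ) y ∧
    U.indicator (1 : E3 → ℝ) y ≤ 1 := by
  by_cases h : y ∈ U
  · rw [Set.indicator_of_mem h]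
    simp
  · rw [Set.indicator_of_notMem h]
    simp

theorem Jm_bd (n : ℕ) (U : Set E3) (x : E3) : 0 ≤ Jm n (U.indicator 1) x ∧
    Jm n (U.indicator 1) x ≤ 1 := by
  rw [Jm_apply']
  refine ⟨integral_nonneg fun y => mul_nonneg (rho_nonneg n _) (ind_bd U y).1, ?_⟩
  rw [← rho_int' n x]
  refine integral_mono_of_nonneg
    (Eventually.of_forall fun y => mul_nonneg (rho_nonneg n _) (ind_bd U y).1)
    (rho_integrable n x) (Eventually.of_forall fun y => ?_)
  have h1 := rho_nonneg n (x - y)
  have h2 := (ind_bd U y).2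
  calc (bmp n).normed volume (x - y) * U.indicator 1 y
      ≤ (bmp n).normed volume (x - y) * 1 := mul_le_mul_of_nonneg_left h2 h1
    _ = (bmp n).normed volume (x - y) := mul_one _

theorem ind_loc {U : Set E3} (hU : MeasurableSet U) :
    LocallyIntegrable (U.indicator (1 : E3 → ℝ)) volume := by
  have h1 : LocallyIntegrable (1 : E3 → ℝ) volume := (continuous_const).locallyIntegrable
  exact h1.indicator hU

theorem v_smooth (n : ℕ) {U : Set E3} (hU : MeasurableSet U) :
    ContDiff ℝ ∞ (Jm n (U.indicator 1)) :=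
  (rho_cpt n).contDiff_convolution_left _ (rho_smooth n) (ind_loc hU)

theorem adj (n : ℕ) {U : Set E3} (hU : MeasurableSet U) {D : E3 → ℝ} (hD : Continuous D)
    (hc : HasCompactSupport D) :
    ∫ x, Jm n (U.indicator 1) x * D x = ∫ x in U, Jm n D x := by
  have hDi : Integrable D := hD.integrable_of_hasCompactSupport hc
  have hri : Integrable (fun t => (bmp n).normed volume t) :=
    (rho_cont n).integrable_of_hasCompactSupport (rho_cpt n)
  set F : E3 → E3 → ℝ := fun x y => (bmp n).normed volume (x - y) * U.indicator 1 y * D x with hF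
  have hG : Integrable (fun p : E3 × E3 => D p.1 * (bmp n).normed volume (p.2 - p.1))
      (volume.prod volume) :=
    (hDi.convolution_integrand (ContinuousLinearMap.lsmul ℝ ℝ) hri).swap
  have hFi : Integrable (Function.uncurry F) (volume.prod volume) := by
    refine hG.mono ?_ (Eventually.of_forall fun p => ?_)
    · refine AEStronglyMeasurable.mul (AEStronglyMeasurable.mul ?_ ?_) ?_
      · exact ((rho_cont n).comp (continuous_fst.sub continuous_snd)).aestronglyMeasurable
      · exact ((measurable_one.indicator hU).comp measurable_snd).aestronglyMeasurable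
      · exact (hD.comp continuous_fst).aestronglyMeasurable
    · have h1 := rho_nonneg n (p.1 - p.2)
      have h2 := ind_bd U p.2
      have h3 : (bmp n).normed volume (p.2 - p.1) = (bmp n).normed volume (p.1 - p.2) := by
        rw [← neg_sub, (bmp n).normed_neg]
      simp only [Function.uncurry, hF, norm_mul, h3, Real.norm_eq_abs, abs_of_nonneg h1,
        abs_of_nonneg h2.1]
      calc (bmp n).normed volume (p.1 - p.2) * U.indicator 1 p.2 * |D p.1|
          ≤ (bmp n).normed volume (p.1 - p.2) * 1 * |D p.1| := by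
            have h4 := abs_nonneg (D p.1)
            gcongr
            exact h2.2
        _ = |D p.1| * (bmp n).normed volume (p.1 - p.2) := by ring
  have e1 : ∫ x, Jm n (U.indicator 1) x * D x = ∫ x, ∫ y, F x y := by
    refine integral_congr_ae (Eventually.of_forall fun x => ?_)
    simp only [hF]
    rw [integral_mul_const, Jm_apply']
  rw [e1, integral_integral_swap hFi, ← integral_indicator hU]
  refine integral_congr_ae (Eventually.of_forall fun y => ?_)
  simp only [hF]
  by_cases hy : y ∈ U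
  · rw [Set.indicator_of_mem hy, Set.indicator_of_mem hy, Jm_apply']
    refine integral_congr_ae (Eventually.of_forall fun x => ?_)
    simp only [Pi.one_apply, mul_one]
    rw [← neg_sub y x, (bmp n).normed_neg]
  · simp [Set.indicator_of_notMem hy]

theorem pd_Jm (n : ℕ) {Y : E3 → ℝ} (hY : ContDiff ℝ ∞ Y) (hc : HasCompactSupport Y) (i : Fin 3)
    (x : E3) : pd i (Jm n Y) x = Jm n (pd i Y) x := by
  have hl : LocallyIntegrable ((bmp n).normed (volume : Measure E3)) volume :=
    (rho_cont n).locallyIntegrable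
  have h1 := hc.hasFDerivAt_convolution_right (ContinuousLinearMap.lsmul ℝ ℝ) hl
    (hY.of_le (by exact_mod_cast le_top)) x
  have h2 := convolution_precompR_apply (ContinuousLinearMap.lsmul ℝ ℝ : ℝ →L[ℝ] ℝ →L[ℝ] ℝ) hl
    (hc.fderiv (𝕜 := ℝ)) (hY.continuous_fderiv (by simp)) x (EuclideanSpace.single i (1 : ℝ))
  unfold pd
  have h3 : fderiv ℝ (Jm n Y) x = _ := h1.fderiv
  rw [h3]
  exact h2

theorem Jm_smooth' (n : ℕ) {Y : E3 → ℝ} (hY : ContDiff ℝ ∞ Y) (hc : HasCompactSupport Y) :
    ContDiff ℝ ∞ (Jm n Y) :=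
  hc.contDiff_convolution_right _ (rho_cont n).locallyIntegrable hY

theorem Jm_cpt' (n : ℕ) {Y : E3 → ℝ} (hc : HasCompactSupport Y) : HasCompactSupport (Jm n Y) :=
  (rho_cpt n).convolution _ hc

/-! ### Comparison of the lengths at neighbouring points -/

theorem len_smul (g : TensorField) (x : E3) {c : ℝ} (hc : 0 ≤ c) (q : Cov) :
    len g x (c • q) = c * len g x q := by
  have h1 : ev (g x)⁻¹ (c • q) (c • q) = c ^ 2 * ev (g x)⁻¹ q q := by
    simp only [ev, Finset.mul_sum, Pi.smul_apply, smul_eq_mul]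
    refine Finset.sum_congr rfl fun i _ => Finset.sum_congr rfl fun j _ => ?_
    ring
  unfold len
  rw [h1, Real.sqrt_mul (sq_nonneg c), Real.sqrt_sq hc]

theorem len_zero (g : TensorField) (x : E3) : len g x 0 = 0 := by
  simp [len, ev]

theorem ev_pos {B : Bil} (hB : B.PosDef) {v : Cov} (hv : v ≠ 0) : 0 < ev B v v := by
  have h := hB.dotProduct_mulVec_pos hv
  have e : star v ⬝ᵥ B.mulVec v = ev B v v := by
    simp only [dotProduct, Matrix.mulVec, ev, Finset.mul_sum, Pi.star_apply, star_trivial]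
    exact Finset.sum_congr rfl fun i _ => Finset.sum_congr rfl fun j _ => by ring
  rwa [e] at h

theorem compare {P : Finset E3} {g : TensorField} (hg : MetricOn ((P : Set E3))ᶜ g) {K : Set E3}
    (hK : IsCompact K) (hP : ∀ x ∈ K, x ∉ P) {s : ℝ} (hs : 0 < s) :
    ∃ δ : ℝ, 0 < δ ∧ ∀ x ∈ K, ∀ y ∈ K, ‖x - y‖ < δ → ∀ q : Cov,
      volDen g x * len g x q ≤ (1 + s) * (volDen g y * len g y q) := by
  rcases K.eq_empty_or_nonempty with rfl | hne
  · exact ⟨1, one_pos, fun x hx => absurd hx (Set.notMem_empty x)⟩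
  set N : E3 × Cov → ℝ := fun z => volDen g z.1 * len g z.1 z.2 with hN
  set S : Set Cov := Metric.sphere 0 1 with hS
  have hSc : IsCompact S := isCompact_sphere _ _
  have hSne : S.Nonempty := NormedSpace.sphere_nonempty.2 zero_le_one
  have hcont : ContinuousOn N (K ×ˢ S) := by
    rintro ⟨x, q⟩ hz
    have hx : x ∉ P := hP x hz.1
    refine ContinuousAt.continuousWithinAt ?_
    refine ContinuousAt.mul ?_ ?_
    · exact ContinuousAt.comp (f := Prod.fst) (x := (x, q)) (cd_vol hg hx).continuousAt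
        continuousAt_fst
    · unfold len
      refine ContinuousAt.sqrt ?_
      unfold ev
      refine tendsto_finsetSum _ fun i _ => tendsto_finsetSum _ fun j _ => ?_
      refine Tendsto.mul (Tendsto.mul ?_ ?_) ?_
      · exact ContinuousAt.comp (f := Prod.fst) (x := (x, q)) (cd_inv hg hx i j).continuousAt
          continuousAt_fst
      · exact ((continuous_apply i).comp continuous_snd).continuousAt
      · exact ((continuous_apply j).comp continuous_snd).continuousAt
  have hpos : ∀ z ∈ K ×ˢ S, 0 < N z := by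
    rintro ⟨x, q⟩ hz
    have hx : x ∉ P := hP x hz.1
    have hpd : (g x).PosDef := hg.posDef x (by simpa using hx)
    have hq : q ≠ 0 := by
      rintro rfl
      have := hz.2
      simp [hS] at this
    exact mul_pos (Real.sqrt_pos.2 hpd.det_pos) (Real.sqrt_pos.2 (ev_pos hpd.inv hq))
  have hKS : IsCompact (K ×ˢ S) := hK.prod hSc
  obtain ⟨z₀, hz₀, hmin⟩ := hKS.exists_isMinOn (hne.prod hSne) hcont
  have hm : 0 < N z₀ := hpos z₀ hz₀
  have huc := hKS.uniformContinuousOn_of_continuous hcont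
  rw [Metric.uniformContinuousOn_iff] at huc
  obtain ⟨δ, hδ, hd⟩ := huc (s * N z₀) (mul_pos hs hm)
  refine ⟨δ, hδ, fun x hx y hy hxy q => ?_⟩
  rcases eq_or_ne q 0 with rfl | hq
  · simp [len_zero]
  have hnq : 0 < ‖q‖ := norm_pos_iff.2 hq
  set q' : Cov := ‖q‖⁻¹ • q with hq'
  have hq'S : q' ∈ S := by
    rw [hS, Metric.mem_sphere, dist_zero_right, hq', norm_smul, norm_inv, norm_norm,
      inv_mul_cancel₀ hnq.ne']
  have hqq : q = ‖q‖ • q' := by
    rw [hq', smul_smul, mul_inv_cancel₀ hnq.ne', one_smul]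
  have h1 : dist ((x, q') : E3 × Cov) (y, q') < δ := by
    rw [Prod.dist_eq, dist_self, max_eq_left dist_nonneg, dist_eq_norm]
    exact hxy
  have h2 := hd (x, q') ⟨hx, hq'S⟩ (y, q') ⟨hy, hq'S⟩ h1
  rw [Real.dist_eq] at h2
  have h3 : N z₀ ≤ N (y, q') := hmin (⟨hy, hq'S⟩ : (y, q') ∈ K ×ˢ S)
  have h4 : N (x, q') ≤ (1 + s) * N (y, q') := by
    have := (abs_lt.1 h2).2
    nlinarith
  have h5 : volDen g x * len g x q = ‖q‖ * N (x, q') := by
    rw [hN]
    simp only
    conv_lhs => rw [hqq, len_smul g x hnq.le]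
    ring
  have h6 : volDen g y * len g y q = ‖q‖ * N (y, q') := by
    rw [hN]
    simp only
    conv_lhs => rw [hqq, len_smul g y hnq.le]
    ring
  rw [h5, h6]
  calc ‖q‖ * N (x, q') ≤ ‖q‖ * ((1 + s) * N (y, q')) := mul_le_mul_of_nonneg_left h4 hnq.le
    _ = (1 + s) * (‖q‖ * N (y, q')) := by ring

/-! ### Algebra at a point -/

theorem raise_ev {g : TensorField} {x : E3} (hg : (g x).PosDef) (p : Cov) :
    ev (g x) (raise g x p) (raise g x p) = ev (g x)⁻¹ p p := by
  rw [ev_eq, ev_eq]
  refine Finset.sum_congr rfl fun i _ => ?_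
  have h1 := inv_app hg p i
  unfold raise
  rw [h1, mul_comm]

theorem low_ev {g : TensorField} {x : E3} (hg : (g x).PosDef) (Z : Cov) :
    ev (g x)⁻¹ (fun i => ∑ j, g x i j * Z j) (fun i => ∑ j, g x i j * Z j) = ev (g x) Z Z := by
  have hu : IsUnit (g x).det := hg.isUnit.map Matrix.detMonoidHom
  rw [ev_eq, ev_eq]
  refine Finset.sum_congr rfl fun i _ => ?_
  have h1 : ((g x)⁻¹ * g x).mulVec Z = Z := by
    rw [Matrix.nonsing_inv_mul _ hu, Matrix.one_mulVec]
  rw [← Matrix.mulVec_mulVec] at h1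
  have h2 := congrFun h1 i
  have h3 : ∑ j, (g x)⁻¹ i j * (∑ k, g x j k * Z k) = Z i := by
    simpa [Matrix.mulVec, dotProduct] using h2
  rw [h3, mul_comm]

theorem ev_smul (B : Bil) (c : ℝ) (v : Cov) : ev B (fun i => c * v i) (fun i => c * v i)
    = c ^ 2 * ev B v v := by
  simp only [ev, Finset.mul_sum]
  refine Finset.sum_congr rfl fun i _ => Finset.sum_congr rfl fun j _ => ?_
  ring

/-! ### The data of the function -/

structure Dt (P : Finset E3) (v : E3 → ℝ) (a b : ℝ) : Prop where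
  sm : ContDiff ℝ ∞ v
  ha : 0 < a
  far : ∀ x : E3, b ≤ ‖x‖ → v x = 0
  near : ∀ p ∈ P, ∀ x : E3, ‖x - p‖ ≤ a → v x = v p

def KK (P : Finset E3) (a b : ℝ) : Set E3 := {x | ‖x‖ ≤ b ∧ ∀ p ∈ P, a ≤ ‖x - p‖}

theorem closed_KK (P : Finset E3) (a b : ℝ) : IsClosed (KK P a b) := by
  have h : KK P a b = {x | ‖x‖ ≤ b} ∩ ⋂ p ∈ P, {x : E3 | a ≤ ‖x - p‖} := by
    ext x
    simp [KK]
  rw [h]
  refine (isClosed_le continuous_norm continuous_const).inter ?_
  refine isClosed_biInter fun p _ => ?_
  exact isClosed_le continuous_const (by fun_prop)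

theorem cpt_KK (P : Finset E3) (a b : ℝ) : IsCompact (KK P a b) := by
  refine (isCompact_closedBall (0 : E3) b).of_isClosed_subset (closed_KK P a b) ?_
  intro x hx
  rw [Metric.mem_closedBall, dist_zero_right]
  exact hx.1

theorem KK_P {P : Finset E3} {a b : ℝ} (ha : 0 < a) {x : E3} (hx : x ∈ KK P a b) : x ∉ P := by
  intro h
  have := hx.2 x h
  simp at this
  linarith

theorem KK_mono {P : Finset E3} {a b a' b' : ℝ} (ha : a' ≤ a) (hb : b ≤ b') :
    KK P a b ⊆ KK P a' b' := fun _ hx => ⟨hx.1.trans hb, fun p hp => ha.trans (hx.2 p hp)⟩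

section Field

variable {P : Finset E3} {g : TensorField} {v : E3 → ℝ} {a b : ℝ}

theorem grad_zero (h : Dt P v a b) {x : E3} (hx : x ∉ KK P a b) : grad v x = 0 := by
  have key : ∃ c : ℝ, v =ᶠ[𝓝 x] fun _ => c := by
    by_cases h1 : ‖x‖ ≤ b
    · have h2 : ∃ p ∈ P, ‖x - p‖ < a := by
        by_contra hcon
        push Not at hcon
        exact hx ⟨h1, hcon⟩
      obtain ⟨p, hp, hpx⟩ := h2
      refine ⟨v p, ?_⟩
      have ho : IsOpen {y : E3 | ‖y - p‖ < a} := isOpen_lt (by fun_prop) continuous_const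
      filter_upwards [ho.mem_nhds hpx] with y hy
      exact h.near p hp y (le_of_lt hy)
    · refine ⟨0, ?_⟩
      have ho : IsOpen {y : E3 | b < ‖y‖} := isOpen_lt continuous_const continuous_norm
      filter_upwards [ho.mem_nhds (not_le.1 h1)] with y hy
      exact h.far y (le_of_lt hy)
  obtain ⟨c, hc⟩ := key
  funext i
  unfold grad pd
  rw [hc.fderiv_eq]
  simp

theorem pd_zero (h : Dt P v a b) {x : E3} (hx : x ∉ KK P a b) (i : Fin 3) : pd i v x = 0 :=
  congrFun (grad_zero h hx) i

/-- The field. -/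
noncomputable def XX (g : TensorField) (v : E3 → ℝ) (ν : ℝ) (x : E3) : Cov := fun i =>
  (Real.sqrt (ev (g x)⁻¹ (grad v x) (grad v x) + ν ^ 2))⁻¹ * raise g x (grad v x) i

theorem XX_zero (h : Dt P v a b) (ν : ℝ) {x : E3} (hx : x ∉ KK P a b) : XX g v ν x = 0 := by
  funext i
  unfold XX raise
  rw [grad_zero h hx]
  simp

theorem pd_C (f : E3 → ℝ) (hf : ContDiff ℝ ∞ f) (i : Fin 3) : ContDiff ℝ ∞ (pd i f) := by
  have h := hf.fderiv_right (m := ∞) (by exact_mod_cast le_top)
  exact h.clm_apply contDiff_const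

theorem field_of_zero {a' b' : ℝ} (ha : 0 < a') {X : E3 → Cov}
    (hz : ∀ x, x ∉ KK P a' b' → X x = 0) (hs : ∀ x, x ∉ P → ∀ i, ContDiffAt ℝ ∞ (fun y => X y i) x)
    (hl : ∀ x ∈ KK P a' b', ev (g x) (X x) (X x) ≤ 1) : TestFieldP P g X := by
  have hev : ∀ x, x ∉ KK P a' b' → ∀ᶠ y in 𝓝 x, X y = 0 := fun x hx => by
    filter_upwards [(closed_KK P a' b').isOpen_compl.mem_nhds hx] with y hy
    exact hz y hy
  refine ⟨fun i => ?_, ?_, ?_, ?_⟩
  · rw [contDiff_iff_contDiffAt]
    intro x
    by_cases hx : x ∈ P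
    · have hxK : x ∉ KK P a' b' := fun h => KK_P ha h hx
      refine (contDiffAt_const (c := (0 : ℝ))).congr_of_eventuallyEq ?_
      filter_upwards [hev x hxK] with y hy
      rw [hy]
      rfl
    · exact hs x hx i
  · exact HasCompactSupport.intro (cpt_KK P a' b') hz
  · intro p hp
    have hpK : p ∉ KK P a' b' := fun h => KK_P ha h hp
    rw [notMem_tsupport_iff_eventuallyEq]
    exact hev p hpK
  · intro x hx
    by_cases hxK : x ∈ KK P a' b'
    · exact hl x hxK
    · rw [hz x hxK]
      simp [ev]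

theorem XX_field (hg : MetricOn ((P : Set E3))ᶜ g) (h : Dt P v a b) {ν : ℝ} (hν : 0 < ν) :
    TestFieldP P g (XX g v ν) := by
  refine field_of_zero h.ha (fun x hx => XX_zero h ν hx) ?_ ?_
  · intro x hx i
    have hpd : (g x).PosDef := hg.posDef x (by simpa using hx)
    have hgr : ∀ k, ContDiffAt ℝ ∞ (fun y => grad v y k) x := fun k =>
      (pd_C v h.sm k).contDiffAt
    have hE : ContDiffAt ℝ ∞ (fun y => ev (g y)⁻¹ (grad v y) (grad v y) + ν ^ 2) x := by
      unfold ev
      refine ContDiffAt.add ?_ contDiffAt_const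
      refine ContDiffAt.sum fun k _ => ContDiffAt.sum fun l _ => ?_
      exact ((cd_inv hg hx k l).mul (hgr k)).mul (hgr l)
    have hpos : 0 < ev (g x)⁻¹ (grad v x) (grad v x) + ν ^ 2 := by
      have := ev_nonneg hpd.inv.posSemidef (grad v x)
      positivity
    unfold XX
    refine ContDiffAt.mul ((hE.sqrt hpos.ne').inv (Real.sqrt_pos.2 hpos).ne') ?_
    unfold raise
    refine ContDiffAt.sum fun k _ => ?_
    exact (cd_inv hg hx i k).mul (hgr k)
  · intro x hx
    have hxP := KK_P h.ha hx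
    have hpd : (g x).PosDef := hg.posDef x (by simpa using hxP)
    have hE := ev_nonneg hpd.inv.posSemidef (grad v x)
    unfold XX
    rw [ev_smul, raise_ev hpd, inv_pow, Real.sq_sqrt (by positivity), inv_mul_le_one₀
      (by positivity)]
    nlinarith

theorem XX_pair (hg : MetricOn ((P : Set E3))ᶜ g) {ν : ℝ} (hν : 0 < ν) {x : E3} (hx : x ∉ P) :
    len g x (grad v x) - ν ≤ ∑ i, grad v x i * XX g v ν x i := by
  have hpd : (g x).PosDef := hg.posDef x (by simpa using hx)
  have hE := ev_nonneg hpd.inv.posSemidef (grad v x)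
  have h1 : ∑ i, grad v x i * XX g v ν x i
      = (Real.sqrt (ev (g x)⁻¹ (grad v x) (grad v x) + ν ^ 2))⁻¹
        * ev (g x)⁻¹ (grad v x) (grad v x) := by
    have h0 : ∑ i, grad v x i * XX g v ν x i
        = (Real.sqrt (ev (g x)⁻¹ (grad v x) (grad v x) + ν ^ 2))⁻¹
          * ∑ i, (∑ j, (g x)⁻¹ i j * grad v x j) * grad v x i := by
      rw [Finset.mul_sum]
      refine Finset.sum_congr rfl fun i _ => ?_
      unfold XX raise
      ring
    rw [h0, ← ev_eq]
  rw [h1]
  unfold len
  set E := ev (g x)⁻¹ (grad v x) (grad v x) with hEd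
  set L := Real.sqrt E with hL
  have hL0 : 0 ≤ L := Real.sqrt_nonneg _
  have hL2 : L ^ 2 = E := Real.sq_sqrt hE
  have h2 : Real.sqrt (E + ν ^ 2) ≤ L + ν := by
    rw [Real.sqrt_le_left (by linarith)]
    nlinarith
  have h3 : 0 < Real.sqrt (E + ν ^ 2) := Real.sqrt_pos.2 (by positivity)
  rw [inv_mul_eq_div, le_div_iff₀ h3]
  rcases le_total L ν with h4 | h4
  · have : (L - ν) * Real.sqrt (E + ν ^ 2) ≤ 0 :=
      mul_nonpos_of_nonpos_of_nonneg (by linarith) h3.le
    linarith
  · calc (L - ν) * Real.sqrt (E + ν ^ 2) ≤ (L - ν) * (L + ν) :=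
          mul_le_mul_of_nonneg_left h2 (by linarith)
      _ ≤ E := by nlinarith

/-! ### Integration by parts -/

theorem ibp (hv : ContDiff ℝ ∞ v) {Y : Fin 3 → E3 → ℝ} (hY : ∀ i, ContDiff ℝ ∞ (Y i))
    (hc : ∀ i, HasCompactSupport (Y i)) (i : Fin 3) :
    ∫ x, v x * pd i (Y i) x = -∫ x, pd i v x * Y i x := by
  have hpc : HasCompactSupport (pd i (Y i)) := by
    have h := (hc i).fderiv (𝕜 := ℝ)
    refine h.mono ?_
    intro x hx
    rw [Function.mem_support] at hx ⊢
    intro h0
    apply hx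
    unfold pd
    rw [h0]
    simp
  have i1 : Integrable (fun x => fderiv ℝ v x (EuclideanSpace.single i 1) * Y i x) :=
    Continuous.integrable_of_hasCompactSupport ((cont_pd hv i).mul (hY i).continuous)
      (hc i).mul_left
  have i2 : Integrable (fun x => v x * fderiv ℝ (Y i) x (EuclideanSpace.single i 1)) :=
    Continuous.integrable_of_hasCompactSupport (hv.continuous.mul (cont_pd (hY i) i))
      (HasCompactSupport.mul_left hpc)
  have i3 : Integrable (fun x => v x * Y i x) :=
    Continuous.integrable_of_hasCompactSupport (hv.continuous.mul (hY i).continuous)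
      (hc i).mul_left
  exact integral_mul_fderiv_eq_neg_fderiv_mul_of_integrable i1 i2 i3
    (fun x _ => (hv.differentiable (by simp)).differentiableAt)
    (fun x _ => ((hY i).differentiable (by simp)).differentiableAt)

/-! ### The mollified field -/

theorem Z_zero {n : ℕ} {X : E3 → Cov} (hz : ∀ x, x ∉ KK P a b → X x = 0)
    (hn1 : 1 / ((n : ℝ) + 1) ≤ a / 2) {i : Fin 3} {y : E3} (hy : y ∉ KK P (a / 2) (b + 1)) :
    Jm n (fun x => volDen g x * X x i) y = 0 := by
  refine Jm_zero n fun x hx => ?_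
  have hxK : x ∉ KK P a b := by
    intro h
    apply hy
    refine ⟨?_, fun p hp => ?_⟩
    · have h1 : ‖y‖ ≤ ‖x‖ + ‖y - x‖ := by
        calc ‖y‖ = ‖x + (y - x)‖ := by congr 1; abel
          _ ≤ ‖x‖ + ‖y - x‖ := norm_add_le _ _
      have h2 := rad_le n
      linarith [h.1]
    · have h1 : ‖x - p‖ ≤ ‖y - p‖ + ‖y - x‖ := by
        calc ‖x - p‖ = ‖(y - p) - (y - x)‖ := by congr 1; abel
          _ ≤ ‖y - p‖ + ‖y - x‖ := norm_sub_le _ _
      linarith [h.2 p hp]
  rw [hz x hxK]
  simp

/-- The bound for the mollified field. -/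
theorem Z_short (hg : MetricOn ((P : Set E3))ᶜ g) (ha : 0 < a) {n : ℕ} {X : E3 → Cov}
    (hX : TestFieldP P g X) (hz : ∀ x, x ∉ KK P a b → X x = 0) {s δ : ℝ} (hs : 0 < s)
    (hcmp : ∀ x ∈ KK P (a / 2) (b + 1), ∀ y ∈ KK P (a / 2) (b + 1), ‖x - y‖ < δ → ∀ q : Cov,
      volDen g x * len g x q ≤ (1 + s) * (volDen g y * len g y q))
    (hn : 1 / ((n : ℝ) + 1) ≤ δ) {y : E3} (hy : y ∈ KK P (a / 2) (b + 1)) :
    ev (g y) (fun i => Jm n (fun x => volDen g x * X x i) y)
      (fun i => Jm n (fun x => volDen g x * X x i) y) ≤ ((1 + s) * volDen g y) ^ 2 := by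
  have hyP : y ∉ P := KK_P (half_pos ha) hy
  have hpd : (g y).PosDef := hg.posDef y (by simpa using hyP)
  set Z : Cov := fun i => Jm n (fun x => volDen g x * X x i) y with hZ
  set p : Cov := fun i => ∑ j, g y i j * Z j with hp
  have hQ := ev_nonneg hpd.posSemidef Z
  have hlen : len g y p = Real.sqrt (ev (g y) Z Z) := by
    unfold len
    rw [hp, low_ev hpd]
  have e1 : ev (g y) Z Z = ∑ i, p i * Z i := by
    rw [ev_eq]
  have hYi : ∀ i, Integrable (fun x => (bmp n).normed volume (y - x) * (volDen g x * X x i)) := by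
    intro i
    refine Continuous.integrable_of_hasCompactSupport ?_ (Y_supp hX i).mul_left
    exact ((rho_cont n).comp (continuous_const.sub continuous_id)).mul
      (Y_smooth hg hX i).continuous
  have e2 : ∑ i, p i * Z i
      = ∫ x, ∑ i, p i * ((bmp n).normed volume (y - x) * (volDen g x * X x i)) := by
    rw [integral_finsetSum _ fun i _ => (hYi i).const_mul _]
    refine Finset.sum_congr rfl fun i _ => ?_
    rw [integral_const_mul, hZ]
    simp only
    rw [Jm_apply']
  have hv : 0 ≤ volDen g y := Real.sqrt_nonneg _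
  have e3 : ∑ i, p i * Z i ≤ (1 + s) * (volDen g y * len g y p) := by
    rw [e2]
    have e4 : (1 + s) * (volDen g y * len g y p)
        = ∫ x, (bmp n).normed volume (y - x) * ((1 + s) * (volDen g y * len g y p)) := by
      rw [integral_mul_const, rho_int' n y, one_mul]
    rw [e4]
    refine integral_mono (integrable_finsetSum _ fun i _ => (hYi i).const_mul _)
      ((rho_integrable n y).mul_const _) fun x => ?_
    simp only
    have h0 := rho_nonneg n (y - x)
    have e5 : ∑ i, p i * ((bmp n).normed volume (y - x) * (volDen g x * X x i))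
        = (bmp n).normed volume (y - x) * (volDen g x * ∑ i, p i * X x i) := by
      rw [Finset.mul_sum, Finset.mul_sum]
      refine Finset.sum_congr rfl fun i _ => ?_
      ring
    rw [e5]
    rcases lt_or_ge ‖y - x‖ (1 / ((n : ℝ) + 1)) with h1 | h1
    · refine mul_le_mul_of_nonneg_left ?_ h0
      by_cases hxK : x ∈ KK P a b
      · have hxK' : x ∈ KK P (a / 2) (b + 1) := KK_mono (by linarith) (by linarith) hxK
        have hxP : x ∉ P := KK_P ha hxK
        have h2 : ∑ i, p i * X x i ≤ len g x p := (le_abs_self _).trans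
          (abs_le_len (hg.posDef x (by simpa using hxP)) _ _ (hX.short x hxP))
        have h3 : ‖x - y‖ < δ := by
          rw [norm_sub_rev]
          exact h1.trans_le hn
        exact (mul_le_mul_of_nonneg_left h2 (Real.sqrt_nonneg _)).trans (hcmp x hxK' y hy h3 p)
      · rw [hz x hxK]
        simp only [Pi.zero_apply, mul_zero, Finset.sum_const_zero]
        have : 0 ≤ len g y p := Real.sqrt_nonneg _
        positivity
    · rw [rh_supp n h1, zero_mul, zero_mul]
  rw [← e1, hlen] at e3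
  set Q := Real.sqrt (ev (g y) Z Z) with hQd
  have hQ0 : 0 ≤ Q := Real.sqrt_nonneg _
  have hQ2 : Q ^ 2 = ev (g y) Z Z := Real.sq_sqrt hQ
  rw [← hQ2] at e3 ⊢
  have h5 : Q ≤ (1 + s) * volDen g y := by
    rcases hQ0.eq_or_lt with h | h
    · rw [← h]
      positivity
    · have : Q * Q ≤ ((1 + s) * volDen g y) * Q := by nlinarith
      exact le_of_mul_le_mul_right this h
  exact pow_le_pow_left₀ hQ0 h5 2

theorem main (hg : MetricOn ((P : Set E3))ᶜ g) {U : Set E3} (hU : IsOpen U) {A : ℝ}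
    (hA0 : 0 ≤ A) (hA : perimeterP P g U ≤ ENNReal.ofReal A) {n : ℕ}
    (hv : Dt P (Jm n (U.indicator 1)) a b) {s δ : ℝ} (hs : 0 < s)
    (hcmp : ∀ x ∈ KK P (a / 2) (b + 1), ∀ y ∈ KK P (a / 2) (b + 1), ‖x - y‖ < δ → ∀ q : Cov,
      volDen g x * len g x q ≤ (1 + s) * (volDen g y * len g y q))
    (hn : 1 / ((n : ℝ) + 1) ≤ δ) (hn1 : 1 / ((n : ℝ) + 1) ≤ a / 2) {X : E3 → Cov}
    (hX : TestFieldP P g X) (hz : ∀ x, x ∉ KK P a b → X x = 0) :
    ∫ x, ∑ i, pd i (Jm n (U.indicator 1)) x * (volDen g x * X x i) ≤ (1 + s) * A := by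
  have ha := hv.ha
  have hs1 : 0 < 1 + s := by linarith
  set v := Jm n (U.indicator 1) with hvd
  set Z : Fin 3 → E3 → ℝ := fun i => Jm n (fun x => volDen g x * X x i) with hZ
  have hZs : ∀ i, ContDiff ℝ ∞ (Z i) := fun i => Jm_smooth' n (Y_smooth hg hX i) (Y_supp hX i)
  have hZ0 : ∀ i y, y ∉ KK P (a / 2) (b + 1) → Z i y = 0 := fun i y hy => Z_zero hz hn1 hy
  set X' : E3 → Cov := fun y i => (-((1 + s)⁻¹ * (volDen g y)⁻¹)) * Z i y with hX'
  have hvp : ∀ y ∈ KK P (a / 2) (b + 1), 0 < volDen g y := fun y hy =>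
    Real.sqrt_pos.2 (hg.posDef y (by simpa using KK_P (half_pos ha) hy)).det_pos
  have hX'f : TestFieldP P g X' := by
    refine field_of_zero (a' := a / 2) (b' := b + 1) (half_pos ha) ?_ ?_ ?_
    · intro x hx
      funext i
      simp only [hX', hZ0 i x hx, mul_zero, Pi.zero_apply]
    · intro x hx i
      have hpd : (g x).PosDef := hg.posDef x (by simpa using hx)
      have h1 : 0 < volDen g x := Real.sqrt_pos.2 hpd.det_pos
      refine ContDiffAt.mul ?_ (hZs i).contDiffAt
      exact (contDiffAt_const.mul ((cd_vol hg hx).inv h1.ne')).neg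
    · intro x hx
      have h1 := hvp x hx
      have h2 := Z_short hg ha hX hz hs hcmp hn hx
      have h3 : ev (g x) (X' x) (X' x) = (-((1 + s)⁻¹ * (volDen g x)⁻¹)) ^ 2
          * ev (g x) (fun i => Z i x) (fun i => Z i x) := ev_smul _ _ _
      rw [h3]
      have h4 : (-((1 + s)⁻¹ * (volDen g x)⁻¹)) ^ 2 = (((1 + s) * volDen g x) ^ 2)⁻¹ := by
        rw [neg_sq, ← mul_inv, inv_pow]
      rw [h4]
      exact inv_mul_le_one_of_le₀ h2 (by positivity)
  have e1 : ∀ i, (fun y => volDen g y * X' y i) = fun y => (-(1 + s)⁻¹) * Z i y := by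
    intro i
    funext y
    by_cases hy : y ∈ KK P (a / 2) (b + 1)
    · have h1 := (hvp y hy).ne'
      simp only [hX']
      field_simp
    · simp only [hX', hZ0 i y hy, mul_zero]
  have e2 : ∀ i y, pd i (fun y => volDen g y * X' y i) y
      = (-(1 + s)⁻¹) * Jm n (pd i (fun x => volDen g x * X x i)) y := by
    intro i y
    rw [e1 i, ← pd_Jm n (Y_smooth hg hX i) (Y_supp hX i)]
    unfold pd
    have h1 : DifferentiableAt ℝ (Z i) y := ((hZs i).differentiable (by simp)).differentiableAt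
    rw [fderiv_const_mul h1]
    simp [hZ]
  have e3 : ∫ x in U, ∑ i, pd i (fun y => volDen g y * X' y i) x
      = (1 + s)⁻¹ * ∫ x, ∑ i, pd i v x * (volDen g x * X x i) := by
    have i1 : ∀ i, Integrable (fun x => pd i v x * (volDen g x * X x i)) := fun i =>
      Continuous.integrable_of_hasCompactSupport
        ((cont_pd hv.sm i).mul (Y_smooth hg hX i).continuous) (Y_supp hX i).mul_left
    have i2 : ∀ i, IntegrableOn (fun x => (-(1 + s)⁻¹)
        * Jm n (pd i (fun x => volDen g x * X x i)) x) U := by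
      intro i
      refine Integrable.integrableOn (Integrable.const_mul ?_ _)
      have h1 : Continuous (Jm n (pd i (fun x => volDen g x * X x i))) := by
        have : Jm n (pd i (fun x => volDen g x * X x i)) = pd i (Z i) := by
          funext y
          rw [hZ]
          exact (pd_Jm n (Y_smooth hg hX i) (Y_supp hX i) i y).symm
        rw [this]
        exact cont_pd (hZs i) i
      exact h1.integrable_of_hasCompactSupport (Jm_cpt' n (pdY_supp hX i))
    simp only [e2]
    rw [integral_finsetSum _ fun i _ => i2 i, integral_finsetSum _ fun i _ => i1 i,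
      Finset.mul_sum]
    refine Finset.sum_congr rfl fun i _ => ?_
    rw [integral_const_mul, ← adj n hU.measurableSet (cont_pd (Y_smooth hg hX i) i)
      (pdY_supp hX i), ibp hv.sm (Y := fun i x => volDen g x * X x i)
      (fun i => Y_smooth hg hX i) (fun i => Y_supp hX i) i]
    ring
  have h6 : ENNReal.ofReal (∫ x in U, ∑ i, pd i (fun y => volDen g y * X' y i) x)
      ≤ ENNReal.ofReal A := by
    refine le_trans ?_ hA
    unfold perimeterP
    exact le_iSup₂ (f := fun (X : E3 → Cov) (_ : TestFieldP P g X) =>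
      ENNReal.ofReal (∫ x in U, ∑ i, pd i (fun y => volDen g y * X y i) x)) X' hX'f
  rw [ENNReal.ofReal_le_ofReal_iff hA0, e3, inv_mul_le_iff₀ hs1] at h6
  exact h6

theorem len_cont (hg : MetricOn ((P : Set E3))ᶜ g) (hv : ContDiff ℝ ∞ v) {x : E3} (hx : x ∉ P) :
    ContinuousAt (fun y => len g y (grad v y)) x := by
  unfold len
  refine ContinuousAt.sqrt ?_
  unfold ev
  refine tendsto_finsetSum _ fun i _ => tendsto_finsetSum _ fun j _ => ?_
  exact (((cd_inv hg hx i j).continuousAt).mul (cont_pd hv i).continuousAt).mul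
    (cont_pd hv j).continuousAt

/-- The area bound. -/
theorem area (hg : MetricOn ((P : Set E3))ᶜ g) (hv : Dt P v a b) {B : ℝ}
    (h : ∀ ν : ℝ, 0 < ν → ∫ x, ∑ i, pd i v x * (volDen g x * XX g v ν x i) ≤ B) :
    ∫ x, ar g v x ≤ B := by
  set K := KK P a b with hK
  have hKc : IsCompact K := cpt_KK P a b
  have hKm : MeasurableSet K := hKc.measurableSet
  have hKP : ∀ x ∈ K, x ∉ P := fun x hx => KK_P hv.ha hx
  have hvol : IntegrableOn (volDen g) K := ContinuousOn.integrableOn_compact hKc fun x hx =>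
    (cd_vol hg (hKP x hx)).continuousAt.continuousWithinAt
  have har : IntegrableOn (ar g v) K := ContinuousOn.integrableOn_compact hKc fun x hx =>
    (cont_len hg hv.sm (hKP x hx)).continuousWithinAt
  have e1 : ∫ x in K, ar g v x = ∫ x, ar g v x := by
    refine setIntegral_eq_integral_of_forall_compl_eq_zero fun x hx => ?_
    unfold ar
    rw [grad_zero hv hx, len_zero, zero_mul]
  have hC : 0 ≤ ∫ x in K, volDen g x := integral_nonneg fun x => Real.sqrt_nonneg _
  refine le_of_forall_pos_le_add fun η hη => ?_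
  set C := ∫ x in K, volDen g x with hCd
  set ν : ℝ := η / (C + 1) with hν
  have hν0 : 0 < ν := by positivity
  have h1 := h ν hν0
  have e2 : ∫ x in K, ∑ i, pd i v x * (volDen g x * XX g v ν x i)
      = ∫ x, ∑ i, pd i v x * (volDen g x * XX g v ν x i) := by
    refine setIntegral_eq_integral_of_forall_compl_eq_zero fun x hx => ?_
    refine Finset.sum_eq_zero fun i _ => ?_
    rw [pd_zero hv hx, zero_mul]
  have hXf := XX_field hg hv hν0
  have i1 : IntegrableOn (fun x => ∑ i, pd i v x * (volDen g x * XX g v ν x i)) K := by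
    refine ContinuousOn.integrableOn_compact hKc (Continuous.continuousOn ?_)
    exact continuous_finsetSum _ fun i _ => (cont_pd hv.sm i).mul (Y_smooth hg hXf i).continuous
  have e3 : (∫ x in K, ar g v x) - ν * C ≤ ∫ x in K, ∑ i, pd i v x
      * (volDen g x * XX g v ν x i) := by
    rw [hCd, ← integral_const_mul, ← integral_sub har (hvol.const_mul ν)]
    refine setIntegral_mono_on (har.sub (hvol.const_mul ν)) i1 hKm fun x hx => ?_
    have h2 := XX_pair hg hν0 (v := v) (hKP x hx)
    have h3 : 0 ≤ volDen g x := Real.sqrt_nonneg _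
    have h4 : ∑ i, pd i v x * (volDen g x * XX g v ν x i)
        = volDen g x * ∑ i, grad v x i * XX g v ν x i := by
      rw [Finset.mul_sum]
      refine Finset.sum_congr rfl fun i _ => ?_
      unfold grad
      ring
    rw [h4]
    unfold ar
    nlinarith [mul_le_mul_of_nonneg_left h2 h3]
  have h5 : ν * C ≤ η := by
    rw [hν, div_mul_eq_mul_div, div_le_iff₀ (by linarith)]
    nlinarith
  rw [← e1]
  linarith

/-- From the area to the energy with the exponent `1 + ε`. -/
theorem energy (hg : MetricOn ((P : Set E3))ᶜ g) (hv : Dt P v a b) {B B' : ℝ} (hB : 0 < B)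
    (hBB : B < B') (h : ∫ x, ar g v x ≤ B) :
    ∃ ε₁ : ℝ, 0 < ε₁ ∧ ∀ ε : ℝ, 0 < ε → ε ≤ ε₁ →
      ∫ x, len g x (grad v x) ^ (1 + ε) * volDen g x ≤ B' := by
  set K := KK P a b with hK
  have hKc : IsCompact K := cpt_KK P a b
  have hKP : ∀ x ∈ K, x ∉ P := fun x hx => KK_P hv.ha hx
  have har : Integrable (ar g v) := by
    have h1 : IntegrableOn (ar g v) K := ContinuousOn.integrableOn_compact hKc fun x hx =>
      (cont_len hg hv.sm (hKP x hx)).continuousWithinAt
    rw [← integrable_indicator_iff hKc.measurableSet] at h1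
    have e : K.indicator (ar g v) = ar g v := by
      funext x
      by_cases hx : x ∈ K
      · rw [Set.indicator_of_mem hx]
      · rw [Set.indicator_of_notMem hx]
        unfold ar
        rw [grad_zero hv hx, len_zero, zero_mul]
    rwa [e] at h1
  obtain ⟨M₀, hM₀⟩ := hKc.exists_bound_of_continuousOn (f := fun x => len g x (grad v x))
    fun x hx => (len_cont hg hv.sm (hKP x hx)).continuousWithinAt
  set M := max M₀ (Real.exp 1) with hM
  have hMe : Real.exp 1 ≤ M := le_max_right _ _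
  have hM0 : 0 < M := (Real.exp_pos 1).trans_le hMe
  have hM1 : 1 ≤ M := by
    have := Real.add_one_le_exp (1 : ℝ)
    linarith
  have hlog : 1 ≤ Real.log M := by
    rw [Real.le_log_iff_exp_le hM0]
    exact hMe
  have hL : ∀ x, len g x (grad v x) ≤ M := by
    intro x
    by_cases hx : x ∈ K
    · have h1 := hM₀ x hx
      rw [Real.norm_eq_abs] at h1
      exact ((le_abs_self _).trans h1).trans (le_max_left _ _)
    · rw [grad_zero hv hx, len_zero]
      exact hM0.le
  have hr : 1 < B' / B := (one_lt_div hB).2 hBB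
  refine ⟨Real.log (B' / B) / Real.log M, div_pos (Real.log_pos hr) (by linarith),
    fun ε hε hε1 => ?_⟩
  have hMε : M ^ ε ≤ B' / B := by
    calc M ^ ε ≤ M ^ (Real.log (B' / B) / Real.log M) :=
          Real.rpow_le_rpow_of_exponent_le hM1 hε1
      _ = B' / B := by
          rw [Real.rpow_def_of_pos hM0, mul_div_cancel₀ _ (by linarith : Real.log M ≠ 0),
            Real.exp_log (by linarith)]
  have h1 : ∫ x, len g x (grad v x) ^ (1 + ε) * volDen g x ≤ ∫ x, M ^ ε * ar g v x := by
    refine integral_mono_of_nonneg (Eventually.of_forall fun x =>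
      mul_nonneg (Real.rpow_nonneg (Real.sqrt_nonneg _) _) (Real.sqrt_nonneg _))
      (har.const_mul _) (Eventually.of_forall fun x => ?_)
    have h2 : 0 ≤ len g x (grad v x) := Real.sqrt_nonneg _
    have h3 : 0 ≤ volDen g x := Real.sqrt_nonneg _
    have h4 : len g x (grad v x) ^ (1 + ε)
        = len g x (grad v x) * len g x (grad v x) ^ ε :=
      Real.rpow_one_add' h2 (by linarith)
    have h5 : len g x (grad v x) ^ ε ≤ M ^ ε := Real.rpow_le_rpow h2 (hL x) hε.le
    simp only
    rw [h4]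
    unfold ar
    calc len g x (grad v x) * len g x (grad v x) ^ ε * volDen g x
        ≤ len g x (grad v x) * M ^ ε * volDen g x :=
          mul_le_mul_of_nonneg_right (mul_le_mul_of_nonneg_left h5 h2) h3
      _ = M ^ ε * (len g x (grad v x) * volDen g x) := by ring
  rw [integral_const_mul] at h1
  have h6 : M ^ ε * ∫ x, ar g v x ≤ B' / B * B :=
    mul_le_mul hMε h (integral_nonneg fun x => ar_nonneg g v x) (by positivity)
  rw [div_mul_cancel₀ _ hB.ne'] at h6
  exact h1.trans h6

end Field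

end MMOLE

open MMOLE in
open Pool.Agent.PFlow.PB (bmp Jm rad_le) in
/-- MOLE. -/
theorem t_MOLE : Stmt_MOLE := by
  intro P g U A τ hg hU hA0 hA hτ
  have hQ : ∀ p ∈ P, ∀ᶠ r in 𝓝[>] (0 : ℝ),
      (∀ x : E3, 0 < ‖x - p‖ → ‖x - p‖ < r → x ∈ U) ∨ (∀ x : E3, ‖x - p‖ < r → x ∉ U) := by
    intro p hp
    obtain ⟨_, c, hc, h⟩ := hU.points p hp
    filter_upwards [Ioo_mem_nhdsGT hc] with r hr
    rcases h with h | h
    · exact Or.inl fun x h1 h2 => h x h1 (h2.trans hr.2)
    · exact Or.inr fun x h2 => h x (h2.trans hr.2)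
  obtain ⟨a₀, ha₀, hpos⟩ := (((Filter.eventually_all_finset P).2 hQ).and
    self_mem_nhdsWithin).exists
  replace hpos : 0 < a₀ := hpos
  obtain ⟨b₀, hb₀⟩ := hU.bounded
  set a : ℝ := a₀ / 2 with ha
  set b : ℝ := max b₀ 0 + 1 with hb
  have ha0 : 0 < a := by positivity
  have hb0 : 0 < b := by
    have := le_max_right b₀ 0
    linarith
  set s : ℝ := τ / (2 * (A + 1)) with hs
  have hs0 : 0 < s := by positivity
  obtain ⟨δ, hδ, hcmp⟩ := compare hg (cpt_KK P (a / 2) (b + 1))
    (fun x hx => KK_P (half_pos ha0) hx) hs0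
  obtain ⟨n, hn⟩ := exists_nat_one_div_lt (lt_min (half_pos ha0) hδ)
  have hn1 : 1 / ((n : ℝ) + 1) ≤ a / 2 := hn.le.trans (min_le_left _ _)
  have hn2 : 1 / ((n : ℝ) + 1) ≤ δ := hn.le.trans (min_le_right _ _)
  have hUm : MeasurableSet U := hU.isOpen.measurableSet
  set v : E3 → ℝ := Jm n (U.indicator 1) with hv
  have tri : ∀ x y p : E3, ‖y - p‖ ≤ ‖x - p‖ + ‖x - y‖ := fun x y p => by
    calc ‖y - p‖ = ‖(x - p) - (x - y)‖ := by congr 1; abel
      _ ≤ ‖x - p‖ + ‖x - y‖ := norm_sub_le _ _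
  have hone : ∀ p : E3, (∀ x : E3, 0 < ‖x - p‖ → ‖x - p‖ < a₀ → x ∈ U) →
      ∀ x : E3, ‖x - p‖ ≤ a → v x = 1 := by
    intro p hp x hx
    refine Jm_one n ?_
    have hne : ∀ᵐ y : E3 ∂volume, y ≠ p := by
      rw [ae_iff]
      simp
    filter_upwards [hne] with y hy hxy
    have h1 := tri x y p
    have h2 : y ∈ U := hp y (norm_pos_iff.2 (sub_ne_zero.2 hy)) (by linarith)
    rw [Set.indicator_of_mem h2]
    rfl
  have hzero : ∀ p : E3, (∀ x : E3, ‖x - p‖ < a₀ → x ∉ U) →
      ∀ x : E3, ‖x - p‖ ≤ a → v x = 0 := by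
    intro p hp x hx
    refine Jm_zero n fun y hxy => ?_
    have h1 := tri x y p
    exact Set.indicator_of_notMem (hp y (by linarith)) _
  have hvD : Dt P v a b := by
    refine ⟨v_smooth n hUm, ha0, fun x hx => ?_, fun p hp x hx => ?_⟩
    · refine Jm_zero n fun y hxy => ?_
      refine Set.indicator_of_notMem (fun hy => ?_) _
      have h1 := hb₀ y hy
      have h2 := rad_le n
      have h3 : ‖x‖ ≤ ‖y‖ + ‖x - y‖ := by
        calc ‖x‖ = ‖y + (x - y)‖ := by congr 1; abel
          _ ≤ ‖y‖ + ‖x - y‖ := norm_add_le _ _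
      have h4 := le_max_left b₀ 0
      linarith
    · have hpp : ‖p - p‖ ≤ a := by
        rw [sub_self, norm_zero]
        exact ha0.le
      rcases ha₀ p hp with h | h
      · rw [hone p h x hx, hone p h p hpp]
      · rw [hzero p h x hx, hzero p h p hpp]
  have hB : ∫ x, Pool.Agent.PFlow.PERAaux.ar g v x ≤ (1 + s) * A := by
    refine area hg hvD fun ν hν => ?_
    exact MMOLE.main hg hU.isOpen hA0 hA hvD hs0 hcmp hn2 hn1 (XX_field hg hvD hν)
      (fun x hx => XX_zero hvD ν hx)
  have hB2 : (1 + s) * A ≤ A + τ / 2 := by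
    have h1 : s * A ≤ τ / 2 := by
      rw [hs, div_mul_eq_mul_div, div_le_iff₀ (by positivity)]
      nlinarith
    linarith
  obtain ⟨ε₁, hε₁, hε⟩ := energy hg hvD (B := A + τ / 2) (B' := A + τ) (by positivity)
    (by linarith) (hB.trans hB2)
  refine ⟨v, a, b, ε₁, ha0, hb0, hε₁, hvD.sm, fun x => Jm_bd n U x, hvD.far, hvD.near, ?_, hε⟩
  intro p hp hc
  have hpp : ‖p - p‖ ≤ a := by
    rw [sub_self, norm_zero]
    exact ha0.le
  rcases ha₀ p hp with h | h
  · exact hone p h p hpp
  · exfalso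
    obtain ⟨c, hc0, hc1⟩ := hc
    set r : ℝ := min c a₀ / 2 with hr
    have hr0 : 0 < r := half_pos (lt_min hc0 hpos)
    have hn3 : ‖(p + EuclideanSpace.single (0 : Fin 3) r) - p‖ = r := by
      rw [add_sub_cancel_left, PiLp.norm_single, Real.norm_of_nonneg hr0.le]
    have h1 : min c a₀ ≤ c := min_le_left _ _
    have h2 : min c a₀ ≤ a₀ := min_le_right _ _
    have h3 : 0 < min c a₀ := lt_min hc0 hpos
    exact h _ (by rw [hn3]; linarith) (hc1 _ (by rw [hn3]; exact hr0) (by rw [hn3]; linarith))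

end Pool.Agent.PFU
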