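import Pool.Agent.PFU.StmtsP

/-!
NOISLT: no islands, from the comparison principle (several inner balls).
-/

open MeasureTheory Filter Topology Set
open scoped ContDiff

namespace Pool.Agent.PFU

open Pool.Agent.PenroseSph Pool.Agent.PFlow Pool.Agent.PFlow.PB

open NoIslAux in
/-- **NOISLT.** No islands, from the comparison principle. -/
theorem t_NOISLT : Stmt_NOISLT := by
  intro ε a b T g h v hε hε1 _ hg hv hsub hsup D hD hDc hDs x hx
  obtain ⟨α, hα, hexp⟩ := PB.kEXP ε g h (b / 2) hε hε1 hg
  -- the frontier
  have hne : (frontier D).Nonempty := by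
    rw [nonempty_frontier_iff]
    refine ⟨⟨x, hx⟩, ?_⟩
    intro h1
    rw [h1, closure_univ] at hDc
    exact noncompact_univ E3 hDc
  have hfc : IsCompact (frontier D) :=
    hDc.of_isClosed_subset isClosed_frontier frontier_subset_closure
  have hff : frontier (closure D) ⊆ frontier D := frontier_closure_subset
  have hxK : x ∈ closure D := subset_closure hx
  have hKb : closure D ⊆ {x : E3 | ‖x‖ ≤ b} := fun y hy => (hDs hy).1.le
  have hKa : closure D ⊆ {x : E3 | ∀ p ∈ T, a ≤ ‖x - p‖} :=
    fun y hy p hp => ((hDs hy).2 p hp).le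
  have hcont : Continuous fun y : E3 => Real.exp (α * y 0) := by
    have h1 : Continuous fun y : E3 => y 0 :=
      (EuclideanSpace.proj (0 : Fin 3) : E3 →L[ℝ] ℝ).continuous
    exact (continuous_const.mul h1).rexp
  obtain ⟨E, hE⟩ := hDc.exists_bound_of_continuousOn hcont.continuousOn
  have hE' : ∀ y ∈ closure D, Real.exp (α * y 0) ≤ E := fun y hy =>
    (le_abs_self _).trans (hE y hy)
  have hP : 0 ≤ E - Real.exp (α * x 0) := sub_nonneg.mpr (hE' x hxK)
  constructor
  · obtain ⟨y, hy, hy'⟩ := hfc.exists_isMaxOn hne hv.continuousOn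
    refine ⟨y, hy, limit hP fun τ hτ => ?_⟩
    have h1 := hsup (closure D) hDc hKa
      (fun z => (v y + τ * E) + (-τ) * Real.exp (α * z 0))
      (fun z _ => (contDiff_const.add (contDiff_e (-τ) α)).contDiffAt)
      (fun z _ => by
        obtain ⟨h2, h3, -⟩ := hexp z (-τ) (neg_ne_zero.mpr hτ.ne')
        obtain ⟨h4, h5⟩ := opN_const_add ε g h (v y + τ * E)
          (fun z => (-τ) * Real.exp (α * z 0)) z
        refine ⟨by rw [h4]; exact h2, ?_⟩
        rw [h5]
        by_contra h6
        push Not at h6
        nlinarith)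
      (fun z hz => by
        have h2 : v z ≤ v y := hy' (hff hz)
        have h3 := hE' z (frontier_subset_closure (hff hz))
        nlinarith) x hxK
    simp only at h1
    linarith
  · obtain ⟨y, hy, hy'⟩ := hfc.exists_isMinOn hne hv.continuousOn
    refine ⟨y, hy, limit hP fun τ hτ => ?_⟩
    have h1 := hsub (closure D) hDc hKb
      (fun z => (v y - τ * E) + τ * Real.exp (α * z 0))
      (fun z _ => (contDiff_const.add (contDiff_e τ α)).contDiffAt)
      (fun z _ => by
        obtain ⟨h2, h3, -⟩ := hexp z τ hτ.ne'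
        obtain ⟨h4, h5⟩ := opN_const_add ε g h (v y - τ * E)
          (fun z => τ * Real.exp (α * z 0)) z
        refine ⟨by rw [h4]; exact h2, ?_⟩
        rw [h5]
        exact (mul_pos_iff_of_pos_left hτ).mp h3)
      (fun z hz => by
        have h2 : v y ≤ v z := hy' (hff hz)
        have h3 := hE' z (frontier_subset_closure (hff hz))
        nlinarith) x hxK
    simp only at h1
    linarith

end Pool.Agent.PFU
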