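import Pool.Agent.PFU.StmtsL
import Pool.Agent.PFT.TRN
import Pool.Agent.PFlow.E.LOC

/-!
# NZT: lower bound of the solution near an end `p ∈ T`
-/

open MeasureTheory Filter Topology
open scoped ContDiff ENNReal

set_option autoImplicit false

namespace Pool.Agent.PFU

open Pool.Agent.PenroseSph Pool.Agent.PFlow Pool.Agent.PFT

namespace NZT

/-- translation of the gradient -/
theorem gradS (F : E3 → ℝ) (p x : E3) :
    grad (fun y => F (y + p)) x = grad F (x + p) := by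
  funext i
  exact TRN.pdS F p i x

/-- translation of the second derivatives -/
theorem hess2S (F : E3 → ℝ) (p x : E3) :
    hess2 (fun y => F (y + p)) x = hess2 F (x + p) := by
  funext i j
  show pd i (pd j (fun y => F (y + p))) x = pd i (pd j F) (x + p)
  rw [TRN.pdS', TRN.pdS]

/-- translation of the covariant Hessian -/
theorem cHessS (g : TensorField) (p x : E3) (q : Cov) (N : Bil) :
    cHess (shift p g) x q N = cHess g (x + p) q N := by
  unfold cHess
  simp only [TRN.christoffelS]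

/-- translation of the operator -/
theorem opNS (ε : ℝ) (g h : TensorField) (F : E3 → ℝ) (p x : E3) :
    opN ε (shift p g) (shift p h) (fun y => F (y + p)) x = opN ε g h F (x + p) := by
  unfold opN
  rw [gradS, hess2S, cHessS]
  rfl

/-- translation of the operator, other direction -/
theorem opNS' (ε : ℝ) (g h : TensorField) (f : E3 → ℝ) (p x : E3) :
    opN ε g h (fun y => f (y - p)) x = opN ε (shift p g) (shift p h) f (x - p) := by
  have h1 := opNS ε g h (fun y => f (y - p)) p (x - p)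
  simp only [add_sub_cancel_right, sub_add_cancel] at h1
  exact h1.symm

/-- translation of the gradient, other direction -/
theorem gradS' (f : E3 → ℝ) (p x : E3) :
    grad (fun y => f (y - p)) x = grad f (x - p) := by
  have h1 := gradS (fun y => f (y - p)) p (x - p)
  simp only [add_sub_cancel_right, sub_add_cancel] at h1
  exact h1.symm

/-- translation of smooth functions -/
theorem cdS' (f : E3 → ℝ) (p x : E3) (h : ContDiffAt ℝ 2 f (x - p)) :
    ContDiffAt ℝ 2 (fun y => f (y - p)) x :=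
  ContDiffAt.comp x h (contDiffAt_id.sub contDiffAt_const)

/-- the shell about `p` is compact -/
theorem isCompact_shell (p : E3) (a b : ℝ) :
    IsCompact {x : E3 | a ≤ ‖x - p‖ ∧ ‖x - p‖ ≤ b} := by
  have h1 := (Loc.isCompact_shell a b).image (continuous_id.add continuous_const :
    Continuous (fun x : E3 => x + p))
  convert h1 using 1
  ext x
  constructor
  · intro hx
    exact ⟨x - p, hx, sub_add_cancel x p⟩
  · rintro ⟨y, hy, rfl⟩
    simpa using hy

/-- the boundary of the shell about `p` -/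
theorem frontier_shell (p : E3) (a b : ℝ) (x : E3)
    (hx : x ∈ frontier {x : E3 | a ≤ ‖x - p‖ ∧ ‖x - p‖ ≤ b}) : ‖x - p‖ = a ∨ ‖x - p‖ = b := by
  have h1 : {x : E3 | a ≤ ‖x - p‖ ∧ ‖x - p‖ ≤ b}
      = (Homeomorph.addRight (-p)) ⁻¹' {x : E3 | a ≤ ‖x‖ ∧ ‖x‖ ≤ b} := by
    ext y
    simp [sub_eq_add_neg]
  rw [h1, ← Homeomorph.preimage_frontier] at hx
  have h2 := Loc.frontier_shell a b _ hx
  simpa [sub_eq_add_neg] using h2

end NZT

open Loc in
theorem t_NZT (hPHI : Stmt_PHI) (hBARR : Stmt_BARR) : Stmt_NZT := by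
  intro F ε C hF hε hε1 hC
  have hρ := hF.rho_pos
  have hρ1 := hF.rho_le
  set ρ₁ := F.rho with hρdef
  have hp3 := pe_ge ε hε hε1
  set p := pe ε with hp
  set q := 2 ^ (-p) * Real.exp (-((C + 1) * Real.pi / (2 * ε))) with hq
  set E := Real.exp ((C + 1) * Real.pi / (2 * ε)) with hE
  have hC1 : 0 ≤ C + 1 := by linarith
  have hp0 : 0 < p := by linarith
  have hq0 : 0 < q := by positivity
  have hFp : Facts p q E (phiB ε 1 (C + 1)) := facts hPHI ε (C + 1) 1 hε hε1 hC1 (Or.inl rfl)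
  set Φp := phiB ε 1 (C + 1) with hΦp
  have hΦ0 : 0 < Φp 0 := hFp.pos hp0 hq0 le_rfl
  have hd : 0 < Φp (ρ₁ / 2) - Φp ρ₁ := by
    linarith [hFp.anti (ρ₁ / 2) ρ₁ (by linarith) (by linarith)]
  have hrad := hF.rad_ge
  refine ⟨min (1 / 2) ((Φp (ρ₁ / 2) - Φp ρ₁) / (2 * Φp 0)), 2 / ρ₁ + 2 + F.rad,
    lt_min (by norm_num) (by positivity), by positivity, ?_⟩
  intro R hR η g h u G M hη0 hη hg hbar sol e he x hx
  have h2ρ : 0 < 2 / ρ₁ := by positivity
  have hR2 : 2 ≤ R := by linarith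
  have hR0 : 0 < R := by linarith
  have hRρ : 2 / ρ₁ ≤ R := by linarith
  have hRrad : F.rad ≤ R := by linarith
  have hR1 : 1 / R ≤ ρ₁ / 2 := by
    rw [div_le_div_iff₀ hR0 (by norm_num)]
    rw [div_le_iff₀ hρ] at hRρ
    linarith
  have hη1 : η ≤ 1 / 2 := by
    have h1 : R ^ (-p - 1) ≤ R ^ (-(1 : ℝ)) :=
      Real.rpow_le_rpow_of_exponent_le (by linarith) (by linarith)
    rw [Real.rpow_neg_one] at h1
    have h2 : R⁻¹ ≤ 2⁻¹ := inv_anti₀ (by norm_num) hR2
    have h3 : (2 : ℝ)⁻¹ ≤ 1 / 2 := by norm_num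
    linarith
  set r₀ : ℝ := 1 / R / 2 with hr₀
  have hr₀0 : 0 < r₀ := by positivity
  have hr₀ρ : r₀ < ρ₁ / 2 := by
    rw [hr₀]
    have : 0 < 1 / R := by positivity
    linarith
  by_cases hxr : ‖x - e‖ ≤ r₀
  · have h1 := sol.inner e he x hxr
    refine (min_le_left _ _).trans ?_
    linarith
  push Not at hxr
  have hD : 0 < Φp r₀ - Φp ρ₁ := by
    linarith [hFp.anti r₀ ρ₁ hr₀0.le (by linarith)]
  set k : ℝ := (1 - η) / (Φp r₀ - Φp ρ₁) with hk
  have hk0 : 0 < k := div_pos (by linarith) hD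
  have hbarr : ∀ y : E3, r₀ ≤ ‖y - e‖ → ‖y - e‖ ≤ ρ₁ →
      ContDiffAt ℝ 2 (fun z : E3 => Φp ‖z‖) (y - e) ∧ grad (fun z : E3 => Φp ‖z‖) (y - e) ≠ 0 ∧
      0 < opN ε (shift e g) (shift e h) (fun z : E3 => k * (Φp ‖z‖ - Φp ρ₁)) (y - e) := by
    intro y hy1 hy2
    have hy0 : y - e ≠ 0 := norm_pos_iff.mp (lt_of_lt_of_le hr₀0 hy1)
    have h8 : 1 / (8 * R) ≤ ‖y - e‖ := by
      refine le_trans ?_ hy1
      rw [hr₀, div_div]
      exact one_div_le_one_div_of_le (by positivity) (by linarith)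
    have hB := hBARR ε C (shift e g) (shift e h) (y - e) hε hε1 hC.le hy0
      (hg.posDef (y - e + e) (Set.mem_univ _))
      (hbar.inn ε hε (by linarith) e he (y - e) h8 hy2).1 1 (Or.inl rfl)
    exact ⟨hB.1, hB.2.1, hB.2.2.1 rfl k (Φp ρ₁) hk0⟩
  have hcmp := sol.sub {x : E3 | r₀ ≤ ‖x - e‖ ∧ ‖x - e‖ ≤ ρ₁} (NZT.isCompact_shell _ _ _)
    (fun y hy => by
      have h1 : ‖y‖ ≤ ‖y - e‖ + ‖e‖ := by
        have := norm_add_le (y - e) e
        rwa [sub_add_cancel] at this
      have h2 := hF.inside e he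
      have h3 := hy.2
      show ‖y‖ ≤ R
      linarith)
    (fun y => k * (Φp ‖y - e‖ - Φp ρ₁))
    (by
      intro y hy
      obtain ⟨hB1, -, -⟩ := hbarr y hy.1 hy.2
      exact contDiffAt_const.mul ((NZT.cdS' (fun z : E3 => Φp ‖z‖) e y hB1).sub
        contDiffAt_const))
    (by
      intro y hy
      obtain ⟨hB1, hB2, hB3⟩ := hbarr y hy.1 hy.2
      constructor
      · have h3 := NZT.gradS' (fun z : E3 => k * (Φp ‖z‖ - Φp ρ₁)) e y
        have h3' : grad (fun y : E3 => k * (Φp ‖y - e‖ - Φp ρ₁)) y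
            = grad (fun z : E3 => k * (Φp ‖z‖ - Φp ρ₁)) (y - e) := h3
        rw [h3']
        have h1 := grad_affine (fun y : E3 => Φp ‖y‖) (y - e) k (-(k * Φp ρ₁))
          (hB1.differentiableAt (by norm_num)) hk0.ne' hB2
        have h2 : (fun y : E3 => k * (Φp ‖y‖ - Φp ρ₁))
            = fun y => k * Φp ‖y‖ + -(k * Φp ρ₁) := by
          funext y
          ring
        rw [h2]
        exact h1
      · have h3 := NZT.opNS' ε g h (fun z : E3 => k * (Φp ‖z‖ - Φp ρ₁)) e y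
        have h3' : opN ε g h (fun y : E3 => k * (Φp ‖y - e‖ - Φp ρ₁)) y
            = opN ε (shift e g) (shift e h) (fun z : E3 => k * (Φp ‖z‖ - Φp ρ₁)) (y - e) := h3
        rw [h3']
        exact hB3)
    (by
      intro y hy
      rcases NZT.frontier_shell _ _ _ y hy with h1 | h1
      · show k * (Φp ‖y - e‖ - Φp ρ₁) ≤ u y
        rw [h1]
        have h2 := sol.inner e he y (by rw [h1])
        refine le_trans (le_of_eq ?_) h2
        rw [hk]
        field_simp
      · show k * (Φp ‖y - e‖ - Φp ρ₁) ≤ u y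
        rw [h1, sub_self, mul_zero]
        exact sol.nonneg y)
    x ⟨hxr.le, by linarith⟩
  refine (min_le_right _ _).trans (le_trans ?_ hcmp)
  have h1 : Φp (ρ₁ / 2) ≤ Φp ‖x - e‖ := hFp.anti' (norm_nonneg _) hx
  have h2 : Φp r₀ ≤ Φp 0 := hFp.anti' le_rfl hr₀0.le
  have h3 : 0 < Φp ρ₁ := hFp.pos hp0 hq0 hρ.le
  have h4 : 1 / (2 * Φp 0) ≤ k := by
    rw [hk, div_le_div_iff₀ (by positivity) hD]
    nlinarith
  calc (Φp (ρ₁ / 2) - Φp ρ₁) / (2 * Φp 0) = 1 / (2 * Φp 0) * (Φp (ρ₁ / 2) - Φp ρ₁) := by ring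
    _ ≤ k * (Φp ‖x - e‖ - Φp ρ₁) := mul_le_mul h4 (by linarith) hd.le hk0.le

end Pool.Agent.PFU
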