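import Pool.Agent.PFU.StmtsD
import Pool.Agent.PFT.MODD
import Pool.Agent.PFT.SHELLD
import Pool.Agent.PFT.UBAR
import Pool.Agent.PFT.CHI

/-!
# OUTB: the modified data far out
-/

open MeasureTheory Filter Topology
open scoped ContDiff ENNReal

namespace Pool.Agent.PFU

open Pool.Agent.PenroseSph Pool.Agent.PFlow Pool.Agent.PFT

namespace OUTBm

/-- Far out the points of the frame are at distance at least `ρ/2`. -/
lemma dist_ge {F : Fr} (hF : F.Ok) {μ : ℝ} (hμ : 2 * μ ≤ F.rho) {x : E3}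
    (hx : F.rad - μ < ‖x‖) {p : E3} (hp : p ∈ F.T) : F.rho / 2 ≤ ‖x - p‖ := by
  have h1 := hF.inside p hp
  have h2 : ‖x‖ ≤ ‖x - p‖ + ‖p‖ := by
    calc ‖x‖ = ‖(x - p) + p‖ := by rw [sub_add_cancel]
      _ ≤ ‖x - p‖ + ‖p‖ := norm_add_le _ _
  linarith

/-- Far out the cut-offs are `1`. -/
lemma cut_one {F : Fr} (hF : F.Ok) {μ : ℝ} (hμ0 : 0 < μ) (hμ : 2 * μ ≤ F.rho) {R : ℝ}
    (hR : 1 / F.rho ≤ R) {x : E3} (hx : F.rad - μ < ‖x‖) :
    chiN F.T R x = 1 ∧ chiN F.T (R / 2) x = 1 ∧ kin R x = 1 ∧ kin (R / 2) x = 1 := by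
  have hρ := hF.rho_pos
  have hR0 : 0 < R := lt_of_lt_of_le (by positivity) hR
  have h1 : 1 ≤ R * F.rho := by
    rwa [div_le_iff₀ hρ] at hR
  have hx2 : 1 / 2 ≤ ‖x‖ := by
    have := hF.rad_ge
    have := hF.rho_le
    linarith
  have hRρ : R * F.rho ≤ R := by
    have := hF.rho_le
    nlinarith
  have e1 : 1 / (16 * R) ≤ F.rho / 2 := by
    rw [div_le_iff₀ (by positivity)]
    nlinarith
  have e2 : 1 / (16 * (R / 2)) ≤ F.rho / 2 := by
    rw [div_le_iff₀ (by positivity)]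
    nlinarith
  have e3 : 1 / (16 * R) ≤ ‖x‖ := by
    rw [div_le_iff₀ (by positivity)]
    nlinarith
  have e4 : 1 / (16 * (R / 2)) ≤ ‖x‖ := by
    rw [div_le_iff₀ (by positivity)]
    nlinarith
  refine ⟨CHIAux.chiN_one hR0 fun p hp => e1.trans (dist_ge hF hμ hx hp),
    CHIAux.chiN_one (by positivity) fun p hp => e2.trans (dist_ge hF hμ hx hp),
    PFlow.CUTM.kin_one KAP hR0 e3, PFlow.CUTM.kin_one KAP (by positivity) e4⟩

lemma trg_loc {g g' : TensorField} {x : E3} (hg : g x = g' x) (B : Bil) :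
    trg g x B = trg g' x B := by
  simp only [trg, hg]

lemma hat_loc {η : ℝ} {g g' h h' : TensorField} {x : E3} (hg : g x = g' x) (hh : h x = h' x) :
    hat η g h x = hat η g' h' x := by
  unfold hat
  rw [trg_loc hg, hh]

lemma eEta_loc {η : ℝ} {g g' h h' : TensorField} {x : E3} (hg : g =ᶠ[𝓝 x] g')
    (hh : h =ᶠ[𝓝 x] h') : eEta η g h x = eEta η g' h' x := by
  have h1 : (fun y => trg g y (h y)) =ᶠ[𝓝 x] fun y => trg g' y (h' y) := by
    filter_upwards [hg, hh] with y h1 h2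
    rw [trg_loc h1, h2]
  have h2 : grad (fun y => trg g y (h y)) x = grad (fun y => trg g' y (h' y)) x := by
    funext i
    exact MODL.pd_ev h1 i
  unfold eEta
  rw [h2, trg_loc hg.self_of_nhds, hh.self_of_nhds]
  simp only [len, hg.self_of_nhds]

lemma linR_loc {g g' : TensorField} {x : E3} (hg : g =ᶠ[𝓝 x] g') : linR g x = linR g' x := by
  unfold linR
  refine Finset.sum_congr rfl fun i _ => Finset.sum_congr rfl fun j _ => ?_
  rw [ MODL.pd_ev (MODL.pd_ev' (MODL.comp_ev hg i j) j) i,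
    MODL.pd_ev (MODL.pd_ev' (MODL.comp_ev hg i i) j) j]

lemma decay_loc {C r : ℝ} {g g' : TensorField} (hr : 1 ≤ r)
    (hg : ∀ x : E3, r ≤ ‖x‖ → g =ᶠ[𝓝 x] g') (H : DecayFrom C 1 g' 0) : DecayFrom C r g 0 := by
  intro x hx i j
  obtain ⟨h1, h2, h3, h4, h5⟩ := H x (hr.trans hx) i j
  have e := MODL.comp_ev (hg x hx) i j
  refine ⟨?_, fun k => ?_, fun k l => ?_, h4, h5⟩
  · rw [(hg x hx).self_of_nhds]
    exact h1
  · rw [ MODL.pd_ev e k]
    exact h2 k
  · rw [ MODL.pd_ev (MODL.pd_ev' e l) k]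
    exact h3 k l

lemma mass_loc {g g' : TensorField} {l : ℝ} (hl : 0 < l)
    (hg : ∀ x : E3, ‖x‖ = l → g =ᶠ[𝓝 x] g') : massIntegral g l = massIntegral g' l := by
  unfold massIntegral
  congr 1
  refine integral_congr_ae (Eventually.of_forall fun θ => ?_)
  have hθ : ‖(θ : E3)‖ = 1 := by simp
  have hn : ‖l • (θ : E3)‖ = l := by
    rw [norm_smul, hθ, mul_one, Real.norm_eq_abs, abs_of_pos hl]
  have key : ∀ k i j : Fin 3, pd k (fun y => g y i j) (l • (θ : E3)) =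
      pd k (fun y => g' y i j) (l • (θ : E3)) := fun k i j =>
    MODL.pd_ev (MODL.comp_ev (hg _ hn) i j) k
  simp only [key]

end OUTBm

open OUTBm in
/-- **(OUTB)** The modified data far out. -/
theorem t_OUTB (_hCUTT : Stmt_CUTT) : Stmt_OUTB := by
  intro F μ g₀ k₀ e₀ hF hμ0 hμ hTE hPS he₀c he₀0 he₀s hDEF
  obtain ⟨C₁, hC₁, hd1, -, -, -⟩ := AFD g₀ k₀ hTE
  obtain ⟨C₂, l₂, hC₂, hl₂, hM⟩ := t_MODD t_SHELLD g₀ k₀ e₀ F.rad hTE hPS he₀c he₀0 hF.rad_ge
    he₀s hDEF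
  obtain ⟨C₃, hC₃, hba⟩ := BARA C₂
  have hρ := hF.rho_pos
  have hrad := hF.rad_ge
  obtain ⟨C, hCdef⟩ : ∃ C : ℝ, C = C₁ + C₂ + 2 * C₃ + 4 := ⟨_, rfl⟩
  have hC : 0 < C := by linarith
  have hC₁C : C₁ ≤ C := by linarith
  have hC₂C : C₂ ≤ C := by linarith
  refine ⟨C, max l₂ (max (8 / F.rho) (8 * F.rad)), hC, hl₂.trans (le_max_left _ _),
    fun g k hgM hkT hPSP hloc => ⟨?_, ?_⟩⟩
  · intro x hx i j
    obtain ⟨-, -, -, h4, -⟩ := hd1 x (hrad.trans hx) i j
    rw [← (hloc x (by linarith)).2]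
    refine h4.trans ?_
    gcongr
  intro l R η hl hR hη
  have hl1 : l₂ ≤ l := (le_max_left _ _).trans hl
  have hl2 : 8 / F.rho ≤ l := ((le_max_left _ _).trans (le_max_right _ _)).trans hl
  have hl3 : 8 * F.rad ≤ l := ((le_max_right _ _).trans (le_max_right _ _)).trans hl
  have hl0 : 0 < l := by linarith
  have hRρ : 1 / F.rho ≤ R := by
    have : 1 / F.rho ≤ 8 / F.rho := by gcongr; norm_num
    linarith
  have M := hM l R η hl1 hR hη
  -- locality
  have hopen : IsOpen {x : E3 | F.rad - μ < ‖x‖} := isOpen_lt continuous_const continuous_norm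
  have hev : ∀ x : E3, F.rad ≤ ‖x‖ → ∀ᶠ y in 𝓝 x, F.rad - μ < ‖y‖ := fun x hx =>
    hopen.mem_nhds (show F.rad - μ < ‖x‖ by linarith)
  have hG : ∀ x : E3, F.rad - μ < ‖x‖ → modGT F.T l R g x = modG l R g₀ x := by
    intro x hx
    obtain ⟨c1, c2, c3, c4⟩ := cut_one hF hμ0 hμ hRρ hx
    unfold modGT modG
    rw [c1, c3, (hloc x hx).1]
  have hH : ∀ x : E3, F.rad - μ < ‖x‖ → modHT F.T η l R g k x = modH η l R g₀ k₀ x := by
    intro x hx
    obtain ⟨c1, c2, c3, c4⟩ := cut_one hF hμ0 hμ hRρ hx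
    unfold modHT modH
    rw [c2, c4, hat_loc (hloc x hx).1.symm (hloc x hx).2.symm]
  have eG : ∀ x : E3, F.rad ≤ ‖x‖ → modGT F.T l R g =ᶠ[𝓝 x] modG l R g₀ := fun x hx =>
    (hev x hx).mono hG
  have eH : ∀ x : E3, F.rad ≤ ‖x‖ → modHT F.T η l R g k =ᶠ[𝓝 x] modH η l R g₀ k₀ := fun x hx =>
    (hev x hx).mono hH
  have eg : ∀ x : E3, F.rad ≤ ‖x‖ → g =ᶠ[𝓝 x] g₀ := fun x hx =>
    (hev x hx).mono fun y hy => (hloc y hy).1.symm
  have ek : ∀ x : E3, F.rad ≤ ‖x‖ → k =ᶠ[𝓝 x] k₀ := fun x hx =>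
    (hev x hx).mono fun y hy => (hloc y hy).2.symm
  refine ⟨?_, ?_, ?_, ?_, ?_, ?_, ?_, ?_, ?_⟩
  · -- barriers
    intro ε hε hε1 x hx
    have h1 : 1 ≤ ‖x‖ := hrad.trans hx
    constructor
    · unfold BarAt
      rw [UBARm.barB_congr (eG x hx) (eH x hx).self_of_nhds]
      refine (M.barrier ε hε hε1 x ?_).trans ?_
      · have : 1 / (8 * R) ≤ 1 := by
          rw [div_le_one (by linarith)]
          linarith
        linarith
      · gcongr
    · unfold BarAt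
      rw [UBARm.barB_congr (h' := 0) (eG x hx) rfl]
      have b1 := hba (modG l R g₀) 0 x h1
        (fun i j => (M.metric.smooth i j).contDiffAt Filter.univ_mem)
        (M.metric.posDef x (Set.mem_univ _)) (by simp [Matrix.IsSymm])
        (M.elliptic x h1) (fun i j => by
          obtain ⟨a1, a2, -, a4, -⟩ := M.decay1 x h1 i j
          exact ⟨a1, a2, a4⟩) ε hε hε1
      have b2 := MODL.model_out hε hε1 h1
      have b3 : C₃ / ‖x‖ ^ 2 ≤ 2 * C₃ / (1 + ‖x‖ ^ 2) := by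
        rw [div_le_div_iff₀ (by positivity) (by positivity)]
        have : 1 ≤ ‖x‖ ^ 2 := one_le_pow₀ h1
        nlinarith
      calc |barB ε (modG l R g₀) 0 x - bE ε ‖x‖|
          ≤ |barB ε (modG l R g₀) 0 x - 2 / ‖x‖| + |2 / ‖x‖ - bE ε ‖x‖| := by
            refine le_trans (le_of_eq ?_) (abs_add_le _ _)
            congr 1
            ring
        _ ≤ 2 * C₃ / (1 + ‖x‖ ^ 2) + 4 / (1 + ‖x‖ ^ 2) := add_le_add (b1.trans b3) b2
        _ = (2 * C₃ + 4) / (1 + ‖x‖ ^ 2) := by ring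
        _ ≤ C / (1 + ‖x‖ ^ 2) := by
          gcongr
          linarith
  · exact MODL.decay_mono (decay_loc hrad eG M.decay1) hC₂C
  · intro x hx i j
    rw [(eH x hx).self_of_nhds]
    refine (M.hsmall x (hrad.trans hx) i j).trans ?_
    gcongr
  · intro x hx v
    obtain ⟨a1, a2⟩ := M.elliptic x (hrad.trans hx) v
    have s0 : 0 ≤ ∑ i, v i ^ 2 := Finset.sum_nonneg fun i _ => sq_nonneg _
    have e0 : 0 ≤ ev (modG l R g₀ x) v v := by
      by_contra hneg
      have : C₂ * ev (modG l R g₀ x) v v < 0 := mul_neg_of_pos_of_neg hC₂ (not_le.mp hneg)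
      linarith
    rw [(eG x hx).self_of_nhds]
    exact ⟨a1.trans (mul_le_mul_of_nonneg_right hC₂C e0),
      a2.trans (mul_le_mul_of_nonneg_right hC₂C s0)⟩
  · -- shell
    intro x hx1 hx2
    have hx : F.rad ≤ ‖x‖ := by linarith
    have h1 := M.shell x hx1 hx2
    obtain ⟨c1, c2, c3, c4⟩ := cut_one hF hμ0 hμ hRρ (show F.rad - μ < ‖x‖ by linarith)
    have h2 : e₀ x = 0 := he₀s x hx
    simp only [c4, h2, zero_add, one_mul] at h1
    simp only [c2, one_mul]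
    rw [ MODL.surplus_at (eG x hx) (eH x hx), eEta_loc (eg x hx) (ek x hx),
      (ek x hx).self_of_nhds]
    have h4 : 0 ≤ msz (k₀ x) / l + msz (k₀ x) ^ 2 := by
      have : 0 ≤ msz (k₀ x) := Real.sqrt_nonneg _
      positivity
    have h5 : C₂ * (msz (k₀ x) / l + msz (k₀ x) ^ 2) ≤ C * (msz (k₀ x) / l + msz (k₀ x) ^ 2) :=
      mul_le_mul_of_nonneg_right hC₂C h4
    linarith
  · intro x hx1 hx2
    have hx : F.rad ≤ ‖x‖ := by linarith
    have h1 := M.trans x hx1 hx2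
    rw [ MODL.surplus_at (eG x hx) (eH x hx), linR_loc (eG x hx)]
    have h2 : volDen (modGT F.T l R g) x = volDen (modG l R g₀) x := by
      unfold volDen
      rw [(eG x hx).self_of_nhds]
    rw [h2]
    refine h1.trans ?_
    gcongr
  · intro x hx1 hx2
    have hx : F.rad ≤ ‖x‖ := by linarith
    rw [linR_loc (eG x hx)]
    refine (M.trans_sup x hx1 hx2).trans ?_
    gcongr
  · intro x hx1
    have hx : F.rad ≤ ‖x‖ := by linarith
    rw [ MODL.surplus_at (eG x hx) (eH x hx)]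
    exact M.flat_surplus x hx1
  · -- mass
    have h1 : ∫ x in cAnn l (2 * l), linR (modGT F.T l R g) x =
        ∫ x in cAnn l (2 * l), linR (modG l R g₀) x := by
      refine setIntegral_congr_fun ?_ fun x hx => ?_
      · exact ((isClosed_le continuous_const continuous_norm).inter
          (isClosed_le continuous_norm continuous_const)).measurableSet
      · exact linR_loc (eG x (by have := hx.1; linarith))
    have h2 : massIntegral g l = massIntegral g₀ l :=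
      mass_loc hl0 fun x hx => eg x (by linarith)
    rw [h1, h2]
    exact M.mass

end Pool.Agent.PFU
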