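import Pool.Agent.PFU.StmtsP

/-!
# Module PAIRC: comparison of the solutions without drift and with a nonnegative drift
-/

open MeasureTheory Filter Topology Set
open scoped ContDiff RealInnerProductSpace

namespace Pool.Agent.PFU

open Pool.Agent.PenroseSph Pool.Agent.PFlow Pool.Agent.PFT Pool.Agent.PFlow.PB

namespace PAIRCAux

open OrderP Step

theorem psi_abs (t : ℝ) : |deriv Psi t| ≤ 1 := by
  rw [deriv_Psi, abs_of_nonneg (psi_nonneg _)]
  exact psi_le_one _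

theorem main {A : E3 → E3 → E3} {B : E3 → E3 → ℝ} {c L r : ℝ} {Θ θ : E3 → ℝ} {T' t₀ : ℝ}
    (hP : PCoef A B c L r) (hp : Pen Θ θ T' t₀ r) (hB : ∀ x ξ, 0 ≤ B x ξ)
    {u₀ : E3 → ℝ} {G₀ : E3 → E3} {u : E3 → ℝ} {G : E3 → E3}
    (hs₀ : WSol A (fun _ _ => 0) Θ θ u₀ G₀) (hs : WSol A B Θ θ u G) : ∀ᵐ x, u₀ x ≤ u x := by
  obtain ⟨hu₀, he₀⟩ := hs₀
  obtain ⟨hu, he⟩ := hs
  have ma₀ := memA hP hu₀.memG
  have ma := memA hP hu.memG
  have mB := memB hP hu.memG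
  have mT₀ := memTheta hp hu₀.memf
  have mT := memTheta hp hu.memf
  have mθ := memtheta hp
  have hw := pAPI1.sub _ _ _ _ hu₀ hu
  have hH := pCHAIN.lip _ _ Psi 1 hw contDiff_Psi (Psi_nonpos le_rfl) psi_abs
  simp only [deriv_Psi] at hH
  have e₀ := he₀ _ _ hH
  have e := he _ _ hH
  have i₀ := int_inner ma₀ hH.memG
  have i := int_inner ma hH.memG
  have mz : MemLp (fun _ : E3 => (0 : ℝ)) 2 := MemLp.zero'
  have mb₀ : MemLp (fun x => (0 : ℝ) - Θ x * u₀ x + θ x) 2 := (mz.sub mT₀).add mθ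
  have mb : MemLp (fun x => B x (G x) - Θ x * u x + θ x) 2 := (mB.sub mT).add mθ
  have j₀ := int_mul _ _ mb₀ hH.memf
  have j := int_mul _ _ mb hH.memf
  have hz : ∫ x, ((⟪A x (G₀ x), psi (u₀ x - u x) • (G₀ x - G x)⟫
      - ⟪A x (G x), psi (u₀ x - u x) • (G₀ x - G x)⟫)
      - (((0 : ℝ) - Θ x * u₀ x + θ x) * Psi (u₀ x - u x)
        - (B x (G x) - Θ x * u x + θ x) * Psi (u₀ x - u x))) = 0 := by
    have s1 : ∫ x, (⟪A x (G₀ x), psi (u₀ x - u x) • (G₀ x - G x)⟫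
        - ⟪A x (G x), psi (u₀ x - u x) • (G₀ x - G x)⟫)
        = ∫ x, (((0 : ℝ) - Θ x * u₀ x + θ x) * Psi (u₀ x - u x)
          - (B x (G x) - Θ x * u x + θ x) * Psi (u₀ x - u x)) := by
      rw [integral_sub i₀ i, integral_sub j₀ j, e₀, e]
    refine (integral_sub (i₀.sub i) (j₀.sub j)).trans ?_
    simp only [Pi.sub_apply]
    rw [s1, sub_self]
  have hpt : ∀ x, 0 ≤ c * ‖G₀ x - G x‖ ^ 2 * psi (u₀ x - u x) ∧
      0 ≤ Θ x * ((u₀ x - u x) * Psi (u₀ x - u x)) ∧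
      c * ‖G₀ x - G x‖ ^ 2 * psi (u₀ x - u x) + Θ x * ((u₀ x - u x) * Psi (u₀ x - u x))
        ≤ (⟪A x (G₀ x), psi (u₀ x - u x) • (G₀ x - G x)⟫
      - ⟪A x (G x), psi (u₀ x - u x) • (G₀ x - G x)⟫)
      - (((0 : ℝ) - Θ x * u₀ x + θ x) * Psi (u₀ x - u x)
        - (B x (G x) - Θ x * u x + θ x) * Psi (u₀ x - u x)) := by
    intro x
    have h0 : 0 ≤ psi (u₀ x - u x) := psi_nonneg _
    have h1 : 0 ≤ Psi (u₀ x - u x) := by
      rcases le_or_gt (u₀ x - u x) 0 with h | h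
      · rw [Psi_nonpos h]
      · exact (Psi_pos h).le
    have h2 : 0 ≤ (u₀ x - u x) * Psi (u₀ x - u x) := by
      rcases le_or_gt (u₀ x - u x) 0 with h | h
      · rw [Psi_nonpos h, mul_zero]
      · exact mul_nonneg h.le h1
    have h3 := (hp.nonneg x).trans (hp.le x)
    have h4 := hP.mono x (G₀ x) (G x)
    have h5 : ⟪A x (G₀ x), psi (u₀ x - u x) • (G₀ x - G x)⟫
        - ⟪A x (G x), psi (u₀ x - u x) • (G₀ x - G x)⟫
        = psi (u₀ x - u x) * ⟪A x (G₀ x) - A x (G x), G₀ x - G x⟫ := by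
      rw [← inner_sub_left, real_inner_smul_right]
    have h6 : psi (u₀ x - u x) * (c * ‖G₀ x - G x‖ ^ 2)
        ≤ psi (u₀ x - u x) * ⟪A x (G₀ x) - A x (G x), G₀ x - G x⟫ :=
      mul_le_mul_of_nonneg_left h4 h0
    have h7 : 0 ≤ B x (G x) * Psi (u₀ x - u x) := mul_nonneg (hB _ _) h1
    refine ⟨mul_nonneg (mul_nonneg hP.c_pos.le (sq_nonneg _)) h0, mul_nonneg h3 h2, ?_⟩
    rw [h5]
    nlinarith
  have hnn : 0 ≤ᵐ[volume] fun x => (⟪A x (G₀ x), psi (u₀ x - u x) • (G₀ x - G x)⟫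
      - ⟪A x (G x), psi (u₀ x - u x) • (G₀ x - G x)⟫)
      - (((0 : ℝ) - Θ x * u₀ x + θ x) * Psi (u₀ x - u x)
        - (B x (G x) - Θ x * u x + θ x) * Psi (u₀ x - u x)) :=
    Eventually.of_forall fun x => by
      have := hpt x
      change (0 : ℝ) ≤ _
      linarith [this.1, this.2.1, this.2.2]
  have hae := (integral_eq_zero_iff_of_nonneg_ae hnn ((i₀.sub i).sub (j₀.sub j))).mp hz
  have hgrad : ∀ᵐ x, psi (u₀ x - u x) • (G₀ x - G x) = 0 := by
    filter_upwards [hae] with x hx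
    change _ = (0 : ℝ) at hx
    obtain ⟨a1, a2, a3⟩ := hpt x
    have a4 : c * ‖G₀ x - G x‖ ^ 2 * psi (u₀ x - u x) = 0 := by linarith
    rcases mul_eq_zero.mp a4 with a5 | a5
    · rcases mul_eq_zero.mp a5 with a6 | a6
      · exact absurd a6 hP.c_pos.ne'
      · have : G₀ x - G x = 0 := norm_eq_zero.mp (pow_eq_zero_iff (two_ne_zero) |>.mp a6)
        rw [this, smul_zero]
    · rw [a5, zero_smul]
  have hout : ∀ᵐ x, r ≤ ‖x‖ → Psi (u₀ x - u x) = 0 := by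
    filter_upwards [hae] with x hx hr
    change _ = (0 : ℝ) at hx
    obtain ⟨a1, a2, a3⟩ := hpt x
    have a4 : Θ x * ((u₀ x - u x) * Psi (u₀ x - u x)) = 0 := by linarith
    rcases le_or_gt (u₀ x - u x) 0 with h | h
    · exact Psi_nonpos h
    · exfalso
      have b1 : 0 < Θ x := hp.t₀_pos.trans_le (hp.outΘ x hr)
      have b2 : 0 < Θ x * ((u₀ x - u x) * Psi (u₀ x - u x)) :=
        mul_pos b1 (mul_pos h (Psi_pos h))
      linarith
  have hr := hP.r_pos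
  obtain ⟨h, hh⟩ : ∃ h : E3, ‖h‖ = 2 * r :=
    ⟨(2 * r) • ee 0, by
      rw [norm_smul, Real.norm_eq_abs, abs_of_pos (by linarith)]
      simp [ee]⟩
  have htr := pAPI2.trans _ _ hH h
  have hsqv : sqv (fun x => psi (u₀ x - u x) • (G₀ x - G x)) = 0 := by
    unfold sqv
    rw [integral_congr_ae (g := fun _ => (0 : ℝ))]
    · simp
    · filter_upwards [hgrad] with x hx
      rw [hx]
      simp
  rw [hsqv, mul_zero] at htr
  have hsh := (pAPI2.shift _ _ hH h).memf.sub hH.memf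
  have hshift : ∀ᵐ x, Psi (u₀ (x + h) - u (x + h)) - Psi (u₀ x - u x) = 0 := by
    have k1 : ∫ x, (Psi (u₀ (x + h) - u (x + h)) - Psi (u₀ x - u x)) ^ 2 = 0 :=
      le_antisymm htr (integral_nonneg fun x => sq_nonneg _)
    have k2 := (integral_eq_zero_iff_of_nonneg_ae
      (Eventually.of_forall fun x => sq_nonneg _) hsh.integrable_sq).mp k1
    filter_upwards [k2] with x hx
    exact pow_eq_zero_iff (two_ne_zero) |>.mp hx
  have houth : ∀ᵐ x, r ≤ ‖x + h‖ → Psi (u₀ (x + h) - u (x + h)) = 0 :=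
    (measurePreserving_add_right volume h).quasiMeasurePreserving.ae hout
  filter_upwards [hout, houth, hshift] with x k1 k2 k3
  have hf : Psi (u₀ x - u x) = 0 := by
    by_cases hx : r ≤ ‖x‖
    · exact k1 hx
    · rw [not_le] at hx
      have : r ≤ ‖x + h‖ := by
        have := norm_sub_le (x + h) x
        rw [add_sub_cancel_left, hh] at this
        linarith
      rw [k2 this] at k3
      linarith
  by_contra hcon
  rw [not_le] at hcon
  have := Psi_pos (sub_pos.mpr hcon)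
  linarith

end PAIRCAux

theorem t_PAIRC : Stmt_PAIRC := by
  intro A B c L r Θ θ T' t₀ hP hp hB u₀ G₀ u G hs₀ hs
  exact PAIRCAux.main hP hp hB hs₀ hs

end Pool.Agent.PFU
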