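import Pool.Agent.PFU.StmtsF

/-!
# PART: decomposition into sets which do not split
-/

set_option autoImplicit false

open MeasureTheory Filter Topology
open scoped ContDiff ENNReal

namespace Pool.Agent.PFU

open Pool.Agent.PenroseSph Pool.Agent.PFlow Pool.Agent.PFT

theorem t_PART (hSUBA : Stmt_SUBA) : Stmt_PART := by
  classical
  intro P T g hT hne hg
  induction hn : T.card using Nat.strong_induction_on generalizing T with
  | _ n ih =>
    by_cases hU : Unsplit P T g
    · refine ⟨{T}, Finset.singleton_nonempty T, ?_, ?_, ?_, ?_⟩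
      · intro S hS
        rw [Finset.mem_singleton] at hS
        rw [hS]
        exact ⟨hne, Finset.Subset.refl T, hU⟩
      · intro S hS S' hS' hSS
        rw [Finset.mem_singleton] at hS hS'
        exact absurd (hS.trans hS'.symm) hSS
      · intro p hp
        exact ⟨T, Finset.mem_singleton_self T, hp⟩
      · rw [Finset.sum_singleton]
    · unfold Unsplit at hU
      push Not at hU
      obtain ⟨S, hST, hSne, hSneT, hle⟩ := hU
      have hsub : T \ S ⊆ T := Finset.sdiff_subset
      have hss : S ⊂ T := Finset.ssubset_iff_subset_ne.2 ⟨hST, hSneT⟩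
      have hdne : (T \ S).Nonempty := by
        rw [Finset.sdiff_nonempty]
        exact hss.2
      have hcard : S.card < n := by
        rw [← hn]
        exact Finset.card_lt_card hss
      have hcard' : (T \ S).card < n := by
        rw [← hn]
        exact Finset.card_lt_card (Finset.sdiff_ssubset hST hSne)
      have heq : minAreaOf P T g = minAreaOf P S g + minAreaOf P (T \ S) g := by
        refine le_antisymm ?_ hle
        have h := hSUBA P S (T \ S) g (hST.trans hT) (hsub.trans hT) hg
        rwa [Finset.union_sdiff_of_subset hST] at h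
      obtain ⟨A, hAne, hA1, hA2, hA3, hA4⟩ := ih S.card hcard S (hST.trans hT) hSne rfl
      obtain ⟨B, hBne, hB1, hB2, hB3, hB4⟩ :=
        ih (T \ S).card hcard' (T \ S) (hsub.trans hT) hdne rfl
      have hcross : ∀ X ∈ A, ∀ Y ∈ B, Disjoint X Y := by
        intro X hX Y hY
        refine Finset.disjoint_left.2 fun p hpX hpY => ?_
        have h1 := (hA1 X hX).2.1 hpX
        have h2 := (hB1 Y hY).2.1 hpY
        rw [Finset.mem_sdiff] at h2
        exact h2.2 h1
      have hAB : Disjoint A B := by
        refine Finset.disjoint_left.2 fun X hXA hXB => ?_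
        obtain ⟨p, hp⟩ := (hA1 X hXA).1
        exact Finset.disjoint_left.1 (hcross X hXA X hXB) hp hp
      refine ⟨A ∪ B, hAne.mono Finset.subset_union_left, ?_, ?_, ?_, ?_⟩
      · intro X hX
        rw [Finset.mem_union] at hX
        rcases hX with hX | hX
        · exact ⟨(hA1 X hX).1, (hA1 X hX).2.1.trans hST, (hA1 X hX).2.2⟩
        · exact ⟨(hB1 X hX).1, (hB1 X hX).2.1.trans hsub, (hB1 X hX).2.2⟩
      · intro X hX Y hY hXY
        rw [Finset.mem_union] at hX hY
        rcases hX with hX | hX <;> rcases hY with hY | hY
        · exact hA2 X hX Y hY hXY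
        · exact hcross X hX Y hY
        · exact (hcross Y hY X hX).symm
        · exact hB2 X hX Y hY hXY
      · intro p hp
        by_cases hpS : p ∈ S
        · obtain ⟨X, hX, hpX⟩ := hA3 p hpS
          exact ⟨X, Finset.mem_union_left B hX, hpX⟩
        · obtain ⟨X, hX, hpX⟩ := hB3 p (Finset.mem_sdiff.2 ⟨hp, hpS⟩)
          exact ⟨X, Finset.mem_union_right A hX, hpX⟩
      · rw [Finset.sum_union hAB, ← hA4, ← hB4]
        exact heq

end Pool.Agent.PFU
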