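import Pool.Agent.PFU.StmtsP

/-!
# PENT: the penalty with several inner balls
-/

open MeasureTheory Filter Topology Set
open scoped ContDiff RealInnerProductSpace

namespace Pool.Agent.PFU

open Pool.Agent.PenroseSph Pool.Agent.PFlow Pool.Agent.PFT Pool.Agent.PFlow.PB

namespace PENTAux

theorem penI_cont (T : Finset E3) (a : ℝ) : Continuous (penI T a) := by
  unfold penI
  exact continuous_finsetSum _ fun p _ =>
    (Close.chi1_cont a).comp (continuous_id.sub continuous_const)

theorem penI_nonneg (T : Finset E3) (a : ℝ) (x : E3) : 0 ≤ penI T a x :=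
  Finset.sum_nonneg fun _ _ => Close.chi1_nonneg _ _

theorem penI_le (T : Finset E3) (a : ℝ) (x : E3) : penI T a x ≤ T.card := by
  have h : penI T a x ≤ ∑ _p ∈ T, (1 : ℝ) := Finset.sum_le_sum fun _ _ => Close.chi1_le _ _
  simpa using h

theorem penI_out {T : Finset E3} {a : ℝ} (ha : 0 < a) {x : E3} (h : ∀ p ∈ T, a ≤ ‖x - p‖) :
    penI T a x = 0 :=
  Finset.sum_eq_zero fun p hp => Close.chi1_out ha (h p hp)

end PENTAux

open PENTAux in
theorem t_PENT : Stmt_PENT := by
  intro T a b lam hP hl
  have ha := hP.pos
  obtain ⟨p₀, hp₀⟩ := hP.ne
  have hb : 16 * a < b := by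
    have h1 := hP.inside p₀ hp₀
    have h2 := norm_nonneg p₀
    linarith
  have hb0 : 0 < b := by linarith
  have hfar : ∀ x : E3, 3 * b / 2 ≤ ‖x‖ → ∀ p ∈ T, a ≤ ‖x - p‖ := by
    intro x hx p hp
    have h1 := hP.inside p hp
    have h2 := norm_sub_norm_le x p
    linarith
  exact
    { pen :=
      { contΘ := continuous_const.mul ((penI_cont T a).add (Close.chi2_cont b))
        contθ := continuous_const.mul (penI_cont T a)
        nonneg := fun x => mul_nonneg hl.le (penI_nonneg T a x)
        le := fun x => by
          have := mul_nonneg hl.le (Close.chi2_nonneg b x)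
          show lam * penI T a x ≤ lam * (penI T a x + Close.chi2 b x)
          linarith
        bdd := fun x => by
          have h1 := penI_le T a x
          have h2 := Close.chi2_le b x
          exact mul_le_mul_of_nonneg_left (add_le_add h1 h2) hl.le
        t₀_pos := hl
        outΘ := fun x hx => by
          have h2 := Close.chi2_out hb0 hx
          have := mul_nonneg hl.le (penI_nonneg T a x)
          show lam ≤ lam * (penI T a x + Close.chi2 b x)
          rw [h2]
          linarith
        outθ := fun x hx => by
          show lam * penI T a x = 0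
          rw [penI_out ha (hfar x hx), mul_zero] }
      mid := fun x hx hx2 => by
        show lam * (penI T a x + Close.chi2 b x) = 0
        rw [penI_out ha hx, Close.chi2_in hb0 hx2]
        ring
      inn := fun x hx => by
        show lam * (penI T a x + Close.chi2 b x) = lam * penI T a x
        rw [Close.chi2_in hb0 hx, add_zero]
      out := fun x hx => by
        show lam * penI T a x = 0
        rw [penI_out ha hx, mul_zero] }

end Pool.Agent.PFU
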