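import Pool.Agent.PFU.StmtsA
import Pool.Agent.PFT.PERC

/-!
# (PERD) The mean area of the level sets, cut in thin regions of the ends outside `T`
-/

open MeasureTheory Filter Topology
open scoped ContDiff ENNReal

namespace Pool.Agent.PFU

open Pool.Agent.PenroseSph Pool.Agent.PFlow Pool.Agent.PFT Pool.Agent.PFT.PERCm

namespace PERDm

/-! ### The parameters -/

lemma exists_eps {P : Finset E3} {ρ : ℝ} (hρ : 0 < ρ) :
    ∃ ε : ℝ, 0 < ε ∧ ε < ρ ∧ ∀ p ∈ P, ∀ p' ∈ P, p ≠ p' → 2 * ε < ‖p - p'‖ := by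
  have h3 : ∀ᶠ e in 𝓝[>] (0 : ℝ), ∀ p ∈ P, ∀ p' ∈ P, p ≠ p' → 2 * e < ‖p - p'‖ := by
    rw [Filter.eventually_all_finset]
    intro p hp
    rw [Filter.eventually_all_finset]
    intro p' hp'
    by_cases h : p = p'
    · exact Filter.Eventually.of_forall fun e h' => absurd h h'
    · have h4 : 0 < ‖p - p'‖ := norm_pos_iff.2 (sub_ne_zero.2 h)
      filter_upwards [small (half_pos h4)] with e he _
      linarith
  obtain ⟨ε, ⟨h5, h7⟩, h8⟩ := (((small hρ).and h3).and self_mem_nhdsWithin).exists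
  exact ⟨ε, h8, h5, h7⟩

lemma balls {P T : Finset E3} {ρ r ε : ℝ} (hρ : 0 < ρ) (hεr : ε < ρ)
    (e1 : ∀ p ∈ P, ‖p‖ + ρ < r) (e2 : ∀ p ∈ T, ∀ p' ∈ P, p ≠ p' → 2 * ρ < ‖p - p'‖)
    (e3 : ∀ p ∈ P, ∀ p' ∈ P, p ≠ p' → 2 * ε < ‖p - p'‖) {a : E3 → ℝ} (haq : ∀ p ∈ T, a p = ρ)
    (ha : ∀ p ∈ P, p ∉ T → 0 < a p ∧ a p ≤ ε) : Balls P a r where
  pos p hp := by
    by_cases h : p ∈ T
    · rw [haq p h]; exact hρ
    · exact (ha p hp h).1
  inside p hp := by
    by_cases h : p ∈ T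
    · rw [haq p h]; exact e1 p hp
    · have h1 := (ha p hp h).2
      have h2 := e1 p hp
      linarith
  disj p hp p' hp' hne := by
    by_cases h : p ∈ T
    · have h2 := e2 p h p' hp' hne
      rw [haq p h]
      by_cases h' : p' ∈ T
      · rw [haq p' h']
        linarith
      · have h1 := (ha p' hp' h').2
        linarith
    · have h1 := (ha p hp h).2
      by_cases h' : p' ∈ T
      · have h2 := e2 p' h' p hp hne.symm
        rw [haq p' h']
        rw [norm_sub_rev] at h2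
        linarith
      · have h3 := (ha p' hp' h').2
        have h4 := e3 p hp p' hp' hne
        linarith

lemma ann_sub {P T : Finset E3} {ρ r ε : ℝ} (hεr : ε < ρ)
    (e1 : ∀ p ∈ P, ‖p‖ + ρ < r) (e2 : ∀ p ∈ T, ∀ p' ∈ P, p ≠ p' → 2 * ρ < ‖p - p'‖)
    (e3 : ∀ p ∈ P, ∀ p' ∈ P, p ≠ p' → 2 * ε < ‖p - p'‖) {a : E3 → ℝ} (haq : ∀ p ∈ T, a p = ρ)
    (ha : ∀ p ∈ P, p ∉ T → a p ≤ ε) {p : E3} (hp : p ∈ P) (hpq : p ∉ T) {s u : ℝ}
    (hs : a p ≤ s) (hu : u ≤ ε) : {x : E3 | s ≤ ‖x - p‖ ∧ ‖x - p‖ ≤ u} ⊆ kset P a r := by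
  rintro x ⟨hx1, hx2⟩
  refine ⟨?_, fun p' hp' => ?_⟩
  · have h1 := e1 p hp
    have h2 : ‖x‖ ≤ ‖x - p‖ + ‖p‖ := by
      have := norm_add_le (x - p) p
      simpa using this
    linarith
  · have tri : ‖p - p'‖ ≤ ‖x - p‖ + ‖x - p'‖ := by
      have h3 : p - p' = (x - p') - (x - p) := by abel
      rw [h3]
      have := norm_sub_le (x - p') (x - p)
      linarith
    by_cases h : p' ∈ T
    · rw [haq p' h]
      have h5 : p' ≠ p := fun e => hpq (e ▸ h)
      have := e2 p' h p hp h5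
      rw [norm_sub_rev] at this
      linarith
    · by_cases h' : p' = p
      · rw [h']
        linarith
      · have h4 := e3 p hp p' hp' (fun e => h' e.symm)
        have h5 := ha p' hp' h
        linarith

/-! ### The key inequality -/

lemma key (hPERG : Stmt_PERG) (hLAC : Stmt_LAC) {P T S : Finset E3} {g : TensorField}
    {σ : E3 → ℝ} {ρ r ε τ δ D : ℝ} {M : ℕ} {C : E3 → ℝ} {Tm : ℕ → ℝ}
    (hTP : T ⊆ P) (hST : S ⊆ T) (hg : MetricOn ((P : Set E3))ᶜ g) (hρ : 0 < ρ) (hερ : ε < ρ)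
    (e1 : ∀ p ∈ P, ‖p‖ + ρ < r) (e2 : ∀ p ∈ T, ∀ p' ∈ P, p ≠ p' → 2 * ρ < ‖p - p'‖)
    (e3 : ∀ p ∈ P, ∀ p' ∈ P, p ≠ p' → 2 * ε < ‖p - p'‖) (hτε : τ ≤ ε) (hδ : 0 < δ)
    (hC : ∀ p, 0 < C p)
    (hD : ∀ t : ℝ, 0 < t → ∀ (p x : E3) (l : Fin 3), |pd l (xi t p) x| ≤ D / t)
    (hcut : ∀ p ∈ P, p ∉ T → ∀ (t : ℝ) (w : E3 → ℝ) (G : E3 → Cov) (ξ : E3 → ℝ),
      0 < t → 2 * t ≤ τ → L1Approx {x : E3 | t / 2 ≤ ‖x - p‖ ∧ ‖x - p‖ ≤ 2 * t} w G →
      ContDiff ℝ ∞ ξ → (∀ x l, |pd l ξ x| ≤ D / t) →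
      ∃ c : ℝ, ∫ x in {x : E3 | t ≤ ‖x - p‖ ∧ ‖x - p‖ ≤ 2 * t},
            |w x - c| * (len g x (grad ξ x) * volDen g x)
          ≤ C p * ∫ x in {x : E3 | t / 2 ≤ ‖x - p‖ ∧ ‖x - p‖ ≤ 2 * t},
              len g x (G x) * volDen g x)
    (hM : 1 ≤ M) (hT : ∀ j, 0 < Tm j) (hTτ : ∀ j < M, 2 * Tm j ≤ τ) (hTδ : ∀ j < M, δ ≤ Tm j / 2)
    (hTd : ∀ i < M, ∀ j < M, i < j → 2 * Tm j < Tm i / 2)
    {w : E3 → ℝ} {G : E3 → Cov} {s₀ s₁ η : ℝ}
    (hw : L1Approx (kset P (aDelT T ρ δ) r) w G) (hout : ∀ x : E3, ‖x‖ = r → s₁ < w x)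
    (hin : ∀ p ∈ S, ∀ x : E3, ‖x - p‖ = ρ → w x < s₀)
    (hσ : ∀ p ∈ T, p ∉ S → ∀ x : E3, ‖x - p‖ = ρ → w x = σ p)
    {A : ℝ} (hA : 0 ≤ A) (hL : LowerP P S g A)
    (hη : 0 < η) (hη4 : 4 * η < s₁ - s₀) :
    A * (s₁ - s₀ - 4 * η) ≤ (1 + (∑ p ∈ P, C p) / M) *
      ∫ x in kset P (aDelT T ρ δ) r ∩ {x | s₀ ≤ w x ∧ w x ≤ s₁}, len g x (G x) * volDen g x := by
  classical
  have hM' : (0 : ℝ) < M := by exact_mod_cast hM
  obtain ⟨K, hK⟩ : ∃ K, K = kset P (aDelT T ρ δ) r := ⟨_, rfl⟩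
  have hδε : δ ≤ ε := by
    have h1 := hTδ 0 (by omega)
    have h2 := hTτ 0 (by omega)
    have h3 := hT 0
    linarith
  have haq : ∀ p ∈ T, aDelT T ρ δ p = ρ := fun p hp => by simp [aDelT, hp]
  have hane : ∀ p, p ∉ T → aDelT T ρ δ p = δ := fun p hp => by simp [aDelT, hp]
  have hB : Balls P (aDelT T ρ δ) r := balls hρ hερ e1 e2 e3 haq
    (fun p _ hpq => by rw [hane p hpq]; exact ⟨hδ, hδε⟩)
  have hKc : IsCompact K := by rw [hK]; exact PERBm.isCompact_kset _ _ _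
  have hKm : MeasurableSet K := hKc.isClosed.measurableSet
  have hK0 : K ⊆ ((P : Set E3))ᶜ := by
    intro x hx hxP
    rw [hK] at hx
    have h1 := hx.2 x hxP
    rw [sub_self, norm_zero] at h1
    exact absurd (hB.pos x hxP) (not_lt.2 h1)
  have hannK : ∀ p ∈ P, p ∉ T → ∀ t : ℝ, δ ≤ t / 2 → 2 * t ≤ τ →
      {x : E3 | t / 2 ≤ ‖x - p‖ ∧ ‖x - p‖ ≤ 2 * t} ⊆ K := by
    intro p hp hpq t ht1 ht2
    rw [hK]
    refine ann_sub hερ e1 e2 e3 haq (fun p' _ hpq' => by rw [hane p' hpq']; exact hδε) hp hpq ?_ ?_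
    · rw [hane p hpq]; exact ht1
    · exact ht2.trans hτε
  rw [← hK] at hw ⊢
  -- the clamped function
  obtain ⟨φ, hφ⟩ : ∃ φ, φ = bmp s₀ s₁ η := ⟨_, rfl⟩
  obtain ⟨Ψ, hΨ⟩ : ∃ Ψ, Ψ = clamp s₀ s₁ η := ⟨_, rfl⟩
  obtain ⟨v, hv⟩ : ∃ v : E3 → ℝ, v = fun x => Ψ (w x) := ⟨_, rfl⟩
  obtain ⟨H, hH⟩ : ∃ H : E3 → Cov, H = fun x l => φ (w x) * G x l := ⟨_, rfl⟩
  have hvL : L1Approx K v H := by
    rw [hv, hH]
    exact l1_comp hLAC hKc hw (by rw [hΨ]; exact clamp_smooth _ _ _)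
      (fun s => by rw [hΨ, hφ]; exact clamp_deriv _ _ _ _)
  obtain ⟨Λ, hΛ⟩ : ∃ Λ, Λ = clamp s₀ s₁ η s₁ := ⟨_, rfl⟩
  have hΛ1 : s₁ - s₀ - 2 * η ≤ Λ := by rw [hΛ]; exact clamp_total hη (by linarith)
  -- the density
  obtain ⟨F, hF⟩ : ∃ F : E3 → ℝ, F = fun x => len g x (H x) * volDen g x := ⟨_, rfl⟩
  have hF0 : ∀ x, 0 ≤ F x := fun x => by
    rw [hF]
    exact mul_nonneg (PERm.len_nonneg g x _) (PERm.volDen_nonneg g x)
  have hFi : IntegrableOn F K := by
    rw [hF]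
    exact PERBm.integrable_len hg hKc hK0 hvL.int
  obtain ⟨I, hI⟩ : ∃ I, I = ∫ x in K, F x := ⟨_, rfl⟩
  have hI0 : 0 ≤ I := by
    rw [hI]
    exact integral_nonneg hF0
  -- comparison with the integral of the statement
  have hII : I ≤ ∫ x in K ∩ {x | s₀ ≤ w x ∧ w x ≤ s₁}, len g x (G x) * volDen g x := by
    have hSm : MeasurableSet (K ∩ {x | s₀ ≤ w x ∧ w x ≤ s₁}) := by
      have : K ∩ {x | s₀ ≤ w x ∧ w x ≤ s₁} = K ∩ w ⁻¹' Set.Icc s₀ s₁ := rfl
      rw [this]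
      exact (hw.cont.preimage_isClosed_of_isClosed hKc.isClosed isClosed_Icc).measurableSet
    have hlen : ∀ x, F x = φ (w x) * (len g x (G x) * volDen g x) := by
      intro x
      have h0 : 0 ≤ φ (w x) := by rw [hφ]; exact bmp_nonneg _ _ _ _
      rw [hF, hH]
      show len g x (fun l => φ (w x) * G x l) * volDen g x = _
      rw [PERBm.len_smul g x h0]
      ring
    rw [hI, setIntegral_eq_of_subset_of_forall_sdiff_eq_zero hKm
      (Set.inter_subset_left (s := K) (t := {x | s₀ ≤ w x ∧ w x ≤ s₁})) ?_]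
    · refine setIntegral_mono_on (hFi.mono_set Set.inter_subset_left) ?_ hSm fun x _ => ?_
      · exact IntegrableOn.mono_set (PERBm.integrable_len hg hKc hK0 hw.int)
          Set.inter_subset_left
      · rw [hlen]
        have h1 : φ (w x) ≤ 1 := by rw [hφ]; exact bmp_le_one _ _ _ _
        have h2 : 0 ≤ len g x (G x) * volDen g x :=
          mul_nonneg (PERm.len_nonneg g x _) (PERm.volDen_nonneg g x)
        nlinarith
    · rintro x ⟨hxK, hx⟩
      have h1 : φ (w x) = 0 := by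
        rw [hφ]
        by_cases h : s₀ ≤ w x
        · have h2 : s₁ < w x := by
            by_contra h3
            exact hx ⟨hxK, h, not_lt.1 h3⟩
          exact bmp_right hη h2.le
        · exact bmp_left hη (not_le.1 h).le
      rw [hlen, h1, zero_mul]
  -- the choice of the annuli
  have hex : ∀ p : E3, ∃ t c : ℝ, 0 < t ∧ (p ∈ P → p ∉ T → 2 * t ≤ τ ∧ δ ≤ t / 2 ∧
      ∫ x in {x : E3 | t ≤ ‖x - p‖ ∧ ‖x - p‖ ≤ 2 * t},
        |v x - c| * (len g x (grad (xi t p) x) * volDen g x) ≤ C p * (I / M)) := by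
    intro p
    by_cases hp : p ∈ P
    · by_cases hpq : p ∉ T
      · obtain ⟨j, hj, hj1⟩ := pigeon hF0 hFi hM
          (S := fun j => {x : E3 | Tm j / 2 ≤ ‖x - p‖ ∧ ‖x - p‖ ≤ 2 * Tm j})
          (fun j => isMeas_ann p _ _)
          (fun j hj => hannK p hp hpq (Tm j) (hTδ j hj) (hTτ j hj))
          (fun i hi j hj hij => by
            rw [Set.disjoint_left]
            rintro x ⟨h1, h2⟩ ⟨h3, h4⟩
            rcases lt_or_gt_of_ne hij with h | h
            · have := hTd i hi j hj h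
              linarith
            · have := hTd j hj i hi h
              linarith)
        obtain ⟨c, hc⟩ := hcut p hp hpq (Tm j) v H (xi (Tm j) p) (hT j) (hTτ j hj)
          (l1_mono hKc (hannK p hp hpq (Tm j) (hTδ j hj) (hTτ j hj)) hvL) (xi_smooth (hT j) p)
          (fun x l => hD (Tm j) (hT j) p x l)
        refine ⟨Tm j, c, hT j, fun _ _ => ⟨hTτ j hj, hTδ j hj, hc.trans ?_⟩⟩
        refine mul_le_mul_of_nonneg_left ?_ (hC p).le
        rw [hI]
        rw [hF] at hj1 ⊢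
        exact hj1
      · exact ⟨1, 0, one_pos, fun _ h => absurd h hpq⟩
    · exact ⟨1, 0, one_pos, fun h => absurd h hp⟩
  choose t c ht htc using hex
  obtain ⟨Q, hQ⟩ : ∃ Q, Q = P \ T := ⟨_, rfl⟩
  have hQ1 : ∀ p ∈ Q, p ∈ P ∧ p ∉ T := fun p hp => by
    rw [hQ] at hp
    exact Finset.mem_sdiff.1 hp
  have htε : ∀ p ∈ Q, 2 * t p ≤ ε := fun p hp =>
    (htc p (hQ1 p hp).1 (hQ1 p hp).2).1.trans hτε
  obtain ⟨a, ha⟩ : ∃ a : E3 → ℝ, a = fun p => if p ∈ T then ρ else t p := ⟨_, rfl⟩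
  have haq' : ∀ p ∈ T, a p = ρ := fun p hp => by rw [ha]; simp [hp]
  have hane' : ∀ p, p ∉ T → a p = t p := fun p hp => by rw [ha]; simp [hp]
  have haε : ∀ p ∈ P, p ∉ T → 0 < a p ∧ a p ≤ ε := by
    intro p hp hpq
    rw [hane' p hpq]
    have h1 := (htc p hp hpq).1
    have h2 := ht p
    exact ⟨h2, by linarith⟩
  have hB' : Balls P a r := balls hρ hερ e1 e2 e3 haq' haε
  obtain ⟨K', hK'⟩ : ∃ K', K' = kset P a r := ⟨_, rfl⟩
  have hK'K : K' ⊆ K := by
    intro x hx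
    rw [hK'] at hx
    rw [hK]
    refine ⟨hx.1, fun p hp => ?_⟩
    have h1 := hx.2 p hp
    by_cases hpq : p ∈ T
    · rw [haq' p hpq] at h1
      rw [haq p hpq]
      exact h1
    · rw [hane' p hpq] at h1
      rw [hane p hpq]
      have h2 := (htc p hp hpq).2.1
      have h3 := ht p
      linarith
  have hK'c : IsCompact K' := by rw [hK']; exact PERBm.isCompact_kset _ _ _
  have hK'm : MeasurableSet K' := hK'c.isClosed.measurableSet
  have hK'0 : K' ⊆ ((P : Set E3))ᶜ := hK'K.trans hK0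
  -- the new function
  obtain ⟨ξ, hξ⟩ : ∃ ξ : E3 → E3 → ℝ, ξ = fun p x => xi (t p) p x := ⟨_, rfl⟩
  have hξs : ∀ p ∈ Q, ContDiff ℝ ∞ (ξ p) := fun p _ => by
    rw [hξ]
    exact xi_smooth (ht p) p
  have hvL' : L1Approx K' v H := l1_mono hKc hK'K hvL
  obtain ⟨W, hW⟩ : ∃ W : E3 → ℝ, W = fun x => v x + ∑ p ∈ Q, (1 - ξ p x) * (c p - v x) :=
    ⟨_, rfl⟩
  obtain ⟨H', hH'⟩ : ∃ H' : E3 → Cov, H' = fun x l => (1 - ∑ p ∈ Q, (1 - ξ p x)) * H x l
        + ∑ p ∈ Q, -(c p - v x) * pd l (ξ p) x := ⟨_, rfl⟩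
  have hWL : L1Approx K' W H' := by
    rw [hW, hH']
    exact l1_cut hLAC hK'c hvL' Q hξs c
  have hfar : ∀ x : E3, (∀ p ∈ Q, 2 * t p ≤ ‖x - p‖) → W x = v x := by
    intro x hx
    rw [hW]
    have : ∑ p ∈ Q, (1 - ξ p x) * (c p - v x) = 0 := by
      refine Finset.sum_eq_zero fun p hp => ?_
      rw [hξ]
      simp only
      rw [xi_out (ht p) (hx p hp), sub_self, zero_mul]
    simp only
    rw [this, add_zero]
  have hTsph : ∀ p ∈ T, ∀ x : E3, ‖x - p‖ = ρ → W x = v x := by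
    intro p hp x hx
    refine hfar x fun p' hp' => ?_
    have hne : p ≠ p' := fun e => (hQ1 p' hp').2 (e ▸ hp)
    have h2 := e2 p hp p' (hQ1 p' hp').1 hne
    have h3 := htε p' hp'
    have h4 : ‖p - p'‖ ≤ ‖x - p‖ + ‖x - p'‖ := by
      have h5 : p - p' = (x - p') - (x - p) := by abel
      rw [h5]
      have := norm_sub_le (x - p') (x - p)
      linarith
    linarith
  have hPG := hPERG P S g W H' a (fun p => if p ∈ T then Ψ (σ p) else c p) r η (Λ - η)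
    (hST.trans hTP) hg hB'
    (by linarith) (by rw [← hK']; exact hWL)
    (fun x hx => by
      have h1 : W x = v x := hfar x fun p hp => by
        have h2 := e1 p (hQ1 p hp).1
        have h3 := htε p hp
        have h4 := norm_sub_norm_le x p
        linarith
      rw [h1, hv, hΨ]
      simp only
      rw [clamp_right hη (hout x hx).le, ← hΛ]
      linarith)
    (fun p hp x hx => by
      rw [haq' p (hST hp)] at hx
      have h1 : W x = v x := hTsph p (hST hp) x hx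
      rw [h1, hv, hΨ]
      simp only
      rw [clamp_left hη (hin p hp x hx).le]
      exact hη)
    (fun p hp hpS x hx => by
      by_cases hpq : p ∈ T
      · rw [haq' p hpq] at hx
        rw [hTsph p hpq x hx, hv]
        simp only [if_pos hpq]
        rw [hσ p hpq hpS x hx]
      simp only [if_neg hpq]
      rw [hane' p hpq] at hx
      have hpQ : p ∈ Q := by rw [hQ]; exact Finset.mem_sdiff.2 ⟨hp, hpq⟩
      rw [hW]
      simp only
      rw [Finset.sum_eq_single_of_mem p hpQ]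
      · have h1 : ξ p x = 0 := by
          rw [hξ]
          exact xi_in (ht p) hx.le
        rw [h1]
        ring
      · intro p' hp' hne
        have h1 : ξ p' x = 1 := by
          rw [hξ]
          refine xi_out (ht p') ?_
          have h2 := e3 p hp p' (hQ1 p' hp').1 hne.symm
          have h3 := htε p' hp'
          have h4 := htε p hpQ
          have h6 := ht p
          have h7 : ‖p - p'‖ ≤ ‖x - p‖ + ‖x - p'‖ := by
            have h5 : p - p' = (x - p') - (x - p) := by abel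
            rw [h5]
            have := norm_sub_le (x - p') (x - p)
            linarith
          linarith
        rw [h1, sub_self, zero_mul]) A hA hL
  rw [← hK'] at hPG
  -- the sum of the cut-offs
  have hSum : ∀ x : E3, 0 ≤ 1 - ∑ p ∈ Q, (1 - ξ p x) ∧ 1 - ∑ p ∈ Q, (1 - ξ p x) ≤ 1 := by
    intro x
    have h0 : ∀ p, 0 ≤ 1 - ξ p x ∧ 1 - ξ p x ≤ 1 := fun p => by
      rw [hξ]
      have h1 := xi_nonneg (t p) p x
      have h2 := xi_le_one (t p) p x
      constructor <;> simp only <;> linarith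
    have h1 : 0 ≤ ∑ p ∈ Q, (1 - ξ p x) := Finset.sum_nonneg fun p _ => (h0 p).1
    refine ⟨?_, by linarith⟩
    by_cases h : ∃ p ∈ Q, ‖x - p‖ < 2 * t p
    · obtain ⟨p, hp, hxp⟩ := h
      have h2 : ∑ p ∈ Q, (1 - ξ p x) = 1 - ξ p x := by
        refine Finset.sum_eq_single_of_mem p hp fun p' hp' hne => ?_
        have h3 : ξ p' x = 1 := by
          rw [hξ]
          refine xi_out (ht p') ?_
          have h2 := e3 p (hQ1 p hp).1 p' (hQ1 p' hp').1 hne.symm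
          have h3 := htε p' hp'
          have h4 := htε p hp
          have h7 : ‖p - p'‖ ≤ ‖x - p‖ + ‖x - p'‖ := by
            have h5 : p - p' = (x - p') - (x - p) := by abel
            rw [h5]
            have := norm_sub_le (x - p') (x - p)
            linarith
          linarith
        rw [h3, sub_self]
      rw [h2]
      linarith [(h0 p).2]
    · push Not at h
      have h2 : ∑ p ∈ Q, (1 - ξ p x) = 0 := by
        refine Finset.sum_eq_zero fun p hp => ?_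
        have h3 : ξ p x = 1 := by
          rw [hξ]
          exact xi_out (ht p) (h p hp)
        rw [h3, sub_self]
      rw [h2]
      norm_num
  -- the error terms
  obtain ⟨E, hE⟩ : ∃ E : E3 → E3 → ℝ,
      E = fun p x => |v x - c p| * (len g x (grad (ξ p) x) * volDen g x) := ⟨_, rfl⟩
  have hE0 : ∀ p x, 0 ≤ E p x := fun p x => by
    rw [hE]
    exact mul_nonneg (abs_nonneg _) (mul_nonneg (PERm.len_nonneg g x _) (PERm.volDen_nonneg g x))
  have hEi : ∀ p ∈ Q, Integrable (E p) (volume.restrict K') := by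
    intro p hp
    have h1 : E p = fun x => len g x (fun l => (v x - c p) * grad (ξ p) x l) * volDen g x := by
      rw [hE]
      funext x
      rw [len_smul_abs]
      ring
    rw [h1]
    refine PERBm.integrable_len hg hK'c hK'0 fun l => ?_
    have h2 : ContinuousOn (fun x => (v x - c p) * grad (ξ p) x l) K' :=
      (hvL'.cont.sub continuousOn_const).mul (pd_cont (hξs p hp) l).continuousOn
    exact h2.integrableOn_compact hK'c
  have hEb : ∀ p ∈ Q, ∫ x in K', E p x ≤ C p * (I / M) := by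
    intro p hp
    have h1 := htc p (hQ1 p hp).1 (hQ1 p hp).2
    refine le_trans (le_of_eq ?_) h1.2.2
    have hsub : {x : E3 | t p ≤ ‖x - p‖ ∧ ‖x - p‖ ≤ 2 * t p} ⊆ K' := by
      rw [hK']
      refine ann_sub hερ e1 e2 e3 haq' (fun p' hp' hpq' => (haε p' hp' hpq').2) (hQ1 p hp).1
        (hQ1 p hp).2 ?_ (htε p hp)
      rw [hane' p (hQ1 p hp).2]
    rw [setIntegral_eq_of_subset_of_forall_sdiff_eq_zero hK'm hsub ?_, hE, hξ]
    rintro x ⟨_, hx⟩
    have h2 : ‖x - p‖ < t p ∨ 2 * t p < ‖x - p‖ := by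
      by_contra h3
      push Not at h3
      exact hx ⟨h3.1, h3.2⟩
    have h3 : grad (ξ p) x = fun _ => 0 := by
      funext l
      rw [hξ]
      exact xi_grad (ht p) h2 l
    rw [hE]
    simp only
    rw [h3, PERBm.len_zero]
    ring
  have hTot : ∫ x in K', len g x (H' x) * volDen g x ≤ I + ∑ p ∈ Q, C p * (I / M) := by
    have h1 : ∫ x in K', len g x (H' x) * volDen g x ≤ ∫ x in K', (F x + ∑ p ∈ Q, E p x) := by
      refine setIntegral_mono_on (PERBm.integrable_len hg hK'c hK'0 hWL.int)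
        ((hFi.mono_set hK'K).add (integrable_finsetSum _ hEi)) hK'm fun x hx => ?_
      have hpd := hg.posDef x (hK'0 hx)
      have h2 : len g x (H' x) ≤ len g x (fun l => (1 - ∑ p ∈ Q, (1 - ξ p x)) * H x l)
          + len g x (fun l => ∑ p ∈ Q, -(c p - v x) * pd l (ξ p) x) := by
        rw [hH']
        exact PERm.len_add_le hpd _ _
      have h3 : len g x (fun l => (1 - ∑ p ∈ Q, (1 - ξ p x)) * H x l) ≤ len g x (H x) := by
        rw [PERBm.len_smul g x (hSum x).1]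
        have h4 := PERm.len_nonneg g x (H x)
        nlinarith [(hSum x).2]
      have h4 : len g x (fun l => ∑ p ∈ Q, -(c p - v x) * pd l (ξ p) x) ≤
          ∑ p ∈ Q, |v x - c p| * len g x (grad (ξ p) x) := by
        have h5 := PERBm.len_sum Q hpd (fun _ => 1) (fun _ _ => zero_le_one)
          (fun p l => (v x - c p) * grad (ξ p) x l)
        have h6 : (fun l => ∑ p ∈ Q, (1 : ℝ) * ((v x - c p) * grad (ξ p) x l)) =
            fun l => ∑ p ∈ Q, -(c p - v x) * pd l (ξ p) x := by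
          funext l
          refine Finset.sum_congr rfl fun p _ => ?_
          unfold grad
          ring
        rw [h6] at h5
        refine h5.trans (le_of_eq (Finset.sum_congr rfl fun p _ => ?_))
        rw [len_smul_abs, one_mul]
      have h5 := mul_le_mul_of_nonneg_right (h2.trans (add_le_add h3 h4))
        (PERm.volDen_nonneg g x)
      refine h5.trans (le_of_eq ?_)
      rw [add_mul, Finset.sum_mul, hF, hE]
      congr 1
      exact Finset.sum_congr rfl fun p _ => by ring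
    rw [integral_add (hFi.mono_set hK'K) (integrable_finsetSum _ hEi),
      integral_finsetSum _ hEi] at h1
    have h2 : ∫ x in K', F x ≤ I := by
      rw [hI]
      exact setIntegral_mono_set hFi (ae_of_all _ hF0) (LE.le.eventuallyLE hK'K)
    have h3 := Finset.sum_le_sum hEb
    linarith
  have hfin : A * (Λ - η - η) ≤ I + ∑ p ∈ Q, C p * (I / M) := by
    refine hPG.trans (le_trans ?_ hTot)
    refine setIntegral_mono_set (PERBm.integrable_len hg hK'c hK'0 hWL.int) ?_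
      (LE.le.eventuallyLE Set.inter_subset_left)
    exact ae_of_all _ fun x => mul_nonneg (PERm.len_nonneg g x _) (PERm.volDen_nonneg g x)
  have h1 : I + ∑ p ∈ Q, C p * (I / M) = (1 + (∑ p ∈ Q, C p) / M) * I := by
    rw [← Finset.sum_mul]
    ring
  rw [h1] at hfin
  have hQP : ∑ p ∈ Q, C p ≤ ∑ p ∈ P, C p :=
    Finset.sum_le_sum_of_subset_of_nonneg (fun p hp => (hQ1 p hp).1) fun p _ _ => (hC p).le
  have hfin2 : (1 + (∑ p ∈ Q, C p) / M) * I ≤ (1 + (∑ p ∈ P, C p) / M) * I := by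
    refine mul_le_mul_of_nonneg_right ?_ hI0
    have := div_le_div_of_nonneg_right hQP hM'.le
    linarith
  have hfin := hfin.trans hfin2
  have h2 : 0 ≤ 1 + (∑ p ∈ P, C p) / M := by
    have h3 : 0 ≤ ∑ p ∈ P, C p := Finset.sum_nonneg fun p _ => (hC p).le
    positivity
  have h3 := mul_le_mul_of_nonneg_left hII h2
  have h4 : A * (s₁ - s₀ - 4 * η) ≤ A * (Λ - η - η) :=
    mul_le_mul_of_nonneg_left (by linarith) hA
  linarith

end PERDm

open PERDm in
theorem t_PERD (hPERG : Stmt_PERG) (hLAC : Stmt_LAC) (hCUT : Stmt_CUT) : Stmt_PERD := by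
  intro P T g ρ r hTP hg hE hρ e1 e2
  classical
  obtain ⟨D, hD, hDb⟩ := xi_pd
  obtain ⟨ε, hε, hερ, e3⟩ := exists_eps (P := P) hρ
  have hmet : ∀ p ∈ P, p ∉ T → MetricOn {x : E3 | 0 < ‖x - p‖ ∧ ‖x - p‖ < ε} g := by
    intro p hp hpq
    have hsub : {x : E3 | 0 < ‖x - p‖ ∧ ‖x - p‖ < ε} ⊆ ((P : Set E3))ᶜ := by
      rintro x ⟨hx1, hx2⟩ hxP
      by_cases h : x = p
      · rw [h, sub_self, norm_zero] at hx1
        exact lt_irrefl _ hx1
      · have := e3 x hxP p hp h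
        linarith
    exact ⟨fun i j => (hg.smooth i j).mono hsub, fun x hx => hg.posDef x (hsub hx)⟩
  have hcut : ∀ p : E3, ∃ C s : ℝ, 0 < C ∧ 0 < s ∧ (p ∈ P → p ∉ T →
      ∀ (t : ℝ) (w : E3 → ℝ) (G : E3 → Cov) (ξ : E3 → ℝ),
      0 < t → 2 * t ≤ s → L1Approx {x : E3 | t / 2 ≤ ‖x - p‖ ∧ ‖x - p‖ ≤ 2 * t} w G →
      ContDiff ℝ ∞ ξ → (∀ x l, |pd l ξ x| ≤ D / t) →
      ∃ c : ℝ, ∫ x in {x : E3 | t ≤ ‖x - p‖ ∧ ‖x - p‖ ≤ 2 * t},
            |w x - c| * (len g x (grad ξ x) * volDen g x)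
          ≤ C * ∫ x in {x : E3 | t / 2 ≤ ‖x - p‖ ∧ ‖x - p‖ ≤ 2 * t},
              len g x (G x) * volDen g x) := by
    intro p
    by_cases hp : p ∈ P
    · by_cases hpq : p ∉ T
      · obtain ⟨C, s, h1, h2, h3⟩ := hCUT g p ε D hε hD.le (hmet p hp hpq) (hE p hp)
        exact ⟨C, s, h1, h2, fun _ _ => h3⟩
      · exact ⟨1, 1, one_pos, one_pos, fun _ h => absurd h hpq⟩
    · exact ⟨1, 1, one_pos, one_pos, fun h => absurd h hp⟩
  choose C s hC hs hcut' using hcut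
  obtain ⟨τ, ⟨hτε, hτs⟩, hτ⟩ : ∃ τ : ℝ, (τ < ε ∧ ∀ p ∈ P, τ < s p) ∧ 0 < τ := by
    have h1 : ∀ᶠ e in 𝓝[>] (0 : ℝ), ∀ p ∈ P, e < s p := by
      rw [Filter.eventually_all_finset]
      exact fun p _ => small (hs p)
    exact (((small hε).and h1).and self_mem_nhdsWithin).exists
  have hsum : 0 ≤ ∑ p ∈ P, C p := Finset.sum_nonneg fun p _ => (hC p).le
  refine ⟨(∑ p ∈ P, C p) + 1, by linarith, fun M hM => ?_⟩
  have hM' : (0 : ℝ) < M := by exact_mod_cast hM
  obtain ⟨Tm, hTdef⟩ : ∃ Tm : ℕ → ℝ, Tm = fun j => τ / 2 * (1 / 8) ^ j := ⟨_, rfl⟩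
  obtain ⟨δ, hδdef⟩ : ∃ δ : ℝ, δ = τ / 4 * (1 / 8) ^ M := ⟨_, rfl⟩
  have hT : ∀ j, 0 < Tm j := fun j => by rw [hTdef]; positivity
  have hδ : 0 < δ := by rw [hδdef]; positivity
  have hpow : ∀ j, ((1 : ℝ) / 8) ^ j ≤ 1 := fun j => pow_le_one₀ (by norm_num) (by norm_num)
  have hTτ : ∀ j < M, 2 * Tm j ≤ τ := fun j _ => by
    rw [hTdef]
    have := hpow j
    simp only
    nlinarith
  have hTδ : ∀ j < M, δ ≤ Tm j / 2 := fun j hj => by
    have h1 : ((1 : ℝ) / 8) ^ M ≤ (1 / 8) ^ j :=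
      pow_le_pow_of_le_one (by norm_num) (by norm_num) hj.le
    rw [hTdef, hδdef]
    simp only
    nlinarith
  have hTd : ∀ i < M, ∀ j < M, i < j → 2 * Tm j < Tm i / 2 := fun i _ j _ hij => by
    have h1 : ((1 : ℝ) / 8) ^ j ≤ (1 / 8) ^ (i + 1) :=
      pow_le_pow_of_le_one (by norm_num) (by norm_num) hij
    have h2 : (0 : ℝ) < (1 / 8) ^ i := by positivity
    rw [pow_succ] at h1
    rw [hTdef]
    simp only
    nlinarith
  have hδε : δ ≤ ε := by
    rw [hδdef]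
    have := hpow M
    nlinarith
  refine ⟨δ, hδ, lt_of_le_of_lt hδε hερ, ?_, ?_⟩
  · refine balls hρ hερ e1 e2 e3 (fun p hp => by simp [aDelT, hp]) fun p _ hpq => ?_
    have : aDelT T ρ δ p = δ := by simp [aDelT, hpq]
    rw [this]
    exact ⟨hδ, hδε⟩
  · intro S w G σ s₀ s₁ hST hss hw hout hin hσ A hA hL
    obtain ⟨J, hJ⟩ : ∃ J, J = ∫ x in kset P (aDelT T ρ δ) r ∩ {x | s₀ ≤ w x ∧ w x ≤ s₁},
      len g x (G x) * volDen g x := ⟨_, rfl⟩
    have hJ0 : 0 ≤ J := by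
      rw [hJ]
      exact integral_nonneg fun x =>
        mul_nonneg (PERm.len_nonneg g x _) (PERm.volDen_nonneg g x)
    have hkey : ∀ η : ℝ, 0 < η → 4 * η < s₁ - s₀ →
        A * (s₁ - s₀ - 4 * η) ≤ (1 + (∑ p ∈ P, C p) / M) * J := by
      intro η hη hη4
      rw [hJ]
      exact key hPERG hLAC hTP hST hg hρ hερ e1 e2 e3 hτε.le hδ hC hDb
        (fun p hp hpq t w G ξ h1 h2 => hcut' p hp hpq t w G ξ h1 (h2.trans (hτs p hp).le))
        hM hT hTτ hTδ hTd hw hout hin hσ hA hL hη hη4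
    rw [← hJ]
    have h1 : (1 + (∑ p ∈ P, C p) / M) * J ≤
        (1 + ((∑ p ∈ P, C p) + 1) / M) * J := by
      refine mul_le_mul_of_nonneg_right ?_ hJ0
      have : (∑ p ∈ P, C p) / M ≤ ((∑ p ∈ P, C p) + 1) / M :=
        div_le_div_of_nonneg_right (by linarith) hM'.le
      linarith
    refine le_trans ?_ h1
    refine le_of_forall_pos_le_add fun e he => ?_
    obtain ⟨η, ⟨h2, h3⟩, h4⟩ : ∃ η : ℝ, (η < (s₁ - s₀) / 4 ∧ η < e / (4 * (A + 1))) ∧ 0 < η :=
      (((small (by linarith)).and (small (by positivity))).and self_mem_nhdsWithin).exists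
    have h5 := hkey η h4 (by linarith)
    rw [lt_div_iff₀ (by positivity)] at h3
    have h6 : A * (s₁ - s₀) = A * (s₁ - s₀ - 4 * η) + 4 * (A * η) := by ring
    have h7 : 4 * (A * η) ≤ η * (4 * (A + 1)) := by nlinarith
    linarith

end Pool.Agent.PFU
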