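import Pool.Agent.PFU.StmtsP

/-!
# PT: existence of the pair `u₀ ≤ u` with several inner balls (assembly of the block)
-/

open MeasureTheory Filter Topology Set
open scoped ContDiff RealInnerProductSpace

namespace Pool.Agent.PFU

open Pool.Agent.PenroseSph Pool.Agent.PFlow Pool.Agent.PFT Pool.Agent.PFlow.PB

theorem isOpen_AnnT (T : Finset E3) (a b : ℝ) : IsOpen (AnnT T a b) := by
  have h : AnnT T a b = {x : E3 | ‖x‖ < b} ∩ ⋂ p ∈ T, {x : E3 | a < ‖x - p‖} := by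
    ext x
    simp [AnnT]
  rw [h]
  refine (isOpen_lt continuous_norm continuous_const).inter ?_
  exact isOpen_biInter_finset fun p _ =>
    isOpen_lt continuous_const (continuous_id.sub continuous_const).norm

/-- The limit is a solution in the sense of `SolutionT`. -/
theorem LimT.solution (hE : Stmt_EQLT) (hF : Stmt_FLUXLT) (hS : Stmt_SUBLT) (hN : Stmt_NOISLT)
    {T : Finset E3} {ε a b η : ℝ} {g h : TensorField} {Θ θ : E3 → ℝ} {B t₀ : ℝ}
    {δ κ : ℕ → ℝ} {u : ℕ → E3 → ℝ} {G : ℕ → E3 → E3} {M : ℕ → Fin 3 → E3 → E3} {C : ℝ}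
    {v : E3 → ℝ} {F : E3 → E3} {N : Fin 3 → E3 → E3}
    (lim : LimT T ε a b g h Θ θ B t₀ δ κ u G M C v F N)
    (hin : ∀ p ∈ T, ∀ x : E3, ‖x - p‖ ≤ a / 2 → 1 - η ≤ v x)
    (hout : ∀ x : E3, 2 * b ≤ ‖x‖ → v x ≤ η) :
    SolutionT T ε a b η g h v (fun x => F x) (mat N) := by
  obtain ⟨hs1, hs2⟩ := hS _ _ _ _ _ _ _ _ _ _ _ _ _ _ _ _ _ _ _ lim
  have htend : ∀ x, Tendsto (fun n => u n x) atTop (𝓝 (v x)) := fun x =>
    (lim.unif {x} isCompact_singleton).tendsto_at (mem_singleton x)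
  exact
    { cont := lim.contv
      nonneg := fun x => ge_of_tendsto' (htend x) fun n => lim.nonneg n x
      le_one := fun x => le_of_tendsto' (htend x) fun n => lim.le_one n x
      inner := hin
      outer := hout
      h2 := pHTWOON v F N _ (isOpen_AnnT T a b) lim.h2v lim.contv
      eq := hE _ _ _ _ _ _ _ _ _ _ _ _ _ _ _ _ _ _ _ lim
      flux := hF _ _ _ _ _ _ _ _ _ _ _ _ _ _ _ _ _ _ _ lim
      sub := hs1
      super := hs2
      noIsland := hN ε a b T g h v lim.eps_pos lim.eps_lt lim.pts lim.data lim.contv hs1 hs2 }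

/-- **Block PT.** -/
theorem PT (hE : Stmt_EQLT) (hF : Stmt_FLUXLT) (hS : Stmt_SUBLT) (hN : Stmt_NOISLT)
    (hL : Stmt_LIMXT) : Stmt_PT := by
  intro ε a b η T g h hε hε1 hpts hη hg hh h2 hflat
  have hd : GData g h (b / 2) := ⟨hg, hh, hflat⟩
  obtain ⟨Θ, θ, B, t₀, δ, κ, u₀, G₀, M₀, C₀, v₀, F₀, N₀, u, G, M, C, v, F, N, lim₀, lim, hin₀,
    hout₀, hin, hout, hle⟩ := hL ε a b η T g h hε hε1 hpts hη hd h2
  exact ⟨v₀, v, fun x => F₀ x, fun x => F x, mat N₀, mat N, lim₀.solution hE hF hS hN hin₀ hout₀,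
    lim.solution hE hF hS hN hin hout, hle⟩

end Pool.Agent.PFU
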