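import Pool.Agent.PFU.StmtsM

/-!
# SEQT: existence of the approximating sequence (several inner balls)

Adapted from `Pool.Agent.PFlow.M_SEQ`; the new point is the connectedness of the points of `T` in
the sublevel set of the filled function.
-/

open MeasureTheory Filter Topology
open scoped ContDiff ENNReal

namespace Pool.Agent.PFU

open Pool.Agent.PenroseSph Pool.Agent.PFlow Pool.Agent.PFT

namespace MSEQT

lemma isOpen_AnnT (T : Finset E3) (a b : ℝ) : IsOpen (AnnT T a b) := by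
  have h1 : AnnT T a b = {x : E3 | ‖x‖ < b} ∩ ⋂ p ∈ T, {x : E3 | a < ‖x - p‖} := by
    ext x
    simp [AnnT]
  rw [h1]
  refine (isOpen_lt continuous_norm continuous_const).inter (isOpen_biInter_finset fun p _ => ?_)
  exact isOpen_lt continuous_const (continuous_id.sub continuous_const).norm

/-- A compact subset of an open interval, with room around it, below a given level. -/
lemma room {S : Set ℝ} {s₀ s₁ c : ℝ} (hS : IsCompact S) (hsub : S ⊆ Set.Ioo s₀ s₁)
    (h : s₀ < s₁) (hc : s₀ < c) : ∃ m n δ : ℝ, 0 < δ ∧ m ≤ n ∧ S ⊆ Set.Icc m n ∧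
      s₀ + 8 * δ ≤ m ∧ n + 8 * δ ≤ s₁ ∧ m ≤ c := by
  obtain ⟨m, n, δ, hδ, hmn, hT, hm, hn⟩ := Pool.Agent.PFlow.MSEQ.room hS hsub h
  refine ⟨min m c, n, min δ ((c - s₀) / 8), lt_min hδ (by linarith), (min_le_left m c).trans hmn,
    fun x hx => ⟨(min_le_left m c).trans (hT hx).1, (hT hx).2⟩, ?_, ?_, min_le_right m c⟩
  · have h1 := min_le_left δ ((c - s₀) / 8)
    have h2 := min_le_right δ ((c - s₀) / 8)
    refine le_min ?_ ?_ <;> linarith
  · have h1 := min_le_left δ ((c - s₀) / 8)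
    linarith

/-- Bands of levels are compact. -/
lemma band_compact {T : Finset E3} {a b a' b' s₀ s₁ c d : ℝ} {w : E3 → ℝ} (ha' : a < a')
    (hb' : b' < b) (hw : ContinuousOn w (AnnT T a b))
    (hin : ∀ p ∈ T, ∀ x : E3, a < ‖x - p‖ → ‖x - p‖ ≤ a' → w x ≤ s₀)
    (hout : ∀ x : E3, b' ≤ ‖x‖ → ‖x‖ < b → s₁ ≤ w x) (hc : s₀ < c) (hd : d < s₁) :
    IsCompact {x | x ∈ AnnT T a b ∧ w x ∈ Set.Icc c d} := by
  have hA : IsCompact {x : E3 | ‖x‖ ≤ b' ∧ ∀ p ∈ T, a' ≤ ‖x - p‖} := by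
    have h1 : {x : E3 | ‖x‖ ≤ b' ∧ ∀ p ∈ T, a' ≤ ‖x - p‖}
        = Metric.closedBall (0 : E3) b' ∩ ⋂ p ∈ T, {x : E3 | a' ≤ ‖x - p‖} := by
      ext x
      simp
    rw [h1]
    refine (isCompact_closedBall _ _).inter_right
      (isClosed_iInter fun p => isClosed_iInter fun _ => ?_)
    exact isClosed_le continuous_const (continuous_id.sub continuous_const).norm
  have hsub : {x : E3 | ‖x‖ ≤ b' ∧ ∀ p ∈ T, a' ≤ ‖x - p‖} ⊆ AnnT T a b := fun x hx =>
    ⟨lt_of_le_of_lt hx.1 hb', fun p hp => lt_of_lt_of_le ha' (hx.2 p hp)⟩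
  have hcl : IsClosed ({x : E3 | ‖x‖ ≤ b' ∧ ∀ p ∈ T, a' ≤ ‖x - p‖} ∩ w ⁻¹' Set.Icc c d) :=
    (hw.mono hsub).preimage_isClosed_of_isClosed hA.isClosed isClosed_Icc
  have heq : {x | x ∈ AnnT T a b ∧ w x ∈ Set.Icc c d}
      = {x : E3 | ‖x‖ ≤ b' ∧ ∀ p ∈ T, a' ≤ ‖x - p‖} ∩ w ⁻¹' Set.Icc c d := by
    ext x
    constructor
    · rintro ⟨hx, hx'⟩
      refine ⟨⟨?_, fun p hp => ?_⟩, hx'⟩
      · by_contra hlt
        have := hout x (not_le.mp hlt).le hx.1
        linarith [hx'.2]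
      · by_contra hlt
        have := hin p hp x (hx.2 p hp) (not_le.mp hlt).le
        linarith [hx'.1]
    · rintro ⟨hx, hx'⟩
      exact ⟨hsub hx, hx'⟩
  rw [heq]
  exact hA.of_isClosed_subset hcl Set.inter_subset_left

/-- Where the truncated function is strictly between the levels, it is equal to `w`. -/
lemma trWT_mem {T : Finset E3} {a' b' s₀ s₁ : ℝ} {w : E3 → ℝ} {x : E3}
    (h : trWT T a' b' s₀ s₁ w x ∈ Set.Ioo s₀ s₁) :
    (∀ p ∈ T, a' < ‖x - p‖) ∧ ‖x‖ < b' ∧ w x = trWT T a' b' s₀ s₁ w x := by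
  unfold trWT at h ⊢
  by_cases h1 : ∃ p ∈ T, ‖x - p‖ ≤ a'
  · rw [if_pos h1] at h
    exact absurd h.1 (lt_irrefl _)
  · rw [if_neg h1] at h ⊢
    by_cases h2 : b' ≤ ‖x‖
    · rw [if_pos h2] at h
      exact absurd h.2 (lt_irrefl _)
    · rw [if_neg h2] at h ⊢
      refine ⟨fun p hp => ?_, not_le.mp h2, ?_⟩
      · by_contra h3
        exact h1 ⟨p, hp, not_lt.mp h3⟩
      rcases le_total s₁ (w x) with h3 | h3
      · rw [min_eq_left h3] at h
        have := le_max_right s₀ s₁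
        linarith [h.2]
      · rw [min_eq_right h3] at h ⊢
        rcases le_total s₀ (w x) with h4 | h4
        · rw [max_eq_right h4]
        · rw [max_eq_left h4] at h
          exact absurd h.1 (lt_irrefl _)

/-- A preconnected subset of the open set `{f < c}` can be replaced by a compact one. -/
lemma conn_le {f : E3 → ℝ} {c : ℝ} {p q : E3} (hf : Continuous f)
    (h : Conn {x | f x < c} p q) : ∃ ρ : ℝ, 0 < ρ ∧ Conn {x | f x ≤ c - ρ} p q := by
  obtain ⟨S, hS, hSc, hp, hq⟩ := h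
  have hO : IsOpen {x | f x < c} := isOpen_lt hf continuous_const
  have hpO : p ∈ {x | f x < c} := hS hp
  have h1 : S ⊆ connectedComponentIn {x | f x < c} p := hSc.subset_connectedComponentIn hp hS
  have h2 : IsConnected (connectedComponentIn {x | f x < c} p) :=
    ⟨⟨p, mem_connectedComponentIn hpO⟩, isPreconnected_connectedComponentIn⟩
  have h3 := (hO.connectedComponentIn (x := p)).isConnected_iff_isPathConnected.mp h2
  obtain ⟨γ, hγ⟩ := h3.joinedIn p (mem_connectedComponentIn hpO) q (h1 hq)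
  have hK : IsCompact (Set.range γ) := isCompact_range γ.continuous
  have hne : (Set.range γ).Nonempty := ⟨γ 0, 0, rfl⟩
  obtain ⟨z, hz, hzm⟩ := hK.exists_isMaxOn hne hf.continuousOn
  have hzc : f z < c := by
    obtain ⟨t, rfl⟩ := hz
    have h4 : γ t ∈ {x | f x < c} := connectedComponentIn_subset _ _ (hγ t)
    exact h4
  refine ⟨c - f z, by linarith, Set.range γ, fun x hx => ?_,
    isPreconnected_range γ.continuous, ⟨0, γ.source⟩, ⟨1, γ.target⟩⟩
  have := hzm hx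
  simp only [Set.mem_ofPred_eq] at this ⊢
  linarith

/-- The same for all pairs of points of a finite set. -/
lemma conn_all {f : E3 → ℝ} {c : ℝ} {T : Finset E3} (hf : Continuous f)
    (h : ∀ p ∈ T, ∀ q ∈ T, Conn {x | f x < c} p q) :
    ∃ ρ : ℝ, 0 < ρ ∧ ∀ p ∈ T, ∀ q ∈ T, Conn {x | f x ≤ c - ρ} p q := by
  have h1 : ∀ p ∈ T, ∀ q ∈ T, ∀ᶠ ρ in 𝓝[>] (0 : ℝ), Conn {x | f x ≤ c - ρ} p q := by
    intro p hp q hq
    obtain ⟨ρ₀, h0, S, hS, hSc, hSp, hSq⟩ := conn_le hf (h p hp q hq)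
    filter_upwards [Ioo_mem_nhdsGT h0] with ρ hρ
    refine ⟨S, fun x hx => ?_, hSc, hSp, hSq⟩
    have := hS hx
    simp only [Set.mem_ofPred_eq] at this ⊢
    linarith [hρ.2]
  have h2 : ∀ᶠ ρ in 𝓝[>] (0 : ℝ), ∀ p ∈ T, ∀ q ∈ T, Conn {x | f x ≤ c - ρ} p q := by
    rw [Filter.eventually_all_finset]
    intro p hp
    rw [Filter.eventually_all_finset]
    exact h1 p hp
  obtain ⟨ρ, hρ, hρ'⟩ := (h2.and self_mem_nhdsWithin).exists
  exact ⟨ρ, hρ', hρ⟩

end MSEQT

open MSEQT Pool.Agent.PFlow.MSEQ in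
theorem t_SEQT (hFXT : Stmt_FXT) (hTRT : Stmt_TRT) (hFMT : Stmt_FMT) (hBADT : Stmt_BADT)
    (hFAT : Stmt_FAT) : Stmt_SEQT := by
  intro ε a b s₀ s₁ c T g h w G M hε0 hε1 hPts hs hsc hg hh hw heq hNI hSep hTC hapb ψ hψ hψc
    hψs hψ0
  have hne := hPts.ne
  have ha := hPts.pos
  have hU := isOpen_AnnT T a b
  obtain ⟨a', b', haa', hb'b, hins, hdis, hin, hout⟩ := hSep
  obtain ⟨m, n, δ, hδ, hmn, hT, hm, hn, hmc⟩ := MSEQT.room hψc.isCompact hψs hs hsc
  -- the bands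
  set K' : Set E3 := {x | x ∈ AnnT T a b ∧ w x ∈ Set.Icc (m - δ) (n + δ)} with hK'
  set O : Set E3 := {x | x ∈ AnnT T a b ∧ w x ∈ Set.Ioo (m - 2 * δ) (n + 2 * δ)} with hO
  set K : Set E3 := {x | x ∈ AnnT T a b ∧ w x ∈ Set.Icc (m - 3 * δ) (n + 3 * δ)} with hK
  set K₁ : Set E3 := {x | x ∈ AnnT T a b ∧ w x ∈ Set.Icc (m - 6 * δ) (n + 6 * δ)} with hK₁
  have hK'c : IsCompact K' :=
    MSEQT.band_compact haa' hb'b hw.cont hin hout (by linarith) (by linarith)
  have hKc : IsCompact K :=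
    MSEQT.band_compact haa' hb'b hw.cont hin hout (by linarith) (by linarith)
  have hK₁c : IsCompact K₁ :=
    MSEQT.band_compact haa' hb'b hw.cont hin hout (by linarith) (by linarith)
  have hOo : IsOpen O := hw.cont.isOpen_inter_preimage hU isOpen_Ioo
  have hK'O : K' ⊆ O := fun x hx => ⟨hx.1, by constructor <;> linarith [hx.2.1, hx.2.2]⟩
  have hOK : O ⊆ K := fun x hx => ⟨hx.1, by constructor <;> linarith [hx.2.1, hx.2.2]⟩
  have hK'K : K' ⊆ K := hK'O.trans hOK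
  have hKK₁ : K ⊆ K₁ := fun x hx => ⟨hx.1, by constructor <;> linarith [hx.2.1, hx.2.2]⟩
  have hK₁A : K₁ ⊆ AnnT T a b := fun x hx => hx.1
  have hKA : K ⊆ AnnT T a b := fun x hx => hx.1
  have hKab : ∀ x ∈ K, ‖x‖ < b' ∧ ∀ p ∈ T, a' < ‖x - p‖ := by
    intro x hx
    refine ⟨?_, fun p hp => ?_⟩
    · by_contra hlt
      have := hout x (not_lt.mp hlt) hx.1.1
      linarith [hx.2.2]
    · by_contra hlt
      have := hin p hp x (hx.1.2 p hp) (not_lt.mp hlt)
      linarith [hx.2.1]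
  -- the truncation of `w`
  have hb'0 : 0 ≤ b' := by
    obtain ⟨p, hp⟩ := hne
    linarith [hins p hp, norm_nonneg p]
  set z₁ : E3 := EuclideanSpace.single 0 b' with hz₁
  have hz₁n : b' ≤ ‖z₁‖ := by
    rw [hz₁, PiLp.norm_single, Real.norm_eq_abs]
    exact le_abs_self b'
  obtain ⟨hX1, hX2⟩ := hFXT T a b a' b' (m - 5 * δ) (n + 5 * δ) w z₁ hne ha haa' hb'b hins hdis
    (by linarith) hw.cont hNI (fun p hp x h1 h2 => by linarith [hin p hp x h1 h2])
    (fun x h1 h2 => by linarith [hout x h1 h2]) hz₁n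
  -- the points of `T` are connected below the level `c`
  obtain ⟨ρ, hρ, hρc⟩ : ∃ ρ : ℝ, 0 < ρ ∧ ∀ p ∈ T, ∀ q ∈ T,
      Conn {x | trWT T a' b' (m - 5 * δ) (n + 5 * δ) w x ≤ c - ρ} p q := by
    refine conn_all hX1.cont fun p hp q hq => ?_
    obtain ⟨S, hS, hSc, hSp, hSq⟩ := hTC p hp q hq
    refine ⟨S, fun x hx => ?_, hSc, hSp, hSq⟩
    show trWT T a' b' (m - 5 * δ) (n + 5 * δ) w x < c
    unfold trWT
    by_cases h1 : ∃ p ∈ T, ‖x - p‖ ≤ a'
    · rw [if_pos h1]
      linarith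
    · rw [if_neg h1]
      have h2 : x ∈ AnnT T a b ∧ w x < c := by
        rcases hS hx with ⟨r, hr, hr'⟩ | h3
        · exact absurd ⟨r, hr, hr'.trans haa'.le⟩ h1
        · exact h3
      by_cases h3 : b' ≤ ‖x‖
      · rw [if_pos h3]
        have := hout x h3 h2.1.1
        linarith [h2.2]
      · rw [if_neg h3]
        refine max_lt (by linarith) ?_
        exact lt_of_le_of_lt (min_le_right _ _) h2.2
  -- the approximating sequence
  obtain ⟨v₀, hv₀s, hv₀u, hv₀1, hv₀2, hv₀c, hv₀i, hv₀3⟩ :=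
    AllM.pAP ε (AnnT T a b) g h w G M hε0 hε1 hU hg hh hw heq hapb K₁ hK₁c hK₁A
  set δ' : ℝ := min δ ρ with hδ'
  have hδ'0 : 0 < δ' := lt_min hδ hρ
  set e : ℕ → ℝ := fun k => δ' / 2 * (1 / ((k : ℝ) + 1)) with he
  have he0 : ∀ k, 0 < e k := fun k => by
    rw [he]
    positivity
  have heδ' : ∀ k, e k < δ' := by
    intro k
    have h1 : 1 / ((k : ℝ) + 1) ≤ 1 := by
      rw [div_le_one (by positivity)]
      linarith [Nat.cast_nonneg (α := ℝ) k]
    have h2 : δ' / 2 * (1 / ((k : ℝ) + 1)) ≤ δ' / 2 * 1 :=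
      mul_le_mul_of_nonneg_left h1 (by positivity)
    simp only [he]
    linarith
  have heδ : ∀ k, e k < δ := fun k => lt_of_lt_of_le (heδ' k) (min_le_left _ _)
  have heρ : ∀ k, e k < ρ := fun k => lt_of_lt_of_le (heδ' k) (min_le_right _ _)
  have helim : Tendsto e atTop (𝓝 0) := by
    have h1 : Tendsto (fun k : ℕ => 1 / ((k : ℝ) + 1)) atTop (𝓝 0) :=
      tendsto_one_div_add_atTop_nhds_zero_nat
    have h2 := h1.const_mul (δ' / 2)
    simpa [he] using h2
  obtain ⟨φ, hφ, hφe⟩ := extraction_forall_of_eventually'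
    (P := fun k N => ∀ x ∈ K₁, |v₀ N x - w x| ≤ e k) (by
      intro k
      have h1 := Metric.tendstoUniformlyOn_iff.mp hv₀u (e k) (he0 k)
      obtain ⟨N, hN⟩ := eventually_atTop.mp h1
      refine ⟨N, fun j hj x hx => ?_⟩
      have h2 := hN j hj x hx
      rw [Real.dist_eq, abs_sub_comm] at h2
      exact h2.le)
  set v : ℕ → E3 → ℝ := fun k => v₀ (φ k) with hv
  have hφt : Tendsto φ atTop atTop := hφ.tendsto_atTop
  have hTRk : ∀ k, ∃ (W : E3 → ℝ) (C : NNReal), TruncT T a' b' (m - 5 * δ) (n + 5 * δ) W ∧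
      LipschitzWith C W ∧ (∀ x, |W x - trWT T a' b' (m - 5 * δ) (n + 5 * δ) w x| ≤ e k) ∧
      (∀ x ∈ AnnT T a b, m - 5 * δ + e k < w x → w x < n + 5 * δ - e k →
        ∀ᶠ y in 𝓝 x, W y = v k y) := by
    intro k
    refine hTRT T a b a' b' (m - 5 * δ) (n + 5 * δ) δ (e k) w (v k) hne ha haa' hb'b hins hdis
      (by linarith) (he0 k) (heδ k) hw.cont (fun p hp x h1 h2 => ?_) (fun x h1 h2 => ?_)
      (hv₀s _) ?_
    · linarith [hin p hp x h1 h2]
    · linarith [hout x h1 h2]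
    · intro x hx h1 h2
      exact hφe k x ⟨hx, by constructor <;> linarith⟩
  choose W C hW1 hW2 hW3 hW4 using hTRk
  have hfill : ∀ k x, |fillT (W k) (m - 5 * δ) (n + 5 * δ) T z₁ x
      - trWT T a' b' (m - 5 * δ) (n + 5 * δ) w x| ≤ e k := by
    intro k x
    have h1 := hFMT T a' b' (m - 5 * δ) (n + 5 * δ) (e k) (W k) _ z₁ (hW1 k) hX1 hz₁n (hW3 k) x
    rwa [hX2 x] at h1
  -- values in a band are values of `w`
  have hval : ∀ (k : ℕ) (y c d : ℝ) (x : E3),
      |y - trWT T a' b' (m - 5 * δ) (n + 5 * δ) w x| ≤ e k →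
      y ∈ Set.Icc c d → m - 4 * δ ≤ c → d ≤ n + 4 * δ →
      x ∈ AnnT T a b ∧ w x ∈ Set.Icc (c - e k) (d + e k) := by
    intro k y c d x h1 h2 h3 h4
    have h5 := abs_le.mp h1
    have h6 := heδ k
    have h7 : trWT T a' b' (m - 5 * δ) (n + 5 * δ) w x ∈ Set.Ioo (m - 5 * δ) (n + 5 * δ) := by
      constructor <;> linarith [h2.1, h2.2, h5.1, h5.2]
    obtain ⟨h8, h9, h10⟩ := trWT_mem h7
    refine ⟨⟨by linarith, fun p hp => by linarith [h8 p hp]⟩, ?_⟩
    rw [h10]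
    constructor <;> linarith [h2.1, h2.2, h5.1, h5.2]
  have hlevels : ∀ (k : ℕ) (x : E3),
      fillT (W k) (m - 5 * δ) (n + 5 * δ) T z₁ x ∈ Set.Icc (m - δ) (n + δ) → x ∈ K := by
    intro k x hx
    obtain ⟨h1, h2⟩ := hval k _ (m - δ) (n + δ) x (hfill k x) hx (by linarith) (by linarith)
    have := heδ k
    exact ⟨h1, by constructor <;> linarith [h2.1, h2.2]⟩
  have hLS : ∀ k, LSDataT T (AnnT T a b) g h a' b' (m - 5 * δ) (n + 5 * δ) (m - δ) (n + δ) c
      (W k) (v k) (C k) z₁ K ψ := by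
    intro k
    have hek := heδ k
    refine ⟨hU, hg, hh, hW1 k, hW2 k, hz₁n, hv₀s _, hKc, hKA, ?_, by linarith, by linarith,
      by linarith, hψ, hψ0, ?_, hlevels k, ?_, ?_⟩
    · intro x hx
      exact hW4 k x hx.1 (by linarith [hx.2.1]) (by linarith [hx.2.2])
    · intro s hs'
      have := hT hs'
      constructor <;> linarith [this.1, this.2]
    · intro x hx
      obtain ⟨h1, h2⟩ := hval k _ (m - δ) (n + δ) x (hW3 k x) hx (by linarith) (by linarith)
      exact ⟨h1, by constructor <;> linarith [h2.1, h2.2]⟩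
    · intro p hp q hq
      obtain ⟨S, hS, hSc, hSp, hSq⟩ := hρc p hp q hq
      refine ⟨S, fun x hx => ?_, hSc, hSp, hSq⟩
      have h1 := hS hx
      have h2 := (abs_le.mp (hfill k x)).2
      have h3 := heρ k
      simp only [Set.mem_ofPred_eq] at h1 ⊢
      linarith
  have hres : volume.restrict K ≤ volume.restrict K₁ := Measure.restrict_mono hKK₁ le_rfl
  have hc1 : ∀ i, Tendsto (fun k => eLpNorm (fun x => pd i (v k) x - G x i) 4
      (volume.restrict K)) atTop (𝓝 0) := by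
    intro i
    refine tendsto_of_tendsto_of_tendsto_of_le_of_le tendsto_const_nhds
      ((hv₀1 i).comp hφt) (fun k => bot_le) fun k => eLpNorm_mono_measure _ hres
  have hc2 : ∀ i j, Tendsto (fun k => eLpNorm (fun x => pd i (pd j (v k)) x - M x i j) 2
      (volume.restrict K)) atTop (𝓝 0) := by
    intro i j
    refine tendsto_of_tendsto_of_tendsto_of_le_of_le tendsto_const_nhds
      ((hv₀2 i j).comp hφt) (fun k => bot_le) fun k => eLpNorm_mono_measure _ hres
  have hnn : ∀ (k : ℕ) (x : E3), 0 ≤ resid ε g h x (grad (v k) x) (hess2 (v k) x) ^ 2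
      / vn (grad (v k) x) := fun k x => div_nonneg (sq_nonneg _) (Real.sqrt_nonneg _)
  refine ⟨a', b', m - 5 * δ, n + 5 * δ, m - δ, n + δ, z₁, K, K', v, W, C, ?_⟩
  refine ⟨hLS, hK'K, hK'c, ?_, ?_, ?_, ?_, hc1, hc2, ?_, ?_, ?_, ?_⟩
  · intro x hx hxs
    have := hT hxs
    exact ⟨hx, by constructor <;> linarith [this.1, this.2]⟩
  · intro k x hx hxs
    have h0 := hT hxs
    obtain ⟨h1, h2⟩ := hval k _ m n x (hfill k x) h0 (by linarith) (by linarith)
    have := heδ k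
    exact ⟨h1, by constructor <;> linarith [h2.1, h2.2]⟩
  · intro k x hx hxs
    have h0 := hT hxs
    have h1 := abs_le.mp (hφe k x (hKK₁ hx))
    have h2 := heδ k
    refine ⟨hx.1, ?_⟩
    simp only [hv] at h0
    constructor <;> linarith [h0.1, h0.2, h1.1, h1.2]
  · intro u hu
    have h1 := (hv₀u.mono hKK₁) u hu
    exact hφt.eventually h1
  · intro k
    exact (hv₀c (φ k)).subset fun x hx => ⟨hKK₁ hx.1, hx.2⟩
  · intro k
    exact (hv₀i (φ k)).mono_set hKK₁
  · refine squeeze_zero (fun k => integral_nonneg fun x => hnn k x) (fun k => ?_)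
      (hv₀3.comp hφt)
    exact setIntegral_mono_set (hv₀i (φ k)) (Filter.Eventually.of_forall fun x => hnn k x)
      (Filter.Eventually.of_forall hKK₁)
  · obtain ⟨f, hf1, hf2, hf3, hf4, hf5⟩ :=
      exists_cut hK'c.isClosed hOo hKc.isClosed hK'O hOK
    have hB := hBADT T (AnnT T a b) a' b' (m - 5 * δ) (n + 5 * δ) w G M K z₁ v W C e f hU hw hKc
      hKA (fun x hx => by constructor <;> linarith [hx.2.1, hx.2.2]) hKab hz₁n
      hX1 hX2 hW1 hW2 (fun k => hv₀s _) (fun k => (hLS k).agree) helim hW3 hc1 hf1 hf2 hf3 hf4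
    have hvs := vsq_int hKc (fun i => hw.memG K hKc hKA i)
    have hfv : IntegrableOn (fun x => f x * vsq (G x)) K := by
      refine Integrable.bdd_mul (c := 1) hvs hf1.continuous.aestronglyMeasurable ?_
      refine Filter.Eventually.of_forall fun x => ?_
      rw [Real.norm_eq_abs, abs_of_nonneg (hf3 x)]
      exact hf4 x
    refine squeeze_zero (fun k => integral_nonneg fun x => Finset.sum_nonneg fun i _ =>
      sq_nonneg _) (fun k => ?_) hB
    have hgm : MeasurableSet (goodT (W k) (m - 5 * δ) (n + 5 * δ) T z₁) := by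
      obtain ⟨h1, h2, -⟩ := hFAT T a' b' (m - 5 * δ) (n + 5 * δ) (W k) (C k) z₁ (hW1 k) (hW2 k)
        hz₁n
      have h3 : IsClosed {x | fillT (W k) (m - 5 * δ) (n + 5 * δ) T z₁ x
          = fillA (W k) (m - 5 * δ) z₁ x} := isClosed_eq h2.continuous h1.continuous
      have h4 : IsClosed {x | fillA (W k) (m - 5 * δ) z₁ x = W k x} :=
        isClosed_eq h1.continuous (hW2 k).continuous
      have h5 : goodT (W k) (m - 5 * δ) (n + 5 * δ) T z₁
          = {x | fillA (W k) (m - 5 * δ) z₁ x = W k x}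
            ∩ {x | fillT (W k) (m - 5 * δ) (n + 5 * δ) T z₁ x
              = fillA (W k) (m - 5 * δ) z₁ x} := by
        ext x
        rfl
      rw [h5]
      exact (h4.inter h3).measurableSet
    calc ∫ x in K' \ goodT (W k) (m - 5 * δ) (n + 5 * δ) T z₁, vsq (G x)
        = ∫ x in K' \ goodT (W k) (m - 5 * δ) (n + 5 * δ) T z₁, f x * vsq (G x) := by
          refine setIntegral_congr_fun (hK'c.measurableSet.diff hgm) fun x hx => ?_
          show vsq (G x) = f x * vsq (G x)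
          rw [hf5 x hx.1, one_mul]
      _ ≤ ∫ x in K \ goodT (W k) (m - 5 * δ) (n + 5 * δ) T z₁, f x * vsq (G x) := by
          refine setIntegral_mono_set (hfv.mono_set Set.sdiff_subset)
            (Filter.Eventually.of_forall fun x => mul_nonneg (hf3 x)
              (Finset.sum_nonneg fun i _ => sq_nonneg _))
            (Filter.Eventually.of_forall fun x hx => ⟨hK'K hx.1, hx.2⟩)

end Pool.Agent.PFU
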