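import Pool.Agent.PFU.StmtsE
import Pool.Agent.PFT.TRN

/-!
# SHH: translation of the notions of the flow
-/

open MeasureTheory Filter Topology
open scoped ContDiff ENNReal

namespace Pool.Agent.PFU

open Pool.Agent.PenroseSph Pool.Agent.PFlow Pool.Agent.PFT

namespace SHH

/-- the translation is measure preserving -/
theorem mpT (p : E3) : MeasurePreserving (fun x : E3 => x + p) volume volume :=
  measurePreserving_add_right volume p

/-- the translation is a measurable embedding -/
theorem meT (p : E3) : MeasurableEmbedding (fun x : E3 => x + p) :=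
  measurableEmbedding_addRight p

theorem cHessS (g : TensorField) (p x : E3) (q : Cov) (N : Bil) :
    cHess (shift p g) x q N = cHess g (x + p) q N := by
  unfold cHess
  simp only [TRN.christoffelS]

theorem cdS (p : E3) {f : E3 → ℝ} {U : Set E3} (h : ContDiffOn ℝ ∞ f U) :
    ContDiffOn ℝ ∞ (fun x => f (x + p)) {x | x + p ∈ U} :=
  h.comp (contDiff_id.add contDiff_const).contDiffOn (fun _ hx => hx)

theorem h2S (p : E3) (U : Set E3) (w : E3 → ℝ) (G : E3 → Cov) (M : E3 → Bil)
    (H : H2On U w G M) :
    H2On {x | x + p ∈ U} (fun x => w (x + p)) (fun x => G (x + p)) (fun x => M (x + p)) := by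
  have himg : ∀ K : Set E3, IsCompact K → K ⊆ {x | x + p ∈ U} →
      IsCompact ((fun x : E3 => x + p) '' K) ∧ (fun x : E3 => x + p) '' K ⊆ U := by
    intro K hK hKU
    refine ⟨hK.image (continuous_id.add continuous_const), ?_⟩
    rintro y ⟨x, hx, rfl⟩
    exact hKU hx
  refine ⟨?_, ?_, ?_, ?_⟩
  · exact H.cont.comp (continuous_id.add continuous_const).continuousOn (fun _ hx => hx)
  · intro K hK hKU i
    obtain ⟨h1, h2⟩ := himg K hK hKU
    exact (H.memG _ h1 h2 i).comp_measurePreserving ((mpT p).restrict_image_emb (meT p) K)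
  · intro K hK hKU i j
    obtain ⟨h1, h2⟩ := himg K hK hKU
    exact (H.memM _ h1 h2 i j).comp_measurePreserving ((mpT p).restrict_image_emb (meT p) K)
  · intro K hK hKU
    obtain ⟨h1, h2⟩ := himg K hK hKU
    obtain ⟨v, hv1, hv2, hv3, hv4⟩ := H.approx _ h1 h2
    refine ⟨fun n x => v n (x + p), fun n => ?_, ?_, fun i => ?_, fun i j => ?_⟩
    · exact (hv1 n).comp (contDiff_id.add contDiff_const)
    · exact (hv2.comp (fun x : E3 => x + p)).mono (Set.subset_preimage_image _ _)
    · have h5 := hv3 i
      have h6 : ∀ n, (∫ x in (fun x : E3 => x + p) '' K, (pd i (v n) x - G x i) ^ 2)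
          = ∫ x in K, (pd i (fun y => v n (y + p)) x - G (x + p) i) ^ 2 := by
        intro n
        rw [(mpT p).setIntegral_image_emb (meT p)
          (fun x => (pd i (v n) x - G x i) ^ 2) K]
        simp only [TRN.pdS]
      simp only [h6] at h5
      exact h5
    · have h5 := hv4 i j
      have h6 : ∀ n, (∫ x in (fun x : E3 => x + p) '' K, (pd i (pd j (v n)) x - M x i j) ^ 2)
          = ∫ x in K, (pd i (pd j (fun y => v n (y + p))) x - M (x + p) i j) ^ 2 := by
        intro n
        rw [(mpT p).setIntegral_image_emb (meT p)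
          (fun x => (pd i (pd j (v n)) x - M x i j) ^ 2) K]
        simp only [TRN.pdS', TRN.pdS]
      simp only [h6] at h5
      exact h5

theorem aeS (p : E3) (U : Set E3) {P : E3 → Prop} (h : ∀ᵐ x ∂(volume.restrict U), P x) :
    ∀ᵐ x ∂(volume.restrict {x : E3 | x + p ∈ U}), P (x + p) :=
  ((mpT p).restrict_preimage_emb (meT p) U).quasiMeasurePreserving.ae h

end SHH

open SHH

/-- SHH. -/
theorem t_SHH : Stmt_SHH := by
  intro p U
  refine ⟨fun w G M H => h2S p U w G M H, fun ε g h G M H => ?_, fun ε g h G M H => ?_,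
    fun g H => ?_, fun h H => ?_, fun ε g h q N x => ?_⟩
  · have h1 := aeS p U H
    unfold EqU
    filter_upwards [h1] with x hx
    rw [cHessS]
    exact hx
  · have h1 := aeS p U H
    unfold EqW
    filter_upwards [h1] with x hx
    rw [cHessS]
    exact hx
  · exact ⟨fun i j => cdS p (H.smooth i j), fun x hx => H.posDef _ hx⟩
  · exact ⟨fun i j => cdS p (H.smooth i j), fun x hx => H.symm _ hx⟩
  · refine ⟨?_, rfl, rfl, rfl, rfl, rfl⟩
    unfold flux
    rw [cHessS]
    rfl

end Pool.Agent.PFU
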