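import Pool.Agent.PFU.StmtsF
import Pool.Agent.PFU.MOLE
import Pool.Agent.PFT.PERC
import Pool.Agent.PFT.PERG

set_option autoImplicit false

/-!
# SUBA: the infima of the areas are subadditive
-/

open MeasureTheory Filter Topology
open scoped ContDiff ENNReal

namespace Pool.Agent.PFU

open Pool.Agent.PenroseSph Pool.Agent.PFlow Pool.Agent.PFT

namespace SUBAm

open MMOLE
open Pool.Agent.PFlow.PERAaux (ar ar_nonneg cont_pd)
open Pool.Agent.PFT.PERSAux (cd_vol cont_len)

variable {P : Finset E3} {g : TensorField} {v : E3 → ℝ} {a b : ℝ}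

theorem ar_int (hg : MetricOn ((P : Set E3))ᶜ g) (hv : Dt P v a b) : Integrable (ar g v) := by
  have hKc : IsCompact (KK P a b) := cpt_KK P a b
  have hKP : ∀ x ∈ KK P a b, x ∉ P := fun x hx => KK_P hv.ha hx
  have h1 : IntegrableOn (ar g v) (KK P a b) := ContinuousOn.integrableOn_compact hKc fun x hx =>
    (cont_len hg hv.sm (hKP x hx)).continuousWithinAt
  rw [← integrable_indicator_iff hKc.measurableSet] at h1
  have e : (KK P a b).indicator (ar g v) = ar g v := by
    funext x
    by_cases hx : x ∈ KK P a b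
    · rw [Set.indicator_of_mem hx]
    · rw [Set.indicator_of_notMem hx]
      unfold ar
      rw [grad_zero hv hx, len_zero, zero_mul]
  rwa [e] at h1

/-- From the energies with exponents `1 + ε` to the area. -/
theorem ar_le (hg : MetricOn ((P : Set E3))ᶜ g) (hv : Dt P v a b) {ε₁ B : ℝ} (hε₁ : 0 < ε₁)
    (h : ∀ ε : ℝ, 0 < ε → ε ≤ ε₁ → ∫ x, len g x (grad v x) ^ (1 + ε) * volDen g x ≤ B) :
    ∫ x, ar g v x ≤ B := by
  have hKc : IsCompact (KK P a b) := cpt_KK P a b
  have hKP : ∀ x ∈ KK P a b, x ∉ P := fun x hx => KK_P hv.ha hx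
  have har := ar_int hg hv
  obtain ⟨M₀, hM₀⟩ := hKc.exists_bound_of_continuousOn (f := fun x => len g x (grad v x))
    fun x hx => (len_cont hg hv.sm (hKP x hx)).continuousWithinAt
  set M := max M₀ 1 with hM
  have hM1 : 1 ≤ M := le_max_right _ _
  have hM0 : 0 < M := by linarith
  have hL : ∀ x, len g x (grad v x) ≤ M := by
    intro x
    by_cases hx : x ∈ KK P a b
    · have h1 := hM₀ x hx
      rw [Real.norm_eq_abs] at h1
      exact ((le_abs_self _).trans h1).trans (le_max_left _ _)
    · rw [grad_zero hv hx, len_zero]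
      exact hM0.le
  -- the sequence of exponents
  set e : ℕ → ℝ := fun n => ε₁ / (n + 1) with he
  have he0 : ∀ n, 0 < e n := fun n => by rw [he]; positivity
  have he1 : ∀ n, e n ≤ ε₁ := fun n => by
    rw [he]
    refine div_le_self hε₁.le ?_
    have : (0 : ℝ) ≤ n := Nat.cast_nonneg n
    linarith
  have het : Tendsto e atTop (𝓝 0) := by
    have h1 := tendsto_one_div_add_atTop_nhds_zero_nat (𝕜 := ℝ)
    have h2 := h1.const_mul ε₁
    rw [mul_zero] at h2
    refine h2.congr fun n => ?_
    rw [he]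
    simp only
    ring
  have hform : ∀ ε : ℝ, 0 < ε → ∀ x, len g x (grad v x) ^ (1 + ε) * volDen g x
      = len g x (grad v x) ^ ε * ar g v x := by
    intro ε hε x
    have h2 : 0 ≤ len g x (grad v x) := Real.sqrt_nonneg _
    rw [Real.rpow_one_add' h2 (by linarith)]
    unfold ar
    ring
  have hlim : Tendsto (fun n => ∫ x, len g x (grad v x) ^ (e n) * ar g v x) atTop
      (𝓝 (∫ x, ar g v x)) := by
    refine tendsto_integral_of_dominated_convergence (fun x => M ^ ε₁ * ar g v x) ?_
      (har.const_mul _) ?_ ?_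
    · intro n
      -- measurability: the function is continuous on the compact set, zero outside
      have hc : ContinuousOn (fun x => len g x (grad v x) ^ (e n) * ar g v x) (KK P a b) := by
        intro x hx
        refine ContinuousAt.continuousWithinAt (ContinuousAt.mul ?_ ?_)
        · exact (len_cont hg hv.sm (hKP x hx)).rpow_const (Or.inr (he0 n).le)
        · exact cont_len hg hv.sm (hKP x hx)
      have h1 : IntegrableOn (fun x => len g x (grad v x) ^ (e n) * ar g v x) (KK P a b) :=
        hc.integrableOn_compact hKc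
      rw [← integrable_indicator_iff hKc.measurableSet] at h1
      have e2 : (KK P a b).indicator (fun x => len g x (grad v x) ^ (e n) * ar g v x)
          = fun x => len g x (grad v x) ^ (e n) * ar g v x := by
        funext x
        by_cases hx : x ∈ KK P a b
        · rw [Set.indicator_of_mem hx]
        · rw [Set.indicator_of_notMem hx]
          unfold ar
          rw [grad_zero hv hx, len_zero, zero_mul, mul_zero]
      rw [e2] at h1
      exact h1.aestronglyMeasurable
    · intro n
      refine Eventually.of_forall fun x => ?_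
      have h2 : 0 ≤ len g x (grad v x) := Real.sqrt_nonneg _
      have h3 := ar_nonneg g v x
      rw [Real.norm_of_nonneg (mul_nonneg (Real.rpow_nonneg h2 _) h3)]
      refine mul_le_mul_of_nonneg_right ?_ h3
      exact (Real.rpow_le_rpow h2 (hL x) (he0 n).le).trans
        (Real.rpow_le_rpow_of_exponent_le hM1 (he1 n))
    · refine Eventually.of_forall fun x => ?_
      have h2 : 0 ≤ len g x (grad v x) := Real.sqrt_nonneg _
      rcases h2.eq_or_lt with h0 | h0
      · have h4 : ar g v x = 0 := by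
          unfold ar
          rw [← h0, zero_mul]
        simp only [h4, mul_zero]
        exact tendsto_const_nhds
      · have h5 : Tendsto (fun n => len g x (grad v x) ^ (e n)) atTop (𝓝 1) := by
          have h6 := (Real.continuousAt_const_rpow h0.ne' (b := 0)).tendsto.comp het
          rw [Real.rpow_zero] at h6
          exact h6
        have h7 := h5.mul_const (ar g v x)
        rw [one_mul] at h7
        exact h7
  refine le_of_tendsto hlim (Eventually.of_forall fun n => ?_)
  have h1 := h (e n) (he0 n) (he1 n)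
  rw [integral_congr_ae (Eventually.of_forall fun x => hform (e n) (he0 n) x)] at h1
  exact h1

/-- The product. -/
theorem pd_prod {v v' : E3 → ℝ} (hv : ContDiff ℝ ∞ v) (hv' : ContDiff ℝ ∞ v') (x : E3)
    (i : Fin 3) : pd i (fun y => (1 - v y) * (1 - v' y)) x
      = -(1 - v' x) * pd i v x + -(1 - v x) * pd i v' x := by
  have h1 : DifferentiableAt ℝ v x := (hv.differentiable (by simp)) x
  have h2 : DifferentiableAt ℝ v' x := (hv'.differentiable (by simp)) x
  have e1 : HasFDerivAt (fun y => 1 - v y) (-(fderiv ℝ v x)) x := h1.hasFDerivAt.const_sub 1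
  have e2 : HasFDerivAt (fun y => 1 - v' y) (-(fderiv ℝ v' x)) x := h2.hasFDerivAt.const_sub 1
  have e3 : HasFDerivAt (fun y => (1 - v y) * (1 - v' y))
      ((1 - v x) • -(fderiv ℝ v' x) + (1 - v' x) • -(fderiv ℝ v x)) x := e1.mul e2
  unfold pd
  rw [e3.fderiv]
  simp only [_root_.add_apply, _root_.smul_apply,
    _root_.neg_apply, smul_eq_mul]
  ring

theorem ar_prod (hg : MetricOn ((P : Set E3))ᶜ g) {v v' : E3 → ℝ} (hv : ContDiff ℝ ∞ v)
    (hv' : ContDiff ℝ ∞ v') (h1 : ∀ x, 0 ≤ v x ∧ v x ≤ 1) (h2 : ∀ x, 0 ≤ v' x ∧ v' x ≤ 1)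
    {x : E3} (hx : x ∉ P) :
    ar g (fun y => (1 - v y) * (1 - v' y)) x ≤ ar g v x + ar g v' x := by
  have e : grad (fun y => (1 - v y) * (1 - v' y)) x
      = fun i => (fun i => -(1 - v' x) * grad v x i) i + (fun i => -(1 - v x) * grad v' x i) i := by
    funext i
    exact pd_prod hv hv' x i
  have h3 := PERGm.len_add_le (hg.posDef x hx) (fun i => -(1 - v' x) * grad v x i)
    (fun i => -(1 - v x) * grad v' x i)
  rw [PERCm.len_smul_abs, PERCm.len_smul_abs, abs_neg, abs_neg,
    abs_of_nonneg (sub_nonneg.2 (h2 x).2), abs_of_nonneg (sub_nonneg.2 (h1 x).2)] at h3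
  have h4 : 0 ≤ volDen g x := Real.sqrt_nonneg _
  have h5 : 0 ≤ len g x (grad v x) := Real.sqrt_nonneg _
  have h6 : 0 ≤ len g x (grad v' x) := Real.sqrt_nonneg _
  have h7 : len g x (grad (fun y => (1 - v y) * (1 - v' y)) x)
      ≤ len g x (grad v x) + len g x (grad v' x) := by
    rw [e]
    refine h3.trans (add_le_add ?_ ?_)
    · exact mul_le_of_le_one_left h5 (by linarith [(h2 x).1])
    · exact mul_le_of_le_one_left h6 (by linarith [(h1 x).1])
  unfold ar
  nlinarith [mul_le_mul_of_nonneg_right h7 h4]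

theorem exists_balls (P : Finset E3) {a₀ : ℝ} (ha₀ : 0 < a₀) (b₀ : ℝ) :
    ∃ a r : ℝ, 0 < a ∧ a ≤ a₀ ∧ b₀ ≤ r ∧ Balls P (fun _ => a) r := by
  have h3 : ∀ᶠ e in 𝓝[>] (0 : ℝ), ∀ p ∈ P, ∀ p' ∈ P, p ≠ p' → 2 * e < ‖p - p'‖ := by
    rw [Filter.eventually_all_finset]
    intro p hp
    rw [Filter.eventually_all_finset]
    intro p' hp'
    by_cases h : p = p'
    · exact Filter.Eventually.of_forall fun e h' => absurd h h'
    · have h4 : 0 < ‖p - p'‖ := norm_pos_iff.2 (sub_ne_zero.2 h)
      filter_upwards [PERCm.small (half_pos h4)] with e he _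
      linarith
  obtain ⟨a, ⟨h5, h7⟩, h8⟩ := (((PERCm.small ha₀).and h3).and self_mem_nhdsWithin).exists
  replace h8 : 0 < a := h8
  have h9 : ∀ᶠ r in (atTop : Filter ℝ), ∀ p ∈ P, ‖p‖ + a < r := by
    rw [Filter.eventually_all_finset]
    exact fun p _ => eventually_gt_atTop _
  obtain ⟨r, h10, h11⟩ := (h9.and (eventually_ge_atTop b₀)).exists
  refine ⟨a, r, h8, h5.le, h11, ⟨fun p _ => h8, h10, fun p hp q hq hne => ?_⟩⟩
  have := h7 p hp q hq hne
  linarith

end SUBAm

open SUBAm MMOLE in
open Pool.Agent.PFlow.PERAaux (ar ar_nonneg cont_pd) in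
theorem t_SUBA (hMOLE : Stmt_MOLE) (hPERG : Stmt_PERG) : Stmt_SUBA := by
  classical
  intro P S S' g hS hS' hg
  rcases eq_or_ne (minAreaOf P S g) ⊤ with h1 | h1
  · rw [h1, top_add]
    exact le_top
  rcases eq_or_ne (minAreaOf P S' g) ⊤ with h2 | h2
  · rw [h2, add_top]
    exact le_top
  obtain ⟨A₁, hA₁⟩ : ∃ A₁ : ℝ, A₁ = (minAreaOf P S g).toReal := ⟨_, rfl⟩
  obtain ⟨A₂, hA₂⟩ : ∃ A₂ : ℝ, A₂ = (minAreaOf P S' g).toReal := ⟨_, rfl⟩
  have hA10 : 0 ≤ A₁ := by rw [hA₁]; exact ENNReal.toReal_nonneg
  have hA20 : 0 ≤ A₂ := by rw [hA₂]; exact ENNReal.toReal_nonneg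
  have e1 : minAreaOf P S g = ENNReal.ofReal A₁ := by rw [hA₁, ENNReal.ofReal_toReal h1]
  have e2 : minAreaOf P S' g = ENNReal.ofReal A₂ := by rw [hA₂, ENNReal.ofReal_toReal h2]
  rw [e1, e2, ← ENNReal.ofReal_add hA10 hA20]
  -- the main estimate
  have key : ∀ A : ℝ, 0 ≤ A → ENNReal.ofReal A ≤ minAreaOf P (S ∪ S') g → A ≤ A₁ + A₂ := by
    intro A hA hAm
    have hlow : LowerP P (S ∪ S') g A := by
      intro U hU hc
      refine hAm.trans ?_
      unfold minAreaOf
      exact iInf₂_le U ⟨hU, hc⟩
    -- nearly optimal regions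
    have hreg : ∀ (T : Finset E3) (B τ : ℝ), 0 ≤ B → minAreaOf P T g = ENNReal.ofReal B →
        0 < τ → ∃ U : Set E3, RegionP P U ∧ (∀ p ∈ T, ContainsEnd p U) ∧
          perimeterP P g U ≤ ENNReal.ofReal (B + τ) := by
      intro T B τ hB hT hτ
      have h3 : minAreaOf P T g < ENNReal.ofReal (B + τ) := by
        rw [hT]
        exact (ENNReal.ofReal_lt_ofReal_iff (by linarith)).2 (by linarith)
      unfold minAreaOf at h3
      rw [iInf_lt_iff] at h3
      obtain ⟨U, hU⟩ := h3
      rw [iInf_lt_iff] at hU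
      obtain ⟨⟨hU1, hU2⟩, hU3⟩ := hU
      exact ⟨U, hU1, hU2, hU3.le⟩
    have main : ∀ τ : ℝ, 0 < τ → τ < 1 / 2 → A * (1 - 2 * τ) ≤ A₁ + A₂ + 4 * τ := by
      intro τ hτ hτ2
      obtain ⟨U, hU, hUc, hUp⟩ := hreg S A₁ τ hA10 e1 hτ
      obtain ⟨U', hU', hUc', hUp'⟩ := hreg S' A₂ τ hA20 e2 hτ
      obtain ⟨v, a, b, ε₁, ha, hb, hε₁, hvs, hv01, hvb, hva, hv1, hven⟩ :=
        hMOLE P g U (A₁ + τ) τ hg hU (by linarith) hUp hτ
      obtain ⟨v', a', b', ε₁', ha', hb', hε₁', hvs', hv01', hvb', hva', hv1', hven'⟩ :=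
        hMOLE P g U' (A₂ + τ) τ hg hU' (by linarith) hUp' hτ
      have hD : Dt P v a b := ⟨hvs, ha, hvb, hva⟩
      have hD' : Dt P v' a' b' := ⟨hvs', ha', hvb', hva'⟩
      have i1 := ar_int hg hD
      have i2 := ar_int hg hD'
      have j1 : ∫ x, ar g v x ≤ A₁ + τ + τ := ar_le hg hD hε₁ hven
      have j2 : ∫ x, ar g v' x ≤ A₂ + τ + τ := ar_le hg hD' hε₁' hven'
      obtain ⟨c, r, hc, hca, hr, hB⟩ := exists_balls P (lt_min ha ha') (max b b')
      set w : E3 → ℝ := fun y => (1 - v y) * (1 - v' y) with hw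
      have hws : ContDiff ℝ ∞ w := (contDiff_const.sub hvs).mul (contDiff_const.sub hvs')
      have hKc : IsCompact (kset P (fun _ => c) r) := PERGm.isCompact_kset P _ r
      have hKP : ∀ x ∈ kset P (fun _ => c) r, x ∉ P := by
        intro x hx hxP
        have := hx.2 x hxP
        simp at this
        linarith
      have hL1 : L1Approx (kset P (fun _ => c) r) w (grad w) := by
        refine ⟨hws.continuous.continuousOn, fun i => ?_, fun _ => w, fun _ => hws, ?_,
          fun i => ?_⟩
        · exact (PERCm.pd_cont hws i).continuousOn.integrableOn_compact hKc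
        · rw [Metric.tendstoUniformlyOn_iff]
          intro ε hε
          refine Eventually.of_forall fun n x _ => ?_
          rw [dist_self]
          exact hε
        · have : ∀ x, |pd i w x - grad w x i| = 0 := fun x => by
            unfold grad
            rw [sub_self, abs_zero]
          simp only [this, integral_zero]
          exact tendsto_const_nhds
      have hcaa : c ≤ a := hca.trans (min_le_left _ _)
      have hcaa' : c ≤ a' := hca.trans (min_le_right _ _)
      have hP1 := hPERG P (S ∪ S') g w (grad w) (fun _ => c) w r τ (1 - τ)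
        (Finset.union_subset hS hS') hg hB (by linarith) hL1 ?_ ?_ ?_ A hA hlow
      · have hP2 : A * (1 - τ - τ) ≤ ∫ x in kset P (fun _ => c) r ∩ {x | τ ≤ w x ∧ w x ≤ 1 - τ},
            len g x (grad w x) * volDen g x := hP1
        have hmono : ∫ x in kset P (fun _ => c) r ∩ {x | τ ≤ w x ∧ w x ≤ 1 - τ},
            len g x (grad w x) * volDen g x ≤ ∫ x, (ar g v x + ar g v' x) := by
          have hmeas : MeasurableSet (kset P (fun _ => c) r ∩ {x | τ ≤ w x ∧ w x ≤ 1 - τ}) := by
            refine hKc.measurableSet.inter ?_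
            have : {x | τ ≤ w x ∧ w x ≤ 1 - τ} = w ⁻¹' (Set.Icc τ (1 - τ)) := rfl
            rw [this]
            exact hws.continuous.measurable measurableSet_Icc
          have hint : IntegrableOn (fun x => ar g v x + ar g v' x) Set.univ :=
            (i1.add i2).integrableOn
          have s1 : ∫ x in kset P (fun _ => c) r ∩ {x | τ ≤ w x ∧ w x ≤ 1 - τ},
              len g x (grad w x) * volDen g x
              ≤ ∫ x in kset P (fun _ => c) r ∩ {x | τ ≤ w x ∧ w x ≤ 1 - τ},
                (ar g v x + ar g v' x) := by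
            refine setIntegral_mono_on ?_ (hint.mono_set (Set.subset_univ _)) hmeas ?_
            · have : IntegrableOn (fun x => len g x (grad w x) * volDen g x)
                  (kset P (fun _ => c) r) :=
                ContinuousOn.integrableOn_compact hKc fun x hx =>
                  (Pool.Agent.PFT.PERSAux.cont_len hg hws (hKP x hx)).continuousWithinAt
              exact this.mono_set Set.inter_subset_left
            · intro x hx
              exact ar_prod hg hvs hvs' hv01 hv01' (hKP x hx.1)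
          refine s1.trans ?_
          refine setIntegral_le_integral (i1.add i2) ?_
          exact Eventually.of_forall fun x => add_nonneg (ar_nonneg g v x) (ar_nonneg g v' x)
        rw [integral_add i1 i2] at hmono
        have e3 : A * (1 - 2 * τ) = A * (1 - τ - τ) := by ring
        rw [e3]
        linarith
      · intro x hx
        have f1 : v x = 0 := hvb x (by rw [hx]; exact (le_max_left _ _).trans hr)
        have f2 : v' x = 0 := hvb' x (by rw [hx]; exact (le_max_right _ _).trans hr)
        simp only [hw, f1, f2]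
        linarith
      · intro p hp x hx
        rcases Finset.mem_union.1 hp with hp | hp
        · have f1 : v x = 1 := by
            rw [hva p (hS hp) x (by rw [hx]; exact hcaa), hv1 p (hS hp) (hUc p hp)]
          simp only [hw, f1]
          linarith
        · have f1 : v' x = 1 := by
            rw [hva' p (hS' hp) x (by rw [hx]; exact hcaa'), hv1' p (hS' hp) (hUc' p hp)]
          simp only [hw, f1]
          linarith
      · intro p hp _ x hx
        simp only [hw]
        rw [hva p hp x (by rw [hx]; exact hcaa), hva' p hp x (by rw [hx]; exact hcaa')]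
    -- the limit `τ → 0`
    have t1 : Tendsto (fun τ : ℝ => A * (1 - 2 * τ)) (𝓝[>] 0) (𝓝 (A * (1 - 2 * 0))) :=
      (Continuous.tendsto (by fun_prop) 0).mono_left nhdsWithin_le_nhds
    have t2 : Tendsto (fun τ : ℝ => A₁ + A₂ + 4 * τ) (𝓝[>] 0) (𝓝 (A₁ + A₂ + 4 * 0)) :=
      (Continuous.tendsto (by fun_prop) 0).mono_left nhdsWithin_le_nhds
    have t3 : A * (1 - 2 * 0) ≤ A₁ + A₂ + 4 * 0 := by
      refine le_of_tendsto_of_tendsto t1 t2 ?_
      filter_upwards [Ioo_mem_nhdsGT (show (0 : ℝ) < 1 / 2 by norm_num)] with τ hτ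
      exact main τ hτ.1 hτ.2
    linarith
  by_contra hcon
  rw [not_le] at hcon
  obtain ⟨q, hq1, hq2⟩ := ENNReal.lt_iff_exists_nnreal_btwn.1 hcon
  have h3 := key q q.2 (by rw [ENNReal.ofReal_coe_nnreal]; exact hq2.le)
  have h4 : ENNReal.ofReal (A₁ + A₂) < ENNReal.ofReal (q : ℝ) := by
    rw [ENNReal.ofReal_coe_nnreal]
    exact hq1
  rw [ENNReal.ofReal_lt_ofReal_iff_of_nonneg (by linarith)] at h4
  linarith

end Pool.Agent.PFU
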