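import Pool.Agent.PFU.StmtsP

/-!
# SUBLT: comparison for the limit   (helper21)
-/

open MeasureTheory Filter Topology Set
open scoped ContDiff RealInnerProductSpace

namespace Pool.Agent.PFU

open Pool.Agent.PenroseSph Pool.Agent.PFlow Pool.Agent.PFT Pool.Agent.PFlow.PB

namespace SUBLTaux

open Pool.Agent.PFlow.PB.SUBLaux

lemma key {ε a b : ℝ} {T : Finset E3} {g h : TensorField} {Θ θ : E3 → ℝ} {B t₀ : ℝ}
    {δ κ : ℕ → ℝ} {u : ℕ → E3 → ℝ} {G : ℕ → E3 → E3} {M : ℕ → Fin 3 → E3 → E3} {C : ℝ}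
    {v : E3 → ℝ} {F : E3 → E3} {N : Fin 3 → E3 → E3}
    (H : LimT T ε a b g h Θ θ B t₀ δ κ u G M C v F N) (s : ℝ) (hs1 : s = 1 ∨ s = -1)
    (K : Set E3) (hK : IsCompact K) (f : E3 → ℝ) (hf : ∀ x ∈ K, ContDiffAt ℝ 2 f x)
    (σ δ₀ : ℝ) (hσ : 0 < σ) (hδ₀ : 0 < δ₀)
    (hop : ∀ δ κ : ℝ, 0 < δ → δ ≤ δ₀ → 0 < κ → κ ≤ δ₀ → ∀ x ∈ K,
      σ ≤ s * (opL ε δ κ g x (grad f x) (hess2 f x) + cB ε δ g h x (vec (grad f x))))
    (hpen : ∀ n, ∀ x ∈ K, s * (Θ x * u n x - θ x) ≤ 0)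
    (hfr : ∀ x ∈ frontier K, s * (f x - v x) ≤ 0) : ∀ x ∈ K, s * (f x - v x) ≤ 0 := by
  have hb : BRID := PB.pBRID
  have hc : CCPT := PB.pCCPT
  intro x hx
  refine le_of_forall_pos_le_add fun η hη => ?_
  have hss : s * s = 1 := by
    rcases hs1 with h | h <;> rw [h] <;> norm_num
  have hsa : |s| = 1 := by
    rcases hs1 with h | h <;> rw [h] <;> norm_num
  have e1 : ∀ᶠ n in atTop, δ n < δ₀ := H.δ_tend.eventually_lt_const hδ₀
  have e2 : ∀ᶠ n in atTop, κ n < δ₀ := H.κ_tend.eventually_lt_const hδ₀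
  have e3 : ∀ᶠ n in atTop, ∀ y ∈ K, dist (v y) (u n y) < η / 2 :=
    (Metric.tendstoUniformlyOn_iff.mp (H.unif K hK)) (η / 2) (by linarith)
  obtain ⟨n, h1, h2, h3⟩ := (e1.and (e2.and e3)).exists
  have h3' : ∀ y ∈ K, |s * (u n y - v y)| ≤ η / 2 := by
    intro y hy
    rw [abs_mul, hsa, one_mul, abs_sub_comm, ← Real.dist_eq]
    exact (h3 y hy).le
  have hb0 : 0 < b := by
    obtain ⟨p, hp⟩ := H.pts.ne
    have h5 := H.pts.inside p hp
    have h6 := H.pts.pos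
    have h7 := norm_nonneg p
    linarith
  have hGD : GData g h (3 * b / 2) := gdata_mono H.data (by linarith)
  obtain ⟨c, L, hP⟩ := hb.coef ε (δ n) (κ n) g h (3 * b / 2) H.eps_pos H.eps_lt (H.δ_pos n)
    (H.κ_pos n) (by linarith) hGD
  have hfr' : frontier K ⊆ K := hK.isClosed.frontier_subset
  have main := hc _ _ c L (3 * b / 2) Θ θ B t₀ hP H.pen.pen (u n) (G n) (H.sol n) (H.cont n) s hs1
    K (fun y => f y + (-(s * (η / 2)))) hK (fun y hy => (hf y hy).add contDiffAt_const) σ hσ ?_ ?_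
    x hx
  · have h4 := abs_le.mp (h3' x hx)
    have e4 : s * (f x + -(s * (η / 2)) - u n x) =
        s * (f x - v x) - s * (u n x - v x) - (s * s) * (η / 2) := by ring
    rw [e4, hss] at main
    linarith [h4.1, h4.2]
  · intro y hy _
    rw [gr_add_const]
    simp only [hs_add_const]
    obtain ⟨j1, j2⟩ := hb.jet f y (hf y hy)
    rw [hb.op ε (δ n) (κ n) g h (b / 2) H.eps_pos H.eps_lt (H.δ_pos n) (H.κ_pos n) H.data, j1, j2]
    have h5 := hop (δ n) (κ n) (H.δ_pos n) h1.le (H.κ_pos n) h2.le y hy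
    have h6 := hpen n y hy
    have h7 : (vec (grad f y)).ofLp = grad f y := rfl
    rw [h7, mul_sub]
    linarith
  · intro y hy
    have h4 := abs_le.mp (h3' y (hfr' hy))
    have h5 := hfr y hy
    have e4 : s * (f y + -(s * (η / 2)) - u n y) =
        s * (f y - v y) - s * (u n y - v y) - (s * s) * (η / 2) := by ring
    rw [e4, hss]
    linarith [h4.1, h4.2]

end SUBLTaux

/-- SUBLT: comparison for the limit. -/
theorem t_SUBLT : Stmt_SUBLT := by
  intro T ε a b g h Θ θ B t₀ δ κ u G M C v F N H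
  have hk : KPOS := kPOS
  have hΘ : ∀ x, 0 ≤ Θ x := fun x => (H.pen.pen.nonneg x).trans (H.pen.pen.le x)
  constructor
  · intro K hK hKs f hf hpos hfr x hx
    obtain ⟨σ, δ₀, hσ, hδ₀, hop⟩ :=
      (hk ε g h (b / 2) H.eps_pos H.eps_lt H.data K f hK hf).1 hpos
    have main := SUBLTaux.key H 1 (Or.inl rfl) K hK f hf σ δ₀ hσ hδ₀ ?_ ?_ ?_ x hx
    · linarith
    · intro δ' κ' k1 k2 k3 k4 y hy
      rw [one_mul]
      exact hop δ' κ' k1 k2 k3 k4 y hy
    · intro n y hy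
      rw [one_mul, ← H.pen.inn y (hKs hy)]
      have := mul_nonneg (hΘ y) (sub_nonneg.mpr (H.le_one n y))
      linarith
    · intro y hy
      have := hfr y hy
      linarith
  · intro K hK hKs f hf hneg hfr x hx
    obtain ⟨σ, δ₀, hσ, hδ₀, hop⟩ :=
      (hk ε g h (b / 2) H.eps_pos H.eps_lt H.data K f hK hf).2 hneg
    have main := SUBLTaux.key H (-1) (Or.inr rfl) K hK f hf σ δ₀ hσ hδ₀ ?_ ?_ ?_ x hx
    · linarith
    · intro δ' κ' k1 k2 k3 k4 y hy
      have := hop δ' κ' k1 k2 k3 k4 y hy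
      linarith
    · intro n y hy
      rw [H.pen.out y (hKs hy)]
      have := mul_nonneg (hΘ y) (H.nonneg n y)
      linarith
    · intro y hy
      have := hfr y hy
      linarith

end Pool.Agent.PFU
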