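import Pool.Agent.PFU.StmtsF
import Pool.Agent.PFT.TFA

/-!
# TFO: the inequality for a set of ends which does not split

The flow from the ends of `T` (EPSTT), the perimeter (PERD) with `S = T`, the limit (LIMU) with
`c = 1 + C/M`, and then `M → ∞`.
-/

set_option autoImplicit false

open MeasureTheory Filter Topology
open scoped ContDiff ENNReal

namespace Pool.Agent.PFU

open Pool.Agent.PenroseSph Pool.Agent.PFlow Pool.Agent.PFT

namespace TFOAux

/-- The bound of all the numbers `A` gives the theorem. -/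
lemma conclude {P T : Finset E3} {g : TensorField} {m : ℝ}
    (h : ∀ A : ℝ, 0 ≤ A → LowerP P T g A → 0 < m ∧ A ≤ 16 * Real.pi * m ^ 2) :
    minAreaOf P T g ≠ ⊤ ∧ Real.sqrt ((minAreaOf P T g).toReal / (16 * Real.pi)) ≤ m := by
  have hlow : ∀ A : ℝ, ENNReal.ofReal A ≤ minAreaOf P T g → LowerP P T g A := by
    intro A hA U hU hc
    exact hA.trans (iInf₂_le U ⟨hU, hc⟩)
  have hpos : 0 ≤ 16 * Real.pi * m ^ 2 := by positivity
  have hne : minAreaOf P T g ≠ ⊤ := by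
    intro htop
    have h1 := (h (16 * Real.pi * m ^ 2 + 1) (by linarith)
      (hlow _ (by rw [htop]; exact le_top))).2
    linarith
  have h2 := h (minAreaOf P T g).toReal ENNReal.toReal_nonneg
    (hlow _ (by rw [ENNReal.ofReal_toReal hne]))
  refine ⟨hne, ?_⟩
  rw [Real.sqrt_le_left h2.1.le, div_le_iff₀ (by positivity)]
  refine h2.2.trans (le_of_eq ?_)
  ring

end TFOAux

open TFOAux in
theorem t_TFO (hEPSTT : Stmt_EPSTT) (hPERD : Stmt_PERD) (hLIMU : Stmt_LIMU) (hELL : Stmt_ELL) :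
    Stmt_TFO := by
  intro P T g k m hTP h0T hSE hsur hpl hun hfar hm
  classical
  obtain ⟨ρ, r₀, ε₁, C₀, hρ, hr0, hε₁, hε₁4, hC₀, hρq, hr0q, H⟩ :=
    hEPSTT P T g k m hTP h0T hSE hsur hpl hun hfar hm
  obtain ⟨C, hC, HM⟩ := hPERD P T g ρ (3 * r₀ / 2) hTP hSE.metric (hELL P g k hSE) hρ
    (fun q hq => by have h1 := hr0q q hq; linarith) hρq
  -- the bound for fixed `M`
  have hM : ∀ A : ℝ, 0 ≤ A → LowerP P T g A → ∀ M : ℕ, 1 ≤ M →
      0 < m ∧ A ≤ (1 + C / M) * (16 * Real.pi * m ^ 2) := by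
    intro A hA hAL M hM1
    obtain ⟨δ, hδ, hδρ, hB, hmain⟩ := HM M hM1
    set K := kset P (aDelT T ρ δ) (3 * r₀ / 2) with hK
    have hKc : IsCompact K := PFT.TFAAux.isCompact_kset _ _ _
    have hKp : ∀ x ∈ K, (∀ p ∈ T, ρ / 2 ≤ ‖x - p‖) ∧ ‖x‖ ≤ 2 * r₀ ∧
        ∀ p ∈ P, p ∉ T → δ ≤ ‖x - p‖ := by
      intro x hx
      refine ⟨fun p hp => ?_, ?_, fun q hq hqT => ?_⟩
      · have h4 := hx.2 p (hTP hp)
        rw [aDelT, if_pos hp] at h4
        linarith
      · have h6 := hx.1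
        linarith
      · have h7 := hx.2 q hq
        rwa [aDelT, if_neg hqT] at h7
    set I := ∫ x in K, volDen g x with hI
    have hI0 : 0 ≤ I := integral_nonneg fun x => PFT.TFAAux.volDen_nonneg g x
    have hc0 : 0 ≤ 1 + C / (M : ℝ) := by positivity
    refine hLIMU m A (1 + C / M) (I + 1) C₀ ε₁ (by linarith) hA hc0 hC₀ hε₁ ?_
    intro ε τ s₀ s₁ hε hε2 hτ hεs hs hs1
    obtain ⟨lm, J, w, G, hlm, hJ, h1, h2, hF⟩ := H r₀ ε τ δ le_rfl hε hε2 hτ hδ
    refine ⟨lm, J, hlm, hJ, h1, h2, ?_⟩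
    have hexp : 0 ≤ Real.exp s₁ - Real.exp s₀ := sub_nonneg.2 (Real.exp_le_exp.2 hs.le)
    have h3 := hmain T w G (fun _ => 0) s₀ s₁ (Finset.Subset.refl T) hs (hF.approx K hKc hKp)
      (fun x hx => hs1.trans_lt (hF.outer x (by rw [hx]; linarith) (by rw [hx]; linarith)))
      (fun p hp x hx => (hF.inner p hp x (by rw [hx]; linarith) hx.le).trans_le hεs)
      (fun p hp hpn => absurd hp hpn) A hA hAL
    refine h3.trans (mul_le_mul_of_nonneg_left ?_ hc0)
    refine (hF.bound K hKc hKp s₀ s₁ hεs hs hs1).trans ?_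
    refine mul_le_mul_of_nonneg_left ?_ (Real.rpow_nonneg (mul_nonneg hJ hexp) _)
    exact Real.rpow_le_rpow hI0 (by linarith) (by positivity)
  refine conclude fun A hA hAL => ⟨(hM A hA hAL 1 le_rfl).1, ?_⟩
  exact PFT.TFAAux.limit fun M hM1 => (hM A hA hAL M hM1).2

end Pool.Agent.PFU
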