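import Pool.Agent.PFU.StmtsF

/-!
# The inequality for every `T` which does not split, by translation
-/

open MeasureTheory Filter Topology
open scoped ContDiff ENNReal

namespace Pool.Agent.PFU

open Pool.Agent.PenroseSph Pool.Agent.PFlow Pool.Agent.PFT

namespace TFV

lemma mem_trans {P : Finset E3} {p q : E3} : q ∈ PFT.trans P p ↔ q + p ∈ P := by
  unfold PFT.trans
  rw [Finset.mem_map]
  constructor
  · rintro ⟨x, hx, rfl⟩
    simpa using hx
  · intro h
    exact ⟨q + p, h, by simp⟩

lemma trans_neg (S : Finset E3) (p : E3) : PFT.trans (PFT.trans S (-p)) p = S := by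
  ext q
  rw [mem_trans, mem_trans, add_neg_cancel_right]

lemma unsplit_trans (hTRA : Stmt_TRA) {P T : Finset E3} {g : TensorField} (p : E3)
    (h : Unsplit P T g) : Unsplit (PFT.trans P p) (PFT.trans T p) (shift p g) := by
  intro S' hS' hne hneT
  obtain ⟨S, rfl⟩ : ∃ S : Finset E3, S' = PFT.trans S p := ⟨_, (trans_neg S' p).symm⟩
  have hsub : S ⊆ T := by
    intro q hq
    have h1 : q - p ∈ PFT.trans S p := mem_trans.2 (by simpa using hq)
    have h2 := mem_trans.1 (hS' h1)
    simpa using h2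
  have hS0 : S.Nonempty := by
    obtain ⟨q, hq⟩ := hne
    exact ⟨q + p, mem_trans.1 hq⟩
  have hST : S ≠ T := by
    rintro rfl
    exact hneT rfl
  have hd : PFT.trans T p \ PFT.trans S p = PFT.trans (T \ S) p := by
    ext q
    rw [Finset.mem_sdiff, mem_trans, mem_trans, mem_trans, Finset.mem_sdiff]
  rw [hd, hTRA, hTRA, hTRA]
  exact h S hsub hS0 hST

end TFV

open TFV

/-- **TFV.** The inequality for every `T` which does not split. -/
theorem t_TFV (hTFO : Stmt_TFO) (hTRA : Stmt_TRA) (hTRN : Stmt_TRN) (hTRM : Stmt_TRM) :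
    Stmt_TFV := by
  intro P T g k m hTP hT hSE hsur hpl hun hfar hm
  obtain ⟨p, hp⟩ := hT
  obtain ⟨hSE', hsur', hpl'⟩ := hTRN P g k p hSE
  obtain ⟨hm', hfar'⟩ := hTRM P g k p hSE
  have h0 : (0 : E3) ∈ PFT.trans T p := mem_trans.2 (by simpa using hp)
  have hsub : PFT.trans T p ⊆ PFT.trans P p := fun q hq => mem_trans.2 (hTP (mem_trans.1 hq))
  have h := hTFO (PFT.trans P p) (PFT.trans T p) (shift p g) (shift p k) m hsub h0 hSE'
    (hsur' hsur) (hpl' hpl) (unsplit_trans hTRA p hun) (hfar' hfar) (hm' m hm)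
  rwa [hTRA] at h

end Pool.Agent.PFU
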