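import Pool.Agent.PFU.StmtsF

/-!
# TMU: the main theorem from TFV, PART and RLIMK
-/

open MeasureTheory Filter Topology
open scoped ContDiff ENNReal

namespace Pool.Agent.PFU

open Pool.Agent.PenroseSph Pool.Agent.PFlow Pool.Agent.PFT

namespace TMU

theorem surplus_eq_required (g h : TensorField) (x : E3) :
    2 * surplus g h x = scalarCurvature g x - required g h x := by
  have h1 : traceWith g h x = trg g x (h x) := rfl
  have h2 : normSqWith g h x = nsq g x (h x) := rfl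
  unfold surplus energyDensity required
  rw [h1, h2]
  ring

/-- the first part -/
theorem unsplit (hTFV : Stmt_TFV) (hRLIMK : Stmt_RLIMK) (P : Finset E3) (g h : TensorField)
    (m : ℝ) (H : SeveralEnds P g h) (hE : EnergyCondition P g h)
    (hc : ∃ k : TensorField, CompetitorP P g h k) (hm : IsTotalMass g m)
    (T : Finset E3) (hT : T ⊆ P) (hT0 : T.Nonempty) (hU : Unsplit P T g) :
    minAreaOf P T g ≠ ⊤ ∧ Real.sqrt ((minAreaOf P T g).toReal / (16 * Real.pi)) ≤ m := by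
  obtain ⟨k, hk⟩ := hc
  have hk' : SeveralEnds P g k := ⟨H.metric, hk.tensor, hk.infinity, hk.points⟩
  have hs : ∀ x : E3, x ∉ P → 0 ≤ surplus g k x := by
    intro x hx
    have h1 : 0 ≤ surplus g h x := sub_nonneg.2 (hE x hx)
    have h2 := hk.energy x hx
    have h3 := surplus_eq_required g h x
    have h4 := surplus_eq_required g k x
    linarith
  have hr : ∀ x : E3, 1 + ∑ q ∈ P, ‖q‖ < ‖x‖ → x ∉ P := by
    intro x hx hxP
    have h1 : ‖x‖ ≤ ∑ q ∈ P, ‖q‖ :=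
      Finset.single_le_sum (f := fun q : E3 => ‖q‖) (fun _ _ => norm_nonneg _) hxP
    linarith
  have h0 : 0 < 1 + ∑ q ∈ P, ‖q‖ := by
    have : 0 ≤ ∑ q ∈ P, ‖q‖ := Finset.sum_nonneg fun _ _ => norm_nonneg _
    linarith
  have hsub : {x : E3 | 1 + ∑ q ∈ P, ‖q‖ < ‖x‖} ⊆ ((P : Set E3))ᶜ := fun x hx => by
    simpa using hr x hx
  have hF : FarSmall k := hRLIMK g k (1 + ∑ q ∈ P, ‖q‖) h0
    ⟨fun i j => (H.metric.smooth i j).mono hsub, fun x hx => H.metric.posDef x (hsub hx)⟩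
    ⟨fun i j => (hk.tensor.smooth i j).mono hsub, fun x hx => hk.tensor.symm x (hsub hx)⟩
    hk.infinity (fun x hx => hs x (hr x hx)) (fun x hx => hk.plane x (hr x hx)) hk.far
  exact hTFV P T g k m hT hT0 hk' hs hk.plane hU hF hm

end TMU

open TMU

/-- TMU: the main theorem. -/
theorem t_TMU (hTFV : Stmt_TFV) (hPART : Stmt_PART) (hRLIMK : Stmt_RLIMK) : Stmt_TMU := by
  intro P g h m H hE hc hm
  have hfirst := unsplit hTFV hRLIMK P g h m H hE hc hm
  refine ⟨hfirst, fun T hT hT0 => ?_⟩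
  obtain ⟨𝒯, h1, h2, h3, h4, h5⟩ := hPART P T g hT hT0 H.metric
  have hpi : (0 : ℝ) < Real.pi := Real.pi_pos
  have hA : ∀ S ∈ 𝒯, minAreaOf P S g ≠ ⊤ ∧ 0 ≤ m ∧
      (minAreaOf P S g).toReal ≤ 16 * Real.pi * m ^ 2 := by
    intro S hS
    obtain ⟨hS0, hST, hSU⟩ := h2 S hS
    obtain ⟨a1, a2⟩ := hfirst S (hST.trans hT) hS0 hSU
    have hm0 : 0 ≤ m := (Real.sqrt_nonneg _).trans a2
    refine ⟨a1, hm0, ?_⟩
    rw [Real.sqrt_le_left hm0, div_le_iff₀ (by positivity)] at a2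
    linarith
  have htop : minAreaOf P T g ≠ ⊤ := by
    rw [h5]
    exact ENNReal.sum_ne_top.2 fun S hS => (hA S hS).1
  refine ⟨𝒯, h1, h2, h3, h4, h5, htop, ?_⟩
  obtain ⟨S₀, hS₀⟩ := h1
  have hm0 : 0 ≤ m := (hA S₀ hS₀).2.1
  have hcard : (0 : ℝ) < (𝒯.card : ℝ) := by
    exact_mod_cast Finset.card_pos.2 ⟨S₀, hS₀⟩
  rw [Real.sqrt_le_left hm0, div_le_iff₀ (by positivity), h5,
    ENNReal.toReal_sum fun S hS => (hA S hS).1]
  calc ∑ S ∈ 𝒯, (minAreaOf P S g).toReal ≤ ∑ _S ∈ 𝒯, 16 * Real.pi * m ^ 2 :=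
        Finset.sum_le_sum fun S hS => (hA S hS).2.2
    _ = m ^ 2 * (16 * Real.pi * 𝒯.card) := by
        rw [Finset.sum_const, nsmul_eq_mul]; ring

end Pool.Agent.PFU
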