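import Pool.Agent.PFU.StmtsF
import Pool.Agent.PFT.TRN

/-!
# (TRA) The areas are invariant under translations
-/

set_option autoImplicit false

open MeasureTheory Filter Topology
open scoped ContDiff ENNReal

namespace Pool.Agent.PFU

open Pool.Agent.PenroseSph Pool.Agent.PFlow Pool.Agent.PFT

namespace TRAm

/-- the translated set -/
def sset (p : E3) (U : Set E3) : Set E3 := {x | x + p ∈ U}

lemma trans_trans (P : Finset E3) (p : E3) : PFT.trans (PFT.trans P p) (-p) = P := by
  ext x
  rw [TRN.mem_trans, TRN.mem_trans]
  simp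

lemma shift_neg (p : E3) (g : TensorField) : shift (-p) (shift p g) = g := by
  funext x
  unfold shift
  congr 1
  abel

lemma sset_sset (p : E3) (U : Set E3) : sset (-p) (sset p U) = U := by
  ext x
  unfold sset
  simp

lemma volDenS (g : TensorField) (p x : E3) : volDen (shift p g) x = volDen g (x + p) := rfl

lemma contains_shift {p q : E3} {U : Set E3} (h : ContainsEnd (q + p) U) :
    ContainsEnd q (sset p U) := by
  obtain ⟨a, ha, h1⟩ := h
  refine ⟨a, ha, fun x h2 h3 => h1 (x + p) ?_ ?_⟩
  · rwa [add_sub_add_right_eq_sub]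
  · rwa [add_sub_add_right_eq_sub]

lemma region_shift {P : Finset E3} {U : Set E3} (p : E3) (h : RegionP P U) :
    RegionP (PFT.trans P p) (sset p U) where
  isOpen := h.isOpen.preimage (by fun_prop : Continuous fun x : E3 => x + p)
  points q hq := by
    rw [TRN.mem_trans] at hq
    obtain ⟨h1, a, ha, h2⟩ := h.points (q + p) hq
    refine ⟨h1, a, ha, ?_⟩
    rcases h2 with h2 | h2
    · left
      intro x h3 h4
      refine h2 (x + p) ?_ ?_
      · rwa [add_sub_add_right_eq_sub]
      · rwa [add_sub_add_right_eq_sub]
    · right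
      intro x h4
      refine h2 (x + p) ?_
      rwa [add_sub_add_right_eq_sub]
  bounded := by
    obtain ⟨b, hb⟩ := h.bounded
    refine ⟨b + ‖p‖, fun x hx => ?_⟩
    have h1 := hb (x + p) hx
    have h2 : ‖x‖ ≤ ‖x + p‖ + ‖p‖ := by
      have := norm_sub_le (x + p) p
      rwa [add_sub_cancel_right] at this
    linarith
  smooth x hx hxP := by
    have hfr : x + p ∈ frontier U := by
      have e : sset p U = (Homeomorph.addRight p) ⁻¹' U := rfl
      rw [e, ← (Homeomorph.addRight p).preimage_frontier] at hx
      exact hx
    have hP : x + p ∉ P := fun h' => hxP (TRN.mem_trans.2 h')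
    obtain ⟨f, h1, h2, h3⟩ := h.smooth (x + p) hfr hP
    refine ⟨fun y => f (y + p), ?_, ?_, ?_⟩
    · have h4 : ContDiffAt ℝ ∞ (fun y : E3 => y + p) x := by fun_prop
      exact ContDiffAt.comp x h1 h4
    · rw [fderiv_comp_add_right]
      exact h2
    · have h4 : Tendsto (fun y : E3 => y + p) (𝓝 x) (𝓝 (x + p)) :=
        (by fun_prop : Continuous fun y : E3 => y + p).continuousAt
      exact h4.eventually h3

lemma test_shift {P : Finset E3} {g : TensorField} {X : E3 → Cov} (p : E3)
    (h : TestFieldP P g X) :
    TestFieldP (PFT.trans P p) (shift p g) (fun x => X (x + p)) where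
  smooth i := (h.smooth i).comp (contDiff_id.add contDiff_const)
  compact := h.compact.comp_homeomorph (Homeomorph.addRight p)
  avoids q hq hmem := by
    rw [TRN.mem_trans] at hq
    refine h.avoids (q + p) hq ?_
    have hc : Continuous fun x : E3 => x + p := by fun_prop
    have h1 := tsupport_comp_subset_preimage X hc
    exact h1 hmem
  short x hx := h.short (x + p) fun h' => hx (TRN.mem_trans.2 h')

lemma per_le (P : Finset E3) (g : TensorField) (p : E3) (U : Set E3) :
    perimeterP P g U ≤ perimeterP (PFT.trans P p) (shift p g) (sset p U) := by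
  unfold perimeterP
  refine iSup₂_le fun X hX => ?_
  refine le_iSup₂_of_le (fun x => X (x + p)) (test_shift p hX) ?_
  apply ENNReal.ofReal_le_ofReal
  apply le_of_eq
  have e1 : ∀ x : E3, (∑ i, pd i (fun y => volDen (shift p g) y * X (y + p) i) x)
      = (fun z => ∑ i, pd i (fun y => volDen g y * X y i) z) (x + p) := by
    intro x
    refine Finset.sum_congr rfl fun i _ => ?_
    exact TRN.pdS (fun y => volDen g y * X y i) p i x
  simp only [e1]
  have hmp : MeasurePreserving (fun x : E3 => x + p) volume volume :=
    measurePreserving_add_right volume p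
  have hme : MeasurableEmbedding (fun x : E3 => x + p) :=
    (Homeomorph.addRight p).measurableEmbedding
  have h2 := hmp.setIntegral_preimage_emb hme
    (fun z => ∑ i, pd i (fun y => volDen g y * X y i) z) U
  exact h2.symm

lemma area_le (P S : Finset E3) (g : TensorField) (p : E3) :
    minAreaOf (PFT.trans P p) (PFT.trans S p) (shift p g) ≤ minAreaOf P S g := by
  unfold minAreaOf
  refine le_iInf₂ fun U hU => ?_
  refine iInf₂_le_of_le (sset p U) ⟨region_shift p hU.1, fun q hq => ?_⟩ ?_
  · rw [TRN.mem_trans] at hq
    exact contains_shift (hU.2 _ hq)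
  · have h := per_le (PFT.trans P p) (shift p g) (-p) (sset p U)
    rw [trans_trans, shift_neg, sset_sset] at h
    exact h

end TRAm

open TRAm in
theorem t_TRA : Stmt_TRA := by
  intro P S g p
  refine le_antisymm (area_le P S g p) ?_
  have h := area_le (PFT.trans P p) (PFT.trans S p) (shift p g) (-p)
  rw [trans_trans, trans_trans, shift_neg] at h
  exact h

end Pool.Agent.PFU
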