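import Pool.Agent.PFU.StmtsA

/-!
# TRNC: the function `w` on a part of the sublevel set, continued by a constant
-/

open MeasureTheory Filter Topology
open scoped ContDiff ENNReal Manifold

namespace Pool.Agent.PFU

open Pool.Agent.PenroseSph Pool.Agent.PFlow Pool.Agent.PFT

namespace TRNC

/-- The clamp. -/
noncomputable def Psi (d' e m s : ℝ) : ℝ := s + (m - s) * Real.smoothTransition ((s - d') / (e - d'))

theorem Psi_smooth (d' e m : ℝ) : ContDiff ℝ ∞ (Psi d' e m) := by
  unfold Psi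
  refine contDiff_id.add ((contDiff_const.sub contDiff_id).mul ?_)
  exact Real.smoothTransition.contDiff.comp ((contDiff_id.sub contDiff_const).div_const _)

theorem Psi_eq {d' e m s : ℝ} (h : d' < e) (hs : s ≤ d') : Psi d' e m s = s := by
  unfold Psi
  rw [Real.smoothTransition.zero_of_nonpos, mul_zero, add_zero]
  exact div_nonpos_of_nonpos_of_nonneg (by linarith) (by linarith)

theorem Psi_gt {d d' e m s : ℝ} (hm : d < m) (hs : d < s) : d < Psi d' e m s := by
  unfold Psi
  have h0 := Real.smoothTransition.nonneg ((s - d') / (e - d'))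
  have h1 := Real.smoothTransition.le_one ((s - d') / (e - d'))
  set τ := Real.smoothTransition ((s - d') / (e - d'))
  rcases h0.eq_or_lt with h | h
  · rw [← h]
    linarith
  · nlinarith [mul_pos h (sub_pos.2 hm), mul_nonneg (sub_nonneg.2 h1) (sub_pos.2 hs).le]

end TRNC

open TRNC

theorem t_TRNC (hLAC : Stmt_LAC) : Stmt_TRNC := by
  intro V K Z w G d c hV hK hKV hwV hZ hZV hcl hdc hL
  set e : ℝ := (d + c) / 2 with he
  set d' : ℝ := (d + e) / 2 with hd'
  have hde : d < e := by rw [he]; linarith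
  have hec : e < c := by rw [he]; linarith
  have hdd' : d < d' := by rw [hd']; linarith
  have hd'e : d' < e := by rw [hd']; linarith
  set A : Set E3 := {x | x ∈ K ∩ closure Z ∧ w x ≤ e} with hA
  have hKZ : IsCompact (K ∩ closure Z) := hK.inter_right isClosed_closure
  have hAc : IsClosed A := by
    have h1 : ContinuousOn w (K ∩ closure Z) := hL.cont.mono Set.inter_subset_left
    have h2 := h1.preimage_isClosed_of_isClosed hKZ.isClosed (isClosed_Iic (a := e))
    exact h2
  have hAZ : A ⊆ Z := fun x hx => hcl x (hKV hx.1.1) hx.1.2 (lt_of_le_of_lt hx.2 hec)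
  obtain ⟨ζ, h1, h0, h01⟩ := exists_contMDiffMap_one_nhds_of_subset_interior (n := ⊤)
    (modelWithCornersSelf ℝ E3) hAc (t := Z) (by rwa [hZ.interior_eq])
  have hζs : ContDiff ℝ ∞ (ζ : E3 → ℝ) := ζ.contMDiff.contDiff
  have hζA : ∀ x ∈ A, ∀ᶠ y in 𝓝 x, ζ y = 1 := fun x hx => by
    exact h1.filter_mono (nhds_le_nhdsSet hx)
  set m : ℝ := e with hm
  set Θ : (Fin 1 → ℝ) × E3 → ℝ := fun z => m + ζ z.2 * (Psi d' e m (z.1 0) - m) with hΘ
  have hpr : ContDiff ℝ ∞ (fun z : (Fin 1 → ℝ) × E3 => z.1 0) :=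
    (contDiff_apply ℝ ℝ (0 : Fin 1)).comp contDiff_fst
  have hΘs : ContDiff ℝ ∞ Θ := by
    rw [hΘ]
    exact contDiff_const.add ((hζs.comp contDiff_snd).mul
      (((Psi_smooth d' e m).comp hpr).sub contDiff_const))
  have hLc := hLAC 1 K (fun _ => w) (fun _ => G) Θ hK hΘs (fun _ => hL)
  refine ⟨_, _, m, hde, hLc, ?_, ?_, ?_⟩
  · intro x hxK hxZ hxd
    have hxA : x ∈ A := ⟨⟨hxK, subset_closure hxZ⟩, by linarith⟩
    have e1 := hζA x hxA
    have e2 : ∀ᶠ z : (Fin 1 → ℝ) × E3 in 𝓝 ((fun _ => w x, x)), Θ z = z.1 0 := by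
      have e3 : ∀ᶠ z : (Fin 1 → ℝ) × E3 in 𝓝 ((fun _ => w x, x)), ζ z.2 = 1 :=
        (continuous_snd.tendsto ((fun _ => w x, x) : (Fin 1 → ℝ) × E3)).eventually e1
      have e4 : ∀ᶠ z : (Fin 1 → ℝ) × E3 in 𝓝 ((fun _ => w x, x)), z.1 0 < d' := by
        have := hpr.continuous.tendsto ((fun _ => w x, x) : (Fin 1 → ℝ) × E3)
        exact this.eventually (Iio_mem_nhds (by simpa using lt_of_le_of_lt hxd hdd'))
      filter_upwards [e3, e4] with z hz1 hz2
      simp only [hΘ]
      rw [hz1, Psi_eq hd'e hz2.le]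
      ring
    have e5 : fderiv ℝ Θ ((fun _ => w x, x)) =
        (ContinuousLinearMap.proj (R := ℝ) (φ := fun _ : Fin 1 => ℝ) 0).comp
          (ContinuousLinearMap.fst ℝ (Fin 1 → ℝ) E3) := by
      rw [Filter.EventuallyEq.fderiv_eq (f := fun z : (Fin 1 → ℝ) × E3 => z.1 0) e2]
      exact ((ContinuousLinearMap.proj (R := ℝ) (φ := fun _ : Fin 1 => ℝ) 0).comp
          (ContinuousLinearMap.fst ℝ (Fin 1 → ℝ) E3)).hasFDerivAt.fderiv
    constructor
    · exact e2.self_of_nhds
    · funext l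
      simp only [Finset.univ_unique, Finset.sum_singleton]
      rw [e5]
      simp
  · intro x hxK hxZ hxd
    simp only [hΘ]
    have hg := Psi_gt (d' := d') (e := e) hde hxd
    rw [hm]
    have hz := h01 x
    obtain ⟨hz0, hz1⟩ := hz
    rcases hz0.eq_or_lt with h | h
    · rw [← h]
      linarith
    · nlinarith [mul_pos h (sub_pos.2 hg), mul_nonneg (sub_nonneg.2 hz1) (sub_pos.2 hde).le]
  · intro x hxK hxZ
    simp only [hΘ]
    rw [h0 x hxZ]
    ring

end Pool.Agent.PFU
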