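import Pool.Agent.PFU.StmtsM
import Pool.Agent.PFlow.M_TR

/-!
# Module TRT: truncation of a smooth approximation, several inner balls
-/

open MeasureTheory Filter Topology
open scoped ContDiff

namespace Pool.Agent.PFU

open Pool.Agent.PenroseSph Pool.Agent.PFlow Pool.Agent.PFT

namespace TRT

open Classical in
/-- The truncated approximation. -/
noncomputable def WT (T : Finset E3) (a' b' s₀ s₁ η : ℝ) (w v : E3 → ℝ) (x : E3) : ℝ :=
  if ∃ p ∈ T, ‖x - p‖ ≤ a' then s₀ else if b' ≤ ‖x‖ then s₁ else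
    if w x < s₀ - η then s₀ else if s₁ + η < w x then s₁ else max s₀ (min s₁ (v x))

variable {T : Finset E3} {a b a' b' s₀ s₁ η e : ℝ} {w v : E3 → ℝ}

theorem isOpen_AnnT : IsOpen (AnnT T a b) := by
  have : AnnT T a b = {x : E3 | ‖x‖ < b} ∩ ⋂ p ∈ T, {x : E3 | a < ‖x - p‖} := by
    ext x
    simp [AnnT]
  rw [this]
  refine (isOpen_lt continuous_norm continuous_const).inter ?_
  refine isOpen_biInter_finset fun p _ => ?_
  exact isOpen_lt continuous_const (continuous_id.sub continuous_const).norm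

theorem WT_low (he : 0 < e) (heη : e < η) (hs : s₀ < s₁)
    (hout : ∀ x : E3, b' ≤ ‖x‖ → ‖x‖ < b → s₁ + η ≤ w x)
    (hv : ∀ x ∈ AnnT T a b, s₀ - η ≤ w x → w x ≤ s₁ + η → |v x - w x| ≤ e)
    (y : E3) (hy : y ∈ AnnT T a b) (hw : w y < s₀ - e) : WT T a' b' s₀ s₁ η w v y = s₀ := by
  unfold WT
  by_cases h1 : ∃ p ∈ T, ‖y - p‖ ≤ a'
  · rw [if_pos h1]
  rw [if_neg h1]
  by_cases h2 : b' ≤ ‖y‖
  · exfalso
    have := hout y h2 hy.1
    linarith
  rw [if_neg h2]
  by_cases h3 : w y < s₀ - η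
  · rw [if_pos h3]
  rw [if_neg h3, if_neg (by linarith)]
  push Not at h3
  have h4 := hv y hy h3 (by linarith)
  have h5 := (abs_le.mp h4).2
  rw [min_eq_right (by linarith), max_eq_left (by linarith)]

theorem WT_high (he : 0 < e) (heη : e < η) (hs : s₀ < s₁)
    (hin : ∀ p ∈ T, ∀ x : E3, a < ‖x - p‖ → ‖x - p‖ ≤ a' → w x ≤ s₀ - η)
    (hv : ∀ x ∈ AnnT T a b, s₀ - η ≤ w x → w x ≤ s₁ + η → |v x - w x| ≤ e)
    (y : E3) (hy : y ∈ AnnT T a b) (hw : s₁ + e < w y) : WT T a' b' s₀ s₁ η w v y = s₁ := by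
  unfold WT
  by_cases h1 : ∃ p ∈ T, ‖y - p‖ ≤ a'
  · exfalso
    obtain ⟨p, hp, h1⟩ := h1
    have := hin p hp y (hy.2 p hp) h1
    linarith
  rw [if_neg h1]
  by_cases h2 : b' ≤ ‖y‖
  · rw [if_pos h2]
  rw [if_neg h2, if_neg (by linarith)]
  by_cases h3 : s₁ + η < w y
  · rw [if_pos h3]
  rw [if_neg h3]
  push Not at h3
  have h4 := hv y hy (by linarith) h3
  have h5 := (abs_le.mp h4).1
  rw [min_eq_left (by linarith), max_eq_right (by linarith)]

theorem WT_mid (hin : ∀ p ∈ T, ∀ x : E3, a < ‖x - p‖ → ‖x - p‖ ≤ a' → w x ≤ s₀ - η)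
    (hout : ∀ x : E3, b' ≤ ‖x‖ → ‖x‖ < b → s₁ + η ≤ w x)
    (y : E3) (hy : y ∈ AnnT T a b) (hw : s₀ - η < w y) (hw' : w y < s₁ + η) :
    WT T a' b' s₀ s₁ η w v y = max s₀ (min s₁ (v y)) := by
  unfold WT
  rw [if_neg (fun h1 => by obtain ⟨p, hp, h1⟩ := h1; have := hin p hp y (hy.2 p hp) h1; linarith),
    if_neg (fun h1 => by have := hout y h1 hy.1; linarith), if_neg (by linarith),
    if_neg (by linarith)]

theorem WT_cases (ha : a < a') (hb : b' < b) (hs : s₀ < s₁) (he : 0 < e) (heη : e < η)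
    (hcont : ContinuousOn w (AnnT T a b)) (hT : ∀ p ∈ T, ‖p‖ + a' < b')
    (hin : ∀ p ∈ T, ∀ x : E3, a < ‖x - p‖ → ‖x - p‖ ≤ a' → w x ≤ s₀ - η)
    (hout : ∀ x : E3, b' ≤ ‖x‖ → ‖x‖ < b → s₁ + η ≤ w x)
    (hv : ∀ x ∈ AnnT T a b, s₀ - η ≤ w x → w x ≤ s₁ + η → |v x - w x| ≤ e)
    (x : E3) :
    (∀ᶠ y in 𝓝 x, WT T a' b' s₀ s₁ η w v y = s₀) ∨
    (∀ᶠ y in 𝓝 x, WT T a' b' s₀ s₁ η w v y = s₁) ∨
    (∀ᶠ y in 𝓝 x, WT T a' b' s₀ s₁ η w v y = max s₀ (min s₁ (v y))) := by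
  by_cases hx1 : ∃ p ∈ T, ‖x - p‖ < a'
  · left
    obtain ⟨p, hp, hx1⟩ := hx1
    have hc : ContinuousAt (fun y : E3 => ‖y - p‖) x :=
      (continuous_id.sub continuous_const).norm.continuousAt
    have : ∀ᶠ y in 𝓝 x, ‖y - p‖ < a' := hc.eventually_lt_const hx1
    filter_upwards [this] with y hy
    unfold WT
    rw [if_pos ⟨p, hp, hy.le⟩]
  by_cases hx2 : b' < ‖x‖
  · right; left
    have : ∀ᶠ y in 𝓝 x, b' < ‖y‖ := continuous_norm.continuousAt.eventually_const_lt hx2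
    filter_upwards [this] with y hy
    unfold WT
    rw [if_neg, if_pos hy.le]
    rintro ⟨p, hp, h⟩
    have h1 := hT p hp
    have h2 : ‖y‖ ≤ ‖y - p‖ + ‖p‖ := by
      calc ‖y‖ = ‖(y - p) + p‖ := by rw [sub_add_cancel]
        _ ≤ _ := norm_add_le _ _
    linarith
  push Not at hx1 hx2
  have hxA : x ∈ AnnT T a b := ⟨by linarith, fun p hp => by linarith [hx1 p hp]⟩
  have hA : ∀ᶠ y in 𝓝 x, y ∈ AnnT T a b := isOpen_AnnT.mem_nhds hxA
  have hwc : ContinuousAt w x := hcont.continuousAt (isOpen_AnnT.mem_nhds hxA)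
  rcases lt_or_ge (w x) (s₀ - e) with h | h
  · left
    filter_upwards [hA, hwc.eventually_lt_const h] with y hy hy2
    exact WT_low he heη hs hout hv y hy hy2
  rcases lt_or_ge (s₁ + e) (w x) with h' | h'
  · right; left
    filter_upwards [hA, hwc.eventually_const_lt h'] with y hy hy2
    exact WT_high he heη hs hin hv y hy hy2
  · right; right
    filter_upwards [hA, hwc.eventually_const_lt (show s₀ - η < w x by linarith),
      hwc.eventually_lt_const (show w x < s₁ + η by linarith)] with y hy hy2 hy3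
    exact WT_mid hin hout y hy hy2 hy3

end TRT

open TRT in
theorem t_TRT : Stmt_TRT := by
  intro T a b a' b' s₀ s₁ η e w v hne ha0 ha hb hT hdisj hs he heη hcont hin hout hsm hv
  have hcases := WT_cases (v := v) ha hb hs he heη hcont hT hin hout hv
  have hloc := MTR.locLip hsm _ hcases
  have hlow : ∀ x, s₀ ≤ WT T a' b' s₀ s₁ η w v x := by
    intro x
    unfold WT
    split_ifs <;> first | exact le_refl _ | exact hs.le | exact le_max_left _ _
  have hup : ∀ x, WT T a' b' s₀ s₁ η w v x ≤ s₁ := by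
    intro x
    unfold WT
    split_ifs <;> first | exact le_refl _ | exact hs.le | exact max_le hs.le (min_le_left _ _)
  have hinner : ∀ p ∈ T, ∀ x : E3, ‖x - p‖ ≤ a' → WT T a' b' s₀ s₁ η w v x = s₀ := by
    intro p hp x hx
    unfold WT
    rw [if_pos ⟨p, hp, hx⟩]
  have hneg : ∀ x : E3, b' ≤ ‖x‖ → ¬ ∃ p ∈ T, ‖x - p‖ ≤ a' := by
    rintro x hx ⟨p, hp, h⟩
    have h1 := hT p hp
    have h2 : ‖x‖ ≤ ‖x - p‖ + ‖p‖ := by
      calc ‖x‖ = ‖(x - p) + p‖ := by rw [sub_add_cancel]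
        _ ≤ _ := norm_add_le _ _
    linarith
  have houter : ∀ x : E3, b' ≤ ‖x‖ → WT T a' b' s₀ s₁ η w v x = s₁ := by
    intro x hx
    unfold WT
    rw [if_neg (hneg x hx), if_pos hx]
  obtain ⟨C, hC⟩ := MTR.globLip _ hloc hs hlow hup houter
  refine ⟨WT T a' b' s₀ s₁ η w v, C, ⟨hne, by linarith, hT, hdisj, hs, hloc.continuous, hlow, hup,
    hinner, houter⟩, hC, ?_, ?_⟩
  · intro x
    unfold WT trWT
    by_cases h1 : ∃ p ∈ T, ‖x - p‖ ≤ a'
    · rw [if_pos h1, if_pos h1, sub_self, abs_zero]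
      exact he.le
    rw [if_neg h1, if_neg h1]
    by_cases h2 : b' ≤ ‖x‖
    · rw [if_pos h2, if_pos h2, sub_self, abs_zero]
      exact he.le
    rw [if_neg h2, if_neg h2]
    push Not at h1 h2
    by_cases h3 : w x < s₀ - η
    · rw [if_pos h3, min_eq_right (by linarith), max_eq_left (by linarith), sub_self, abs_zero]
      exact he.le
    rw [if_neg h3]
    by_cases h4 : s₁ + η < w x
    · rw [if_pos h4, min_eq_left (by linarith), max_eq_right (by linarith), sub_self, abs_zero]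
      exact he.le
    rw [if_neg h4]
    push Not at h3 h4
    exact MTR.clamp_sub _ _ _ _ _
      (hv x ⟨by linarith, fun p hp => by linarith [h1 p hp]⟩ h3 h4)
  · intro x hx h1 h2
    have hA : ∀ᶠ y in 𝓝 x, y ∈ AnnT T a b := isOpen_AnnT.mem_nhds hx
    have hwc : ContinuousAt w x := hcont.continuousAt (isOpen_AnnT.mem_nhds hx)
    filter_upwards [hA, hwc.eventually_const_lt h1, hwc.eventually_lt_const h2] with y hy hy2 hy3
    rw [WT_mid hin hout y hy (by linarith) (by linarith)]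
    have h4 := abs_le.mp (hv y hy (by linarith) (by linarith))
    rw [min_eq_right (by linarith [h4.2]), max_eq_right (by linarith [h4.1])]

end Pool.Agent.PFU
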