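import Pool.Agent.PFU.StmtsE
import Pool.Agent.PFlow.E.TSTA

/-!
# The main test function (flows from several ends)
-/

open MeasureTheory Filter Topology
open scoped ContDiff

namespace Pool.Agent.PFU

open Pool.Agent.PenroseSph Pool.Agent.PFlow Pool.Agent.PFT

open ETSTA in
/-- TSTAT. -/
theorem t_TSTAT : Stmt_TSTAT := by
  intro ε hε0 hε1
  obtain ⟨K, hK, hK1, hK2⟩ := bound
  set c0 : ℝ := 1 / (2 - ε) with hc0
  set la : ℝ := lam ε / 2 with hla
  have h2ε : 0 < 2 - ε := by linarith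
  have hc : 0 < c0 := by positivity
  have hc1 : c0 ≤ 1 := by
    rw [hc0, div_le_one h2ε]
    linarith
  have hlam : 0 < lam ε := by
    unfold lam
    exact div_pos (by linarith) (mul_pos hε0 h2ε)
  have hla0 : 0 < la := by positivity
  set C : ℝ := 20 * K * Real.exp 1 + (la + 3 + 8 * Real.pi) * K * Real.exp (la / 2 + 1) with hC
  have hpi := Real.pi_pos
  have hCpos : 0 < C := by
    have := Real.exp_pos 1
    have := Real.exp_pos (la / 2 + 1)
    positivity
  refine ⟨C, hCpos, ?_⟩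
  intro Ω vol w X Φ D S sb s₂ sM B₁ B₂ c K' hA hb hb1 hb2 hB1 hB2 hcc hK' se hse hsM
  have hee : ∀ t, Real.exp (t / (2 - ε)) = ee c0 t := by
    intro t
    unfold ee
    rw [hc0, mul_one_div]
  refine ⟨chi la sb s₂ se, chi_cont la, chi_mem la hla0.le, ?_, ?_, ?_, ?_, ?_⟩
  · intro s hs
    exact chi_zero la hb fun h => by linarith [h.1, mul_pos (by norm_num : (0 : ℝ) < 1 / 8) hb]
  · intro s hs hs'
    unfold chi
    rw [R_one hb (by linarith), E_one la (by linarith), T_one (by linarith), mul_one, mul_one]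
  · intro s hs hs'
    unfold chi
    rw [R_one hb (by linarith), T_one hs', mul_one, one_mul]
    unfold E
    rw [Real.exp_le_exp]
    have h1 : Q (s - s₂) ≤ s - s₂ := Q_le (by linarith)
    have h2 := mul_le_mul_of_nonneg_left h1 hla0.le
    linarith
  · intro s hs
    unfold chi
    rw [T_zero hs, mul_zero]
  -- the integrals
  set ψ : ℝ → ℝ := fun s => chi la sb s₂ se s * ee c0 s with hψ
  have hψc : Continuous ψ := (chi_cont la).mul (ee_cont c0)
  have hψ0 : ∀ s, 0 ≤ ψ s := fun s => mul_nonneg (chi_mem la hla0.le s).1 (ee_pos c0 s).le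
  have hψs : ∀ s, s ∉ Set.Icc (5 / 8 * sb) (se + 1) → ψ s = 0 := fun s hs => by
    simp only [hψ]
    rw [chi_zero la hb hs, zero_mul]
  have hψd := chi_d c0 la hb hb2 hse
  have hdψc : Continuous fun s => p1 c0 sb s - p2 c0 la sb s₂ se s + p3 c0 la s₂ se s
      + c0 * (chi la sb s₂ se s * ee c0 s) :=
    (((p1_cont c0).sub (p2_cont c0 la)).add (p3_cont c0 la)).add (continuous_const.mul hψc)
  have hψ1 : ContDiff ℝ 1 ψ := c1_of hψd hdψc
  have hsub : Set.Icc (5 / 8 * sb) (se + 1) ⊆ Set.Ioo (sb / 4) sM := fun s hs =>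
    ⟨by linarith [hs.1], by linarith [hs.2]⟩
  have hψb : ∀ s, s ≤ c → ψ s ≤ 3 := by
    intro s hs
    have h1 : ee c0 s ≤ Real.exp 1 := by
      unfold ee
      rw [Real.exp_le_exp]
      calc s * c0 ≤ 1 * c0 := mul_le_mul_of_nonneg_right (hs.trans hcc) hc.le
        _ ≤ 1 := by linarith
    have h2 := Real.exp_one_lt_d9
    calc ψ s ≤ 1 * ee c0 s :=
          mul_le_mul_of_nonneg_right (chi_mem la hla0.le s).2 (ee_pos c0 s).le
      _ ≤ 3 := by linarith
  have hmi := hA.mi ψ 3 hψ1 hψ0 (csup hψs) ((tsup hψs).trans hsub) hψb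
  -- supports
  have p1s : ∀ s, s ∉ Set.Icc (5 / 8 * sb) (se + 1) → p1 c0 sb s = 0 := fun s hs =>
    p1_supp hb fun h => hs ⟨h.1, by linarith [h.2]⟩
  have p2s : ∀ s, s ∉ Set.Icc (5 / 8 * sb) (se + 1) → p2 c0 la sb s₂ se s = 0 := fun s hs => by
    unfold p2
    rw [chi_zero la hb hs, mul_zero, zero_mul]
  have p2s' : ∀ s, s ∉ Set.Icc (s₂ + 1 / 4) (se + 1) → p2 c0 la sb s₂ se s = 0 := fun s hs => by
    unfold p2
    rcases not_and_or.mp hs with h1 | h1
    · rw [q1_zero (not_le.mp h1).le, mul_zero, zero_mul, zero_mul]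
    · rw [chi_zero la hb (fun h => h1 h.2), mul_zero, zero_mul]
  have p3s : ∀ s, s ∉ Set.Icc (5 / 8 * sb) (se + 1) → p3 c0 la s₂ se s = 0 := fun s hs =>
    (p3_supp fun h => hs ⟨by linarith [h.1], h.2⟩).1
  have hΦ := hA.int_Phi (5 / 8 * sb) (se + 1) (by linarith) (by linarith) hsM
  have hDi := hA.int_D (5 / 8 * sb) (se + 1) (by linarith) (by linarith) hsM
  have hSi := hA.int_S (5 / 8 * sb) (se + 1) (by linarith) (by linarith) hsM
  have i1 := band_int hA.measOmega hA.meas_w hΦ (p1_cont (sb := sb) c0) p1s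
  have i2 := band_int hA.measOmega hA.meas_w hΦ (p2_cont (sb := sb) (s₂ := s₂) (se := se) c0 la) p2s
  have i3 := band_int hA.measOmega hA.meas_w hΦ (p3_cont (s₂ := s₂) (se := se) c0 la) p3s
  have i4 := band_int hA.measOmega hA.meas_w hΦ hψc hψs
  have iD := band_int hA.measOmega hA.meas_w hDi hψc hψs
  have iS := band_int hA.measOmega hA.meas_w hSi hψc hψs
  set I1 := ∫ x in Ω, p1 c0 sb (w x) * Φ x * vol x with hI1
  set I2 := ∫ x in Ω, p2 c0 la sb s₂ se (w x) * Φ x * vol x with hI2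
  set I3 := ∫ x in Ω, p3 c0 la s₂ se (w x) * Φ x * vol x with hI3
  set P := ∫ x in Ω, ψ (w x) * Φ x * vol x with hP
  set SS := ∫ x in Ω, ψ (w x) * S x * vol x with hSS
  set DD := ∫ x in Ω, ψ (w x) * D x * vol x with hDD
  set J1 := ∫ s, p1 c0 sb s with hJ1
  set J2 := ∫ s, p2 c0 la sb s₂ se s with hJ2
  set J3 := ∫ s, p3 c0 la s₂ se s with hJ3
  set J := ∫ s, ψ s with hJ
  have e1 : ∫ x in Ω, deriv ψ (w x) * Φ x * vol x = I1 - I2 + I3 + c0 * P := by
    rw [hI1, hI2, hI3, hP, ← comb4 c0 i1 i2 i3 i4]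
    refine integral_congr_ae (Eventually.of_forall fun x => ?_)
    show deriv ψ (w x) * Φ x * vol x = _
    rw [(hψd (w x)).deriv]
    simp only [hψ]
    ring
  have e2 : ∫ x in Ω, ψ (w x) * (S x + D x) * vol x = SS + DD := by
    rw [hSS, hDD, ← integral_add iS iD]
    refine integral_congr_ae (Eventually.of_forall fun x => ?_)
    show ψ (w x) * (S x + D x) * vol x = _
    ring
  have e3 : J1 - J2 + J3 + c0 * J = 0 := by
    have h1 := int_deriv hψd hdψc hψs (fun s hs => by
      rw [p1s s hs, p2s s hs, p3s s hs]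
      have := hψs s hs
      simp only [hψ] at this
      rw [this]
      ring)
    have j1 : Integrable (p1 c0 sb) := (p1_cont c0).integrable_of_hasCompactSupport (csup p1s)
    have j2 : Integrable (p2 c0 la sb s₂ se) :=
      (p2_cont c0 la).integrable_of_hasCompactSupport (csup p2s)
    have j3 : Integrable (p3 c0 la s₂ se) :=
      (p3_cont c0 la).integrable_of_hasCompactSupport (csup p3s)
    have j4 : Integrable ψ := hψc.integrable_of_hasCompactSupport (csup hψs)
    rw [hJ1, hJ2, hJ3, hJ, ← comb4 c0 j1 j2 j3 j4, ← h1]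
  rw [e1, e2] at hmi
  -- the rise
  have hrise : |I1| ≤ B₂ * (20 * K * Real.exp 1 / sb ^ 2) := by
    refine hA.inner (p1 c0 sb) _ (c1_of (p1_d c0) ?_) (csup fun s hs => p1_supp hb hs)
      ((tsup fun s hs => p1_supp hb hs).trans fun s hs =>
        ⟨by linarith [hs.1], by linarith [hs.2]⟩)
      (p1_bound hK hK1 hK2 hc hc1 hb hb1)
    exact (R2_cont.mul (ee_cont c0)).add (R1_cont.mul (continuous_const.mul (ee_cont c0)))
  have hJ1' : 1 ≤ J1 := p1_int hc hb
  -- the decay
  have hp20 : ∀ s, 0 ≤ p2 c0 la sb s₂ se s := fun s =>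
    mul_nonneg (mul_nonneg (mul_nonneg hla0.le (rho_nonneg _)) (chi_mem la hla0.le s).1)
      (ee_pos c0 s).le
  have hdecay : 4 * Real.pi * (2 - ε) * J2 - I2 ≤ DD / 2 := by
    have h1 := hA.willmore (p2 c0 la sb s₂ se) (p2_cont c0 la) hp20 (csup p2s')
      ((tsup p2s').trans fun s hs => ⟨by linarith [hs.1], by linarith [hs.2]⟩)
    refine h1.trans ?_
    have i5 := band_int hA.measOmega hA.meas_w hDi
      (p2_cont (sb := sb) (s₂ := s₂) (se := se) c0 la) p2s
    have h2 : ∫ x in Ω, p2 c0 la sb s₂ se (w x) * D x * vol x ≤ la * DD := by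
      rw [hDD, ← integral_const_mul]
      refine integral_mono_ae i5 (iD.const_mul la) ?_
      filter_upwards [hA.D_nonneg] with x hx
      have h3 : p2 c0 la sb s₂ se (w x) ≤ la * ψ (w x) := by
        have h4 : q1 s₂ (w x) ≤ 1 := rho_le _
        have h5 : p2 c0 la sb s₂ se (w x) = q1 s₂ (w x) * (la * ψ (w x)) := by
          simp only [hψ, p2]
          ring
        rw [h5]
        exact mul_le_of_le_one_left (mul_nonneg hla0.le (hψ0 _)) h4
      have h6 : 0 ≤ D x * vol x := mul_nonneg hx (hA.vol_nonneg x)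
      calc p2 c0 la sb s₂ se (w x) * D x * vol x = p2 c0 la sb s₂ se (w x) * (D x * vol x) := by
            ring
        _ ≤ la * ψ (w x) * (D x * vol x) := mul_le_mul_of_nonneg_right h3 h6
        _ = la * (ψ (w x) * D x * vol x) := by ring
    have h7 : 1 / lam ε * (∫ x in Ω, p2 c0 la sb s₂ se (w x) * D x * vol x)
        ≤ 1 / lam ε * (la * DD) := mul_le_mul_of_nonneg_left h2 (by positivity)
    refine h7.trans (le_of_eq ?_)
    rw [hla]
    field_simp
  -- the cut
  set Z := Real.exp (s₂ * c0) * Real.exp (-((la - c0) * (se - s₂))) with hZ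
  have hZ0 : 0 < Z := mul_pos (Real.exp_pos _) (Real.exp_pos _)
  set Y := K * Real.exp (la / 2 + 1) * Z with hY
  have hY0 : 0 < Y := mul_pos (mul_pos (by linarith) (Real.exp_pos _)) hZ0
  have hp3b : ∀ s, |p3 c0 la s₂ se s| ≤ Y := fun s =>
    (p3_bound hK hK1 hK2 hc hc1 hla0.le hse s).1
  have hp3b' : ∀ s, |p3' c0 la s₂ se s| ≤ (la + 2) * Y := fun s => by
    refine ((p3_bound hK hK1 hK2 hc hc1 hla0.le hse s).2).trans (le_of_eq ?_)
    rw [hY]
    ring
  have hcutJ : -J3 ≤ Y := by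
    have h1 : |J3| ≤ Y := by
      have h2 : J3 = ∫ s in Set.Icc se (se + 1), p3 c0 la s₂ se s := by
        rw [hJ3]
        exact (setIntegral_eq_integral_of_forall_compl_eq_zero fun s hs => (p3_supp hs).1).symm
      rw [h2, ← Real.norm_eq_abs]
      have h3 := norm_setIntegral_le_of_norm_le_const (μ := volume) (s := Set.Icc se (se + 1))
        (f := p3 c0 la s₂ se) (C := Y) measure_Icc_lt_top fun s _ => hp3b s
      refine h3.trans (le_of_eq ?_)
      simp
    linarith [neg_abs_le J3]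
  have hcutI : I3 ≤ (la + 3) * Y * B₁ := by
    have h0 : ∀ s, s ∉ Set.Icc se (se + 1) → p3 c0 la s₂ se s = 0 := fun s hs => (p3_supp hs).1
    have h1 := hA.xid (p3 c0 la s₂ se) (c1_of (p3_d c0 la) (p3'_cont c0 la)) (csup h0)
      ((tsup h0).trans fun s hs => ⟨by linarith [hs.1], by linarith [hs.2]⟩)
    have hwin := hA.window se (by linarith) (by linarith)
    have hband : MeasurableSet {x | se < w x ∧ w x < se + 1} :=
      (measurableSet_lt measurable_const hA.meas_w).inter
        (measurableSet_lt hA.meas_w measurable_const)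
    have hcont : Continuous fun s => p3 c0 la s₂ se s + ε * p3' c0 la s₂ se s :=
      (p3_cont c0 la).add (continuous_const.mul (p3'_cont c0 la))
    have hiX := hA.int_X se (se + 1) (by linarith) (by linarith) hsM
    have iX := band_int (F := fun x => X x ^ 3) hA.measOmega hA.meas_w hiX hcont (fun s hs => by
      rw [(p3_supp hs).1, (p3_supp hs).2, mul_zero, add_zero])
    have h2 : ∫ x in Ω, (p3 c0 la s₂ se (w x) + ε * deriv (p3 c0 la s₂ se) (w x)) * X x ^ 3 * vol x
        ≤ (la + 3) * Y * B₁ := by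
      have h3 : ∫ x in Ω, (p3 c0 la s₂ se (w x) + ε * deriv (p3 c0 la s₂ se) (w x)) * X x ^ 3
            * vol x
          = ∫ x in Ω ∩ {x | se < w x ∧ w x < se + 1},
            (p3 c0 la s₂ se (w x) + ε * p3' c0 la s₂ se (w x)) * X x ^ 3 * vol x := by
        rw [← setIntegral_eq_of_subset_of_forall_sdiff_eq_zero hA.measOmega
          (Set.inter_subset_left (t := {x | se < w x ∧ w x < se + 1}))]
        · refine setIntegral_congr_fun hA.measOmega fun x _ => ?_
          show (p3 c0 la s₂ se (w x) + ε * deriv (p3 c0 la s₂ se) (w x)) * X x ^ 3 * vol x = _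
          rw [(p3_d c0 la (w x)).deriv]
        · intro x hx
          have h4 : ¬ (se < w x ∧ w x < se + 1) := fun h => hx.2 ⟨hx.1, h⟩
          have h5 : p3 c0 la s₂ se (w x) = 0 ∧ p3' c0 la s₂ se (w x) = 0 := by
            have h6 : deriv rho (w x - se) = 0 ∧ deriv (deriv rho) (w x - se) = 0 := by
              rcases not_and_or.mp h4 with h7 | h7
              · exact ⟨drho_le0 (by linarith [not_lt.mp h7]), ddrho_le0 (by linarith [not_lt.mp h7])⟩
              · exact ⟨drho_ge1 (by linarith [not_lt.mp h7]), ddrho_ge1 (by linarith [not_lt.mp h7])⟩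
            unfold p3 p3'
            rw [h6.1, h6.2]
            simp
          rw [h5.1, h5.2]
          ring
      rw [h3]
      have hiX' : IntegrableOn (fun x => X x ^ 3 * vol x) (Ω ∩ {x | se < w x ∧ w x < se + 1}) :=
        hiX.mono_set fun x hx => ⟨hx.1, hx.2.1.le, hx.2.2.le⟩
      calc ∫ x in Ω ∩ {x | se < w x ∧ w x < se + 1},
            (p3 c0 la s₂ se (w x) + ε * p3' c0 la s₂ se (w x)) * X x ^ 3 * vol x
          ≤ ∫ x in Ω ∩ {x | se < w x ∧ w x < se + 1}, (la + 3) * Y * (X x ^ 3 * vol x) := by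
            refine integral_mono (iX.mono_set Set.inter_subset_left) (hiX'.const_mul _)
              fun x => ?_
            have h8 : p3 c0 la s₂ se (w x) + ε * p3' c0 la s₂ se (w x) ≤ (la + 3) * Y := by
              have h9 := (abs_le.mp (hp3b (w x))).2
              have h10 := (abs_le.mp (hp3b' (w x))).2
              have h11 : ε * p3' c0 la s₂ se (w x) ≤ 1 * ((la + 2) * Y) := by
                calc ε * p3' c0 la s₂ se (w x) ≤ ε * ((la + 2) * Y) :=
                      mul_le_mul_of_nonneg_left h10 hε0.le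
                  _ ≤ 1 * ((la + 2) * Y) :=
                      mul_le_mul_of_nonneg_right (by linarith) (by positivity)
              linarith
            have h12 : 0 ≤ X x ^ 3 * vol x :=
              mul_nonneg (pow_nonneg (hA.X_nonneg x) 3) (hA.vol_nonneg x)
            calc (p3 c0 la s₂ se (w x) + ε * p3' c0 la s₂ se (w x)) * X x ^ 3 * vol x
                = (p3 c0 la s₂ se (w x) + ε * p3' c0 la s₂ se (w x)) * (X x ^ 3 * vol x) := by
                  ring
              _ ≤ (la + 3) * Y * (X x ^ 3 * vol x) := mul_le_mul_of_nonneg_right h8 h12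
        _ = (la + 3) * Y * ∫ x in Ω ∩ {x | se < w x ∧ w x < se + 1}, X x ^ 3 * vol x :=
            integral_const_mul _ _
        _ ≤ (la + 3) * Y * B₁ := mul_le_mul_of_nonneg_left hwin (by positivity)
    rw [hI3, h1]
    have h13 : 0 ≤ (la + 3) * Y * B₁ := by positivity
    calc 1 / (2 - ε) * ∫ x in Ω, (p3 c0 la s₂ se (w x) + ε * deriv (p3 c0 la s₂ se) (w x))
          * X x ^ 3 * vol x
        ≤ 1 / (2 - ε) * ((la + 3) * Y * B₁) := mul_le_mul_of_nonneg_left h2 hc.le
      _ ≤ 1 * ((la + 3) * Y * B₁) := mul_le_mul_of_nonneg_right hc1 h13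
      _ = (la + 3) * Y * B₁ := one_mul _
  -- conclusion
  have e4 : ∫ x in Ω, chi la sb s₂ se (w x) * Real.exp (w x / (2 - ε)) * (S x + D x / 2) * vol x
      = SS + DD / 2 := by
    rw [hSS, hDD, ← integral_div, ← integral_add iS (iD.div_const 2)]
    refine integral_congr_ae (Eventually.of_forall fun x => ?_)
    show chi la sb s₂ se (w x) * Real.exp (w x / (2 - ε)) * (S x + D x / 2) * vol x = _
    rw [hee]
    simp only [hψ]
    ring
  rw [e4, hee]
  have e5 : Real.exp (-((lam ε / 2 - 1 / (2 - ε)) * (se - s₂)))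
      = Real.exp (-((la - c0) * (se - s₂))) := rfl
  have e6 : (1 + B₁) * ee c0 s₂ * Real.exp (-((la - c0) * (se - s₂))) = (1 + B₁) * Z := by
    rw [hZ]
    unfold ee
    ring
  rw [e5, e6]
  have hI1' := (abs_le.mp hrise).2
  have e7 : J = -((2 - ε) * (J1 - J2 + J3)) := by
    have h1 : c0 * J = -(J1 - J2 + J3) := by linarith
    have h2 : (2 - ε) * (c0 * J) = J := by
      rw [hc0]
      field_simp
    rw [← h2, h1]
    ring
  rw [e7, ← hc0] at hmi
  have h14 : SS + DD ≤ I1 - I2 + I3 - 4 * Real.pi * (2 - ε) * (J1 - J2 + J3) + K' * 3 := by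
    have h15 : 4 * Real.pi * -((2 - ε) * (J1 - J2 + J3))
        = -(4 * Real.pi * (2 - ε) * (J1 - J2 + J3)) := by ring
    rw [h15] at hmi
    linarith
  have h16 : 4 * Real.pi * (2 - ε) * 1 ≤ 4 * Real.pi * (2 - ε) * J1 :=
    mul_le_mul_of_nonneg_left hJ1' (by positivity)
  have h17 : 4 * Real.pi * (2 - ε) * (-J3) ≤ 8 * Real.pi * Y := by
    calc 4 * Real.pi * (2 - ε) * (-J3) ≤ 4 * Real.pi * (2 - ε) * Y :=
          mul_le_mul_of_nonneg_left hcutJ (by positivity)
      _ ≤ 4 * Real.pi * 2 * Y := by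
          refine mul_le_mul_of_nonneg_right ?_ hY0.le
          exact mul_le_mul_of_nonneg_left (by linarith) (by positivity)
      _ = 8 * Real.pi * Y := by ring
  have h18 : 4 * Real.pi * (2 - ε) + (SS + DD / 2)
      ≤ B₂ * (20 * K * Real.exp 1 / sb ^ 2) + (la + 3) * Y * B₁ + 8 * Real.pi * Y + 3 * K' := by
    linarith
  refine h18.trans ?_
  have h19 : C * (B₂ / sb ^ 2 + (1 + B₁) * Z)
      = B₂ * (20 * K * Real.exp 1 / sb ^ 2) + (la + 3) * Y * B₁ + 8 * Real.pi * Y
        + ((la + 3 + 8 * Real.pi) * K * Real.exp (la / 2 + 1) * (B₂ / sb ^ 2)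
          + 20 * K * Real.exp 1 * ((1 + B₁) * Z) + (la + 3) * Y + 8 * Real.pi * Y * B₁) := by
    rw [hC, hY]
    ring
  rw [h19]
  have h20 : 0 ≤ (la + 3 + 8 * Real.pi) * K * Real.exp (la / 2 + 1) * (B₂ / sb ^ 2)
          + 20 * K * Real.exp 1 * ((1 + B₁) * Z) + (la + 3) * Y + 8 * Real.pi * Y * B₁ := by
    have hK0 : 0 < K := by linarith
    positivity
  linarith

end Pool.Agent.PFU
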