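import Pool.Agent.PFU.StmtsE
import Pool.Agent.PFlow.E.TSTB

/-!
# TSTBT: the test function for the upper bound of the cubic integral, several ends
-/

open MeasureTheory Filter Topology Set
open scoped ContDiff

namespace Pool.Agent.PFU

open Pool.Agent.PenroseSph Pool.Agent.PFlow Pool.Agent.PFT

noncomputable section

namespace TSTBT

open Pool.Agent.PFlow.TSTB

variable {ε s₂ L sb : ℝ} {β : ℝ → ℝ}
variable {Ω : Set E3} {vol w X Φ D S : E3 → ℝ} {sM B₁ B₂ cc KK : ℝ}

lemma stepA (hε : 0 < ε) (hε1 : ε ≤ 1 / 2) (hβ : IsBump β) (hL : 1 ≤ L)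
    (H : AbsT ε Ω vol w X Φ D S sb s₂ sM B₁ B₂ cc KK) (h1 : 0 < sb) (h2 : sb < s₂)
    (h3 : s₂ + L + 1 < sM) {K : ℝ} (hK : 0 ≤ K) (hkap : ∀ s, |deriv kap s| ≤ K) :
    ∫ x in Ω, β (w x - s₂) * X x ^ 3 * vol x
      ≤ (2 - ε) * (∫ x in Ω, pb ε s₂ L β (w x) * Φ x * vol x)
        + ε * (K * (ε⁻¹ * Real.exp (3 / (4 * ε)) * Real.exp (-(L / ε)))) * B₁ := by
  have hx := H.xid (pb ε s₂ L β) (pb_C1 hε hβ)
    (cpt_of (a := s₂ + 1 / 4) (b := s₂ + L + 1) (by
      rintro s (hs | hs)
      · exact pb_left hβ hs.le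
      · exact pb_right hs.le))
    ((tsupport_le (a := s₂ + 1 / 4) (b := s₂ + L + 1) (by
      rintro s (hs | hs)
      · exact pb_left hβ hs.le
      · exact pb_right hs.le)).trans (Set.Icc_subset_Ioo (by linarith) h3))
  have i1 : IntegrableOn (fun x => β (w x - s₂) * (X x ^ 3 * vol x)) Ω :=
    intF (f := fun s => β (s - s₂)) H.measOmega H.meas_w
      ((beta_cont hβ).comp (continuous_id.sub continuous_const))
      (fun s hs => beta_sh_zero hβ s hs)
      (H.int_X (s₂ + 1 / 4) (s₂ + 3 / 4) (by linarith) (by linarith) (by linarith))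
  have hpk : Continuous fun s => ps ε s₂ β s * deriv kap (s - s₂ - L + 1) := by
    have h4 := ps_cont (s₂ := s₂) hε hβ
    have h5 := continuous_deriv_kap
    fun_prop
  have i2 : IntegrableOn (fun x => ps ε s₂ β (w x) * deriv kap (w x - s₂ - L + 1)
      * (X x ^ 3 * vol x)) Ω :=
    intF (f := fun s => ps ε s₂ β s * deriv kap (s - s₂ - L + 1)) H.measOmega H.meas_w hpk
      (fun s hs => pk_zero s hs)
      (H.int_X (s₂ + L) (s₂ + L + 1) (by linarith) (by linarith) (by linarith))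
  have e1 : ∫ x in Ω, (pb ε s₂ L β (w x) + ε * deriv (pb ε s₂ L β) (w x)) * X x ^ 3 * vol x
      = (∫ x in Ω, β (w x - s₂) * (X x ^ 3 * vol x))
        + ε * ∫ x in Ω, ps ε s₂ β (w x) * deriv kap (w x - s₂ - L + 1) * (X x ^ 3 * vol x) := by
    rw [← integral_const_mul, ← integral_add i1 (i2.const_mul ε)]
    refine integral_congr_ae (Filter.Eventually.of_forall fun x => ?_)
    have h4 := pb_key (s₂ := s₂) hε hβ hL (w x)
    rw [← (pb_hasDeriv (s₂ := s₂) (L := L) hε hβ (w x)).deriv] at h4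
    show (pb ε s₂ L β (w x) + ε * deriv (pb ε s₂ L β) (w x)) * X x ^ 3 * vol x = _
    rw [h4]
    ring
  rw [e1] at hx
  have hc : (0 : ℝ) < 2 - ε := by linarith
  have e2 : ∫ x in Ω, β (w x - s₂) * X x ^ 3 * vol x
      = ∫ x in Ω, β (w x - s₂) * (X x ^ 3 * vol x) := by
    simp_rw [mul_assoc]
  rw [e2]
  have hx' : (2 - ε) * (∫ x in Ω, pb ε s₂ L β (w x) * Φ x * vol x)
      = (∫ x in Ω, β (w x - s₂) * (X x ^ 3 * vol x))
        + ε * ∫ x in Ω, ps ε s₂ β (w x) * deriv kap (w x - s₂ - L + 1) * (X x ^ 3 * vol x) := by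
    rw [hx]
    field_simp
  -- the remainder
  set E := ε⁻¹ * Real.exp (3 / (4 * ε)) * Real.exp (-(L / ε)) with hE
  have hE0 : 0 ≤ E := by positivity
  set W : Set E3 := {x | s₂ + L < w x ∧ w x < s₂ + L + 1} with hW
  have hWm : MeasurableSet W :=
    (measurableSet_lt measurable_const H.meas_w).inter (measurableSet_lt H.meas_w measurable_const)
  have i3 : IntegrableOn (fun x => X x ^ 3 * vol x) (Ω ∩ W) :=
    (H.int_X (s₂ + L) (s₂ + L + 1) (by linarith) (by linarith) (by linarith)).mono_set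
      (fun x hx => ⟨hx.1, hx.2.1.le, hx.2.2.le⟩)
  have hrem : -(K * E * B₁) ≤ ∫ x in Ω, ps ε s₂ β (w x) * deriv kap (w x - s₂ - L + 1)
      * (X x ^ 3 * vol x) := by
    have h5 : ∫ x in Ω, W.indicator (fun x => -(K * E) * (X x ^ 3 * vol x)) x
        ≤ ∫ x in Ω, ps ε s₂ β (w x) * deriv kap (w x - s₂ - L + 1) * (X x ^ 3 * vol x) := by
      refine integral_mono ?_ i2 fun x => ?_
      · have i4 : IntegrableOn (fun x => -(K * E) * (X x ^ 3 * vol x)) (Ω ∩ W) := i3.const_mul _
        rw [integrable_indicator_iff hWm, IntegrableOn, Measure.restrict_restrict hWm,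
          Set.inter_comm]
        exact i4
      · show W.indicator (fun x => -(K * E) * (X x ^ 3 * vol x)) x
          ≤ ps ε s₂ β (w x) * deriv kap (w x - s₂ - L + 1) * (X x ^ 3 * vol x)
        have hXv : 0 ≤ X x ^ 3 * vol x := mul_nonneg (pow_nonneg (H.X_nonneg x) 3) (H.vol_nonneg x)
        by_cases hx : x ∈ W
        · rw [Set.indicator_of_mem hx]
          refine mul_le_mul_of_nonneg_right ?_ hXv
          have h6 := ps_le (s₂ := s₂) hε hβ (by linarith : (0:ℝ) ≤ L) hx.1.le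
          have h7 := ps_nonneg (s₂ := s₂) hε hβ (w x)
          have h8 := hkap (w x - s₂ - L + 1)
          rw [← hE] at h6
          have h9 : |ps ε s₂ β (w x) * deriv kap (w x - s₂ - L + 1)| ≤ K * E := by
            rw [abs_mul, abs_of_nonneg h7, mul_comm K E]
            exact mul_le_mul h6 h8 (abs_nonneg _) hE0
          exact (abs_le.mp h9).1
        · rw [Set.indicator_of_notMem hx]
          have h6 : ¬ (s₂ + L < w x ∧ w x < s₂ + L + 1) := hx
          rw [not_and_or, not_lt, not_lt] at h6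
          have h7 : deriv kap (w x - s₂ - L + 1) = 0 := by
            rcases h6 with h | h
            · exact deriv_kap_left (by linarith)
            · exact deriv_kap_right (by linarith)
          rw [h7]
          simp
    rw [setIntegral_indicator hWm, integral_const_mul] at h5
    have h6 := H.window (s₂ + L) (by linarith) (by linarith)
    have h7 : 0 ≤ K * E := mul_nonneg hK hE0
    have h8 := mul_le_mul_of_nonneg_left h6 h7
    have h9 : K * E * ∫ x in Ω ∩ W, X x ^ 3 * vol x ≤ K * E * B₁ := h8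
    linarith
  have h10 := mul_le_mul_of_nonneg_left hrem hε.le
  linarith
lemma stepB (hε : 0 < ε) (hε1 : ε ≤ 1 / 2) (hβ : IsBump β) (hL : 1 ≤ L)
    (H : AbsT ε Ω vol w X Φ D S sb s₂ sM B₁ B₂ cc KK) (h1 : 0 < sb) (h1' : sb ≤ 1) (h2 : sb < s₂)
    (h3 : s₂ + L + 1 < sM) (hB₂ : 0 ≤ B₂) (hcc : cc ≤ 1) (hKK : 0 ≤ KK) {K N : ℝ}
    (hr : ∀ sb c : ℝ, 0 < sb → sb ≤ 1 → 0 ≤ c → c ≤ 1 → ∀ s : ℝ,
      |rhod sb s * Real.exp (c * s)| ≤ K / sb ^ 2 ∧
      |deriv (fun s => rhod sb s * Real.exp (c * s)) s| ≤ K / sb ^ 2)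
    (hN : (∫ x in Ω ∩ {x | sb / 2 < w x ∧ w x < s₂ + L + 1},
          Real.exp (w x / (2 - ε)) * max (-S x) 0 * vol x) ≤ N) :
    ∫ x in Ω, pb ε s₂ L β (w x) * Φ x * vol x
      ≤ 4 * Real.pi * (2 - ε) + MB ε s₂ L (1 / (2 - ε)) β
        * (B₂ * (K / sb ^ 2) + N + KK * Real.exp 1) := by
  set c : ℝ := 1 / (2 - ε) with hc
  have h2ε : (0 : ℝ) < 2 - ε := by linarith
  have hc0 : 0 < c := by positivity
  have hc1 : c ≤ 1 := by
    rw [hc, div_le_one h2ε]
    linarith
  have hM := MB_nonneg (s₂ := s₂) (L := L) (c := c) hε hβ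
  have hz : ∀ s, s < 5 * sb / 8 ∨ s₂ + L + 1 < s → et ε s₂ L c sb β s = 0 := by
    rintro s (hs | hs)
    · exact et_left h1 hs.le
    · exact et_right hε hβ hs.le
  have hbd : ∀ s, s ≤ cc → et ε s₂ L c sb β s ≤ MB ε s₂ L c β * Real.exp 1 := by
    intro s hs
    have h4 := et_le (s₂ := s₂) (L := L) (c := c) (sb := sb) hε hβ s
    refine h4.trans (mul_le_mul_of_nonneg_left (Real.exp_le_exp.mpr ?_) hM)
    rcases le_total s 0 with h5 | h5
    · nlinarith
    · nlinarith
  have hmi := H.mi (et ε s₂ L c sb β) (MB ε s₂ L c β * Real.exp 1) (et_C1 hε hβ h1 h2)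
    (fun s => et_nonneg hε hβ s)
    (cpt_of hz) ((tsupport_le hz).trans (Set.Icc_subset_Ioo (by linarith) h3)) hbd
  have hd : ∀ s, deriv (et ε s₂ L c sb β) s = etd ε s₂ L c sb β s := fun s =>
    (et_hasDeriv hε hβ h1 h2 s).deriv
  have hz1 : ∀ s, s < 5 * sb / 8 ∨ 7 * sb / 8 < s → rhod sb s * Real.exp (c * s) = 0 := by
    rintro s (hs | hs)
    · rw [rhod_left h1 hs.le, zero_mul]
    · rw [rhod_right h1 hs.le, zero_mul]
  have hin := H.inner (fun s => rhod sb s * Real.exp (c * s)) (K / sb ^ 2) (rhod_exp_C1 sb c)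
    (cpt_of hz1) ((tsupport_le hz1).trans (Set.Icc_subset_Ioo (by linarith) (by linarith)))
    (fun s => hr sb c h1 h1' hc0.le hc1 s)
  have j1 : IntegrableOn (fun x => rhod sb (w x) * Real.exp (c * w x) * (Φ x * vol x)) Ω :=
    intF (f := fun s => rhod sb s * Real.exp (c * s)) H.measOmega H.meas_w
      (rhod_exp_C1 sb c).continuous hz1
      (H.int_Phi (5 * sb / 8) (7 * sb / 8) (by linarith) (by linarith) (by linarith))
  have j2 : IntegrableOn (fun x => pb ε s₂ L β (w x) * (Φ x * vol x)) Ω :=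
    intF H.measOmega H.meas_w (pb_cont hε hβ) (a := s₂ + 1 / 4) (b := s₂ + L + 1) (by
      rintro s (hs | hs)
      · exact pb_left hβ hs.le
      · exact pb_right hs.le)
      (H.int_Phi _ _ (by linarith) (by linarith) h3)
  have j3 : IntegrableOn (fun x => et ε s₂ L c sb β (w x) * (Φ x * vol x)) Ω :=
    intF H.measOmega H.meas_w (et_cont hε hβ h1 h2) hz
      (H.int_Phi _ _ (by linarith) (by linarith) h3)
  have j4 : IntegrableOn (fun x => et ε s₂ L c sb β (w x) * (S x * vol x)) Ω :=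
    intF H.measOmega H.meas_w (et_cont hε hβ h1 h2) hz
      (H.int_S _ _ (by linarith) (by linarith) h3)
  have j5 : IntegrableOn (fun x => et ε s₂ L c sb β (w x) * (D x * vol x)) Ω :=
    intF H.measOmega H.meas_w (et_cont hε hβ h1 h2) hz
      (H.int_D _ _ (by linarith) (by linarith) h3)
  have e1 : ∫ x in Ω, deriv (et ε s₂ L c sb β) (w x) * Φ x * vol x
      = MB ε s₂ L c β * (∫ x in Ω, rhod sb (w x) * Real.exp (c * w x) * (Φ x * vol x))
        - (∫ x in Ω, pb ε s₂ L β (w x) * (Φ x * vol x))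
        + c * ∫ x in Ω, et ε s₂ L c sb β (w x) * (Φ x * vol x) := by
    have j12 : IntegrableOn (fun x => MB ε s₂ L c β
        * (rhod sb (w x) * Real.exp (c * w x) * (Φ x * vol x))
        - pb ε s₂ L β (w x) * (Φ x * vol x)) Ω := (j1.const_mul _).sub j2
    have j33 : IntegrableOn (fun x => c * (et ε s₂ L c sb β (w x) * (Φ x * vol x))) Ω :=
      j3.const_mul _
    rw [← integral_const_mul, ← integral_const_mul, ← integral_sub (j1.const_mul _) j2,
      ← integral_add j12 j33]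
    refine integral_congr_ae (Filter.Eventually.of_forall fun x => ?_)
    show deriv (et ε s₂ L c sb β) (w x) * Φ x * vol x = _
    rw [hd]
    unfold etd
    ring
  have e2 : ∫ x in Ω, et ε s₂ L c sb β (w x) * Φ x * vol x
      = ∫ x in Ω, et ε s₂ L c sb β (w x) * (Φ x * vol x) := by
    simp_rw [mul_assoc]
  have e3 : ∫ x in Ω, pb ε s₂ L β (w x) * Φ x * vol x
      = ∫ x in Ω, pb ε s₂ L β (w x) * (Φ x * vol x) := by
    simp_rw [mul_assoc]
  have e4 : ∫ x in Ω, rhod sb (w x) * Real.exp (c * w x) * Φ x * vol x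
      = ∫ x in Ω, rhod sb (w x) * Real.exp (c * w x) * (Φ x * vol x) := by
    simp_rw [mul_assoc]
  have hin' : |∫ x in Ω, rhod sb (w x) * Real.exp (c * w x) * (Φ x * vol x)|
      ≤ B₂ * (K / sb ^ 2) := by
    rw [← e4]
    exact hin
  rw [e1, e2] at hmi
  rw [e3]
  -- the integral of the test function
  have h4 : ∫ s, et ε s₂ L c sb β s ≤ 2 - ε := by
    have h5 := et_integral (L := L) hε hβ hL hc0 h1 h2
    rw [hc, ← hc, mul_comm, ← le_div_iff₀ hc0] at h5
    rw [hc] at h5 ⊢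
    rwa [one_div_one_div] at h5
  -- the part with S and D
  have hT : 0 ≤ s₂ + L + 1 := by linarith
  set W : Set E3 := {x | sb / 2 < w x ∧ w x < s₂ + L + 1} with hW
  have hWm : MeasurableSet W :=
    (measurableSet_lt measurable_const H.meas_w).inter (measurableSet_lt H.meas_w measurable_const)
  have j6 : IntegrableOn (fun x => Real.exp (w x / (2 - ε)) * max (-S x) 0 * vol x) (Ω ∩ W) := by
    have j7 : IntegrableOn (fun x => S x * vol x) (Ω ∩ W) :=
      (H.int_S (sb / 2) (s₂ + L + 1) (by linarith) (by linarith) h3).mono_set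
        (fun x hx => ⟨hx.1, hx.2.1.le, hx.2.2.le⟩)
    have j8 : IntegrableOn (fun x => max (-(S x * vol x)) 0) (Ω ∩ W) := j7.neg.pos_part
    have j9 : IntegrableOn (fun x => Real.exp (w x / (2 - ε)) * max (-(S x * vol x)) 0)
        (Ω ∩ W) := by
      refine Integrable.bdd_mul (c := Real.exp ((s₂ + L + 1) / (2 - ε))) j8
        (Real.measurable_exp.comp (H.meas_w.div_const _)).aestronglyMeasurable ?_
      filter_upwards [self_mem_ae_restrict (H.measOmega.inter hWm)] with x hx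
      rw [Real.norm_eq_abs, abs_of_pos (Real.exp_pos _)]
      exact Real.exp_le_exp.mpr (div_le_div_of_nonneg_right hx.2.2.le h2ε.le)
    refine j9.congr (Filter.Eventually.of_forall fun x => ?_)
    show Real.exp (w x / (2 - ε)) * max (-(S x * vol x)) 0
      = Real.exp (w x / (2 - ε)) * max (-S x) 0 * vol x
    rw [mul_assoc, max_mul_of_nonneg _ _ (H.vol_nonneg x), zero_mul, neg_mul]
  have h5 : -(∫ x in Ω, et ε s₂ L c sb β (w x) * (S x + D x) * vol x)
      ≤ MB ε s₂ L c β * N := by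
    have h6 : ∫ x in Ω, -(et ε s₂ L c sb β (w x) * (S x + D x) * vol x)
        ≤ ∫ x in Ω, W.indicator (fun x => MB ε s₂ L c β
          * (Real.exp (w x / (2 - ε)) * max (-S x) 0 * vol x)) x := by
      refine integral_mono_ae ?_ ?_ ?_
      · refine (j4.add j5).neg.congr (Filter.Eventually.of_forall fun x => ?_)
        show -(et ε s₂ L c sb β (w x) * (S x * vol x) + et ε s₂ L c sb β (w x) * (D x * vol x))
          = -(et ε s₂ L c sb β (w x) * (S x + D x) * vol x)
        ring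
      · have i4 : IntegrableOn (fun x => MB ε s₂ L c β
          * (Real.exp (w x / (2 - ε)) * max (-S x) 0 * vol x)) (Ω ∩ W) := j6.const_mul _
        rw [integrable_indicator_iff hWm, IntegrableOn, Measure.restrict_restrict hWm,
          Set.inter_comm]
        exact i4
      · filter_upwards [H.D_nonneg] with x hx
        have hv := H.vol_nonneg x
        have he := et_nonneg (s₂ := s₂) (L := L) (c := c) (sb := sb) hε hβ (w x)
        by_cases hxW : x ∈ W
        · rw [Set.indicator_of_mem hxW]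
          have h7 := et_le (s₂ := s₂) (L := L) (c := c) (sb := sb) hε hβ (w x)
          have h8 : c * w x = w x / (2 - ε) := by
            rw [hc]
            ring
          rw [h8] at h7
          have h9 : -(S x + D x) ≤ max (-S x) 0 := by
            have := le_max_left (-S x) 0
            linarith
          have h10 : 0 ≤ max (-S x) 0 := le_max_right _ _
          calc -(et ε s₂ L c sb β (w x) * (S x + D x) * vol x)
              = et ε s₂ L c sb β (w x) * (-(S x + D x)) * vol x := by ring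
            _ ≤ et ε s₂ L c sb β (w x) * max (-S x) 0 * vol x :=
                mul_le_mul_of_nonneg_right (mul_le_mul_of_nonneg_left h9 he) hv
            _ ≤ MB ε s₂ L c β * Real.exp (w x / (2 - ε)) * max (-S x) 0 * vol x :=
                mul_le_mul_of_nonneg_right (mul_le_mul_of_nonneg_right h7 h10) hv
            _ = _ := by ring
        · rw [Set.indicator_of_notMem hxW]
          have h6 : ¬ (sb / 2 < w x ∧ w x < s₂ + L + 1) := hxW
          rw [not_and_or, not_lt, not_lt] at h6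
          have h7 : et ε s₂ L c sb β (w x) = 0 := by
            rcases h6 with h | h
            · exact et_left h1 (by linarith)
            · exact et_right hε hβ h
          rw [h7]
          simp
    rw [setIntegral_indicator hWm, integral_const_mul, integral_neg] at h6
    exact h6.trans (mul_le_mul_of_nonneg_left hN hM)
  have h6 := (abs_le.mp hin').2
  have h7 := mul_le_mul_of_nonneg_left h6 hM
  have h8 := mul_le_mul_of_nonneg_left h4 (show (0 : ℝ) ≤ 4 * Real.pi by positivity)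
  have h9 : MB ε s₂ L c β * (B₂ * (K / sb ^ 2) + N + KK * Real.exp 1)
      = MB ε s₂ L c β * (B₂ * (K / sb ^ 2)) + MB ε s₂ L c β * N
        + KK * (MB ε s₂ L c β * Real.exp 1) := by ring
  rw [h9]
  linarith

end TSTBT

open Pool.Agent.PFlow.TSTB in
/-- **TSTBT**: the test function for the upper bound of the cubic integral, several ends. -/
theorem t_TSTBT : Stmt_TSTBT := by
  intro ε β hε hε1 hβ
  obtain ⟨K, hK, hkap⟩ := kap_bound
  obtain ⟨K', hK', hr⟩ := rhod_bound
  have h2ε : (0 : ℝ) < 2 - ε := by linarith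
  set C₁ : ℝ := ε * (K * (ε⁻¹ * Real.exp (3 / (4 * ε)))) with hC₁
  have hC₁0 : 0 ≤ C₁ := by positivity
  set E : ℝ := Real.exp 1 with hE
  have hE0 : 0 < E := Real.exp_pos 1
  refine ⟨2 * (K' + 1 + E) + C₁, by positivity, ?_⟩
  intro Ω vol w X Φ D S sb s₂ sM B₁ B₂ cc KK H h1 h1' h2 hB₁ hB₂ hcc _ hKK L N hL h3 hN
  have hA := TSTBT.stepA hε hε1 hβ hL H h1 h2 h3 hK hkap
  have hB := TSTBT.stepB hε hε1 hβ hL H h1 h1' h2 h3 hB₂ hcc hKK hr hN
  have hM0 := MB_nonneg (s₂ := s₂) (L := L) (c := 1 / (2 - ε)) hε hβ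
  have hM := MB_le (s₂ := s₂) (L := L) (c := 1 / (2 - ε)) hε hβ hL (by positivity)
  have e1 : -(1 / (2 - ε) * s₂) = -(s₂ / (2 - ε)) := by ring
  rw [e1] at hM
  rw [← hE] at hB
  have hN0 : 0 ≤ N := by
    refine le_trans (integral_nonneg fun x => ?_) hN
    exact mul_nonneg (mul_nonneg (Real.exp_pos _).le (le_max_right _ _)) (H.vol_nonneg x)
  have hB2 : 0 ≤ B₂ / sb ^ 2 := by positivity
  set Q := Real.exp (-(s₂ / (2 - ε))) with hQ
  have hQ0 : 0 < Q := Real.exp_pos _
  set Z := N + KK + B₂ / sb ^ 2 with hZ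
  have hZ0 : 0 ≤ Z := by positivity
  have e2 : B₂ * (K' / sb ^ 2) + N + KK * E ≤ (K' + 1 + E) * Z := by
    have e6 : B₂ * (K' / sb ^ 2) = K' * (B₂ / sb ^ 2) := by ring
    have e7 : (K' + 1 + E) * Z - (B₂ * (K' / sb ^ 2) + N + KK * E)
        = K' * N + K' * KK + KK + B₂ / sb ^ 2 + E * N + E * (B₂ / sb ^ 2) := by
      rw [e6, hZ]
      ring
    have e8 : 0 ≤ K' * N + K' * KK + KK + B₂ / sb ^ 2 + E * N + E * (B₂ / sb ^ 2) := by
      positivity
    linarith
  have e3 : 0 ≤ B₂ * (K' / sb ^ 2) + N + KK * E := by positivity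
  have h4 : MB ε s₂ L (1 / (2 - ε)) β * (B₂ * (K' / sb ^ 2) + N + KK * E)
      ≤ Q * ((K' + 1 + E) * Z) := mul_le_mul hM e2 e3 hQ0.le
  have h5 : (2 - ε) * (∫ x in Ω, pb ε s₂ L β (w x) * Φ x * vol x)
      ≤ (2 - ε) * (4 * Real.pi * (2 - ε) + Q * ((K' + 1 + E) * Z)) :=
    mul_le_mul_of_nonneg_left (by linarith) h2ε.le
  have h6 : 0 ≤ Q * ((K' + 1 + E) * Z) := by positivity
  have h7 : (2 - ε) * (Q * ((K' + 1 + E) * Z))
      ≤ 2 * (Q * ((K' + 1 + E) * Z)) := by nlinarith
  have h8 : 0 ≤ C₁ * (Q * Z) := by positivity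
  have h9 : 0 ≤ 2 * (K' + 1 + E) * (Real.exp (-(L / ε)) * B₁) := by positivity
  have e4 : ε * (K * (ε⁻¹ * Real.exp (3 / (4 * ε)) * Real.exp (-(L / ε)))) * B₁
      = C₁ * (Real.exp (-(L / ε)) * B₁) := by
    rw [hC₁]
    ring
  rw [e4] at hA
  have e5 : (2 * (K' + 1 + E) + C₁) * (Q * Z + Real.exp (-(L / ε)) * B₁)
      = 2 * (Q * ((K' + 1 + E) * Z)) + C₁ * (Q * Z)
        + 2 * (K' + 1 + E) * (Real.exp (-(L / ε)) * B₁) + C₁ * (Real.exp (-(L / ε)) * B₁) := by ring
  rw [e5]
  linarith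

end

end Pool.Agent.PFU
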