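import Pool.Agent.PFU.StmtsL
import Pool.Agent.PFT.ULB

/-!
# ULBT: uniform lower bound of the solution
-/

open MeasureTheory Filter Topology
open scoped ContDiff ENNReal

set_option autoImplicit false

namespace Pool.Agent.PFU

open Pool.Agent.PenroseSph Pool.Agent.PFlow Pool.Agent.PFT

namespace ULBTAux

/-- the region between the spheres -/
def reg (T : Finset E3) (a b : ℝ) : Set E3 := {x : E3 | (∀ p ∈ T, a < ‖x - p‖) ∧ ‖x‖ < b}

lemma reg_open (T : Finset E3) (a b : ℝ) : IsOpen (reg T a b) := by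
  have h1 : reg T a b = (⋂ p ∈ T, {x : E3 | a < ‖x - p‖}) ∩ {x : E3 | ‖x‖ < b} := by
    ext x
    simp [reg]
  rw [h1]
  refine IsOpen.inter ?_ (isOpen_lt continuous_norm continuous_const)
  exact isOpen_biInter_finset fun p _ =>
    isOpen_lt continuous_const (continuous_id.sub continuous_const).norm

/-- the closed region -/
def creg (T : Finset E3) (a b : ℝ) : Set E3 := {x : E3 | (∀ p ∈ T, a ≤ ‖x - p‖) ∧ ‖x‖ ≤ b}

lemma creg_closed (T : Finset E3) (a b : ℝ) : IsClosed (creg T a b) := by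
  have h1 : creg T a b = (⋂ p ∈ T, {x : E3 | a ≤ ‖x - p‖}) ∩ {x : E3 | ‖x‖ ≤ b} := by
    ext x
    simp [creg]
  rw [h1]
  refine IsClosed.inter ?_ (isClosed_le continuous_norm continuous_const)
  exact isClosed_biInter fun p _ =>
    isClosed_le continuous_const (continuous_id.sub continuous_const).norm

lemma creg_compact (T : Finset E3) (a b : ℝ) : IsCompact (creg T a b) := by
  refine (isCompact_closedBall (0 : E3) b).of_isClosed_subset (creg_closed T a b) fun x hx => ?_
  rw [mem_closedBall_zero_iff]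
  exact hx.2

lemma closure_reg (T : Finset E3) (a b : ℝ) : closure (reg T a b) ⊆ creg T a b :=
  closure_minimal (fun _ hy => ⟨fun p hp => (hy.1 p hp).le, hy.2.le⟩) (creg_closed T a b)

lemma frontier_reg (T : Finset E3) (a b : ℝ) (x : E3) (hx : x ∈ frontier (reg T a b)) :
    (∃ p ∈ T, ‖x - p‖ = a) ∨ ‖x‖ = b := by
  rw [(reg_open T a b).frontier_eq] at hx
  have h1 := closure_reg T a b hx.1
  by_contra hcon
  push Not at hcon
  exact hx.2 ⟨fun p hp => lt_of_le_of_ne (h1.1 p hp) (Ne.symm (hcon.1 p hp)),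
    lt_of_le_of_ne h1.2 hcon.2⟩

end ULBTAux

open ULBTAux ULBAux in
theorem t_ULBT (hNZT : Stmt_NZT) (hHART : Stmt_HART) : Stmt_ULBT := by
  intro P F g k ε C hTP hF hSE hPT hPr hε hε1 hC
  obtain ⟨c₀, R₀, hc₀, hR₀, hnz⟩ := hNZT F ε C hF hε hε1 hC
  have h0T := hF.zero
  have h0P : (0 : E3) ∈ P := hTP h0T
  have hρ := hF.rho_pos
  have hr1 := hF.rad_ge
  set U : Set E3 := ((P : Set E3))ᶜ with hU
  obtain ⟨hUo, hUc⟩ := CONC (P : Set E3) P.finite_toSet
  -- the bound of `k`
  set H : E3 → ℝ := fun x => ∑ i, ∑ j, |k x i j| with hH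
  have hHc : ContinuousOn H U := by
    rw [hH]
    exact continuousOn_finsetSum _ fun i _ => continuousOn_finsetSum _ fun j _ =>
      ((hSE.tensor.smooth i j).continuousOn).abs
  have hkH : ∀ x i j, |k x i j| ≤ H x := by
    intro x i j
    exact (Finset.single_le_sum (f := fun j => |k x i j|) (fun j _ => abs_nonneg _)
      (Finset.mem_univ j)).trans (Finset.single_le_sum (f := fun i => ∑ j, |k x i j|)
        (fun i _ => Finset.sum_nonneg fun j _ => abs_nonneg _) (Finset.mem_univ i))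
  -- the small ball
  obtain ⟨z₀, hz₀⟩ := exists_norm_eq (F.rho / 3) (by linarith)
  have hball : ∀ x ∈ Metric.closedBall z₀ (F.rho / 12), F.rho / 4 ≤ ‖x‖ ∧ ‖x‖ ≤ F.rho / 2 := by
    intro x hx
    rw [Metric.mem_closedBall, dist_eq_norm] at hx
    have h1 : ‖x‖ ≤ ‖x - z₀‖ + ‖z₀‖ := by
      have := norm_add_le (x - z₀) z₀
      rwa [sub_add_cancel] at this
    have h2 : ‖z₀‖ ≤ ‖x - z₀‖ + ‖x‖ := by
      have := norm_sub_le x (x - z₀)
      rw [sub_sub_cancel] at this
      linarith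
    constructor <;> linarith
  have hballU : Metric.closedBall z₀ (F.rho / 12) ⊆ U := by
    intro x hx hxP
    obtain ⟨h1, h2⟩ := hball x hx
    have hx0 : x ≠ 0 := by
      intro h
      rw [h, norm_zero] at h1
      linarith
    by_cases hxT : x ∈ F.T
    · have := hF.disj x hxT 0 h0T hx0
      rw [sub_zero] at this
      linarith
    · have := hPT x hxP hxT 0 h0T
      rw [sub_zero] at this
      linarith
  -- the sphere
  have hKc : IsCompact (Metric.sphere (0 : E3) F.rad) := isCompact_sphere _ _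
  have hKU : Metric.sphere (0 : E3) F.rad ⊆ U := by
    intro x hx hxP
    rw [mem_sphere_zero_iff_norm] at hx
    have := hPr x hxP
    linarith
  obtain ⟨K', c₁, hK'c, hK'U, hc₁, hhar⟩ := hHART ε H U g hε (by linarith) hHc hUo hUc hSE.metric
    z₀ (F.rho / 12) (Metric.sphere (0 : E3) F.rad) (by linarith) hballU hKc hKU
  -- the constants
  obtain ⟨δ, hδ, hδK⟩ : ∃ δ : ℝ, 0 < δ ∧ ∀ x ∈ K', ∀ p ∈ P, δ ≤ ‖x - p‖ := by
    rcases K'.eq_empty_or_nonempty with he | hne
    · exact ⟨1, one_pos, fun x hx => by rw [he] at hx; exact absurd hx (Set.notMem_empty x)⟩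
    · have hPne : ((P : Set E3)).Nonempty := ⟨0, h0P⟩
      have hdisj : Disjoint K' (P : Set E3) := Set.disjoint_left.mpr fun x hx hxP => hK'U hx hxP
      obtain ⟨δ, hδ, h⟩ := Metric.exists_pos_forall_lt_edist hK'c P.finite_toSet.isClosed hdisj
      refine ⟨δ, by exact_mod_cast hδ, fun x hx p hp => ?_⟩
      have h2 := (h x hx p hp).le
      rw [edist_dist, dist_eq_norm] at h2
      have h3 := (ENNReal.ofReal_le_ofReal_iff (norm_nonneg (x - p))).mp
        (by simpa using h2 : ENNReal.ofReal (δ : ℝ) ≤ ENNReal.ofReal ‖x - p‖)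
      exact h3
  obtain ⟨B, hB⟩ : ∃ B : ℝ, ∀ x ∈ K', ‖x‖ ≤ B := by
    obtain ⟨B, hB⟩ := hK'c.isBounded.exists_norm_le
    exact ⟨B, hB⟩
  refine ⟨min c₀ (c₁ * c₀), 1 / δ, R₀ + 1 / δ + |B| + 8 / F.rho + 2 * F.rad, |B|,
    lt_min hc₀ (mul_pos hc₁ hc₀), by positivity, by positivity, ?_⟩
  intro N R hN hR η g' h' u G M hη0 hη hg' hsame hbar sol x hxr
  have hδi : 0 < 1 / δ := by positivity
  have hρi : 0 < 8 / F.rho := by positivity
  have hB0 : 0 ≤ |B| := abs_nonneg B
  have hN0 : 0 < N := by linarith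
  have hR0 : 0 < R := by linarith
  have hRδ : 1 / δ ≤ R := by linarith
  have hRρ : 8 / F.rho ≤ R := by linarith
  have hRB : |B| ≤ R := by linarith
  have hRr : F.rad < R := by linarith
  have hiR : 1 / R ≤ F.rho / 8 := by
    rw [div_le_div_iff₀ hR0 (by norm_num)]
    rw [div_le_iff₀ hρ] at hRρ
    linarith
  have hiRδ : 1 / R ≤ δ := by
    rw [div_le_iff₀ hδ] at hRδ
    rw [div_le_iff₀ hR0]
    linarith
  have hiNδ : 1 / N ≤ δ := by
    rw [div_le_iff₀ hδ] at hN
    rw [div_le_iff₀ hN0]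
    linarith
  have hlow := hnz R (by linarith) η g' h' u G M hη0 hη hg' hbar sol
  -- `K'` lies in the region where the data are the given ones
  have hK's : ∀ y ∈ K', (g' =ᶠ[𝓝 y] g) ∧ ∃ t : ℝ, |t| ≤ 1 ∧ h' y = t • k y := by
    intro y hy
    refine hsame y ?_ ((hB y hy).trans (le_abs_self B)) ?_
    · intro p hp
      refine le_trans ?_ (hδK y hy p (hTP hp))
      refine le_trans ?_ hiRδ
      exact one_div_le_one_div_of_le hR0 (by linarith)
    · intro p hp _
      refine lt_of_lt_of_le ?_ (hδK y hy p hp)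
      refine lt_of_lt_of_le ?_ hiNδ
      exact one_div_lt_one_div_of_lt hN0 (by linarith)
  have hsph : ∀ y : E3, ‖y‖ = F.rad → c₁ * c₀ ≤ u y := by
    intro y hy
    refine (hhar F.T (1 / R) R η g' h' u G M sol (fun y hy => (hK's y hy).1) ?_ c₀ hc₀.le).1 ?_ ?_
      y (by rw [mem_sphere_zero_iff_norm]; exact hy)
    · intro y hy i j
      obtain ⟨-, t, ht, hty⟩ := hK's y hy
      rw [hty, Matrix.smul_apply, smul_eq_mul, abs_mul]
      exact (mul_le_of_le_one_left (abs_nonneg _) ht).trans (hkH y i j)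
    · intro y hy
      exact ((hB y hy).trans (le_abs_self B)).trans hRB
    · intro y hy
      refine hlow 0 h0T y ?_
      rw [sub_zero]
      exact (hball y hy).2
  by_cases hxρ : ∃ p ∈ F.T, ‖x - p‖ ≤ F.rho / 2
  · obtain ⟨p, hp, hxp⟩ := hxρ
    exact (min_le_left _ _).trans (hlow p hp x hxp)
  push Not at hxρ
  rcases hxr.eq_or_lt with h | h
  · exact (min_le_right _ _).trans (hsph x h)
  -- no islands
  have hDc : IsCompact (closure (reg F.T (F.rho / 4) F.rad)) :=
    (creg_compact F.T (F.rho / 4) F.rad).of_isClosed_subset isClosed_closure (closure_reg _ _ _)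
  have hDA : closure (reg F.T (F.rho / 4) F.rad) ⊆ AnnT F.T (1 / R) R := by
    intro y hy
    obtain ⟨h1, h2⟩ := closure_reg _ _ _ hy
    exact ⟨by linarith, fun p hp => by have := h1 p hp; linarith⟩
  obtain ⟨y, hy, hyx⟩ := (sol.noIsland _ (reg_open F.T (F.rho / 4) F.rad) hDc hDA x
    ⟨fun p hp => by have := hxρ p hp; linarith, h⟩).2
  rcases frontier_reg _ _ _ _ hy with ⟨p, hp, h1⟩ | h1
  · exact (min_le_left _ _).trans ((hlow p hp y (by linarith)).trans hyx)
  · exact (min_le_right _ _).trans ((hsph y h1).trans hyx)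

end Pool.Agent.PFU
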