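import Pool.Agent.PFU.StmtsE
import Pool.Agent.PFlow.E.UPH

/-!
# Module UPHT: upper bounds for the flux and the weight, several ends

The proof of `Pool/Agent/PFlow/E/UPH.lean` for `AbsT` and `SetupT`.
-/

open MeasureTheory Filter Topology
open scoped ContDiff ENNReal

namespace Pool.Agent.PFU

open Pool.Agent.PenroseSph Pool.Agent.PFlow Pool.Agent.PFT

namespace UPHTAux

open PFlow.UphM (le_split)

section AbsPart

variable {ε : ℝ} {Ω : Set E3} {vol w X Φ D S : E3 → ℝ} {sb s₂ sM B₁ B₂ c K : ℝ}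

theorem measurableSet_lvl (hA : AbsT ε Ω vol w X Φ D S sb s₂ sM B₁ B₂ c K) (a b : ℝ) :
    MeasurableSet (Ω ∩ {x | a ≤ w x ∧ w x ≤ b}) :=
  hA.measOmega.inter ((measurableSet_le measurable_const hA.meas_w).inter
    (measurableSet_le hA.meas_w measurable_const))

theorem int_pow (hA : AbsT ε Ω vol w X Φ D S sb s₂ sM B₁ B₂ c K) {q s s' : ℝ} (hq : 0 ≤ q)
    (hq2 : q ≤ 2) (h1 : sb / 4 < s) (h2 : s < s') (h3 : s' < sM) :
    IntegrableOn (fun x => X x ^ (1 + q) * vol x) (Ω ∩ {x | s ≤ w x ∧ w x ≤ s'}) := by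
  have iv := hA.int_vol s s' h1 h2 h3
  have iX := hA.int_X s s' h1 h2 h3
  have mX : AEStronglyMeasurable X (volume.restrict (Ω ∩ {x | s ≤ w x ∧ w x ≤ s'})) :=
    hA.meas_X.mono_set Set.inter_subset_left
  refine Integrable.mono' (iv.add iX)
    ((mX.aemeasurable.pow_const (1 + q)).aestronglyMeasurable.mul iv.aestronglyMeasurable) ?_
  refine Eventually.of_forall fun x => ?_
  have hX := hA.X_nonneg x
  have hv := hA.vol_nonneg x
  have hb : X x ^ (1 + q) ≤ 1 + X x ^ 3 := by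
    rcases le_or_gt (X x) 1 with h | h
    · have : X x ^ (1 + q) ≤ 1 := Real.rpow_le_one hX h (by linarith)
      have : 0 ≤ X x ^ 3 := by positivity
      linarith
    · have h4 : X x ^ (1 + q) ≤ X x ^ (3 : ℝ) :=
        Real.rpow_le_rpow_of_exponent_le h.le (by linarith)
      have h5 : X x ^ (3 : ℝ) = X x ^ (3 : ℕ) := by
        rw [← Real.rpow_natCast]
        norm_num
      rw [h5] at h4
      linarith
  have h0 : 0 ≤ X x ^ (1 + q) := Real.rpow_nonneg hX _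
  rw [Real.norm_eq_abs, abs_of_nonneg (mul_nonneg h0 hv)]
  calc X x ^ (1 + q) * vol x ≤ (1 + X x ^ 3) * vol x := mul_le_mul_of_nonneg_right hb hv
    _ = vol x + X x ^ 3 * vol x := by ring

/-- The cubic integral over finitely many windows. -/
theorem windows (hA : AbsT ε Ω vol w X Φ D S sb s₂ sM B₁ B₂ c K) (h0 : 0 < sb) (hs : sb < s₂) :
    ∀ k : ℕ, s₂ + k / 2 + 1 / 2 < sM →
      ∫ x in Ω ∩ {x | s₂ < w x ∧ w x ≤ s₂ + k / 2}, X x ^ 3 * vol x ≤ k * B₁ := by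
  intro k
  induction k with
  | zero =>
    intro _
    have he : Ω ∩ {x | s₂ < w x ∧ w x ≤ s₂ + ((0 : ℕ) : ℝ) / 2} = ∅ := by
      ext x
      simp only [Set.mem_inter_iff, Set.mem_setOf_eq, Set.mem_empty_iff_false, iff_false]
      push_cast
      rintro ⟨-, h1, h2⟩
      linarith
    rw [he]
    simp
  | succ k ih =>
    intro hk
    push_cast at hk ⊢
    have hk0 : (0 : ℝ) ≤ k := Nat.cast_nonneg k
    have ih' := ih (by linarith)
    have hmw : ∀ a b : ℝ, MeasurableSet (Ω ∩ {x | a < w x ∧ w x ≤ b}) := fun a b =>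
      hA.measOmega.inter ((measurableSet_lt measurable_const hA.meas_w).inter
        (measurableSet_le hA.meas_w measurable_const))
    have hbig : IntegrableOn (fun x => X x ^ 3 * vol x)
        (Ω ∩ {x | s₂ ≤ w x ∧ w x ≤ s₂ + (k / 2 + 1 / 2)}) :=
      hA.int_X _ _ (by linarith) (by linarith) (by linarith)
    have hsplit : Ω ∩ {x | s₂ < w x ∧ w x ≤ s₂ + ((k : ℝ) + 1) / 2} =
        (Ω ∩ {x | s₂ < w x ∧ w x ≤ s₂ + k / 2}) ∪
          (Ω ∩ {x | s₂ + k / 2 < w x ∧ w x ≤ s₂ + (k + 1) / 2}) := by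
      ext x
      simp only [Set.mem_inter_iff, Set.mem_setOf_eq, Set.mem_union]
      constructor
      · rintro ⟨h1, h2, h3⟩
        rcases le_or_gt (w x) (s₂ + k / 2) with h | h
        · exact Or.inl ⟨h1, h2, h⟩
        · exact Or.inr ⟨h1, h, h3⟩
      · rintro (⟨h1, h2, h3⟩ | ⟨h1, h2, h3⟩)
        · exact ⟨h1, h2, by linarith⟩
        · exact ⟨h1, by linarith, h3⟩
    have hdisj : Disjoint (Ω ∩ {x | s₂ < w x ∧ w x ≤ s₂ + k / 2})
        (Ω ∩ {x | s₂ + k / 2 < w x ∧ w x ≤ s₂ + ((k : ℝ) + 1) / 2}) := by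
      rw [Set.disjoint_left]
      rintro x ⟨-, -, h1⟩ ⟨-, h2, -⟩
      exact absurd h2 (not_lt.2 h1)
    have i1 : IntegrableOn (fun x => X x ^ 3 * vol x)
        (Ω ∩ {x | s₂ < w x ∧ w x ≤ s₂ + k / 2}) :=
      hbig.mono_set fun x hx => ⟨hx.1, hx.2.1.le, by linarith [hx.2.2]⟩
    have i2 : IntegrableOn (fun x => X x ^ 3 * vol x)
        (Ω ∩ {x | s₂ + k / 2 < w x ∧ w x ≤ s₂ + ((k : ℝ) + 1) / 2}) :=
      hbig.mono_set fun x hx => ⟨hx.1, by linarith [hx.2.1], by linarith [hx.2.2]⟩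
    have i3 : IntegrableOn (fun x => X x ^ 3 * vol x)
        (Ω ∩ {x | s₂ + k / 2 < w x ∧ w x < s₂ + k / 2 + 1}) := by
      have hb2 : IntegrableOn (fun x => X x ^ 3 * vol x)
        (Ω ∩ {x | s₂ ≤ w x ∧ w x ≤ s₂ + k / 2 + 1}) :=
        hA.int_X _ _ (by linarith) (by linarith) (by linarith)
      exact hb2.mono_set fun x hx => ⟨hx.1, by linarith [hx.2.1], hx.2.2.le⟩
    rw [hsplit, setIntegral_union hdisj (hmw _ _) i1 i2]
    have hw := hA.window (s₂ + k / 2) (by linarith) (by linarith)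
    have h5 : ∫ x in Ω ∩ {x | s₂ + k / 2 < w x ∧ w x ≤ s₂ + ((k : ℝ) + 1) / 2}, X x ^ 3 * vol x ≤
        ∫ x in Ω ∩ {x | s₂ + k / 2 < w x ∧ w x < s₂ + k / 2 + 1}, X x ^ 3 * vol x := by
      refine setIntegral_mono_set i3 (Eventually.of_forall fun x => ?_)
        (Eventually.of_forall fun x hx => ?_)
      · exact mul_nonneg (pow_nonneg (hA.X_nonneg x) 3) (hA.vol_nonneg x)
      · exact ⟨hx.1, hx.2.1, by linarith [hx.2.2]⟩
    linarith

/-- The linear integral. -/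
theorem main_abs (hA : AbsT ε Ω vol w X Φ D S sb s₂ sM B₁ B₂ c K) (hε0 : 0 < ε) (hε2 : ε ≤ 2)
    (h0 : 0 < sb) (hs : sb < s₂) {k : ℕ} (hk : s₂ + k / 2 + 1 / 2 < sM) (hk0 : 0 < k)
    {I t : ℝ} (ht : 0 < t)
    (hI : ∫ x in Ω ∩ {x | sb / 2 ≤ w x ∧ w x ≤ s₂}, X x ^ (1 + ε) * vol x ≤ I)
    {A : Set E3} (hAm : MeasurableSet A)
    (hAs : A ⊆ Ω ∩ {x | sb / 2 ≤ w x ∧ w x ≤ s₂ + k / 2}) :
    IntegrableOn vol A ∧ IntegrableOn (fun x => X x * vol x) A ∧
    ∫ x in A, X x * vol x ≤ t * (∫ x in A, vol x) + t ^ (-ε) * I + t ^ (-(2 : ℝ)) * (k * B₁) := by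
  have hk1 : (1 : ℝ) ≤ k := by exact_mod_cast hk0
  have ivA : IntegrableOn vol A :=
    (hA.int_vol _ _ (by linarith) (by linarith) (by linarith)).mono_set hAs
  have iq : ∀ q : ℝ, 0 ≤ q → q ≤ 2 → IntegrableOn (fun x => X x ^ (1 + q) * vol x) A :=
    fun q hq hq2 => (int_pow hA hq hq2 (by linarith) (by linarith) (by linarith)).mono_set hAs
  have i1 : IntegrableOn (fun x => X x * vol x) A := by
    have := iq 0 le_rfl (by norm_num)
    simpa using this
  refine ⟨ivA, i1, ?_⟩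
  set T₁ : Set E3 := A ∩ {x | w x ≤ s₂} with hT₁
  set T₂ : Set E3 := A ∩ {x | s₂ < w x} with hT₂
  have hm1 : MeasurableSet T₁ := hAm.inter (measurableSet_le hA.meas_w measurable_const)
  have hm2 : MeasurableSet T₂ := hAm.inter (measurableSet_lt measurable_const hA.meas_w)
  have hun : A = T₁ ∪ T₂ := by
    ext x
    simp only [hT₁, hT₂, Set.mem_inter_iff, Set.mem_setOf_eq, Set.mem_union]
    constructor
    · intro hx
      rcases le_or_gt (w x) s₂ with h | h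
      · exact Or.inl ⟨hx, h⟩
      · exact Or.inr ⟨hx, h⟩
    · rintro (⟨h, -⟩ | ⟨h, -⟩) <;> exact h
  have hd : Disjoint T₁ T₂ := by
    rw [Set.disjoint_left]
    rintro x ⟨-, h1⟩ ⟨-, h2⟩
    have h1' : w x ≤ s₂ := h1
    have h2' : s₂ < w x := h2
    linarith
  have hs1 : T₁ ⊆ A := Set.inter_subset_left
  have hs2 : T₂ ⊆ A := Set.inter_subset_left
  have hpart : ∀ (T : Set E3) (q J : ℝ), T ⊆ A → MeasurableSet T → 0 ≤ q → q ≤ 2 →
      (∫ x in T, X x ^ (1 + q) * vol x) ≤ J →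
      ∫ x in T, X x * vol x ≤ t * (∫ x in T, vol x) + t ^ (-q) * J := by
    intro T q J hT hTm hq hq2 hJ
    have j1 := i1.mono_set hT
    have jv := ivA.mono_set hT
    have jq := (iq q hq hq2).mono_set hT
    have jv' : IntegrableOn (fun x => t * vol x) T := jv.const_mul t
    have jq' : IntegrableOn (fun x => t ^ (-q) * (X x ^ (1 + q) * vol x)) T := jq.const_mul _
    calc ∫ x in T, X x * vol x
        ≤ ∫ x in T, (t * vol x + t ^ (-q) * (X x ^ (1 + q) * vol x)) := by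
          refine setIntegral_mono_on j1 (jv'.add jq') hTm fun x _ => ?_
          have h1 := mul_le_mul_of_nonneg_right
            (le_split (q := q) (hA.X_nonneg x) ht hq) (hA.vol_nonneg x)
          calc X x * vol x ≤ (t + t ^ (-q) * X x ^ (1 + q)) * vol x := h1
            _ = t * vol x + t ^ (-q) * (X x ^ (1 + q) * vol x) := by ring
      _ = t * (∫ x in T, vol x) + t ^ (-q) * ∫ x in T, X x ^ (1 + q) * vol x := by
          have e1 : ∫ x in T, (t * vol x + t ^ (-q) * (X x ^ (1 + q) * vol x)) =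
              (∫ x in T, t * vol x) + ∫ x in T, t ^ (-q) * (X x ^ (1 + q) * vol x) :=
            integral_add jv' jq'
          rw [e1, integral_const_mul, integral_const_mul]
      _ ≤ t * (∫ x in T, vol x) + t ^ (-q) * J := by
          have := mul_le_mul_of_nonneg_left hJ (Real.rpow_nonneg ht.le (-q))
          linarith
  have hI1 : (∫ x in T₁, X x ^ (1 + ε) * vol x) ≤ I := by
    refine le_trans ?_ hI
    refine setIntegral_mono_set
      (int_pow hA hε0.le hε2 (by linarith) (by linarith) (by linarith))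
      (Eventually.of_forall fun x => ?_) (Eventually.of_forall fun x hx => ?_)
    · exact mul_nonneg (Real.rpow_nonneg (hA.X_nonneg x) _) (hA.vol_nonneg x)
    · have h1 := hAs hx.1
      exact ⟨h1.1, h1.2.1, hx.2⟩
  have hI2 : (∫ x in T₂, X x ^ (1 + (2 : ℝ)) * vol x) ≤ k * B₁ := by
    refine le_trans ?_ (windows hA h0 hs k hk)
    have e1 : (fun x => X x ^ (1 + (2 : ℝ)) * vol x) = fun x => X x ^ 3 * vol x := by
      funext x
      have : (1 + (2 : ℝ)) = ((3 : ℕ) : ℝ) := by norm_num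
      rw [this, Real.rpow_natCast]
    rw [e1]
    refine setIntegral_mono_set ?_ (Eventually.of_forall fun x => ?_)
      (Eventually.of_forall fun x hx => ?_)
    · exact (hA.int_X s₂ (s₂ + k / 2) (by linarith) (by linarith) (by linarith)).mono_set
        fun x hx => ⟨hx.1, hx.2.1.le, hx.2.2⟩
    · exact mul_nonneg (pow_nonneg (hA.X_nonneg x) 3) (hA.vol_nonneg x)
    · have h1 := hAs hx.1
      exact ⟨h1.1, hx.2, h1.2.2⟩
  have r1 := hpart T₁ ε I hs1 hm1 hε0.le hε2 hI1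
  have r2 := hpart T₂ 2 (k * B₁) hs2 hm2 (by norm_num) le_rfl hI2
  have e1 : ∫ x in A, X x * vol x = (∫ x in T₁, X x * vol x) + ∫ x in T₂, X x * vol x := by
    rw [hun]
    exact setIntegral_union hd hm2 (i1.mono_set hs1) (i1.mono_set hs2)
  have e2 : ∫ x in A, vol x = (∫ x in T₁, vol x) + ∫ x in T₂, vol x := by
    rw [hun]
    exact setIntegral_union hd hm2 (ivA.mono_set hs1) (ivA.mono_set hs2)
  rw [e1, e2]
  linarith

end AbsPart

end UPHTAux

open PFlow.UphM (vol_bd measurableSet_cAnn vol_cAnn exp_s2 exp_neg_s2 exp_lvl) in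
open UPHTAux (main_abs) in
/-- **UPHT.** -/
theorem t_UPHT (hSETWT : Stmt_SETWT) (_hBETA : Stmt_BETA) (hFLXAT : Stmt_FLXAT)
    (_hHOLA : Stmt_HOLA) (hJUPT : Stmt_JUPT) : Stmt_UPHT := by
  intro F P B β hβ
  by_cases hP : 0 < P.eps ∧ P.eps ≤ 1 / 2 ∧ 0 < P.C ∧ 0 < P.gam
  swap
  · exact ⟨1, one_pos, fun D hD _ => absurd ⟨hD.eps_pos, hD.eps_le, hD.C_pos, hD.gam_pos⟩ hP⟩
  obtain ⟨he, he2, hC, hg⟩ := hP
  obtain ⟨CJ, hCJ, hJ⟩ := hJUPT P.eps β he he2 hβ
  set ε := P.eps with hε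
  set γ := P.gam with hγ
  set K := kE ε γ with hK
  set cv := Real.sqrt (P.C ^ 3) with hcv
  set v₁ := volume.real (Metric.ball (0 : E3) 1) with hv₁
  set V₀ := cv * (v₁ * K ^ 3) with hV₀
  set J₁ := CJ * (4 ^ (-(2 - ε)) * Real.exp (-γ)) * |B| ^ ((1 + ε) / 3) * V₀ ^ ((2 - ε) / 3)
    with hJ₁
  set N := ⌈2 + 4 * γ⌉₊ with hN
  set E₁ := Real.exp ((1 + 3 * γ) / (2 - ε)) with hE₁
  set S₁ := V₀ + J₁ * (4 ^ (2 - ε) * Real.exp γ) + N * |B| with hS₁
  have hK0 : 0 < K := mul_pos (by norm_num) (Real.exp_pos _)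
  have hcv0 : 0 < cv := Real.sqrt_pos.2 (by positivity)
  have hv0 : 0 ≤ v₁ := measureReal_nonneg
  have hV0 : 0 ≤ V₀ := by positivity
  have hJ0 : 0 ≤ J₁ := by positivity
  have hN0 : (0 : ℝ) ≤ N := Nat.cast_nonneg N
  have hN1 : 2 + 4 * γ ≤ N := Nat.le_ceil _
  have hN2 : (N : ℝ) < 2 + 4 * γ + 1 := Nat.ceil_lt_add_one (by linarith)
  have hNpos : 0 < N := by
    have : (0 : ℝ) < N := by linarith
    exact_mod_cast this
  have hE0 : 0 < E₁ := Real.exp_pos _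
  have hS0 : 0 ≤ S₁ := by positivity
  refine ⟨1 + J₁ + 4 * E₁ * cv * S₁, by positivity, fun D hD hA => ?_⟩
  obtain ⟨-, -, -, -, -, -, -, -, -, -, hs2, hlow, hup, hKl, -, hsb0, hsb1, -, hs21, hsM, hKR, hlK, -, -, -, -⟩ :=
    hSETWT F P D hD
  have hl4 : 4 ≤ D.l := hD.l_ge
  have hl0 : 0 < D.l := by linarith
  have hKlv : D.Kl P = K * D.l := rfl
  have hs2v : D.s2 P = s2E ε γ D.l := rfl
  have hsbs : D.sb P < D.s2 P := by linarith
  have hRpos : 32 ≤ D.R := by linarith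
  set A : Set E3 := cAnn (D.l / 4) (D.Kl P) with hAdef
  have hAm : MeasurableSet A := measurableSet_cAnn _ _
  have hrad : 1 ≤ F.rad := hD.frame.rad_ge
  have hlrad : 8 * F.rad ≤ D.l := hD.l_rad
  have hfar : ∀ x ∈ A, ∀ p ∈ F.T, 1 < ‖x - p‖ := by
    intro x hx p hp
    have h1 : D.l / 4 ≤ ‖x‖ := hx.1
    have h2 := hD.frame.inside p hp
    have h3 := hD.frame.rho_pos
    have h4 := norm_sub_norm_le x p
    linarith
  have hAOm : A ⊆ (omT F D) := by
    intro x hx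
    refine ⟨?_, fun p hp => ?_⟩
    · have h2 : ‖x‖ ≤ D.Kl P := hx.2
      linarith
    · have h1 : 1 / D.R < 1 := by
        rw [div_lt_one (by linarith)]
        linarith
      linarith [hfar x hx p hp]
  have hvol : ∀ x : E3, F.rad ≤ ‖x‖ → 1 ≤ cv * D.vol x ∧ D.vol x ≤ cv := fun x hx =>
    vol_bd hC (hD.modified.metric.posDef x trivial) (hD.modified.elliptic x hx)
  have hA1 : ∀ x ∈ A, F.rad ≤ ‖x‖ := fun x hx => by
    have h2 : D.l / 4 ≤ ‖x‖ := hx.1
    linarith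
  have hAlow : ∀ x ∈ A, D.sb P < D.w P x := fun x hx => by
    refine hlow x (hAOm hx) fun p hp => ?_
    have h1 : 1 / (4 * D.l) < 1 := by
      rw [div_lt_one (by linarith)]
      linarith
    linarith [hfar x hx p hp]
  have hAup : ∀ x ∈ A, D.w P x ≤ D.s2 P + 1 + 2 * γ := fun x hx => hup x hx.1 hx.2
  have hB0 : 0 ≤ B := by
    refine le_trans ?_ (hA.window (D.s2 P) le_rfl (by linarith))
    exact setIntegral_nonneg_of_ae (Eventually.of_forall fun x =>
      mul_nonneg (pow_nonneg (hA.X_nonneg x) 3) (hA.vol_nonneg x))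
  have hAs : A ⊆ (omT F D) ∩ {x | D.sb P / 2 ≤ D.w P x ∧ D.w P x ≤ D.s2 P + N / 2} := by
    intro x hx
    refine ⟨hAOm hx, ?_, ?_⟩
    · linarith [hAlow x hx]
    · linarith [hAup x hx]
  have hNsM : D.s2 P + N / 2 + 1 / 2 < D.sM P := by linarith
  have ivA : IntegrableOn D.vol A :=
    (hA.int_vol _ _ (by linarith) (by linarith) (by linarith)).mono_set hAs
  have hVA : ∫ x in A, D.vol x ≤ V₀ * D.l ^ 3 := by
    have hfin := vol_cAnn (a := D.l / 4) (b := D.Kl P) (by rw [hKlv]; positivity)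
    have ic : IntegrableOn (fun _ : E3 => cv) A := integrableOn_const hfin.1
    calc ∫ x in A, D.vol x ≤ ∫ _x in A, cv :=
          setIntegral_mono_on ivA ic hAm fun x hx => (hvol x (hA1 x hx)).2
      _ = volume.real A * cv := by rw [setIntegral_const, smul_eq_mul]
      _ ≤ (v₁ * (D.Kl P) ^ 3) * cv := mul_le_mul_of_nonneg_right hfin.2 hcv0.le
      _ = V₀ * D.l ^ 3 := by rw [hKlv, hV₀]; ring
  have hV' : ∫ x in (omT F D) ∩ {x | D.s2 P < D.w P x ∧ D.w P x < D.s2 P + 1}, D.vol x ≤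
      V₀ * D.l ^ 3 := by
    refine le_trans ?_ hVA
    refine setIntegral_mono_set ivA (Eventually.of_forall fun x => hA.vol_nonneg x)
      (Eventually.of_forall fun x hx => ?_)
    have h1 : 4 * D.l ≤ ‖x‖ := hs2 x hx.1 hx.2.1.le
    exact ⟨by linarith, hKl x hx.1 hx.2.2⟩
  have hJle : jInf ε β (omT F D) D.vol (D.w P) (D.X P) (D.s2 P) ≤ J₁ := by
    have h1 := hJ (omT F D) D.vol (D.w P) (D.X P) (D.Phi P) (D.Di P) (D.Su P) (D.sb P) (D.s2 P)
      (D.sM P) B _ (V₀ * D.l ^ 3) _ _ hA hsb0 hsbs (by linarith) hV'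
    refine h1.trans (le_of_eq ?_)
    have h2 : (V₀ * D.l ^ 3) ^ ((2 - ε) / 3) = V₀ ^ ((2 - ε) / 3) * D.l ^ (2 - ε) := by
      rw [Real.mul_rpow hV0 (by positivity)]
      congr 1
      rw [← Real.rpow_natCast, ← Real.rpow_mul hl0.le]
      congr 1
      push_cast
      ring
    have h3 : D.l ^ (-(2 - ε)) * D.l ^ (2 - ε) = 1 := by
      rw [← Real.rpow_add hl0]
      simp
    rw [hs2v, exp_neg_s2 hl0, h2, hJ₁, abs_of_nonneg hB0]
    calc CJ * (4 ^ (-(2 - ε)) * Real.exp (-γ) * D.l ^ (-(2 - ε))) * B ^ ((1 + ε) / 3) *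
          (V₀ ^ ((2 - ε) / 3) * D.l ^ (2 - ε))
        = CJ * (4 ^ (-(2 - ε)) * Real.exp (-γ)) * B ^ ((1 + ε) / 3) * V₀ ^ ((2 - ε) / 3) *
          (D.l ^ (-(2 - ε)) * D.l ^ (2 - ε)) := by ring
      _ = CJ * (4 ^ (-(2 - ε)) * Real.exp (-γ)) * B ^ ((1 + ε) / 3) * V₀ ^ ((2 - ε) / 3) := by
          rw [h3, mul_one]
  have hI : ∫ x in (omT F D) ∩ {x | D.sb P / 2 ≤ D.w P x ∧ D.w P x ≤ D.s2 P},
      D.X P x ^ (1 + ε) * D.vol x ≤ J₁ * Real.exp (D.s2 P) := by
    obtain ⟨hj0, hj⟩ := hFLXAT ε β he he2 hβ (omT F D) D.vol (D.w P) (D.X P) (D.Phi P) (D.Di P)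
      (D.Su P) (D.sb P) (D.s2 P) (D.sM P) B _ _ _ hA hsb0 hsbs (by linarith)
    refine (hj (D.sb P / 2) (D.s2 P) (by linarith) (by linarith) le_rfl).trans ?_
    have h1 : Real.exp (D.s2 P) - Real.exp (D.sb P / 2) ≤ Real.exp (D.s2 P) := by
      linarith [Real.exp_pos (D.sb P / 2)]
    calc jInf ε β (omT F D) D.vol (D.w P) (D.X P) (D.s2 P) *
          (Real.exp (D.s2 P) - Real.exp (D.sb P / 2))
        ≤ jInf ε β (omT F D) D.vol (D.w P) (D.X P) (D.s2 P) * Real.exp (D.s2 P) :=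
          mul_le_mul_of_nonneg_left h1 hj0
      _ ≤ J₁ * Real.exp (D.s2 P) := mul_le_mul_of_nonneg_right hJle (Real.exp_pos _).le
  obtain ⟨-, iX, hX⟩ := main_abs hA he (by linarith) hsb0 hsbs hNsM hNpos
    (t := 1 / D.l) (by positivity) hI hAm hAs
  have hXl : ∫ x in A, D.X P x * D.vol x ≤ S₁ * D.l ^ 2 := by
    refine hX.trans ?_
    have t1 : (1 / D.l) ^ (-ε) = D.l ^ ε := by
      rw [one_div, Real.inv_rpow hl0.le, Real.rpow_neg hl0.le, inv_inv]
    have t2 : (1 / D.l) ^ (-(2 : ℝ)) = D.l ^ 2 := by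
      rw [one_div, Real.inv_rpow hl0.le, Real.rpow_neg hl0.le, inv_inv]
      exact_mod_cast Real.rpow_natCast D.l 2
    have t3 : D.l ^ ε * D.l ^ (2 - ε) = D.l ^ 2 := by
      rw [← Real.rpow_add hl0]
      have : ε + (2 - ε) = ((2 : ℕ) : ℝ) := by push_cast; ring
      rw [this, Real.rpow_natCast]
    rw [t1, t2, hs2v, exp_s2 hl0]
    have u1 : 1 / D.l * (∫ x in A, D.vol x) ≤ V₀ * D.l ^ 2 := by
      calc 1 / D.l * (∫ x in A, D.vol x) ≤ 1 / D.l * (V₀ * D.l ^ 3) :=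
            mul_le_mul_of_nonneg_left hVA (by positivity)
        _ = V₀ * D.l ^ 2 := by field_simp
    have u2 : D.l ^ ε * (J₁ * (4 ^ (2 - ε) * Real.exp γ * D.l ^ (2 - ε))) =
        J₁ * (4 ^ (2 - ε) * Real.exp γ) * D.l ^ 2 := by
      rw [← t3]
      ring
    have u3 : D.l ^ 2 * (N * B) = N * |B| * D.l ^ 2 := by
      rw [abs_of_nonneg hB0]
      ring
    rw [u2, u3, hS₁]
    calc 1 / D.l * (∫ x in A, D.vol x) + J₁ * (4 ^ (2 - ε) * Real.exp γ) * D.l ^ 2 +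
          N * |B| * D.l ^ 2
        ≤ V₀ * D.l ^ 2 + J₁ * (4 ^ (2 - ε) * Real.exp γ) * D.l ^ 2 + N * |B| * D.l ^ 2 := by
          linarith
      _ = (V₀ + J₁ * (4 ^ (2 - ε) * Real.exp γ) + N * |B|) * D.l ^ 2 := by ring
  -- the weight
  have hph : ∀ x ∈ A, D.ph P x ≤ 4 * D.l * E₁ * cv * (D.X P x * D.vol x) := by
    intro x hx
    have hX0 := hA.X_nonneg x
    have h1 : Real.exp (D.w P x / (2 - ε)) ≤ 4 * D.l * E₁ := by
      rw [hE₁, ← exp_lvl hl0 (by linarith)]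
      refine Real.exp_le_exp.2 (div_le_div_of_nonneg_right (hAup x hx) (by linarith))
    have h2 : D.X P x ≤ cv * (D.X P x * D.vol x) := by
      calc D.X P x = D.X P x * 1 := (mul_one _).symm
        _ ≤ D.X P x * (cv * D.vol x) :=
          mul_le_mul_of_nonneg_left (hvol x (hA1 x hx)).1 hX0
        _ = cv * (D.X P x * D.vol x) := by ring
    calc D.ph P x = Real.exp (D.w P x / (2 - ε)) * D.X P x := rfl
      _ ≤ (4 * D.l * E₁) * (cv * (D.X P x * D.vol x)) :=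
        mul_le_mul h1 h2 hX0 (by positivity)
      _ = 4 * D.l * E₁ * cv * (D.X P x * D.vol x) := by ring
  have hph0 : ∀ x, 0 ≤ D.ph P x := fun x =>
    mul_nonneg (Real.exp_pos _).le (hA.X_nonneg x)
  have iXc : IntegrableOn (fun x => 4 * D.l * E₁ * cv * (D.X P x * D.vol x)) A :=
    iX.const_mul _
  have iph : IntegrableOn (D.ph P) A := by
    refine Integrable.mono' iXc ?_ ?_
    · refine AEStronglyMeasurable.mul ?_ (hA.meas_X.mono_set hAOm)
      exact (Real.measurable_exp.comp (hA.meas_w.div_const _)).aestronglyMeasurable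
    · filter_upwards [ae_restrict_mem hAm] with x hx
      rw [Real.norm_eq_abs, abs_of_nonneg (hph0 x)]
      exact hph x hx
  refine ⟨?_, iph, ?_⟩
  · have : 0 ≤ 4 * E₁ * cv * S₁ := by positivity
    have h9 : jT F P D β ≤ J₁ := hJle
    linarith
  · calc ∫ x in A, D.ph P x ≤ ∫ x in A, 4 * D.l * E₁ * cv * (D.X P x * D.vol x) :=
          setIntegral_mono_on iph iXc hAm hph
      _ = 4 * D.l * E₁ * cv * ∫ x in A, D.X P x * D.vol x := integral_const_mul _ _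
      _ ≤ 4 * D.l * E₁ * cv * (S₁ * D.l ^ 2) := mul_le_mul_of_nonneg_left hXl (by positivity)
      _ = (4 * E₁ * cv * S₁) * D.l ^ 3 := by ring
      _ ≤ (1 + J₁ + 4 * E₁ * cv * S₁) * D.l ^ 3 :=
        mul_le_mul_of_nonneg_right (by linarith) (by positivity)

end Pool.Agent.PFU
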