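import Pool.Agent.PFU.StmtsL
import Pool.Agent.PFT.LOCUT

/-!
# UUBT: the solution is bounded away from one in a positive distance from the ends
-/

open MeasureTheory Filter Topology
open scoped ContDiff ENNReal

set_option autoImplicit false

namespace Pool.Agent.PFU

open Pool.Agent.PenroseSph Pool.Agent.PFlow Pool.Agent.PFT

namespace UUBT

open Pool.Agent.PFlow.LOCU Pool.Agent.PFT.LOCUTAux

/-- Comparison with the upper barrier on `r₁ ≤ |x| ≤ 2R`. -/
theorem upper {T : Finset E3} {ε C R η r₁ : ℝ} {g h : TensorField}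
    {u : E3 → ℝ} {G : E3 → Cov} {M : E3 → Bil} (hC : 0 < C) (hε : 0 < ε) (hε2 : ε ≤ 1 / 2)
    (hη : 0 < η) (hr₁ : 1 ≤ r₁) (hg : MetricOn Set.univ g)
    (hT : ∀ x : E3, r₁ ≤ ‖x‖ → ∀ p ∈ T, 1 / R ≤ ‖x - p‖)
    (hbar : ∀ x : E3, r₁ ≤ ‖x‖ → |barB ε g h x - bE ε ‖x‖| ≤ C / (1 + ‖x‖ ^ 2))
    (hsol : SolutionT T ε (1 / R) R η g h u G M) (hpos1 : 0 < phiB ε (-1) (C + 1) r₁)
    (hpos2 : 0 < phiB ε (-1) (C + 1) (2 * R)) {x : E3} (hx : x ∈ cAnn r₁ (2 * R)) :
    u x ≤ phiB ε (-1) (C + 1) ‖x‖ / phiB ε (-1) (C + 1) r₁ + η := by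
  set k := 1 / phiB ε (-1) (C + 1) r₁ with hk
  have hkpos : 0 < k := div_pos one_pos hpos1
  have hmain := hsol.super (cAnn r₁ (2 * R)) (isCompact_cAnn _ _)
    (fun y hy => hT y hy.1)
    (fun y => k * phiB ε (-1) (C + 1) ‖y‖ + η)
  have hpt : ∀ y ∈ cAnn r₁ (2 * R),
      ContDiffAt ℝ 2 (fun y : E3 => phiB ε (-1) (C + 1) ‖y‖) y ∧
      grad (fun y : E3 => phiB ε (-1) (C + 1) ‖y‖) y ≠ 0 ∧
      opN ε g h (fun y : E3 => k * phiB ε (-1) (C + 1) ‖y‖ + η) y < 0 := by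
    intro y hy
    have hy0 : y ≠ 0 := by
      intro h0
      have := hy.1
      rw [h0, norm_zero] at this
      linarith
    obtain ⟨h1, h2, -, h3⟩ := barr ε C g h y hε hε2 hC.le hy0 (hg.posDef y (Set.mem_univ y))
      (hbar y hy.1) (-1) (Or.inr rfl)
    exact ⟨h1, h2, h3 rfl k _ hkpos⟩
  have h4 := hmain (fun y hy => (contDiffAt_const.mul (hpt y hy).1).add contDiffAt_const) ?_ ?_ x hx
  · rw [hk, div_mul_eq_mul_div, one_mul] at h4
    exact h4
  · intro y hy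
    refine ⟨?_, (hpt y hy).2.2⟩
    have hd : DifferentiableAt ℝ (fun y : E3 => phiB ε (-1) (C + 1) ‖y‖) y :=
      (hpt y hy).1.differentiableAt (by norm_num)
    rw [grad_affine k η hd]
    exact smul_ne_zero hkpos.ne' (hpt y hy).2.1
  · intro y hy
    rcases frontier_cAnn hy with h5 | h5
    · show u y ≤ k * phiB ε (-1) (C + 1) ‖y‖ + η
      rw [h5, hk, div_mul_cancel₀ _ hpos1.ne']
      have := hsol.le_one y
      linarith
    · show u y ≤ k * phiB ε (-1) (C + 1) ‖y‖ + η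
      have h6 : 0 < k * phiB ε (-1) (C + 1) ‖y‖ := by
        rw [h5]; exact mul_pos hkpos hpos2
      have := hsol.outer y h5.ge
      linarith

/-- The solution is at most one half far away. -/
theorem far (F : Fr) (ε C : ℝ) (hF : F.Ok) (hε : 0 < ε) (hε2 : ε ≤ 1 / 2) (hC : 0 < C) :
    ∃ r' R₀ : ℝ, F.rad ≤ r' ∧ 0 < R₀ ∧ ∀ R : ℝ, R₀ ≤ R →
      ∀ (η : ℝ) (g h : TensorField) (u : E3 → ℝ) (G : E3 → Cov) (M : E3 → Bil),
        0 < η → η ≤ R ^ (-pe ε - 1) → MetricOn Set.univ g → Barrier F C R g h →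
        SolutionT F.T ε (1 / R) R η g h u G M → ∀ x : E3, r' ≤ ‖x‖ → u x ≤ 1 / 2 := by
  have hrad := hF.rad_ge
  have hr0 : 0 < F.rad := by linarith
  have hrho := hF.rho_pos
  set p := pe ε with hp
  have hpdef : p = 2 / ε - 1 := rfl
  have hinv : 2 ≤ 1 / ε := by
    rw [le_div_iff₀ hε]; linarith
  have hp3 : 3 ≤ p := by
    rw [hpdef, show 2 / ε = 2 * (1 / ε) by ring]; linarith
  have hp0 : 0 < p := by linarith
  set E := Real.exp ((C + 1) * Real.pi / (2 * ε)) with hE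
  have hE0 : 0 < E := Real.exp_pos _
  have hE1 : 1 ≤ E := Real.one_le_exp (by positivity)
  have hEneg : Real.exp (-((C + 1) * Real.pi / (2 * ε))) = E⁻¹ := by
    rw [Real.exp_neg]
  have hC1 : 0 ≤ C + 1 := by linarith
  obtain ⟨-, -, -, hPm1, -⟩ := PHI ε (C + 1) (-1) hε hε2 hC1 (Or.inr rfl)
  rw [hEneg] at hPm1
  have hposm : ∀ r, 1 ≤ r → 0 < phiB ε (-1) (C + 1) r := by
    intro r hr
    refine lt_of_lt_of_le ?_ (hPm1 r hr).1
    have : 0 < r := by linarith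
    positivity
  have h2p : (0 : ℝ) < 2 ^ p := by positivity
  have h2p1 : (1 : ℝ) ≤ 2 ^ p := Real.one_le_rpow (by norm_num) hp0.le
  -- the radius
  set k := 4 * (E ^ 2 * 2 ^ p) with hk
  have hk1 : 1 ≤ k := by
    have h1 : (1 : ℝ) ≤ E ^ 2 := one_le_pow₀ hE1
    have h2 : (1 : ℝ) ≤ E ^ 2 * 2 ^ p := by nlinarith
    linarith
  have hk0 : 0 < k := by linarith
  refine ⟨F.rad * k, 1 / F.rho + 8, ?_, by positivity, ?_⟩
  · nlinarith
  intro R hR η g h u G M hη hηR hg hbar hsol x hx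
  have hri : 0 < 1 / F.rho := by positivity
  have hR8 : 8 ≤ R := by linarith
  have hR0 : 0 < R := by linarith
  have hRρ : 1 / R ≤ F.rho := by
    rw [div_le_iff₀ hR0]
    have h1 : 1 / F.rho ≤ R := by linarith
    rw [div_le_iff₀ hrho] at h1
    linarith
  have hη8 : η ≤ 1 / 8 := by
    refine hηR.trans ?_
    have h1 : R ^ (-p - 1) ≤ R ^ (-(1 : ℝ)) :=
      Real.rpow_le_rpow_of_exponent_le (by linarith) (by linarith)
    refine h1.trans ?_
    rw [Real.rpow_neg hR0.le, Real.rpow_one]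
    rw [inv_le_comm₀ hR0 (by norm_num)]
    norm_num
    linarith
  rcases le_total (2 * R) ‖x‖ with h2R | h2R
  · have := hsol.outer x h2R
    linarith
  have hxr1 : F.rad ≤ ‖x‖ := by
    refine le_trans ?_ hx
    nlinarith
  have hx1 : 1 ≤ ‖x‖ := hrad.trans hxr1
  have hx0 : 0 < ‖x‖ := by linarith
  have hT : ∀ x : E3, F.rad ≤ ‖x‖ → ∀ q ∈ F.T, 1 / R ≤ ‖x - q‖ := by
    intro y hy q hq
    have h1 := hF.inside q hq
    have h2 : ‖y‖ ≤ ‖y - q‖ + ‖q‖ := by
      have := norm_add_le (y - q) q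
      rwa [sub_add_cancel] at this
    linarith
  have hup := upper hC hε hε2 hη hrad hg hT
    (fun y hy => (hbar.out ε hε (by linarith) y hy).1) hsol (hposm F.rad hrad)
    (hposm _ (by linarith)) (x := x) ⟨hxr1, h2R⟩
  have hpR : 0 < phiB ε (-1) (C + 1) F.rad := hposm F.rad hrad
  have hden : 2 ^ (-p) * E⁻¹ * F.rad ^ (-p) / p ≤ phiB ε (-1) (C + 1) F.rad :=
    (hPm1 F.rad hrad).1
  have hnum : phiB ε (-1) (C + 1) ‖x‖ ≤ E * ‖x‖ ^ (-p) / p := (hPm1 ‖x‖ hx1).2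
  have hkp : k ^ (-p) ≤ k⁻¹ := by
    have := Real.rpow_le_rpow_of_exponent_le hk1 (by linarith : -p ≤ -1)
    rwa [Real.rpow_neg_one] at this
  have hki : k⁻¹ = 1 / 4 * (2 ^ (-p) * (E ^ 2)⁻¹) := by
    rw [hk, Real.rpow_neg (by norm_num)]
    field_simp
  have hratio : E * ‖x‖ ^ (-p) / p ≤ 1 / 4 * (2 ^ (-p) * E⁻¹ * F.rad ^ (-p) / p) := by
    have h2 : ‖x‖ ^ (-p) ≤ (F.rad * k) ^ (-p) :=
      Real.rpow_le_rpow_of_nonpos (by positivity) hx (by linarith)
    rw [Real.mul_rpow hr0.le hk0.le] at h2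
    have hrp : 0 < F.rad ^ (-p) := by positivity
    have h3 : ‖x‖ ^ (-p) ≤ F.rad ^ (-p) * (1 / 4 * (2 ^ (-p) * (E ^ 2)⁻¹)) := by
      rw [← hki]
      exact h2.trans (mul_le_mul_of_nonneg_left hkp hrp.le)
    have h4 : E * ‖x‖ ^ (-p) ≤ E * (F.rad ^ (-p) * (1 / 4 * (2 ^ (-p) * (E ^ 2)⁻¹))) :=
      mul_le_mul_of_nonneg_left h3 hE0.le
    have h5 : E * (F.rad ^ (-p) * (1 / 4 * (2 ^ (-p) * (E ^ 2)⁻¹)))
        = 1 / 4 * (2 ^ (-p) * E⁻¹ * F.rad ^ (-p)) := by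
      field_simp
    rw [h5] at h4
    have h6 : 1 / 4 * (2 ^ (-p) * E⁻¹ * F.rad ^ (-p) / p)
        = 1 / 4 * (2 ^ (-p) * E⁻¹ * F.rad ^ (-p)) / p := by ring
    rw [h6]
    exact div_le_div_of_nonneg_right h4 hp0.le
  have hq : phiB ε (-1) (C + 1) ‖x‖ / phiB ε (-1) (C + 1) F.rad ≤ 1 / 4 := by
    rw [div_le_iff₀ hpR]
    refine hnum.trans (hratio.trans ?_)
    gcongr
  linarith

theorem exists_norm_eq (r : ℝ) (hr : 0 ≤ r) : ∃ z : E3, ‖z‖ = r := by
  refine ⟨EuclideanSpace.single 0 r, ?_⟩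
  rw [PiLp.norm_single, Real.norm_eq_abs, abs_of_nonneg hr]

end UUBT

open UUBT in
/-- **UUBT.** -/
theorem t_UUBT (hHART : Stmt_HART) : Stmt_UUBT := by
  intro F g k ε C hF hSE hε hε2 hC
  obtain ⟨r', R₀, hr', hR₀, hfar⟩ := far F ε C hF hε hε2 hC
  have hrad := hF.rad_ge
  have hrho := hF.rho_pos
  set U : Set E3 := ((F.T : Set E3))ᶜ with hU
  obtain ⟨hUo, hUc⟩ := CONC (F.T : Set E3) F.T.finite_toSet
  -- the bound of `k`
  set H : E3 → ℝ := fun x => ∑ i, ∑ j, |k x i j| with hH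
  have hHc : ContinuousOn H U := by
    rw [hH]
    exact continuousOn_finsetSum _ fun i _ => continuousOn_finsetSum _ fun j _ =>
      ((hSE.tensor.smooth i j).continuousOn).abs
  have hkH : ∀ x i j, |k x i j| ≤ H x := by
    intro x i j
    exact (Finset.single_le_sum (f := fun j => |k x i j|) (fun j _ => abs_nonneg _)
      (Finset.mem_univ j)).trans (Finset.single_le_sum (f := fun i => ∑ j, |k x i j|)
        (fun i _ => Finset.sum_nonneg fun j _ => abs_nonneg _) (Finset.mem_univ i))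
  -- the ball
  obtain ⟨z₀, hz₀⟩ := exists_norm_eq (r' + 1) (by linarith)
  have hball : ∀ x ∈ Metric.closedBall z₀ (1 / 2), r' ≤ ‖x‖ := by
    intro x hx
    rw [Metric.mem_closedBall, dist_eq_norm] at hx
    have h2 : ‖z₀‖ ≤ ‖x - z₀‖ + ‖x‖ := by
      have := norm_sub_le x (x - z₀)
      rw [sub_sub_cancel] at this
      linarith
    linarith
  have hballU : Metric.closedBall z₀ (1 / 2) ⊆ U := by
    intro x hx hxP
    have h1 := hball x hx
    have h2 := hF.inside x hxP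
    linarith
  -- the compact set
  set K : Set E3 := {x : E3 | (∀ p ∈ F.T, F.rho / 4 ≤ ‖x - p‖) ∧ ‖x‖ ≤ r'} with hK
  have hKcl : IsClosed K := by
    have h1 : K = (⋂ p ∈ F.T, {x : E3 | F.rho / 4 ≤ ‖x - p‖}) ∩ {x : E3 | ‖x‖ ≤ r'} := by
      ext x
      simp [hK]
    rw [h1]
    refine IsClosed.inter ?_ (isClosed_le continuous_norm continuous_const)
    refine isClosed_biInter fun p _ => ?_
    exact isClosed_le continuous_const (continuous_id.sub continuous_const).norm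
  have hKc : IsCompact K := by
    refine (isCompact_closedBall (0 : E3) r').of_isClosed_subset hKcl ?_
    intro x hx
    rw [mem_closedBall_zero_iff]
    exact hx.2
  have hKU : K ⊆ U := by
    intro x hx hxP
    have := hx.1 x hxP
    rw [sub_self, norm_zero] at this
    linarith
  obtain ⟨K', c₁, hK'c, hK'U, hc₁, hhar⟩ := hHART ε H U g hε (by linarith) hHc hUo hUc hSE.metric
    z₀ (1 / 2) K (by norm_num) hballU hKc hKU
  -- the constants
  obtain ⟨δ, hδ, hδK⟩ : ∃ δ : ℝ, 0 < δ ∧ ∀ x ∈ K', ∀ p ∈ F.T, δ ≤ ‖x - p‖ := by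
    rcases K'.eq_empty_or_nonempty with he | hne
    · exact ⟨1, one_pos, fun x hx => by rw [he] at hx; exact absurd hx (Set.notMem_empty x)⟩
    · have hdisj : Disjoint K' (F.T : Set E3) :=
        Set.disjoint_left.mpr fun x hx hxP => hK'U hx hxP
      obtain ⟨δ, hδ, h⟩ := Metric.exists_pos_forall_lt_edist hK'c F.T.finite_toSet.isClosed hdisj
      refine ⟨δ, by exact_mod_cast hδ, fun x hx p hp => ?_⟩
      have h2 := (h x hx p hp).le
      rw [edist_dist, dist_eq_norm] at h2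
      have h3 := (ENNReal.ofReal_le_ofReal_iff (norm_nonneg (x - p))).mp
        (by simpa using h2 : ENNReal.ofReal (δ : ℝ) ≤ ENNReal.ofReal ‖x - p‖)
      exact h3
  obtain ⟨B, hB⟩ : ∃ B : ℝ, ∀ x ∈ K', ‖x‖ ≤ B := by
    obtain ⟨B, hB⟩ := hK'c.isBounded.exists_norm_le
    exact ⟨B, hB⟩
  refine ⟨min (1 / 2) (c₁ * (1 / 2)), R₀ + 1 / δ, B, lt_min (by norm_num) (by positivity),
    by positivity, ?_⟩
  intro R hR η g' h' u G M hη0 hη hg' hsame hbar sol x hx
  have hδi : 0 < 1 / δ := by positivity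
  have hR0 : 0 < R := by linarith
  have hRδ : 1 / δ ≤ R := by linarith
  have hiRδ : 1 / R ≤ δ := by
    rw [div_le_iff₀ hδ] at hRδ
    rw [div_le_iff₀ hR0]
    linarith
  have hhalf := hfar R (by linarith) η g' h' u G M hη0 hη hg' hbar sol
  rcases le_total r' ‖x‖ with h | h
  · have h1 := hhalf x h
    have h2 := min_le_left (1 / 2 : ℝ) (c₁ * (1 / 2))
    linarith
  -- `K'` lies in the region where the data are the given ones
  have hK's : ∀ y ∈ K', (g' =ᶠ[𝓝 y] g) ∧ ∃ t : ℝ, |t| ≤ 1 ∧ h' y = t • k y := by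
    intro y hy
    refine hsame y ?_ (hB y hy) (fun p hp hp' => absurd hp hp')
    intro p hp
    refine le_trans ?_ (hδK y hy p hp)
    refine le_trans ?_ hiRδ
    exact one_div_le_one_div_of_le hR0 (by linarith)
  have h1 := (hhar F.T (1 / R) R η g' h' u G M sol (fun y hy => (hK's y hy).1) ?_ (1 / 2)
    (by norm_num)).2 ?_ ?_ x ⟨hx, h⟩
  · have h2 := min_le_right (1 / 2 : ℝ) (c₁ * (1 / 2))
    linarith
  · intro y hy i j
    obtain ⟨-, t, ht, hty⟩ := hK's y hy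
    rw [hty, Matrix.smul_apply, smul_eq_mul, abs_mul]
    exact (mul_le_of_le_one_left (abs_nonneg _) ht).trans (hkH y i j)
  · intro y hy p hp
    exact hiRδ.trans (hδK y hy p hp)
  · intro y hy
    have := hhalf y (hball y hy)
    linarith

end Pool.Agent.PFU
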