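import Pool.Agent.PFU.StmtsE
import Pool.Agent.PFU.SETWT
import Pool.Agent.PFlow.E.XWI

/-!
# XWIT: the flux density over the inner window (flows from several ends)
-/

open MeasureTheory Filter Topology
open scoped ContDiff ENNReal Matrix

namespace Pool.Agent.PFU

open Pool.Agent.PenroseSph Pool.Agent.PFlow Pool.Agent.PFT

namespace XWIT

open Pool.Agent.PFlow.XWI

lemma vol_le {g : TensorField} {C ρ : ℝ} (hC : 0 < C) (hρ : 0 < ρ) {x : E3} (hx : x ≠ 0)
    (hx1 : ‖x‖ ≤ ρ) (hg : (g x).PosDef)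
    (h : ∀ y : E3, 1 / ρ ≤ ‖y‖ → ∀ v : Cov, (∑ i, v i ^ 2) ≤ C * ev (inverted g y) v v ∧
      ev (inverted g y) v v ≤ C * ∑ i, v i ^ 2) :
    volDen g x ≤ Real.sqrt (6 * C ^ 3) * (‖x‖⁻¹) ^ 6 := by
  set y := inversion x with hy
  have hn : 0 < ‖x‖ := norm_pos_iff.2 hx
  have hy0 : y ≠ 0 := HSM2.inversion_ne x hx
  have hyn : ‖y‖ = ‖x‖⁻¹ := HSM2.norm_inversion x hx
  have hyx : inversion y = x := HSM2.inversion_inversion x hx
  have hy1 : 1 / ρ ≤ ‖y‖ := by
    rw [hyn, one_div]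
    exact (inv_le_inv₀ hρ hn).2 hx1
  have hP : (inverted g y).PosDef := AFDaux.inverted_posDef hy0 (by rw [hyx]; exact hg)
  have hPs : (inverted g y)ᵀ = inverted g y := by
    have := hP.isHermitian
    rwa [Matrix.IsHermitian, Matrix.conjTranspose_eq_transpose_of_trivial] at this
  have hd := det_le hC hPs (h y hy1)
  have hJ : (inversionJac y).det ^ 2 = ((‖y‖ ^ 2)⁻¹ ^ 2) ^ 3 := by
    have h1 := congrArg Matrix.det (AFDaux.jac_sq hy0)
    rw [Matrix.det_mul, Matrix.det_smul] at h1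
    simp only [Fintype.card_fin, Matrix.det_one, mul_one] at h1
    rw [sq, h1]
  have h2 : (inverted g y).det = (inversionJac y).det ^ 2 * (g x).det := by
    unfold inverted
    rw [hyx, Matrix.det_mul, Matrix.det_mul, Matrix.det_transpose]
    ring
  have hyp : 0 < ‖y‖ := norm_pos_iff.2 hy0
  have h3 : (g x).det = (‖y‖ ^ 6) ^ 2 * (inverted g y).det := by
    rw [h2, hJ]
    field_simp
  unfold volDen
  rw [h3, Real.sqrt_mul (by positivity), Real.sqrt_sq (by positivity), ← hyn, mul_comm]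
  exact mul_le_mul_of_nonneg_right (Real.sqrt_le_sqrt hd) (by positivity)

/-- The data needed near one end. -/
structure One (P : Par) (D : Dat) (ρ : ℝ) : Prop where
  he : 0 < P.eps
  he2 : P.eps ≤ 1 / 2
  hC : 0 < P.C
  hk : 0 < P.kap
  hk8 : P.kap ≤ 1 / 8
  hC2 : 0 < P.C2
  hρ : 0 < ρ
  hρ1 : ρ ≤ 1
  hl4 : 4 ≤ D.l
  hlρ : 8 / ρ ≤ D.l
  met0 : MetricOn {x : E3 | 0 < ‖x‖ ∧ ‖x‖ < ρ} D.g
  dec : DecayFrom P.C (1 / ρ) (inverted D.g) 0
  ell : ∀ y : E3, 1 / ρ ≤ ‖y‖ → ∀ v : Cov,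
    (∑ i, v i ^ 2) ≤ P.C * ev (inverted D.g y) v v ∧
    ev (inverted D.g y) v v ≤ P.C * ∑ i, v i ^ 2
  same : ∀ x ∈ Ann (P.kap / (2 * D.l)) (2 * (1 / 4) / D.l), D.g' x = D.g x
  nsq_le : ∀ x ∈ Ann (P.kap / (2 * D.l)) (2 * (1 / 4) / D.l),
    nsq D.g' x (D.h' x) ≤ P.C * ‖x‖ ^ 4
  metU : MetricOn Set.univ D.g'
  tenU : TensorOn Set.univ D.h'
  h2u : H2On (Ann (P.kap / (2 * D.l)) (2 * (1 / 4) / D.l)) D.u D.G D.M
  equ : EqU (Ann (P.kap / (2 * D.l)) (2 * (1 / 4) / D.l)) P.eps D.g' D.h' D.G D.M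
  h2w : H2On (Ann (P.kap / (2 * D.l)) (2 * (1 / 4) / D.l)) (D.w P) (D.Gw P) (D.Mw P)
  eqw : EqW (Ann (P.kap / (2 * D.l)) (2 * (1 / 4) / D.l)) P.eps D.g' D.h' (D.Gw P) (D.Mw P)
  usm : ∀ x ∈ Ann (P.kap / (2 * D.l)) (2 * (1 / 4) / D.l),
    |1 - D.u x| ≤ (P.C2 + 1) * (D.l ^ pe P.eps)⁻¹
  uhalf : ∀ x ∈ cAnn (P.kap / D.l) (1 / 4 / D.l), 1 / 2 ≤ D.u x

/-- The conclusion of LEY. -/
def LeyC (ε C κ₁ κ₂ ρ C' l₀ : ℝ) : Prop := ∀ (l S : ℝ) (g g' h' : TensorField) (u : E3 → ℝ)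
      (G : E3 → Cov) (M : E3 → Bil), l₀ ≤ l → 0 ≤ S →
      MetricOn {x : E3 | 0 < ‖x‖ ∧ ‖x‖ < ρ} g →
      DecayFrom C (1 / ρ) (inverted g) 0 →
      (∀ y : E3, 1 / ρ ≤ ‖y‖ → ∀ v : Cov,
        (∑ i, v i ^ 2) ≤ C * ev (inverted g y) v v ∧ ev (inverted g y) v v ≤ C * ∑ i, v i ^ 2) →
      (∀ x ∈ Ann (κ₁ / (2 * l)) (2 * κ₂ / l), g' x = g x ∧ (h' x).IsSymm ∧
        nsq g' x (h' x) ≤ C * ‖x‖ ^ 4) →
      H2On (Ann (κ₁ / (2 * l)) (2 * κ₂ / l)) u G M →
      EqU (Ann (κ₁ / (2 * l)) (2 * κ₂ / l)) ε g' h' G M →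
      (∀ x ∈ Ann (κ₁ / (2 * l)) (2 * κ₂ / l), |1 - u x| ≤ S) →
      IntegrableOn (fun x => len g' x (G x) ^ 3 * volDen g' x) (cAnn (κ₁ / l) (κ₂ / l)) ∧
      (∫ x in cAnn (κ₁ / l) (κ₂ / l), len g' x (G x) ^ 3 * volDen g' x) ≤ C' * S ^ 3

lemma isCompact_c (a b : ℝ) : IsCompact (cAnn a b) := AFDaux.isCompact_cAnn a b

/-- The estimate near one end. -/
lemma one_end {P : Par} {D : Dat} {ρ C' l₀ : ℝ} (h1e : One P D ρ) (hC' : 0 < C')
    (hley : LeyC P.eps P.C P.kap (1 / 4) ρ C' l₀) (hXID : Stmt_XID) (hL4 : Stmt_L4)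
    (hlD : l₀ ≤ D.l) (ψ : ℝ → ℝ) (A : ℝ) (hψ : ContDiff ℝ 1 ψ)
    (hA : ∀ s, |ψ s| ≤ A ∧ |deriv ψ s| ≤ A)
    (hlow : ∀ x ∈ Ann (P.kap / (2 * D.l)) (2 * (1 / 4) / D.l), D.w P x ∈ tsupport ψ →
      x ∈ cAnn (P.kap / D.l) (1 / 4 / D.l)) :
    |∫ x in Ann (P.kap / (2 * D.l)) (2 * (1 / 4) / D.l), ψ (D.w P x) * D.Phi P x * D.vol x|
      ≤ (2 * (C' * (P.C2 + 1) ^ 3) + 9 * Real.sqrt P.C *
          (C' * (P.C2 + 1) ^ 3 + Real.sqrt (6 * P.C ^ 3) * (P.kap⁻¹) ^ 6))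
        * D.l ^ (-(2 * pe P.eps + 1)) * A := by
  have he := h1e.he
  have he2 := h1e.he2
  have hC := h1e.hC
  have hk := h1e.hk
  have hk8 := h1e.hk8
  have hC2 := h1e.hC2
  have hρ := h1e.hρ
  have hρ1 := h1e.hρ1
  set S0 : ℝ := P.C2 + 1 with hS0
  have hS0p : 0 < S0 := by positivity
  set Cv : ℝ := Real.sqrt (6 * P.C ^ 3) * (P.kap⁻¹) ^ 6 with hCv
  have hCvp : 0 < Cv := by positivity
  have hsC : 0 < Real.sqrt P.C := Real.sqrt_pos.2 hC
  have hl4 := h1e.hl4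
  have hl : 0 < D.l := by linarith
  have hA0 : 0 ≤ A := (abs_nonneg _).trans (hA 0).1
  set Om : Set E3 := Ann (P.kap / (2 * D.l)) (2 * (1 / 4) / D.l) with hOmdef
  -- the region
  set T : Set E3 := cAnn (P.kap / D.l) (1 / 4 / D.l) with hTdef
  have hTm : MeasurableSet T := meas_cAnn _ _
  have hTc : IsCompact T := AFDaux.isCompact_cAnn _ _
  have hq : (1 / 4 : ℝ) / D.l = (1 / 4) * D.l⁻¹ := by rw [div_eq_mul_inv]
  have hli : 0 < D.l⁻¹ := by positivity
  have hli1 : D.l⁻¹ ≤ 1 := inv_le_one_of_one_le₀ (by linarith)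
  have hkl : P.kap / (2 * D.l) < P.kap / D.l := by
    apply div_lt_div_of_pos_left hk hl
    linarith
  have hTA : T ⊆ Om := by
    intro x hx
    refine ⟨lt_of_lt_of_le hkl hx.1, lt_of_le_of_lt hx.2 ?_⟩
    rw [div_lt_div_iff_of_pos_right hl]
    norm_num
  have hOm : MeasurableSet Om := (isOpen_Ann _ _).measurableSet
  -- small facts on T
  have hxn : ∀ x ∈ T, 0 < ‖x‖ := fun x hx => lt_of_lt_of_le (by positivity) hx.1
  have hxl : ∀ x ∈ T, ‖x‖ ≤ D.l⁻¹ := by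
    intro x hx
    have h1 := hx.2
    rw [hq] at h1
    linarith
  have hlr : 8 * D.l⁻¹ ≤ ρ := by
    have h := h1e.hlρ
    rw [div_le_iff₀ hρ] at h
    have h2 : D.l * D.l⁻¹ = 1 := mul_inv_cancel₀ hl.ne'
    nlinarith
  have hAm : ∀ x ∈ Om, ‖x‖ < ρ := by
    intro x hx
    have h1 := hx.2
    have : 2 * (1 / 4) / D.l = (1 / 2) * D.l⁻¹ := by
      rw [div_eq_mul_inv]
      norm_num
    rw [this] at h1
    linarith
  have hsame : ∀ x ∈ Om, D.g' x = D.g x := h1e.same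
  have hnsq : ∀ x ∈ Om, nsq D.g' x (D.h' x) ≤ P.C * ‖x‖ ^ 4 := h1e.nsq_le
  have ht : 0 < D.l ^ pe P.eps := Real.rpow_pos_of_pos hl _
  obtain ⟨hint, hle⟩ := hley D.l (S0 * (D.l ^ pe P.eps)⁻¹) D.g D.g' D.h' D.u D.G D.M hlD
    (by positivity) h1e.met0 h1e.dec h1e.ell
    (fun x hx => ⟨hsame x hx, h1e.tenU.symm x (Set.mem_univ x), hnsq x hx⟩)
    h1e.h2u h1e.equ h1e.usm
  -- volume
  have hvc : Continuous (volDen D.g') := vol_continuous h1e.metU
  have hvi : IntegrableOn (volDen D.g') T := hvc.continuousOn.integrableOn_compact hTc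
  have hvn : ∀ x, 0 ≤ volDen D.g' x := fun x => Real.sqrt_nonneg _
  have hvb : ∀ x ∈ T, volDen D.g' x ≤ Cv * D.l ^ 6 := by
    intro x hx
    have hx0 : x ≠ 0 := norm_pos_iff.1 (hxn x hx)
    have h1 : volDen D.g' x = volDen D.g x := by
      unfold volDen
      rw [hsame x (hTA hx)]
    rw [h1]
    refine (vol_le hC hρ hx0 (hAm x (hTA hx)).le
      (h1e.met0.posDef x ⟨hxn x hx, hAm x (hTA hx)⟩) h1e.ell).trans ?_
    have h2 : ‖x‖⁻¹ ≤ P.kap⁻¹ * D.l := by
      have h3 := inv_anti₀ (by positivity) hx.1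
      rw [inv_div] at h3
      calc ‖x‖⁻¹ ≤ D.l / P.kap := h3
        _ = P.kap⁻¹ * D.l := by rw [div_eq_mul_inv, mul_comm]
    calc Real.sqrt (6 * P.C ^ 3) * ‖x‖⁻¹ ^ 6 ≤ Real.sqrt (6 * P.C ^ 3) * (P.kap⁻¹ * D.l) ^ 6 := by
          gcongr
      _ = Cv * D.l ^ 6 := by
          rw [hCv]
          ring
  have hvI : ∫ x in T, volDen D.g' x ≤ Cv * D.l ^ 3 := by
    have h1 : ‖∫ x in T, volDen D.g' x‖ ≤ Cv * D.l ^ 6 * volume.real T := by
      refine norm_setIntegral_le_of_norm_le_const hTc.measure_lt_top fun x hx => ?_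
      rw [Real.norm_eq_abs, abs_of_nonneg (hvn x)]
      exact hvb x hx
    have h2 : volume.real T ≤ 5 * (1 / 4 / D.l) ^ 3 := vol_cAnn (by positivity)
    have h3 : (1 / 4 / D.l) ^ 3 = (1 / 64) * (1 / D.l ^ 3) := by
      field_simp
      norm_num
    calc ∫ x in T, volDen D.g' x ≤ ‖∫ x in T, volDen D.g' x‖ := Real.le_norm_self _
      _ ≤ Cv * D.l ^ 6 * volume.real T := h1
      _ ≤ Cv * D.l ^ 6 * (5 * (1 / 4 / D.l) ^ 3) := by gcongr
      _ = (5 / 64) * (Cv * D.l ^ 3) := by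
          rw [h3]
          field_simp
      _ ≤ Cv * D.l ^ 3 := by nlinarith [mul_pos hCvp (pow_pos hl 3)]
  -- pointwise bound of X
  have hX : ∀ x ∈ T, 0 ≤ len D.g' x (D.Gw P x) ∧ len D.g' x (D.Gw P x) ≤ len D.g' x (D.G x) := by
    intro x hx
    refine ⟨Real.sqrt_nonneg _, ?_⟩
    have hu : 1 / 2 ≤ D.u x := h1e.uhalf x hx
    have h1 : D.Gw P x = fun i => (-P.eps / D.u x) * D.G x i := by
      funext i
      unfold Dat.Gw gOf
      ring
    rw [h1, len_smul, abs_div, abs_neg, abs_of_pos he, abs_of_pos (by linarith : 0 < D.u x)]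
    have h2 : P.eps / D.u x ≤ 1 := by
      rw [div_le_one (by linarith)]
      linarith
    have h3 : 0 ≤ len D.g' x (D.G x) := Real.sqrt_nonneg _
    nlinarith
  -- XID
  have hab : P.kap / (2 * D.l) < 2 * (1 / 4) / D.l := by
    rw [div_lt_div_iff₀ (by positivity) hl]
    nlinarith
  have hmet : MetricOn Om D.g' := ⟨fun i j => (h1e.metU.smooth i j).mono (Set.subset_univ _),
    fun x _ => h1e.metU.posDef x trivial⟩
  have hten : TensorOn Om D.h' := ⟨fun i j => (h1e.tenU.smooth i j).mono (Set.subset_univ _),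
    fun x _ => h1e.tenU.symm x trivial⟩
  have hH2 : H2On Om (D.w P) (D.Gw P) (D.Mw P) := h1e.h2w
  have hEqW : EqW Om P.eps D.g' D.h' (D.Gw P) (D.Mw P) := h1e.eqw
  have hxid := hXID P.eps (P.kap / (2 * D.l)) (2 * (1 / 4) / D.l) D.g' D.h' (D.w P) (D.Gw P)
    (D.Mw P) he (by linarith)
    (by positivity) hab hmet hten hH2 hEqW
    (fun K' hK' hK'O => vsz4 (hL4 _ _ _ _ (isOpen_Ann _ _) hH2) hK' hK'O) ψ T hψ hTc hTA
    (fun x hx hw => hlow x hx hw)
  have hL : ∫ x in Om, ψ (D.w P x) * D.Phi P x * D.vol x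
      = 1 / (2 - P.eps) * (∫ x in Om, (ψ (D.w P x) + P.eps * deriv ψ (D.w P x)) *
          len D.g' x (D.Gw P x) ^ 3 * volDen D.g' x)
        + ∫ x in Om, ψ (D.w P x) * len D.g' x (D.Gw P x) ^ 2
            * (2 / (2 - P.eps) * beps P.eps D.g' x (D.Gw P x) (D.h' x)
              - btan D.g' x (D.Gw P x) (D.h' x)) * volDen D.g' x := hxid
  -- the two estimates
  have hz : ∀ x ∈ Om, x ∉ T → ψ (D.w P x) = 0 ∧ deriv ψ (D.w P x) = 0 := by
    intro x hx hxT
    have h1 : D.w P x ∉ tsupport ψ := fun h => hxT (hlow x hx h)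
    exact ⟨image_eq_zero_of_notMem_tsupport h1, by
      by_contra h2
      exact h1 (support_deriv_subset h2)⟩
  have hI1 : |∫ x in Om, (ψ (D.w P x) + P.eps * deriv ψ (D.w P x)) *
      len D.g' x (D.Gw P x) ^ 3 * volDen D.g' x|
      ≤ ∫ x in T, 2 * A * (len D.g' x (D.G x) ^ 3 * volDen D.g' x) := by
    refine bound_T hOm hTm hTA (hint.const_mul _) ?_ ?_
    · intro x hx hxT
      obtain ⟨h1, h2⟩ := hz x hx hxT
      rw [h1, h2]
      ring
    · intro x hx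
      obtain ⟨h1, h2⟩ := hX x hx
      have h3 : |ψ (D.w P x) + P.eps * deriv ψ (D.w P x)| ≤ 2 * A := by
        calc |ψ (D.w P x) + P.eps * deriv ψ (D.w P x)|
            ≤ |ψ (D.w P x)| + |P.eps * deriv ψ (D.w P x)| := abs_add_le _ _
          _ ≤ A + 1 * A := by
              refine add_le_add (hA _).1 ?_
              rw [abs_mul, abs_of_pos he]
              exact mul_le_mul (by linarith) (hA _).2 (abs_nonneg _) zero_le_one
          _ = 2 * A := by ring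
      rw [abs_mul, abs_mul, abs_of_nonneg (hvn x), abs_of_nonneg (pow_nonneg h1 3), mul_assoc]
      have h4 : len D.g' x (D.Gw P x) ^ 3 ≤ len D.g' x (D.G x) ^ 3 := pow_le_pow_left₀ h1 h2 3
      exact mul_le_mul h3 (mul_le_mul_of_nonneg_right h4 (hvn x))
        (mul_nonneg (pow_nonneg h1 3) (hvn x)) (by positivity)
  set lam : ℝ := D.l * D.l ^ pe P.eps with hlam
  have hlamp : 0 < lam := by positivity
  have hI2 : |∫ x in Om, ψ (D.w P x) * len D.g' x (D.Gw P x) ^ 2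
            * (2 / (2 - P.eps) * beps P.eps D.g' x (D.Gw P x) (D.h' x)
              - btan D.g' x (D.Gw P x) (D.h' x)) * volDen D.g' x|
      ≤ ∫ x in T, (9 * A * Real.sqrt P.C * D.l⁻¹ ^ 2) *
          (lam * (len D.g' x (D.G x) ^ 3 * volDen D.g' x) + lam⁻¹ ^ 2 * volDen D.g' x) := by
    refine bound_T hOm hTm hTA (((hint.const_mul _).add (hvi.const_mul _)).const_mul _) ?_ ?_
    · intro x hx hxT
      obtain ⟨h1, h2⟩ := hz x hx hxT
      rw [h1]
      ring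
    · intro x hx
      obtain ⟨h1, h2⟩ := hX x hx
      have hpd : (D.g' x).PosDef := h1e.metU.posDef x (Set.mem_univ x)
      have h3 := hterm_abs hpd he (by linarith) (D.Gw P x) (D.h' x)
      have h4 : Real.sqrt (nsq D.g' x (D.h' x)) ≤ Real.sqrt P.C * D.l⁻¹ ^ 2 := by
        calc Real.sqrt (nsq D.g' x (D.h' x)) ≤ Real.sqrt (P.C * (‖x‖ ^ 2) ^ 2) := by
              apply Real.sqrt_le_sqrt
              have h5 := hnsq x (hTA hx)
              calc nsq D.g' x (D.h' x) ≤ P.C * ‖x‖ ^ 4 := h5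
                _ = P.C * (‖x‖ ^ 2) ^ 2 := by ring
          _ = Real.sqrt P.C * ‖x‖ ^ 2 := by
              rw [Real.sqrt_mul hC.le, Real.sqrt_sq (by positivity)]
          _ ≤ Real.sqrt P.C * D.l⁻¹ ^ 2 := by
              gcongr
              exact hxl x hx
      have h5 : len D.g' x (D.Gw P x) ^ 2 ≤ len D.g' x (D.G x) ^ 2 := pow_le_pow_left₀ h1 h2 2
      have h6 : 0 ≤ len D.g' x (D.G x) := Real.sqrt_nonneg _
      have h7 : len D.g' x (D.G x) ^ 2 ≤ lam * len D.g' x (D.G x) ^ 3 + lam⁻¹ ^ 2 := by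
        generalize len D.g' x (D.G x) = t at *
        by_cases h8 : 1 ≤ lam * t
        · have : t ^ 2 * 1 ≤ t ^ 2 * (lam * t) := mul_le_mul_of_nonneg_left h8 (by positivity)
          have h9 : 0 < lam⁻¹ ^ 2 := by positivity
          nlinarith
        · have h9 : t ≤ lam⁻¹ := by
            rw [← one_div, le_div_iff₀ hlamp]
            linarith
          have h10 : t ^ 2 ≤ lam⁻¹ ^ 2 := pow_le_pow_left₀ h6 h9 2
          have h11 : 0 ≤ lam * t ^ 3 := by positivity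
          linarith
      rw [abs_mul, abs_mul, abs_mul, abs_of_nonneg (hvn x), abs_of_nonneg (pow_nonneg h1 2)]
      calc |ψ (D.w P x)| * len D.g' x (D.Gw P x) ^ 2
            * |2 / (2 - P.eps) * beps P.eps D.g' x (D.Gw P x) (D.h' x)
              - btan D.g' x (D.Gw P x) (D.h' x)| * volDen D.g' x
          ≤ A * (lam * len D.g' x (D.G x) ^ 3 + lam⁻¹ ^ 2)
            * (9 * (Real.sqrt P.C * D.l⁻¹ ^ 2)) * volDen D.g' x := by
            refine mul_le_mul_of_nonneg_right ?_ (hvn x)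
            refine mul_le_mul (mul_le_mul (hA _).1 (h5.trans h7) (pow_nonneg h1 2) hA0)
              (h3.trans (by linarith)) (abs_nonneg _) (by positivity)
        _ = _ := by ring
  rw [integral_const_mul] at hI1
  rw [integral_const_mul, integral_add (hint.const_mul _) (hvi.const_mul _), integral_const_mul,
    integral_const_mul] at hI2
  have hI3 : ∫ x in T, len D.g' x (D.G x) ^ 3 * volDen D.g' x
      ≤ C' * (S0 * (D.l ^ pe P.eps)⁻¹) ^ 3 := hle
  rw [hL, rpow_lm hl]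
  have hc0 : 0 ≤ 1 / (2 - P.eps) := div_nonneg zero_le_one (by linarith)
  have hc1 : 1 / (2 - P.eps) ≤ 1 := by
    rw [div_le_one (by linarith)]
    linarith
  have hlt : D.l ≤ D.l ^ pe P.eps := by
    calc D.l = D.l ^ (1 : ℝ) := (Real.rpow_one _).symm
      _ ≤ D.l ^ pe P.eps := Real.rpow_le_rpow_of_exponent_le (by linarith)
          (by linarith [pe_ge he he2])
  generalize (∫ x in Om, (ψ (D.w P x) + P.eps * deriv ψ (D.w P x)) *
      len D.g' x (D.Gw P x) ^ 3 * volDen D.g' x) = I1 at *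
  generalize (∫ x in Om, ψ (D.w P x) * len D.g' x (D.Gw P x) ^ 2
            * (2 / (2 - P.eps) * beps P.eps D.g' x (D.Gw P x) (D.h' x)
              - btan D.g' x (D.Gw P x) (D.h' x)) * volDen D.g' x) = I2 at *
  generalize (∫ x in T, len D.g' x (D.G x) ^ 3 * volDen D.g' x) = J at *
  generalize (∫ x in T, volDen D.g' x) = V at *
  generalize D.l ^ pe P.eps = t at *
  have hg1 : |1 / (2 - P.eps) * I1 + I2| ≤ 1 * |I1| + |I2| := by
    refine (abs_add_le _ _).trans (add_le_add ?_ le_rfl)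
    rw [abs_mul, abs_of_nonneg hc0]
    exact mul_le_mul_of_nonneg_right hc1 (abs_nonneg _)
  have hg2 : |I1| ≤ 2 * A * (C' * (S0 * t⁻¹) ^ 3) :=
    hI1.trans (mul_le_mul_of_nonneg_left hI3 (by positivity))
  have hg3 : |I2| ≤ 9 * A * Real.sqrt P.C * D.l⁻¹ ^ 2 *
      (lam * (C' * (S0 * t⁻¹) ^ 3) + lam⁻¹ ^ 2 * (Cv * D.l ^ 3)) := by
    refine hI2.trans (mul_le_mul_of_nonneg_left ?_ (by positivity))
    exact add_le_add (mul_le_mul_of_nonneg_left hI3 hlamp.le)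
      (mul_le_mul_of_nonneg_left hvI (by positivity))
  have hg4 : 9 * A * Real.sqrt P.C * D.l⁻¹ ^ 2 *
      (lam * (C' * (S0 * t⁻¹) ^ 3) + lam⁻¹ ^ 2 * (Cv * D.l ^ 3))
      = 9 * Real.sqrt P.C * (C' * S0 ^ 3 + Cv) * (1 / (t ^ 2 * D.l)) * A := by
    rw [hlam]
    field_simp
  have hg5 : 2 * A * (C' * (S0 * t⁻¹) ^ 3) ≤ 2 * (C' * S0 ^ 3) * (1 / (t ^ 2 * D.l)) * A := by
    have h1 : 2 * A * (C' * (S0 * t⁻¹) ^ 3) = 2 * (C' * S0 ^ 3) * (1 / (t ^ 2 * t)) * A := by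
      field_simp
    rw [h1]
    have h2 : 1 / (t ^ 2 * t) ≤ 1 / (t ^ 2 * D.l) := by
      apply one_div_le_one_div_of_le (by positivity)
      exact mul_le_mul_of_nonneg_left hlt (by positivity)
    gcongr
  calc |1 / (2 - P.eps) * I1 + I2| ≤ 1 * |I1| + |I2| := hg1
    _ ≤ 2 * (C' * S0 ^ 3) * (1 / (t ^ 2 * D.l)) * A
        + 9 * Real.sqrt P.C * (C' * S0 ^ 3 + Cv) * (1 / (t ^ 2 * D.l)) * A := by
        rw [one_mul]
        exact add_le_add (hg2.trans hg5) (hg3.trans hg4.le)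
    _ = (2 * (C' * S0 ^ 3) + 9 * Real.sqrt P.C * (C' * S0 ^ 3 + Cv))
        * (1 / (t ^ 2 * D.l)) * A := by ring

/-- Near the end `p`, `1 - u` is small. -/
lemma one_sub_le' {F : Fr} {P : Par} {D : Dat} (hS : SetupT F P D) {p : E3} (hp : p ∈ F.T)
    {x : E3} (hxO : x ∈ omT F D) (hx1 : ‖x - p‖ ≤ D.l⁻¹) :
    |1 - D.u x| ≤ (P.C2 + 1) * (D.l ^ pe P.eps)⁻¹ := by
  have hl4 := hS.l_ge
  have hl : 0 < D.l := by linarith
  have hk := hS.kap_pos
  have hk8 := hS.kap_le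
  have he := hS.eps_pos
  have hR : 0 < D.R := lt_of_lt_of_le (by positivity) hS.R_ge'
  have hl1 : D.l⁻¹ ≤ 1 := inv_le_one_of_one_le₀ (by linarith)
  have hu1 := hS.sol.le_one x
  have hu0 := hS.located.pos x hxO.1
  have ht : 0 < D.l ^ pe P.eps := Real.rpow_pos_of_pos hl _
  have hpe := pe_ge he hS.eps_le
  have hxp : 0 < ‖x - p‖ := lt_trans (by positivity) (hxO.2 p hp)
  rw [abs_of_nonneg (by linarith)]
  by_cases hc : P.kap / D.l ≤ ‖x - p‖
  · have h1 := hS.located.inner p hp x hc (hx1.trans hl1)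
    have h2 : ‖x - p‖ ^ pe P.eps ≤ (D.l ^ pe P.eps)⁻¹ := by
      rw [← Real.inv_rpow hl.le]
      exact Real.rpow_le_rpow hxp.le hx1 (by linarith)
    have h3 : 0 < (D.l ^ pe P.eps)⁻¹ := by positivity
    have h4 := hS.C2_pos
    nlinarith
  · have h1 : wOf P.eps D.u x < sbE P.eps P.c D.l / 4 := by
      by_contra h2
      exact hc (hS.located.low' x hxO (not_lt.1 h2) p hp)
    unfold wOf sbE at h1
    have h2 := Real.log_le_sub_one_of_pos hu0
    have h3 : (4 * D.l) ^ (-pe P.eps) ≤ (D.l ^ pe P.eps)⁻¹ := by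
      rw [← Real.rpow_neg hl.le]
      exact Real.rpow_le_rpow_of_nonpos hl (by linarith) (by linarith)
    have h4 : -Real.log (D.u x) < P.c * (4 * D.l) ^ (-pe P.eps) / 4 := by
      have h5 : P.eps * (-Real.log (D.u x)) < P.eps * (P.c * (4 * D.l) ^ (-pe P.eps) / 4) := by
        nlinarith
      exact lt_of_mul_lt_mul_left h5 he.le
    have h5 : 0 ≤ (4 * D.l) ^ (-pe P.eps) := by positivity
    have h6 : P.c * (4 * D.l) ^ (-pe P.eps) ≤ 1 * (4 * D.l) ^ (-pe P.eps) :=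
      mul_le_mul_of_nonneg_right hS.c_le h5
    have h7 := hS.C2_pos
    have h8 : 0 < (D.l ^ pe P.eps)⁻¹ := by positivity
    nlinarith

/-- The data in the coordinates `x - p`. -/
def dsh (p : E3) (D : Dat) : Dat where
  l := D.l
  R := D.R
  eta := D.eta
  g := shift p D.g
  h := shift p D.h
  g' := shift p D.g'
  h' := shift p D.h'
  e := fun x => D.e (x + p)
  u := fun x => D.u (x + p)
  G := fun x => D.G (x + p)
  M := fun x => D.M (x + p)

lemma univ_shift (p : E3) : {x : E3 | x + p ∈ (Set.univ : Set E3)} = Set.univ :=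
  Set.eq_univ_of_forall fun _ => trivial

/-- A point near the end `p` where `w` is small lies in the small annulus. -/
lemma low_near {F : Fr} {P : Par} {D : Dat} (hS : SetupT F P D) {p : E3} (hp : p ∈ F.T)
    {x : E3} (hxO : x ∈ omT F D) (hx1 : ‖x - p‖ ≤ D.l⁻¹) (h1 : D.sb P / 4 < D.w P x)
    (h2 : D.w P x < D.sb P) : P.kap / D.l ≤ ‖x - p‖ ∧ ‖x - p‖ ≤ 1 / 4 / D.l := by
  refine ⟨hS.located.low' x hxO h1.le p hp, ?_⟩
  obtain ⟨q, hq, hxq⟩ := hS.located.low x hxO h2.le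
  have hl4 := hS.l_ge
  have hl : 0 < D.l := by linarith
  have hρ := hS.frame.rho_pos
  have hlr : 8 * D.l⁻¹ ≤ F.rho := by
    have h := hS.l_rho
    rw [div_le_iff₀ hρ] at h
    have h2 : D.l * D.l⁻¹ = 1 := mul_inv_cancel₀ hl.ne'
    nlinarith
  have hli : 0 < D.l⁻¹ := by positivity
  have e : 1 / (4 * D.l) = 1 / 4 * D.l⁻¹ := by
    rw [one_div, mul_inv]
    norm_num
  have hpq : p = q := by
    by_contra hpq
    have h3 := hS.frame.disj p hp q hq hpq
    have h4 := SETWT.dist_ge x p q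
    rw [e] at hxq
    linarith
  rw [hpq, div_div]
  exact hxq

/-- The data near the end `p`. -/
lemma one_of {F : Fr} {P : Par} {D : Dat} (hS : SetupT F P D) (hSHH : Stmt_SHH)
    (hH2 : H2On (omT F D) (D.w P) (D.Gw P) (D.Mw P))
    (hEqW : EqW (omT F D) P.eps D.g' D.h' (D.Gw P) (D.Mw P))
    {p : E3} (hp : p ∈ F.T)
    (hsub : {x : E3 | x ∈ Ann (P.kap / (2 * D.l)) (2 * (1 / 4) / D.l)} ⊆
      {x : E3 | x + p ∈ omT F D}) : One P (dsh p D) F.rho := by
  have hl4 := hS.l_ge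
  have hl : 0 < D.l := by linarith
  have hk := hS.kap_pos
  have hR : 0 < D.R := lt_of_lt_of_le (by positivity) hS.R_ge'
  have hR1 : 1 / D.R ≤ P.kap / (2 * D.l) := by
    have h1 := one_div_le_one_div_of_le (by positivity) hS.R_ge'
    rwa [one_div_div] at h1
  have hρ := hS.frame.rho_pos
  have hρ1 := hS.frame.rho_le
  have hli : 0 < D.l⁻¹ := by positivity
  have hlr : 8 * D.l⁻¹ ≤ F.rho := by
    have h := hS.l_rho
    rw [div_le_iff₀ hρ] at h
    have h2 : D.l * D.l⁻¹ = 1 := mul_inv_cancel₀ hl.ne'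
    nlinarith
  have e2 : 2 * (1 / 4) / D.l = (1 / 2) * D.l⁻¹ := by
    rw [div_eq_mul_inv]
    norm_num
  have hxn : ∀ x ∈ Ann (P.kap / (2 * D.l)) (2 * (1 / 4) / D.l), ‖x‖ ≤ D.l⁻¹ := by
    intro x hx
    have h1 := hx.2
    rw [e2] at h1
    linarith
  have hinf : ∀ q ∈ F.T, ‖q‖ + F.rho < F.rad := hS.frame.inside
  have hsame : ∀ x ∈ Ann (P.kap / (2 * D.l)) (2 * (1 / 4) / D.l),
      D.g' (x + p) = D.g (x + p) := by
    intro x hx
    refine hS.modified.same (x + p) ?_ ?_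
    · intro q hq
      have h16 : 1 / (16 * D.R) < 1 / D.R := one_div_lt_one_div_of_lt hR (by linarith)
      exact h16.trans ((hsub hx).2 q hq)
    · have h1 := norm_add_le x p
      have h2 := hinf p hp
      have h3 := hS.l_rad
      have h4 := hS.frame.rad_ge
      have h5 := hxn x hx
      linarith
  have h8 : 1 / (8 * D.R) ≤ P.kap / (2 * D.l) := by
    refine le_trans ?_ hR1
    apply one_div_le_one_div_of_le hR
    linarith
  have hcO : ∀ x ∈ cAnn (P.kap / D.l) (1 / 4 / D.l), x + p ∈ omT F D := by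
    intro x hx
    refine hsub ⟨lt_of_lt_of_le ?_ hx.1, lt_of_le_of_lt hx.2 ?_⟩
    · apply div_lt_div_of_pos_left hk hl
      linarith
    · rw [div_lt_div_iff_of_pos_right hl]
      norm_num
  constructor
  · exact hS.eps_pos
  · exact hS.eps_le
  · exact hS.C_pos
  · exact hk
  · exact hS.kap_le
  · exact hS.C2_pos
  · exact hρ
  · exact hρ1
  · exact hl4
  · exact hS.l_rho
  · -- met0
    have h1 := (hSHH p ((F.T : Set E3))ᶜ).2.2.2.1 D.g hS.metric0
    have h2 : {x : E3 | 0 < ‖x‖ ∧ ‖x‖ < F.rho} ⊆ {x : E3 | x + p ∈ ((F.T : Set E3))ᶜ} := by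
      rintro x ⟨hx1, hx2⟩ hx3
      have hx3' : x + p ∈ F.T := hx3
      by_cases h : p = x + p
      · have : x = 0 := by simpa using h.symm
        rw [this, norm_zero] at hx1
        exact lt_irrefl _ hx1
      · have h4 := hS.frame.disj p hp (x + p) hx3' h
        have h5 : ‖p - (x + p)‖ = ‖x‖ := by
          rw [show p - (x + p) = -x by abel, norm_neg]
        rw [h5] at h4
        linarith
    exact ⟨fun i j => (h1.smooth i j).mono h2, fun x hx => h1.posDef x (h2 hx)⟩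
  · exact hS.modified.decay2 p hp
  · exact hS.ell2 p hp
  · exact hsame
  · intro x hx
    have h1 := hS.modified.hsmall2 p hp (x + p) (by
      rw [add_sub_cancel_right]
      exact h8.trans hx.1.le) (by
      rw [add_sub_cancel_right]
      linarith [hxn x hx])
    rw [add_sub_cancel_right] at h1
    have h2 := ((hSHH p Set.univ).2.2.2.2.2 P.eps D.g' D.h' 0 (D.h' (x + p)) x).2.2.2.2.2
    show nsq (shift p D.g') x (D.h' (x + p)) ≤ _
    rw [h2]
    exact h1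
  · have h1 := (hSHH p Set.univ).2.2.2.1 D.g' hS.modified.metric
    rwa [univ_shift] at h1
  · have h1 := (hSHH p Set.univ).2.2.2.2.1 D.h' hS.modified.tensor
    rwa [univ_shift] at h1
  · exact h2_mono ((hSHH p (omT F D)).1 _ _ _ hS.sol.h2) hsub
  · exact equ_mono ((hSHH p (omT F D)).2.1 _ _ _ _ _ hS.sol.eq) hsub
  · exact h2_mono ((hSHH p (omT F D)).1 _ _ _ hH2) hsub
  · exact ae_mono (Measure.restrict_mono hsub le_rfl)
      ((hSHH p (omT F D)).2.2.1 _ _ _ _ _ hEqW)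
  · intro x hx
    refine one_sub_le' hS hp (hsub hx) ?_
    rw [add_sub_cancel_right]
    exact hxn x hx
  · intro x hx
    refine hS.located.inner_half p hp (x + p) ?_ ?_
    · rw [add_sub_cancel_right]
      exact hx.1
    · rw [add_sub_cancel_right]
      refine hx.2.trans ?_
      apply div_le_div_of_nonneg_right _ hl.le
      norm_num

end XWIT

open XWIT in
open Pool.Agent.PFlow.XWI in
/-- **(XWIT)** The flux density over the inner window. -/
theorem t_XWIT (hSETWT : Stmt_SETWT) (hLEYT : Stmt_LEYT) (hSHH : Stmt_SHH) (hXID : Stmt_XID)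
    (hL4 : Stmt_L4) : Stmt_XWIT := by
  intro F P
  by_cases hP : F.Ok ∧ 0 < P.eps ∧ P.eps ≤ 1 / 2 ∧ 0 < P.C ∧ 0 < P.kap ∧ P.kap ≤ 1 / 8 ∧ 0 < P.C2
  swap
  · refine ⟨1, 1, one_pos, le_rfl, ?_⟩
    intro D hS
    exact absurd ⟨hS.frame, hS.eps_pos, hS.eps_le, hS.C_pos, hS.kap_pos, hS.kap_le, hS.C2_pos⟩ hP
  obtain ⟨hF, he, he2, hC, hk, hk8, hC2⟩ := hP
  obtain ⟨C', l₀, hC', hl₀, hley⟩ := hLEYT P.eps P.C P.kap (1 / 4) F.rho he he2 hC hk
    (by linarith) hF.rho_pos hF.rho_le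
  set B₀ : ℝ := (2 * (C' * (P.C2 + 1) ^ 3) + 9 * Real.sqrt P.C *
          (C' * (P.C2 + 1) ^ 3 + Real.sqrt (6 * P.C ^ 3) * (P.kap⁻¹) ^ 6)) with hB₀
  have hB₀p : 0 < B₀ := by positivity
  have hcard : (0 : ℝ) < F.T.card := by
    exact_mod_cast Finset.card_pos.2 ⟨0, hF.zero⟩
  refine ⟨F.T.card * B₀, l₀, by positivity, hl₀, ?_⟩
  intro D hS hlD ψ A hψ hψc hψs hA
  obtain ⟨-, -, -, hH2, hEqW, -, -, -, -, -, -, -, -, -, -, -, -, -, -, -, -, -, -, hopen, -,
    hnear⟩ := hSETWT F P D hS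
  have hl4 := hS.l_ge
  have hl : 0 < D.l := by linarith
  have hR : 0 < D.R := lt_of_lt_of_le (by positivity) hS.R_ge'
  have hR1 : 1 / D.R ≤ P.kap / (2 * D.l) := by
    have h1 := one_div_le_one_div_of_le (by positivity) hS.R_ge'
    rwa [one_div_div] at h1
  have hρ := hF.rho_pos
  have hli : 0 < D.l⁻¹ := by positivity
  have hlr : 8 * D.l⁻¹ ≤ F.rho := by
    have h := hS.l_rho
    rw [div_le_iff₀ hρ] at h
    have h2 : D.l * D.l⁻¹ = 1 := mul_inv_cancel₀ hl.ne'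
    nlinarith
  have e2 : 2 * (1 / 4) / D.l = (1 / 2) * D.l⁻¹ := by
    rw [div_eq_mul_inv]
    norm_num
  have e1 : 1 / 4 / D.l = (1 / 4) * D.l⁻¹ := by rw [div_eq_mul_inv]
  set A₀ : Set E3 := Ann (P.kap / (2 * D.l)) (2 * (1 / 4) / D.l) with hA₀
  have hA₀m : MeasurableSet A₀ := (isOpen_Ann _ _).measurableSet
  have hsub : ∀ p ∈ F.T, {x : E3 | x ∈ A₀} ⊆ {x : E3 | x + p ∈ omT F D} := by
    intro p hp x hx
    refine hnear p hp (x + p) ?_ ?_
    · rw [add_sub_cancel_right]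
      exact lt_of_le_of_lt hR1 hx.1
    · rw [add_sub_cancel_right]
      have h1 := hx.2
      rw [e2] at h1
      linarith
  -- the sets near the ends
  set B : E3 → Set E3 := fun p => {x : E3 | x - p ∈ A₀} with hB
  have hcs : ∀ p : E3, Continuous fun x : E3 => x - p := fun p =>
    continuous_id.sub continuous_const
  have hBm : ∀ p, MeasurableSet (B p) := fun p => (hcs p).measurable hA₀m
  have hBO : ∀ p ∈ F.T, B p ⊆ omT F D := by
    intro p hp x hx
    have h1 := hsub p hp hx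
    simpa using h1
  have hBd : Set.PairwiseDisjoint (F.T : Set E3) B := by
    intro p hp q hq hpq
    rw [Function.onFun, Set.disjoint_left]
    intro x hx hx'
    have h1 := hx.2
    have h2 := hx'.2
    rw [e2] at h1 h2
    have h3 := hF.disj p hp q hq hpq
    have h4 := SETWT.dist_ge x p q
    linarith
  have hone : ∀ p ∈ F.T, One P (dsh p D) F.rho := fun p hp =>
    one_of hS hSHH hH2 hEqW hp (hsub p hp)
  -- the estimate near `p`
  have hest : ∀ p ∈ F.T, |∫ x in B p, ψ (D.w P x) * D.Phi P x * D.vol x|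
      ≤ B₀ * D.l ^ (-(2 * pe P.eps + 1)) * A := by
    intro p hp
    have h1 := one_end (hone p hp) hC' hley hXID hL4 hlD ψ A hψ hA (by
      intro x hx hw
      have h2 := hψs hw
      have h3 := hx.2
      have h4 := low_near hS hp (x := x + p) (hsub p hp hx) (by
        rw [add_sub_cancel_right]
        change ‖x‖ < 2 * (1 / 4) / D.l at h3
        rw [e2] at h3
        linarith) h2.1 h2.2
      rw [add_sub_cancel_right] at h4
      exact h4)
    have h5 : ∫ x in B p, ψ (D.w P x) * D.Phi P x * D.vol x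
        = ∫ x in A₀, ψ (D.w P (x + p)) * D.Phi P (x + p) * D.vol (x + p) := by
      have h6 := (measurePreserving_add_right (volume : Measure E3) p).setIntegral_preimage_emb
        (measurableEmbedding_addRight p) (fun x => ψ (D.w P x) * D.Phi P x * D.vol x) (B p)
      rw [← h6]
      congr 2
      ext x
      simp [hB]
    have h7 : ∀ x : E3, D.Phi P (x + p) = (dsh p D).Phi P x := by
      intro x
      exact ((hSHH p Set.univ).2.2.2.2.2 P.eps D.g' D.h' (D.Gw P (x + p)) (D.Mw P (x + p)) x).1.symm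
    rw [h5]
    simp only [h7]
    exact h1
  -- the sum
  set f : E3 → ℝ := fun x => ψ (D.w P x) * D.Phi P x * D.vol x with hf
  show |∫ x in omT F D, f x| ≤ _
  by_cases hfi : IntegrableOn f (omT F D)
  swap
  · rw [integral_undef hfi, abs_zero]
    have hA0 : 0 ≤ A := (abs_nonneg _).trans (hA 0).1
    have : 0 ≤ D.l ^ (-(2 * pe P.eps + 1)) := Real.rpow_nonneg hl.le _
    positivity
  have hun : ∫ x in omT F D, f x = ∫ x in ⋃ p ∈ F.T, B p, f x := by
    refine setIntegral_eq_of_subset_of_forall_sdiff_eq_zero hopen.measurableSet ?_ ?_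
    · exact Set.iUnion₂_subset hBO
    · rintro x ⟨hx, hx'⟩
      have h1 : D.w P x ∉ tsupport ψ := by
        intro hw
        have h2 := hψs hw
        obtain ⟨p, hp, hxp⟩ := hS.located.low x hx h2.2.le
        apply hx'
        refine Set.mem_iUnion₂.2 ⟨p, hp, ?_, ?_⟩
        · refine lt_of_lt_of_le ?_ (hS.located.low' x hx h2.1.le p hp)
          apply div_lt_div_of_pos_left hk hl
          linarith
        · refine lt_of_le_of_lt hxp ?_
          rw [e2, one_div, mul_inv]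
          linarith
      rw [hf]
      simp only
      rw [image_eq_zero_of_notMem_tsupport h1]
      ring
  rw [hun, integral_biUnion_finset F.T (fun p _ => hBm p) hBd
    (fun p hp => hfi.mono_set (hBO p hp))]
  refine (Finset.abs_sum_le_sum_abs _ _).trans ?_
  refine (Finset.sum_le_sum hest).trans ?_
  rw [Finset.sum_const, nsmul_eq_mul]
  apply le_of_eq
  ring

end Pool.Agent.PFU
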