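import Pool.Agent.PFT.Asm
import Pool.Agent.PFU.ABSFT
import Pool.Agent.PFU.ABSIT
import Pool.Agent.PFU.ABSMT
import Pool.Agent.PFU.ABST
import Pool.Agent.PFU.ABSWT
import Pool.Agent.PFU.ABSXT
import Pool.Agent.PFU.AEGT
import Pool.Agent.PFU.BADT
import Pool.Agent.PFU.CAPT
import Pool.Agent.PFU.CENT
import Pool.Agent.PFU.CHIT
import Pool.Agent.PFU.CLOSET
import Pool.Agent.PFU.CNUM
import Pool.Agent.PFU.CONN
import Pool.Agent.PFU.CTOP
import Pool.Agent.PFU.CUTT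
import Pool.Agent.PFU.EETAU
import Pool.Agent.PFU.ENERT
import Pool.Agent.PFU.EPSTT
import Pool.Agent.PFU.EQLT
import Pool.Agent.PFU.EXTT
import Pool.Agent.PFU.FAT
import Pool.Agent.PFU.FBT
import Pool.Agent.PFU.FCT
import Pool.Agent.PFU.FDT
import Pool.Agent.PFU.FLUXLT
import Pool.Agent.PFU.FLV
import Pool.Agent.PFU.FLXAT
import Pool.Agent.PFU.FLXU
import Pool.Agent.PFU.FLXV
import Pool.Agent.PFU.FMT
import Pool.Agent.PFU.FXT
import Pool.Agent.PFU.GAMT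
import Pool.Agent.PFU.HART
import Pool.Agent.PFU.HATU
import Pool.Agent.PFU.HOLKT
import Pool.Agent.PFU.INNB
import Pool.Agent.PFU.JUPT
import Pool.Agent.PFU.JUUT
import Pool.Agent.PFU.KNN
import Pool.Agent.PFU.LEYT
import Pool.Agent.PFU.LIMU
import Pool.Agent.PFU.LIMXT
import Pool.Agent.PFU.LOCIT
import Pool.Agent.PFU.LOCT
import Pool.Agent.PFU.LSAT
import Pool.Agent.PFU.LSBT
import Pool.Agent.PFU.LSGT
import Pool.Agent.PFU.LST
import Pool.Agent.PFU.LVT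
import Pool.Agent.PFU.MATLT
import Pool.Agent.PFU.MITT
import Pool.Agent.PFU.MIU
import Pool.Agent.PFU.MODMT
import Pool.Agent.PFU.MODT
import Pool.Agent.PFU.MOLE
import Pool.Agent.PFU.MSIIT
import Pool.Agent.PFU.MSITT
import Pool.Agent.PFU.NDST
import Pool.Agent.PFU.NOISLT
import Pool.Agent.PFU.NZT
import Pool.Agent.PFU.OUTB
import Pool.Agent.PFU.PAIRC
import Pool.Agent.PFU.PART
import Pool.Agent.PFU.PENT
import Pool.Agent.PFU.PERD
import Pool.Agent.PFU.PIEC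
import Pool.Agent.PFU.PT
import Pool.Agent.PFU.SEQT
import Pool.Agent.PFU.SETWT
import Pool.Agent.PFU.SHH
import Pool.Agent.PFU.SUBA
import Pool.Agent.PFU.SUBLT
import Pool.Agent.PFU.TFO
import Pool.Agent.PFU.TFV
import Pool.Agent.PFU.TMU
import Pool.Agent.PFU.TRA
import Pool.Agent.PFU.TRNC
import Pool.Agent.PFU.TRT
import Pool.Agent.PFU.TSTAT
import Pool.Agent.PFU.TSTBT
import Pool.Agent.PFU.ULBT
import Pool.Agent.PFU.UPHT
import Pool.Agent.PFU.USAMT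
import Pool.Agent.PFU.UUBT
import Pool.Agent.PFU.WGTET
import Pool.Agent.PFU.XWIT
import Pool.Agent.PFU.XWOT

/-!
# Assembly of the theorem for the joint flow from several ends
-/

set_option autoImplicit false

open MeasureTheory Filter Topology
open scoped ContDiff ENNReal

namespace Pool.Agent.PFU

open Pool.Agent.PenroseSph Pool.Agent.PFlow Pool.Agent.PFT

theorem uCHIT : Stmt_CHIT := t_CHIT

theorem uCENT : Stmt_CENT := t_CENT uCHIT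

theorem uCAPT : Stmt_CAPT := t_CAPT uCHIT uCENT PFT.fNEP PFT.fSB PFT.fCNE PFT.fCVO

theorem uPIEC : Stmt_PIEC := t_PIEC PFT.fCAP PFT.fTRN

theorem uHATU : Stmt_HATU := t_HATU

theorem uCUTT : Stmt_CUTT := t_CUTT uHATU

theorem uINNB : Stmt_INNB := t_INNB uCUTT uHATU

theorem uOUTB : Stmt_OUTB := t_OUTB uCUTT

theorem uEETAD : Stmt_EETAD := t_EETAD

theorem uMODT : Stmt_MODT := t_MODT uPIEC uINNB uOUTB uCUTT uHATU uEETAD

theorem uMODMT : Stmt_MODMT := t_MODMT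

theorem uEETAU : Stmt_EETAU := t_EETAU

theorem uLOCIT : Stmt_LOCIT := t_LOCIT

theorem uGAMT : Stmt_GAMT := t_GAMT

theorem uNZT : Stmt_NZT := t_NZT ePHI eBARR

theorem uHART : Stmt_HART := t_HART

theorem uULBT : Stmt_ULBT := t_ULBT uNZT uHART

theorem uUUBT : Stmt_UUBT := t_UUBT uHART

theorem uLOCT : Stmt_LOCT := t_LOCT

theorem uUSAMT : Stmt_USAMT := t_USAMT

theorem uSETWT : Stmt_SETWT := t_SETWT LOGWfinal

theorem uXWOT : Stmt_XWOT := t_XWOT uSETWT eLE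

theorem uJUPT : Stmt_JUPT := t_JUPT

theorem uFLXAT : Stmt_FLXAT := t_FLXAT

theorem uJUUT : Stmt_JUUT := t_JUUT uXWOT uSETWT uJUPT uFLXAT

theorem uUPHT : Stmt_UPHT := t_UPHT uSETWT eBETA uFLXAT eHOLA uJUPT

theorem uNDST : Stmt_NDST := t_NDST uSETWT uUPHT uFLXAT eHOLA

theorem uEQLT : Stmt_EQLT := t_EQLT

theorem uFLUXLT : Stmt_FLUXLT := t_FLUXLT

theorem uSUBLT : Stmt_SUBLT := t_SUBLT

theorem uNOISLT : Stmt_NOISLT := t_NOISLT

theorem uPENT : Stmt_PENT := t_PENT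

theorem uCLOSET : Stmt_CLOSET := t_CLOSET uPENT

theorem uPAIRC : Stmt_PAIRC := t_PAIRC

theorem uKNN : Stmt_KNN := t_KNN

theorem uLIMXT : Stmt_LIMXT := t_LIMXT uPENT uCLOSET uPAIRC uKNN

theorem uPT : Stmt_PT := PT uEQLT uFLUXLT uSUBLT uNOISLT uLIMXT

theorem uABSIT : Stmt_ABSIT := t_ABSIT uSETWT INTfinal ePTD eHSYM

theorem uFXT : Stmt_FXT := t_FXT

theorem uTRT : Stmt_TRT := t_TRT

theorem uFMT : Stmt_FMT := t_FMT

theorem uFAT : Stmt_FAT := t_FAT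

theorem uFBT : Stmt_FBT := t_FBT uFAT

theorem uAEGT : Stmt_AEGT := t_AEGT uFAT uFBT

theorem uBADT : Stmt_BADT := t_BADT uFAT uFMT uAEGT

theorem uSEQT : Stmt_SEQT := t_SEQT uFXT uTRT uFMT uBADT uFAT

theorem uLSAT : Stmt_LSAT := t_LSAT uAEGT uFAT

theorem uLSBT : Stmt_LSBT := t_LSBT uLSAT uFAT

theorem uFCT : Stmt_FCT := t_FCT uFAT

theorem uFDT : Stmt_FDT := t_FDT uFAT

theorem uLVT : Stmt_LVT := t_LVT

theorem uLSGT : Stmt_LSGT := t_LSGT uFAT uFCT uFDT uLVT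

theorem uLST : Stmt_LST := t_LST uLSBT uLSGT

theorem uMITT : Stmt_MITT := t_MITT uLST uFAT

theorem uMIU : Stmt_MIU := t_MIU uSEQT uMITT

theorem uABSMT : Stmt_ABSMT := t_ABSMT uSETWT uABSIT uMIU

theorem uLEYT : Stmt_LEYT := t_LEYT eLE

theorem uSHH : Stmt_SHH := t_SHH

theorem uXWIT : Stmt_XWIT := t_XWIT uSETWT uLEYT uSHH eXID AllM.pL4

theorem uABSXT : Stmt_ABSXT := t_ABSXT uSETWT eXID AllM.pL4

theorem uABSWT : Stmt_ABSWT := t_ABSWT uSETWT uABSIT Wfinal ePTD eHSYM INTfinal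

theorem uFLXU : Stmt_FLXU := t_FLXU

theorem uABSFT : Stmt_ABSFT := t_ABSFT uSETWT uFLXU

theorem uABST : Stmt_ABST := t_ABST uSETWT uABSIT uABSMT uXWOT uXWIT uABSXT uABSWT uABSFT

theorem uMOLE : Stmt_MOLE := t_MOLE

theorem uFLXV : Stmt_FLXV := t_FLXV

theorem uFLV : Stmt_FLV := t_FLV uFLXV eHOLA

theorem uPERD : Stmt_PERD := t_PERD PFT.fPERG PFT.fLAC PFT.fCUT

theorem uTRNC : Stmt_TRNC := t_TRNC PFT.fLAC

theorem uCTOP : Stmt_CTOP := t_CTOP uPERD uTRNC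

theorem uCNUM : Stmt_CNUM := t_CNUM

theorem uCONN : Stmt_CONN := t_CONN uMOLE uFLV uCTOP uCNUM PFT.fH2L LOGWfinal

theorem uEXTT : Stmt_EXTT := t_EXTT uCAPT uMODT uMODMT uEETAU uLOCIT uGAMT uULBT uUUBT uLOCT uUSAMT uJUUT uNDST PFT.fCCO uPT uSETWT uABST uCONN PFT.fELL eBETA

theorem uTSTAT : Stmt_TSTAT := t_TSTAT

theorem uMATLT : Stmt_MATLT := t_MATLT uSETWT uABSIT eBETA uUPHT

theorem uENERT : Stmt_ENERT := t_ENERT uSETWT eBETA uTSTAT uUPHT uMATLT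

theorem uWGTET : Stmt_WGTET := t_WGTET uSETWT eBETA uABSIT eWGT uENERT uUPHT

theorem uMSITT : Stmt_MSITT := t_MSITT uSETWT eBETA uTSTAT uUPHT uMATLT uWGTET

theorem uTSTBT : Stmt_TSTBT := t_TSTBT

theorem uMSIIT : Stmt_MSIIT := t_MSIIT uSETWT eBETA uTSTBT eJL uUPHT uMATLT

theorem uHOLKT : Stmt_HOLKT := t_HOLKT uSETWT uFLXAT eHOLA

theorem uEPSTT : Stmt_EPSTT := t_EPSTT uEXTT uMSITT uMSIIT uWGTET uHOLKT uSETWT PFT.fH2L eBETA

theorem uLIMU : Stmt_LIMU := t_LIMU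

theorem uTFO : Stmt_TFO := t_TFO uEPSTT uPERD uLIMU PFT.fELL

theorem uTRA : Stmt_TRA := t_TRA

theorem uTFV : Stmt_TFV := t_TFV uTFO uTRA PFT.fTRN PFT.fTRM

theorem uSUBA : Stmt_SUBA := t_SUBA uMOLE PFT.fPERG

theorem uPART : Stmt_PART := t_PART uSUBA

theorem uTMU : Stmt_TMU := t_TMU uTFV uPART PFT.fRLIMK

end Pool.Agent.PFU
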