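import Pool.Agent.PFU.StmtsD
import Pool.Agent.PFT.CHI

/-!
# CUTT: the modified metric and tensor, several ends
-/

open MeasureTheory Filter Topology
open scoped ContDiff ENNReal

namespace Pool.Agent.PFU

open Pool.Agent.PenroseSph Pool.Agent.PFlow Pool.Agent.PFT

namespace CUTTAux

theorem open_compl (T : Finset E3) : IsOpen ((T : Set E3))ᶜ :=
  T.finite_toSet.isClosed.isOpen_compl

theorem chiN_zero {T : Finset E3} {N : ℝ} (hN : 0 < N) {p : E3} (hp : p ∈ T) {x : E3}
    (h : ‖x - p‖ ≤ 1 / (32 * N)) : chiN T N x = 0 := by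
  unfold chiN
  exact Finset.prod_eq_zero hp (PFlow.CUTM.kin_zero KAP hN h)

/-- A smooth function times a function smooth off the points of `T`, if the factor vanishes near
the points of `T`. -/
theorem smooth_of {T : Finset E3} {c f : E3 → ℝ} {a : ℝ} (ha : 0 < a) (hc : ContDiff ℝ ∞ c)
    (h0 : ∀ p ∈ T, ∀ x : E3, ‖x - p‖ ≤ a → c x = 0) (hf : ContDiffOn ℝ ∞ f ((T : Set E3))ᶜ) :
    ContDiff ℝ ∞ (fun x => c x * f x) := by
  rw [contDiff_iff_contDiffAt]
  intro x
  by_cases hx : x ∈ T
  · have : (fun x => c x * f x) =ᶠ[𝓝 x] fun _ => (0 : ℝ) := by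
      have ho : IsOpen {y : E3 | ‖y - x‖ < a} :=
        isOpen_lt (continuous_id.sub continuous_const).norm continuous_const
      have hm : x ∈ {y : E3 | ‖y - x‖ < a} := by
        show ‖x - x‖ < a
        rw [sub_self, norm_zero]
        exact ha
      filter_upwards [ho.mem_nhds hm] with y hy
      rw [h0 x hx y (le_of_lt hy), zero_mul]
    exact contDiffAt_const.congr_of_eventuallyEq this
  · have hx0 : x ∈ ((T : Set E3))ᶜ := by simpa using hx
    exact hc.contDiffAt.mul (hf.contDiffAt ((open_compl T).mem_nhds hx0))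

end CUTTAux

open CUTTAux CHIAux in
theorem t_CUTT (hHATU : Stmt_HATU) : Stmt_CUTT := by
  intro T g h η l R hη hl hR hg hh hps
  obtain ⟨hT, hTN, -, hle, -⟩ := hHATU ((T : Set E3))ᶜ g h η hη (open_compl T) hg hh
    (fun x hx => hps x (by simpa using hx))
  have hl0 : 0 < l := by linarith
  have hR0 : 0 < R := by linarith
  have hR2 : 0 < R / 2 := by linarith
  have e16 : 1 / (16 * (R / 2)) = 1 / (8 * R) := by
    congr 1
    ring
  have e32 : 1 / (32 * (R / 2)) = 1 / (16 * R) := by
    congr 1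
    ring
  have hkap0 : ∀ s, 0 ≤ kap s := PFlow.CUTM.kap_nonneg KAP
  have hkap1 : ∀ s, kap s ≤ 1 := PFlow.CUTM.kap_le_one KAP
  have hkl : ContDiff ℝ ∞ (fun y : E3 => kap (‖y‖ / l)) := KAP.2.2.2.2.2.1 l hl0
  have hkl2 : ContDiff ℝ ∞ (fun y : E3 => kap (2 * ‖y‖ / l)) := by
    have := KAP.2.2.2.2.2.1 (l / 2) (by linarith)
    have e : (fun y : E3 => kap (2 * ‖y‖ / l)) = fun y : E3 => kap (‖y‖ / (l / 2)) := by
      funext y
      congr 1
      field_simp
    rw [e]
    exact this
  -- the factors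
  let c : E3 → ℝ := fun x => kap (‖x‖ / l) * chiN T R x
  let c' : E3 → ℝ := fun x => kap (2 * ‖x‖ / l) * chiN T (R / 2) x
  have hc : ContDiff ℝ ∞ c := hkl.mul (chiN_smooth T hR0)
  have hc' : ContDiff ℝ ∞ c' := hkl2.mul (chiN_smooth T hR2)
  have hcz : ∀ p ∈ T, ∀ x : E3, ‖x - p‖ ≤ 1 / (32 * R) → c x = 0 := by
    intro p hp x hx
    show kap (‖x‖ / l) * chiN T R x = 0
    rw [chiN_zero hR0 hp hx, mul_zero]
  have hcz' : ∀ p ∈ T, ∀ x : E3, ‖x - p‖ ≤ 1 / (16 * R) → c' x = 0 := by
    intro p hp x hx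
    show kap (2 * ‖x‖ / l) * chiN T (R / 2) x = 0
    rw [chiN_zero hR2 hp (by rw [e32]; exact hx), mul_zero]
  have hc0 : ∀ x, 0 ≤ c x := fun x => mul_nonneg (hkap0 _) (chiN_mem _ _ _).1
  have hc1 : ∀ x, c x ≤ 1 := fun x =>
    mul_le_one₀ (hkap1 _) (chiN_mem _ _ _).1 (chiN_mem _ _ _).2
  have hc0' : ∀ x, 0 ≤ c' x := fun x => mul_nonneg (hkap0 _) (chiN_mem _ _ _).1
  have hc1' : ∀ x, c' x ≤ 1 := fun x =>
    mul_le_one₀ (hkap1 _) (chiN_mem _ _ _).1 (chiN_mem _ _ _).2
  have hcl : ∀ x : E3, l ≤ ‖x‖ → c' x = 0 := by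
    intro x hx
    show kap (2 * ‖x‖ / l) * chiN T (R / 2) x = 0
    rw [KAP.2.2.2.1 _ ?_, zero_mul]
    rw [le_div_iff₀ hl0]
    linarith
  have hGsame : ∀ x : E3, (∀ p ∈ T, 1 / (16 * R) < ‖x - p‖) → ‖x‖ < l →
      modGT T l R g x = g x := by
    intro x h1 h2
    show 1 + (kap (‖x‖ / l) * chiN T R x) • (g x - 1) = g x
    rw [chiN_one hR0 (fun p hp => (h1 p hp).le), KAP.2.2.1 _ ?_, one_mul, one_smul,
      add_sub_cancel]
    rw [div_le_one hl0]
    exact h2.le
  refine ⟨⟨?_, ?_⟩, ⟨?_, ?_⟩, ?_, hGsame, ?_, ?_, ?_, fun x => chiN_mem T (R / 2) x, ?_,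
    (chiN_smooth T hR2).continuous, ?_, ?_⟩
  · -- smoothness of the metric
    intro i j
    have h1 : ContDiff ℝ ∞ (fun x => c x * (g x i j - (1 : Bil) i j)) :=
      CUTTAux.smooth_of (a := 1 / (32 * R)) (by positivity) hc hcz
        ((hg.smooth i j).sub contDiffOn_const)
    exact (contDiff_const.add h1).contDiffOn
  · -- positivity
    intro x _
    by_cases hx : x ∈ T
    · have e : modGT T l R g x = 1 := by
        show 1 + c x • (g x - 1) = 1
        rw [hcz x hx x (by rw [sub_self, norm_zero]; positivity), zero_smul, add_zero]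
      rw [e]
      exact Matrix.PosDef.one
    · exact PFlow.CUTM.posDef_comb (hg.posDef x (by simpa using hx)) (hc0 x) (hc1 x)
  · -- smoothness of the tensor
    intro i j
    have h1 : ContDiff ℝ ∞ (fun x => c' x * hat η g h x i j) :=
      CUTTAux.smooth_of (a := 1 / (16 * R)) (by positivity) hc' hcz' (hT.smooth i j)
    exact h1.contDiffOn
  · intro x _
    by_cases hx : x ∈ T
    · have e : modHT T η l R g h x = 0 := by
        show c' x • hat η g h x = 0
        rw [hcz' x hx x (by rw [sub_self, norm_zero]; positivity), zero_smul]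
      rw [e]
      exact Matrix.isSymm_zero
    · exact (hT.symm x (by simpa using hx)).smul (c' x)
  · -- 2-nonnegative
    intro x _ v hv
    have ev_smul : ∀ (a : ℝ) (B : Bil), ev (a • B) v v = a * ev B v v := by
      intro a B
      simp only [ev, Matrix.smul_apply, smul_eq_mul, Finset.mul_sum]
      refine Finset.sum_congr rfl fun i _ => Finset.sum_congr rfl fun j _ => ?_
      ring
    have tr_smul : ∀ (G : TensorField) (a : ℝ) (B : Bil), trg G x (a • B) = a * trg G x B := by
      intro G a B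
      simp only [trg, Matrix.smul_apply, smul_eq_mul, Finset.mul_sum]
      refine Finset.sum_congr rfl fun i _ => Finset.sum_congr rfl fun j _ => ?_
      ring
    show ev (c' x • hat η g h x) v v ≤ trg (modGT T l R g) x (c' x • hat η g h x)
    rw [ev_smul, tr_smul]
    by_cases h0 : c' x = 0
    · rw [h0, zero_mul, zero_mul]
    · have h1 : ∀ p ∈ T, 1 / (16 * R) < ‖x - p‖ := by
        intro p hp
        by_contra hcon
        exact h0 (hcz' p hp x (not_lt.1 hcon))
      have h2 : ‖x‖ < l := by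
        by_contra hcon
        exact h0 (hcl x (not_lt.1 hcon))
      have h3 := hGsame x h1 h2
      have hx0 : x ∈ ((T : Set E3))ᶜ := by
        intro hxT
        have h4 := h1 x hxT
        rw [sub_self, norm_zero] at h4
        have : 0 < 1 / (16 * R) := by positivity
        linarith
      rw [h3] at hv
      have h4 : trg (modGT T l R g) x (hat η g h x) = trg g x (hat η g h x) := by
        unfold trg
        rw [h3]
      rw [h4]
      exact mul_le_mul_of_nonneg_left (hTN x hx0 v hv) (hc0' x)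
  · intro x hx
    show 1 + (kap (‖x‖ / l) * chiN T R x) • (g x - 1) = 1
    rw [KAP.2.2.2.1 _ ?_, zero_mul, zero_smul, add_zero]
    rw [le_div_iff₀ hl0]
    linarith
  · intro x hx
    show c' x • hat η g h x = 0
    rw [hcl x hx, zero_smul]
  · intro x h1 h2
    show (kap (2 * ‖x‖ / l) * chiN T (R / 2) x) • hat η g h x = hat η g h x
    rw [chiN_one hR2 (fun p hp => by rw [e16]; exact h1 p hp), KAP.2.2.1 _ ?_, one_mul,
      one_smul]
    rw [div_le_one hl0]
    linarith
  · intro x h1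
    exact chiN_one hR2 (fun p hp => by rw [e16]; exact h1 p hp)
  · intro p hp x hx
    exact chiN_zero hR2 hp (by rw [e32]; exact hx.le)
  · intro x i j
    show |c' x * hat η g h x i j| ≤ |h x i j|
    rw [abs_mul, abs_of_nonneg (hc0' x)]
    calc c' x * |hat η g h x i j| ≤ 1 * |hat η g h x i j| :=
          mul_le_mul_of_nonneg_right (hc1' x) (abs_nonneg _)
      _ ≤ |h x i j| := by
          rw [one_mul]
          exact hle x i j

end Pool.Agent.PFU
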