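import Pool.Agent.PFU.StmtsD

/-!
# The two-ended pieces
-/

open MeasureTheory Filter Topology
open scoped ContDiff ENNReal

namespace Pool.Agent.PFU

open Pool.Agent.PenroseSph Pool.Agent.PFlow Pool.Agent.PFT

namespace PIECAux

/-- The piece at the end `p`. -/
theorem piece (hCAP : Stmt_CAP) (hTRN : Stmt_TRN) (P : Finset E3) (g k : TensorField)
    (hE : SeveralEnds P g k) (hs : ∀ x : E3, x ∉ P → 0 ≤ surplus g k x) (hP : PlaneSignP P g k)
    (p : E3) (hp : p ∈ P) : ∃ Np : ℝ, ∀ N : ℝ, Np ≤ N → ∃ g' k' : TensorField,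
      TwoEnded g' k' ∧ PlaneSign g' k' ∧
      ∀ x : E3, (∀ q ∈ P, q ≠ p → 1 / (8 * N) < ‖x + p - q‖) →
        g' x = g (x + p) ∧ k' x = k (x + p) := by
  obtain ⟨h1, h2, h3⟩ := hTRN P g k p hE
  have h0 : (0 : E3) ∈ trans P p := by
    unfold PFT.trans
    refine Finset.mem_map.2 ⟨p, hp, ?_⟩
    show p - p = 0
    exact sub_self p
  obtain ⟨C, N₀, -, hN₀, -, hcap⟩ := hCAP (trans P p) (shift p g) (shift p k) h0 h1 (h2 hs) (h3 hP)
  refine ⟨N₀, fun N hN => ?_⟩
  have hN1 : 0 < N := by linarith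
  obtain ⟨g', k', e, hc⟩ := hcap N hN
  refine ⟨g', k', hc.two, hc.plane, fun x hx => ?_⟩
  have key : ∀ q ∈ trans P p, q ≠ 0 → 1 / (8 * N) < ‖x - q‖ := by
    intro q hq hq0
    unfold PFT.trans at hq
    obtain ⟨q', hq', rfl⟩ := Finset.mem_map.1 hq
    have e1 : (Equiv.subRight p).toEmbedding q' = q' - p := rfl
    rw [e1] at hq0 ⊢
    have h5 := hx q' hq' (fun h => hq0 (by rw [h, sub_self]))
    have e2 : x - (q' - p) = x + p - q' := by abel
    rw [e2]
    exact h5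
  have hle : 1 / (16 * N) ≤ 1 / (8 * N) :=
    one_div_le_one_div_of_le (by linarith) (by linarith)
  constructor
  · have h6 := hc.same x (fun q hq hq0 => lt_of_le_of_lt hle (key q hq hq0))
    rw [h6]
    rfl
  · have h6 := hc.sameK x key
    rw [h6]
    rfl

theorem margin {a b : ℝ} (h : a < b) : ∀ᶠ N : ℝ in atTop, a + 1 / (4 * N) < b := by
  have h1 : Tendsto (fun N : ℝ => a + 1 / (4 * N)) atTop (𝓝 (a + 0)) := by
    refine tendsto_const_nhds.add ?_
    have h2 : Tendsto (fun N : ℝ => 4 * N) atTop atTop :=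
      tendsto_id.const_mul_atTop (by norm_num)
    have h3 := h2.inv_tendsto_atTop
    refine h3.congr fun N => ?_
    show (4 * N)⁻¹ = 1 / (4 * N)
    rw [one_div]
  rw [add_zero] at h1
  exact h1.eventually (gt_mem_nhds h)

end PIECAux

open PIECAux in
theorem t_PIEC (hCAP : Stmt_CAP) (hTRN : Stmt_TRN) : Stmt_PIEC := by
  classical
  intro P F g k hTP hF hE hs hP hq
  have hρ := hF.rho_pos
  -- the piece at the origin
  obtain ⟨C₀, N₁, -, hN₁, -, hcap⟩ := hCAP P g k (hTP hF.zero) hE hs hP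
  -- the pieces at the ends
  have h1 : ∀ p : E3, ∃ Np : ℝ, p ∈ F.T → ∀ N : ℝ, Np ≤ N → ∃ g' k' : TensorField,
      TwoEnded g' k' ∧ PlaneSign g' k' ∧
      ∀ x : E3, (∀ q ∈ P, q ≠ p → 1 / (8 * N) < ‖x + p - q‖) →
        g' x = g (x + p) ∧ k' x = k (x + p) := by
    intro p
    by_cases hp : p ∈ F.T
    · obtain ⟨Np, h⟩ := piece hCAP hTRN P g k hE hs hP p (hTP hp)
      exact ⟨Np, fun _ => h⟩
    · exact ⟨0, fun h => absurd h hp⟩
  choose Np hNp using h1
  -- the depth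
  have ev1 : ∀ᶠ N : ℝ in atTop, ∀ p ∈ F.T, Np p ≤ N :=
    (Filter.eventually_all_finset F.T).2 fun p _ => eventually_ge_atTop (Np p)
  have ev2 : ∀ᶠ N : ℝ in atTop, ∀ q ∈ P, q ∉ F.T → (∀ p ∈ F.T, 2 * F.rho + 1 / (4 * N) < ‖q - p‖) ∧
      ‖q‖ + 1 / (4 * N) < F.rad := by
    refine (Filter.eventually_all_finset P).2 fun q hqP => ?_
    by_cases hqT : q ∈ F.T
    · exact Eventually.of_forall fun N h => absurd hqT h
    · obtain ⟨a1, a2⟩ := hq q hqP hqT
      have b1 : ∀ᶠ N : ℝ in atTop, ∀ p ∈ F.T, 2 * F.rho + 1 / (4 * N) < ‖q - p‖ :=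
        (Filter.eventually_all_finset F.T).2 fun p hp => margin (a1 p hp)
      filter_upwards [b1, margin a2] with N c1 c2 _
      exact ⟨c1, c2⟩
  obtain ⟨N₀, ⟨⟨⟨⟨hN1, hN2⟩, hN3⟩, hN4⟩, hN5⟩⟩ := ((((ev1.and ev2).and
    (eventually_ge_atTop N₁)).and (eventually_ge_atTop 1)).and
    (eventually_ge_atTop (1 / F.rho))).exists
  have hN0 : 0 < N₀ := by linarith
  have hsm : 1 / (4 * N₀) ≤ F.rho / 4 := by
    rw [div_le_iff₀ hρ] at hN5
    rw [div_le_div_iff₀ (by linarith) (by norm_num)]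
    nlinarith
  have hm8 : 1 / (8 * N₀) = 1 / (4 * N₀) / 2 := by
    field_simp
    norm_num
  have hm16 : 1 / (16 * N₀) = 1 / (4 * N₀) / 4 := by
    field_simp
    norm_num
  have hm4 : 0 < 1 / (4 * N₀) := by positivity
  -- the choice of the pieces
  have h2 : ∀ p : E3, ∃ g' k' : TensorField, p ∈ F.T → TwoEnded g' k' ∧ PlaneSign g' k' ∧
      ∀ x : E3, (∀ q ∈ P, q ≠ p → 1 / (8 * N₀) < ‖x + p - q‖) →
        g' x = g (x + p) ∧ k' x = k (x + p) := by
    intro p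
    by_cases hp : p ∈ F.T
    · obtain ⟨g', k', h⟩ := hNp p hp N₀ (hN1 p hp)
      exact ⟨g', k', fun _ => h⟩
    · exact ⟨g, k, fun h => absurd h hp⟩
  choose gp kp hgk using h2
  obtain ⟨g₀, k₀, e₀, hc⟩ := hcap N₀ hN3
  refine ⟨min (F.rho / 2) (1 / (16 * N₀)), N₀, gp, kp, g₀, k₀, e₀,
    lt_min (by linarith) (by positivity), ?_, hN4, hN2, fun p hp => ⟨(hgk p hp).1, (hgk p hp).2.1⟩,
    hc.two, hc.plane, hc.defect_cont, hc.defect_nonneg, ?_, hc.energy, ?_⟩
  · have := min_le_left (F.rho / 2) (1 / (16 * N₀))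
    linarith
  · intro x hx
    refine hc.defect_supp x fun q hqP _ => ?_
    have h3 : ‖x‖ - ‖q‖ ≤ ‖x - q‖ := norm_sub_norm_le x q
    by_cases hqT : q ∈ F.T
    · have := hF.inside q hqT
      linarith
    · have := (hN2 q hqP hqT).2
      linarith
  intro C₁ N g₁ k₁ e₁ hN hcT
  have hNpos : 0 < N := by linarith
  have hNN : 1 / (8 * N) ≤ 1 / (8 * N₀) :=
    one_div_le_one_div_of_le (by linarith) (by linarith)
  have hNN' : 1 / (16 * N) ≤ 1 / (8 * N₀) :=
    one_div_le_one_div_of_le (by linarith) (by linarith)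
  have hNN'' : 1 / (16 * N₀) ≤ 1 / (8 * N₀) :=
    one_div_le_one_div_of_le (by linarith) (by linarith)
  set μ := min (F.rho / 2) (1 / (16 * N₀)) with hμ
  have hμ1 : μ ≤ F.rho / 2 := min_le_left _ _
  have hμ2 : μ ≤ 1 / (16 * N₀) := min_le_right _ _
  constructor
  · intro p hp x hx0 hx
    have far : ∀ q ∈ P, q ≠ p → 1 / (8 * N₀) < ‖x + p - q‖ := by
      intro q hqP hqp
      have h3 : ‖q - p‖ - ‖x‖ ≤ ‖x + p - q‖ := by
        have h4 := norm_sub_norm_le (q - p) x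
        have e : q - p - x = -(x + p - q) := by abel
        rw [e, norm_neg] at h4
        exact h4
      by_cases hqT : q ∈ F.T
      · have := hF.disj q hqT p hp hqp
        linarith
      · have := (hN2 q hqP hqT).1 p hp
        linarith
    obtain ⟨h5, h6⟩ := (hgk p hp).2.2 x far
    have hne : ∀ q ∈ P, q ∉ F.T → q ≠ p := fun q _ hqT h => hqT (h ▸ hp)
    have h7 := hcT.same (x + p) fun q hqP hqT =>
      lt_of_le_of_lt hNN' (far q hqP (hne q hqP hqT))
    have h8 := hcT.sameK (x + p) fun q hqP hqT =>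
      lt_of_le_of_lt hNN (far q hqP (hne q hqP hqT))
    exact ⟨h5.trans h7.symm, h6.trans h8.symm⟩
  · intro x hx
    have far : ∀ q ∈ P, 1 / (8 * N₀) < ‖x - q‖ := by
      intro q hqP
      have h3 : ‖x‖ - ‖q‖ ≤ ‖x - q‖ := norm_sub_norm_le x q
      by_cases hqT : q ∈ F.T
      · have := hF.inside q hqT
        linarith
      · have := (hN2 q hqP hqT).2
        linarith
    have h5 := hc.same x fun q hqP _ => lt_of_le_of_lt hNN'' (far q hqP)
    have h6 := hc.sameK x fun q hqP _ => far q hqP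
    have h7 := hcT.same x fun q hqP _ => lt_of_le_of_lt hNN' (far q hqP)
    have h8 := hcT.sameK x fun q hqP _ => lt_of_le_of_lt hNN (far q hqP)
    exact ⟨h5.trans h7.symm, h6.trans h8.symm⟩

end Pool.Agent.PFU
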