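import Pool.Agent.PFT.Asm
import Pool.Agent.PFU.CAPT
import Pool.Agent.PFU.CENT
import Pool.Agent.PFU.CHIT
import Pool.Agent.PFU.CLOSET
import Pool.Agent.PFU.CUTT
import Pool.Agent.PFU.EETAU
import Pool.Agent.PFU.EQLT
import Pool.Agent.PFU.FLUXLT
import Pool.Agent.PFU.HATU
import Pool.Agent.PFU.INNB
import Pool.Agent.PFU.KNN
import Pool.Agent.PFU.LIMXT
import Pool.Agent.PFU.MODMT
import Pool.Agent.PFU.MODT
import Pool.Agent.PFU.NOISLT
import Pool.Agent.PFU.OUTB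
import Pool.Agent.PFU.PAIRC
import Pool.Agent.PFU.PENT
import Pool.Agent.PFU.PIEC
import Pool.Agent.PFU.PT
import Pool.Agent.PFU.SUBLT

/-!
# Assembly of the blocks C (caps), P (existence of the solution) and D (modified data)
-/

namespace Pool.Agent.PFU

open Pool.Agent.PenroseSph Pool.Agent.PFlow Pool.Agent.PFT

/-! ### Block C -/

theorem fCHIT : Stmt_CHIT := t_CHIT

theorem fCENT : Stmt_CENT := t_CENT fCHIT

theorem fCAPT : Stmt_CAPT := t_CAPT fCHIT fCENT fNEP fSB fCNE fCVO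

/-! ### Block P -/

theorem fPENT : Stmt_PENT := t_PENT

theorem fCLOSET : Stmt_CLOSET := t_CLOSET fPENT

theorem fPAIRC : Stmt_PAIRC := t_PAIRC

theorem fKNN : Stmt_KNN := t_KNN

theorem fLIMXT : Stmt_LIMXT := t_LIMXT fPENT fCLOSET fPAIRC fKNN

theorem fEQLT : Stmt_EQLT := t_EQLT

theorem fFLUXLT : Stmt_FLUXLT := t_FLUXLT

theorem fSUBLT : Stmt_SUBLT := t_SUBLT

theorem fNOISLT : Stmt_NOISLT := t_NOISLT

theorem fPT : Stmt_PT := PT fEQLT fFLUXLT fSUBLT fNOISLT fLIMXT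

/-! ### Block D -/

theorem fHATU : Stmt_HATU := t_HATU

theorem fEETAD : Stmt_EETAD := t_EETAD

theorem fEETAU : Stmt_EETAU := t_EETAU

theorem fCUTT : Stmt_CUTT := t_CUTT fHATU

theorem fOUTB : Stmt_OUTB := t_OUTB fCUTT

theorem fINNB : Stmt_INNB := t_INNB fCUTT fHATU

theorem fPIEC : Stmt_PIEC := t_PIEC fCAP fTRN

theorem fMODMT : Stmt_MODMT := t_MODMT

theorem fMODT : Stmt_MODT := t_MODT fPIEC fINNB fOUTB fCUTT fHATU fEETAD

end Pool.Agent.PFU
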