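import Pool.Agent.PFU.StmtsF
import Pool.Agent.PFlow.DefsX

/-!
# Comparison of metrics: every plane element has at most the area it has in another metric
-/

open MeasureTheory Filter Topology
open scoped ContDiff ENNReal

namespace Pool.Agent.PFU

open Pool.Agent.PenroseSph Pool.Agent.PFlow Pool.Agent.PFT

/-- On `O` the area elements of `g₁` are at most those of `g`: the `g`-area element of the plane
with conormal `v` is `sqrt (det g * g⁻¹(v, v))`. -/
def AreaLe (O : Set E3) (g₁ g : TensorField) : Prop :=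
  ∀ x ∈ O, ∀ v : Cov, (g₁ x).det * ev (g₁ x)⁻¹ v v ≤ (g x).det * ev (g x)⁻¹ v v

namespace COMP

theorem ev_eq (B : Bil) (v w : Cov) : ev B v w = v ⬝ᵥ (B.mulVec w) := by
  simp only [ev, dotProduct, Matrix.mulVec, Finset.mul_sum]
  refine Finset.sum_congr rfl fun i _ => Finset.sum_congr rfl fun j _ => ?_
  ring

/-- Comparison of the adjugates implies comparison of `B / det B`. -/
theorem posdef_comp {A B : Bil} (hA : A.PosDef) (hB : B.PosDef)
    (h : ∀ v : Cov, A.det * ev A⁻¹ v v ≤ B.det * ev B⁻¹ v v) (w : Cov) :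
    A.det * ev B w w ≤ B.det * ev A w w := by
  have hdA : 0 < A.det := hA.det_pos
  have hdB : 0 < B.det := hB.det_pos
  have uA : IsUnit A.det := hdA.ne'.isUnit
  have uB : IsUnit B.det := hdB.ne'.isUnit
  have hAt : A.transpose = A := by
    have := hA.isHermitian.eq
    rwa [Matrix.conjTranspose_eq_transpose_of_trivial] at this
  -- `v = B w / det B`
  set v : Cov := (B.det)⁻¹ • B.mulVec w with hv
  have h1 := h v
  have e1 : B.det * ev B⁻¹ v v = (B.det)⁻¹ * ev B w w := by
    rw [ev_eq, ev_eq, hv, Matrix.mulVec_smul, Matrix.mulVec_mulVec, Matrix.nonsing_inv_mul _ uB,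
      Matrix.one_mulVec, smul_dotProduct, dotProduct_smul, dotProduct_comm]
    simp only [smul_eq_mul]
    field_simp
  have e2 : v ⬝ᵥ w = (B.det)⁻¹ * ev B w w := by
    rw [ev_eq, hv, smul_dotProduct, dotProduct_comm, smul_eq_mul]
  clear_value v
  set z : Cov := A.det • (A⁻¹).mulVec v - w with hz
  have h2 : 0 ≤ ev A z z := by
    rw [ev_eq]
    have := hA.posSemidef.dotProduct_mulVec_nonneg z
    simpa using this
  have e3 : ev A z z = A.det ^ 2 * ev A⁻¹ v v - 2 * A.det * (v ⬝ᵥ w) + ev A w w := by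
    have a1 : A.mulVec z = A.det • v - A.mulVec w := by
      rw [hz, Matrix.mulVec_sub, Matrix.mulVec_smul, Matrix.mulVec_mulVec,
        Matrix.mul_nonsing_inv _ uA, Matrix.one_mulVec]
    have a2 : (A⁻¹).mulVec v ⬝ᵥ A.mulVec w = v ⬝ᵥ w := by
      rw [Matrix.dotProduct_mulVec, ← Matrix.mulVec_transpose, hAt, Matrix.mulVec_mulVec,
        Matrix.mul_nonsing_inv _ uA, Matrix.one_mulVec]
    rw [ev_eq, a1, hz, sub_dotProduct, dotProduct_sub, dotProduct_sub, smul_dotProduct,
      smul_dotProduct, dotProduct_smul, a2, ev_eq, ev_eq, dotProduct_comm (A⁻¹.mulVec v) v,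
      dotProduct_smul, dotProduct_comm w v]
    simp only [smul_eq_mul]
    ring
  have h3 : A.det * ((B.det)⁻¹ * ev B w w) ≤ ev A w w := by
    rw [e3, e2] at h2
    rw [e1] at h1
    nlinarith [mul_le_mul_of_nonneg_left h1 hdA.le]
  have h4 := mul_le_mul_of_nonneg_left h3 hdB.le
  calc A.det * ev B w w = B.det * (A.det * ((B.det)⁻¹ * ev B w w)) := by field_simp
    _ ≤ B.det * ev A w w := h4

/-- A field admissible for `g₁` gives a field admissible for `g` with the same divergence. -/
theorem exists_field {O : Set E3} (hO : IsOpen O) {g₁ g : TensorField} (h₁ : MetricOn O g₁)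
    (h : MetricOn O g) (hA : AreaLe O g₁ g) (X : E3 → Cov)
    (hs : ∀ i, ContDiff ℝ ∞ (fun x => X x i)) (hc : HasCompactSupport X)
    (ht : tsupport X ⊆ O) (hX : ∀ x ∈ O, ev (g₁ x) (X x) (X x) ≤ 1) :
    ∃ Y : E3 → Cov, (∀ i, ContDiff ℝ ∞ (fun x => Y x i)) ∧ HasCompactSupport Y ∧
      tsupport Y ⊆ tsupport X ∧ (∀ x ∈ O, ev (g x) (Y x) (Y x) ≤ 1) ∧
      ∀ x i, volDen g x * Y x i = volDen g₁ x * X x i := by
  set Y : E3 → Cov := fun x => (volDen g₁ x / volDen g x) • X x with hY
  have hsup : Function.support Y ⊆ Function.support X := by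
    intro x hx h0
    exact hx (by simp [hY, h0])
  have hts : tsupport Y ⊆ tsupport X := closure_mono hsup
  have hdet : ∀ {g' : TensorField}, MetricOn O g' → ∀ x ∈ O, ContDiffAt ℝ ∞ (volDen g') x := by
    intro g' h' x hx
    have hpos := (h'.posDef x hx).det_pos
    have hd : ContDiffAt ℝ ∞ (fun y => (g' y).det) x := by
      have hij : ∀ i j, ContDiffAt ℝ ∞ (fun y => g' y i j) x := fun i j =>
        (h'.smooth i j).contDiffAt (hO.mem_nhds hx)
      simp only [Matrix.det_fin_three]
      fun_prop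
    exact hd.sqrt hpos.ne'
  have hvp : ∀ {g' : TensorField}, MetricOn O g' → ∀ x ∈ O, 0 < volDen g' x := by
    intro g' h' x hx
    exact Real.sqrt_pos.2 (h'.posDef x hx).det_pos
  refine ⟨Y, ?_, ?_, hts, ?_, ?_⟩
  · intro i
    rw [contDiff_iff_contDiffAt]
    intro x
    by_cases hx : x ∈ tsupport X
    · have hxO := ht hx
      have h5 : ContDiffAt ℝ ∞ (fun y => volDen g₁ y / volDen g y * X y i) x :=
        ((hdet h₁ x hxO).div (hdet h x hxO) (hvp h x hxO).ne').mul (hs i).contDiffAt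
      exact h5
    · have h6 : (fun y => Y y i) =ᶠ[𝓝 x] fun _ => 0 := by
        filter_upwards [(isClosed_tsupport X).isOpen_compl.mem_nhds hx] with y hy
        have : X y = 0 := image_eq_zero_of_notMem_tsupport hy
        simp [hY, this]
      exact contDiffAt_const.congr_of_eventuallyEq h6
  · exact hc.mono' (hsup.trans (subset_tsupport X))
  · intro x hx
    have hp₁ := (h₁.posDef x hx).det_pos
    have hp := (h.posDef x hx).det_pos
    have h7 := posdef_comp (h₁.posDef x hx) (h.posDef x hx) (hA x hx) (X x)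
    have e : ev (g x) (Y x) (Y x) = (g₁ x).det / (g x).det * ev (g x) (X x) (X x) := by
      have e1 : ev (g x) (Y x) (Y x) = (volDen g₁ x / volDen g x) ^ 2 * ev (g x) (X x) (X x) := by
        rw [ev_eq, ev_eq]
        simp only [hY, Matrix.mulVec_smul, smul_dotProduct, dotProduct_smul, smul_eq_mul]
        ring
      rw [e1, div_pow]
      unfold volDen
      rw [Real.sq_sqrt hp₁.le, Real.sq_sqrt hp.le]
    rw [e]
    refine le_trans ?_ (hX x hx)
    rw [div_mul_eq_mul_div, div_le_iff₀ hp]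
    linarith
  · intro x i
    by_cases hx : x ∈ O
    · have := (hvp h x hx).ne'
      simp only [hY, Pi.smul_apply, smul_eq_mul]
      field_simp
    · have h8 : X x = 0 := image_eq_zero_of_notMem_tsupport fun h9 => hx (ht h9)
      simp [hY, h8]

end COMP

/-- The perimeter is monotone in the metric. -/
theorem perimeterP_mono {P : Finset E3} {g₁ g : TensorField} (h₁ : MetricOn ((P : Set E3))ᶜ g₁)
    (h : MetricOn ((P : Set E3))ᶜ g) (hA : AreaLe ((P : Set E3))ᶜ g₁ g) (U : Set E3) :
    perimeterP P g₁ U ≤ perimeterP P g U := by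
  have hO : IsOpen ((P : Set E3))ᶜ := P.finite_toSet.isClosed.isOpen_compl
  refine iSup₂_le fun X hX => ?_
  obtain ⟨Y, hY1, hY2, hY3, hY4, hY5⟩ := COMP.exists_field hO h₁ h hA X hX.smooth hX.compact
    (fun x hx hxP => hX.avoids x hxP hx) (fun x hx => hX.short x hx)
  have hY : TestFieldP P g Y := ⟨hY1, hY2, fun p hp hpt => hX.avoids p hp (hY3 hpt),
    fun x hx => hY4 x hx⟩
  refine le_trans (le_of_eq ?_) (le_iSup₂_of_le Y hY le_rfl)
  congr 1
  have e : ∀ i, (fun y => volDen g₁ y * X y i) = fun y => volDen g y * Y y i := fun i =>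
    funext fun y => (hY5 y i).symm
  simp only [e]

theorem minAreaOf_mono {P : Finset E3} {g₁ g : TensorField}
    (h₁ : MetricOn ((P : Set E3))ᶜ g₁) (h : MetricOn ((P : Set E3))ᶜ g)
    (hA : AreaLe ((P : Set E3))ᶜ g₁ g) (S : Finset E3) :
    minAreaOf P S g₁ ≤ minAreaOf P S g :=
  iInf₂_mono fun U _ => perimeterP_mono h₁ h hA U

/-- The perimeter in the exterior region is monotone in the metric. -/
theorem perimeterX_mono {g₁ g : TensorField} (h₁ : MetricOn {x : E3 | 1 < ‖x‖} g₁)
    (h : MetricOn {x : E3 | 1 < ‖x‖} g) (hA : AreaLe {x : E3 | 1 < ‖x‖} g₁ g) (U : Set E3) :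
    perimeterX g₁ U ≤ perimeterX g U := by
  have hO : IsOpen {x : E3 | 1 < ‖x‖} := isOpen_lt continuous_const continuous_norm
  refine iSup₂_le fun X hX => ?_
  obtain ⟨Y, hY1, hY2, hY3, hY4, hY5⟩ := COMP.exists_field hO h₁ h hA X hX.smooth hX.compact
    hX.outside (fun x hx => hX.short x hx)
  have hY : TestFieldX g Y := ⟨hY1, hY2, hY3.trans hX.outside, fun x hx => hY4 x hx⟩
  refine le_trans (le_of_eq ?_) (le_iSup₂_of_le Y hY le_rfl)
  congr 1
  have e : ∀ i, (fun y => volDen g₁ y * X y i) = fun y => volDen g y * Y y i := fun i =>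
    funext fun y => (hY5 y i).symm
  simp only [e]

theorem minAreaX_mono {g₁ g : TensorField} (h₁ : MetricOn {x : E3 | 1 < ‖x‖} g₁)
    (h : MetricOn {x : E3 | 1 < ‖x‖} g) (hA : AreaLe {x : E3 | 1 < ‖x‖} g₁ g) :
    minAreaX g₁ ≤ minAreaX g :=
  iInf₂_mono fun U _ => perimeterX_mono h₁ h hA U

end Pool.Agent.PFU
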