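import Pool.Agent.PFU.COMPT

/-!
# Sufficient conditions for the comparison; slices of static space-times
-/

open MeasureTheory Filter Topology
open scoped ContDiff ENNReal

namespace Pool.Agent.PFU

open Pool.Agent.PenroseSph Pool.Agent.PFlow Pool.Agent.PFT

namespace COMP

/-- the vector product -/
def crs (a b : Cov) : Cov := ![a 1 * b 2 - a 2 * b 1, a 2 * b 0 - a 0 * b 2, a 0 * b 1 - a 1 * b 0]

theorem adj_crs {A : Bil} (hA : A.IsSymm) (a b : Cov) :
    ev A.adjugate (crs a b) (crs a b) = ev A a a * ev A b b - ev A a b ^ 2 := by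
  have h1 : A 1 0 = A 0 1 := hA.apply 0 1
  have h2 : A 2 0 = A 0 2 := hA.apply 0 2
  have h3 : A 2 1 = A 1 2 := hA.apply 1 2
  simp only [ev, Fin.sum_univ_three, Matrix.adjugate_fin_three, crs, Matrix.of_apply,
    Matrix.cons_val', Matrix.cons_val_zero, Matrix.cons_val_one, Matrix.cons_val_two,
    Matrix.head_cons, Matrix.tail_cons, Matrix.head_fin_const, Matrix.empty_val',
    Matrix.cons_val_fin_one, h1, h2, h3]
  ring

theorem exists_crs (v : Cov) : ∃ a b : Cov, crs a b = v := by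
  by_cases h : v 0 = 0 ∧ v 1 = 0
  · refine ⟨![1, 0, 0], ![0, v 2, 0], ?_⟩
    ext i
    fin_cases i <;> simp [crs, h.1, h.2]
  · have hs : v 0 ^ 2 + v 1 ^ 2 ≠ 0 := by
      intro h0
      apply h
      constructor <;> nlinarith [sq_nonneg (v 0), sq_nonneg (v 1)]
    -- `a = (v1, -v0, 0)`, `b = (v × a) / |a|²`
    refine ⟨![v 1, -v 0, 0], (v 0 ^ 2 + v 1 ^ 2)⁻¹ • crs v ![v 1, -v 0, 0], ?_⟩
    ext i
    fin_cases i <;> simp [crs] <;> field_simp <;> ring

theorem two_by_two {a b c p q r : ℝ} (ha : 0 ≤ a) (hb : 0 ≤ b) (hab : c ^ 2 ≤ a * b)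
    (hp : 0 ≤ p) (hq : 0 ≤ q) (hpq : r ^ 2 ≤ p * q) :
    a * b - c ^ 2 ≤ (a + p) * (b + q) - (c + r) ^ 2 := by
  have h1 : 0 ≤ a * q + b * p := by positivity
  have h2 : (2 * (c * r)) ^ 2 ≤ (a * q + b * p) ^ 2 := by
    have h3 : (c * r) ^ 2 ≤ (a * b) * (p * q) := by
      rw [mul_pow]
      exact mul_le_mul hab hpq (sq_nonneg _) (by positivity)
    nlinarith [sq_nonneg (a * q - b * p)]
  have h4 : 2 * (c * r) ≤ a * q + b * p := abs_le_of_sq_le_sq' h2 h1 |>.2
  nlinarith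

theorem ev_comb (A : Bil) (hA : A.IsSymm) (a b : Cov) (t : ℝ) :
    ev A (t • a + b) (t • a + b) = ev A a a * (t * t) + 2 * ev A a b * t + ev A b b := by
  have h1 : A 1 0 = A 0 1 := hA.apply 0 1
  have h2 : A 2 0 = A 0 2 := hA.apply 0 2
  have h3 : A 2 1 = A 1 2 := hA.apply 1 2
  simp only [ev, Fin.sum_univ_three, Pi.add_apply, Pi.smul_apply, smul_eq_mul, h1, h2, h3]
  ring

theorem cs {A : Bil} (hA : A.IsSymm) (h : ∀ v, 0 ≤ ev A v v) (a b : Cov) :
    ev A a b ^ 2 ≤ ev A a a * ev A b b := by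
  have h1 := discrim_le_zero (a := ev A a a) (b := 2 * ev A a b) (c := ev A b b) (fun t => by
    have := h (t • a + b)
    rw [ev_comb A hA] at this
    exact this)
  unfold discrim at h1
  nlinarith

theorem ev_sub' (A B : Bil) (v w : Cov) : ev (B - A) v w = ev B v w - ev A v w := by
  simp only [ev, Fin.sum_univ_three, Matrix.sub_apply]
  ring

theorem adj_mono {A B : Bil} (hA : A.IsSymm) (hB : B.IsSymm) (h0 : ∀ v, 0 ≤ ev A v v)
    (h : ∀ v, ev A v v ≤ ev B v v) (v : Cov) : ev A.adjugate v v ≤ ev B.adjugate v v := by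
  obtain ⟨a, b, rfl⟩ := exists_crs v
  rw [adj_crs hA, adj_crs hB]
  have hH : (B - A).IsSymm := hB.sub hA
  have hH0 : ∀ v, 0 ≤ ev (B - A) v v := fun v => by
    rw [ev_sub']
    linarith [h v]
  have h5 := two_by_two (h0 a) (h0 b) (cs hA h0 a b) (hH0 a) (hH0 b) (cs hH hH0 a b)
  simp only [ev_sub'] at h5
  refine h5.trans (le_of_eq ?_)
  ring

theorem det_mul_inv {A : Bil} (hA : 0 < A.det) (v : Cov) :
    A.det * ev A⁻¹ v v = ev A.adjugate v v := by
  have e : A⁻¹ = A.det⁻¹ • A.adjugate := by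
    rw [Matrix.inv_def, Ring.inverse_eq_inv']
  rw [e]
  simp only [ev, Matrix.smul_apply, smul_eq_mul, Finset.mul_sum]
  refine Finset.sum_congr rfl fun i _ => Finset.sum_congr rfl fun j _ => ?_
  field_simp

end COMP

/-- If `g₁ ≤ g` then all plane elements have at most the `g`-area. -/
theorem areaLe_of_le {O : Set E3} {g₁ g : TensorField} (h₁ : MetricOn O g₁) (h : MetricOn O g)
    (hle : ∀ x ∈ O, ∀ v : Cov, ev (g₁ x) v v ≤ ev (g x) v v) : AreaLe O g₁ g := by
  intro x hx v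
  have p₁ := h₁.posDef x hx
  have p := h.posDef x hx
  have s₁ : (g₁ x).IsSymm := by
    have := p₁.isHermitian.eq
    rwa [Matrix.conjTranspose_eq_transpose_of_trivial] at this
  have s : (g x).IsSymm := by
    have := p.isHermitian.eq
    rwa [Matrix.conjTranspose_eq_transpose_of_trivial] at this
  rw [COMP.det_mul_inv p₁.det_pos, COMP.det_mul_inv p.det_pos]
  refine COMP.adj_mono s₁ s (fun w => ?_) (hle x hx) v
  rw [COMP.ev_eq]
  have := p₁.posSemidef.dotProduct_mulVec_nonneg w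
  simpa using this

end Pool.Agent.PFU
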