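import Pool.Agent.PFU.COMPE

/-!
# Slices of static space-times
-/

open MeasureTheory Filter Topology
open scoped ContDiff ENNReal

namespace Pool.Agent.PFU

open Pool.Agent.PenroseSph Pool.Agent.PFlow Pool.Agent.PFT

namespace COMP

/-- the integrand of the mass integral -/
noncomputable def mint (g : TensorField) (ρ : ℝ) (z : Metric.sphere (0 : E3) 1) : ℝ :=
  (∑ i, ∑ j, (pd i (fun y => g y i j) (ρ • (z : E3)) - pd j (fun y => g y i i) (ρ • (z : E3)))
      * (z : E3) j) * ρ ^ 2

theorem mint_cont {g : TensorField} {R : ℝ} (hR : 0 ≤ R)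
    (hg : ∀ i j, ContDiffOn ℝ ∞ (fun x => g x i j) {x : E3 | R < ‖x‖}) {ρ : ℝ} (hρ : R < ρ) :
    Continuous (mint g ρ) := by
  have hO : IsOpen {x : E3 | R < ‖x‖} := isOpen_lt continuous_const continuous_norm
  have hpd : ∀ k i j, Continuous fun z : Metric.sphere (0 : E3) 1 =>
      pd k (fun y => g y i j) (ρ • (z : E3)) := by
    intro k i j
    have h1 : ContinuousOn (fun x => pd k (fun y => g y i j) x) {x : E3 | R < ‖x‖} := by
      have h2 : ContinuousOn (fderiv ℝ (fun x => g x i j)) {x : E3 | R < ‖x‖} :=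
        (hg i j).continuousOn_fderiv_of_isOpen hO (by simp)
      exact h2.clm_apply continuousOn_const
    refine h1.comp_continuous (by fun_prop) (fun z => ?_)
    have hz : ‖(z : E3)‖ = 1 := by simp
    show R < ‖ρ • (z : E3)‖
    rw [norm_smul, hz, mul_one, Real.norm_eq_abs, abs_of_pos (lt_of_le_of_lt hR hρ)]
    exact hρ
  unfold mint
  refine Continuous.mul ?_ continuous_const
  refine continuous_finsetSum _ fun i _ => continuous_finsetSum _ fun j _ => ?_
  refine ((hpd i i j).sub (hpd j i i)).mul ?_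
  have : Continuous fun z : Metric.sphere (0 : E3) 1 => (z : E3) j := by fun_prop
  exact this

/-- Metrics whose first derivatives differ by `O(|x|⁻³)` have the same total mass. -/
theorem mass_congr {g g₁ : TensorField} {m C R : ℝ} (hR : 0 ≤ R)
    (hg : ∀ i j, ContDiffOn ℝ ∞ (fun x => g x i j) {x : E3 | R < ‖x‖})
    (hg₁ : ∀ i j, ContDiffOn ℝ ∞ (fun x => g₁ x i j) {x : E3 | R < ‖x‖})
    (hd : ∀ x : E3, R < ‖x‖ → ∀ i j k,
      |pd k (fun y => g y i j) x - pd k (fun y => g₁ y i j) x| ≤ C / ‖x‖ ^ 3)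
    (hm : IsTotalMass g m) : IsTotalMass g₁ m := by
  have hmi : ∀ g' ρ, massIntegral g' ρ = 1 / (16 * Real.pi) *
      ∫ z : Metric.sphere (0 : E3) 1, mint g' ρ z ∂((volume : Measure E3).toSphere) := by
    intro g' ρ
    rfl
  set μ := (volume : Measure E3).toSphere with hμ
  have hdiff : ∀ ρ, R < ρ → 0 < ρ →
      ‖massIntegral g₁ ρ - massIntegral g ρ‖ ≤
        1 / (16 * Real.pi) * (18 * |C| * μ.real Set.univ) * ρ⁻¹ := by
    intro ρ hρ hρ0
    have c1 := mint_cont hR hg hρ
    have c2 := mint_cont hR hg₁ hρ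
    have i1 : Integrable (mint g ρ) μ := by
      refine Integrable.of_bound c1.aestronglyMeasurable
        (sSup (Set.range fun z => ‖mint g ρ z‖)) ?_
      have hb : BddAbove (Set.range fun z => ‖mint g ρ z‖) :=
        (isCompact_range c1.norm).bddAbove
      exact Eventually.of_forall fun z => le_csSup hb ⟨z, rfl⟩
    have i2 : Integrable (mint g₁ ρ) μ := by
      refine Integrable.of_bound c2.aestronglyMeasurable
        (sSup (Set.range fun z => ‖mint g₁ ρ z‖)) ?_
      have hb : BddAbove (Set.range fun z => ‖mint g₁ ρ z‖) :=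
        (isCompact_range c2.norm).bddAbove
      exact Eventually.of_forall fun z => le_csSup hb ⟨z, rfl⟩
    rw [hmi, hmi, ← mul_sub, ← integral_sub i2 i1, norm_mul]
    have hbd : ∀ z, ‖mint g₁ ρ z - mint g ρ z‖ ≤ 18 * |C| * ρ⁻¹ := by
      intro z
      have hz : ‖(z : E3)‖ = 1 := by simp
      have hn : ‖ρ • (z : E3)‖ = ρ := by
        rw [norm_smul, hz, mul_one, Real.norm_eq_abs, abs_of_pos hρ0]
      have hzj : ∀ j, |(z : E3) j| ≤ 1 := by
        intro j
        have := EuclideanSpace.norm_eq (z : E3)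
        have h3 : ‖(z : E3) j‖ ≤ ‖(z : E3)‖ := PiLp.norm_apply_le _ j
        rw [hz] at h3
        exact h3
      have hk : ∀ i j k, |pd k (fun y => g₁ y i j) (ρ • (z : E3)) -
          pd k (fun y => g y i j) (ρ • (z : E3))| ≤ |C| / ρ ^ 3 := by
        intro i j k
        have := hd (ρ • (z : E3)) (by rw [hn]; exact hρ) i j k
        rw [hn, abs_sub_comm] at this
        exact this.trans (div_le_div_of_nonneg_right (le_abs_self C) (by positivity))
      have e : mint g₁ ρ z - mint g ρ z = ∑ i, ∑ j,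
          (((pd i (fun y => g₁ y i j) (ρ • (z : E3)) - pd i (fun y => g y i j) (ρ • (z : E3))) -
            (pd j (fun y => g₁ y i i) (ρ • (z : E3)) - pd j (fun y => g y i i) (ρ • (z : E3))))
            * (z : E3) j) * ρ ^ 2 := by
        unfold mint
        simp only [← Finset.sum_mul]
        rw [← sub_mul, ← Finset.sum_sub_distrib]
        congr 1
        refine Finset.sum_congr rfl fun i _ => ?_
        rw [← Finset.sum_sub_distrib]
        refine Finset.sum_congr rfl fun j _ => ?_
        ring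
      rw [e]
      have hterm : ∀ i j : Fin 3,
          ‖(((pd i (fun y => g₁ y i j) (ρ • (z : E3)) - pd i (fun y => g y i j) (ρ • (z : E3))) -
            (pd j (fun y => g₁ y i i) (ρ • (z : E3)) - pd j (fun y => g y i i) (ρ • (z : E3))))
            * (z : E3) j) * ρ ^ 2‖ ≤ 2 * |C| * ρ⁻¹ := by
        intro i j
        rw [norm_mul, norm_mul, Real.norm_eq_abs, Real.norm_eq_abs, Real.norm_eq_abs,
          abs_of_nonneg (sq_nonneg ρ)]
        have h4 := (abs_sub _ _).trans (add_le_add (hk i j i) (hk i i j))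
        have h5 := mul_le_mul h4 (hzj j) (abs_nonneg _) (by positivity)
        have h6 := mul_le_mul_of_nonneg_right h5 (sq_nonneg ρ)
        refine h6.trans (le_of_eq ?_)
        field_simp
        ring
      calc _ ≤ ∑ i : Fin 3, ∑ j : Fin 3, 2 * |C| * ρ⁻¹ :=
            (norm_sum_le _ _).trans (Finset.sum_le_sum fun i _ =>
              (norm_sum_le _ _).trans (Finset.sum_le_sum fun j _ => hterm i j))
        _ = 18 * |C| * ρ⁻¹ := by
            simp only [Finset.sum_const, Finset.card_univ, Fintype.card_fin, nsmul_eq_mul]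
            push_cast
            ring
    have h7 := norm_integral_le_of_norm_le_const (μ := μ)
      (Eventually.of_forall hbd : ∀ᵐ z ∂μ, ‖mint g₁ ρ z - mint g ρ z‖ ≤ 18 * |C| * ρ⁻¹)
    have h8 : ‖(1 / (16 * Real.pi) : ℝ)‖ = 1 / (16 * Real.pi) := by
      rw [Real.norm_eq_abs, abs_of_pos (by positivity)]
    rw [h8]
    refine (mul_le_mul_of_nonneg_left h7 (by positivity)).trans (le_of_eq ?_)
    ring
  have hlim : Tendsto (fun ρ => massIntegral g₁ ρ - massIntegral g ρ) atTop (𝓝 0) := by
    refine squeeze_zero_norm' (a := fun ρ : ℝ =>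
      1 / (16 * Real.pi) * (18 * |C| * μ.real Set.univ) * ρ⁻¹) ?_ ?_
    · filter_upwards [eventually_gt_atTop R, eventually_gt_atTop 0] with ρ h1 h2
      exact hdiff ρ h1 h2
    · have := (tendsto_inv_atTop_zero (𝕜 := ℝ)).const_mul
        (1 / (16 * Real.pi) * (18 * |C| * μ.real Set.univ))
      simpa using this
  have := hlim.add hm
  simpa [IsTotalMass] using this

end COMP

end Pool.Agent.PFU
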