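import Pool.Agent.PFU.COMPM

/-!
# Slices of static space-times
-/

open MeasureTheory Filter Topology
open scoped ContDiff ENNReal

namespace Pool.Agent.PFU

open Pool.Agent.PenroseSph Pool.Agent.PFlow Pool.Agent.PFT

/-- The metric induced on the slice `t = f(x)` of the static space-time `-φ² dt² + g`. -/
noncomputable def sliceMetric (g : TensorField) (φ f : E3 → ℝ) : TensorField := fun x =>
  g x - Matrix.of fun i j => (φ x * pd i f x) * (φ x * pd j f x)

/-- The slice is asymptotic to the slices `t = const`: `φ ∂f = O(|x|⁻¹)` with one derivative. -/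
def SliceDecay (φ f : E3 → ℝ) : Prop :=
  ∃ C R : ℝ, ∀ x : E3, R ≤ ‖x‖ → ∀ i,
    |φ x * pd i f x| ≤ C / ‖x‖ ∧ ∀ k, |pd k (fun y => φ y * pd i f y) x| ≤ C / ‖x‖ ^ 2

namespace COMP

theorem slice_apply (g : TensorField) (φ f : E3 → ℝ) (x : E3) (i j : Fin 3) :
    sliceMetric g φ f x i j = g x i j - (φ x * pd i f x) * (φ x * pd j f x) := rfl

theorem psi_smooth {O : Set E3} (hO : IsOpen O) {φ f : E3 → ℝ} (hφ : ContDiffOn ℝ ∞ φ O)
    (hf : ContDiffOn ℝ ∞ f O) (i : Fin 3) : ContDiffOn ℝ ∞ (fun x => φ x * pd i f x) O := by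
  have h1 : ContDiffOn ℝ ∞ (fderiv ℝ f) O := hf.fderiv_of_isOpen hO (by simp)
  exact hφ.mul (h1.clm_apply contDiffOn_const)

theorem slice_smooth {O : Set E3} (hO : IsOpen O) {g : TensorField} {φ f : E3 → ℝ}
    (hg : ∀ i j, ContDiffOn ℝ ∞ (fun x => g x i j) O)
    (hφ : ContDiffOn ℝ ∞ φ O) (hf : ContDiffOn ℝ ∞ f O) (i j : Fin 3) :
    ContDiffOn ℝ ∞ (fun x => sliceMetric g φ f x i j) O := by
  have h := (hg i j).sub ((psi_smooth hO hφ hf i).mul (psi_smooth hO hφ hf j))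
  exact h

theorem slice_le (g : TensorField) (φ f : E3 → ℝ) (x : E3) (v : Cov) :
    ev (sliceMetric g φ f x) v v ≤ ev (g x) v v := by
  have e : ev (sliceMetric g φ f x) v v = ev (g x) v v - (∑ i, φ x * pd i f x * v i) ^ 2 := by
    simp only [ev, slice_apply, Fin.sum_univ_three]
    ring
  rw [e]
  linarith [sq_nonneg (∑ i, φ x * pd i f x * v i)]

theorem slice_mass {O : Set E3} (hO : IsOpen O) {R₀ : ℝ} (hR₀ : {x : E3 | R₀ < ‖x‖} ⊆ O)
    {g : TensorField} {φ f : E3 → ℝ} {m : ℝ} (hg : ∀ i j, ContDiffOn ℝ ∞ (fun x => g x i j) O)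
    (hφ : ContDiffOn ℝ ∞ φ O) (hf : ContDiffOn ℝ ∞ f O) (hd : SliceDecay φ f)
    (hm : IsTotalMass g m) : IsTotalMass (sliceMetric g φ f) m := by
  obtain ⟨C, R, hC⟩ := hd
  set R₁ := max (max R R₀) 1 with hR₁
  have hsub : {x : E3 | R₁ < ‖x‖} ⊆ O := fun x hx => hR₀ (by
    have h1 : R₁ < ‖x‖ := hx
    have h2 : R₀ ≤ R₁ := (le_max_right _ _).trans (le_max_left _ _)
    exact lt_of_le_of_lt h2 h1)
  refine mass_congr (g := g) (C := 2 * C ^ 2) (R := R₁) (le_trans zero_le_one (le_max_right _ _))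
    (fun i j => (hg i j).mono hsub)
    (fun i j => (slice_smooth hO hg hφ hf i j).mono hsub) ?_ hm
  intro x hx i j k
  have hxO : x ∈ O := hsub hx
  have hxR : R ≤ ‖x‖ := by
    have h2 : R ≤ R₁ := (le_max_left _ _).trans (le_max_left _ _)
    exact h2.trans hx.le
  have hx1 : 0 < ‖x‖ := lt_of_lt_of_le one_pos ((le_max_right _ _).trans hx.le)
  have hnx := hO.mem_nhds hxO
  have dg : DifferentiableAt ℝ (fun y => g y i j) x :=
    ((hg i j).contDiffAt hnx).differentiableAt (by simp)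
  have dp : ∀ a, DifferentiableAt ℝ (fun y => φ y * pd a f y) x := fun a =>
    ((psi_smooth hO hφ hf a).contDiffAt hnx).differentiableAt (by simp)
  have e : pd k (fun y => sliceMetric g φ f y i j) x = pd k (fun y => g y i j) x -
      ((φ x * pd i f x) * pd k (fun y => φ y * pd j f y) x +
        (φ x * pd j f x) * pd k (fun y => φ y * pd i f y) x) := by
    have e0 : (fun y => sliceMetric g φ f y i j) =
        (fun y => g y i j) - ((fun y => φ y * pd i f y) * fun y => φ y * pd j f y) := by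
      funext y
      rfl
    have e1 := fderiv_sub dg ((dp i).mul (dp j))
    have e2 := fderiv_mul (dp i) (dp j)
    unfold pd at e1 e2 ⊢
    rw [e0]
    unfold pd
    rw [e1, e2]
    simp [smul_eq_mul]
  rw [e]
  obtain ⟨a1, a2⟩ := hC x hxR i
  obtain ⟨b1, b2⟩ := hC x hxR j
  have hC0 : 0 ≤ C / ‖x‖ := (abs_nonneg _).trans a1
  have c1 : |(φ x * pd i f x) * pd k (fun y => φ y * pd j f y) x| ≤ C / ‖x‖ * (C / ‖x‖ ^ 2) := by
    rw [abs_mul]
    exact mul_le_mul a1 (b2 k) (abs_nonneg _) hC0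
  have c2 : |(φ x * pd j f x) * pd k (fun y => φ y * pd i f y) x| ≤ C / ‖x‖ * (C / ‖x‖ ^ 2) := by
    rw [abs_mul]
    exact mul_le_mul b1 (a2 k) (abs_nonneg _) hC0
  have e3 : ∀ a b : ℝ, a - (a - b) = b := fun a b => by ring
  rw [e3]
  refine (abs_add_le _ _).trans ((add_le_add c1 c2).trans (le_of_eq ?_))
  field_simp
  ring

theorem momentum_zero (g : TensorField) (j : Fin 3) (x : E3) : momentumDensity g 0 j x = 0 := by
  have h0 : (fun y : E3 => (0 : TensorField) y - traceWith g 0 y • g y) = fun _ => 0 := by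
    funext y
    have : traceWith g 0 y = 0 := by simp [traceWith]
    rw [this]
    simp
  unfold momentumDensity
  rw [h0]
  simp [divergence, covDeriv, pd]

theorem energy_zero (g : TensorField) (x : E3) :
    energyDensity g 0 x = scalarCurvature g x / 2 := by
  unfold energyDensity
  have h1 : normSqWith g 0 x = 0 := by simp [normSqWith]
  have h2 : traceWith g 0 x = 0 := by simp [traceWith]
  rw [h1, h2]
  ring

theorem trg_zero (g : TensorField) (x : E3) : trg g x ((0 : TensorField) x) = 0 := by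
  simp [trg]

theorem ev_zero (v : Cov) (x : E3) : ev ((0 : TensorField) x) v v = 0 := by
  simp [ev]

theorem far_zero (g : TensorField) : FarCondition g 0 := by
  refine Or.inl ⟨1, 0, one_pos, fun x _ => ?_⟩
  have h1 := trg_zero g x
  have h2 := ev_zero (fun i => x i) x
  rw [h1, h2]
  simp

end COMP

/-- Slices of static space-times with several ends. -/
theorem static_joint (hTMU : Stmt_TMU) (hRTRD : PFT.Stmt_RTRD) (hRTFD : PFT.Stmt_RTFD)
    (P : Finset E3) (g : TensorField) (m : ℝ) (hE : SeveralEnds P g 0)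
    (hR : ∀ x : E3, x ∉ P → 0 ≤ scalarCurvature g x) (hm : IsTotalMass g m) (φ f : E3 → ℝ)
    (hφ : ContDiffOn ℝ ∞ φ ((P : Set E3))ᶜ) (hf : ContDiffOn ℝ ∞ f ((P : Set E3))ᶜ)
    (hp : ∀ x : E3, x ∉ P → (sliceMetric g φ f x).PosDef) (hd : SliceDecay φ f) :
    IsTotalMass (sliceMetric g φ f) m ∧
    (∀ T : Finset E3, T ⊆ P → T.Nonempty → Unsplit P T g →
      minAreaOf P T (sliceMetric g φ f) ≠ ⊤ ∧
      Real.sqrt ((minAreaOf P T (sliceMetric g φ f)).toReal / (16 * Real.pi)) ≤ m) ∧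
    ∀ T : Finset E3, T ⊆ P → T.Nonempty →
      ∃ 𝒯 : Finset (Finset E3), 𝒯.Nonempty ∧ (∀ S ∈ 𝒯, S.Nonempty ∧ S ⊆ T ∧ Unsplit P S g) ∧
        (∀ S ∈ 𝒯, ∀ S' ∈ 𝒯, S ≠ S' → Disjoint S S') ∧ (∀ p ∈ T, ∃ S ∈ 𝒯, p ∈ S) ∧
        minAreaOf P T g = ∑ S ∈ 𝒯, minAreaOf P S g ∧ minAreaOf P T (sliceMetric g φ f) ≠ ⊤ ∧
        Real.sqrt ((minAreaOf P T (sliceMetric g φ f)).toReal / (16 * Real.pi * 𝒯.card))
          ≤ m := by
  have hO : IsOpen ((P : Set E3))ᶜ := P.finite_toSet.isClosed.isOpen_compl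
  have hR₀ : {x : E3 | ∑ q ∈ P, ‖q‖ < ‖x‖} ⊆ ((P : Set E3))ᶜ := by
    intro x hx hxP
    have h1 : ‖x‖ ≤ ∑ q ∈ P, ‖q‖ :=
      Finset.single_le_sum (f := fun q : E3 => ‖q‖) (fun _ _ => norm_nonneg _) hxP
    exact absurd h1 (not_le.2 hx)
  have h₁ : MetricOn ((P : Set E3))ᶜ (sliceMetric g φ f) :=
    ⟨COMP.slice_smooth hO hE.metric.smooth hφ hf, fun x hx => hp x hx⟩
  have hA : AreaLe ((P : Set E3))ᶜ (sliceMetric g φ f) g :=
    areaLe_of_le h₁ hE.metric fun x _ v => COMP.slice_le g φ f x v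
  have hD : EnergyCondition P g 0 := by
    intro x hx
    rw [COMP.energy_zero]
    have : jlen g 0 x = 0 := by
      unfold jlen
      simp [COMP.momentum_zero, ev]
    rw [this]
    linarith [hR x hx]
  have hS : PlaneSignP P g 0 := by
    intro x _
    refine Or.inl fun v _ => ?_
    rw [COMP.trg_zero, COMP.ev_zero]
  exact ⟨COMP.slice_mass hO hR₀ hE.metric.smooth hφ hf hd hm,
    joint_comparison hTMU hRTRD hRTFD P g 0 m hE hD (Or.inl ⟨hS, COMP.far_zero g⟩) hm _ m h₁ hA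
      le_rfl⟩

/-- Slices of static exterior regions; `f` need not be defined on the boundary. -/
theorem static_exterior (hX : Stmt_XMAIN) (hXTRD : Stmt_XTRD) (hXTFD : Stmt_XTFD)
    (g : TensorField) (m : ℝ) (hE : Exterior g 0)
    (hR : ∀ x : E3, 1 < ‖x‖ → 0 ≤ scalarCurvature g x)
    (hH : ∀ x : E3, ‖x‖ = 1 → sphereMean g x ≤ 0) (hm : IsTotalMass g m) (φ f : E3 → ℝ)
    (hφ : ContDiffOn ℝ ∞ φ {x : E3 | 1 < ‖x‖}) (hf : ContDiffOn ℝ ∞ f {x : E3 | 1 < ‖x‖})
    (hp : ∀ x : E3, 1 < ‖x‖ → (sliceMetric g φ f x).PosDef) (hd : SliceDecay φ f) :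
    IsTotalMass (sliceMetric g φ f) m ∧ minAreaX (sliceMetric g φ f) ≠ ⊤ ∧
      Real.sqrt ((minAreaX (sliceMetric g φ f)).toReal / (16 * Real.pi)) ≤ m := by
  have hO : IsOpen {x : E3 | 1 < ‖x‖} := isOpen_lt continuous_const continuous_norm
  obtain ⟨δ, hδ, hδ1, -, -⟩ := hE.smooth
  have hsub : {x : E3 | 1 < ‖x‖} ⊆ {x : E3 | 1 - δ < ‖x‖} := fun x hx => by
    have : (1 : ℝ) < ‖x‖ := hx
    show 1 - δ < ‖x‖
    linarith
  have hg : MetricOn {x : E3 | 1 < ‖x‖} g :=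
    ⟨fun i j => (hδ1.smooth i j).mono hsub, fun x hx => hδ1.posDef x (hsub hx)⟩
  have h₁ : MetricOn {x : E3 | 1 < ‖x‖} (sliceMetric g φ f) :=
    ⟨COMP.slice_smooth hO hg.smooth hφ hf, fun x hx => hp x hx⟩
  have hA : AreaLe {x : E3 | 1 < ‖x‖} (sliceMetric g φ f) g :=
    areaLe_of_le h₁ hg fun x _ v => COMP.slice_le g φ f x v
  have hD : DominantEnergy 1 g 0 := by
    intro x hx
    rw [COMP.energy_zero]
    simp only [COMP.momentum_zero, mul_zero, Finset.sum_const_zero, Real.sqrt_zero]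
    linarith [hR x hx]
  have hS : PlaneSignX g 0 := by
    intro x _
    refine Or.inl fun v _ => ?_
    rw [COMP.trg_zero, COMP.ev_zero]
  exact ⟨COMP.slice_mass hO subset_rfl hg.smooth hφ hf hd hm,
    exterior_comparison hX hXTRD hXTFD g 0 m hE hD
      (Or.inl ⟨hS, COMP.far_zero g, fun x hx => (hH x hx).trans (abs_nonneg _)⟩) hm _ m h₁ hA
      le_rfl⟩

end Pool.Agent.PFU
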