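import Pool.Agent.PFU.COMP
import Pool.Agent.PFU.TMU
import Pool.Agent.PFlow.StmtsX2

/-!
# The theorems for metrics which are dominated by a metric of the class
-/

open MeasureTheory Filter Topology
open scoped ContDiff ENNReal

namespace Pool.Agent.PFU

open Pool.Agent.PenroseSph Pool.Agent.PFlow Pool.Agent.PFT

namespace COMP

theorem sqrt_le_of {a b : ℝ≥0∞} {c m m₁ : ℝ} (hc : 0 < c) (hab : a ≤ b) (hb : b ≠ ⊤)
    (h : Real.sqrt (b.toReal / c) ≤ m) (hm : m ≤ m₁) :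
    a ≠ ⊤ ∧ Real.sqrt (a.toReal / c) ≤ m₁ := by
  have ha : a ≠ ⊤ := ne_top_of_le_ne_top hb hab
  refine ⟨ha, le_trans (Real.sqrt_le_sqrt ?_) (h.trans hm)⟩
  exact div_le_div_of_nonneg_right (ENNReal.toReal_mono hb hab) hc.le

theorem tensor_of_competitor {P : Finset E3} {g h k : TensorField} (H : SeveralEnds P g h)
    (hE : EnergyCondition P g h) (hk : CompetitorP P g h k) :
    SeveralEnds P g k ∧ EnergyCondition P g k := by
  refine ⟨⟨H.metric, hk.tensor, hk.infinity, hk.points⟩, fun x hx => ?_⟩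
  have h1 : 0 ≤ surplus g h x := sub_nonneg.2 (hE x hx)
  have h2 := hk.energy x hx
  have h3 := TMU.surplus_eq_required g h x
  have h4 := TMU.surplus_eq_required g k x
  have h5 : 0 ≤ surplus g k x := by linarith
  exact sub_nonneg.1 h5

end COMP

/-- The theorem for several ends: `g` is the metric of data of the class, `g₁` any metric for which
all plane elements have at most the `g`-area, `m₁ ≥ m`. -/
theorem joint_comparison (hTMU : Stmt_TMU) (hRTRD : PFT.Stmt_RTRD) (hRTFD : PFT.Stmt_RTFD)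
    (P : Finset E3) (g h : TensorField) (m : ℝ) (hE : SeveralEnds P g h)
    (hD : EnergyCondition P g h)
    (hh : (PlaneSignP P g h ∧ FarCondition g h) ∨ TraceDominatedP P g h ∨
      ∀ x : E3, x ∉ P → ∀ j, divergence g (fun y => h y - traceTensor g h y) j x = 0)
    (hm : IsTotalMass g m) (g₁ : TensorField) (m₁ : ℝ) (h₁ : MetricOn ((P : Set E3))ᶜ g₁)
    (hA : AreaLe ((P : Set E3))ᶜ g₁ g) (hle : m ≤ m₁) :
    (∀ T : Finset E3, T ⊆ P → T.Nonempty → Unsplit P T g →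
      minAreaOf P T g₁ ≠ ⊤ ∧ Real.sqrt ((minAreaOf P T g₁).toReal / (16 * Real.pi)) ≤ m₁) ∧
    ∀ T : Finset E3, T ⊆ P → T.Nonempty →
      ∃ 𝒯 : Finset (Finset E3), 𝒯.Nonempty ∧ (∀ S ∈ 𝒯, S.Nonempty ∧ S ⊆ T ∧ Unsplit P S g) ∧
        (∀ S ∈ 𝒯, ∀ S' ∈ 𝒯, S ≠ S' → Disjoint S S') ∧ (∀ p ∈ T, ∃ S ∈ 𝒯, p ∈ S) ∧
        minAreaOf P T g = ∑ S ∈ 𝒯, minAreaOf P S g ∧ minAreaOf P T g₁ ≠ ⊤ ∧
        Real.sqrt ((minAreaOf P T g₁).toReal / (16 * Real.pi * 𝒯.card)) ≤ m₁ := by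
  have hk : ∃ k : TensorField, CompetitorP P g h k := by
    rcases hh with ⟨hS, hF⟩ | hT | hT
    · exact ⟨h, hE.tensor, hE.infinity, hE.points, hS, hF, fun _ _ => le_rfl⟩
    · exact ⟨traceTensor g h, hRTRD P g h hE hT⟩
    · exact ⟨traceTensor g h, hRTRD P g h hE (hRTFD P g h hE.metric hE.tensor hT)⟩
  obtain ⟨H1, H2⟩ := hTMU P g h m hE hD hk hm
  have hmono := fun S => minAreaOf_mono h₁ hE.metric hA S
  have hpi : (0 : ℝ) < 16 * Real.pi := by positivity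
  refine ⟨fun T hT hT0 hU => ?_, fun T hT hT0 => ?_⟩
  · obtain ⟨a1, a2⟩ := H1 T hT hT0 hU
    exact COMP.sqrt_le_of hpi (hmono T) a1 a2 hle
  · obtain ⟨𝒯, b1, b2, b3, b4, b5, b6, b7⟩ := H2 T hT hT0
    have hcard : (0 : ℝ) < (𝒯.card : ℝ) := by exact_mod_cast Finset.card_pos.2 b1
    exact ⟨𝒯, b1, b2, b3, b4, b5, COMP.sqrt_le_of (by positivity) (hmono T) b6 b7 hle⟩

/-- The theorem for exterior regions, in the same form. -/
theorem exterior_comparison (hX : Stmt_XMAIN) (hXTRD : Stmt_XTRD) (hXTFD : Stmt_XTFD)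
    (g h : TensorField) (m : ℝ) (hE : Exterior g h) (hD : DominantEnergy 1 g h)
    (hh : (PlaneSignX g h ∧ FarCondition g h ∧
        ∀ x : E3, ‖x‖ = 1 → sphereMean g x ≤ |sphereTr g h x|) ∨
      ((TraceDominatedX g h ∨
        ∀ x : E3, 1 < ‖x‖ → ∀ j, divergence g (fun y => h y - traceTensor g h y) j x = 0) ∧
        ∀ x : E3, ‖x‖ = 1 → sphereMean g x ≤ 2 / 3 * |trg g x (h x)|))
    (hm : IsTotalMass g m) (g₁ : TensorField) (m₁ : ℝ) (h₁ : MetricOn {x : E3 | 1 < ‖x‖} g₁)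
    (hA : AreaLe {x : E3 | 1 < ‖x‖} g₁ g) (hle : m ≤ m₁) :
    minAreaX g₁ ≠ ⊤ ∧ Real.sqrt ((minAreaX g₁).toReal / (16 * Real.pi)) ≤ m₁ := by
  have hk : ∃ k : TensorField, CompetitorX g h k := by
    rcases hh with ⟨hP, hF, hS⟩ | ⟨hT, hS⟩
    · obtain ⟨δ, hδ, -, hδ2, -⟩ := hE.smooth
      exact ⟨h, ⟨δ, hδ, hδ2⟩, hE.decay, hP, hF, fun _ _ => le_rfl, hS⟩
    · rcases hT with hT | hT
      · exact ⟨traceTensor g h, hXTRD g h hE hT hS⟩
      · exact ⟨traceTensor g h, hXTRD g h hE (hXTFD g h hE hT) hS⟩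
  obtain ⟨a1, a2⟩ := hX g h m hE hD hk hm
  obtain ⟨δ, hδ, hδ1, -, -⟩ := hE.smooth
  have hg : MetricOn {x : E3 | 1 < ‖x‖} g :=
    ⟨fun i j => (hδ1.smooth i j).mono fun x hx => by
      have : (1 : ℝ) < ‖x‖ := hx
      show 1 - δ < ‖x‖
      linarith, fun x hx => hδ1.posDef x (by
      have : (1 : ℝ) < ‖x‖ := hx
      show 1 - δ < ‖x‖
      linarith)⟩
  exact COMP.sqrt_le_of (by positivity) (minAreaX_mono h₁ hg hA) a1 a2 hle

end Pool.Agent.PFU
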