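import Pool.Agent.PFT.StmtsF
import Pool.Agent.PFlow.Pt

/-!
# Flows from several ends: definitions and interfaces

As in `Pool.Agent.PFT`, but the level set flow starts at all the ends of a set `T` at once.
-/

open MeasureTheory Filter Topology
open scoped ContDiff ENNReal

namespace Pool.Agent.PFU

open Pool.Agent.PenroseSph Pool.Agent.PFlow Pool.Agent.PFT

/-- The open ball of radius `b` about `0` minus the closed balls of radius `a` about the points of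
`T`. -/
def AnnT (T : Finset E3) (a b : ℝ) : Set E3 := {x : E3 | ‖x‖ < b ∧ ∀ p ∈ T, a < ‖x - p‖}

/-- The points of `T` are far apart and far away from the sphere of radius `b`, compared with
`a`. -/
structure Pts (T : Finset E3) (a b : ℝ) : Prop where
  ne : T.Nonempty
  pos : 0 < a
  inside : ∀ p ∈ T, ‖p‖ + 8 * a < b / 2
  disj : ∀ p ∈ T, ∀ q ∈ T, p ≠ q → 8 * a < ‖p - q‖

/-! ### Block P: existence -/

/-- The solution `u` on `AnnT T a b`, close to `1` on the balls `|x - p| ≤ a/2`, `p ∈ T`, and close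
to `0` for `|x| ≥ 2 b` (`Solution` of PFlow/Sol.lean with several inner balls). -/
structure SolutionT (T : Finset E3) (ε a b η : ℝ) (g h : TensorField) (u : E3 → ℝ)
    (G : E3 → Cov) (M : E3 → Bil) : Prop where
  cont : Continuous u
  nonneg : ∀ x, 0 ≤ u x
  le_one : ∀ x, u x ≤ 1
  inner : ∀ p ∈ T, ∀ x : E3, ‖x - p‖ ≤ a / 2 → 1 - η ≤ u x
  outer : ∀ x : E3, 2 * b ≤ ‖x‖ → u x ≤ η
  h2 : H2On (AnnT T a b) u G M
  eq : EqU (AnnT T a b) ε g h G M
  /-- the weak form of `div (|∇u|^(ε-1) ∇u) = - |∇u|^ε (tr h - (1-ε) h(ν,ν))` -/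
  flux : ∀ χ : E3 → ℝ, ContDiff ℝ 1 χ → HasCompactSupport χ → tsupport χ ⊆ AnnT T a b →
    ∫ x, len g x (G x) ^ (ε - 1) * ev (g x)⁻¹ (G x) (grad χ x) * volDen g x
      = ∫ x, len g x (G x) ^ ε * beps ε g x (G x) (h x) * χ x * volDen g x
  /-- comparison with strict subsolutions -/
  sub : ∀ K : Set E3, IsCompact K → K ⊆ {x : E3 | ‖x‖ ≤ b} →
    ∀ f : E3 → ℝ, (∀ x ∈ K, ContDiffAt ℝ 2 f x) →
      (∀ x ∈ K, grad f x ≠ 0 ∧ 0 < opN ε g h f x) →
      (∀ x ∈ frontier K, f x ≤ u x) → ∀ x ∈ K, f x ≤ u x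
  /-- comparison with strict supersolutions -/
  super : ∀ K : Set E3, IsCompact K → K ⊆ {x : E3 | ∀ p ∈ T, a ≤ ‖x - p‖} →
    ∀ f : E3 → ℝ, (∀ x ∈ K, ContDiffAt ℝ 2 f x) →
      (∀ x ∈ K, grad f x ≠ 0 ∧ opN ε g h f x < 0) →
      (∀ x ∈ frontier K, u x ≤ f x) → ∀ x ∈ K, u x ≤ f x
  noIsland : NoIsland (AnnT T a b) u

/-- **PT.** Existence of the solution `u` for the tensor `h` together with the solution `u₀ ≤ u` for
the tensor `0`. -/
def Stmt_PT : Prop :=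
  ∀ (ε a b η : ℝ) (T : Finset E3) (g h : TensorField), 0 < ε → ε < 1 → Pts T a b → 0 < η →
    MetricOn Set.univ g → TensorOn Set.univ h → TwoNonneg Set.univ g h →
    (∀ x : E3, b / 2 ≤ ‖x‖ → g x = 1 ∧ h x = 0) →
    ∃ (u₀ u : E3 → ℝ) (G₀ G : E3 → Cov) (M₀ M : E3 → Bil),
      SolutionT T ε a b η g 0 u₀ G₀ M₀ ∧ SolutionT T ε a b η g h u G M ∧ ∀ x, u₀ x ≤ u x

/-! ### Block M: the level set inequality -/

/-- The levels between `s₀` and `s₁` of `w` stay away from the boundary of `AnnT T a b`, and `w` is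
small near the inner spheres and large near the outer sphere. -/
def SepT (T : Finset E3) (a b s₀ s₁ : ℝ) (w : E3 → ℝ) : Prop :=
  ∃ a' b', a < a' ∧ b' < b ∧ (∀ p ∈ T, ‖p‖ + a' < b') ∧
    (∀ p ∈ T, ∀ q ∈ T, p ≠ q → 2 * a' < ‖p - q‖) ∧
    (∀ p ∈ T, ∀ x : E3, a < ‖x - p‖ → ‖x - p‖ ≤ a' → w x ≤ s₀) ∧
    ∀ x : E3, b' ≤ ‖x‖ → ‖x‖ < b → s₁ ≤ w x

/-- The balls of radius `a` about the points of `T` are connected with each other by the part of
`AnnT T a b` where `w < c`. -/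
def TConn (T : Finset E3) (a b c : ℝ) (w : E3 → ℝ) : Prop :=
  ∀ p ∈ T, ∀ q ∈ T,
    Conn {x : E3 | (∃ r ∈ T, ‖x - r‖ ≤ a) ∨ (x ∈ AnnT T a b ∧ w x < c)} p q

/-- **MIU.** The level set inequality with several inner balls (`Stmt_MI` of PFlow/StmtsM.lean): the
leaves have at most `|T|` components, and only one above the level `c`. -/
def Stmt_MIU : Prop := ∀ (ε a b s₀ s₁ c : ℝ) (T : Finset E3) (g h : TensorField) (w : E3 → ℝ)
  (G : E3 → Cov) (M : E3 → Bil), 0 < ε → ε < 1 → Pts T a b → s₀ < s₁ → s₀ < c →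
  MetricOn (AnnT T a b) g → TensorOn (AnnT T a b) h → H2On (AnnT T a b) w G M →
  EqW (AnnT T a b) ε g h G M → NoIsland (AnnT T a b) w → SepT T a b s₀ s₁ w →
  TConn T a b c w →
  ∀ ψ : ℝ → ℝ, ContDiff ℝ 1 ψ → HasCompactSupport ψ → tsupport ψ ⊆ Set.Ioo s₀ s₁ →
    (∀ s, 0 ≤ ψ s) →
  - ∫ x in AnnT T a b, deriv ψ (w x) * flux ε g h x (G x) (M x) * volDen g x
    ≤ 4 * Real.pi * (∫ s, ψ s)
      + 4 * Real.pi * (T.card - 1) * (∫ s in Set.Iic c, ψ s)
      - 1 / (2 - ε) * (∫ x in AnnT T a b, ψ (w x) * flux ε g h x (G x) (M x) * volDen g x)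
      - ∫ x in AnnT T a b, ψ (w x) * (len g x (G x)
          * (matter g h x (G x) + diss ε g h x (G x) (M x))) * volDen g x

end Pool.Agent.PFU
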