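import Pool.Agent.PFU.Defs

/-!
# Flows from several ends: definitions of the energy block
-/

open MeasureTheory Filter Topology
open scoped ContDiff ENNReal

namespace Pool.Agent.PFU

open Pool.Agent.PenroseSph Pool.Agent.PFlow Pool.Agent.PFT

/-- The frame: the ends `T` where the flow starts, the radius `rho` of the disjoint balls in which
the data are close to the ends, and the radius `rad` outside of which they are close to the end at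
infinity. -/
structure Fr where
  /-- the ends -/
  T : Finset E3
  /-- the inner radius -/
  rho : ℝ
  /-- the outer radius -/
  rad : ℝ

/-- The conditions on the frame. -/
structure Fr.Ok (F : Fr) : Prop where
  zero : (0 : E3) ∈ F.T
  rho_pos : 0 < F.rho
  rho_le : F.rho ≤ 1
  rad_ge : 1 ≤ F.rad
  inside : ∀ p ∈ F.T, ‖p‖ + F.rho < F.rad
  disj : ∀ p ∈ F.T, ∀ q ∈ F.T, p ≠ q → 2 * F.rho < ‖p - q‖

/-- The closed ball of radius `b` about `0` minus the open balls of radius `a` about the points of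
`T`. -/
def cAnnT (T : Finset E3) (a b : ℝ) : Set E3 := {x : E3 | ‖x‖ ≤ b ∧ ∀ p ∈ T, a ≤ ‖x - p‖}

/-- The modified metric (`modG` of PFlow/DefsE.lean with cut-offs at all the ends of `T`). -/
noncomputable def modGT (T : Finset E3) (l R : ℝ) (g : TensorField) : TensorField := fun x =>
  1 + (kap (‖x‖ / l) * chiN T R x) • (g x - 1)

/-- The modified tensor (`modH` of PFlow/DefsE.lean with cut-offs at all the ends of `T`). -/
noncomputable def modHT (T : Finset E3) (η l R : ℝ) (g h : TensorField) : TensorField := fun x =>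
  (kap (2 * ‖x‖ / l) * chiN T (R / 2) x) • hat η g h x

/-- The radial barrier estimates with constant `C`: in the balls of radius `rho` about the ends `T`
and outside the ball of radius `rad`, for the tensor `h` and for the tensor `0`. -/
structure Barrier (F : Fr) (C R : ℝ) (g h : TensorField) : Prop where
  inn : ∀ ε : ℝ, 0 < ε → ε ≤ 1 → ∀ p ∈ F.T, ∀ x : E3, 1 / (8 * R) ≤ ‖x‖ → ‖x‖ ≤ F.rho →
    BarAt ε C (shift p g) (shift p h) x ∧ BarAt ε C (shift p g) 0 x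
  out : ∀ ε : ℝ, 0 < ε → ε ≤ 1 → ∀ x : E3, F.rad ≤ ‖x‖ → BarAt ε C g h x ∧ BarAt ε C g 0 x

/-- The modified data (`Modified` of PFlow/DefsE.lean for several ends): `C` is a constant
independent of `ℓ`, `R` and of the defect `e`. -/
structure ModifiedT (F : Fr) (g h : TensorField) (C l R : ℝ) (g' h' : TensorField) (e : E3 → ℝ) :
    Prop where
  metric : MetricOn Set.univ g'
  tensor : TensorOn Set.univ h'
  twoNonneg : TwoNonneg Set.univ g' h'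
  same : ∀ x : E3, (∀ p ∈ F.T, 1 / (16 * R) < ‖x - p‖) → ‖x‖ < l → g' x = g x
  flat : ∀ x : E3, 2 * l ≤ ‖x‖ → g' x = 1
  supp : ∀ x : E3, l ≤ ‖x‖ → h' x = 0
  barrier : Barrier F C R g' h'
  decay1 : DecayFrom C F.rad g' 0
  hsmall : ∀ x : E3, F.rad ≤ ‖x‖ → ∀ i j, |h' x i j| ≤ C / ‖x‖ ^ 2
  decay2 : ∀ p ∈ F.T, DecayFrom C (1 / F.rho) (inverted (shift p g)) 0
  hsmall2 : ∀ p ∈ F.T, ∀ x : E3, 1 / (8 * R) ≤ ‖x - p‖ → ‖x - p‖ ≤ F.rho →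
    nsq g' x (h' x) ≤ C * ‖x - p‖ ^ 4
  elliptic : ∀ x : E3, F.rad ≤ ‖x‖ → ∀ v : Cov, (∑ i, v i ^ 2) ≤ C * ev (g' x) v v ∧
    ev (g' x) v v ≤ C * ∑ i, v i ^ 2
  defect_cont : Continuous e
  defect_nonneg : ∀ x, 0 ≤ e x
  core : ∀ x : E3, (∀ p ∈ F.T, 1 / (8 * R) < ‖x - p‖) → ‖x‖ < l / 2 → -e x ≤ surplus g' h' x
  shell : ∀ x : E3, l / 2 < ‖x‖ → ‖x‖ < l → -e x - C * (msz (h x) / l + msz (h x) ^ 2)
    ≤ surplus g' h' x
  trans : ∀ x : E3, l < ‖x‖ → ‖x‖ < 2 * l →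
    |surplus g' h' x * volDen g' x - linR g' x / 2| ≤ C / l ^ 4
  trans_sup : ∀ x : E3, l < ‖x‖ → ‖x‖ < 2 * l → |linR g' x| ≤ C / l ^ 3
  flat_surplus : ∀ x : E3, 2 * l < ‖x‖ → surplus g' h' x = 0
  mass : ∫ x in cAnn l (2 * l), linR g' x = -(16 * Real.pi * massIntegral g l)

/-- The location of the level sets of `w = -ε log u` (`Located` of PFlow/DefsF.lean for several
ends). -/
structure LocatedT (T : Finset E3) (ε c C₂ γ κ l R : ℝ) (u : E3 → ℝ) : Prop where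
  pos : ∀ x : E3, ‖x‖ < R → 0 < u x
  outer : ∀ x : E3, 1 ≤ ‖x‖ → ‖x‖ ≤ R / 2 → |wOf ε u x - (2 - ε) * Real.log ‖x‖| ≤ γ
  outer_low : ∀ x : E3, 1 ≤ ‖x‖ → ‖x‖ < R → (2 - ε) * Real.log ‖x‖ - γ ≤ wOf ε u x
  inner : ∀ p ∈ T, ∀ x : E3, κ / l ≤ ‖x - p‖ → ‖x - p‖ ≤ 1 → 1 - u x ≤ C₂ * ‖x - p‖ ^ pe ε
  inner_half : ∀ p ∈ T, ∀ x : E3, κ / l ≤ ‖x - p‖ → ‖x - p‖ ≤ 1 / l → 1 / 2 ≤ u x
  low : ∀ x ∈ AnnT T (1 / R) R, wOf ε u x ≤ sbE ε c l → ∃ p ∈ T, ‖x - p‖ ≤ 1 / (4 * l)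
  low' : ∀ x ∈ AnnT T (1 / R) R, sbE ε c l / 4 ≤ wOf ε u x → ∀ p ∈ T, κ / l ≤ ‖x - p‖
  mid : ∀ x ∈ AnnT T (1 / R) R, ‖x‖ < 4 * l → wOf ε u x < s2E ε γ l

/-- The facts about the function `w` that the test function arguments use (`Abs` of
PFlow/DefsF.lean): the level set inequality has the extra term `K * b`, where `b` is an upper bound
of `ψ` on `s ≤ c`. -/
structure AbsT (ε : ℝ) (Ω : Set E3) (vol w X Φ D S : E3 → ℝ) (sb s₂ sM B₁ B₂ c K : ℝ) : Prop where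
  measOmega : MeasurableSet Ω
  vol_nonneg : ∀ x, 0 ≤ vol x
  X_nonneg : ∀ x, 0 ≤ X x
  D_nonneg : ∀ᵐ x ∂(volume.restrict Ω), 0 ≤ D x
  meas_w : Measurable w
  int_vol : ∀ s s', sb / 4 < s → s < s' → s' < sM →
    IntegrableOn vol (Ω ∩ {x | s ≤ w x ∧ w x ≤ s'})
  int_X : ∀ s s', sb / 4 < s → s < s' → s' < sM →
    IntegrableOn (fun x => X x ^ 3 * vol x) (Ω ∩ {x | s ≤ w x ∧ w x ≤ s'})
  meas_X : AEStronglyMeasurable X (volume.restrict Ω)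
  int_Phi : ∀ s s', sb / 4 < s → s < s' → s' < sM →
    IntegrableOn (fun x => Φ x * vol x) (Ω ∩ {x | s ≤ w x ∧ w x ≤ s'})
  int_D : ∀ s s', sb / 4 < s → s < s' → s' < sM →
    IntegrableOn (fun x => D x * vol x) (Ω ∩ {x | s ≤ w x ∧ w x ≤ s'})
  int_S : ∀ s s', sb / 4 < s → s < s' → s' < sM →
    IntegrableOn (fun x => S x * vol x) (Ω ∩ {x | s ≤ w x ∧ w x ≤ s'})
  mi : ∀ (ψ : ℝ → ℝ) (b : ℝ), ContDiff ℝ 1 ψ → (∀ s, 0 ≤ ψ s) → HasCompactSupport ψ →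
    tsupport ψ ⊆ Set.Ioo (sb / 4) sM → (∀ s, s ≤ c → ψ s ≤ b) →
    -(∫ x in Ω, deriv ψ (w x) * Φ x * vol x) ≤ 4 * Real.pi * (∫ s, ψ s) + K * b
      - 1 / (2 - ε) * (∫ x in Ω, ψ (w x) * Φ x * vol x)
      - ∫ x in Ω, ψ (w x) * (S x + D x) * vol x
  xid : ∀ ψ : ℝ → ℝ, ContDiff ℝ 1 ψ → HasCompactSupport ψ → tsupport ψ ⊆ Set.Ioo s₂ sM →
    ∫ x in Ω, ψ (w x) * Φ x * vol x
      = 1 / (2 - ε) * ∫ x in Ω, (ψ (w x) + ε * deriv ψ (w x)) * X x ^ 3 * vol x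
  window : ∀ s, s₂ ≤ s → s + 1 ≤ sM →
    ∫ x in Ω ∩ {x | s < w x ∧ w x < s + 1}, X x ^ 3 * vol x ≤ B₁
  inner : ∀ (ψ : ℝ → ℝ) (A : ℝ), ContDiff ℝ 1 ψ → HasCompactSupport ψ →
    tsupport ψ ⊆ Set.Ioo (sb / 4) sb → (∀ s, |ψ s| ≤ A ∧ |deriv ψ s| ≤ A) →
    |∫ x in Ω, ψ (w x) * Φ x * vol x| ≤ B₂ * A
  willmore : ∀ ψ : ℝ → ℝ, Continuous ψ → (∀ s, 0 ≤ ψ s) → HasCompactSupport ψ →
    tsupport ψ ⊆ Set.Ioo s₂ sM →
    4 * Real.pi * (2 - ε) * (∫ s, ψ s) - ∫ x in Ω, ψ (w x) * Φ x * vol x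
      ≤ 1 / lam ε * ∫ x in Ω, ψ (w x) * D x * vol x
  flux : ∀ ψ : ℝ → ℝ, ContDiff ℝ 1 ψ → (∀ s, 0 ≤ ψ s) → HasCompactSupport ψ →
    tsupport ψ ⊆ Set.Ioo (sb / 4) sM →
    ∫ x in Ω, deriv ψ (w x) * (Real.exp (-w x) * X x ^ (1 + ε)) * vol x ≤ 0

/-- The set `AnnT T (1/R) R`. -/
def omT (F : Fr) (D : Dat) : Set E3 := AnnT F.T (1 / D.R) D.R

/-- All hypotheses on the modified data and the solution (`Setup` of PFlow/DefsH.lean for several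
ends). -/
structure SetupT (F : Fr) (P : Par) (D : Dat) : Prop where
  frame : F.Ok
  eps_pos : 0 < P.eps
  eps_le : P.eps ≤ 1 / 2
  C_pos : 0 < P.C
  c_pos : 0 < P.c
  c_le : P.c ≤ 1
  C2_pos : 0 < P.C2
  gam_pos : 0 < P.gam
  kap_pos : 0 < P.kap
  kap_le : P.kap ≤ 1 / 8
  l_ge : 4 ≤ D.l
  l_rho : 8 / F.rho ≤ D.l
  l_rad : 8 * F.rad ≤ D.l
  R_ge : kE P.eps P.gam ^ 4 * D.l ≤ D.R
  R_ge' : 2 * D.l / P.kap ≤ D.R
  metric0 : MetricOn ((F.T : Set E3))ᶜ D.g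
  tensor0 : TensorOn ((F.T : Set E3))ᶜ D.h
  hdecay : ∀ x : E3, F.rad ≤ ‖x‖ → ∀ i j, |D.h x i j| ≤ P.C / ‖x‖ ^ 2
  ell2 : ∀ p ∈ F.T, ∀ y : E3, 1 / F.rho ≤ ‖y‖ → ∀ v : Cov,
    (∑ i, v i ^ 2) ≤ P.C * ev (inverted (shift p D.g) y) v v ∧
    ev (inverted (shift p D.g) y) v v ≤ P.C * ∑ i, v i ^ 2
  modified : ModifiedT F D.g D.h P.C D.l D.R D.g' D.h' D.e
  sol : SolutionT F.T P.eps (1 / D.R) D.R D.eta D.g' D.h' D.u D.G D.M
  located : LocatedT F.T P.eps P.c P.C2 P.gam P.kap D.l D.R D.u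
  /-- the sublevel sets above the level `2ε` are connected -/
  conn : TConn F.T (1 / D.R) D.R (2 * P.eps) (D.w P)

/-- The total defect `∫ φ e dV` over the core. -/
noncomputable def ndT (F : Fr) (P : Par) (D : Dat) : ℝ :=
  ∫ x in cAnnT F.T (P.kap / D.l) D.l ∩ {x | D.sb P / 2 ≤ D.w P x}, D.ph P x * D.e x * D.vol x

/-- Integrability over the regions between two levels. -/
def LvlIntT (F : Fr) (P : Par) (D : Dat) (f : E3 → ℝ) : Prop :=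
  ∀ s s', D.sb P / 4 < s → s < s' → s' < D.sM P →
    IntegrableOn f (omT F D ∩ {x | s ≤ D.w P x ∧ D.w P x ≤ s'})

/-- The constant `8 π (|T| - 1) ε` of the extra term. -/
noncomputable def kT (F : Fr) (P : Par) : ℝ := 8 * Real.pi * (F.T.card - 1) * P.eps

/-- The abstract facts for the solution, with the constants `B` and `B ℓ^{-(2p+1)}`. -/
def AbsOfT (F : Fr) (P : Par) (D : Dat) (B : ℝ) : Prop :=
  AbsT P.eps (omT F D) D.vol (D.w P) (D.X P) (D.Phi P) (D.Di P) (D.Su P) (D.sb P) (D.s2 P)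
    (D.sM P) B (B * D.l ^ (-(2 * pe P.eps + 1))) (2 * P.eps) (kT F P)

/-- The flux at infinity. -/
noncomputable def jT (F : Fr) (P : Par) (D : Dat) (β : ℝ → ℝ) : ℝ :=
  jInf P.eps β (omT F D) D.vol (D.w P) (D.X P) (D.s2 P)

/-- The level `se` where the test function is cut off, together with the smallness of the errors. -/
structure CutT (F : Fr) (P : Par) (D : Dat) (se : ℝ) : Prop where
  lower : D.s2 P + 1 + 2 * P.gam ≤ se
  upper : se + 1 < D.sM P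
  err : D.er P se ≤ 1
  def_le : ndT F P D ≤ 1

end Pool.Agent.PFU
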