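import Pool.Agent.PFU.StmtsL
import Pool.Agent.PFT.GAM

/-!
# GAMT: location of the outer levels for flows from several ends

The solution is compared for `|x| ≥ rad` with the radial barriers `c (Φ₊(|x|) - Φ₊(R)) / Φ₊(rad)` (from
below) and `Φ₋(|x|) / Φ₋(rad) + η` (from above).
-/

open MeasureTheory Filter Topology
open scoped ContDiff ENNReal

namespace Pool.Agent.PFU

open Pool.Agent.PenroseSph Pool.Agent.PFlow Pool.Agent.PFT

open Pool.Agent.PFT.GAMAux Pool.Agent.PFlow.Loc in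
theorem t_GAMT : Stmt_GAMT := by
  intro F ε C c₀ hF hε hε1 hC hc₀
  have hr₁ : 1 ≤ F.rad := hF.rad_ge
  set r₁ := F.rad with hr₁def
  have hPHI : Stmt_PHI := PHI
  have hBARR : Stmt_BARR := BARR RADN PHI
  have hp3 := pe_ge ε hε hε1
  have hεp := mul_pe ε hε
  set p := pe ε with hp
  set q := 2 ^ (-p) * Real.exp (-((C + 1) * Real.pi / (2 * ε))) with hq
  set E := Real.exp ((C + 1) * Real.pi / (2 * ε)) with hE
  have hC1 : 0 ≤ C + 1 := by linarith
  have hp0 : 0 < p := by linarith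
  have hp1 : 1 ≤ p := by linarith
  have hq0 : 0 < q := by positivity
  have hE1 : 1 ≤ E := Real.one_le_exp (by positivity)
  have hE0 : 0 < E := by linarith
  have hq1 : q ≤ 1 := by
    have h1 : (2 : ℝ) ^ (-p) ≤ 1 := Real.rpow_le_one_of_one_le_of_nonpos (by norm_num) (by linarith)
    have h2 : Real.exp (-((C + 1) * Real.pi / (2 * ε))) ≤ 1 := by
      rw [Real.exp_le_one_iff]
      have : 0 ≤ (C + 1) * Real.pi / (2 * ε) := by positivity
      linarith
    calc q ≤ 1 * 1 := by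
          rw [hq]
          gcongr
      _ = 1 := by ring
  have hFp : Facts p q E (phiB ε 1 (C + 1)) := facts hPHI ε (C + 1) 1 hε hε1 hC1 (Or.inl rfl)
  have hFm : Facts p q E (phiB ε (-1) (C + 1)) :=
    facts hPHI ε (C + 1) (-1) hε hε1 hC1 (Or.inr rfl)
  set Φp := phiB ε 1 (C + 1) with hΦp
  set Φm := phiB ε (-1) (C + 1) with hΦm
  set c : ℝ := min c₀ 1 with hc
  have hc0 : 0 < c := lt_min hc₀ one_pos
  have hc1 : c ≤ 1 := min_le_right _ _
  have hcc : c ≤ c₀ := min_le_left _ _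
  have hr₁0 : 0 < r₁ := by linarith
  have hr₁p : 1 ≤ r₁ ^ p := Real.one_le_rpow hr₁ hp0.le
  -- the constants
  set A : ℝ := 2 * E / (c * q) with hA
  set B : ℝ := E / q * r₁ ^ p + 1 with hB
  have hA1 : 1 ≤ A := by
    rw [hA, le_div_iff₀ (by positivity)]
    have : c * q ≤ 1 * 1 := by gcongr
    linarith
  have hEq : 1 ≤ E / q := by
    rw [le_div_iff₀ hq0]
    linarith
  have hB1 : r₁ ^ p ≤ B := by
    have : 1 * r₁ ^ p ≤ E / q * r₁ ^ p := by gcongr
    linarith
  have hB2 : 1 ≤ B := hr₁p.trans hB1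
  have hlogA : 0 ≤ Real.log A := Real.log_nonneg hA1
  have hlogB : 0 ≤ Real.log B := Real.log_nonneg hB2
  have hAinv : c * q / (2 * E) = A⁻¹ := by rw [hA, inv_div]
  have hAc : A⁻¹ ≤ c := by
    rw [← hAinv, div_le_iff₀ (by positivity)]
    have : q ≤ 2 * E := by linarith
    exact mul_le_mul_of_nonneg_left this hc0.le
  set γ : ℝ := ε * Real.log A + ε * Real.log B + 1 with hγ
  have hγ0 : 0 < γ := by positivity
  have hlA : 0 ≤ ε * Real.log A := by positivity
  have hlB : 0 ≤ ε * Real.log B := by positivity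
  refine ⟨γ, hγ0, ?_⟩
  intro l hl
  have hl1 : 1 ≤ l := by linarith
  have hl0 : 0 < l := by linarith
  refine ⟨max (16 * l) (1 / F.rho), le_max_left _ _, ?_⟩
  intro R hRa' η g h u G M hη0 hη hg hbar' sol hlow
  have hRa : 16 * l ≤ R := (le_max_left _ _).trans hRa'
  have hRrho : 1 / F.rho ≤ R := (le_max_right _ _).trans hRa'
  have hbar : ∀ x : E3, r₁ ≤ ‖x‖ → BarAt ε C g h x := fun x hx =>
    (hbar'.out ε hε (by linarith) x hx).1
  have hR16 : 16 ≤ R := by linarith
  have hR0 : 0 < R := by linarith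
  have hrR : 16 * r₁ ≤ R := by linarith
  have hηp : η ≤ R ^ (-p) := by
    refine hη.trans (Real.rpow_le_rpow_of_exponent_le (by linarith) (by linarith))
  have hRi : 1 / R < 1 := by
    rw [div_lt_one hR0]
    linarith
  have hRh : 1 / R / 2 ≤ 1 := by
    have : 0 < 1 / R := by positivity
    linarith
  have hfar : ∀ (y p : E3), p ∈ F.T → r₁ ≤ ‖y‖ → 1 / R ≤ ‖y - p‖ := by
    intro y p hp hy
    have h1 := hF.inside p hp
    have h2 := norm_sub_norm_le y p
    have h3 : 1 / R ≤ F.rho := by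
      rw [div_le_iff₀ hR0]
      have h4 := mul_le_mul_of_nonneg_left hRrho hF.rho_pos.le
      rwa [mul_one_div_cancel hF.rho_pos.ne'] at h4
    linarith
  -- the lower barrier
  have hΦ1 : 0 < Φp r₁ := hFp.pos hp0 hq0 hr₁0.le
  have hlower : ∀ x : E3, r₁ ≤ ‖x‖ → ‖x‖ ≤ R →
      c / Φp r₁ * (Φp ‖x‖ - Φp R) ≤ u x := by
    have hk : 0 < c / Φp r₁ := div_pos hc0 hΦ1
    have hx0 : ∀ x : E3, r₁ ≤ ‖x‖ → x ≠ 0 := by
      intro x hx h0
      rw [h0, norm_zero] at hx
      linarith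
    intro x hx1 hx2
    refine sol.sub {x : E3 | r₁ ≤ ‖x‖ ∧ ‖x‖ ≤ R} (isCompact_shell _ _)
      (fun y hy => hy.2)
      (fun y => c / Φp r₁ * (Φp ‖y‖ - Φp R)) ?_ ?_ ?_ x ⟨hx1, hx2⟩
    · intro y hy
      have h1 := (hBARR ε C g h y hε hε1 hC.le (hx0 y hy.1) (hg.posDef y (Set.mem_univ y))
        (hbar y hy.1) 1 (Or.inl rfl)).1
      exact contDiffAt_const.mul (h1.sub contDiffAt_const)
    · intro y hy
      have h1 := hBARR ε C g h y hε hε1 hC.le (hx0 y hy.1) (hg.posDef y (Set.mem_univ y))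
        (hbar y hy.1) 1 (Or.inl rfl)
      refine ⟨?_, h1.2.2.1 rfl _ _ hk⟩
      have h2 := grad_affine (fun y : E3 => phiB ε 1 (C + 1) ‖y‖) y (c / Φp r₁)
        (-(c / Φp r₁ * Φp R)) (h1.1.differentiableAt (by norm_num)) hk.ne' h1.2.1
      have h3 : (fun y : E3 => c / Φp r₁ * phiB ε 1 (C + 1) ‖y‖
          + -(c / Φp r₁ * Φp R)) = fun y => c / Φp r₁ * (Φp ‖y‖ - Φp R) := by
        ext y
        rw [hΦp]
        ring
      rwa [h3] at h2
    · intro y hy
      rcases frontier_shell _ _ y hy with h1 | h1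
      · have h2 : c₀ ≤ u y := hlow y (le_of_eq h1)
        have h3 : c / Φp r₁ * (Φp ‖y‖ - Φp R) ≤ c := by
          have h4 : Φp ‖y‖ - Φp R ≤ Φp r₁ := by
            have h6 := hFp.pos hp0 hq0 hR0.le
            rw [h1]
            linarith
          calc c / Φp r₁ * (Φp ‖y‖ - Φp R) ≤ c / Φp r₁ * Φp r₁ :=
                mul_le_mul_of_nonneg_left h4 hk.le
            _ = c := by field_simp
        linarith
      · have h2 := sol.nonneg y
        simp only [h1, sub_self, mul_zero]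
        exact h2
  -- the upper barrier
  have hΦR : 0 < Φm r₁ := hFm.pos hp0 hq0 hr₁0.le
  have hupper : ∀ x : E3, r₁ ≤ ‖x‖ → ‖x‖ ≤ 2 * R → u x ≤ 1 / Φm r₁ * Φm ‖x‖ + η := by
    have hk : 0 < 1 / Φm r₁ := by positivity
    have hx0 : ∀ x : E3, r₁ ≤ ‖x‖ → x ≠ 0 := by
      intro x hx h0
      rw [h0, norm_zero] at hx
      linarith
    intro x hx1 hx2
    refine sol.super {x : E3 | r₁ ≤ ‖x‖ ∧ ‖x‖ ≤ 2 * R} (isCompact_shell _ _)
      (fun y hy p hp => hfar y p hp hy.1)
      (fun y => 1 / Φm r₁ * Φm ‖y‖ + η) ?_ ?_ ?_ x ⟨hx1, hx2⟩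
    · intro y hy
      have h1 := (hBARR ε C g h y hε hε1 hC.le (hx0 y hy.1) (hg.posDef y (Set.mem_univ y))
        (hbar y hy.1) (-1) (Or.inr rfl)).1
      exact (contDiffAt_const.mul h1).add contDiffAt_const
    · intro y hy
      have h1 := hBARR ε C g h y hε hε1 hC.le (hx0 y hy.1) (hg.posDef y (Set.mem_univ y))
        (hbar y hy.1) (-1) (Or.inr rfl)
      exact ⟨grad_affine (fun y : E3 => phiB ε (-1) (C + 1) ‖y‖) y (1 / Φm r₁) η
        (h1.1.differentiableAt (by norm_num)) hk.ne' h1.2.1, h1.2.2.2 rfl _ _ hk⟩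
    · intro y hy
      rcases frontier_shell _ _ y hy with h1 | h1
      · have h2 := sol.le_one y
        have h3 : 1 / Φm r₁ * Φm ‖y‖ = 1 := by
          rw [h1]
          field_simp
        rw [h3]
        linarith
      · have h2 := sol.outer y (le_of_eq h1.symm)
        have h3 : 0 < Φm ‖y‖ := hFm.pos hp0 hq0 (norm_nonneg y)
        have h4 : 0 ≤ 1 / Φm r₁ * Φm ‖y‖ := by positivity
        linarith
  -- positivity
  have hpos : ∀ x : E3, ‖x‖ < R → 0 < u x := by
    intro x hx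
    rcases le_total ‖x‖ r₁ with h1 | h1
    · exact hc₀.trans_le (hlow x h1)
    · refine lt_of_lt_of_le ?_ (hlower x h1 hx.le)
      have h2 := hFp.anti ‖x‖ R (norm_nonneg x) hx
      exact mul_pos (div_pos hc0 hΦ1) (by linarith)
  -- (A) upper bound of w
  have hwA : ∀ x : E3, ‖x‖ < R → ∀ s, ‖x‖ ≤ s → 1 ≤ s → 2 * s ≤ R →
      wOf ε u x ≤ (2 - ε) * Real.log s + ε * Real.log A := by
    intro x hx s hs hs1 hsR
    have hs0 : 0 < s := by linarith
    have hux := hpos x hx
    have h3 : A⁻¹ * s ^ (-p) ≤ u x := by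
      rcases le_total ‖x‖ r₁ with h1 | h1
      · have h2 : s ^ (-p) ≤ 1 := Real.rpow_le_one_of_one_le_of_nonpos hs1 (by linarith)
        have h4 : A⁻¹ * s ^ (-p) ≤ c * 1 := by gcongr
        have h5 := hlow x h1
        linarith
      · have h2 := lower hFp hp1 hq0 hE0 hr₁ hc0 h1 hs hsR
        rw [hAinv] at h2
        exact h2.trans (hlower x h1 hx.le)
    have h4 : Real.log (A⁻¹ * s ^ (-p)) ≤ Real.log (u x) :=
      Real.log_le_log (by positivity) h3
    have h5 : Real.log (A⁻¹ * s ^ (-p)) = -Real.log A - p * Real.log s := by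
      rw [Real.log_mul (by positivity) (by positivity), Real.log_rpow hs0, Real.log_inv]
      ring
    unfold wOf
    rw [h5] at h4
    calc -ε * Real.log (u x) ≤ -ε * (-Real.log A - p * Real.log s) := by
          have := mul_le_mul_of_nonneg_left h4 hε.le
          linarith
      _ = ε * p * Real.log s + ε * Real.log A := by ring
      _ = (2 - ε) * Real.log s + ε * Real.log A := by rw [hεp]
  -- (B) lower bound of w
  have hwB : ∀ x : E3, 1 ≤ ‖x‖ → ‖x‖ < R →
      (2 - ε) * Real.log ‖x‖ - ε * Real.log B ≤ wOf ε u x := by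
    intro x hx1 hx2
    have hx0 : 0 < ‖x‖ := by linarith
    have hux : 0 < u x := hpos x hx2
    have hxp : 0 < ‖x‖ ^ (-p) := by positivity
    have h3 : u x ≤ B * ‖x‖ ^ (-p) := by
      rcases le_total ‖x‖ r₁ with h1 | h1
      · have h2 : (1 : ℝ) ≤ r₁ ^ p * ‖x‖ ^ (-p) := by
          rw [Real.rpow_neg hx0.le, ← div_eq_mul_inv, one_le_div (by positivity)]
          exact Real.rpow_le_rpow hx0.le h1 hp0.le
        have h4 : r₁ ^ p * ‖x‖ ^ (-p) ≤ B * ‖x‖ ^ (-p) := by gcongr
        have h5 := sol.le_one x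
        linarith
      · exact (hupper x h1 (by linarith)).trans (upper hFm hp1 hq0 hr₁ h1 hx2.le hηp)
    have h4 : Real.log (u x) ≤ Real.log (B * ‖x‖ ^ (-p)) := Real.log_le_log hux h3
    have h5 : Real.log (B * ‖x‖ ^ (-p)) = Real.log B - p * Real.log ‖x‖ := by
      rw [Real.log_mul (by positivity) (by positivity), Real.log_rpow hx0]
      ring
    unfold wOf
    rw [h5] at h4
    calc (2 - ε) * Real.log ‖x‖ - ε * Real.log B
        = -ε * (Real.log B - p * Real.log ‖x‖) := by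
          rw [← hεp]
          ring
      _ ≤ -ε * Real.log (u x) := by
          have := mul_le_mul_of_nonneg_left h4 hε.le
          linarith
  refine ⟨hpos, ?_, ?_, ?_⟩
  · intro x hx1 hx2
    have h1 := hwA x (by linarith) ‖x‖ le_rfl hx1 (by linarith)
    have h2 := hwB x hx1 (by linarith)
    rw [abs_le]
    constructor <;> linarith
  · intro x hx1 hx2
    have h2 := hwB x hx1 hx2
    linarith
  · intro x hxl
    have h1 := hwA x (by linarith) (4 * l) hxl.le (by linarith) (by linarith)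
    unfold s2E
    linarith

end Pool.Agent.PFU
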