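import Pool.Agent.PFU.StmtsM

/-!
# LVT: the level sets of a function without critical points between `α` and `β`

The relation of being connected below the level `s` on the finite set `T` does not depend on `s`;
the parts of `{α < f < β}` which belong to its classes have preconnected leaves.
-/

open MeasureTheory Filter Topology
open scoped ContDiff ENNReal

namespace Pool.Agent.PFU

open Pool.Agent.PenroseSph Pool.Agent.PFlow Pool.Agent.PFT

namespace LVT

theorem cmono {A A' : Set E3} (h : A ⊆ A') {y z : E3} (hc : Conn A y z) : Conn A' y z := by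
  obtain ⟨S, h1, h2, h3, h4⟩ := hc
  exact ⟨S, h1.trans h, h2, h3, h4⟩

theorem csymm {A : Set E3} {y z : E3} (hc : Conn A y z) : Conn A z y := by
  obtain ⟨S, h1, h2, h3, h4⟩ := hc
  exact ⟨S, h1, h2, h4, h3⟩

theorem ctrans {A : Set E3} {x y z : E3} (h1 : Conn A x y) (h2 : Conn A y z) : Conn A x z := by
  obtain ⟨S, a1, a2, a3, a4⟩ := h1
  obtain ⟨S', b1, b2, b3, b4⟩ := h2
  exact ⟨S ∪ S', Set.union_subset a1 b1, IsPreconnected.union y a4 b3 a2 b2, Or.inl a3, Or.inr b4⟩

theorem conn_iff {A : Set E3} {x p : E3} : Conn A x p ↔ x ∈ connectedComponentIn A p := by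
  constructor
  · rintro ⟨S, h1, h2, h3, h4⟩
    exact h2.subset_connectedComponentIn h4 h1 h3
  · intro h
    have hp : p ∈ A := by
      by_contra hp
      rw [connectedComponentIn_eq_empty hp] at h
      exact h
    exact ⟨connectedComponentIn A p, connectedComponentIn_subset _ _,
      isPreconnected_connectedComponentIn, h, mem_connectedComponentIn hp⟩

theorem setOf_conn (A : Set E3) (p : E3) : {x | Conn A x p} = connectedComponentIn A p := by
  ext x
  exact conn_iff

theorem clev {f : E3 → ℝ} {s s' : ℝ} (h : s ≤ s') {y z : E3} (hc : Conn {x | f x < s} y z) :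
    Conn {x | f x < s'} y z := cmono (fun _ hx => lt_of_lt_of_le hx h) hc

theorem grad_ne {f : E3 → ℝ} {x : E3} (h : fderiv ℝ f x ≠ 0) : grad f x ≠ 0 := by
  intro h0
  apply h
  have h1 : (fderiv ℝ f x : E3 →ₗ[ℝ] ℝ) = 0 := by
    refine (EuclideanSpace.basisFun (Fin 3) ℝ).toBasis.ext ?_
    intro i
    have h2 := congrFun h0 i
    simpa [grad, pd] using h2
  ext v
  exact congrArg (fun L : E3 →ₗ[ℝ] ℝ => L v) h1

/-- Points connected below the level `t` are connected below a smaller level. -/
theorem lower {f : E3 → ℝ} (hf : Continuous f) {t : ℝ} {p q : E3}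
    (h : Conn {x | f x < t} p q) : ∃ t' < t, Conn {x | f x < t'} p q := by
  obtain ⟨S, h1, h2, h3, h4⟩ := h
  have hA : IsOpen {x | f x < t} := isOpen_lt hf continuous_const
  have hDo : IsOpen (connectedComponentIn {x | f x < t} p) := hA.connectedComponentIn
  have hpD : p ∈ connectedComponentIn {x | f x < t} p := mem_connectedComponentIn (h1 h3)
  have hqD : q ∈ connectedComponentIn {x | f x < t} p :=
    h2.subset_connectedComponentIn h3 h1 h4
  have hpath : IsPathConnected (connectedComponentIn {x | f x < t} p) :=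
    (hDo.isConnected_iff_isPathConnected).mp ⟨⟨p, hpD⟩, isPreconnected_connectedComponentIn⟩
  obtain ⟨γ, hγ⟩ := hpath.joinedIn p hpD q hqD
  have hK : IsCompact (Set.range γ) := isCompact_range γ.continuous
  obtain ⟨x, hx, hmax⟩ := hK.exists_isMaxOn (Set.range_nonempty _) hf.continuousOn
  have hxt : f x < t := by
    obtain ⟨τ, rfl⟩ := hx
    exact connectedComponentIn_subset {x | f x < t} p (hγ τ)
  refine ⟨(f x + t) / 2, by linarith, Set.range γ, ?_, isPreconnected_range γ.continuous,
    ⟨0, γ.source⟩, ⟨1, γ.target⟩⟩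
  intro w hw
  have h5 : f w ≤ f x := hmax hw
  change f w < (f x + t) / 2
  linarith

/-- Points not connected below a regular level `t` are not connected below a larger level. -/
theorem upper {f : E3 → ℝ} {α β : ℝ} (hf : Continuous f) (hc : IsCompact {x | f x ∈ Set.Icc α β})
    (hs : ∀ x, f x ∈ Set.Ioo α β → ContDiffAt ℝ ∞ f x ∧ fderiv ℝ f x ≠ 0) {t : ℝ}
    (ht : t ∈ Set.Ioo α β) {p q : E3} (hp : f p ≤ α) (hq : f q ≤ α)
    (h : ¬ Conn {x | f x < t} p q) : ∃ e > 0, ¬ Conn {x | f x < t + e} p q := by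
  have hreg : RegLevel f t := by
    refine AllM.pSM f t hf ?_ ?_
    · refine hc.of_isClosed_subset (isClosed_eq hf continuous_const) ?_
      intro x hx
      have h1 : f x = t := hx
      change f x ∈ Set.Icc α β
      rw [h1]
      exact ⟨ht.1.le, ht.2.le⟩
    · intro z hz
      obtain ⟨h1, h2⟩ := hs z (by rw [hz]; exact ht)
      exact ⟨h1.of_le (by exact_mod_cast le_top), grad_ne h2⟩
  have hreg' := MFD.regLevel_neg hreg
  have e0 : ∀ c : ℝ, {x | - c < - f x} = {x | f x < c} := by
    intro c
    ext x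
    simp
  obtain ⟨e, he, hne⟩ := AllM.pFD1 (fun z => - f z) (-t) p q hf.neg hreg'
    (by linarith [ht.1]) (by linarith [ht.1]) (by rw [e0]; exact h)
  refine ⟨e, he, ?_⟩
  intro hcon
  apply hne
  have e1 : {x : E3 | -t - e < - f x} = {x | f x < t + e} := by
    ext x
    simp only [Set.mem_ofPred_eq]
    constructor <;> intro hh <;> linarith
  rw [e1]
  exact hcon

/-- The relation of being connected below a level does not depend on the level. -/
theorem indep {f : E3 → ℝ} {α β : ℝ} (hf : Continuous f) (hc : IsCompact {x | f x ∈ Set.Icc α β})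
    (hs : ∀ x, f x ∈ Set.Ioo α β → ContDiffAt ℝ ∞ f x ∧ fderiv ℝ f x ≠ 0) {s s' : ℝ}
    (h1 : s ∈ Set.Ioo α β) (h2 : s' ∈ Set.Ioo α β) {p q : E3} (hp : f p ≤ α) (hq : f q ≤ α)
    (h : Conn {x | f x < s} p q) : Conn {x | f x < s'} p q := by
  by_contra hn
  have hlt : s' < s := by
    by_contra hle
    exact hn (clev (not_lt.mp hle) h)
  obtain ⟨S, hS⟩ : ∃ S : Set ℝ, S = {c | s' ≤ c ∧ Conn {x | f x < c} p q} := ⟨_, rfl⟩
  have hsS : s ∈ S := by
    rw [hS]
    exact ⟨hlt.le, h⟩
  have hlow : ∀ c ∈ S, s' ≤ c := by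
    intro c hcS
    rw [hS] at hcS
    exact hcS.1
  have hbdd : BddBelow S := ⟨s', hlow⟩
  have ht1 : s' ≤ sInf S := le_csInf ⟨s, hsS⟩ hlow
  have ht2 : sInf S ≤ s := csInf_le hbdd hsS
  have ht : sInf S ∈ Set.Ioo α β := ⟨lt_of_lt_of_le h2.1 ht1, lt_of_le_of_lt ht2 h1.2⟩
  by_cases hR : Conn {x | f x < sInf S} p q
  · obtain ⟨t', ht', hR'⟩ := lower hf hR
    have hst : s' < sInf S := by
      rcases ht1.lt_or_eq with h3 | h3
      · exact h3
      · rw [← h3] at hR
        exact absurd hR hn
    have h3 : max t' s' ∈ S := by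
      rw [hS]
      exact ⟨le_max_right _ _, clev (le_max_left _ _) hR'⟩
    have h4 := csInf_le hbdd h3
    have h5 := max_lt ht' hst
    linarith
  · obtain ⟨e, he, hne⟩ := upper hf hc hs ht hp hq hR
    obtain ⟨c, hcS, hc'⟩ := exists_lt_of_csInf_lt ⟨s, hsS⟩ (lt_add_of_pos_right (sInf S) he)
    rw [hS] at hcS
    exact hne (clev hc'.le hcS.2)

/-- The part of `{α < f < β}` connected with `p` below the level `β`. -/
def VV (f : E3 → ℝ) (α β : ℝ) (p : E3) : Set E3 :=
  {x | α < f x ∧ ∃ s ∈ Set.Ioo α β, Conn {y | f y < s} x p}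

theorem isOpen_VV {f : E3 → ℝ} (hf : Continuous f) (α β : ℝ) (p : E3) :
    IsOpen (VV f α β p) := by
  have h1 : VV f α β p
      = {x | α < f x} ∩ ⋃ s ∈ Set.Ioo α β, connectedComponentIn {y | f y < s} p := by
    ext x
    simp only [VV, Set.mem_ofPred_eq, Set.mem_inter_iff, Set.mem_iUnion, conn_iff, exists_prop]
  rw [h1]
  exact (isOpen_lt continuous_const hf).inter (isOpen_biUnion fun s _ =>
    (isOpen_lt hf continuous_const).connectedComponentIn)

theorem VV_sub {f : E3 → ℝ} {α β : ℝ} {p x : E3} (h : x ∈ VV f α β p) :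
    f x ∈ Set.Ioo α β := by
  obtain ⟨h1, s, hs, S, hS, -, hx, -⟩ := h
  have h2 : f x < s := hS hx
  exact ⟨h1, lt_trans h2 hs.2⟩

/-- The frontier of a component of a sublevel set. -/
theorem frontier_comp {f : E3 → ℝ} (hf : Continuous f) {s : ℝ} {p x : E3}
    (hx : x ∈ frontier (connectedComponentIn {y | f y < s} p)) : f x = s := by
  have hA : IsOpen {y | f y < s} := isOpen_lt hf continuous_const
  have hGo : IsOpen (connectedComponentIn {y | f y < s} p) := hA.connectedComponentIn
  rw [hGo.frontier_eq] at hx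
  obtain ⟨h1, h2⟩ := hx
  have h3 : f x ≤ s := by
    have h4 : closure (connectedComponentIn {y | f y < s} p) ⊆ {y | f y ≤ s} :=
      closure_minimal ((connectedComponentIn_subset _ _).trans
        fun y (hy : f y < s) => (hy.le : f y ≤ s)) (isClosed_le hf continuous_const)
    exact h4 h1
  rcases h3.lt_or_eq with h4 | h4
  · exfalso
    have hDo : IsOpen (connectedComponentIn {y | f y < s} x) := hA.connectedComponentIn
    have hxD : x ∈ connectedComponentIn {y | f y < s} x := mem_connectedComponentIn h4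
    obtain ⟨y, hy1, hy2⟩ := mem_closure_iff.mp h1 _ hDo hxD
    have h5 := conn_iff.mpr hy1
    have h6 := conn_iff.mpr hy2
    exact h2 (conn_iff.mp (ctrans (csymm h5) h6))
  · exact h4

/-- The leaves. -/
theorem leaf {f : E3 → ℝ} {α β : ℝ} {T : Finset E3} (hf : Continuous f)
    (hT : ∀ p ∈ T, f p ≤ α) (hc : IsCompact {x | f x ∈ Set.Icc α β})
    (hs : ∀ x, f x ∈ Set.Ioo α β → ContDiffAt ℝ ∞ f x ∧ fderiv ℝ f x ≠ 0)
    (hsub : ∀ s ∈ Set.Ioo α β, ∀ x, f x < s → ∃ p ∈ T, Conn {y | f y < s} x p)
    (hsup : ∀ s ∈ Set.Ioo α β, IsPreconnected {x | s < f x}) {p : E3} (hp : p ∈ T) (s : ℝ) :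
    IsPreconnected (VV f α β p ∩ f ⁻¹' {s}) := by
  classical
  by_cases hsI : s ∈ Set.Ioo α β
  swap
  · have h1 : VV f α β p ∩ f ⁻¹' {s} = ∅ := by
      ext x
      simp only [Set.mem_inter_iff, Set.mem_preimage, Set.mem_singleton_iff,
        Set.mem_empty_iff_false, iff_false, not_and]
      intro hx hxs
      exact hsI (hxs ▸ VV_sub hx)
    rw [h1]
    exact isPreconnected_empty
  obtain ⟨s', hs1, hs2⟩ := exists_between hsI.2
  have hs'I : s' ∈ Set.Ioo α β := ⟨hsI.1.trans hs1, hs2⟩
  obtain ⟨G, hG⟩ : ∃ G, G = connectedComponentIn {y | f y < s'} p := ⟨_, rfl⟩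
  have hGmem : ∀ x, x ∈ G ↔ Conn {y | f y < s'} x p := by
    intro x
    rw [hG]
    exact conn_iff.symm
  have hA : IsOpen {y | f y < s'} := isOpen_lt hf continuous_const
  have hGo : IsOpen G := hG ▸ hA.connectedComponentIn
  have hpl : f p < s' := lt_of_le_of_lt (hT p hp) hs'I.1
  have hpG : p ∈ G := hG ▸ mem_connectedComponentIn hpl
  obtain ⟨k, hk⟩ : ∃ k : E3 → ℝ, k = fun x => if x ∈ G then f x else max (f x) s' := ⟨_, rfl⟩
  have hkG : ∀ x ∈ G, k x = f x := by
    intro x hx
    rw [hk]
    simp [hx]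
  have hkN : ∀ x, x ∉ G → k x = max (f x) s' := by
    intro x hx
    rw [hk]
    simp [hx]
  have hkc : Continuous k := by
    rw [hk]
    refine Continuous.if ?_ hf (hf.max continuous_const)
    intro a ha
    have h1 : a ∈ frontier (connectedComponentIn {y | f y < s'} p) := by
      rw [← hG]
      exact ha
    have h2 := frontier_comp hf h1
    rw [h2, max_self]
  -- points of `G` below `s`
  have hbel : ∀ r ∈ Set.Ioo α β, r ≤ s' → ∀ x, f x < r →
      (x ∈ G ↔ Conn {y | f y < r} x p) := by
    intro r hr hrs x hx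
    rw [hGmem]
    constructor
    · intro h
      obtain ⟨q, hq, hcq⟩ := hsub r hr x hx
      have h1 : Conn {y | f y < s'} q p := ctrans (csymm (clev hrs hcq)) h
      exact ctrans hcq (indep hf hc hs hs'I hr (hT q hq) (hT p hp) h1)
    · exact fun h => clev hrs h
  have hlow : IsPreconnected {x | k x < s} := by
    have h1 : {x | k x < s} = connectedComponentIn {y | f y < s} p := by
      rw [← setOf_conn]
      ext x
      simp only [Set.mem_ofPred_eq]
      constructor
      · intro hx
        by_cases hxG : x ∈ G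
        · rw [hkG x hxG] at hx
          exact (hbel s hsI hs1.le x hx).mp hxG
        · rw [hkN x hxG] at hx
          exact absurd (lt_of_le_of_lt (le_max_right _ _) hx) (not_lt.mpr hs1.le)
      · intro hx
        have h2 : f x < s := by
          obtain ⟨S, hS, -, hxS, -⟩ := hx
          exact hS hxS
        rw [hkG x ((hbel s hsI hs1.le x h2).mpr hx)]
        exact h2
    rw [h1]
    exact isPreconnected_connectedComponentIn
  -- every point above `s` is connected with `{s < f}`
  have hsf : {x | s < f x} ⊆ {x | s < k x} := by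
    intro x hx
    have hx' : s < f x := hx
    change s < k x
    by_cases hxG : x ∈ G
    · rw [hkG x hxG]
      exact hx'
    · rw [hkN x hxG]
      exact lt_of_lt_of_le hx' (le_max_left _ _)
  have hup1 : ∀ x, s < k x → ∃ P ⊆ {x | s < k x}, IsPreconnected P ∧ x ∈ P ∧
      {x | s < f x} ⊆ P := by
    intro x hx
    by_cases hxf : s < f x
    · exact ⟨{x | s < f x}, hsf, hsup s hsI, hxf, le_refl _⟩
    · have hxG : x ∉ G := by
        intro h
        rw [hkG x h] at hx
        exact hxf hx
      have hfx : f x < s' := lt_of_le_of_lt (not_lt.mp hxf) hs1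
      obtain ⟨D, hD⟩ : ∃ D, D = connectedComponentIn {y | f y < s'} x := ⟨_, rfl⟩
      have hDo : IsOpen D := hD ▸ hA.connectedComponentIn
      have hxD : x ∈ D := hD ▸ mem_connectedComponentIn hfx
      have hDp : IsPreconnected D := hD ▸ isPreconnected_connectedComponentIn
      have hDG : ∀ y ∈ D, y ∉ G := by
        intro y hy hyG
        rw [hD] at hy
        apply hxG
        rw [hGmem] at hyG ⊢
        exact ctrans (csymm (conn_iff.mpr hy)) hyG
      have hDs : D ⊆ {x | s < k x} := by
        intro y hy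
        change s < k y
        rw [hkN y (hDG y hy)]
        exact lt_of_lt_of_le hs1 (le_max_right _ _)
      have hmeet : ∃ y ∈ D, s < f y := by
        by_contra hno
        push Not at hno
        have hcl : closure D ⊆ {y | f y ≤ s} :=
          closure_minimal hno (isClosed_le hf continuous_const)
        have hfr : frontier D = ∅ := by
          ext y
          simp only [Set.mem_empty_iff_false, iff_false]
          intro hy
          have h3 : f y ≤ s := hcl (frontier_subset_closure hy)
          rw [hD] at hy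
          have h4 := frontier_comp hf hy
          linarith
        have hclop : IsClopen D := isClopen_iff_frontier_eq_empty.mpr hfr
        rcases isClopen_iff.mp hclop with h5 | h5
        · rw [h5] at hxD
          exact hxD
        · exact hDG p (by rw [h5]; exact Set.mem_univ _) hpG
      obtain ⟨y, hyD, hyf⟩ := hmeet
      exact ⟨D ∪ {x | s < f x}, Set.union_subset hDs hsf,
        IsPreconnected.union y hyD hyf hDp (hsup s hsI), Or.inl hxD, Set.subset_union_right⟩
  have hhigh : IsPreconnected {x | s < k x} := by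
    by_cases hne : ∃ z, s < f z
    · obtain ⟨z, hz⟩ := hne
      refine isPreconnected_of_forall z ?_
      intro x hx
      obtain ⟨P, h1, h2, h3, h4⟩ := hup1 x hx
      exact ⟨P, h1, h4 hz, h3, h2⟩
    · have h0 : ∀ x, ¬ s < k x := by
        intro x hx
        obtain ⟨P, h1, h2, h3, h4⟩ := hup1 x hx
        apply hne
        by_contra hno
        push Not at hno
        have hxG : x ∉ G := by
          intro h
          rw [hkG x h] at hx
          exact absurd hx (not_lt.mpr (hno x))
        -- the frontier of `G` would be a level set above `s`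
        have hfr : frontier G = ∅ := by
          ext y
          simp only [Set.mem_empty_iff_false, iff_false]
          intro hy
          rw [hG] at hy
          have h5 := frontier_comp hf hy
          have h6 := hno y
          linarith
        rcases isClopen_iff.mp (isClopen_iff_frontier_eq_empty.mpr hfr) with h5 | h5
        · rw [h5] at hpG
          exact hpG
        · exact hxG (by rw [h5]; exact Set.mem_univ _)
      have h1 : {x | s < k x} = ∅ := by
        ext x
        simpa using h0 x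
      rw [h1]
      exact isPreconnected_empty
  -- compactness
  obtain ⟨e, he0, he1, he2⟩ : ∃ e : ℝ, 0 < e ∧ s + e < s' ∧ α < s - e := by
    refine ⟨min ((s' - s) / 2) ((s - α) / 2), ?_, ?_, ?_⟩
    · exact lt_min (by linarith) (by linarith [hsI.1])
    · have := min_le_left ((s' - s) / 2) ((s - α) / 2)
      linarith
    · have := min_le_right ((s' - s) / 2) ((s - α) / 2)
      linarith [hsI.1]
  have hkcomp : IsCompact {x | |k x - s| ≤ e} := by
    refine hc.of_isClosed_subset (isClosed_le (hkc.sub continuous_const).abs continuous_const) ?_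
    intro x hx
    have hx' : |k x - s| ≤ e := hx
    rw [abs_le] at hx'
    have hxG : x ∈ G := by
      by_contra h
      rw [hkN x h] at hx'
      have := le_max_right (f x) s'
      linarith [hx'.2]
    rw [hkG x hxG] at hx'
    exact ⟨by linarith [hx'.1], by linarith [hx'.2]⟩
  have hkreg : ∀ x, k x = s → ContDiffAt ℝ ∞ k x ∧ fderiv ℝ k x ≠ 0 := by
    intro x hx
    have hxG : x ∈ G := by
      by_contra h
      rw [hkN x h] at hx
      have := le_max_right (f x) s'
      linarith
    have hfx : f x = s := by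
      rw [← hkG x hxG]
      exact hx
    have hev : k =ᶠ[𝓝 x] f := by
      filter_upwards [hGo.mem_nhds hxG] with y hy
      exact hkG y hy
    obtain ⟨h1, h2⟩ := hs x (by rw [hfx]; exact hsI)
    refine ⟨h1.congr_of_eventuallyEq hev, ?_⟩
    rw [hev.fderiv_eq]
    exact h2
  have hfin := Pool.Agent.PFlow.GB.all_UNIC k s e hkc he0 hkcomp hlow hhigh hkreg
  have hset : VV f α β p ∩ f ⁻¹' {s} = {x | k x = s} := by
    ext x
    simp only [Set.mem_inter_iff, Set.mem_preimage, Set.mem_singleton_iff, Set.mem_ofPred_eq]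
    constructor
    · rintro ⟨⟨-, r, hr, hcr⟩, hxs⟩
      have hxs' : f x < s' := by rw [hxs]; exact hs1
      have hxG : x ∈ G := by
        rw [hGmem]
        obtain ⟨q, hq, hcq⟩ := hsub s' hs'I x hxs'
        have h1 : Conn {y | f y < max s' r} q p :=
          ctrans (csymm (clev (le_max_left _ _) hcq)) (clev (le_max_right _ _) hcr)
        have h2 : max s' r ∈ Set.Ioo α β := ⟨lt_max_of_lt_left hs'I.1, max_lt hs'I.2 hr.2⟩
        exact ctrans hcq (indep hf hc hs h2 hs'I (hT q hq) (hT p hp) h1)
      rw [hkG x hxG]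
      exact hxs
    · intro hx
      have hxG : x ∈ G := by
        by_contra h
        rw [hkN x h] at hx
        have := le_max_right (f x) s'
        linarith
      rw [hkG x hxG] at hx
      exact ⟨⟨by rw [hx]; exact hsI.1, s', hs'I, (hGmem x).mp hxG⟩, hx⟩
  rw [hset]
  exact hfin

end LVT

open LVT in
theorem t_LVT : Stmt_LVT := by
  classical
  intro f α β T hαβ hTne hf hT hc hs hsub hsup
  obtain ⟨𝒱, h𝒱⟩ : ∃ 𝒱 : Finset (Set E3), 𝒱 = T.image (VV f α β) := ⟨_, rfl⟩
  have hmem : ∀ A ∈ 𝒱, ∃ p ∈ T, VV f α β p = A := by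
    intro A hA
    rw [h𝒱, Finset.mem_image] at hA
    exact hA
  -- related points give the same set
  have hrel : ∀ p ∈ T, ∀ q ∈ T, (∃ s ∈ Set.Ioo α β, Conn {x | f x < s} p q) →
      VV f α β p = VV f α β q := by
    intro p hp q hq hpq
    obtain ⟨s, hsI, h⟩ := hpq
    ext x
    constructor
    · rintro ⟨h1, r, hr, h2⟩
      exact ⟨h1, r, hr, ctrans h2 (indep hf hc hs hsI hr (hT p hp) (hT q hq) h)⟩
    · rintro ⟨h1, r, hr, h2⟩
      exact ⟨h1, r, hr, ctrans h2 (indep hf hc hs hsI hr (hT q hq) (hT p hp) (csymm h))⟩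
  have hdis : ∀ A ∈ 𝒱, ∀ B ∈ 𝒱, A ≠ B → Disjoint A B := by
    intro A hA B hB hAB
    obtain ⟨p, hp, rfl⟩ := hmem A hA
    obtain ⟨q, hq, rfl⟩ := hmem B hB
    rw [Set.disjoint_left]
    rintro x ⟨-, r, hr, h1⟩ ⟨-, r', hr', h2⟩
    apply hAB
    refine hrel p hp q hq ⟨max r r', ⟨lt_max_of_lt_left hr.1, max_lt hr.2 hr'.2⟩, ?_⟩
    exact ctrans (csymm (clev (le_max_left _ _) h1)) (clev (le_max_right _ _) h2)
  obtain ⟨V, hV⟩ : ∃ V : Fin 𝒱.card → Set E3, ∀ i, V i = (𝒱.equivFin.symm i : Set E3) :=
    ⟨fun i => (𝒱.equivFin.symm i : Set E3), fun _ => rfl⟩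
  refine ⟨𝒱.card, V, ?_, ?_, ?_, ?_, ?_, ?_⟩
  · rw [h𝒱]
    exact Finset.card_image_le
  · rintro ⟨s, hsI, hall⟩
    rw [Finset.card_le_one]
    intro A hA B hB
    obtain ⟨p, hp, rfl⟩ := hmem A hA
    obtain ⟨q, hq, rfl⟩ := hmem B hB
    exact hrel p hp q hq ⟨s, hsI, hall p hp q hq⟩
  · intro i
    obtain ⟨p, hp, h1⟩ := hmem _ (𝒱.equivFin.symm i).2
    rw [hV, ← h1]
    exact isOpen_VV hf α β p
  · intro i j hij
    rw [hV, hV]
    refine hdis _ (𝒱.equivFin.symm i).2 _ (𝒱.equivFin.symm j).2 ?_
    intro h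
    exact hij (𝒱.equivFin.symm.injective (Subtype.ext h))
  · ext x
    simp only [Set.mem_iUnion]
    constructor
    · rintro ⟨i, hx⟩
      obtain ⟨p, hp, h1⟩ := hmem _ (𝒱.equivFin.symm i).2
      rw [hV, ← h1] at hx
      exact VV_sub hx
    · intro hx
      have hx' : f x ∈ Set.Ioo α β := hx
      obtain ⟨s, h1, h2⟩ := exists_between hx'.2
      have hsI : s ∈ Set.Ioo α β := ⟨hx'.1.trans h1, h2⟩
      obtain ⟨p, hp, h3⟩ := hsub s hsI x h1
      have h4 : VV f α β p ∈ 𝒱 := by
        rw [h𝒱]
        exact Finset.mem_image_of_mem _ hp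
      refine ⟨𝒱.equivFin ⟨_, h4⟩, ?_⟩
      rw [hV, Equiv.symm_apply_apply]
      exact ⟨hx'.1, s, hsI, h3⟩
  · intro i s
    obtain ⟨p, hp, h1⟩ := hmem _ (𝒱.equivFin.symm i).2
    have h2 := leaf hf hT hc hs hsub hsup hp s
    rw [h1] at h2
    rw [hV]
    exact h2

end Pool.Agent.PFU
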