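import Pool.Agent.PFT.Defs
import Pool.Agent.PFlow.DefsXH

/-!
# The plane traces of `h` have one sign where the scalar curvature of `g` is at most `2 |J|`

If `|J| ≤ μ` and `R_g ≤ 2 |J|` at `x`, then `(tr h)² ≥ |h|² ≥ h(v,v)²` for every unit vector `v`. So
the hypothesis `PlaneSignP` (`PlaneSignX`) is only a condition at the points with `R_g > 2 |J|`; in
particular it is no condition where `R_g ≤ 0`.
-/

open Filter Topology
open scoped ContDiff

namespace Pool.Agent.PFU

open Pool.Agent.PenroseSph Pool.Agent.PFlow Pool.Agent.PFT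

namespace SIGN

/-- the traces of `h` over the planes of the tangent space at `x` are all nonnegative, or all
nonpositive -/
def Sg (g h : TensorField) (x : E3) : Prop :=
  (∀ v : Cov, ev (g x) v v = 1 → ev (h x) v v ≤ trg g x (h x)) ∨
  (∀ v : Cov, ev (g x) v v = 1 → trg g x (h x) ≤ ev (h x) v v)

open scoped Kronecker in
lemma nsq_nonneg {g : TensorField} {x : E3} (hg : (g x).PosDef) (B : Bil) : 0 ≤ nsq g x B := by
  have hP : ((g x)⁻¹).PosSemidef := hg.inv.posSemidef
  have hK := (hP.kronecker hP).dotProduct_mulVec_nonneg (fun p : Fin 3 × Fin 3 => B p.1 p.2)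
  have e : star (fun p : Fin 3 × Fin 3 => B p.1 p.2) ⬝ᵥ
      ((g x)⁻¹ ⊗ₖ (g x)⁻¹).mulVec (fun p : Fin 3 × Fin 3 => B p.1 p.2) = nsq g x B := by
    simp only [dotProduct, Matrix.mulVec, nsq, Finset.mul_sum, Pi.star_apply, star_trivial,
      Matrix.kroneckerMap_apply, Fintype.sum_prod_type]
    exact Finset.sum_congr rfl fun i _ => Finset.sum_congr rfl fun j _ =>
      Finset.sum_congr rfl fun k _ => Finset.sum_congr rfl fun l _ => by ring
  rwa [e] at hK

lemma swap (F : Fin 3 → Fin 3 → Fin 3 → Fin 3 → ℝ) :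
    ∑ i, ∑ j, ∑ k, ∑ l, F i j k l = ∑ k, ∑ l, ∑ i, ∑ j, F i j k l := by
  simp only [Fin.sum_univ_three]
  ring

/-- Cauchy-Schwarz: `B(v, v)² ≤ |B|²` for a unit vector `v`. -/
lemma ev_sq_le {g : TensorField} {x : E3} (hg : (g x).PosDef) (B : Bil) (v : Cov)
    (hv : ev (g x) v v = 1) : ev B v v ^ 2 ≤ nsq g x B := by
  have hdet : IsUnit (g x).det := hg.det_pos.ne'.isUnit
  have hs : ∀ i k, (g x)⁻¹ i k = (g x)⁻¹ k i := by
    have h1 := hg.inv.isHermitian
    rw [Matrix.IsHermitian, Matrix.conjTranspose_eq_transpose_of_trivial] at h1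
    intro i k
    have h2 := congrFun (congrFun h1 i) k
    rw [Matrix.transpose_apply] at h2
    exact h2.symm
  set A : Bil := (g x)⁻¹ with hA
  set w : Cov := (g x).mulVec v with hw
  have hAw : A.mulVec w = v := by
    rw [hw, Matrix.mulVec_mulVec, hA, Matrix.nonsing_inv_mul _ hdet, Matrix.one_mulVec]
  have hv1 : ∀ i, A i 0 * w 0 + A i 1 * w 1 + A i 2 * w 2 = v i := by
    intro i
    have h1 := congrFun hAw i
    simp only [Matrix.mulVec, dotProduct, Fin.sum_univ_three] at h1
    exact h1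
  have hv2 : ∀ i, A 0 i * w 0 + A 1 i * w 1 + A 2 i * w 2 = v i := by
    intro i
    rw [hs 0 i, hs 1 i, hs 2 i]
    exact hv1 i
  have hwv : ∑ i, w i * v i = 1 := by
    rw [← hv]
    unfold ev
    simp only [hw, Matrix.mulVec, dotProduct, Finset.sum_mul]
    exact Finset.sum_congr rfl fun i _ => Finset.sum_congr rfl fun j _ => by ring
  set c : ℝ := ev B v v with hc
  -- the four parts
  have s1 : ∑ i, ∑ j, ∑ k, ∑ l, B i j * (A i k * w k) * (A j l * w l) = c := by
    rw [hc]
    unfold ev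
    refine Finset.sum_congr rfl fun i _ => Finset.sum_congr rfl fun j _ => ?_
    rw [← hv1 i, ← hv1 j]
    simp only [Fin.sum_univ_three]
    ring
  have s2 : ∑ i, ∑ j, ∑ k, ∑ l, B k l * (A i k * w i) * (A j l * w j) = c := by
    rw [swap, hc]
    unfold ev
    refine Finset.sum_congr rfl fun i _ => Finset.sum_congr rfl fun j _ => ?_
    rw [← hv2 i, ← hv2 j]
    simp only [Fin.sum_univ_three]
    ring
  have s3 : ∑ i, ∑ j, ∑ k, ∑ l, w i * w j * (A i k * w k) * (A j l * w l) = 1 := by
    have h1 : ∀ i j, ∑ k, ∑ l, w i * w j * (A i k * w k) * (A j l * w l) =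
        (w i * v i) * (w j * v j) := by
      intro i j
      rw [← hv1 i, ← hv1 j]
      simp only [Fin.sum_univ_three]
      ring
    simp only [h1]
    rw [← Finset.sum_mul_sum, hwv, mul_one]
  have key : nsq g x (Matrix.of fun i j => B i j - c * (w i * w j)) = nsq g x B - c ^ 2 := by
    have h1 : nsq g x (Matrix.of fun i j => B i j - c * (w i * w j)) =
        nsq g x B - c * (∑ i, ∑ j, ∑ k, ∑ l, B i j * (A i k * w k) * (A j l * w l)) -
          c * (∑ i, ∑ j, ∑ k, ∑ l, B k l * (A i k * w i) * (A j l * w j)) +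
          c ^ 2 * (∑ i, ∑ j, ∑ k, ∑ l, w i * w j * (A i k * w k) * (A j l * w l)) := by
      unfold nsq
      simp only [Finset.mul_sum, ← Finset.sum_sub_distrib, ← Finset.sum_add_distrib,
        Matrix.of_apply]
      exact Finset.sum_congr rfl fun i _ => Finset.sum_congr rfl fun j _ =>
        Finset.sum_congr rfl fun k _ => Finset.sum_congr rfl fun l _ => by ring
    rw [h1, s1, s2, s3]
    ring
  have h2 := nsq_nonneg hg (Matrix.of fun i j => B i j - c * (w i * w j))
  rw [key] at h2
  linarith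

/-- the sign is automatic where `|J| ≤ μ` and `R_g ≤ 2 |J|` -/
lemma sg_of {g h : TensorField} {x : E3} (hg : (g x).PosDef) (hE : jlen g h x ≤ energyDensity g h x)
    (hR : scalarCurvature g x ≤ 2 * jlen g h x) : Sg g h x := by
  have h1 : nsq g x (h x) ≤ trg g x (h x) ^ 2 := by
    have e1 : normSqWith g h x = nsq g x (h x) := rfl
    have e2 : traceWith g h x = trg g x (h x) := rfl
    unfold energyDensity at hE
    rw [e1, e2] at hE
    linarith
  rcases le_total 0 (trg g x (h x)) with ht | ht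
  · left
    intro v hv
    exact (le_abs_self _).trans (abs_le_of_sq_le_sq ((ev_sq_le hg _ v hv).trans h1) ht)
  · right
    intro v hv
    have h2 : ev (h x) v v ^ 2 ≤ (-trg g x (h x)) ^ 2 := by
      rw [neg_sq]
      exact (ev_sq_le hg _ v hv).trans h1
    have h3 := abs_le_of_sq_le_sq h2 (by linarith)
    linarith [neg_abs_le (ev (h x) v v)]

/-- `PlaneSignP` is only a condition at the points with `R_g > 2 |J|`. -/
theorem planeSignP {P : Finset E3} {g h : TensorField} (hE : SeveralEnds P g h)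
    (hD : EnergyCondition P g h)
    (hs : ∀ x : E3, x ∉ P → 2 * jlen g h x < scalarCurvature g x →
      (∀ v : Cov, ev (g x) v v = 1 → ev (h x) v v ≤ trg g x (h x)) ∨
      (∀ v : Cov, ev (g x) v v = 1 → trg g x (h x) ≤ ev (h x) v v)) : PlaneSignP P g h := by
  intro x hx
  rcases lt_or_ge (2 * jlen g h x) (scalarCurvature g x) with h1 | h1
  · exact hs x hx h1
  · exact sg_of (hE.metric.posDef x (by simpa using hx)) (hD x hx) h1

/-! ### Points of the boundary -/

lemma ev_smul (B : Bil) (c : ℝ) (v : Cov) : ev B (c • v) (c • v) = c ^ 2 * ev B v v := by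
  unfold ev
  rw [Finset.mul_sum]
  refine Finset.sum_congr rfl fun i _ => ?_
  rw [Finset.mul_sum]
  refine Finset.sum_congr rfl fun j _ => ?_
  simp only [Pi.smul_apply, smul_eq_mul]
  ring

lemma ev_pos {g : TensorField} {x : E3} (hg : (g x).PosDef) {v : Cov} (hv : v ≠ 0) :
    0 < ev (g x) v v := by
  have h := hg.dotProduct_mulVec_pos hv
  have e : star v ⬝ᵥ (g x).mulVec v = ev (g x) v v := by
    simp only [dotProduct, Matrix.mulVec, ev, Finset.mul_sum, Pi.star_apply, star_trivial]
    exact Finset.sum_congr rfl fun i _ => Finset.sum_congr rfl fun j _ => by ring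
  rwa [e] at h

/-- scaling to unit length -/
lemma unit {g : TensorField} {x : E3} (hg : (g x).PosDef) {v : Cov} (hv : v ≠ 0) :
    ∃ c : ℝ, c ^ 2 * ev (g x) v v = 1 := by
  have h := ev_pos hg hv
  refine ⟨(Real.sqrt (ev (g x) v v))⁻¹, ?_⟩
  rw [inv_pow, Real.sq_sqrt h.le]
  exact inv_mul_cancel₀ h.ne'

lemma hom_left {g h : TensorField} {x : E3} (hg : (g x).PosDef)
    (hs : ∀ v : Cov, ev (g x) v v = 1 → ev (h x) v v ≤ trg g x (h x)) {v : Cov} (hv : v ≠ 0) :
    ev (h x) v v ≤ trg g x (h x) * ev (g x) v v := by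
  obtain ⟨c, hc⟩ := unit hg hv
  have h1 := hs (c • v) (by rw [ev_smul, hc])
  rw [ev_smul] at h1
  have h2 := ev_pos hg hv
  have h3 := mul_le_mul_of_nonneg_right h1 h2.le
  calc ev (h x) v v = c ^ 2 * ev (h x) v v * ev (g x) v v := by
        rw [mul_right_comm, hc, one_mul]
    _ ≤ _ := h3

lemma hom_right {g h : TensorField} {x : E3} (hg : (g x).PosDef)
    (hs : ∀ v : Cov, ev (g x) v v = 1 → trg g x (h x) ≤ ev (h x) v v) {v : Cov} (hv : v ≠ 0) :
    trg g x (h x) * ev (g x) v v ≤ ev (h x) v v := by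
  obtain ⟨c, hc⟩ := unit hg hv
  have h1 := hs (c • v) (by rw [ev_smul, hc])
  rw [ev_smul] at h1
  have h2 := ev_pos hg hv
  have h3 := mul_le_mul_of_nonneg_right h1 h2.le
  calc trg g x (h x) * ev (g x) v v ≤ c ^ 2 * ev (h x) v v * ev (g x) v v := h3
    _ = ev (h x) v v := by rw [mul_right_comm, hc, one_mul]

lemma cont_mat {g : TensorField} {x : E3} (hg : ∀ i j, ContinuousAt (fun y => g y i j) x) :
    ContinuousAt g x :=
  continuousAt_pi.2 fun i => continuousAt_pi.2 fun j => hg i j

lemma cont_ev {g : TensorField} {x : E3} (hg : ∀ i j, ContinuousAt (fun y => g y i j) x)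
    (v : Cov) : ContinuousAt (fun y => ev (g y) v v) x := by
  unfold ev
  refine tendsto_finsetSum _ fun i _ => tendsto_finsetSum _ fun j _ => ?_
  exact ((hg i j).mul continuousAt_const).mul continuousAt_const

lemma cont_trg {g h : TensorField} {x : E3} (hg : ∀ i j, ContinuousAt (fun y => g y i j) x)
    (hh : ∀ i j, ContinuousAt (fun y => h y i j) x) (hx : (g x).PosDef) :
    ContinuousAt (fun y => trg g y (h y)) x := by
  have hd : ContinuousAt (fun y => (g y).det) x :=
    (continuous_id.matrix_det (n := Fin 3)).continuousAt.comp (cont_mat hg)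
  have hadj : ∀ i j, ContinuousAt (fun y => (g y).adjugate i j) x := fun i j =>
    ((continuous_id.matrix_adjugate (n := Fin 3)).matrix_elem i j).continuousAt.comp (cont_mat hg)
  unfold trg
  refine tendsto_finsetSum _ fun i _ => tendsto_finsetSum _ fun j _ => ?_
  refine ContinuousAt.mul ?_ (hh i j)
  have e : (fun y => (g y)⁻¹ i j) = fun y => (g y).det⁻¹ * (g y).adjugate i j := by
    funext y
    rw [Matrix.inv_def, Matrix.smul_apply, smul_eq_mul, Ring.inverse_eq_inv']
  rw [e]
  exact (hd.inv₀ hx.det_pos.ne').mul (hadj i j)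

/-- `PlaneSignX` is only a condition at the points with `R_g > 2 |J|` outside of the boundary. -/
theorem planeSignX {g h : TensorField} (hE : Exterior g h) (hD : DominantEnergy 1 g h)
    (hs : ∀ x : E3, 1 < ‖x‖ → 2 * jlen g h x < scalarCurvature g x →
      (∀ v : Cov, ev (g x) v v = 1 → ev (h x) v v ≤ trg g x (h x)) ∨
      (∀ v : Cov, ev (g x) v v = 1 → trg g x (h x) ≤ ev (h x) v v)) : PlaneSignX g h := by
  obtain ⟨δ, hδ, hg, hh, -⟩ := hE.smooth
  have hin : ∀ x : E3, 1 ≤ ‖x‖ → x ∈ {x : E3 | 1 - δ < ‖x‖} := by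
    intro x hx
    show 1 - δ < ‖x‖
    linarith
  have hout : ∀ x : E3, 1 < ‖x‖ → Sg g h x := by
    intro x hx
    rcases lt_or_ge (2 * jlen g h x) (scalarCurvature g x) with h1 | h1
    · exact hs x hx h1
    · exact sg_of (hg.posDef x (hin x hx.le)) (hD x hx) h1
  have hop : IsOpen {x : E3 | 1 - δ < ‖x‖} := isOpen_lt continuous_const continuous_norm
  intro x hx
  rcases hx.lt_or_eq with hx1 | hx1
  · exact hout x hx1
  -- the points of the boundary
  have hxm : {x : E3 | 1 - δ < ‖x‖} ∈ 𝓝 x := hop.mem_nhds (hin x hx)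
  have cg : ∀ i j, ContinuousAt (fun y => g y i j) x := fun i j =>
    ((hg.smooth i j).contDiffAt hxm).continuousAt
  have ch : ∀ i j, ContinuousAt (fun y => h y i j) x := fun i j =>
    ((hh.smooth i j).contDiffAt hxm).continuousAt
  have hpx : (g x).PosDef := hg.posDef x (hin x hx)
  set y : ℕ → E3 := fun n => (1 + 1 / ((n : ℝ) + 1)) • x with hy
  have hylim : Tendsto y atTop (𝓝 x) := by
    have h1 : Tendsto (fun n : ℕ => (1 : ℝ) + 1 / ((n : ℝ) + 1)) atTop (𝓝 (1 + 0)) :=
      tendsto_const_nhds.add tendsto_one_div_add_atTop_nhds_zero_nat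
    have h2 := h1.smul_const x
    rw [add_zero, one_smul] at h2
    exact h2
  have hyn : ∀ n, 1 < ‖y n‖ := by
    intro n
    have h1 : (0 : ℝ) < 1 / ((n : ℝ) + 1) := by positivity
    rw [hy]
    simp only
    rw [norm_smul, ← hx1, mul_one, Real.norm_of_nonneg (by linarith)]
    linarith
  have hfr : ∃ᶠ n in (atTop : Filter ℕ),
      (∀ v : Cov, ev (g (y n)) v v = 1 → ev (h (y n)) v v ≤ trg g (y n) (h (y n))) ∨
      (∀ v : Cov, ev (g (y n)) v v = 1 → trg g (y n) (h (y n)) ≤ ev (h (y n)) v v) :=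
    (Eventually.of_forall fun n => hout _ (hyn n)).frequently
  have tev : ∀ v : Cov, Tendsto (fun n => ev (h (y n)) v v) atTop (𝓝 (ev (h x) v v)) := fun v =>
    (cont_ev ch v).tendsto.comp hylim
  have ttr : ∀ v : Cov, Tendsto (fun n => trg g (y n) (h (y n)) * ev (g (y n)) v v) atTop
      (𝓝 (trg g x (h x) * ev (g x) v v)) := fun v =>
    ((cont_trg cg ch hpx).tendsto.comp hylim).mul ((cont_ev cg v).tendsto.comp hylim)
  have hne : ∀ v : Cov, ev (g x) v v = 1 → v ≠ 0 := by
    rintro v hv rfl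
    simp [ev] at hv
  rcases frequently_or_distrib.1 hfr with h1 | h1
  · left
    intro v hv
    have h2 := le_of_tendsto_of_tendsto_of_frequently (tev v) (ttr v)
      (h1.mono fun n hn => hom_left (hg.posDef _ (hin _ (hyn n).le)) hn (hne v hv))
    rwa [hv, mul_one] at h2
  · right
    intro v hv
    have h2 := le_of_tendsto_of_tendsto_of_frequently (ttr v) (tev v)
      (h1.mono fun n hn => hom_right (hg.posDef _ (hin _ (hyn n).le)) hn (hne v hv))
    rwa [hv, mul_one] at h2

end SIGN

end Pool.Agent.PFU
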