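import Pool.Agent.PFU.DefsE

/-!
# Flows from several ends: areas and connectedness
-/

open MeasureTheory Filter Topology
open scoped ContDiff ENNReal

namespace Pool.Agent.PFU

open Pool.Agent.PenroseSph Pool.Agent.PFlow Pool.Agent.PFT

/-- The infimum of the areas of the surfaces that separate the ends of `S` from the end at infinity
(the other ends may lie on either side). -/
noncomputable def minAreaOf (P S : Finset E3) (g : TensorField) : ℝ≥0∞ :=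
  ⨅ (U : Set E3) (_ : RegionP P U ∧ ∀ p ∈ S, ContainsEnd p U), perimeterP P g U

/-- Separating the ends of `T` from infinity together costs less than separating them in two
groups. -/
def Unsplit (P T : Finset E3) (g : TensorField) : Prop :=
  ∀ S : Finset E3, S ⊆ T → S.Nonempty → S ≠ T →
    minAreaOf P T g < minAreaOf P S g + minAreaOf P (T \ S) g

/-- The radii of the balls: `ρ` about the points of `T` and `δ` about the other points. -/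
noncomputable def aDelT (T : Finset E3) (ρ δ : ℝ) (p : E3) : ℝ :=
  open Classical in if p ∈ T then ρ else δ

/-- MOLE: a smooth function whose gradient has energy at most slightly more than the perimeter of a
region `U`. Let `U'` be `U` together with the points `p ∈ P` whose ends are contained in `U` (an
open set) and `v = ρ_d * 1_{U'}` (mollification at a small scale `d`). With the field
`X = raise g (dv) / √(|dv|² + ν²)` (smooth, compact support away from `P`, `|X| ≤ 1`):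
`∫ |dv|² (|dv|²+ν²)^(-1/2) dV = -∫ v div(vol X) = -∫_{U'} div(ρ~_d * (vol X))`, and
`ρ~_d * (vol X) / vol` has `g`-length at most `1 + s` for small `d` by the uniform continuity of `g`
on a compact set, so it is `1 + s` times a test field. Let `ν → 0`. Finally
`|dv|^(1+ε) ≤ |dv| max(1, sup |dv|)^ε`. -/
def Stmt_MOLE : Prop :=
  ∀ (P : Finset E3) (g : TensorField) (U : Set E3) (A τ : ℝ), MetricOn ((P : Set E3))ᶜ g →
    RegionP P U → 0 ≤ A → perimeterP P g U ≤ ENNReal.ofReal A → 0 < τ →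
    ∃ (v : E3 → ℝ) (a b ε₁ : ℝ), 0 < a ∧ 0 < b ∧ 0 < ε₁ ∧ ContDiff ℝ ∞ v ∧
      (∀ x, 0 ≤ v x ∧ v x ≤ 1) ∧ (∀ x : E3, b ≤ ‖x‖ → v x = 0) ∧
      (∀ p ∈ P, ∀ x : E3, ‖x - p‖ ≤ a → v x = v p) ∧ (∀ p ∈ P, ContainsEnd p U → v p = 1) ∧
      ∀ ε : ℝ, 0 < ε → ε ≤ ε₁ → ∫ x, len g x (grad v x) ^ (1 + ε) * volDen g x ≤ A + τ

/-- FLXV [PFlow/E/FLX.lean]: the flux identity tested with `ψ(u) χ`, `χ` of compact support: insert
`ψ(v_n) χ` for smooth approximations `v_n` of `u` on `tsupport χ` and pass to the limit. -/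
def Stmt_FLXV : Prop :=
  ∀ (ε : ℝ) (U : Set E3) (g h : TensorField) (u : E3 → ℝ) (G : E3 → Cov) (M : E3 → Bil),
    0 < ε → ε < 1 → IsOpen U → MetricOn Set.univ g → TensorOn Set.univ h →
    H2On U u G M →
    (∀ χ : E3 → ℝ, ContDiff ℝ 1 χ → HasCompactSupport χ → tsupport χ ⊆ U →
      ∫ x, len g x (G x) ^ (ε - 1) * ev (g x)⁻¹ (G x) (grad χ x) * volDen g x
        = ∫ x, len g x (G x) ^ ε * beps ε g x (G x) (h x) * χ x * volDen g x) →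
    ∀ (ψ : ℝ → ℝ) (χ : E3 → ℝ), ContDiff ℝ 1 ψ → ContDiff ℝ 1 χ → HasCompactSupport χ →
      tsupport χ ⊆ U →
      (∫ x in U, deriv ψ (u x) * len g x (G x) ^ (1 + ε) * χ x * volDen g x)
          + ∫ x in U, ψ (u x) * (len g x (G x) ^ (ε - 1) * ev (g x)⁻¹ (G x) (grad χ x))
              * volDen g x
        = ∫ x in U, len g x (G x) ^ ε * beps ε g x (G x) (h x) * (ψ (u x) * χ x) * volDen g x

/-- The conditions on the constants of `LocatedT` (as in `SetupT`). -/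
structure NumT (ε c C₂ γ κ l R : ℝ) : Prop where
  eps_pos : 0 < ε
  eps_le : ε ≤ 1 / 2
  c_pos : 0 < c
  c_le : c ≤ 1
  C2_pos : 0 < C₂
  gam_pos : 0 < γ
  kap_pos : 0 < κ
  kap_le : κ ≤ 1 / 8
  l_ge : 4 ≤ l
  R_ge : kE ε γ ^ 4 * l ≤ R
  R_ge' : 2 * l / κ ≤ R

/-- FLV [inputs FLXV, `Stmt_HOLA`; for the levels see `numbers` in PFlow/E/SETW.lean]: the flux of
the solution for the tensor `0` is constant and at most the energy of any function `v` which is `1`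
near the ends of `T` and `0` near infinity. Proof. Let `Y = |∇u|^(ε-1) ∇u`, `J = ∫ ⟨Y, ∇v⟩`. For
`Ψ` nondecreasing, `0` on the levels near the outer and `1` on the levels near the inner boundary,
FLXV with a cut-off `χ = 1` where `Ψ(u) ≠ v` gives `∫ Ψ'(u) |∇u|^(1+ε) = J`; hence
`∫ φ(u) |∇u|^(1+ε) = J ∫ φ` for `φ` supported in the levels, and
`∫_{supp ∇v} |∇u|^(1+ε) ≤ J`. By Hölder `J ≤ J^(ε/(1+ε)) E^(1/(1+ε))`, so `J ≤ E`. With
`w = -ε log u`: `∫_{σ₁ ≤ w ≤ σ₂} |∇w|^(1+ε) = ε^ε J (e^σ₂ - e^σ₁) ≤ E (e^σ₂ - e^σ₁)`; then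
Hölder (HOLA) on `K`. -/
def Stmt_FLV : Prop :=
  ∀ (T : Finset E3) (ε c C₂ γ κ l R η : ℝ) (g : TensorField) (u : E3 → ℝ) (G : E3 → Cov)
    (M : E3 → Bil) (v : E3 → ℝ), NumT ε c C₂ γ κ l R → Pts T (1 / R) R →
    MetricOn Set.univ g → SolutionT T ε (1 / R) R η g 0 u G M →
    LocatedT T ε c C₂ γ κ l R u → ContDiff ℝ ∞ v → (∀ x : E3, 4 * l ≤ ‖x‖ → v x = 0) →
    (∀ p ∈ T, ∀ x : E3, ‖x - p‖ ≤ 1 / (4 * l) → v x = 1) →
    ∀ K : Set E3, IsCompact K → K ⊆ AnnT T (1 / R) R → ∀ σ₁ σ₂ : ℝ, sbE ε c l / 4 < σ₁ →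
      σ₁ < σ₂ → σ₂ ≤ s2E ε γ l →
      ∫ x in K ∩ {x | σ₁ ≤ wOf ε u x ∧ wOf ε u x ≤ σ₂},
          len g x (gOf ε u G x) * volDen g x
        ≤ ((∫ x, len g x (grad v x) ^ (1 + ε) * volDen g x) * (Real.exp σ₂ - Real.exp σ₁))
              ^ (1 / (1 + ε)) * (∫ x in K, volDen g x) ^ (ε / (1 + ε))

/-- PERD [PFT/PERC.lean with the set `T` instead of the point `q`; inputs `Stmt_PERG`, `Stmt_LAC`,
`Stmt_CUT` of PFT/StmtsA.lean]: the infimum of the areas of the surfaces that separate the ends of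
`S` from infinity is at most the mean area of the level sets, if these are cut in thin regions of the
ends of `P` outside `T`. -/
def Stmt_PERD : Prop :=
  ∀ (P T : Finset E3) (g : TensorField) (ρ r : ℝ), T ⊆ P → MetricOn ((P : Set E3))ᶜ g →
    (∀ p ∈ P, EllAt g p) → 0 < ρ → (∀ p ∈ P, ‖p‖ + ρ < r) →
    (∀ p ∈ T, ∀ q ∈ P, p ≠ q → 2 * ρ < ‖p - q‖) →
    ∃ C : ℝ, 0 < C ∧ ∀ M : ℕ, 1 ≤ M → ∃ δ : ℝ, 0 < δ ∧ δ < ρ ∧ Balls P (aDelT T ρ δ) r ∧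
      ∀ (S : Finset E3) (w : E3 → ℝ) (G : E3 → Cov) (σ : E3 → ℝ) (s₀ s₁ : ℝ), S ⊆ T →
        s₀ < s₁ → L1Approx (kset P (aDelT T ρ δ) r) w G →
        (∀ x : E3, ‖x‖ = r → s₁ < w x) → (∀ p ∈ S, ∀ x : E3, ‖x - p‖ = ρ → w x < s₀) →
        (∀ p ∈ T, p ∉ S → ∀ x : E3, ‖x - p‖ = ρ → w x = σ p) →
        ∀ A : ℝ, 0 ≤ A → LowerP P S g A →
          A * (s₁ - s₀) ≤ (1 + C / M) *
            ∫ x in kset P (aDelT T ρ δ) r ∩ {x | s₀ ≤ w x ∧ w x ≤ s₁},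
              len g x (G x) * volDen g x

/-- TRNC [input `Stmt_LAC`]: the function `w` on the part `Z` of the sublevel set, continued by a
constant. `Z` is open, and a point of `V` in the closure of `Z` where `w < c` belongs to `Z`. With
`e = (d+c)/2`, a smooth nondecreasing `Ψ` with `Ψ(s) = s` for `s ≤ d`, `Ψ(s) > d` for `s > d`,
`Ψ = m` for `s ≥ e`, the compact set `A = K ∩ closure Z ∩ {w ≤ e} ⊆ Z` and a smooth cut-off `ζ`,
`1` near `A`, with support in `Z`: `w₁ = m + ζ (Ψ(w) - m)`. -/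
def Stmt_TRNC : Prop :=
  ∀ (V K Z : Set E3) (w : E3 → ℝ) (G : E3 → Cov) (d c : ℝ), IsOpen V → IsCompact K → K ⊆ V →
    ContinuousOn w V → IsOpen Z → Z ⊆ V → (∀ x ∈ V, x ∈ closure Z → w x < c → x ∈ Z) → d < c →
    L1Approx K w G →
    ∃ (w₁ : E3 → ℝ) (G₁ : E3 → Cov) (m : ℝ), d < m ∧ L1Approx K w₁ G₁ ∧
      (∀ x ∈ K, x ∈ Z → w x ≤ d → w₁ x = w x ∧ G₁ x = G x) ∧
      (∀ x ∈ K, x ∈ Z → d < w x → d < w₁ x) ∧ (∀ x ∈ K, x ∉ Z → w₁ x = m)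

/-- CTOP [inputs PERD, TRNC]: if the ends of `T` are not connected in `{w < 2ε}` then the level
sets between `ε` and `2ε` consist of two parts which separate the ends of `S`, resp. those of
`T \ S`. Let `Z` be the union of the balls `|x - p| < ρ`, `p ∈ T`, and of `{w < 2ε}` (an open set,
as `w < ε` for `1/R < |x - p| ≤ ρ`), `Z₁` the connected component of a point `p` in `Z`,
`Z₂ = Z \ Z₁` (open), `S = T ∩ Z₁`. Apply TRNC (with `V = AnnT T (1/R) R`, `c = 2ε`, `d < 2ε`) and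
PERD to `Z₁ ∩ V` and `S`, and to `Z₂ ∩ V` and `T \ S`, and let `d → 2ε`. -/
def Stmt_CTOP : Prop :=
  ∀ (P T : Finset E3) (g : TensorField) (ρ r : ℝ), T ⊆ P → MetricOn ((P : Set E3))ᶜ g →
    (∀ p ∈ P, EllAt g p) → 0 < ρ → (∀ p ∈ P, ‖p‖ + ρ < r) →
    (∀ p ∈ T, ∀ q ∈ P, p ≠ q → 2 * ρ < ‖p - q‖) →
    ∃ C : ℝ, 0 < C ∧ ∀ M : ℕ, 1 ≤ M → ∃ δ : ℝ, 0 < δ ∧ δ < ρ ∧ Balls P (aDelT T ρ δ) r ∧
      ∀ (ε R : ℝ) (w : E3 → ℝ) (G : E3 → Cov), 0 < ε → ε ≤ 1 / 4 → 1 / R < ρ → r < R →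
        Pts T (1 / R) R → ContinuousOn w (AnnT T (1 / R) R) →
        L1Approx (kset P (aDelT T ρ δ) r) w G →
        (∀ x ∈ AnnT T (1 / R) R, (∀ p ∈ T, ‖x - p‖ ≤ ρ → w x < ε) ∧ (r ≤ ‖x‖ → 1 < w x)) →
        ¬ TConn T (1 / R) R (2 * ε) w →
        ∃ S : Finset E3, S ⊆ T ∧ S.Nonempty ∧ S ≠ T ∧ ∀ A₁ A₂ : ℝ, 0 ≤ A₁ → 0 ≤ A₂ →
          LowerP P S g A₁ → LowerP P (T \ S) g A₂ →
          (A₁ + A₂) * ε ≤ (1 + C / M) *
            ∫ x in kset P (aDelT T ρ δ) r ∩ {x | ε ≤ w x ∧ w x ≤ 2 * ε},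
              len g x (G x) * volDen g x

/-- CNUM: the numerical limit. -/
def Stmt_CNUM : Prop :=
  ∀ E V τ : ℝ, 0 ≤ E → 0 ≤ V → 0 < τ → ∃ ε₁ : ℝ, 0 < ε₁ ∧ ∀ ε : ℝ, 0 < ε → ε ≤ ε₁ →
    (E * (Real.exp (2 * ε) - Real.exp ε)) ^ (1 / (1 + ε)) * V ^ (ε / (1 + ε)) ≤ (E + τ) * ε

/-- CONN [inputs MOLE, FLV, CTOP, CNUM, `Stmt_H2L`]: if `T` does not split then the sublevel set
`{w₀ < 2ε}` of the solution for the tensor `0` connects the ends of `T`, for small `ε`. If `T` has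
one point there is nothing to prove; otherwise `minAreaOf P T g` is finite. Choose reals
`A₁ ≤ minAreaOf P S g`, `A₂ ≤ minAreaOf P (T \ S) g` with `A₁ + A₂ > minAreaOf P T g + 4τ` for all
the finitely many `S`, a region `U` with perimeter at most `A = minAreaOf P T g + τ`, `v` from MOLE,
`M` with `(1 + C/M)(A + 2τ) < A₁ + A₂`. -/
def Stmt_CONN : Prop :=
  ∀ (P T : Finset E3) (g : TensorField) (ρ r : ℝ), T ⊆ P → T.Nonempty →
    MetricOn ((P : Set E3))ᶜ g → (∀ p ∈ P, EllAt g p) → 0 < ρ → 1 ≤ r →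
    (∀ p ∈ P, ‖p‖ + ρ < r) → (∀ p ∈ T, ∀ q ∈ P, p ≠ q → 2 * ρ < ‖p - q‖) → Unsplit P T g →
    ∃ ε₁ δ b : ℝ, 0 < ε₁ ∧ ε₁ ≤ 1 / 4 ∧ 0 < δ ∧ 0 < b ∧
      ∀ (ε c C₂ γ κ l R η : ℝ) (g' : TensorField) (u : E3 → ℝ) (G : E3 → Cov) (M : E3 → Bil),
        ε ≤ ε₁ → NumT ε c C₂ γ κ l R → Pts T (1 / R) R → 1 / l < δ → b < l →
        MetricOn Set.univ g' →
        (∀ x : E3, ‖x‖ ≤ b → (∀ p ∈ P, δ ≤ ‖x - p‖) → g' x = g x) →
        SolutionT T ε (1 / R) R η g' 0 u G M → LocatedT T ε c C₂ γ κ l R u →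
        (∀ x ∈ AnnT T (1 / R) R,
          (∀ p ∈ T, ‖x - p‖ ≤ ρ → wOf ε u x < ε) ∧ (r ≤ ‖x‖ → 1 < wOf ε u x)) →
        TConn T (1 / R) R (2 * ε) (wOf ε u)

end Pool.Agent.PFU
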