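import Pool.Agent.PFU.Defs
import Pool.Agent.PFT.StmtsCAP

/-!
# Block CAPT: capping the ends of `P` which do not belong to `T` (helper76)

As block CAP of `Pool/Agent/PFT` (there `T = {0}`). `capG (P \ T) N g`, `capK (P \ T) N k` are the
capped data.
-/

open MeasureTheory Filter Topology
open scoped ContDiff ENNReal

namespace Pool.Agent.PFU

open Pool.Agent.PenroseSph Pool.Agent.PFlow Pool.Agent.PFT

/-- The data with the ends of `P` outside `T` capped at depth `N`: `C` does not depend on `N`. -/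
structure CappedT (P T : Finset E3) (g k : TensorField) (C N : ℝ) (g' k' : TensorField)
    (e : E3 → ℝ) : Prop where
  two : SeveralEnds T g' k'
  plane : PlaneSignP T g' k'
  same : ∀ x : E3, (∀ p ∈ P, p ∉ T → 1 / (16 * N) < ‖x - p‖) → g' x = g x
  sameK : ∀ x : E3, (∀ p ∈ P, p ∉ T → 1 / (8 * N) < ‖x - p‖) → k' x = k x
  small : ∀ x : E3, x ∉ P → ∀ i j, |k' x i j| ≤ |k x i j|
  defect_cont : Continuous e
  defect_nonneg : ∀ x, 0 ≤ e x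
  defect_le : ∀ x, e x ≤ C / N ^ 2
  defect_supp : ∀ x : E3, (∀ p ∈ P, p ∉ T → 1 / (4 * N) ≤ ‖x - p‖) → e x = 0
  energy : ∀ x : E3, x ∉ T → -e x ≤ surplus g' k' x
  volume : ∀ p ∈ P, p ∉ T → ∫ x in Metric.closedBall p (1 / (4 * N)), volDen g' x ≤ C * N ^ 3

/-- **CAPT.** -/
def Stmt_CAPT : Prop :=
  ∀ (P T : Finset E3) (g k : TensorField), T ⊆ P → SeveralEnds P g k →
    (∀ x : E3, x ∉ P → 0 ≤ surplus g k x) → PlaneSignP P g k →
    ∃ C N₀ : ℝ, 0 < C ∧ 1 ≤ N₀ ∧ (∀ p ∈ P, ∀ q ∈ P, p ≠ q → 1 / N₀ < ‖p - q‖) ∧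
      ∀ N : ℝ, N₀ ≤ N → ∃ (g' k' : TensorField) (e : E3 → ℝ), CappedT P T g k C N g' k' e

/-- **CHIT.** Properties of the cut-offs at the points of `P` outside `T`. Template:
`Pool/Agent/PFT/CHI.lean` (`P.erase 0` replaced by `P \ T`). -/
def Stmt_CHIT : Prop := ∀ (P T : Finset E3) (N : ℝ), SepN P N →
  ContDiff ℝ ∞ (chiN (P \ T) N) ∧ ContDiff ℝ ∞ (chiN (P \ T) (N / 2)) ∧
  ContDiff ℝ ∞ (fun x : E3 => ∑ p ∈ P \ T, (1 - kin N (x - p))) ∧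
  (∀ x, (0 ≤ chiN (P \ T) N x ∧ chiN (P \ T) N x ≤ 1) ∧
    (0 ≤ chiN (P \ T) (N / 2) x ∧ chiN (P \ T) (N / 2) x ≤ 1)) ∧
  (∀ x, (∀ p ∈ P, p ∉ T → 1 / (16 * N) ≤ ‖x - p‖) →
    chiN (P \ T) N x = 1 ∧ ∑ p ∈ P \ T, (1 - kin N (x - p)) = 0) ∧
  (∀ x, (∀ p ∈ P, p ∉ T → 1 / (8 * N) ≤ ‖x - p‖) → chiN (P \ T) (N / 2) x = 1) ∧
  (∀ p ∈ P, p ∉ T → ∀ x, ‖x - p‖ < 1 / (2 * N) →
    chiN (P \ T) N x = kin N (x - p) ∧
    ∑ q ∈ P \ T, (1 - kin N (x - q)) = 1 - kin N (x - p) ∧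
    chiN (P \ T) (N / 2) x = kin (N / 2) (x - p))

/-- **CENT.** The capped data have the same ends at infinity and at the points of `T`. Template:
`Pool/Agent/PFT/CEN.lean` (there `T = {0}`): the data agree for `‖x‖ > max_p ‖p‖ + 1` and for
`‖x - p‖ < 1/(2N)`, `p ∈ T`; `inverted (shift p g) y` depends only on `g (p + inversion y)`. -/
def Stmt_CENT : Prop := ∀ (P T : Finset E3) (N : ℝ) (g k : TensorField), T ⊆ P →
  SeveralEnds P g k → SepN P N →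
  (∃ C R : ℝ, DecayFrom C R (capG (P \ T) N g) (capK (P \ T) N k)) ∧
  ∀ p ∈ T, ∃ C R : ℝ, DecayFrom C R (inverted (shift p (capG (P \ T) N g)))
    (inverted (shift p (capK (P \ T) N k)))

end Pool.Agent.PFU
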