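import Pool.Agent.PFU.StmtsF

/-!
# Flows from several ends: the modified data (helper76)

Goal `Stmt_MODTD`, which implies `Stmt_MODT` of StmtsF.lean. Near every end `p ∈ T` the data agree with two-ended data `gp p`, `kp p` on `ℝ³ \ {0}`
(in the coordinates `x - p`), and outside a ball with two-ended data `g₀`, `k₀`; these are given by
block CAP of `Pool/Agent/PFT` (`PIEC`) and do not depend on the depth `N` of the caps. Near the ends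
and far out the required facts follow from the ones for two-ended data, because everything is local
(`UBARm.barB_congr` of PFT/UBAR.lean, `surplus_congr` of PFlow/E/SHELL.lean, `MODL.scal_at`, ... of
PFlow/E/MOD.lean). All modules are independent (hypothesis style).
-/

open MeasureTheory Filter Topology
open scoped ContDiff ENNReal

namespace Pool.Agent.PFU

open Pool.Agent.PenroseSph Pool.Agent.PFlow Pool.Agent.PFT

/-! ### General open sets -/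

/-- **HATU** [PFlow/E/HATA.lean, HATB.lean, HATC.lean for a general open set]: the tensor `ĥ`. (Copy the
proofs with `{0}ᶜ` replaced by `U`; or localise: near a given point `x ∈ U` replace `g`, `h` by
`χ g + (1-χ) δ` and `χ' h`, `χ' = 1` near `x`, `χ = 1` on the support of `χ'`.) -/
def Stmt_HATU : Prop :=
  ∀ (U : Set E3) (g h : TensorField) (η : ℝ), 0 < η → IsOpen U → MetricOn U g → TensorOn U h →
    (∀ x ∈ U, (∀ v : Cov, ev (g x) v v = 1 → ev (h x) v v ≤ trg g x (h x)) ∨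
      (∀ v : Cov, ev (g x) v v = 1 → trg g x (h x) ≤ ev (h x) v v)) →
    TensorOn U (hat η g h) ∧ TwoNonneg U g (hat η g h) ∧
    (∀ x ∈ U, nsq g x (hat η g h x) ≤ nsq g x (h x)) ∧
    (∀ (x : E3) (i j : Fin 3), |hat η g h x i j| ≤ |h x i j|) ∧
    ∀ x ∈ U, surplus g h x - eEta η g h x ≤ surplus g (hat η g h) x

/-- **EETAU** [PFlow/E/EETA.lean for a general open set]: the defect is continuous, nonnegative and
small in `L^q` for small `η`. Implies `Stmt_EETAU` of StmtsF.lean. -/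
def Stmt_EETAD : Prop :=
  ∀ (U : Set E3) (g h : TensorField), IsOpen U → MetricOn U g → TensorOn U h →
    (∀ η : ℝ, 0 < η → ContinuousOn (eEta η g h) U ∧ ∀ x ∈ U, 0 ≤ eEta η g h x) ∧
    ∀ (K : Set E3) (q τ : ℝ), IsCompact K → K ⊆ U → 1 ≤ q → 0 < τ → ∃ η : ℝ, 0 < η ∧ η ≤ 1 ∧
      ∫ x in K, eEta η g h x ^ q ≤ τ

/-! ### The cut-offs -/

/-- **CUTT** [PFlow/E/CUTM.lean with the cut-offs `chiN T` instead of `kin`; input HATU]: the modified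
metric and tensor. `chiN T R x = 1` if `1/(16R) ≤ ‖x - p‖` for all `p ∈ T`, `chiN T R = 0` near the
points of `T` (see `CHIAux` in PFT/CHI.lean); where `modHT ≠ 0`, `‖x‖ < l` and `1/(16R) < ‖x - p‖`
for all `p ∈ T`, so `modGT = g`. -/
def Stmt_CUTT : Prop :=
  ∀ (T : Finset E3) (g h : TensorField) (η l R : ℝ), 0 < η → 1 ≤ l → 4 * l ≤ R →
    MetricOn ((T : Set E3))ᶜ g → TensorOn ((T : Set E3))ᶜ h → PlaneSignP T g h →
    MetricOn Set.univ (modGT T l R g) ∧ TensorOn Set.univ (modHT T η l R g h) ∧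
    TwoNonneg Set.univ (modGT T l R g) (modHT T η l R g h) ∧
    (∀ x : E3, (∀ p ∈ T, 1 / (16 * R) < ‖x - p‖) → ‖x‖ < l → modGT T l R g x = g x) ∧
    (∀ x : E3, 2 * l ≤ ‖x‖ → modGT T l R g x = 1) ∧
    (∀ x : E3, l ≤ ‖x‖ → modHT T η l R g h x = 0) ∧
    (∀ x : E3, (∀ p ∈ T, 1 / (8 * R) ≤ ‖x - p‖) → ‖x‖ ≤ l / 2 →
      modHT T η l R g h x = hat η g h x) ∧
    (∀ x : E3, 0 ≤ chiN T (R / 2) x ∧ chiN T (R / 2) x ≤ 1) ∧
    (∀ x : E3, (∀ p ∈ T, 1 / (8 * R) ≤ ‖x - p‖) → chiN T (R / 2) x = 1) ∧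
    Continuous (chiN T (R / 2)) ∧
    (∀ p ∈ T, ∀ x : E3, ‖x - p‖ < 1 / (16 * R) → chiN T (R / 2) x = 0) ∧
    (∀ (x : E3) (i j : Fin 3), |modHT T η l R g h x i j| ≤ |h x i j|)

/-! ### Far out -/

/-- The fields of `ModifiedT` which concern the region `‖x‖ ≥ rad`. -/
structure OutF (F : Fr) (g k : TensorField) (C l : ℝ) (g' h' : TensorField) (e : E3 → ℝ) :
    Prop where
  bar : ∀ ε : ℝ, 0 < ε → ε ≤ 1 → ∀ x : E3, F.rad ≤ ‖x‖ → BarAt ε C g' h' x ∧ BarAt ε C g' 0 x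
  decay1 : DecayFrom C F.rad g' 0
  hsmall : ∀ x : E3, F.rad ≤ ‖x‖ → ∀ i j, |h' x i j| ≤ C / ‖x‖ ^ 2
  elliptic : ∀ x : E3, F.rad ≤ ‖x‖ → ∀ v : Cov, (∑ i, v i ^ 2) ≤ C * ev (g' x) v v ∧
    ev (g' x) v v ≤ C * ∑ i, v i ^ 2
  shell : ∀ x : E3, l / 2 < ‖x‖ → ‖x‖ < l → -e x - C * (msz (k x) / l + msz (k x) ^ 2)
    ≤ surplus g' h' x
  trans : ∀ x : E3, l < ‖x‖ → ‖x‖ < 2 * l →
    |surplus g' h' x * volDen g' x - linR g' x / 2| ≤ C / l ^ 4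
  trans_sup : ∀ x : E3, l < ‖x‖ → ‖x‖ < 2 * l → |linR g' x| ≤ C / l ^ 3
  flat_surplus : ∀ x : E3, 2 * l < ‖x‖ → surplus g' h' x = 0
  mass : ∫ x in cAnn l (2 * l), linR g' x = -(16 * Real.pi * massIntegral g l)

/-- **OUTB** [input `Stmt_MODD` of PFT/StmtsL.lean (proved, `t_MODD`), `AFD`, `BARA`]: the modified data far
out. Paper: `Stmt_MODD` for `(g₀, k₀, e₀, rad)` gives `Modified g₀ k₀ C ...` with all these fields for
`modG l R g₀`, `modH η l R g₀ k₀`, `e₀ + kin (R/2) * eEta η g₀ k₀`. On the open set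
`‖x‖ > rad - μ` (`μ ≤ ρ/2`, so `‖x - p‖ > ρ/2` for `p ∈ T`; take `l₀ ≥ 8/ρ`, `l₀ ≥ 8 rad`) one has
`chiN T R = kin R = 1`, `chiN T (R/2) = kin (R/2) = 1`, `g = g₀`, `k = k₀`, hence
`modGT T l R g = modG l R g₀`, `modHT T η l R g k = modH η l R g₀ k₀`, and everything is local
(`massIntegral g l` depends on `g` near `‖x‖ = l`). `BarAt` for the tensor `0`: `BARA` and
`MODL.model_out`. The decay of `k` is `AFD` for `(g₀, k₀)`. -/
def Stmt_OUTB : Prop :=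
  ∀ (F : Fr) (μ : ℝ) (g₀ k₀ : TensorField) (e₀ : E3 → ℝ), F.Ok → 0 < μ → 2 * μ ≤ F.rho →
    TwoEnded g₀ k₀ → PlaneSign g₀ k₀ → Continuous e₀ → (∀ x, 0 ≤ e₀ x) →
    (∀ x : E3, F.rad ≤ ‖x‖ → e₀ x = 0) → (∀ x : E3, x ≠ 0 → -e₀ x ≤ surplus g₀ k₀ x) →
    ∃ C l₀ : ℝ, 0 < C ∧ 2 ≤ l₀ ∧ ∀ g k : TensorField,
      MetricOn ((F.T : Set E3))ᶜ g → TensorOn ((F.T : Set E3))ᶜ k → PlaneSignP F.T g k →
      (∀ x : E3, F.rad - μ < ‖x‖ → g₀ x = g x ∧ k₀ x = k x) →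
      (∀ x : E3, F.rad ≤ ‖x‖ → ∀ i j, |k x i j| ≤ C / ‖x‖ ^ 2) ∧
      ∀ l R η : ℝ, l₀ ≤ l → 4 * l ≤ R → 0 < η →
        OutF F g k C l (modGT F.T l R g) (modHT F.T η l R g k)
          (fun x => chiN F.T (R / 2) x * eEta η g k x)

/-! ### Near the ends -/

/-- **INNB** [inputs `AFD`, `BARB`, `HSM2` of PFlow/E, CUTT, HATU]: the modified data near the end
`p ∈ T`. Paper: for `0 < ‖x‖ < ρ + μ` one has `chiN T R (x + p) = kin R x` (the other points of `T` are at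
distance `> ρ/2` from `x + p`), `kap (‖x + p‖/l) = 1`; for `1/(16R) < ‖x‖ < ρ + μ`,
`shift p (modGT T l R g) = gp` near `x`. `‖modHT‖ ≤ ‖hat‖ ≤ ‖k‖` pointwise (`nsq`, HATU) and
`nsq gp x (kp x) ≤ C ‖x‖⁴` (`HSM2`); the barriers are `BARB` for `gp` with the tensors
`modHT (x + p)` and `0`, and `MODL.model_in`; `inverted (shift p g) y = inverted gp y` for
`‖y‖ > 1/(ρ + μ)` (cf. `CENAux.decay_congr` in PFT/CEN.lean). -/
def Stmt_INNB : Prop :=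
  ∀ (F : Fr) (μ : ℝ) (gp kp : TensorField), F.Ok → 0 < μ → 2 * μ ≤ F.rho →
    TwoEnded gp kp → PlaneSign gp kp →
    ∃ C : ℝ, 0 < C ∧ ∀ p ∈ F.T, ∀ g k : TensorField,
      MetricOn ((F.T : Set E3))ᶜ g → TensorOn ((F.T : Set E3))ᶜ k → PlaneSignP F.T g k →
      (∀ x : E3, 0 < ‖x‖ → ‖x‖ < F.rho + μ → gp x = g (x + p) ∧ kp x = k (x + p)) →
      DecayFrom C (1 / F.rho) (inverted (shift p g)) 0 ∧
      (∀ y : E3, 1 / F.rho ≤ ‖y‖ → ∀ v : Cov,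
        (∑ i, v i ^ 2) ≤ C * ev (inverted (shift p g) y) v v ∧
        ev (inverted (shift p g) y) v v ≤ C * ∑ i, v i ^ 2) ∧
      ∀ l R η : ℝ, 8 / F.rho ≤ l → 8 * F.rad ≤ l → 4 * l ≤ R → 0 < η →
        (∀ x : E3, 1 / (8 * R) ≤ ‖x - p‖ → ‖x - p‖ ≤ F.rho →
          nsq (modGT F.T l R g) x (modHT F.T η l R g k x) ≤ C * ‖x - p‖ ^ 4) ∧
        ∀ ε : ℝ, 0 < ε → ε ≤ 1 → ∀ x : E3, 1 / (8 * R) ≤ ‖x‖ → ‖x‖ ≤ F.rho →
          BarAt ε C (shift p (modGT F.T l R g)) (shift p (modHT F.T η l R g k)) x ∧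
          BarAt ε C (shift p (modGT F.T l R g)) 0 x

/-! ### The pieces -/

/-- **PIEC** [inputs `Stmt_CAP`, `Stmt_TRN` of PFT]: the two-ended pieces. Paper: apply `Stmt_CAP` to
`(P, g, k)` (for `g₀, k₀, e₀`) and, for each `p ∈ T`, to `(trans P p, shift p g, shift p k)` (for `gp p`,
`kp p`), always at the same depth `N₀`, larger than all the constants `N₀` of `Stmt_CAP`, than
`1/ρ`, and so large that the margins `1/(4N₀)` hold; `μ = min (ρ/2) (1/(16N₀))`. For `‖x‖ < ρ + μ` and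
`q ∈ P`, `q ≠ p`: `‖x + p - q‖ > ρ/2`, so the capped data (at depth `N₀` about the points `q - p ≠ 0`, and at
depth `N ≥ N₀` about `P \ T`) agree with the given ones at `x + p`. For `‖x‖ > rad - μ`:
`‖x - q‖ > ρ/2` for `q ∈ T` and `‖x - q‖ > 1/(8N₀)` for `q ∈ P \ T`. -/
def Stmt_PIEC : Prop :=
  ∀ (P : Finset E3) (F : Fr) (g k : TensorField), F.T ⊆ P → F.Ok → SeveralEnds P g k →
    (∀ x : E3, x ∉ P → 0 ≤ surplus g k x) → PlaneSignP P g k →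
    (∀ q ∈ P, q ∉ F.T → (∀ p ∈ F.T, 2 * F.rho < ‖q - p‖) ∧ ‖q‖ < F.rad) →
    ∃ (μ N₀ : ℝ) (gp kp : E3 → TensorField) (g₀ k₀ : TensorField) (e₀ : E3 → ℝ),
      0 < μ ∧ 2 * μ ≤ F.rho ∧ 1 ≤ N₀ ∧
      (∀ q ∈ P, q ∉ F.T → (∀ p ∈ F.T, 2 * F.rho + 1 / (4 * N₀) < ‖q - p‖) ∧
        ‖q‖ + 1 / (4 * N₀) < F.rad) ∧
      (∀ p ∈ F.T, TwoEnded (gp p) (kp p) ∧ PlaneSign (gp p) (kp p)) ∧
      TwoEnded g₀ k₀ ∧ PlaneSign g₀ k₀ ∧ Continuous e₀ ∧ (∀ x, 0 ≤ e₀ x) ∧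
      (∀ x : E3, F.rad ≤ ‖x‖ → e₀ x = 0) ∧ (∀ x : E3, x ≠ 0 → -e₀ x ≤ surplus g₀ k₀ x) ∧
      ∀ (C₁ N : ℝ) (g₁ k₁ : TensorField) (e₁ : E3 → ℝ), N₀ ≤ N →
        CappedT P F.T g k C₁ N g₁ k₁ e₁ →
        (∀ p ∈ F.T, ∀ x : E3, 0 < ‖x‖ → ‖x‖ < F.rho + μ →
          gp p x = g₁ (x + p) ∧ kp p x = k₁ (x + p)) ∧
        (∀ x : E3, F.rad - μ < ‖x‖ → g₀ x = g₁ x ∧ k₀ x = k₁ x)

/-! ### The goal -/

/-- **MODT** [inputs PIEC, INNB, OUTB, CUTT, HATU, EETAU]: the modified data for the capped data; the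
constants do not depend on the depth `N` of the caps. Implies `Stmt_MODT` of StmtsF.lean (with
`Cb = C`). `core`: near `x` the modified data are
`g₁`, `hat η g₁ k₁`; HATU and `CappedT.energy`. `defect_cont`: `chiN T (R/2) = 0` near the points of
`T`. -/
def Stmt_MODTD : Prop :=
  ∀ (P : Finset E3) (F : Fr) (g k : TensorField), F.T ⊆ P → F.Ok → SeveralEnds P g k →
    (∀ x : E3, x ∉ P → 0 ≤ surplus g k x) → PlaneSignP P g k →
    (∀ q ∈ P, q ∉ F.T → (∀ p ∈ F.T, 2 * F.rho < ‖q - p‖) ∧ ‖q‖ < F.rad) →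
    ∃ C N₀ l₀ : ℝ, 0 < C ∧ 1 ≤ N₀ ∧ 2 ≤ l₀ ∧
      (∀ q ∈ P, q ∉ F.T → (∀ p ∈ F.T, 2 * F.rho + 1 / (4 * N₀) < ‖q - p‖) ∧
        ‖q‖ + 1 / (4 * N₀) < F.rad) ∧
      ∀ (C₁ N : ℝ) (g₁ k₁ : TensorField) (e₁ : E3 → ℝ), N₀ ≤ N →
        CappedT P F.T g k C₁ N g₁ k₁ e₁ →
        (∀ x : E3, F.rad ≤ ‖x‖ → ∀ i j, |k₁ x i j| ≤ C / ‖x‖ ^ 2) ∧
        (∀ p ∈ F.T, ∀ y : E3, 1 / F.rho ≤ ‖y‖ → ∀ v : Cov,
          (∑ i, v i ^ 2) ≤ C * ev (inverted (shift p g₁) y) v v ∧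
          ev (inverted (shift p g₁) y) v v ≤ C * ∑ i, v i ^ 2) ∧
        ∀ l R η : ℝ, l₀ ≤ l → 4 * l ≤ R → 0 < η →
          ModifiedT F g₁ k₁ C l R (modGT F.T l R g₁) (modHT F.T η l R g₁ k₁)
            (fun x => e₁ x + chiN F.T (R / 2) x * eEta η g₁ k₁ x)

end Pool.Agent.PFU
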