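import Pool.Agent.PFU.DefsE

/-!
# Flows from several ends: statements of the energy block

Every module is the analogue of a module of `Pool/Agent/PFlow/E` or `Pool/Agent/PFT` (named in the
doc-strings, proof there) for the set `omT F D` instead of `D.Om` and `SetupT` instead of `Setup`.
-/

open MeasureTheory Filter Topology
open scoped ContDiff ENNReal

namespace Pool.Agent.PFU

open Pool.Agent.PenroseSph Pool.Agent.PFlow Pool.Agent.PFT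

/-! ### General facts -/

/-- FLXU [PFlow/E/FLX.lean for a general open set]: the flux identity tested with a function of
`u`. -/
def Stmt_FLXU : Prop :=
  ∀ (ε : ℝ) (U : Set E3) (g h : TensorField) (u : E3 → ℝ) (G : E3 → Cov) (M : E3 → Bil),
    0 < ε → ε < 1 → IsOpen U → MetricOn Set.univ g → TensorOn Set.univ h →
    H2On U u G M →
    (∀ χ : E3 → ℝ, ContDiff ℝ 1 χ → HasCompactSupport χ → tsupport χ ⊆ U →
      ∫ x, len g x (G x) ^ (ε - 1) * ev (g x)⁻¹ (G x) (grad χ x) * volDen g x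
        = ∫ x, len g x (G x) ^ ε * beps ε g x (G x) (h x) * χ x * volDen g x) →
    ∀ (ψ : ℝ → ℝ) (K : Set E3), ContDiff ℝ 1 ψ → IsCompact K → K ⊆ U →
      (∀ x ∈ U, u x ∈ tsupport ψ → x ∈ K) →
      ∫ x in U, deriv ψ (u x) * len g x (G x) ^ (1 + ε) * volDen g x
        = ∫ x in U, len g x (G x) ^ ε * beps ε g x (G x) (h x) * ψ (u x) * volDen g x

/-- LEYT [PFlow/E/LEY.lean]: the local bound near an end, for a metric which is defined in the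
punctured ball of radius `ρ` only. -/
def Stmt_LEYT : Prop :=
  ∀ ε C κ₁ κ₂ ρ : ℝ, 0 < ε → ε ≤ 1 / 2 → 0 < C → 0 < κ₁ → κ₁ < κ₂ → 0 < ρ → ρ ≤ 1 →
    ∃ C' l₀ : ℝ, 0 < C' ∧ 1 ≤ l₀ ∧ ∀ (l S : ℝ) (g g' h' : TensorField) (u : E3 → ℝ)
      (G : E3 → Cov) (M : E3 → Bil), l₀ ≤ l → 0 ≤ S →
      MetricOn {x : E3 | 0 < ‖x‖ ∧ ‖x‖ < ρ} g →
      DecayFrom C (1 / ρ) (inverted g) 0 →
      (∀ y : E3, 1 / ρ ≤ ‖y‖ → ∀ v : Cov,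
        (∑ i, v i ^ 2) ≤ C * ev (inverted g y) v v ∧ ev (inverted g y) v v ≤ C * ∑ i, v i ^ 2) →
      (∀ x ∈ Ann (κ₁ / (2 * l)) (2 * κ₂ / l), g' x = g x ∧ (h' x).IsSymm ∧
        nsq g' x (h' x) ≤ C * ‖x‖ ^ 4) →
      H2On (Ann (κ₁ / (2 * l)) (2 * κ₂ / l)) u G M →
      EqU (Ann (κ₁ / (2 * l)) (2 * κ₂ / l)) ε g' h' G M →
      (∀ x ∈ Ann (κ₁ / (2 * l)) (2 * κ₂ / l), |1 - u x| ≤ S) →
      IntegrableOn (fun x => len g' x (G x) ^ 3 * volDen g' x) (cAnn (κ₁ / l) (κ₂ / l)) ∧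
      (∫ x in cAnn (κ₁ / l) (κ₂ / l), len g' x (G x) ^ 3 * volDen g' x) ≤ C' * S ^ 3

/-- SHH: translation of the notions of the flow. All are local, `pd k (fun y => f (y + p)) x =
pd k f (x + p)`, and integrals are translation invariant. -/
def Stmt_SHH : Prop :=
  ∀ (p : E3) (U : Set E3),
    (∀ (w : E3 → ℝ) (G : E3 → Cov) (M : E3 → Bil), H2On U w G M →
      H2On {x | x + p ∈ U} (fun x => w (x + p)) (fun x => G (x + p)) (fun x => M (x + p))) ∧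
    (∀ (ε : ℝ) (g h : TensorField) (G : E3 → Cov) (M : E3 → Bil), EqU U ε g h G M →
      EqU {x | x + p ∈ U} ε (shift p g) (shift p h) (fun x => G (x + p)) (fun x => M (x + p))) ∧
    (∀ (ε : ℝ) (g h : TensorField) (G : E3 → Cov) (M : E3 → Bil), EqW U ε g h G M →
      EqW {x | x + p ∈ U} ε (shift p g) (shift p h) (fun x => G (x + p)) (fun x => M (x + p))) ∧
    (∀ g : TensorField, MetricOn U g → MetricOn {x | x + p ∈ U} (shift p g)) ∧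
    (∀ h : TensorField, TensorOn U h → TensorOn {x | x + p ∈ U} (shift p h)) ∧
    (∀ (ε : ℝ) (g h : TensorField) (q : Cov) (N : Bil) (x : E3),
      flux ε (shift p g) (shift p h) x q N = flux ε g h (x + p) q N ∧
      len (shift p g) x q = len g (x + p) q ∧ volDen (shift p g) x = volDen g (x + p) ∧
      beps ε (shift p g) x q N = beps ε g (x + p) q N ∧
      btan (shift p g) x q N = btan g (x + p) q N ∧ nsq (shift p g) x N = nsq g (x + p) N)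

/-! ### The facts `AbsT` -/

/-- SETWT [PFlow/E/SETW.lean]: the function `w` and its levels. -/
def Stmt_SETWT : Prop :=
  ∀ (F : Fr) (P : Par) (D : Dat), SetupT F P D →
    MetricOn (omT F D) D.g' ∧ TensorOn (omT F D) D.h' ∧ TwoNonneg (omT F D) D.g' D.h' ∧
    H2On (omT F D) (D.w P) (D.Gw P) (D.Mw P) ∧
    EqW (omT F D) P.eps D.g' D.h' (D.Gw P) (D.Mw P) ∧
    NoIsland (omT F D) (D.w P) ∧ Measurable (D.w P) ∧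
    SepT F.T (1 / D.R) D.R (D.sb P / 4) (D.sM P) (D.w P) ∧
    Sep (2 * D.l) D.R (D.s2 P) (D.sM P) (D.w P) ∧
    (∀ x ∈ omT F D, D.w P x < D.sM P → ‖x‖ < D.R / 2) ∧
    (∀ x ∈ omT F D, D.s2 P ≤ D.w P x → 4 * D.l ≤ ‖x‖) ∧
    (∀ x ∈ omT F D, (∀ p ∈ F.T, 1 / (4 * D.l) < ‖x - p‖) → D.sb P < D.w P x) ∧
    (∀ x : E3, D.l / 4 ≤ ‖x‖ → ‖x‖ ≤ D.Kl P → D.w P x ≤ D.s2 P + 1 + 2 * P.gam) ∧
    (∀ x ∈ omT F D, D.w P x < D.s2 P + 1 → ‖x‖ ≤ D.Kl P) ∧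
    (∀ s s', D.sb P / 4 < s → s' < D.sM P → ∃ K : Set E3, IsCompact K ∧ K ⊆ omT F D ∧
      omT F D ∩ {x | s ≤ D.w P x ∧ D.w P x ≤ s'} ⊆ K) ∧
    0 < D.sb P ∧ D.sb P ≤ 1 ∧ D.sb P < P.eps ∧ 1 < D.s2 P ∧ D.s2 P + 4 + 4 * P.gam < D.sM P ∧
    2 * D.Kl P ≤ D.R ∧ 4 * D.l ≤ D.Kl P ∧ Pts F.T (1 / D.R) D.R ∧ IsOpen (omT F D) ∧
    Ann (2 * F.rad) D.R ⊆ omT F D ∧
    (∀ p ∈ F.T, ∀ x : E3, 1 / D.R < ‖x - p‖ → ‖x - p‖ < F.rho → x ∈ omT F D)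

/-- ABSIT [PFlow/E/ABSI.lean]: integrability over the level regions. -/
def Stmt_ABSIT : Prop :=
  ∀ (F : Fr) (P : Par) (D : Dat), SetupT F P D →
    LvlIntT F P D D.vol ∧ LvlIntT F P D (fun x => D.X P x ^ 3 * D.vol x) ∧
    LvlIntT F P D (fun x => D.Phi P x * D.vol x) ∧ LvlIntT F P D (fun x => D.Di P x * D.vol x) ∧
    LvlIntT F P D (fun x => D.Su P x * D.vol x) ∧
    LvlIntT F P D (fun x => D.X P x * matter D.g' D.h' x (D.Gw P x) * D.vol x) ∧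
    (∀ᵐ x ∂(volume.restrict (omT F D)), 0 ≤ D.Di P x) ∧
    AEStronglyMeasurable (D.X P) (volume.restrict (omT F D))

/-- ABSMT [PFlow/E/ABSM.lean; input `Stmt_MIU`]: the level set inequality. In `Stmt_MIU`, `c = 2ε`
(`SetupT.conn`), `ψ` vanishes for `s ≤ 0`, so `4π(|T|-1) ∫_{s ≤ 2ε} ψ ≤ kT F P * b`. -/
def Stmt_ABSMT : Prop :=
  ∀ (F : Fr) (P : Par) (D : Dat), SetupT F P D →
    ∀ (ψ : ℝ → ℝ) (b : ℝ), ContDiff ℝ 1 ψ → (∀ s, 0 ≤ ψ s) → HasCompactSupport ψ →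
      tsupport ψ ⊆ Set.Ioo (D.sb P / 4) (D.sM P) → (∀ s, s ≤ 2 * P.eps → ψ s ≤ b) →
      -(∫ x in omT F D, deriv ψ (D.w P x) * D.Phi P x * D.vol x)
        ≤ 4 * Real.pi * (∫ s, ψ s) + kT F P * b
          - 1 / (2 - P.eps) * (∫ x in omT F D, ψ (D.w P x) * D.Phi P x * D.vol x)
          - ∫ x in omT F D, ψ (D.w P x) * (D.Su P x + D.Di P x) * D.vol x

/-- XWOT [PFT/XWOU.lean]: the cubic integral over the outer windows. -/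
def Stmt_XWOT : Prop :=
  ∀ ε γ : ℝ, 0 < ε → ε ≤ 1 / 2 → 0 < γ → ∃ B : ℝ, 0 < B ∧ ∀ (F : Fr) (Q : Par) (D : Dat),
    Q.eps = ε → Q.gam = γ → SetupT F Q D → ∀ s, D.s2 Q ≤ s → s + 1 ≤ D.sM Q →
      ∫ x in omT F D ∩ {x | s < D.w Q x ∧ D.w Q x < s + 1}, D.X Q x ^ 3 * D.vol x ≤ B

/-- XWIT [PFlow/E/XWI.lean; inputs SETWT, LEYT, SHH, `Stmt_XID`, `Stmt_L4`]: the flux density over
the inner window, which consists of disjoint parts in the annuli `κ/ℓ ≤ |x - p| ≤ 1/(4ℓ)`, `p ∈ T`;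
for each `p` the argument of XWI in the coordinates `x - p`. -/
def Stmt_XWIT : Prop :=
  ∀ (F : Fr) (P : Par), ∃ B l₁ : ℝ, 0 < B ∧ 1 ≤ l₁ ∧ ∀ D : Dat, SetupT F P D → l₁ ≤ D.l →
    ∀ (ψ : ℝ → ℝ) (A : ℝ), ContDiff ℝ 1 ψ → HasCompactSupport ψ →
      tsupport ψ ⊆ Set.Ioo (D.sb P / 4) (D.sb P) → (∀ s, |ψ s| ≤ A ∧ |deriv ψ s| ≤ A) →
      |∫ x in omT F D, ψ (D.w P x) * D.Phi P x * D.vol x|
        ≤ B * D.l ^ (-(2 * pe P.eps + 1)) * A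

/-- ABSXT [PFlow/E/ABSX.lean]: the identity of the flux density in the flat region. -/
def Stmt_ABSXT : Prop :=
  ∀ (F : Fr) (P : Par) (D : Dat), SetupT F P D →
    ∀ ψ : ℝ → ℝ, ContDiff ℝ 1 ψ → HasCompactSupport ψ →
      tsupport ψ ⊆ Set.Ioo (D.s2 P) (D.sM P) →
      ∫ x in omT F D, ψ (D.w P x) * D.Phi P x * D.vol x
        = 1 / (2 - P.eps) * ∫ x in omT F D, (ψ (D.w P x) + P.eps * deriv ψ (D.w P x))
            * D.X P x ^ 3 * D.vol x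

/-- ABSWT [PFlow/E/ABSW.lean]: Willmore's inequality in the flat region. -/
def Stmt_ABSWT : Prop :=
  ∀ (F : Fr) (P : Par) (D : Dat), SetupT F P D →
    ∀ ψ : ℝ → ℝ, Continuous ψ → (∀ s, 0 ≤ ψ s) → HasCompactSupport ψ →
      tsupport ψ ⊆ Set.Ioo (D.s2 P) (D.sM P) →
      4 * Real.pi * (2 - P.eps) * (∫ s, ψ s)
          - ∫ x in omT F D, ψ (D.w P x) * D.Phi P x * D.vol x
        ≤ 1 / lam P.eps * ∫ x in omT F D, ψ (D.w P x) * D.Di P x * D.vol x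

/-- ABSFT [PFlow/E/ABSF.lean; input FLXU]: the flux inequality. -/
def Stmt_ABSFT : Prop :=
  ∀ (F : Fr) (P : Par) (D : Dat), SetupT F P D →
    ∀ ψ : ℝ → ℝ, ContDiff ℝ 1 ψ → (∀ s, 0 ≤ ψ s) → HasCompactSupport ψ →
      tsupport ψ ⊆ Set.Ioo (D.sb P / 4) (D.sM P) →
      ∫ x in omT F D,
        deriv ψ (D.w P x) * (Real.exp (-D.w P x) * D.X P x ^ (1 + P.eps)) * D.vol x ≤ 0

/-- ABST [PFlow/E/ABS.lean; inputs SETWT, ABSIT, ABSMT, XWOT, XWIT, ABSXT, ABSWT, ABSFT]: the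
abstract facts. -/
def Stmt_ABST : Prop :=
  ∀ (F : Fr) (P : Par), ∃ B l₁ : ℝ, 0 < B ∧ 1 ≤ l₁ ∧ ∀ D : Dat, SetupT F P D → l₁ ≤ D.l →
    AbsOfT F P D B

/-! ### Consequences of `AbsT` -/

/-- TSTAT [PFlow/E/TSTA.lean]: the main test function. The only new term is `K * b` with `b = e`
(`ψ = χ e^{s/(2-ε)} ≤ e^{c/(2-ε)} ≤ e` on `s ≤ c`). -/
def Stmt_TSTAT : Prop :=
  ∀ ε : ℝ, 0 < ε → ε ≤ 1 / 2 → ∃ C : ℝ, 0 < C ∧
    ∀ (Ω : Set E3) (vol w X Φ D S : E3 → ℝ) (sb s₂ sM B₁ B₂ c K : ℝ),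
      AbsT ε Ω vol w X Φ D S sb s₂ sM B₁ B₂ c K → 0 < sb → sb ≤ 1 → sb < s₂ → 0 ≤ B₁ → 0 ≤ B₂ →
      c ≤ 1 → 0 ≤ K →
      ∀ se : ℝ, s₂ + 1 ≤ se → se + 1 < sM → ∃ χ : ℝ → ℝ, Continuous χ ∧
        (∀ s, 0 ≤ χ s ∧ χ s ≤ 1) ∧ (∀ s, s ≤ sb / 2 → χ s = 0) ∧
        (∀ s, sb ≤ s → s ≤ s₂ → χ s = 1) ∧
        (∀ s, s₂ ≤ s → s ≤ se → Real.exp (-(lam ε / 2 * (s - s₂))) ≤ χ s) ∧
        (∀ s, se + 1 ≤ s → χ s = 0) ∧
        4 * Real.pi * (2 - ε)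
          + ∫ x in Ω, χ (w x) * Real.exp (w x / (2 - ε)) * (S x + D x / 2) * vol x
          ≤ 3 * K + C * (B₂ / sb ^ 2 + (1 + B₁) * Real.exp (s₂ / (2 - ε))
            * Real.exp (-((lam ε / 2 - 1 / (2 - ε)) * (se - s₂))))

/-- TSTBT [PFlow/E/TSTB.lean]: the test function for the upper bound of the cubic integral. -/
def Stmt_TSTBT : Prop :=
  ∀ (ε : ℝ) (β : ℝ → ℝ), 0 < ε → ε ≤ 1 / 2 → IsBump β → ∃ C : ℝ, 0 < C ∧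
    ∀ (Ω : Set E3) (vol w X Φ D S : E3 → ℝ) (sb s₂ sM B₁ B₂ c K : ℝ),
      AbsT ε Ω vol w X Φ D S sb s₂ sM B₁ B₂ c K → 0 < sb → sb ≤ 1 → sb < s₂ → 0 ≤ B₁ → 0 ≤ B₂ →
      c ≤ 1 → c ≤ s₂ → 0 ≤ K →
      ∀ L N : ℝ, 1 ≤ L → s₂ + L + 1 < sM →
        (∫ x in Ω ∩ {x | sb / 2 < w x ∧ w x < s₂ + L + 1},
          Real.exp (w x / (2 - ε)) * max (-S x) 0 * vol x) ≤ N →
        ∫ x in Ω, β (w x - s₂) * X x ^ 3 * vol x ≤ 4 * Real.pi * (2 - ε) ^ 2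
          + C * (Real.exp (-(s₂ / (2 - ε))) * (N + K + B₂ / sb ^ 2) + Real.exp (-(L / ε)) * B₁)

/-- FLXAT [PFlow/E/FLXA.lean]: monotonicity of the flux. -/
def Stmt_FLXAT : Prop :=
  ∀ (ε : ℝ) (β : ℝ → ℝ), 0 < ε → ε ≤ 1 / 2 → IsBump β →
    ∀ (Ω : Set E3) (vol w X Φ D S : E3 → ℝ) (sb s₂ sM B₁ B₂ c K : ℝ),
      AbsT ε Ω vol w X Φ D S sb s₂ sM B₁ B₂ c K → 0 < sb → sb < s₂ → s₂ + 1 < sM →
      0 ≤ jInf ε β Ω vol w X s₂ ∧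
      ∀ σ₁ σ₂ : ℝ, sb / 4 < σ₁ → σ₁ ≤ σ₂ → σ₂ ≤ s₂ →
        ∫ x in Ω ∩ {x | σ₁ ≤ w x ∧ w x ≤ σ₂}, X x ^ (1 + ε) * vol x
          ≤ jInf ε β Ω vol w X s₂ * (Real.exp σ₂ - Real.exp σ₁)

/-- JUPT [PFlow/E/JUP.lean]: upper bound for the flux. -/
def Stmt_JUPT : Prop :=
  ∀ (ε : ℝ) (β : ℝ → ℝ), 0 < ε → ε ≤ 1 / 2 → IsBump β → ∃ C : ℝ, 0 < C ∧
    ∀ (Ω : Set E3) (vol w X Φ D S : E3 → ℝ) (sb s₂ sM B₁ B₂ V c K : ℝ),
      AbsT ε Ω vol w X Φ D S sb s₂ sM B₁ B₂ c K → 0 < sb → sb < s₂ → s₂ + 1 < sM →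
      (∫ x in Ω ∩ {x | s₂ < w x ∧ w x < s₂ + 1}, vol x) ≤ V →
      jInf ε β Ω vol w X s₂ ≤ C * Real.exp (-s₂) * B₁ ^ ((1 + ε) / 3) * V ^ ((2 - ε) / 3)

/-- UPHT [PFlow/E/UPH.lean; `main_abs` there also for `AbsT`]: upper bounds for the flux and the
weight. -/
def Stmt_UPHT : Prop :=
  ∀ (F : Fr) (P : Par) (B : ℝ) (β : ℝ → ℝ), IsBump β → ∃ B' : ℝ, 0 < B' ∧ ∀ D : Dat,
    SetupT F P D → AbsOfT F P D B →
    jT F P D β ≤ B' ∧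
    IntegrableOn (D.ph P) (cAnn (D.l / 4) (D.Kl P)) ∧
    (∫ x in cAnn (D.l / 4) (D.Kl P), D.ph P x) ≤ B' * D.l ^ 3

/-- JUUT [PFT/JUU.lean]: the upper bound for the flux depends on `ε` and `γ` only. -/
def Stmt_JUUT : Prop :=
  ∀ (ε γ : ℝ) (β : ℝ → ℝ), 0 < ε → ε ≤ 1 / 2 → 0 < γ → IsBump β → ∃ B' : ℝ, 0 < B' ∧
    ∀ (F : Fr) (Q : Par) (D : Dat) (B : ℝ), Q.eps = ε → Q.gam = γ → SetupT F Q D →
      AbsOfT F Q D B → 0 ≤ jT F Q D β ∧ jT F Q D β ≤ B'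

/-- NDST [PFT/NDS.lean]: the total defect. -/
def Stmt_NDST : Prop :=
  ∀ (F : Fr) (Q : Par) (B : ℝ) (β : ℝ → ℝ) (g : TensorField) (l : ℝ), IsBump β →
    ∃ B' : ℝ, 0 < B' ∧
    ∀ D : Dat, SetupT F Q D → AbsOfT F Q D B → D.g = g → D.l = l →
      IntegrableOn (fun x => D.ph Q x * D.e x * D.vol x)
        (cAnnT F.T (Q.kap / D.l) D.l ∩ {x | D.sb Q / 2 ≤ D.w Q x}) ∧ 0 ≤ ndT F Q D ∧
      ∀ (T : Set E3) (e₀ e₂ : E3 → ℝ) (E V s J : ℝ), (∀ x, D.e x = e₀ x + e₂ x) →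
        Continuous e₀ → Continuous e₂ → (∀ x, 0 ≤ e₀ x ∧ 0 ≤ e₂ x ∧ e₀ x ≤ E) →
        (∀ x, x ∉ T → e₀ x = 0) → IsCompact T → T ⊆ omT F D →
        (∀ x ∈ T, D.sb Q / 2 ≤ D.w Q x ∧ D.w Q x ≤ s) → s ≤ D.s2 Q → 0 ≤ J → 0 ≤ V →
        (∫ x in T, D.vol x) ≤ V → jT F Q D β ≤ J →
        ndT F Q D ≤ E * Real.exp (s / (2 - Q.eps)) * ((J * Real.exp s) ^ (1 / (1 + Q.eps))
            * V ^ (Q.eps / (1 + Q.eps)))
          + B' * (∫ x in cAnnT F.T (Q.kap / D.l) D.l, e₂ x ^ ((1 + Q.eps) / Q.eps))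
            ^ (Q.eps / (1 + Q.eps))

/-- MATLT [PFlow/E/MATL.lean]: lower bound for the matter term. -/
def Stmt_MATLT : Prop :=
  ∀ (F : Fr) (P : Par) (B : ℝ), ∃ B' : ℝ, 0 < B' ∧ ∀ D : Dat, SetupT F P D → AbsOfT F P D B →
    (∀ (χ : ℝ → ℝ) (se : ℝ), Continuous χ → (∀ s, 0 ≤ χ s ∧ χ s ≤ 1) →
      (∀ s, s ≤ D.sb P / 2 → χ s = 0) → (∀ s, D.sb P ≤ s → s ≤ D.s2 P → χ s = 1) →
      se + 1 < D.sM P → (∀ s, se + 1 ≤ s → χ s = 0) →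
      -(ndT F P D) - B' * (∫ x in cAnn (D.l / 2) D.l,
            D.ph P x * (msz (D.h x) / D.l + msz (D.h x) ^ 2))
          + 1 / 2 * (∫ x in cAnn D.l (2 * D.l), D.ph P x * linR D.g' x)
          - B' / D.l ^ 4 * (∫ x in cAnn D.l (2 * D.l), D.ph P x)
        ≤ ∫ x in omT F D, χ (D.w P x) * Real.exp (D.w P x / (2 - P.eps)) * D.Su P x
            * D.vol x) ∧
    (∀ t : ℝ, t < D.sM P →
      (∫ x in omT F D ∩ {x | D.sb P / 2 < D.w P x ∧ D.w P x < t},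
        Real.exp (D.w P x / (2 - P.eps)) * max (-D.Su P x) 0 * D.vol x)
      ≤ ndT F P D + B' / D.l ^ 3 * ∫ x in cAnn (D.l / 2) (2 * D.l), D.ph P x)

/-- ENERT [PFlow/E/ENER.lean; inputs TSTAT, MATLT, UPHT]: the energy bound. -/
def Stmt_ENERT : Prop :=
  ∀ (F : Fr) (P : Par) (B : ℝ), ∃ B' : ℝ, 0 < B' ∧ ∀ D : Dat, SetupT F P D → AbsOfT F P D B →
    ∀ se : ℝ, CutT F P D se →
      IntegrableOn (fun x => Real.exp (D.w P x / (2 - P.eps)) * D.Di P x * D.vol x)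
        (cAnn (D.l / 4) (D.Kl P)) ∧
      (∫ x in cAnn (D.l / 4) (D.Kl P), Real.exp (D.w P x / (2 - P.eps)) * D.Di P x * D.vol x)
        ≤ B'

/-- WGTET [PFlow/E/WGTE.lean]: the weight is almost constant. -/
def Stmt_WGTET : Prop :=
  ∀ (F : Fr) (P : Par) (B : ℝ), ∃ B' : ℝ, 0 < B' ∧ ∀ D : Dat, SetupT F P D → AbsOfT F P D B →
    ∀ se : ℝ, CutT F P D se → ∃ lm : ℝ, Lam P D B' lm

/-- MSITT [PFT/MSIT.lean; inputs TSTAT, MATLT, UPHT]: the mass inequality (i). -/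
def Stmt_MSITT : Prop :=
  ∀ (F : Fr) (Q : Par) (B B₃ : ℝ), ∃ B' : ℝ, 0 < B' ∧ ∀ D : Dat, SetupT F Q D →
    AbsOfT F Q D B → ∀ se lm : ℝ, CutT F Q D se → Lam Q D B₃ lm →
      4 * Real.pi * (2 - Q.eps) ≤ 8 * Real.pi * massIntegral D.g D.l * lm + ndT F Q D
        + 3 * kT F Q + B' * (D.l ^ (-(1 / 2 : ℝ)) + D.th + D.er Q se)

/-- MSIIT [PFlow/E/MSII.lean; inputs TSTBT, MATLT]: the inequality (ii) for the flux. -/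
def Stmt_MSIIT : Prop :=
  ∀ (F : Fr) (P : Par) (B B₃ θ : ℝ) (β : ℝ → ℝ), 0 < θ → θ < 1 → IsBump β → ∃ B' : ℝ, 0 < B' ∧
    ∀ D : Dat, SetupT F P D → AbsOfT F P D B → ∀ se lm L : ℝ, CutT F P D se →
      Lam P D B₃ lm → 1 ≤ L → D.s2 P + L + 1 < D.sM P →
      jT F P D β * lm ^ (2 - P.eps)
        ≤ θ ^ (-(2 * (2 - P.eps))) * (4 * Real.pi * (2 - P.eps) ^ 2)
          + B' * (1 / D.l + Real.exp (-(L / P.eps)))

/-- HOLKT [PFT/HOLK.lean]: the area integral over a compact set. -/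
def Stmt_HOLKT : Prop :=
  ∀ (F : Fr) (Q : Par) (B : ℝ) (β : ℝ → ℝ), IsBump β → ∀ D : Dat, SetupT F Q D →
    AbsOfT F Q D B → 0 ≤ jT F Q D β ∧
    ∀ K : Set E3, IsCompact K → K ⊆ omT F D → ∀ s₀ s₁ : ℝ, D.sb Q / 4 < s₀ → s₀ < s₁ →
      s₁ ≤ D.s2 Q →
      ∫ x in K ∩ {x | s₀ ≤ D.w Q x ∧ D.w Q x ≤ s₁}, D.X Q x * D.vol x
        ≤ (jT F Q D β * (Real.exp s₁ - Real.exp s₀)) ^ (1 / (1 + Q.eps))
            * (∫ x in K, D.vol x) ^ (Q.eps / (1 + Q.eps))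

end Pool.Agent.PFU
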