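import Pool.Agent.PFU.StmtsL

/-!
# Flows from several ends: existence of the setup, the flow, the limit, the theorem
-/

open MeasureTheory Filter Topology
open scoped ContDiff ENNReal

namespace Pool.Agent.PFU

open Pool.Agent.PenroseSph Pool.Agent.PFlow Pool.Agent.PFT

/-! ### Modified data (outputs of block D) -/

/-- The other ends of `P` are outside the balls and inside the large ball of the frame. -/
def FrameFor (P : Finset E3) (F : Fr) : Prop :=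
  F.Ok ∧ F.T ⊆ P ∧ ∀ q ∈ P, q ∉ F.T → (∀ p ∈ F.T, 2 * F.rho < ‖q - p‖) ∧ ‖q‖ < F.rad

/-- EETAU [PFlow/E/EETA.lean for a general open set]: the defect of the change of sign is small for
small `η`. -/
def Stmt_EETAU : Prop :=
  ∀ (U K : Set E3) (g h : TensorField), IsOpen U → MetricOn U g → TensorOn U h → IsCompact K →
    K ⊆ U → ∀ q τ : ℝ, 1 ≤ q → 0 < τ → ∃ η : ℝ, 0 < η ∧ η ≤ 1 ∧
      ∫ x in K, eEta η g h x ^ q ≤ τ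

/-- MODT: the modified data. `Cb` does not depend on the depth `N` of the caps, `C` does. -/
def Stmt_MODT : Prop :=
  ∀ (P : Finset E3) (F : Fr) (g k : TensorField), FrameFor P F → SeveralEnds P g k →
    (∀ x : E3, x ∉ P → 0 ≤ surplus g k x) → PlaneSignP P g k →
    ∃ Cb N₀ : ℝ, 0 < Cb ∧ 1 ≤ N₀ ∧ ∀ (C₁ N : ℝ) (g₁ k₁ : TensorField) (e₁ : E3 → ℝ),
      N₀ ≤ N → CappedT P F.T g k C₁ N g₁ k₁ e₁ → ∃ C l₀ : ℝ, 0 < C ∧ 2 ≤ l₀ ∧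
        (∀ x : E3, F.rad ≤ ‖x‖ → ∀ i j, |k₁ x i j| ≤ C / ‖x‖ ^ 2) ∧
        (∀ p ∈ F.T, ∀ y : E3, 1 / F.rho ≤ ‖y‖ → ∀ v : Cov,
          (∑ i, v i ^ 2) ≤ C * ev (inverted (shift p g₁) y) v v ∧
          ev (inverted (shift p g₁) y) v v ≤ C * ∑ i, v i ^ 2) ∧
        ∀ l R η : ℝ, l₀ ≤ l → 4 * l ≤ R → 0 < η →
          Barrier F Cb R (modGT F.T l R g₁) (modHT F.T η l R g₁ k₁) ∧
          ModifiedT F g₁ k₁ C l R (modGT F.T l R g₁) (modHT F.T η l R g₁ k₁)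
            (fun x => e₁ x + chiN F.T (R / 2) x * eEta η g₁ k₁ x)

/-- MODMT [PFlow/E, `Stmt_MODM`]: the constant of the modified data may be increased. -/
def Stmt_MODMT : Prop :=
  ∀ (F : Fr) (g h : TensorField) (C C' l R : ℝ) (g' h' : TensorField) (e : E3 → ℝ), F.Ok →
    0 < l → 0 < R → 0 < C → C ≤ C' → ModifiedT F g h C l R g' h' e →
    ModifiedT F g h C' l R g' h' e

/-! ### The flow -/

/-- EXTT [PFT/EXT.lean; inputs CAPT, MODT, MODMT, EETAU, LOCIT, GAMT, ULBT, UUBT, LOCT, USAMT,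
JUUT, NDST, `Stmt_CCO`, PT, SETWT, ABST, CONN, `Stmt_ELL`, `Stmt_BETA`]: existence of the setup.
Choices: the frame `F` for `P`; `C₁` from CAPT, `Cb, N₀` from MODT; `ρ', r` from LOCIT (for `Cb`),
`ρ = min(ρ', rho/2)`; `ε₁, δ₀, b` from CONN (for `P, T, g, ρ, r`; EllAt by `Stmt_ELL`). Given
`ε, τ, δ`: `c, N₁, R₁, r₂` from ULBT, `γ` from GAMT (for this `c`), the flux bound `J` from JUUT, `N`
from CCO (also `1/(8N) < δ/2`, `1/(8N) < δ₀`; `s = -ε log c`, `V = |P| C₁ N³`), the capped data of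
depth `N`, `C, l₀` from MODT, `c₁` from UUBT (for the capped data), `c, C₂, κ` from LOCT,
`Q = (ε, C, c, C₂, γ, κ)`, `B, l₁` from ABST. Given `l, τ', L`: `R` large, `se`, `η` of the tensor
from EETAU (with `K = cAnnT T (κ/l) l`), `η = R^(-pe ε - 1)` for PT, which gives `u₀ ≤ u`. LOCIT,
ULBT, GAMT, UUBT, LOCT apply to both (for `u₀` with `h = 0`; `Barrier` contains the case `h = 0`).
CONN for `u₀` gives `TConn` for `w₀`, hence for `w ≤ w₀`. The rest as in EXT. -/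
def Stmt_EXTT : Prop :=
  ∀ (P T : Finset E3) (g k : TensorField), T ⊆ P → (0 : E3) ∈ T → SeveralEnds P g k →
    (∀ x : E3, x ∉ P → 0 ≤ surplus g k x) → PlaneSignP P g k → Unsplit P T g →
    ∃ (F : Fr) (ρ r ε₁ : ℝ), F.T = T ∧ 0 < ρ ∧ 1 ≤ r ∧ 0 < ε₁ ∧ ε₁ ≤ 1 / 4 ∧
      (∀ p ∈ T, ∀ q ∈ P, p ≠ q → 2 * ρ < ‖p - q‖) ∧ (∀ p ∈ P, ‖p‖ + ρ < r) ∧
      ∀ ε τ δ : ℝ, 0 < ε → ε ≤ ε₁ → 0 < τ → 0 < δ →
        ∃ (Q : Par) (B l₀ : ℝ) (g₁ k₁ : TensorField), Q.eps = ε ∧ 0 < B ∧ 4 ≤ l₀ ∧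
          (∀ x : E3, (∀ p ∈ P, p ∉ T → δ / 2 < ‖x - p‖) → g₁ x = g x ∧ k₁ x = k x) ∧
          ∀ l τ' L : ℝ, l₀ ≤ l → 0 < τ' → 1 ≤ L →
            ∃ (D : Dat) (se : ℝ), D.g = g₁ ∧ D.h = k₁ ∧ D.l = l ∧ SetupT F Q D ∧
              AbsOfT F Q D B ∧ CutT F Q D se ∧ ndT F Q D ≤ τ + τ' ∧ D.er Q se ≤ τ' ∧
              D.s2 Q + L + 1 < D.sM Q ∧ 1 / D.R < ρ / 2 ∧
              ∀ x ∈ omT F D,
                (∀ p ∈ T, ‖x - p‖ ≤ ρ → D.w Q x < Q.eps) ∧ (r ≤ ‖x‖ → 1 < D.w Q x)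

/-- What the flow from the ends of `T` delivers for fixed `ε` (`FlowOn` of PFT/Defs.lean). -/
structure FlowOnT (P T : Finset E3) (g : TensorField) (ε J ρ r δ : ℝ) (w : E3 → ℝ)
    (G : E3 → Cov) : Prop where
  approx : ∀ K : Set E3, IsCompact K →
    (∀ x ∈ K, (∀ p ∈ T, ρ / 2 ≤ ‖x - p‖) ∧ ‖x‖ ≤ 2 * r ∧ ∀ p ∈ P, p ∉ T → δ ≤ ‖x - p‖) →
    L1Approx K w G
  inner : ∀ p ∈ T, ∀ x : E3, ρ / 2 ≤ ‖x - p‖ → ‖x - p‖ ≤ ρ → w x < ε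
  outer : ∀ x : E3, r ≤ ‖x‖ → ‖x‖ ≤ 2 * r → 1 < w x
  bound : ∀ K : Set E3, IsCompact K →
    (∀ x ∈ K, (∀ p ∈ T, ρ / 2 ≤ ‖x - p‖) ∧ ‖x‖ ≤ 2 * r ∧ ∀ p ∈ P, p ∉ T → δ ≤ ‖x - p‖) →
    ∀ s₀ s₁ : ℝ, ε ≤ s₀ → s₀ < s₁ → s₁ ≤ 1 →
      ∫ x in K ∩ {x | s₀ ≤ w x ∧ w x ≤ s₁}, len g x (G x) * volDen g x
        ≤ (J * (Real.exp s₁ - Real.exp s₀)) ^ (1 / (1 + ε))
          * (∫ x in K, volDen g x) ^ (ε / (1 + ε))

/-- EPSTT [PFT/EPST.lean; inputs EXTT, MSITT, MSIIT, WGTET, HOLKT, SETWT, `Stmt_H2L`, `Stmt_BETA`]: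
the flow from the ends of `T`. `C₀ = 24 π (|T| - 1)` (`3 kT F Q = C₀ ε`), `ε₁` also so small that
`C₀ ε₁ ≤ 1`. -/
def Stmt_EPSTT : Prop :=
  ∀ (P T : Finset E3) (g k : TensorField) (m : ℝ), T ⊆ P → (0 : E3) ∈ T → SeveralEnds P g k →
    (∀ x : E3, x ∉ P → 0 ≤ surplus g k x) → PlaneSignP P g k → Unsplit P T g → FarSmall k →
    IsTotalMass g m →
    ∃ ρ r₀ ε₁ C₀ : ℝ, 0 < ρ ∧ 1 ≤ r₀ ∧ 0 < ε₁ ∧ ε₁ ≤ 1 / 4 ∧ 0 ≤ C₀ ∧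
      (∀ p ∈ T, ∀ q ∈ P, p ≠ q → 2 * ρ < ‖p - q‖) ∧ (∀ p ∈ P, ‖p‖ + ρ < r₀) ∧
      ∀ r ε τ δ : ℝ, r₀ ≤ r → 0 < ε → ε ≤ ε₁ → 0 < τ → 0 < δ →
        ∃ (lm J : ℝ) (w : E3 → ℝ) (G : E3 → Cov), 0 < lm ∧ 0 ≤ J ∧
          4 * Real.pi * (2 - ε) - C₀ * ε - τ ≤ 8 * Real.pi * m * lm ∧
          J * lm ^ (2 - ε) ≤ 4 * Real.pi * (2 - ε) ^ 2 + τ ∧
          FlowOnT P T g ε J ρ r δ w G

/-- LIMU [PFT/LIMN.lean]: the limit `τ → 0`, `ε → 0`, then `s₀, s₁ → 0`. -/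
def Stmt_LIMU : Prop :=
  ∀ m A c V C₀ ε₁ : ℝ, 0 < V → 0 ≤ A → 0 ≤ c → 0 ≤ C₀ → 0 < ε₁ →
    (∀ ε τ s₀ s₁ : ℝ, 0 < ε → ε ≤ ε₁ → 0 < τ → ε ≤ s₀ → s₀ < s₁ → s₁ ≤ 1 →
      ∃ lm J : ℝ, 0 < lm ∧ 0 ≤ J ∧
        4 * Real.pi * (2 - ε) - C₀ * ε - τ ≤ 8 * Real.pi * m * lm ∧
        J * lm ^ (2 - ε) ≤ 4 * Real.pi * (2 - ε) ^ 2 + τ ∧
        A * (s₁ - s₀) ≤ c * ((J * (Real.exp s₁ - Real.exp s₀)) ^ (1 / (1 + ε))
          * V ^ (ε / (1 + ε)))) →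
    0 < m ∧ A ≤ c * (16 * Real.pi * m ^ 2)

/-- TFO [PFT/TFA.lean; inputs EPSTT, PERD, LIMU, `Stmt_ELL`]: the inequality for `T ∋ 0`. PERD with
`S = T`, the sphere `|x| = 3r/2` and `K = kset P (aDelT T ρ δ) (3r/2)`. -/
def Stmt_TFO : Prop :=
  ∀ (P T : Finset E3) (g k : TensorField) (m : ℝ), T ⊆ P → (0 : E3) ∈ T → SeveralEnds P g k →
    (∀ x : E3, x ∉ P → 0 ≤ surplus g k x) → PlaneSignP P g k → Unsplit P T g → FarSmall k →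
    IsTotalMass g m →
    minAreaOf P T g ≠ ⊤ ∧ Real.sqrt ((minAreaOf P T g).toReal / (16 * Real.pi)) ≤ m

/-! ### Translation and subadditivity -/

/-- TRA: the areas are invariant under translations (`trans` of PFT/StmtsF.lean): `U ↦ U - p` is a
bijection of the regions, `X ↦ X(· + p)` of the test fields. -/
def Stmt_TRA : Prop :=
  ∀ (P S : Finset E3) (g : TensorField) (p : E3),
    minAreaOf (PFT.trans P p) (PFT.trans S p) (shift p g) = minAreaOf P S g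

/-- TFV [inputs TFO, TRA, `Stmt_TRN`, `Stmt_TRM`]: the inequality for every `T` which does not
split. -/
def Stmt_TFV : Prop :=
  ∀ (P T : Finset E3) (g k : TensorField) (m : ℝ), T ⊆ P → T.Nonempty → SeveralEnds P g k →
    (∀ x : E3, x ∉ P → 0 ≤ surplus g k x) → PlaneSignP P g k → Unsplit P T g → FarSmall k →
    IsTotalMass g m →
    minAreaOf P T g ≠ ⊤ ∧ Real.sqrt ((minAreaOf P T g).toReal / (16 * Real.pi)) ≤ m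

/-- SUBA [inputs MOLE, `Stmt_PERG`]: the infima of the areas are subadditive. If both are finite
take regions `U`, `U'` with perimeters at most `A + τ`, `A' + τ`, the functions `v`, `v'` of MOLE and
`w = (1 - v)(1 - v')`: `w = 1` far out, `w = 0` near the points of `S ∪ S'`, constant near the other
points of `P`, `|dw| ≤ |dv| + |dv'|`. PERG with levels `s₀ = τ`, `s₁ = 1 - τ`, `I = S ∪ S'`. (From
MOLE, `∫ |dv| dV ≤ A + 2τ` by `ε → 0`.) -/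
def Stmt_SUBA : Prop :=
  ∀ (P S S' : Finset E3) (g : TensorField), S ⊆ P → S' ⊆ P → MetricOn ((P : Set E3))ᶜ g →
    minAreaOf P (S ∪ S') g ≤ minAreaOf P S g + minAreaOf P S' g

/-- PART [input SUBA]: decomposition into sets which do not split, by induction on the number of
points of `T`. -/
def Stmt_PART : Prop :=
  ∀ (P T : Finset E3) (g : TensorField), T ⊆ P → T.Nonempty → MetricOn ((P : Set E3))ᶜ g →
    ∃ 𝒯 : Finset (Finset E3), 𝒯.Nonempty ∧ (∀ S ∈ 𝒯, S.Nonempty ∧ S ⊆ T ∧ Unsplit P S g) ∧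
      (∀ S ∈ 𝒯, ∀ S' ∈ 𝒯, S ≠ S' → Disjoint S S') ∧ (∀ p ∈ T, ∃ S ∈ 𝒯, p ∈ S) ∧
      minAreaOf P T g = ∑ S ∈ 𝒯, minAreaOf P S g

/-- TMU [inputs TFV, PART, `Stmt_RLIMK`; see PFT/TMAIN.lean]: **the theorem**. -/
def Stmt_TMU : Prop :=
  ∀ (P : Finset E3) (g h : TensorField) (m : ℝ), SeveralEnds P g h →
    EnergyCondition P g h → (∃ k : TensorField, CompetitorP P g h k) → IsTotalMass g m →
    (∀ T : Finset E3, T ⊆ P → T.Nonempty → Unsplit P T g →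
      minAreaOf P T g ≠ ⊤ ∧ Real.sqrt ((minAreaOf P T g).toReal / (16 * Real.pi)) ≤ m) ∧
    ∀ T : Finset E3, T ⊆ P → T.Nonempty →
      ∃ 𝒯 : Finset (Finset E3), 𝒯.Nonempty ∧ (∀ S ∈ 𝒯, S.Nonempty ∧ S ⊆ T ∧ Unsplit P S g) ∧
        (∀ S ∈ 𝒯, ∀ S' ∈ 𝒯, S ≠ S' → Disjoint S S') ∧ (∀ p ∈ T, ∃ S ∈ 𝒯, p ∈ S) ∧
        minAreaOf P T g = ∑ S ∈ 𝒯, minAreaOf P S g ∧
        minAreaOf P T g ≠ ⊤ ∧
        Real.sqrt ((minAreaOf P T g).toReal / (16 * Real.pi * 𝒯.card)) ≤ m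

end Pool.Agent.PFU
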