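import Pool.Agent.PFU.StmtsA
import Pool.Agent.PFU.StmtsC
import Pool.Agent.PFU.StmtsE

/-!
# Flows from several ends: location of the levels
-/

open MeasureTheory Filter Topology
open scoped ContDiff ENNReal

namespace Pool.Agent.PFU

open Pool.Agent.PenroseSph Pool.Agent.PFlow Pool.Agent.PFT

/-- `(g', h')` agrees with the given data for `1/(8R) ≤ |x - p|`, `p ∈ T`, `|x| ≤ r`, outside the
caps of depth `N` at the points of `P` outside `T`: the metrics agree and `h'` is a small multiple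
of `k`. -/
def SameOnT (P T : Finset E3) (g k : TensorField) (R N r : ℝ) (g' h' : TensorField) : Prop :=
  ∀ x : E3, (∀ p ∈ T, 1 / (8 * R) ≤ ‖x - p‖) → ‖x‖ ≤ r →
    (∀ p ∈ P, p ∉ T → 1 / (8 * N) < ‖x - p‖) →
    g' =ᶠ[𝓝 x] g ∧ ∃ t : ℝ, |t| ≤ 1 ∧ h' x = t • k x

/-- USAMT [PFT/USAM.lean]: the modified capped data agree with the given data outside the caps. -/
def Stmt_USAMT : Prop :=
  ∀ (P T : Finset E3) (g k : TensorField) (C₁ N : ℝ) (g₁ k₁ : TensorField) (e₁ : E3 → ℝ),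
    T ⊆ P → SeveralEnds P g k → CappedT P T g k C₁ N g₁ k₁ e₁ → 1 ≤ N →
    ∀ l R η r₂ : ℝ, 2 ≤ l → 4 * l ≤ R → 0 < η → 2 * r₂ < l →
      SameOnT P T g k R N r₂ (modGT T l R g₁) (modHT T η l R g₁ k₁) ∧
      SameOnT P T g k R N r₂ (modGT T l R g₁) 0 ∧
      SameOnT T T g₁ k₁ R 1 r₂ (modGT T l R g₁) (modHT T η l R g₁ k₁) ∧
      SameOnT T T g₁ k₁ R 1 r₂ (modGT T l R g₁) 0

/-- HART [PFT/Har.lean, `HARAux.chain`]: the Harnack type bound for `SolutionT`. -/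
def Stmt_HART : Prop :=
  ∀ (ε : ℝ) (H : E3 → ℝ) (U : Set E3) (g : TensorField), 0 < ε → ε ≤ 1 → ContinuousOn H U →
    IsOpen U → IsPreconnected U → MetricOn U g →
    ∀ (z₀ : E3) (r₀ : ℝ) (K : Set E3), 0 < r₀ → Metric.closedBall z₀ r₀ ⊆ U → IsCompact K →
      K ⊆ U → ∃ (K' : Set E3) (c : ℝ), IsCompact K' ∧ K' ⊆ U ∧ 0 < c ∧
        ∀ (T : Finset E3) (a b η : ℝ) (g' h' : TensorField) (u : E3 → ℝ) (G : E3 → Cov)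
          (M : E3 → Bil), SolutionT T ε a b η g' h' u G M →
          (∀ x ∈ K', ∀ᶠ y in 𝓝 x, g' y = g y) → (∀ x ∈ K', ∀ i j, |h' x i j| ≤ H x) →
          ∀ c₀ : ℝ, 0 ≤ c₀ →
            ((K' ⊆ {x : E3 | ‖x‖ ≤ b} →
              (∀ x ∈ Metric.closedBall z₀ r₀, c₀ ≤ u x) → ∀ x ∈ K, c * c₀ ≤ u x) ∧
            (K' ⊆ {x : E3 | ∀ p ∈ T, a ≤ ‖x - p‖} →
              (∀ x ∈ Metric.closedBall z₀ r₀, u x ≤ 1 - c₀) → ∀ x ∈ K, u x ≤ 1 - c * c₀))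

/-- NZT [PFT/NZ.lean]: lower bound of the solution near an end `p ∈ T`. With
`f x = k (Φ₊(|x-p|) - Φ₊(ρ))` on `K = {1/(2R) ≤ |x - p| ≤ ρ}`; `opN` is translation invariant. -/
def Stmt_NZT : Prop :=
  ∀ (F : Fr) (ε C : ℝ), F.Ok → 0 < ε → ε ≤ 1 / 2 → 0 < C →
    ∃ c R₀ : ℝ, 0 < c ∧ 0 < R₀ ∧ ∀ R : ℝ, R₀ ≤ R →
      ∀ (η : ℝ) (g h : TensorField) (u : E3 → ℝ) (G : E3 → Cov) (M : E3 → Bil),
        0 < η → η ≤ R ^ (-pe ε - 1) → MetricOn Set.univ g → Barrier F C R g h →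
        SolutionT F.T ε (1 / R) R η g h u G M →
        ∀ p ∈ F.T, ∀ x : E3, ‖x - p‖ ≤ F.rho / 2 → c ≤ u x

/-- LOCIT [PFT/LOCUT.lean: `lower` near every `p ∈ T` with `u ≥ 0` on `|x - p| = rho`, `upper` for
`|x| ≥ rad` with `u ≤ 1` on `|x| = rad`]: location of the level sets, uniformly in `ε`. -/
def Stmt_LOCIT : Prop :=
  ∀ (F : Fr) (C : ℝ), F.Ok → 0 < C → ∃ ρ r : ℝ, 0 < ρ ∧ ρ < F.rho ∧ F.rad < r ∧
    ∀ ε : ℝ, 0 < ε → ε ≤ 1 / 2 → ∃ R₀ : ℝ, ∀ R : ℝ, R₀ ≤ R →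
      ∀ (η : ℝ) (g h : TensorField) (u : E3 → ℝ) (G : E3 → Cov) (M : E3 → Bil),
        0 < η → η ≤ R ^ (-pe ε - 1) → MetricOn Set.univ g → Barrier F C R g h →
        SolutionT F.T ε (1 / R) R η g h u G M → (∀ x : E3, ‖x‖ < R → 0 < u x) →
        ∀ x ∈ AnnT F.T (1 / R) R,
          (∀ p ∈ F.T, ‖x - p‖ ≤ ρ → wOf ε u x < ε) ∧ (r ≤ ‖x‖ → 1 < wOf ε u x)

/-- GAMT [PFT/GAM.lean, with the positivity of `u` from the lower barrier]: the location of the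
outer levels with a constant `γ` which depends only on `ε`, on the barrier for `|x| ≥ rad` and on the
lower bound `c ≤ u` for `|x| ≤ rad`. -/
def Stmt_GAMT : Prop :=
  ∀ (F : Fr) (ε C c : ℝ), F.Ok → 0 < ε → ε ≤ 1 / 2 → 0 < C → 0 < c → ∃ γ : ℝ, 0 < γ ∧
    ∀ l : ℝ, F.rad ≤ l → ∃ R₀ : ℝ, 16 * l ≤ R₀ ∧ ∀ R : ℝ, R₀ ≤ R →
      ∀ (η : ℝ) (g h : TensorField) (u : E3 → ℝ) (G : E3 → Cov) (M : E3 → Bil),
        0 < η → η ≤ R ^ (-pe ε - 1) → MetricOn Set.univ g → Barrier F C R g h →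
        SolutionT F.T ε (1 / R) R η g h u G M → (∀ x : E3, ‖x‖ ≤ F.rad → c ≤ u x) →
        (∀ x : E3, ‖x‖ < R → 0 < u x) ∧
        (∀ x : E3, 1 ≤ ‖x‖ → ‖x‖ ≤ R / 2 → |wOf ε u x - (2 - ε) * Real.log ‖x‖| ≤ γ) ∧
        (∀ x : E3, 1 ≤ ‖x‖ → ‖x‖ < R → (2 - ε) * Real.log ‖x‖ - γ ≤ wOf ε u x) ∧
        (∀ x : E3, ‖x‖ < 4 * l → wOf ε u x < s2E ε γ l)

/-- ULBT [PFT/ULB.lean; inputs NZT, HART; `CONC` of PFT/Har.lean]: lower bound of the solution on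
`|x| ≤ rad`, uniformly in the depth `N` of the caps. In `{rho/4 < |x - p|, p ∈ T, |x| < rad}` the
infimum is attained on the boundary (`SolutionT.noIsland`); on the spheres `|x - p| = rho/4` and in
the balls NZT, on `|x| = rad` HART with `U = ℝ³` minus `P`. -/
def Stmt_ULBT : Prop :=
  ∀ (P : Finset E3) (F : Fr) (g k : TensorField) (ε C : ℝ), F.T ⊆ P → F.Ok →
    SeveralEnds P g k → (∀ p ∈ P, p ∉ F.T → ∀ q ∈ F.T, F.rho < ‖p - q‖) →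
    (∀ p ∈ P, ‖p‖ < F.rad) → 0 < ε → ε ≤ 1 / 2 → 0 < C →
    ∃ c N₁ R₁ r₂ : ℝ, 0 < c ∧ 0 < N₁ ∧ 0 < R₁ ∧ ∀ N R : ℝ, N₁ ≤ N → R₁ ≤ R →
      ∀ (η : ℝ) (g' h' : TensorField) (u : E3 → ℝ) (G : E3 → Cov) (M : E3 → Bil),
        0 < η → η ≤ R ^ (-pe ε - 1) → MetricOn Set.univ g' → SameOnT P F.T g k R N r₂ g' h' →
        Barrier F C R g' h' → SolutionT F.T ε (1 / R) R η g' h' u G M →
        ∀ x : E3, ‖x‖ ≤ F.rad → c ≤ u x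

/-- UUBT [inputs HART, the upper barrier as in LOCIT or GAMT; `CONC` of PFT/Har.lean]: `u` is
bounded away from `1` in a positive distance from the ends of `T`. For `|x| ≥ r'` the upper barrier
gives `u ≤ 1/2`; HART for `1 - u` with `U = ℝ³` minus `T`, a ball of radius `1/2` in `|x| > r'` and
`K = {rho/4 ≤ |x - p|, p ∈ T, |x| ≤ r'}`. -/
def Stmt_UUBT : Prop :=
  ∀ (F : Fr) (g k : TensorField) (ε C : ℝ), F.Ok → SeveralEnds F.T g k → 0 < ε → ε ≤ 1 / 2 →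
    0 < C → ∃ c R₁ r₂ : ℝ, 0 < c ∧ 0 < R₁ ∧ ∀ R : ℝ, R₁ ≤ R →
      ∀ (η : ℝ) (g' h' : TensorField) (u : E3 → ℝ) (G : E3 → Cov) (M : E3 → Bil),
        0 < η → η ≤ R ^ (-pe ε - 1) → MetricOn Set.univ g' → SameOnT F.T F.T g k R 1 r₂ g' h' →
        Barrier F C R g' h' → SolutionT F.T ε (1 / R) R η g' h' u G M →
        ∀ x : E3, (∀ p ∈ F.T, F.rho / 4 ≤ ‖x - p‖) → u x ≤ 1 - c

/-- LOCT [PFlow/E/LOC.lean]: the location of the levels. Near `p ∈ T`, with `y = x - p`: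
for `1/(2R) ≤ |y| ≤ rho` the lower barrier gives
`1 - u ≤ η + (Φ₊(1/(2R)) - Φ₊(|y|))/(Φ₊(1/(2R)) - Φ₊(rho)) ≤ C (|y|^p + R^-p)`, for
`1/R ≤ |y| ≤ rho` the upper barrier with `u ≤ 1` on `|y| = 1/R`, `u ≤ 1 - c₁` on `|y| = rho` gives
`1 - u ≥ c₁ (Φ₋(1/R) - Φ₋(|y|))/Φ₋(0) ≥ c' (|y|^p - R^-p)`. First `c` (small), then `κ` (small
compared with `c`), `l₀`, then `R₀(l)`. The fields `pos`, `outer`, `outer_low`, `mid` are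
hypotheses. -/
def Stmt_LOCT : Prop :=
  ∀ (F : Fr) (ε C c₁ γ : ℝ), F.Ok → 0 < ε → ε ≤ 1 / 2 → 0 < C → 0 < c₁ → 0 < γ →
    ∃ c C₂ κ l₀ : ℝ, 0 < c ∧ c ≤ 1 ∧ 0 < C₂ ∧ 0 < κ ∧ κ ≤ 1 / 8 ∧ 1 ≤ l₀ ∧
      ∀ l : ℝ, l₀ ≤ l → ∃ R₀ : ℝ, 16 * l ≤ R₀ ∧ ∀ R : ℝ, R₀ ≤ R →
        ∀ (η : ℝ) (g h : TensorField) (u : E3 → ℝ) (G : E3 → Cov) (M : E3 → Bil),
          0 < η → η ≤ R ^ (-pe ε - 1) → MetricOn Set.univ g → Barrier F C R g h →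
          SolutionT F.T ε (1 / R) R η g h u G M →
          (∀ x : E3, (∀ p ∈ F.T, F.rho / 4 ≤ ‖x - p‖) → u x ≤ 1 - c₁) →
          (∀ x : E3, ‖x‖ < R → 0 < u x) →
          (∀ x : E3, 1 ≤ ‖x‖ → ‖x‖ ≤ R / 2 → |wOf ε u x - (2 - ε) * Real.log ‖x‖| ≤ γ) →
          (∀ x : E3, 1 ≤ ‖x‖ → ‖x‖ < R → (2 - ε) * Real.log ‖x‖ - γ ≤ wOf ε u x) →
          (∀ x : E3, ‖x‖ < 4 * l → wOf ε u x < s2E ε γ l) →
          LocatedT F.T ε c C₂ γ κ l R u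

end Pool.Agent.PFU
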