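import Pool.Agent.PFU.Defs
import Pool.Agent.PFlow.M_Main

/-!
# Block M for several inner balls: the level set inequality `Stmt_MIU`

The statements are those of `Pool.Agent.PFlow.StmtsM` (modules FA, FM, FB, FC, FD, AEG, FX, TR, LSA,
LSB, LSG, LS, BAD, SEQ, MIT, MI, with the proofs in `Pool.Agent.PFlow.M_*`), with the ball about the
origin replaced by the balls about the points of the finite set `T`. The leaves of the filled
function are no longer connected: they have at most `|T|` components, and one component above a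
level `c` such that the points of `T` are connected with each other below the level `c` (`LVT`).
The modules FR, CR, ID, POS, BO, JD, LD, SD, ZD, IB, CT, UP, CHD, KER, L4, H2I, APB, INT, AV, MO, AP,
CV, SM, FD1 of PFlow are about general open sets and are used as they are (`Pool.Agent.PFlow.AllM`).
-/

open MeasureTheory Filter Topology
open scoped ContDiff ENNReal

namespace Pool.Agent.PFU

open Pool.Agent.PenroseSph Pool.Agent.PFlow Pool.Agent.PFT

/-! ## Filling -/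

/-- The smallest level `c` such that `y` is connected with a point of `T` in `{W ≤ c}`. -/
noncomputable def fillBT (W : E3 → ℝ) (s₁ : ℝ) (T : Finset E3) (y : E3) : ℝ :=
  sInf {c : ℝ | c ≤ s₁ ∧ ∃ z ∈ T, Conn {x | W x ≤ c} y z}

/-- The filled function. -/
noncomputable def fillT (W : E3 → ℝ) (s₀ s₁ : ℝ) (T : Finset E3) (z₁ : E3) : E3 → ℝ :=
  fillBT (fillA W s₀ z₁) s₁ T

/-- The set where filling changes nothing. -/
def goodT (W : E3 → ℝ) (s₀ s₁ : ℝ) (T : Finset E3) (z₁ : E3) : Set E3 :=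
  {x | fillA W s₀ z₁ x = W x ∧ fillT W s₀ s₁ T z₁ x = fillA W s₀ z₁ x}

open Classical in
/-- The function `w`, truncated at the levels `s₀` and `s₁`, and extended by `s₀` to the balls of
radius `a'` about the points of `T` and by `s₁` to `|x| ≥ b'`. -/
noncomputable def trWT (T : Finset E3) (a' b' s₀ s₁ : ℝ) (w : E3 → ℝ) (x : E3) : ℝ :=
  if ∃ p ∈ T, ‖x - p‖ ≤ a' then s₀ else if b' ≤ ‖x‖ then s₁ else max s₀ (min s₁ (w x))

/-- A truncated function: continuous, between `s₀` and `s₁`, equal to `s₀` on the balls of radius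
`a'` about the points of `T` and to `s₁` outside a larger ball. -/
structure TruncT (T : Finset E3) (a' b' s₀ s₁ : ℝ) (W : E3 → ℝ) : Prop where
  ne : T.Nonempty
  pos : 0 < a'
  inside : ∀ p ∈ T, ‖p‖ + a' < b'
  disj : ∀ p ∈ T, ∀ q ∈ T, p ≠ q → 2 * a' < ‖p - q‖
  lts : s₀ < s₁
  cont : Continuous W
  lower : ∀ x, s₀ ≤ W x
  upper : ∀ x, W x ≤ s₁
  inner : ∀ p ∈ T, ∀ x : E3, ‖x - p‖ ≤ a' → W x = s₀
  outer : ∀ x : E3, b' ≤ ‖x‖ → W x = s₁

/-- **FAT.** The filled functions are Lipschitz and truncated (FA of PFlow; M_FA.lean). -/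
def Stmt_FAT : Prop := ∀ (T : Finset E3) (a' b' s₀ s₁ : ℝ) (W : E3 → ℝ) (C : NNReal) (z₁ : E3),
  TruncT T a' b' s₀ s₁ W → LipschitzWith C W → b' ≤ ‖z₁‖ →
  LipschitzWith C (fillA W s₀ z₁) ∧ LipschitzWith C (fillT W s₀ s₁ T z₁) ∧
  (∀ x, fillA W s₀ z₁ x ≤ W x) ∧ (∀ x, fillA W s₀ z₁ x ≤ fillT W s₀ s₁ T z₁ x) ∧
  TruncT T a' b' s₀ s₁ (fillA W s₀ z₁) ∧ TruncT T a' b' s₀ s₁ (fillT W s₀ s₁ T z₁)

/-- **FMT.** The filled function depends on the function in a Lipschitz way (M_FM.lean). -/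
def Stmt_FMT : Prop := ∀ (T : Finset E3) (a' b' s₀ s₁ e : ℝ) (W W' : E3 → ℝ) (z₁ : E3),
  TruncT T a' b' s₀ s₁ W → TruncT T a' b' s₀ s₁ W' → b' ≤ ‖z₁‖ → (∀ x, |W x - W' x| ≤ e) →
  ∀ x, |fillT W s₀ s₁ T z₁ x - fillT W' s₀ s₁ T z₁ x| ≤ e

/-- **FBT.** The filled functions are locally constant where something was filled (M_FB.lean). -/
def Stmt_FBT : Prop := ∀ (T : Finset E3) (a' b' s₀ s₁ : ℝ) (W : E3 → ℝ) (C : NNReal) (z₁ : E3),
  TruncT T a' b' s₀ s₁ W → LipschitzWith C W → b' ≤ ‖z₁‖ →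
  (∀ x, fillA W s₀ z₁ x ≠ W x → ∀ᶠ y in 𝓝 x, fillA W s₀ z₁ y = fillA W s₀ z₁ x) ∧
  (∀ x, fillT W s₀ s₁ T z₁ x ≠ fillA W s₀ z₁ x →
    ∀ᶠ y in 𝓝 x, fillT W s₀ s₁ T z₁ y = fillT W s₀ s₁ T z₁ x)

/-- **FCT.** The superlevel sets of the filled function are connected, and every point of a sublevel
set is connected with a point of `T` in it (M_FC.lean). -/
def Stmt_FCT : Prop := ∀ (T : Finset E3) (a' b' s₀ s₁ : ℝ) (W : E3 → ℝ) (C : NNReal) (z₁ : E3),
  TruncT T a' b' s₀ s₁ W → LipschitzWith C W → b' ≤ ‖z₁‖ → ∀ c : ℝ,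
  (∀ x, fillT W s₀ s₁ T z₁ x < c → ∃ p ∈ T, Conn {y | fillT W s₀ s₁ T z₁ y < c} x p) ∧
  IsPreconnected {x | c < fillT W s₀ s₁ T z₁ x}

/-- **FDT.** Nothing is filled at regular levels (M_FD.lean; for the second filling use `Stmt_FD1`
for every point of `T` and the minimum of the finitely many `e`). -/
def Stmt_FDT : Prop := ∀ (T : Finset E3) (a' b' s₀ s₁ : ℝ) (W : E3 → ℝ) (C : NNReal) (z₁ : E3),
  TruncT T a' b' s₀ s₁ W → LipschitzWith C W → b' ≤ ‖z₁‖ → ∀ α β : ℝ, s₀ ≤ α → α < β → β ≤ s₁ →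
  (∀ c ∈ Set.Ioo α β, RegLevel W c) →
  ∀ x, fillT W s₀ s₁ T z₁ x ∈ Set.Ioo α β → x ∈ goodT W s₀ s₁ T z₁

/-- **AEGT.** The derivative of the filled function (M_AEG.lean). -/
def Stmt_AEGT : Prop := ∀ (T : Finset E3) (a' b' s₀ s₁ : ℝ) (W : E3 → ℝ) (C : NNReal) (z₁ : E3),
  TruncT T a' b' s₀ s₁ W → LipschitzWith C W → b' ≤ ‖z₁‖ →
  IsClosed (goodT W s₀ s₁ T z₁) ∧
  ∀ᵐ x : E3, (x ∈ goodT W s₀ s₁ T z₁ → fderiv ℝ (fillT W s₀ s₁ T z₁) x = fderiv ℝ W x) ∧
    (x ∉ goodT W s₀ s₁ T z₁ → fderiv ℝ (fillT W s₀ s₁ T z₁) x = 0)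

/-- **FXT.** A function without islands is not changed by filling (M_FX.lean; a component of
`{W ≤ c}` which does not meet `T` does not meet the balls of radius `a'`, on which `W = s₀`). -/
def Stmt_FXT : Prop := ∀ (T : Finset E3) (a b a' b' s₀ s₁ : ℝ) (w : E3 → ℝ) (z₁ : E3),
  T.Nonempty → 0 < a → a < a' → b' < b → (∀ p ∈ T, ‖p‖ + a' < b') →
  (∀ p ∈ T, ∀ q ∈ T, p ≠ q → 2 * a' < ‖p - q‖) → s₀ < s₁ → ContinuousOn w (AnnT T a b) →
  NoIsland (AnnT T a b) w → (∀ p ∈ T, ∀ x : E3, a < ‖x - p‖ → ‖x - p‖ ≤ a' → w x ≤ s₀) →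
  (∀ x : E3, b' ≤ ‖x‖ → ‖x‖ < b → s₁ ≤ w x) → b' ≤ ‖z₁‖ →
  TruncT T a' b' s₀ s₁ (trWT T a' b' s₀ s₁ w) ∧
  ∀ x, fillT (trWT T a' b' s₀ s₁ w) s₀ s₁ T z₁ x = trWT T a' b' s₀ s₁ w x

/-- **TRT.** Truncation of an approximation (M_TR.lean). -/
def Stmt_TRT : Prop := ∀ (T : Finset E3) (a b a' b' s₀ s₁ η e : ℝ) (w v : E3 → ℝ),
  T.Nonempty → 0 < a → a < a' → b' < b → (∀ p ∈ T, ‖p‖ + a' < b') →
  (∀ p ∈ T, ∀ q ∈ T, p ≠ q → 2 * a' < ‖p - q‖) → s₀ < s₁ → 0 < e → e < η →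
  ContinuousOn w (AnnT T a b) →
  (∀ p ∈ T, ∀ x : E3, a < ‖x - p‖ → ‖x - p‖ ≤ a' → w x ≤ s₀ - η) →
  (∀ x : E3, b' ≤ ‖x‖ → ‖x‖ < b → s₁ + η ≤ w x) → ContDiff ℝ ∞ v →
  (∀ x ∈ AnnT T a b, s₀ - η ≤ w x → w x ≤ s₁ + η → |v x - w x| ≤ e) →
  ∃ (W : E3 → ℝ) (C : NNReal), TruncT T a' b' s₀ s₁ W ∧ LipschitzWith C W ∧
    (∀ x, |W x - trWT T a' b' s₀ s₁ w x| ≤ e) ∧
    (∀ x ∈ AnnT T a b, s₀ + e < w x → w x < s₁ - e → ∀ᶠ y in 𝓝 x, W y = v y)

/-! ## The leaves -/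

/-- **LVT.** The part of `E3` where `α < f < β`, without critical points, is a union of at most `|T|`
disjoint open sets in which the leaves are connected.

Proof. For `s` in `(α, β)` let `p ~ q` for `p, q ∈ T` if `p` and `q` are connected in `{f < s}`. This
relation does not depend on `s`: it becomes coarser if `s` increases. Suppose that `p`, `q` are
related for some `s` and not for another `s`, and let `t` be the infimum of the `s ∈ (α, β)` for
which they are related; `α < t < β`. If they are related for `t`: the component of `p` in the open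
set `{f < t}` is path connected, a path from `p` to `q` is compact, so `f < t - e` on it,
contradiction. If they are not related for `t`, apply `Stmt_FD1` to `-f` and the level `-t` (a
regular level by `Stmt_SM`): they are not related for `t + e`, contradiction. Choose
representatives `p_1, ..., p_n` of the classes, `n ≤ |T|` (and `n ≤ 1` if all points are related for
some `s`), and let `G_i(s)` be the set of the `x` with `Conn {f < s} x p_i` (open, preconnected,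
increasing in `s`, disjoint for different `i`). Let `V_i` be the union over the `s < β` of the
`G_i(s)`, intersected with `{α < f}`. These sets are open and disjoint and
`{α < f < β}` is their union: if `f x < s < β`, then `x` is connected with a point of `T` in
`{f < s}`. Leaves: let `α < s < β`, choose `s'` in `(s, β)`. Let `k = f` on `G_i(s')` and
`k = max(f, s')` elsewhere. `k` is continuous: on the open set `{f < s'}`, the disjoint union of the
open sets `G_j(s')`, it is locally `f` or the constant `s'`, on `{f > s'}` it is `f`, and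
`|k - s'| ≤ |f - s'|`, which gives the points where `f = s'`. `{k < s} = G_i(s)` is preconnected (if
`x ∈ G_i(s')` and `f x < s`, then `x` is connected with some `z ∈ T` in `{f < s}`, `z ~ p_i`, and so
`x` is connected with `p_i` in `{f < s}`). `{s < k}` is the union of `{s < f}`, preconnected by
hypothesis, and the `G_j(s')`, `j ≠ i`, which are preconnected and meet `{s < f}` (otherwise
`f ≤ s < s'` on the closure of `G_j(s')`, and so `G_j(s')`, a component of `{f < s'}`, is open and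
closed, and is `E3`, but `p_i` is not in it). If `s + e < s'`, then `{|k - s| ≤ e}` is
`{|f - s| ≤ e}` minus the open sets `G_j(s')`, `j ≠ i`, compact. Apply `Stmt_UNIC` to `k`:
`{k = s} = V_i ∩ {f = s}` is preconnected. -/
def Stmt_LVT : Prop := ∀ (f : E3 → ℝ) (α β : ℝ) (T : Finset E3), α < β → T.Nonempty →
  Continuous f → (∀ p ∈ T, f p ≤ α) → IsCompact {x | f x ∈ Set.Icc α β} →
  (∀ x, f x ∈ Set.Ioo α β → ContDiffAt ℝ ∞ f x ∧ fderiv ℝ f x ≠ 0) →
  (∀ s ∈ Set.Ioo α β, ∀ x, f x < s → ∃ p ∈ T, Conn {y | f y < s} x p) →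
  (∀ s ∈ Set.Ioo α β, IsPreconnected {x | s < f x}) →
  ∃ (n : ℕ) (V : Fin n → Set E3), n ≤ T.card ∧
    ((∃ s ∈ Set.Ioo α β, ∀ p ∈ T, ∀ q ∈ T, Conn {x | f x < s} p q) → n ≤ 1) ∧
    (∀ i, IsOpen (V i)) ∧ (∀ i j, i ≠ j → Disjoint (V i) (V j)) ∧
    (⋃ i, V i) = {x | f x ∈ Set.Ioo α β} ∧
    ∀ i, ∀ s : ℝ, IsPreconnected (V i ∩ f ⁻¹' {s})

/-! ## The inequality for a smooth function -/

/-- The hypotheses of the level set inequality for a smooth function: `W` is a truncated Lipschitz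
function which is equal to the smooth function `v` near the compact set `K`, `K` contains the
points where `W` or the filled function take values in `[t₀, t₁]`, and the points of `T` are
connected with each other in the set where the filled function is less than `c`. -/
structure LSDataT (T : Finset E3) (U : Set E3) (g h : TensorField) (a' b' s₀ s₁ t₀ t₁ c : ℝ)
    (W v : E3 → ℝ) (C : NNReal) (z₁ : E3) (K : Set E3) (ψ : ℝ → ℝ) : Prop where
  openU : IsOpen U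
  met : MetricOn U g
  ten : TensorOn U h
  trunc : TruncT T a' b' s₀ s₁ W
  lip : LipschitzWith C W
  far : b' ≤ ‖z₁‖
  smooth : ContDiff ℝ ∞ v
  compact : IsCompact K
  sub : K ⊆ U
  agree : ∀ x ∈ K, ∀ᶠ y in 𝓝 x, W y = v y
  lt₀ : s₀ < t₀
  lt : t₀ < t₁
  lt₁ : t₁ < s₁
  diff : ContDiff ℝ 1 ψ
  nonneg : ∀ s, 0 ≤ ψ s
  supp : tsupport ψ ⊆ Set.Ioo t₀ t₁
  levels : ∀ x, fillT W s₀ s₁ T z₁ x ∈ Set.Icc t₀ t₁ → x ∈ K
  levelsW : ∀ x, W x ∈ Set.Icc t₀ t₁ → x ∈ K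
  conn : ∀ p ∈ T, ∀ q ∈ T, Conn {x | fillT W s₀ s₁ T z₁ x < c} p q

/-- The part of the levels in the support of `ψ` where something was filled. -/
def badsetT (W : E3 → ℝ) (s₀ s₁ : ℝ) (T : Finset E3) (z₁ : E3) (ψ : ℝ → ℝ) : Set E3 :=
  {x | fillT W s₀ s₁ T z₁ x ∈ tsupport ψ} \ goodT W s₀ s₁ T z₁

/-- **LSAT.** Integration by parts with `ψ` of the filled function (M_LSA.lean). -/
def Stmt_LSAT : Prop := ∀ (ε : ℝ) (T : Finset E3) (U : Set E3) (g h : TensorField)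
  (a' b' s₀ s₁ t₀ t₁ c : ℝ) (W v : E3 → ℝ) (C : NNReal) (z₁ : E3) (K : Set E3) (ψ : ℝ → ℝ),
  0 < ε → ε < 1 →
  LSDataT T U g h a' b' s₀ s₁ t₀ t₁ c W v C z₁ K ψ → ∀ d : ℝ, 0 < d →
  - ∫ x in K ∩ goodT W s₀ s₁ T z₁,
      deriv ψ (v x) * (∑ i, pd i v x * Zf ε g h d x (grad v x) (hess2 v x) i) * volDen g x
    = ∫ x in K, ψ (fillT W s₀ s₁ T z₁ x) * DZx ε g h d x (grad v x) (hess2 v x) * volDen g x

/-- **LSBT.** The limit `d → 0` and the crude bound where something was filled (M_LSB.lean; many of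
the lemmas there do not use the filling and can be cited). -/
def Stmt_LSBT : Prop := ∀ (ε : ℝ) (U : Set E3) (g h : TensorField) (K : Set E3), 0 < ε → ε < 1 →
  IsOpen U → MetricOn U g → TensorOn U h → IsCompact K → K ⊆ U → ∃ C₀ : ℝ, 0 ≤ C₀ ∧
  ∀ (T : Finset E3) (a' b' s₀ s₁ t₀ t₁ c : ℝ) (W v : E3 → ℝ) (C : NNReal) (z₁ : E3)
    (ψ : ℝ → ℝ) (B : ℝ),
  LSDataT T U g h a' b' s₀ s₁ t₀ t₁ c W v C z₁ K ψ → (∀ s, ψ s ≤ B) →
  {x ∈ K | grad v x = 0}.Finite →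
  IntegrableOn (fun x => resid ε g h x (grad v x) (hess2 v x) ^ 2 / vn (grad v x)) K →
  IntegrableOn (fun x => ψ (v x) * (msq (hess2 v x) / vn (grad v x)))
    (K ∩ goodT W s₀ s₁ T z₁) ∧
  IntegrableOn (fun x => ψ (v x) * DZx ε g h 0 x (grad v x) (hess2 v x) * volDen g x)
    (K ∩ goodT W s₀ s₁ T z₁) ∧
  - ∫ x in K ∩ goodT W s₀ s₁ T z₁,
      deriv ψ (v x) * flux ε g h x (grad v x) (hess2 v x) * volDen g x
    ≤ (∫ x in K ∩ goodT W s₀ s₁ T z₁,
        ψ (v x) * DZx ε g h 0 x (grad v x) (hess2 v x) * volDen g x)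
      + C₀ * B * ∫ x in badsetT W s₀ s₁ T z₁ ψ,
        (resid ε g h x (grad v x) (hess2 v x) ^ 2 / vn (grad v x)
          + (1 + vsq (grad v x)) * vn (grad v x))

/-- **LSGT.** The Gauss-Bonnet inequality for the filled levels of a smooth function, away from
finitely many critical values (M_LSG.lean).

Proof. As in M_LSG.lean, by induction over the critical values one may suppose that there are none
in `(α, β)`, `t₀ ≤ α < β ≤ t₁`, and that `χ` is a bump on `(α, β)`. Let `F = fillT W`. `Stmt_LVT`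
applies to `F` (`Stmt_FDT`: `F = W = v` near the points with `α < F < β`; `Stmt_FCT`). The sets `V i`
satisfy `Fol (V i) α β g v` (`V i ∩ {c' ≤ v ≤ d'}` is `{c' ≤ F ≤ d'}` minus the open sets `V j`,
`j ≠ i`, so compact), and `Stmt_GB` gives `4π ∫ χ` for every `i`; the sum over `i` is at most
`4π n ∫ χ`. If `c ≤ α`, then `n ≤ 1` by `conn`. If `β ≤ c`, then `n ≤ |T|` and the integral of `χ`
over `Iic c` is the whole integral. If `α < c < β`: let `θ_k` be smooth with `0 ≤ θ_k ≤ 1`,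
`θ_k = 0` for `s ≤ c + 1/(3k)`, `θ_k = 1` for `s ≥ c + 1/k`; use the first case for `χ θ_k` on
`(c, β)` and the second with the bound `4π |T|` for `χ (1 - θ_k)` on `(α, β)`, add, and let
`k → ∞` (only the right hand side depends on `k`; dominated convergence). -/
def Stmt_LSGT : Prop := ∀ (T : Finset E3) (U : Set E3) (g h : TensorField)
  (a' b' s₀ s₁ t₀ t₁ c : ℝ) (W v : E3 → ℝ) (C : NNReal) (z₁ : E3) (K : Set E3) (ψ χ : ℝ → ℝ),
  LSDataT T U g h a' b' s₀ s₁ t₀ t₁ c W v C z₁ K ψ → BumpOn t₀ t₁ χ →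
  {x ∈ K | grad v x = 0}.Finite → (∀ x ∈ K, grad v x = 0 → v x ∉ tsupport χ) →
  ∫ x in K ∩ goodT W s₀ s₁ T z₁, χ (v x) * Kd g x (grad v x) (hess2 v x) * volDen g x
    ≤ 4 * Real.pi * (∫ s, χ s) + 4 * Real.pi * (T.card - 1) * ∫ s in Set.Iic c, χ s

/-- **LST.** The level set inequality for a smooth function with small residual (M_LS.lean; the
cutoffs `χ ≤ ψ` satisfy `∫_{Iic c} χ ≤ ∫_{Iic c} ψ`, and `0 ≤ |T| - 1`). -/
def Stmt_LST : Prop := ∀ (ε θ : ℝ) (U : Set E3) (g h : TensorField) (K : Set E3), 0 < ε →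
  ε < 1 → 0 < θ → θ < 1 → IsOpen U → MetricOn U g → TensorOn U h → IsCompact K → K ⊆ U →
  ∃ C₀ : ℝ, 0 ≤ C₀ ∧
  ∀ (T : Finset E3) (a' b' s₀ s₁ t₀ t₁ c : ℝ) (W v : E3 → ℝ) (C : NNReal) (z₁ : E3)
    (ψ : ℝ → ℝ) (B : ℝ),
  LSDataT T U g h a' b' s₀ s₁ t₀ t₁ c W v C z₁ K ψ → (∀ s, ψ s ≤ B) →
  {x ∈ K | grad v x = 0}.Finite →
  IntegrableOn (fun x => resid ε g h x (grad v x) (hess2 v x) ^ 2 / vn (grad v x)) K →
  IntegrableOn (fun x => ψ (v x) * (len g x (grad v x) * dis0 ε g h x (grad v x) (hess2 v x))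
    * volDen g x) (K ∩ goodT W s₀ s₁ T z₁) ∧
  - (∫ x in K ∩ goodT W s₀ s₁ T z₁,
      deriv ψ (v x) * flux ε g h x (grad v x) (hess2 v x) * volDen g x)
    ≤ 4 * Real.pi * (∫ s, ψ s) + 4 * Real.pi * (T.card - 1) * (∫ s in Set.Iic c, ψ s)
      - 1 / (2 - ε) * (∫ x in K ∩ goodT W s₀ s₁ T z₁,
        ψ (v x) * flux ε g h x (grad v x) (hess2 v x) * volDen g x)
      - (∫ x in K ∩ goodT W s₀ s₁ T z₁, ψ (v x) * (len g x (grad v x)
          * (matter g h x (grad v x) + diss ε g h x (grad v x) (hess2 v x)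
            - dis0 ε g h x (grad v x) (hess2 v x))) * volDen g x)
      - (1 - θ) * (∫ x in K ∩ goodT W s₀ s₁ T z₁, ψ (v x) * (len g x (grad v x)
          * dis0 ε g h x (grad v x) (hess2 v x)) * volDen g x)
      + C₀ * B * ((∫ x in K, resid ε g h x (grad v x) (hess2 v x) ^ 2 / vn (grad v x))
        + ∫ x in badsetT W s₀ s₁ T z₁ ψ, (1 + vsq (grad v x)) * vn (grad v x))

/-! ## The limit -/

/-- **BADT.** The filled regions disappear in the limit (M_BAD.lean). -/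
def Stmt_BADT : Prop := ∀ (T : Finset E3) (U : Set E3) (a' b' s₀ s₁ : ℝ) (w : E3 → ℝ)
  (G : E3 → Cov) (M : E3 → Bil) (K : Set E3) (z₁ : E3) (v W : ℕ → E3 → ℝ) (C : ℕ → NNReal)
  (e : ℕ → ℝ) (f : E3 → ℝ), IsOpen U →
  H2s U w G M → IsCompact K → K ⊆ U →
  (∀ x ∈ K, s₀ < w x ∧ w x < s₁) → (∀ x ∈ K, ‖x‖ < b' ∧ ∀ p ∈ T, a' < ‖x - p‖) → b' ≤ ‖z₁‖ →
  TruncT T a' b' s₀ s₁ (trWT T a' b' s₀ s₁ w) →
  (∀ x, fillT (trWT T a' b' s₀ s₁ w) s₀ s₁ T z₁ x = trWT T a' b' s₀ s₁ w x) →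
  (∀ n, TruncT T a' b' s₀ s₁ (W n)) → (∀ n, LipschitzWith (C n) (W n)) →
  (∀ n, ContDiff ℝ ∞ (v n)) → (∀ n, ∀ x ∈ K, ∀ᶠ y in 𝓝 x, W n y = v n y) →
  Tendsto e atTop (𝓝 0) → (∀ n x, |W n x - trWT T a' b' s₀ s₁ w x| ≤ e n) →
  (∀ i, Tendsto (fun n => eLpNorm (fun x => pd i (v n) x - G x i) 4 (volume.restrict K))
    atTop (𝓝 0)) →
  ContDiff ℝ ∞ f → tsupport f ⊆ K → (∀ x, 0 ≤ f x) → (∀ x, f x ≤ 1) →
  Tendsto (fun n => ∫ x in K \ goodT (W n) s₀ s₁ T z₁, f x * vsq (G x)) atTop (𝓝 0)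

/-- The hypotheses of the limit: everything about the approximating sequence. -/
structure SeqDataT (T : Finset E3) (ε a b : ℝ) (g h : TensorField) (w : E3 → ℝ) (G : E3 → Cov)
    (M : E3 → Bil) (ψ : ℝ → ℝ) (a' b' s₀ s₁ t₀ t₁ c : ℝ) (z₁ : E3) (K K' : Set E3)
    (v W : ℕ → E3 → ℝ) (C : ℕ → NNReal) : Prop where
  ls : ∀ n, LSDataT T (AnnT T a b) g h a' b' s₀ s₁ t₀ t₁ c (W n) (v n) (C n) z₁ K ψ
  sub : K' ⊆ K
  compact' : IsCompact K'
  levels : ∀ x ∈ AnnT T a b, w x ∈ tsupport ψ → x ∈ K'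
  levelsn : ∀ n, ∀ x ∈ K, fillT (W n) s₀ s₁ T z₁ x ∈ tsupport ψ → x ∈ K'
  levelsv : ∀ n, ∀ x ∈ K, v n x ∈ tsupport ψ → x ∈ K'
  unif : TendstoUniformlyOn v w atTop K
  conv1 : ∀ i, Tendsto (fun n => eLpNorm (fun x => pd i (v n) x - G x i) 4 (volume.restrict K))
    atTop (𝓝 0)
  conv2 : ∀ i j, Tendsto (fun n => eLpNorm (fun x => pd i (pd j (v n)) x - M x i j) 2
    (volume.restrict K)) atTop (𝓝 0)
  crit : ∀ n, {x ∈ K | grad (v n) x = 0}.Finite
  int : ∀ n, IntegrableOn (fun x => resid ε g h x (grad (v n) x) (hess2 (v n) x) ^ 2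
    / vn (grad (v n) x)) K
  conv3 : Tendsto (fun n => ∫ x in K, resid ε g h x (grad (v n) x) (hess2 (v n) x) ^ 2
    / vn (grad (v n) x)) atTop (𝓝 0)
  bad : Tendsto (fun n => ∫ x in K' \ goodT (W n) s₀ s₁ T z₁, vsq (G x)) atTop (𝓝 0)

/-- **SEQT.** Existence of the approximating sequence (M_SEQ.lean).

The new point is `conn`. Choose `σ₀` in `(s₀, c)` (and below the support of `ψ`), and `σ₁ < s₁`. The
set in `TConn` is open, since `w ≤ s₀ < c` on `a < |x - r| ≤ a'` for `r ∈ T`; so two points of `T`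
are joined by a path in it, with compact image `L`. On `L` the function `trWT w` (with the levels
`σ₀`, `σ₁`) is less than `c`: it is `σ₀` on the balls of radius `a'`, it is `σ₁ < s₁ ≤ w < c` at the
points of `L` with `|x| ≥ b'`, and it is at most `max (σ₀, w)` elsewhere. So it is at most `c - δ` on
`L`, and `W n ≤ c - δ/2` on `L` for large `n`; then the filled function is at most `c - δ/2` on `L`,
since `fillA ≤ W n` and every point of `L` is connected with a point of `T` in `L`. Drop the first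
terms of the sequence. -/
def Stmt_SEQT : Prop := ∀ (ε a b s₀ s₁ c : ℝ) (T : Finset E3) (g h : TensorField) (w : E3 → ℝ)
  (G : E3 → Cov) (M : E3 → Bil), 0 < ε → ε < 1 → Pts T a b → s₀ < s₁ → s₀ < c →
  MetricOn (AnnT T a b) g → TensorOn (AnnT T a b) h → H2s (AnnT T a b) w G M →
  EqW (AnnT T a b) ε g h G M → NoIsland (AnnT T a b) w → SepT T a b s₀ s₁ w →
  TConn T a b c w →
  (∀ K : Set E3, IsCompact K → K ⊆ AnnT T a b →
    IntegrableOn (fun x => msq (M x) / vn (G x)) K) →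
  ∀ ψ : ℝ → ℝ, ContDiff ℝ 1 ψ → HasCompactSupport ψ → tsupport ψ ⊆ Set.Ioo s₀ s₁ →
    (∀ s, 0 ≤ ψ s) →
  ∃ (a' b' σ₀ σ₁ t₀ t₁ : ℝ) (z₁ : E3) (K K' : Set E3) (v W : ℕ → E3 → ℝ) (C : ℕ → NNReal),
    SeqDataT T ε a b g h w G M ψ a' b' σ₀ σ₁ t₀ t₁ c z₁ K K' v W C

/-- **MITT.** The limit inequality for fixed `θ` (M_MIT.lean). -/
def Stmt_MITT : Prop := ∀ (ε θ a b : ℝ) (T : Finset E3) (g h : TensorField) (w : E3 → ℝ)
  (G : E3 → Cov) (M : E3 → Bil) (ψ : ℝ → ℝ) (a' b' s₀ s₁ t₀ t₁ c : ℝ) (z₁ : E3)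
  (K K' : Set E3) (v W : ℕ → E3 → ℝ) (C : ℕ → NNReal), 0 < ε → ε < 1 → 0 < θ → θ < 1 →
  MetricOn (AnnT T a b) g → TensorOn (AnnT T a b) h → H2s (AnnT T a b) w G M →
  EqW (AnnT T a b) ε g h G M →
  (∀ K : Set E3, IsCompact K → K ⊆ AnnT T a b →
    IntegrableOn (fun x => msq (M x) / vn (G x)) K) →
  SeqDataT T ε a b g h w G M ψ a' b' s₀ s₁ t₀ t₁ c z₁ K K' v W C →
  - ∫ x in K, deriv ψ (w x) * flux ε g h x (G x) (M x) * volDen g x
    ≤ 4 * Real.pi * (∫ s, ψ s) + 4 * Real.pi * (T.card - 1) * (∫ s in Set.Iic c, ψ s)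
      - 1 / (2 - ε) * (∫ x in K, ψ (w x) * flux ε g h x (G x) (M x) * volDen g x)
      - (∫ x in K, ψ (w x) * (len g x (G x)
          * (matter g h x (G x) + diss ε g h x (G x) (M x) - dis0 ε g h x (G x) (M x)))
          * volDen g x)
      - (1 - θ) * ∫ x in K, ψ (w x) * (len g x (G x) * dis0 ε g h x (G x) (M x))
          * volDen g x

end Pool.Agent.PFU
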