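import Pool.Agent.PFU.Defs
import Pool.Agent.PFlow.P.Main

/-!
# Block PT: existence of the functions `u₀ ≤ u` with several inner balls (helper76)

Goal `Stmt_PT` (Defs.lean). Everything in `Pool/Agent/PFlow/P` and `Pool/Agent/PFlow/K` which does
not mention the annulus `a < |x| < b` is used unchanged (`PB.pEXI`, `PB.pHTWO`, `PB.pNDIV`, ...); the
statements below are the ones of `PFlow/StmtsPF.lean` with the ball `|x| < a` replaced by the balls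
`|x - p| < a`, `p ∈ T`, together with the comparison of the solutions for the tensors `0` and `h`.

All modules are independent of each other; they import `Pool.Agent.PFU.StmtsP` (which imports all of
block P of `PFlow`), and prove theorems without hypotheses. Namespace `Pool.Agent.PFU`.
-/

open MeasureTheory Filter Topology Set
open scoped ContDiff RealInnerProductSpace

namespace Pool.Agent.PFU

open Pool.Agent.PenroseSph Pool.Agent.PFlow Pool.Agent.PFT Pool.Agent.PFlow.PB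

/-! ### The penalty -/

/-- The inner cut-off of the penalty. -/
noncomputable def penI (T : Finset E3) (a : ℝ) (x : E3) : ℝ := ∑ p ∈ T, Close.chi1 a (x - p)

/-- The penalty: `Θ = θ` for `|x| ≤ b`, both vanish where `|x - p| ≥ a` for all `p ∈ T` and
`|x| ≤ b`, and `θ = 0` where `|x - p| ≥ a` for all `p ∈ T`. -/
structure PenT (T : Finset E3) (a b : ℝ) (Θ θ : E3 → ℝ) (B t₀ : ℝ) : Prop where
  pen : Pen Θ θ B t₀ (3 * b / 2)
  mid : ∀ x : E3, (∀ p ∈ T, a ≤ ‖x - p‖) → ‖x‖ ≤ b → Θ x = 0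
  inn : ∀ x : E3, ‖x‖ ≤ b → Θ x = θ x
  out : ∀ x : E3, (∀ p ∈ T, a ≤ ‖x - p‖) → θ x = 0

/-- **PENT.** The penalty used in the construction. Template: `Close.pen2` in
`Pool/Agent/PFlow/P/Close.lean` (`0 ≤ penI T a x ≤ T.card`). -/
def Stmt_PENT : Prop := ∀ (T : Finset E3) (a b lam : ℝ), Pts T a b → 0 < lam →
  PenT T a b (fun x => lam * (penI T a x + Close.chi2 b x)) (fun x => lam * penI T a x)
    (lam * (T.card + 1)) lam

/-- **CLOSET.** For a strong penalty the solution is close to `1` near the points of `T` and close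
to `0` outside, uniformly in `δ, κ`. Template: `close_thm` in `Pool/Agent/PFlow/P/Close.lean`: the
comparison functions are `(1 - η') ζ₁(x - p)` for each `p ∈ T` (translated cut-off) and
`η' + (1 - η') ζ₂(x)`; `lam₀ = (|C₃| + |C₄| + 1)/η'`. Where `(1 - η') ζ₁(x - p) > u`: `|x - p| ≤ 3a/4`,
`|x| ≤ b`, `penI T a x = S ≥ 1`, `-(Θ u - θ) = lam S (1 - u) ≥ lam η'`. (`PENT` may be taken as a
hypothesis of the module.) -/
def Stmt_CLOSET : Prop := ∀ (ε a b η : ℝ) (T : Finset E3) (g h : TensorField), 0 < ε → ε < 1 →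
  Pts T a b → 0 < η → GData g h (b / 2) → ∃ lam₀ : ℝ, 0 < lam₀ ∧ ∀ lam : ℝ, lam₀ ≤ lam →
  ∀ δ κ : ℝ, 0 < δ → δ ≤ 1 → 0 < κ → κ ≤ 1 → ∀ u G,
    WSol (cA ε δ κ g) (cB ε δ g h) (fun x => lam * (penI T a x + Close.chi2 b x))
      (fun x => lam * penI T a x) u G → Continuous u → (∀ x, 0 ≤ u x ∧ u x ≤ 1) →
    (∀ p ∈ T, ∀ x : E3, ‖x - p‖ ≤ a / 2 → 1 - η ≤ u x) ∧ (∀ x : E3, 2 * b ≤ ‖x‖ → u x ≤ η)

/-! ### The comparison of the two solutions -/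

/-- **PAIRC.** The solution for the drift `B ≥ 0` lies above the solution without drift. Paper:
`w = u₀ - u`, `W = G₀ - G`. Test the difference of the equations with `Ψ(w)`,
`Ψ = Psi` of `Pool/Agent/PFlow/P/Order.lean` (`Psi t = t²/(1+t)` for `t > 0`, `0` for `t ≤ 0`, `C¹` with
`0 ≤ Psi' ≤ 1`; `CHAIN.lip`): `c ∫ Ψ'(w)|W|² ≤ ∫ ⟪A(G₀) - A(G), Ψ'(w) W⟫ = ∫ (-B(x,G) - Θ w) Ψ(w) ≤ 0`.
So `Ψ'(w) W = 0` a.e.: `Ψ(w) ∈ H¹` has gradient zero, and `sq (Ψ(w)(· + h) - Ψ(w)) ≤ |h|² · 0` for every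
`h` (`API2.trans`), hence `Ψ(w) = 0` a.e. (also `∫ Θ w Ψ(w) = 0` and `Θ ≥ t₀ > 0` for `|x| ≥ r`:
take `|h| > 2r`). -/
def Stmt_PAIRC : Prop := ∀ A B c L r Θ θ T' t₀, PCoef A B c L r → Pen Θ θ T' t₀ r →
  (∀ x ξ, 0 ≤ B x ξ) → ∀ u₀ G₀ u G, WSol A (fun _ _ => 0) Θ θ u₀ G₀ → WSol A B Θ θ u G →
  ∀ᵐ x, u₀ x ≤ u x

/-- **KNN.** The drift is nonnegative for a 2-nonnegative tensor, and zero for the tensor `0`.
Paper: `S = lsq g x ξ ≥ 0`, `τ = trg g x (h x) ≥ 0` (`Stmt_HATA`, proved in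
`Pool/Agent/PFlow/E/HATA.lean`), `ev (h x) ξ^♯ ξ^♯ ≤ S τ` (scale the hypothesis by
`ev (g x) ξ^♯ ξ^♯ = S`), and `(1-ε) e ≤ S τ` in both cases `e ≥ 0`, `e < 0`. -/
def Stmt_KNN : Prop := ∀ (ε δ : ℝ) (g h : TensorField) (x : E3), 0 < ε → ε < 1 → 0 < δ →
  (g x).PosDef → (h x).IsSymm → (∀ v : Cov, ev (g x) v v = 1 → ev (h x) v v ≤ trg g x (h x)) →
  ∀ ξ : E3, 0 ≤ cB ε δ g h x ξ ∧ cB ε δ g 0 x ξ = 0

/-! ### The limit -/

/-- The limit `δ, κ → 0`: everything that is known about the sequence of regularised solutions and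
its limit (`Lim` of PFlow/StmtsPF.lean with several inner balls). -/
structure LimT (T : Finset E3) (ε a b : ℝ) (g h : TensorField) (Θ θ : E3 → ℝ) (B t₀ : ℝ)
    (δ κ : ℕ → ℝ) (u : ℕ → E3 → ℝ) (G : ℕ → E3 → E3) (M : ℕ → Fin 3 → E3 → E3) (C : ℝ)
    (v : E3 → ℝ) (F : E3 → E3) (N : Fin 3 → E3 → E3) : Prop where
  eps_pos : 0 < ε
  eps_lt : ε < 1
  pts : Pts T a b
  data : GData g h (b / 2)
  pen : PenT T a b Θ θ B t₀
  δ_pos : ∀ n, 0 < δ n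
  δ_le : ∀ n, δ n ≤ 1
  δ_tend : Tendsto δ atTop (𝓝 0)
  κ_pos : ∀ n, 0 < κ n
  κ_le : ∀ n, κ n ≤ 1
  κ_tend : Tendsto κ atTop (𝓝 0)
  sol : ∀ n, WSol (cA ε (δ n) (κ n) g) (cB ε (δ n) g h) Θ θ (u n) (G n)
  h2 : ∀ n, H2 (u n) (G n) (M n)
  cont : ∀ n, Continuous (u n)
  nonneg : ∀ n x, 0 ≤ u n x
  le_one : ∀ n x, u n x ≤ 1
  bound : ∀ n, PB.sq (u n) + sqv (G n) + ∑ i, sqv (M n i) ≤ C
  h2v : H2 v F N
  contv : Continuous v
  unif : ∀ K : Set E3, IsCompact K → TendstoUniformlyOn u v atTop K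
  strong : ∀ K : Set E3, IsCompact K →
    Tendsto (fun n => ∫ x in K, ‖G n x - F x‖ ^ 2) atTop (𝓝 0)
  ae : ∀ᵐ x, Tendsto (fun n => G n x) atTop (𝓝 (F x))
  weak : ∀ ψ : E3 → ℝ, MemLp ψ 2 → ∀ i j,
    Tendsto (fun n => ∫ x, ψ x * M n i x j) atTop (𝓝 (∫ x, ψ x * N i x j))

/-- **LIMXT.** Existence of the sequences for the tensors `0` and `h` (with the same penalty and the
same parameters) and of their limits. Template: `limx_thm` in `Pool/Agent/PFlow/P/LimX.lean`; take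
`lam` as the maximum of the two constants of `CLOSET`; solutions at `δ = κ = 1/(n+1)` for `0` and for
`h` (`PB.pEXI`, `PB.pHTWO`, `PB.pCONT`), `u₀ ≤ u` by `PAIRC` and `KNN` (`cB ε δ g 0 = 0` as functions);
`PB.pUNIF PB.pNDIV`, `PB.pCPT` for the first sequence, then for the second one along the first
subsequence; pass the first limit to the second subsequence (`StrictMono.tendsto_atTop`).
Hypotheses of the module: `Stmt_PENT`, `Stmt_CLOSET`, `Stmt_PAIRC`, `Stmt_KNN`. -/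
def Stmt_LIMXT : Prop := ∀ (ε a b η : ℝ) (T : Finset E3) (g h : TensorField), 0 < ε → ε < 1 →
  Pts T a b → 0 < η → GData g h (b / 2) → TwoNonneg univ g h →
  ∃ Θ θ B t₀ δ κ u₀ G₀ M₀ C₀ v₀ F₀ N₀ u G M C v F N,
    LimT T ε a b g 0 Θ θ B t₀ δ κ u₀ G₀ M₀ C₀ v₀ F₀ N₀ ∧
    LimT T ε a b g h Θ θ B t₀ δ κ u G M C v F N ∧
    (∀ p ∈ T, ∀ x : E3, ‖x - p‖ ≤ a / 2 → 1 - η ≤ v₀ x) ∧ (∀ x : E3, 2 * b ≤ ‖x‖ → v₀ x ≤ η) ∧
    (∀ p ∈ T, ∀ x : E3, ‖x - p‖ ≤ a / 2 → 1 - η ≤ v x) ∧ (∀ x : E3, 2 * b ≤ ‖x‖ → v x ≤ η) ∧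
    ∀ x, v₀ x ≤ v x

/-- **EQLT.** The equation of the limit. Template: `eql_thm` in `Pool/Agent/PFlow/P/EqL.lean` (its
auxiliary lemmas in `EQLAux` can be imported; they are about the coefficients only). -/
def Stmt_EQLT : Prop := ∀ T ε a b g h Θ θ B t₀ δ κ u G M C v F N,
  LimT T ε a b g h Θ θ B t₀ δ κ u G M C v F N → EqU (AnnT T a b) ε g h (fun x => F x) (mat N)

/-- **FLUXLT.** The flux identity of the limit. Template: `fluxl_thm` in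
`Pool/Agent/PFlow/P/FluxL.lean`. -/
def Stmt_FLUXLT : Prop := ∀ T ε a b g h Θ θ B t₀ δ κ u G M C v F N,
  LimT T ε a b g h Θ θ B t₀ δ κ u G M C v F N →
  ∀ χ : E3 → ℝ, ContDiff ℝ 1 χ → HasCompactSupport χ → tsupport χ ⊆ AnnT T a b →
    ∫ x, len g x (F x) ^ (ε - 1) * ev (g x)⁻¹ (F x) (grad χ x) * volDen g x
      = ∫ x, len g x (F x) ^ ε * beps ε g x (F x) (h x) * χ x * volDen g x

/-- **SUBLT.** Comparison for the limit. Template: `Pool/Agent/PFlow/P/SubL.lean`. -/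
def Stmt_SUBLT : Prop := ∀ T ε a b g h Θ θ B t₀ δ κ u G M C v F N,
  LimT T ε a b g h Θ θ B t₀ δ κ u G M C v F N →
  (∀ K : Set E3, IsCompact K → K ⊆ {x : E3 | ‖x‖ ≤ b} →
    ∀ f : E3 → ℝ, (∀ x ∈ K, ContDiffAt ℝ 2 f x) →
      (∀ x ∈ K, grad f x ≠ 0 ∧ 0 < opN ε g h f x) →
      (∀ x ∈ frontier K, f x ≤ v x) → ∀ x ∈ K, f x ≤ v x) ∧
  (∀ K : Set E3, IsCompact K → K ⊆ {x : E3 | ∀ p ∈ T, a ≤ ‖x - p‖} →
    ∀ f : E3 → ℝ, (∀ x ∈ K, ContDiffAt ℝ 2 f x) →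
      (∀ x ∈ K, grad f x ≠ 0 ∧ opN ε g h f x < 0) →
      (∀ x ∈ frontier K, v x ≤ f x) → ∀ x ∈ K, v x ≤ f x)

/-- **NOISLT.** No islands, from the comparison principle. Template:
`Pool/Agent/PFlow/P/NoIsl.lean`. -/
def Stmt_NOISLT : Prop := ∀ (ε a b : ℝ) (T : Finset E3) (g h : TensorField) (v : E3 → ℝ),
  0 < ε → ε < 1 → Pts T a b → GData g h (b / 2) → Continuous v →
  (∀ K : Set E3, IsCompact K → K ⊆ {x : E3 | ‖x‖ ≤ b} →
    ∀ f : E3 → ℝ, (∀ x ∈ K, ContDiffAt ℝ 2 f x) →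
      (∀ x ∈ K, grad f x ≠ 0 ∧ 0 < opN ε g h f x) →
      (∀ x ∈ frontier K, f x ≤ v x) → ∀ x ∈ K, f x ≤ v x) →
  (∀ K : Set E3, IsCompact K → K ⊆ {x : E3 | ∀ p ∈ T, a ≤ ‖x - p‖} →
    ∀ f : E3 → ℝ, (∀ x ∈ K, ContDiffAt ℝ 2 f x) →
      (∀ x ∈ K, grad f x ≠ 0 ∧ opN ε g h f x < 0) →
      (∀ x ∈ frontier K, v x ≤ f x) → ∀ x ∈ K, v x ≤ f x) →
  NoIsland (AnnT T a b) v

end Pool.Agent.PFU
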