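import Pool.Agent.PFU.StmtsL

/-!
# USAMT: the modified capped data agree with the given data outside the caps
-/

open MeasureTheory Filter Topology
open scoped ContDiff ENNReal

namespace Pool.Agent.PFU

open Pool.Agent.PenroseSph Pool.Agent.PFlow Pool.Agent.PFT

namespace USAMT

theorem kap_one {s : ℝ} (hs : s ≤ 1) : kap s = 1 :=
  Real.smoothTransition.one_of_one_le (by linarith)

theorem kap_zero {s : ℝ} (hs : 2 ≤ s) : kap s = 0 :=
  Real.smoothTransition.zero_of_nonpos (by linarith)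

theorem kin_one {R : ℝ} (hR : 0 < R) {x : E3} (hx : 1 / (16 * R) ≤ ‖x‖) : kin R x = 1 := by
  have h1 : 2 ≤ 32 * R * ‖x‖ := by
    rw [div_le_iff₀ (by positivity)] at hx
    nlinarith
  rw [kin, kap_zero h1, sub_zero]

theorem chiN_one {T : Finset E3} {R : ℝ} (hR : 0 < R) {x : E3}
    (hx : ∀ p ∈ T, 1 / (16 * R) ≤ ‖x - p‖) : chiN T R x = 1 := by
  unfold chiN
  exact Finset.prod_eq_one fun p hp => kin_one hR (hx p hp)

theorem abs_hatF_le (η t : ℝ) : |hatF η t| ≤ 1 := by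
  unfold hatF
  rw [abs_div, abs_of_nonneg (Real.sqrt_nonneg _)]
  apply div_le_one_of_le₀ _ (Real.sqrt_nonneg _)
  apply Real.abs_le_sqrt
  nlinarith [sq_nonneg η]

/-- Near `x` the modified metric is the given one. -/
theorem metric_eq {T : Finset E3} {l R : ℝ} (g₁ : TensorField) (hl : 0 < l) (hR : 0 < R) {x : E3}
    (hxl : ‖x‖ < l) (hx1 : ∀ p ∈ T, 1 / (8 * R) ≤ ‖x - p‖) : modGT T l R g₁ =ᶠ[𝓝 x] g₁ := by
  have e1 : ∀ᶠ y : E3 in 𝓝 x, ‖y‖ < l :=
    (continuous_norm.tendsto x).eventually_lt_const hxl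
  have e2 : ∀ᶠ y : E3 in 𝓝 x, ∀ p ∈ T, 1 / (16 * R) < ‖y - p‖ := by
    rw [Filter.eventually_all_finset]
    intro p hp
    have h1 : 1 / (16 * R) < ‖x - p‖ := by
      refine lt_of_lt_of_le ?_ (hx1 p hp)
      apply one_div_lt_one_div_of_lt (by positivity)
      linarith
    have h2 : Continuous fun y : E3 => ‖y - p‖ := by fun_prop
    exact (h2.tendsto x).eventually_const_lt h1
  filter_upwards [e1, e2] with y h1 h2
  have h4 : kap (‖y‖ / l) = 1 := by
    apply kap_one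
    rw [div_le_one hl]
    exact h1.le
  rw [modGT, h4, chiN_one hR fun p hp => (h2 p hp).le, one_mul, one_smul, add_sub_cancel]

/-- The modified tensor is a small multiple of the given one. -/
theorem tensor_eq {T : Finset E3} {l R : ℝ} (η : ℝ) (g₁ k₁ : TensorField) (hl : 0 < l)
    (hR : 0 < R) {x : E3} (hxl : 2 * ‖x‖ ≤ l) (hx1 : ∀ p ∈ T, 1 / (8 * R) ≤ ‖x - p‖) :
    modHT T η l R g₁ k₁ x = hatF η (trg g₁ x (k₁ x)) • k₁ x := by
  have h4 : kap (2 * ‖x‖ / l) = 1 := by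
    apply kap_one
    rw [div_le_one hl]
    exact hxl
  have h5 : chiN T (R / 2) x = 1 := by
    apply chiN_one (by positivity)
    intro p hp
    have : 16 * (R / 2) = 8 * R := by ring
    rw [this]
    exact hx1 p hp
  rw [modHT, h4, h5, one_mul, one_smul, hat]

/-- Near `x` the capped metric is the given one. -/
theorem capped_eq {P T : Finset E3} {g k g₁ k₁ : TensorField} {C₁ N : ℝ} {e₁ : E3 → ℝ}
    (hc : CappedT P T g k C₁ N g₁ k₁ e₁) (hN : 0 < N) {x : E3}
    (hx3 : ∀ p ∈ P, p ∉ T → 1 / (8 * N) < ‖x - p‖) : g₁ =ᶠ[𝓝 x] g := by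
  have e3 : ∀ᶠ y : E3 in 𝓝 x, ∀ p ∈ P, p ∉ T → 1 / (16 * N) < ‖y - p‖ := by
    rw [Filter.eventually_all_finset]
    intro p hp
    by_cases hp0 : p ∈ T
    · exact Filter.Eventually.of_forall (fun y h => absurd hp0 h)
    · have h1 : 1 / (16 * N) < ‖x - p‖ := by
        refine lt_trans ?_ (hx3 p hp hp0)
        apply one_div_lt_one_div_of_lt (by positivity)
        linarith
      have h2 : Continuous fun y : E3 => ‖y - p‖ := by fun_prop
      filter_upwards [(h2.tendsto x).eventually_const_lt h1] with y hy _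
      exact hy
  filter_upwards [e3] with y h3
  exact hc.same y h3

end USAMT

theorem t_USAMT : Stmt_USAMT := by
  intro P T g k C₁ N g₁ k₁ e₁ _ _ hc hN l R η r₂ hl hlR _ hr
  have hR : 0 < R := by linarith
  have hN0 : 0 < N := by linarith
  have hl0 : 0 < l := by linarith
  refine ⟨?_, ?_, ?_, ?_⟩
  · intro x hx1 hx2 hx3
    refine ⟨(USAMT.metric_eq g₁ hl0 hR (by linarith [norm_nonneg x]) hx1).trans
      (USAMT.capped_eq hc hN0 hx3), hatF η (trg g₁ x (k₁ x)), USAMT.abs_hatF_le _ _, ?_⟩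
    rw [USAMT.tensor_eq η g₁ k₁ hl0 hR (by linarith) hx1, hc.sameK x hx3]
  · intro x hx1 hx2 hx3
    refine ⟨(USAMT.metric_eq g₁ hl0 hR (by linarith [norm_nonneg x]) hx1).trans
      (USAMT.capped_eq hc hN0 hx3), 0, by simp, ?_⟩
    simp
  · intro x hx1 hx2 _
    refine ⟨USAMT.metric_eq g₁ hl0 hR (by linarith [norm_nonneg x]) hx1,
      hatF η (trg g₁ x (k₁ x)), USAMT.abs_hatF_le _ _, ?_⟩
    exact USAMT.tensor_eq η g₁ k₁ hl0 hR (by linarith) hx1
  · intro x hx1 hx2 _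
    refine ⟨USAMT.metric_eq g₁ hl0 hR (by linarith [norm_nonneg x]) hx1, 0, by simp, ?_⟩
    simp

end Pool.Agent.PFU
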